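import Pool.Agent.H89.Nz.W7
import Pool.Agent.H89.Nz.PXA
import Pool.Agent.H61.Rz.Tq
import Pool.Agent.H61.Rz.SyA

/-! # generated: the near zone of the vertex `2` for `dA` -/

set_option autoImplicit false
set_option maxRecDepth 1000000
set_option linter.all false

namespace Pool.H61.Rh

open Complex Pool.H47.Kc Pool.H47.K3

def nxA_0 : List Sym :=
  [⟨[⟨.ofNat 174886129233307, 47⟩], 2797⟩,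
   ⟨[⟨.negSucc 649712150672, 47⟩, ⟨.ofNat 73191603755, 46⟩, ⟨.ofNat 292766461613, 48⟩, ⟨.ofNat 1734158421, 46⟩, ⟨.ofNat 3469192951, 47⟩, ⟨.ofNat 425713, 44⟩, ⟨.ofNat 13300985, 48⟩, ⟨.negSucc 1346008, 47⟩], 17069460729⟩,
   ⟨[⟨.ofNat 800646880199, 48⟩, ⟨.ofNat 800646879835, 48⟩, ⟨.ofNat 746867539, 46⟩, ⟨.ofNat 2987403279, 48⟩, ⟨.negSucc 490035536, 48⟩, ⟨.negSucc 490724064, 48⟩, ⟨.negSucc 1874694, 46⟩, ⟨.negSucc 8247748, 48⟩], 10405077284⟩,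
   ⟨[⟨.negSucc 3746053229902, 48⟩, ⟨.negSucc 468256654756, 45⟩, ⟨.ofNat 35340030853, 47⟩, ⟨.ofNat 70678561085, 48⟩, ⟨.negSucc 1314140546, 48⟩, ⟨.negSucc 664865092, 47⟩, ⟨.ofNat 36060547, 48⟩, ⟨.ofNat 9391027, 47⟩], 1757745347⟩,
   ⟨[⟨.negSucc 29573590504968, 47⟩, ⟨.ofNat 482815132763, 47⟩, ⟨.ofNat 965630676289, 48⟩, ⟨.negSucc 8960851024, 47⟩, ⟨.negSucc 17905940156, 48⟩, ⟨.ofNat 306619101, 48⟩, ⟨.ofNat 367635673, 48⟩, ⟨.negSucc 28153846, 48⟩], 5809458435⟩,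
   ⟨[⟨.ofNat 261423980969, 46⟩], 3927⟩,
   ⟨[⟨.negSucc 150933205784, 46⟩], 2008⟩,
   ⟨[⟨.negSucc 261423980968, 46⟩], 3928⟩,
   ⟨[⟨.ofNat 1616609760695, 48⟩], 2270⟩,
   ⟨[⟨.negSucc 16138, 19⟩], 1017⟩,
   ⟨[⟨.ofNat 67358740029, 45⟩], 2026⟩,
   ⟨[⟨.negSucc 16138, 20⟩], 1017⟩,
   ⟨[⟨.ofNat 67358740029, 44⟩], 3050⟩,
   ⟨[⟨.ofNat 20775, 20⟩], 1017⟩,
   ⟨[⟨.negSucc 20323625498852, 48⟩], 1602⟩,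
   ⟨[⟨.negSucc 682, 14⟩], 1017⟩]

def nxA_1 : List Sym :=
  [⟨[⟨.ofNat 2049, 14⟩], 1017⟩,
   ⟨[⟨.ofNat 20323625498853, 48⟩], 1601⟩,
   ⟨[⟨.negSucc 5471226735398, 47⟩], 2357⟩,
   ⟨[⟨.negSucc 20596, 19⟩], 1017⟩,
   ⟨[⟨.ofNat 20358263815555, 47⟩], 2459⟩,
   ⟨[⟨.ofNat 61265, 19⟩], 1017⟩,
   ⟨[⟨.negSucc 51658981101906, 48⟩], 2543⟩,
   ⟨[⟨.negSucc 14622, 18⟩], 1017⟩,
   ⟨[⟨.negSucc 261423980968, 46⟩, ⟨.ofNat 194220990409, 46⟩, ⟨.ofNat 194220990409, 46⟩, ⟨.ofNat 84833647849, 47⟩, ⟨.ofNat 84833647849, 47⟩], 13383⟩,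
   ⟨[⟨.negSucc 1113397791974, 46⟩, ⟨.negSucc 1113397791974, 46⟩, ⟨.ofNat 23426364185, 46⟩, ⟨.ofNat 23426364185, 46⟩], 5084⟩,
   ⟨[⟨.ofNat 261423980969, 46⟩, ⟨.ofNat 6186115111177, 48⟩, ⟨.ofNat 6186115111177, 48⟩, ⟨.ofNat 74802492721, 45⟩, ⟨.ofNat 74802492721, 45⟩], 10641⟩,
   ⟨[⟨.negSucc 1616609760694, 48⟩, ⟨.negSucc 5463555161900, 48⟩, ⟨.negSucc 5463555161900, 48⟩, ⟨.ofNat 575368012327, 47⟩, ⟨.ofNat 575368012327, 47⟩], 6829⟩,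
   ⟨[⟨.ofNat 3413, 18⟩, ⟨.ofNat 3413, 18⟩, ⟨.ofNat 4209, 19⟩, ⟨.ofNat 4209, 19⟩], 1481⟩,
   ⟨[⟨.negSucc 67358740028, 45⟩, ⟨.negSucc 901642357902, 46⟩, ⟨.negSucc 901642357902, 46⟩, ⟨.negSucc 8078399364, 45⟩, ⟨.negSucc 8078399364, 45⟩], 6746⟩,
   ⟨[⟨.ofNat 3413, 19⟩, ⟨.ofNat 3413, 19⟩, ⟨.ofNat 4209, 20⟩, ⟨.ofNat 4209, 20⟩], 1265⟩,
   ⟨[⟨.negSucc 67358740028, 44⟩, ⟨.negSucc 7213138863222, 48⟩, ⟨.negSucc 7213138863222, 48⟩, ⟨.negSucc 8078399364, 44⟩, ⟨.negSucc 8078399364, 44⟩], 4208⟩]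

def nxA_2 : List Sym :=
  [⟨[⟨.ofNat 21897, 19⟩, ⟨.ofNat 21897, 19⟩, ⟨.negSucc 2264, 20⟩, ⟨.negSucc 2264, 20⟩], 1358⟩,
   ⟨[⟨.ofNat 20323625498853, 48⟩, ⟨.negSucc 489353400382, 47⟩, ⟨.negSucc 489353400382, 47⟩, ⟨.negSucc 35713499350, 44⟩, ⟨.negSucc 35713499350, 44⟩], 2157⟩,
   ⟨[⟨.negSucc 31664, 18⟩, ⟨.negSucc 31664, 18⟩, ⟨.negSucc 3758, 20⟩, ⟨.negSucc 3758, 20⟩], 1157⟩,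
   ⟨[⟨.ofNat 6959, 18⟩, ⟨.ofNat 6959, 18⟩, ⟨.negSucc 1328, 20⟩, ⟨.negSucc 1328, 20⟩], 1156⟩,
   ⟨[⟨.negSucc 20323625498852, 48⟩, ⟨.ofNat 1403433006229, 47⟩, ⟨.ofNat 1403433006229, 47⟩, ⟨.negSucc 1055887479590, 48⟩, ⟨.negSucc 1055887479590, 48⟩], 2958⟩,
   ⟨[⟨.ofNat 5471226735399, 47⟩, ⟨.negSucc 23767984012, 38⟩, ⟨.negSucc 23767984012, 38⟩, ⟨.ofNat 4525763419789, 48⟩, ⟨.ofNat 4525763419789, 48⟩], 7864⟩,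
   ⟨[⟨.ofNat 24847, 17⟩, ⟨.ofNat 24847, 17⟩, ⟨.negSucc 6718, 18⟩, ⟨.negSucc 6718, 18⟩], 1265⟩,
   ⟨[⟨.negSucc 20358263815554, 47⟩, ⟨.ofNat 6544084665455, 48⟩, ⟨.ofNat 6544084665455, 48⟩, ⟨.negSucc 74391015734, 47⟩, ⟨.negSucc 74391015734, 47⟩], 5854⟩,
   ⟨[⟨.negSucc 83426, 20⟩, ⟨.negSucc 83426, 20⟩, ⟨.ofNat 175, 15⟩, ⟨.ofNat 175, 15⟩], 1202⟩,
   ⟨[⟨.ofNat 51658981101907, 48⟩, ⟨.negSucc 8539158718702, 48⟩, ⟨.negSucc 8539158718702, 48⟩, ⟨.ofNat 645574533427, 46⟩, ⟨.ofNat 645574533427, 46⟩], 4725⟩,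
   ⟨[⟨.ofNat 40505, 20⟩, ⟨.ofNat 40505, 20⟩, ⟨.negSucc 6604, 18⟩, ⟨.negSucc 6604, 18⟩], 1202⟩]

/-- enclosures of the additional symbols on `[0, 1]` -/
def nxA : List Sym := nxA_0 ++ (nxA_1 ++ (nxA_2))

/-- enclosures of all symbols on `[3/4, 1]` -/
def nzA_0 : List Sym :=
  [⟨[⟨.negSucc 72505118, 29⟩, ⟨.ofNat 1404647, 30⟩, ⟨.ofNat 6669657, 29⟩], 488791693276⟩,
   ⟨[⟨.negSucc 65144, 29⟩, ⟨.ofNat 229879415, 30⟩, ⟨.negSucc 876736, 30⟩, ⟨.negSucc 101368, 25⟩], 10488503692⟩,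
   ⟨[⟨.ofNat 1363762299, 30⟩, ⟨.negSucc 1404646, 29⟩, ⟨.negSucc 26678626, 30⟩], 977395514672⟩,
   ⟨[⟨.negSucc 976190230, 30⟩, ⟨.ofNat 779211, 28⟩, ⟨.ofNat 29599289, 30⟩], 1083836463952⟩,
   ⟨[⟨.ofNat 526828263, 29⟩, ⟨.ofNat 183967, 26⟩, ⟨.negSucc 25148734, 29⟩, ⟨.ofNat 4223251, 30⟩], 33199606209⟩,
   ⟨[⟨.negSucc 4116144, 27⟩, ⟨.ofNat 19269, 26⟩, ⟨.ofNat 9044377, 29⟩], 125740567374⟩,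
   ⟨[⟨.negSucc 348170, 28⟩, ⟨.ofNat 31991397, 30⟩, ⟨.negSucc 2713552, 29⟩], 1158778157569⟩,
   ⟨[⟨.negSucc 215666, 29⟩, ⟨.ofNat 63626021, 30⟩, ⟨.negSucc 1458694, 29⟩, ⟨.negSucc 5530648, 30⟩], 30531098503⟩,
   ⟨[⟨.ofNat 526084877, 29⟩, ⟨.ofNat 9967483, 30⟩, ⟨.negSucc 160780158, 30⟩, ⟨.ofNat 14344607, 30⟩], 111088856449⟩,
   ⟨[⟨.ofNat 2446520867, 30⟩, ⟨.ofNat 14028497, 30⟩, ⟨.negSucc 206910930, 30⟩, ⟨.ofNat 20277111, 30⟩], 154772695363⟩,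
   ⟨[⟨.ofNat 3169701, 30⟩, ⟨.negSucc 1494701490, 30⟩, ⟨.ofNat 21416817, 30⟩, ⟨.ofNat 48313195, 30⟩], 224733581570⟩,
   ⟨[⟨.negSucc 1053892, 30⟩, ⟨.ofNat 228840963, 30⟩, ⟨.negSucc 7165218, 30⟩, ⟨.negSucc 9662656, 30⟩], 73816734649⟩,
   ⟨[⟨.ofNat 1763252523, 30⟩, ⟨.ofNat 6109953, 29⟩, ⟨.negSucc 75639040, 29⟩, ⟨.ofNat 18277573, 30⟩], 127876357580⟩,
   ⟨[⟨.negSucc 453902, 29⟩, ⟨.ofNat 114560889, 29⟩, ⟨.negSucc 3079686, 29⟩, ⟨.negSucc 9709836, 30⟩], 64308495760⟩,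
   ⟨[⟨.ofNat 1770774511, 30⟩, ⟨.ofNat 5484845, 29⟩, ⟨.negSucc 36171472, 28⟩, ⟨.ofNat 16201189, 30⟩], 117843591817⟩,
   ⟨[⟨.ofNat 538852787, 29⟩, ⟨.ofNat 702035, 29⟩, ⟨.ofNat 842431, 29⟩], 508440842644⟩]

def nzA_1 : List Sym :=
  [⟨[⟨.ofNat 535753897, 29⟩, ⟨.ofNat 1124417, 29⟩, ⟨.negSucc 604106, 30⟩], 805037166414⟩,
   ⟨[⟨.negSucc 119458, 29⟩, ⟨.ofNat 53781, 25⟩, ⟨.negSucc 1141422, 30⟩], 144307812655⟩,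
   ⟨[⟨.ofNat 524031, 19⟩, ⟨.ofNat 35361, 29⟩, ⟨.negSucc 527614, 30⟩], 38324978194⟩,
   ⟨[⟨.ofNat 267011439, 28⟩, ⟨.ofNat 2463425, 30⟩, ⟨.ofNat 1679347, 30⟩], 853123652896⟩,
   ⟨[⟨.negSucc 562548, 30⟩, ⟨.ofNat 6547105, 30⟩, ⟨.negSucc 652702, 28⟩], 359960157046⟩,
   ⟨[⟨.negSucc 240018, 30⟩, ⟨.ofNat 4429055, 29⟩, ⟨.negSucc 100760, 26⟩, ⟨.negSucc 3632480, 30⟩], 18314474188⟩,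
   ⟨[⟨.ofNat 67116003, 26⟩, ⟨.ofNat 113195, 26⟩, ⟨.negSucc 4934390, 29⟩, ⟨.ofNat 2494013, 30⟩], 21832748506⟩,
   ⟨[⟨.negSucc 32141718, 26⟩, ⟨.negSucc 1507052, 30⟩, ⟨.negSucc 652076, 30⟩], 517566719086⟩,
   ⟨[⟨.ofNat 69175, 28⟩, ⟨.negSucc 3207270, 30⟩, ⟨.ofNat 652795, 29⟩], 172118104322⟩,
   ⟨[⟨.ofNat 1265459, 30⟩, ⟨.negSucc 4106904, 29⟩, ⟨.ofNat 5322665, 30⟩], 945973187419⟩,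
   ⟨[⟨.negSucc 517857414, 30⟩, ⟨.ofNat 774949, 29⟩, ⟨.ofNat 1758075, 30⟩], 551855129727⟩,
   ⟨[⟨.ofNat 284239, 30⟩, ⟨.negSucc 256822438, 30⟩, ⟨.ofNat 1915343, 30⟩, ⟨.ofNat 5368887, 30⟩], 21153095329⟩,
   ⟨[⟨.negSucc 88754674, 29⟩, ⟨.ofNat 1195217, 29⟩, ⟨.ofNat 31212811, 30⟩], 815877980607⟩,
   ⟨[⟨.negSucc 799766, 30⟩, ⟨.ofNat 1099785, 27⟩, ⟨.negSucc 3040962, 30⟩], 693713360249⟩,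
   ⟨[⟨.ofNat 5901541, 30⟩, ⟨.ofNat 47447, 30⟩, ⟨.negSucc 3087104, 30⟩], 11711690582⟩,
   ⟨[⟨.ofNat 46131127, 30⟩, ⟨.ofNat 1976161, 30⟩, ⟨.negSucc 28024428, 30⟩], 699385937993⟩]

def nzA_2 : List Sym :=
  [⟨[⟨.ofNat 41399, 26⟩, ⟨.negSucc 49049360, 30⟩, ⟨.ofNat 2304171, 30⟩], 651877962973⟩,
   ⟨[⟨.ofNat 81303, 26⟩, ⟨.ofNat 328975, 28⟩, ⟨.ofNat 8654165, 30⟩, ⟨.negSucc 7281810, 30⟩], 96680239234⟩,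
   ⟨[⟨.negSucc 2488892, 27⟩, ⟨.ofNat 1908421, 30⟩, ⟨.ofNat 15700299, 30⟩], 687506349146⟩,
   ⟨[⟨.ofNat 4588119, 30⟩, ⟨.negSucc 135788, 29⟩, ⟨.ofNat 30523411, 30⟩, ⟨.negSucc 9707162, 28⟩], 340100154622⟩,
   ⟨[⟨.ofNat 2205689, 28⟩, ⟨.negSucc 26452354, 29⟩, ⟨.ofNat 29347609, 29⟩, ⟨.negSucc 8445784, 30⟩], 654487682923⟩,
   ⟨[⟨.negSucc 14122976, 30⟩, ⟨.negSucc 2857910, 27⟩, ⟨.ofNat 1065749, 25⟩, ⟨.negSucc 29462, 20⟩], 285354766581⟩,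
   ⟨[⟨.negSucc 123874, 28⟩, ⟨.negSucc 9555298, 30⟩, ⟨.negSucc 1648208, 29⟩, ⟨.ofNat 15402809, 30⟩], 36983954957⟩,
   ⟨[⟨.negSucc 441342, 26⟩, ⟨.negSucc 2857910, 28⟩, ⟨.ofNat 1065749, 26⟩, ⟨.negSucc 29462, 21⟩], 143152425786⟩,
   ⟨[⟨.negSucc 991000, 30⟩, ⟨.negSucc 9555298, 29⟩, ⟨.negSucc 6592836, 30⟩, ⟨.ofNat 15402809, 29⟩], 75071499848⟩,
   ⟨[⟨.ofNat 64786765, 30⟩, ⟨.ofNat 1537935, 28⟩, ⟨.negSucc 3611420, 26⟩, ⟨.ofNat 15855, 21⟩], 76999192074⟩,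
   ⟨[⟨.ofNat 32405973, 30⟩, ⟨.negSucc 13268108, 29⟩, ⟨.ofNat 19726837, 30⟩, ⟨.negSucc 37751912, 30⟩], 299999644225⟩,
   ⟨[⟨.negSucc 25840, 25⟩, ⟨.ofNat 270760583, 30⟩, ⟨.negSucc 2795088, 29⟩, ⟨.negSucc 1772844, 27⟩], 59328436949⟩,
   ⟨[⟨.ofNat 11717529, 27⟩, ⟨.negSucc 42907442, 29⟩, ⟨.negSucc 11970150, 27⟩, ⟨.negSucc 60902082, 29⟩], 973736320727⟩,
   ⟨[⟨.negSucc 17439274, 29⟩, ⟨.negSucc 15587184, 30⟩, ⟨.ofNat 229224281, 30⟩, ⟨.negSucc 8815448, 28⟩, ⟨.negSucc 1423450, 25⟩], 13548043110⟩,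
   ⟨[⟨.negSucc 5664700, 30⟩, ⟨.negSucc 16533530, 30⟩, ⟨.negSucc 38400224, 30⟩, ⟨.negSucc 54682836, 29⟩], 397472271819⟩,
   ⟨[⟨.negSucc 91218104, 30⟩, ⟨.ofNat 5095921, 30⟩, ⟨.ofNat 19094659, 26⟩, ⟨.ofNat 6712475, 30⟩], 65270741837⟩]

def nzA_3 : List Sym :=
  [⟨[⟨.ofNat 1345443, 30⟩, ⟨.negSucc 247997454, 30⟩, ⟨.ofNat 9106421, 30⟩, ⟨.ofNat 12166205, 29⟩], 95154555240⟩,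
   ⟨[⟨.negSucc 2190538, 29⟩, ⟨.negSucc 31139176, 29⟩, ⟨.negSucc 14573014, 29⟩, ⟨.ofNat 18276683, 30⟩], 325759144035⟩,
   ⟨[⟨.negSucc 176671336, 30⟩, ⟨.ofNat 2552361, 28⟩, ⟨.ofNat 6764277, 26⟩, ⟨.ofNat 26313, 21⟩], 127901936365⟩,
   ⟨[⟨.ofNat 81002917, 29⟩, ⟨.ofNat 902391, 28⟩, ⟨.negSucc 2255956, 26⟩, ⟨.ofNat 9303, 21⟩], 45549293908⟩,
   ⟨[⟨.negSucc 8095546, 30⟩, ⟨.ofNat 30828635, 28⟩, ⟨.negSucc 53857308, 30⟩, ⟨.ofNat 8083121, 29⟩], 600450194654⟩,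
   ⟨[⟨.negSucc 2157582, 28⟩, ⟨.negSucc 1324352, 24⟩, ⟨.negSucc 57386484, 29⟩, ⟨.ofNat 241951605, 30⟩, ⟨.negSucc 37765912, 29⟩], 36365329156⟩,
   ⟨[⟨.ofNat 18195005, 27⟩, ⟨.ofNat 4562201, 26⟩, ⟨.negSucc 5579098, 24⟩, ⟨.ofNat 47033, 19⟩], 910963729294⟩,
   ⟨[⟨.negSucc 71294, 26⟩, ⟨.ofNat 23153471, 27⟩, ⟨.negSucc 7588876, 30⟩, ⟨.negSucc 21177022, 30⟩], 85263244375⟩,
   ⟨[⟨.ofNat 43334447, 30⟩, ⟨.negSucc 118824, 23⟩, ⟨.ofNat 229329, 21⟩, ⟨.negSucc 1224, 16⟩], 189785033157⟩,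
   ⟨[⟨.negSucc 307766, 26⟩, ⟨.negSucc 201207382, 30⟩, ⟨.negSucc 32743428, 29⟩, ⟨.ofNat 117651907, 30⟩, ⟨.negSucc 21548374, 29⟩], 21281863304⟩,
   ⟨[⟨.negSucc 16977236, 29⟩, ⟨.ofNat 4484795, 26⟩, ⟨.negSucc 3006064, 24⟩, ⟨.ofNat 46235, 19⟩], 895781019855⟩,
   ⟨[⟨.negSucc 157359772, 28⟩, ⟨.ofNat 20589137, 30⟩, ⟨.ofNat 1495421, 28⟩, ⟨.ofNat 46624541, 30⟩, ⟨.ofNat 62123651, 30⟩], 17821522652⟩,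
   ⟨[⟨.ofNat 1274845, 29⟩, ⟨.ofNat 963527895, 29⟩, ⟨.ofNat 17391831, 30⟩, ⟨.ofNat 30874079, 29⟩], 175228790539⟩,
   ⟨[⟨.ofNat 2412871, 30⟩, ⟨.negSucc 235239370, 29⟩, ⟨.ofNat 8164845, 29⟩, ⟨.ofNat 43469047, 30⟩], 170668379663⟩,
   ⟨[⟨.ofNat 168008427, 28⟩, ⟨.ofNat 1296537, 25⟩, ⟨.negSucc 27957466, 26⟩, ⟨.ofNat 46941853, 29⟩, ⟨.ofNat 122508335, 30⟩], 35485512725⟩,
   ⟨[⟨.negSucc 250774172, 28⟩, ⟨.negSucc 92975888, 29⟩, ⟨.ofNat 1487230075, 29⟩, ⟨.negSucc 420629062, 30⟩, ⟨.negSucc 135475716, 28⟩], 159356418600⟩]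

def nzA_4 : List Sym :=
  [⟨[⟨.negSucc 995272, 27⟩, ⟨.negSucc 438926504, 27⟩, ⟨.negSucc 113022712, 30⟩, ⟨.ofNat 535224761, 29⟩, ⟨.negSucc 85698366, 30⟩], 29379746456⟩,
   ⟨[⟨.ofNat 685493255, 29⟩, ⟨.ofNat 81631211, 30⟩, ⟨.negSucc 96091232, 27⟩, ⟨.ofNat 117275771, 30⟩], 909048014492⟩,
   ⟨[⟨.negSucc 9462234, 30⟩, ⟨.ofNat 180663353, 27⟩, ⟨.negSucc 8007554, 27⟩, ⟨.negSucc 86537144, 29⟩], 665176269731⟩,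
   ⟨[⟨.negSucc 437488610, 28⟩, ⟨.negSucc 102628396, 30⟩, ⟨.ofNat 155830207, 27⟩, ⟨.negSucc 232210844, 30⟩, ⟨.negSucc 302096464, 30⟩], 88306703330⟩,
   ⟨[⟨.negSucc 7148308, 30⟩, ⟨.negSucc 506492678, 29⟩, ⟨.negSucc 101694612, 30⟩, ⟨.ofNat 982330225, 30⟩, ⟨.negSucc 77442534, 30⟩], 25825912851⟩,
   ⟨[⟨.ofNat 11123925, 28⟩, ⟨.ofNat 371175, 30⟩, ⟨.negSucc 25351010, 30⟩], 117207297514⟩,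
   ⟨[⟨.negSucc 26078, 28⟩, ⟨.negSucc 4458608, 27⟩, ⟨.negSucc 346136, 29⟩, ⟨.ofNat 2663173, 30⟩], 8366400688⟩,
   ⟨[⟨.negSucc 16474238, 29⟩, ⟨.ofNat 80749, 28⟩, ⟨.ofNat 4522013, 28⟩], 124416539935⟩,
   ⟨[⟨.negSucc 1388554, 30⟩, ⟨.ofNat 7998595, 28⟩, ⟨.negSucc 2712498, 29⟩], 1150594420963⟩,
   ⟨[⟨.ofNat 1074432565, 30⟩, ⟨.negSucc 580668, 30⟩, ⟨.ofNat 283313, 30⟩], 211184278538⟩,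
   ⟨[⟨.ofNat 89003813, 29⟩, ⟨.ofNat 410571, 30⟩, ⟨.ofNat 279891, 30⟩], 142188803408⟩,
   ⟨[⟨.negSucc 46878, 29⟩, ⟨.ofNat 68199, 26⟩, ⟨.negSucc 435134, 30⟩], 60329265349⟩,
   ⟨[⟨.negSucc 439626, 30⟩, ⟨.ofNat 2860397, 30⟩, ⟨.negSucc 929118, 29⟩], 326396789372⟩,
   ⟨[⟨.ofNat 22406237, 27⟩, ⟨.negSucc 323642, 29⟩, ⟨.negSucc 554082, 30⟩], 227259688933⟩,
   ⟨[⟨.ofNat 1859775393, 30⟩], 412922762⟩,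
   ⟨[⟨.ofNat 513785463, 29⟩], 469660551⟩]

def nzA_5 : List Sym :=
  [⟨[⟨.ofNat 529354719, 30⟩], 252764720⟩,
   ⟨[⟨.ofNat 1, 0⟩, ⟨.negSucc 0, 0⟩], 1000⟩,
   ⟨[⟨.ofNat 667137639, 29⟩], 38965747⟩,
   ⟨[⟨.ofNat 5, 0⟩], 1000⟩,
   ⟨[⟨.negSucc 2446688, 29⟩, ⟨.ofNat 457173, 29⟩, ⟨.ofNat 81793, 26⟩], 82805163335⟩,
   ⟨[⟨.ofNat 1518861, 29⟩, ⟨.ofNat 3089579, 30⟩], 186763317919⟩,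
   ⟨[⟨.negSucc 7067628, 29⟩, ⟨.negSucc 14837658, 30⟩, ⟨.ofNat 922059, 30⟩], 118330625955⟩,
   ⟨[⟨.negSucc 112891400, 29⟩, ⟨.ofNat 261159, 26⟩, ⟨.ofNat 1604389, 29⟩], 158605808975⟩,
   ⟨[⟨.ofNat 3989013, 30⟩], 413717547⟩,
   ⟨[⟨.negSucc 1151528, 29⟩], 54660576⟩,
   ⟨[⟨.negSucc 3989012, 30⟩], 413717548⟩,
   ⟨[⟨.ofNat 6166877, 30⟩], 180345823⟩,
   ⟨[⟨.negSucc 16138, 19⟩], 2060⟩,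
   ⟨[⟨.ofNat 1027813, 29⟩], 421608947⟩,
   ⟨[⟨.negSucc 16138, 20⟩], 2060⟩,
   ⟨[⟨.ofNat 4111251, 30⟩], 241271621⟩]

def nzA_6 : List Sym :=
  [⟨[⟨.ofNat 20775, 20⟩], 2060⟩,
   ⟨[⟨.negSucc 77528478, 30⟩], 414207497⟩,
   ⟨[⟨.negSucc 682, 14⟩], 2060⟩,
   ⟨[⟨.ofNat 2049, 14⟩], 2060⟩,
   ⟨[⟨.ofNat 77528479, 30⟩], 414207496⟩,
   ⟨[⟨.negSucc 41742146, 30⟩], 362525218⟩,
   ⟨[⟨.negSucc 20596, 19⟩], 2060⟩,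
   ⟨[⟨.ofNat 155321227, 30⟩], 411953719⟩,
   ⟨[⟨.ofNat 61265, 19⟩], 2060⟩,
   ⟨[⟨.negSucc 98531686, 29⟩], 49436136⟩,
   ⟨[⟨.negSucc 14622, 18⟩], 2060⟩,
   ⟨[⟨.negSucc 1090170, 28⟩, ⟨.ofNat 1170063, 28⟩, ⟨.ofNat 15, 25⟩, ⟨.ofNat 728133, 28⟩], 21742669880⟩,
   ⟨[⟨.negSucc 8376648, 29⟩, ⟨.negSucc 17805948, 30⟩, ⟨.ofNat 1295785, 30⟩], 190090433797⟩,
   ⟨[⟨.ofNat 1339061, 29⟩, ⟨.ofNat 29652903, 30⟩, ⟨.ofNat 6573627, 29⟩, ⟨.ofNat 10272559, 30⟩], 75926027641⟩,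
   ⟨[⟨.negSucc 542978, 26⟩, ⟨.negSucc 4599394, 29⟩, ⟨.negSucc 2558652, 26⟩, ⟨.ofNat 19753693, 30⟩], 145864281307⟩,
   ⟨[⟨.ofNat 3413, 18⟩, ⟨.ofNat 3413, 18⟩, ⟨.ofNat 4209, 19⟩, ⟨.ofNat 4209, 19⟩], 2620⟩]

def nzA_7 : List Sym :=
  [⟨[⟨.negSucc 330644, 27⟩, ⟨.negSucc 2969598, 28⟩, ⟨.negSucc 15540520, 30⟩], 604505859300⟩,
   ⟨[⟨.ofNat 3413, 19⟩, ⟨.ofNat 3413, 19⟩, ⟨.ofNat 4209, 20⟩, ⟨.ofNat 4209, 20⟩], 2401⟩,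
   ⟨[⟨.negSucc 957026, 28⟩, ⟨.negSucc 28823722, 30⟩, ⟨.negSucc 12629310, 29⟩, ⟨.negSucc 2218798, 30⟩], 17287367862⟩,
   ⟨[⟨.ofNat 21897, 19⟩, ⟨.ofNat 21897, 19⟩, ⟨.negSucc 2264, 20⟩, ⟨.negSucc 2264, 20⟩], 2495⟩,
   ⟨[⟨.ofNat 78780215, 30⟩, ⟨.negSucc 9514992, 30⟩, ⟨.ofNat 6245831, 30⟩, ⟨.negSucc 4904502, 29⟩], 72372184543⟩,
   ⟨[⟨.negSucc 31664, 18⟩, ⟨.negSucc 31664, 18⟩, ⟨.negSucc 3758, 20⟩, ⟨.negSucc 3758, 20⟩], 2292⟩,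
   ⟨[⟨.ofNat 27606325, 30⟩, ⟨.ofNat 7903481, 28⟩, ⟨.negSucc 38540, 23⟩], 721178698366⟩,
   ⟨[⟨.negSucc 75215464, 30⟩, ⟨.ofNat 2999, 27⟩, ⟨.ofNat 29147533, 30⟩, ⟨.negSucc 9062754, 29⟩], 133681474312⟩,
   ⟨[⟨.ofNat 7957017, 28⟩, ⟨.negSucc 23526258, 29⟩, ⟨.negSucc 42970586, 28⟩, ⟨.ofNat 38844939, 29⟩], 571531517810⟩,
   ⟨[⟨.ofNat 24847, 17⟩, ⟨.ofNat 24847, 17⟩, ⟨.negSucc 6718, 18⟩, ⟨.negSucc 6718, 18⟩], 2401⟩,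
   ⟨[⟨.negSucc 154995306, 30⟩, ⟨.ofNat 11729171, 29⟩, ⟨.ofNat 27562055, 30⟩, ⟨.negSucc 2554012, 30⟩], 19479737650⟩,
   ⟨[⟨.negSucc 83426, 20⟩, ⟨.negSucc 83426, 20⟩, ⟨.ofNat 175, 15⟩, ⟨.ofNat 175, 15⟩], 2338⟩,
   ⟨[⟨.ofNat 191406625, 30⟩, ⟨.negSucc 6446900, 30⟩, ⟨.negSucc 9708996, 27⟩, ⟨.ofNat 44328085, 30⟩], 326844522878⟩,
   ⟨[⟨.ofNat 40505, 20⟩, ⟨.ofNat 40505, 20⟩, ⟨.negSucc 6604, 18⟩, ⟨.negSucc 6604, 18⟩], 2338⟩]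

def nzA_L : List (List Sym) := [nzA_0, nzA_1, nzA_2, nzA_3, nzA_4, nzA_5, nzA_6, nzA_7]

noncomputable def nzA (i : Nat) : Sym := sym16 nzA_L i

theorem nzA_c1 : nzChk (run (tmAlg (nq qA)) pXA []) pXA_out nxA = true := by decide +kernel

theorem nzA_c2 : nzAll (fun i => nck2 (nS SyA ⟨[⟨5, 0⟩], 0⟩ nxA i) (nzA i)) 126 = true := by
  decide +kernel

theorem nzA_a : posV ⟨3, 7, 1, 1, 808⟩ nzA kNa ⟨42, 16, 18⟩ [0, 1] ⟨5, 4, 0, 8, 1, 1, 2, 8⟩ = true := by decide +kernel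

theorem nzA_b : posV ⟨3, 7, 1, 1, 808⟩ nzA kNb ⟨42, 16, 18⟩ [0, 1] ⟨5, 4, 0, 8, 1, 1, 2, 8⟩ = true := by decide +kernel

theorem nzA_hi (i : ℕ) (hi : 126 ≤ i) : nzA i = ⟨[], 0⟩ := by
  unfold nzA sym16
  show get2 _ (get2 [] nzA_L (i / 16)) (i % 16) = _
  rcases lt_or_ge (i / 16) 8 with h | h
  · have h1 : i / 16 = 7 := by omega
    have h2 : 14 ≤ i % 16 := by omega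
    rw [h1]
    show get2 _ nzA_7 (i % 16) = _
    rw [nz_get2_ge _ _ _ h2]
  · rw [nz_get2_ge [] nzA_L _ h, nz_get2_ge _ [] _ (Nat.zero_le _)]

theorem nzA_mem (b : ℕ) (t r s : ℝ) (t0 : 3 / 4 ≤ t) (t1 : t ≤ 1) (hr : |r| ≤ 1 / 16) (s0 : 0 ≤ s)
    (s1 : s ≤ 1) : (zz ⟨3, 7, 1, 1, b⟩ ⟨5, 4, 0, 8, 1, 1, 2, 8⟩).Mem t r s := by
  rw [abs_le] at hr
  refine ⟨?_, ?_, ?_⟩
  · show |t * 2 ^ 3 - ((7 : ℕ) : ℝ)| ≤ ((1 : ℕ) : ℝ) * ((1 : ℕ) : ℝ)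
    rw [abs_le]; push_cast; constructor <;> linarith
  · show |r * 2 ^ 5 - ((0 : ℕ) : ℝ)| ≤ ((1 : ℕ) : ℝ) * ((2 : ℕ) : ℝ)
    rw [abs_le]; push_cast; constructor <;> linarith [hr.1, hr.2]
  · show |s * 2 ^ 4 - ((8 : ℕ) : ℝ)| ≤ ((1 : ℕ) : ℝ) * ((8 : ℕ) : ℝ)
    rw [abs_le]; push_cast; constructor <;> linarith

/-- **the near zone of the vertex `2`** for `dA` -/
theorem near_A {m : ℝ} (m0 : 3 / 4 * m1 ≤ m) (mm : m ≤ m1)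
    (hq : TmIn qA (2 * (m / m1) - 1) (fun i => get 0 (l1 μA m) i))
    (h81 : ∀ (l : List ℝ) (i : ℕ), i < 81 →
      |get 0 ((dA.pt m).syl l) i - pval (SyA i).p (m / m1)| ≤ ((SyA i).eps : ℝ) / 2 ^ 60)
    {x : ℂ} (hx : |x.re| ≤ 1 / 16) (hy : |x.im| ≤ 1 / 16) : (dA.pt m).FI 5 x 2 :=
  nz_final (S0 := SyA) (Rs := ⟨[⟨5, 0⟩], 0⟩) dA_ends (fun m => pXA_val 5 m) nzA_c1 rfl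
    (fun t => by simp only [pval, Fx.val]; norm_num) nzA_c2 nzA_hi nzA_a nzA_b
    (nzA_mem _) (nzA_mem _) m0 mm hq (fun i hi => h81 _ i hi) hx hy

end Pool.H61.Rh
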