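import Pool.Agent.H89.Nz.W5

/-! # generated: the additional symbols of the near zone as values of a program (`dB`) -/

set_option autoImplicit false
set_option maxRecDepth 100000
set_option linter.unusedVariables false
set_option linter.unusedSimpArgs false

namespace Pool.H61.Rh

open Complex Pool.H47.Kc

/-- program -/
def pXB : List Op := [.base 3, .base 4, .base 5, .base 6, .base 12, .base 13, .base 14, .base 15,
  .base 19, .base 20, .base 21, .base 11, .x, .mul 9 0, .sub 10 0, .mul 0 0,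
  .base 0, .base 2, .mul 9 0, .cst 1 2, .mul 1 0, .mul 5 0, .add 13 0, .mul 7 0,
  .cst 1 0, .add 1 0, .add 9 0, .base 1, .mul 19 8, .mul 20 20, .mul 12 0, .mul 11 0,
  .mul 16 0, .add 4 0, .mul 18 0, .cst 1 1, .add 1 0, .mul 22 0, .add 10 0, .mul 38 3,
  .add 0 15, .sub 16 1, .mul 15 0, .mul 4 2, .sub 1 0, .mul 18 4, .mul 7 4, .sub 1 0,
  .sub 47 23, .mul 41 0, .mul 46 5, .cst 3 0, .mul 1 0, .mul 3 0, .mul 52 50, .mul 14 7,
  .mul 14 11, .sub 1 0, .cst 2 0, .mul 1 0, .sub 0 12, .mul 6 0, .mul 12 0, .mul 60 56,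
  .mul 61 58, .mul 20 1, .add 10 0, .cst 93 2, .mul 67 0, .cst (-15) 0, .sub 0 1, .mul 23 0,
  .cst 12 0, .mul 6 0, .add 2 0, .cst 24 0, .mul 75 0, .add 2 0, .mul 64 33, .add 38 0,
  .cst 6 0, .mul 1 0, .sub 4 0, .add 41 19, .mul 36 0, .mul 12 0, .cst 3 2, .mul 86 0,
  .sub 36 0, .mul 44 0, .sub 4 0, .mul 77 43, .add 50 0, .mul 12 0, .sub 3 0, .mul 93 0,
  .cst 9 0, .mul 49 0, .mul 97 31, .mul 40 0, .sub 2 0, .mul 99 0, .add 61 37, .mul 58 0,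
  .mul 103 0, .mul 46 0, .sub 61 0, .mul 55 0, .mul 102 101, .mul 45 38, .mul 109 1, .mul 35 0,
  .add 2 0, .mul 48 32, .sub 37 0, .mul 101 0, .add 3 0, .mul 116 44, .sub 0 37, .mul 54 30,
  .sub 1 0, .mul 114 114, .mul 121 0, .mul 47 0, .add 3 0, .mul 111 61, .mul 45 0, .sub 2 0,
  .mul 126 0, .mul 126 32, .cst 8 0, .mul 125 0, .sub 2 0, .mul 131 0, .mul 127 0, .mul 129 129,
  .mul 5 0, .sub 72 0, .cst 4 0, .add 1 0, .mul 88 0, .sub 2 140, .mul 55 0, .mul 131 0,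
  .mul 142 134, .mul 140 140, .mul 1 0, .mul 143 0, .mul 13 4, .mul 8 5, .add 33 1, .add 22 1,
  .mul 50 8, .mul 45 9, .add 71 1, .add 59 1, .mul 111 97, .mul 6 0, .mul 6 1, .add 158 134,
  .mul 5 0, .mul 5 1, .add 4 1, .add 4 1, .mul 16 1, .mul 17 1, .mul 153 153, .add 154 142,
  .mul 155 0, .cst 21160355 45, .mul 3 0, .cst 145115685 45, .sub 0 1, .mul 6 0, .cst 20401551435 45, .add 1 0,
  .mul 9 0, .cst 200654926745 44, .sub 1 0, .mul 11 0, .cst 187925 42, .mul 14 0, .cst 1240305 40, .sub 0 1,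
  .mul 17 0, .cst 1721505755 45, .add 1 0, .mul 20 0, .cst 7280176915 42, .sub 1 0, .mul 21 0, .cst 312190669345 45,
  .add 1 0, .mul 191 0, .add 29 0, .add 29 15, .mul 185 176, .cst 2075 18, .sub 0 1, .cst 2065 19,
  .sub 3 0, .mul 199 4, .cst 981 16, .add 4 0, .mul 37 5, .add 1 0, .mul 38 0, .add 6 7,
  .cst 3153 20, .sub 8 0, .mul 43 9, .add 1 0, .mul 43 0, .add 5 0, .mul 212 0, .cst 181 20,
  .mul 49 0, .cst 3953 19, .sub 1 0, .mul 50 0, .mul 218 0, .cst 569 19, .mul 55 0, .cst (-29) 18,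
  .sub 0 1, .mul 57 0, .cst 73 17, .mul 60 0, .cst 4129 20, .sub 1 0, .mul 61 0, .mul 229 0,
  .cst 33 19, .mul 231 0, .cst 1437 18, .mul 68 0, .cst (-2985) 18, .sub 0 1, .mul 70 0, .cst 1601 20,
  .mul 73 0, .cst 3341 20, .add 1 0, .mul 74 0, .add 0 11, .mul 243 0, .cst 82015 20, .mul 245 0,
  .cst 9095 20, .mul 82 0, .cst (-313) 13, .sub 0 1, .mul 84 0, .cst 413 20, .mul 87 0, .cst 18943 20,
  .sub 1 0, .mul 88 0, .sub 0 11, .mul 257 0, .cst 9151 20, .mul 94 0, .cst 22207 18, .sub 0 1,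
  .mul 96 0, .cst 14713 20, .mul 99 0, .cst 1693 18, .sub 1 0, .mul 100 0, .mul 268 0, .cst 1787 19,
  .mul 105 0, .cst 57763 20, .sub 1 0, .mul 107 0, .cst 2509 20, .mul 110 0, .cst 6081 20, .add 1 0,
  .mul 111 0, .mul 279 0, .cst 9577 18, .mul 281 0, .cst 725 18, .mul 118 0, .cst 3715 19, .add 1 0,
  .mul 120 0, .cst 2741 19, .mul 123 0, .cst 9689 19, .sub 1 0, .mul 124 0, .sub 0 11, .mul 293 0,
  .cst 9591 20, .mul 295 0, .cst 32347 20, .mul 132 0, .cst 19547 18, .add 1 0, .mul 134 0, .cst 5187 20,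
  .mul 137 0, .cst 1457 17, .sub 0 1, .mul 138 0, .add 0 11, .mul 307 0, .mul 261 258, .cst 0 0,
  .sub 0 117, .sub 1 117, .sub 2 260, .sub 3 252, .mul 257 119, .sub 19 33, .add 34 20, .mul 260 35,
  .mul 261 118, .sub 9 4, .sub 10 1, .mul 271 89, .cst (-4437) 16, .cst (-4437) 17, .mul 267 92, .cst 2235 16,
  .sub 16 80, .cst (-82015) 20, .cst 246045 20, .cst (-1167) 14, .cst 48863 20, .sub 21 13, .cst (-29681) 20, .add 120 114,
  .sub 121 115, .mul 278 130, .add 106 92, .mul 287 107, .sub 0 94, .mul 289 115, .add 103 0, .sub 117 104,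
  .add 84 73, .add 92 80, .sub 81 93, .sub 87 76, .add 66 52, .add 39 0, .add 74 61, .mul 292 0,
  .sub 70 42, .add 57 0, .sub 65 78, .sub 0 52, .sub 74 60, .mul 298 0, .sub 82 69, .sub 0 56,
  .mul 301 24, .sub 49 0, .sub 50 24, .mul 304 26, .mul 312 25, .sub 53 0, .mul 307 23, .sub 55 0,
  .sub 56 25, .mul 310 28, .mul 318 26, .sub 59 26, .sub 60 26, .sub 61 23, .sub 62 22]

/-- positions of the outputs -/
def pXB_out : List ℕ := [64, 62, 61, 60, 59, 54, 53, 52, 51, 50, 141, 49, 48, 47, 46, 45, 44, 127, 57, 43, 56, 42, 41, 40, 13, 12, 11, 9, 7, 34, 6, 5, 4, 3, 2, 28, 27, 1, 0, 21, 19, 17, 15]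

/-- the statement of `pXB_val` -/
def pXB_goal (R m : ℝ) : Prop :=
    OutEq (run (realAlg (fun i => get 0 (l1n μB m) i) (m / m1) (0)) pXB []) pXB_out
      (dB.nd R m (shq (m1 - m)) (chq (m1 - m))).xl

theorem pXB_c9 (R m : ℝ) {v0 v1 v2 v3 v4 v5 v6 v7 v8 v9 v10 v11 v12 v13 v14 U mm v15 U2 v16 v17 v18 v19 v20 v21 v22 v23 v24 v25 v26 sg v27 v28 v29 v30 v31 v32 v33 v34 v35 v36 v37 v38 kg v39 v40 c1v v41 h1v v42 v43 v44 Pv v45 v46 v47 Qv v48 r1v v49 iT v50 v51 v52 v53 v54 v55 v56 v57 v58 v59 v60 v61 v62 : ℝ} {dyv : ℂ} {v63 Ks v64 Kc v65 v66 QP v67 v68 v69 v70 v71 v72 v73 v74 v75 v76 v77 v78 v79 v80 v81 v82 v83 v84 v85 v86 v87 v88 v89 v90 v91 v92 v93 v94 v95 : ℝ} {dtv : ℂ} {v96 v97 v98 v99 v100 v101 v102 v103 v104 v105 v106 v107 : ℝ} {dpv : ℂ} {v108 v109 v110 v111 v112 v113 v114 v115 v116 v117 v118 v119 v120 v121 v122 v123 v124 v125 v126 v127 v128 : ℝ} {tkv : ℂ} {v129 v130 v131 v132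 v133 v134 v135 v136 v137 v138 v139 v140 : ℝ} {pkv : ℂ} {v141 v142 v143 kc v144 v145 v146 v147 kq v148 v149 v150 v151 : ℝ} {tp : ℂ} {v152 v153 v154 v155 : ℝ} {tq : ℂ} {v156 v157 v158 v159 v160 v161 v162 v163 v164 v165 : ℝ} {dqv : ℂ} {v166 t2 v167 v168 tf v169 v170 v171 v172 v173 v174 v175 v176 v177 v178 v179 v180 v181 v182 v183 v184 v185 v186 v187 v188 v189 v190 v191 v192 v193 : ℝ} {f_ax : ℂ} {v194 v195 : ℝ} {dav : ℂ} {v196 v197 v198 v199 v200 v201 : ℝ} {a_xx : ℂ} {v202 v203 v204 v205 v206 v207 v208 v209 v210 v211 v212 v213 v214 : ℝ} {f_xx a_xb : ℂ} {v215 v216 v217 v218 v219 v220 : ℝ} {f_xb a_x3 : ℂ} {v221 v222 v223 v224 v225 v226 v227 v228 v229 v230 v231 : ℝ} {f_x3 : ℂ} {v232 v233 : ℝ} {a_x2b : ℂ} {v234 v235 v236 v237 v238 v239 v240 v241 v242 v243 v244 v245 : ℝ} {f_x2b : ℂ} {v246 v247 : ℝ} {a_xu : ℂ} {v248 v249 v250 v251 v252 v253 v254 v255 v256 v257 v258 v259 : ℝ} {f_xu a_xc : ℂ}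 {v260 v261 v262 v263 v264 v265 v266 v267 v268 v269 v270 : ℝ} {f_xc a_x2u : ℂ} {v271 v272 v273 v274 v275 v276 v277 v278 v279 v280 v281 : ℝ} {f_x2u : ℂ} {v282 v283 : ℝ} {a_x2c : ℂ} {v284 v285 v286 v287 v288 v289 v290 v291 v292 v293 v294 v295 : ℝ} {f_x2c : ℂ} {v296 v297 : ℝ} {a_xbu : ℂ} {v298 v299 v300 v301 v302 v303 v304 v305 v306 v307 v308 v309 : ℝ} {f_xbu : ℂ} {v310 o_lam v311 v312 o_dar v313 o_dai v314 o_dyr v315 o_dyi v316 v317 v318 v319 v320 o_oA11 v321 o_oA12 v322 o_oA22 v323 o_og1 v324 o_og2 o_og3 v325 o_og4 v326 o_og5 v327 o_og6 v328 o_ob11 v329 o_ob12 v330 o_ob21 o_ob22 o_oq1 v331 o_oq2 o_oq3 v332 o_oq4 v333 o_oq5 v334 o_oq6 v335 v336 v337 v338 v339 v340 v341 v342 v343 v344 v345 v346 v347 v348 v349 v350 v351 v352 v353 v354 v355 v356 v357 v358 v359 : ℝ}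
    (e_U_d : U = m1 - m)
    (e_mm_d : mm = m)
    (e_U2_d : U2 = (m1 - m) ^ 2)
    (e_sg_d : sg = shq (m1 - m))
    (e_kg_d : kg = chq (m1 - m))
    (e_c1v_d : c1v = 1 + Real.sqrt 2 / 2)
    (e_h1v_d : h1v = 1 - Real.sqrt 2 / 2)
    (e_Pv_d : Pv = nP (shq (m1 - m)) (chq (m1 - m)))
    (e_Qv_d : Qv = nQ (shq (m1 - m)) (chq (m1 - m)))
    (e_r1v_d : r1v = Real.sqrt 2 - 1)
    (e_iT_d : iT = (Real.sqrt 2 - 1) * (1 / oS m))
    (h51 : v51 = (3 : ℝ))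
    (h58 : v58 = (2 : ℝ))
    (e_dyv_d : dyv = ndy m (nP (shq (m1 - m)) (chq (m1 - m))) (nQ (shq (m1 - m)) (chq (m1 - m))))
    (e_Ks_d : Ks = kp * Real.sinh m)
    (e_Kc_d : Kc = kp * Real.cosh m)
    (e_QP_d : QP = nQ (shq (m1 - m)) (chq (m1 - m)) * (1 + Real.sqrt 2 / 2) + kp * Real.sinh m * nP (shq (m1 - m)) (chq (m1 - m)))
    (e_dtv_d : dtv = ndt m (nP (shq (m1 - m)) (chq (m1 - m))) (nQ (shq (m1 - m)) (chq (m1 - m))))
    (e_dpv_d : dpv = ndp m (nP (shq (m1 - m)) (chq (m1 - m))) (nQ (shq (m1 - m)) (chq (m1 - m))))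
    (e_tkv_d : tkv = tk m)
    (e_pkv_d : pkv = pk m)
    (e_kc_d : kc = oc * (3 * (4 - Real.sqrt 2) / 4))
    (e_kq_d : kq = -(s3 * (1 / 27) * (1 / oK) ^ 2 * m1))
    (e_tp_d : tp = tk m + ((oc * (3 * (4 - Real.sqrt 2) / 4) : ℝ) : ℂ) * pk m)
    (e_tq_d : tq = ndt m (nP (shq (m1 - m)) (chq (m1 - m))) (nQ (shq (m1 - m)) (chq (m1 - m))) + ((oc * (3 * (4 - Real.sqrt 2) / 4) : ℝ) : ℂ) * ndp m (nP (shq (m1 - m)) (chq (m1 - m))) (nQ (shq (m1 - m)) (chq (m1 - m))))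
    (e_dqv_d : dqv = ndq m (nP (shq (m1 - m)) (chq (m1 - m))) (nQ (shq (m1 - m)) (chq (m1 - m))))
    (e_t2_d : t2 = (m / m1) ^ 2)
    (e_tf_d : tf = (m / m1) * (1 + m / m1))
    (e_f_ax_d : f_ax = (dB.ax).df (m / m1))
    (e_dav_d : dav = ndq m (nP (shq (m1 - m)) (chq (m1 - m))) (nQ (shq (m1 - m)) (chq (m1 - m))) + I * (starRingEnd ℂ) (dB.ax.df (m / m1)))
    (e_a_xx_d : a_xx = (dB.xx).ev m1)
    (e_f_xx_d : f_xx = (dB.xx).df (m / m1))
    (e_f_xx_re : v206 = -f_xx.re)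
    (e_f_xx_im : v214 = -f_xx.im)
    (e_a_xb_d : a_xb = (dB.xb).ev m1)
    (e_f_xb_d : f_xb = (dB.xb).df (m / m1))
    (e_f_xb_re : f_xb.re = (0 : ℝ))
    (e_f_xb_im : v220 = -f_xb.im)
    (e_a_x3_d : a_x3 = (dB.x3).ev m1)
    (e_f_x3_d : f_x3 = (dB.x3).df (m / m1))
    (e_f_x3_re : v225 = -f_x3.re)
    (e_f_x3_im : v231 = -f_x3.im)
    (e_a_x2b_d : a_x2b = (dB.x2b).ev m1)
    (e_f_x2b_d : f_x2b = (dB.x2b).df (m / m1))
    (e_f_x2b_re : v238 = -f_x2b.re)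
    (e_f_x2b_im : v245 = -f_x2b.im)
    (e_a_xu_d : a_xu = (dB.xu).ev m1)
    (e_f_xu_d : f_xu = (dB.xu).df (m / m1))
    (e_f_xu_re : v252 = -f_xu.re)
    (e_f_xu_im : v259 = -f_xu.im)
    (e_a_xc_d : a_xc = (dB.xc).ev m1)
    (e_f_xc_d : f_xc = (dB.xc).df (m / m1))
    (e_f_xc_re : v264 = -f_xc.re)
    (e_f_xc_im : v270 = -f_xc.im)
    (e_a_x2u_d : a_x2u = (dB.x2u).ev m1)
    (e_f_x2u_d : f_x2u = (dB.x2u).df (m / m1))
    (e_f_x2u_re : v275 = -f_x2u.re)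
    (e_f_x2u_im : v281 = -f_x2u.im)
    (e_a_x2c_d : a_x2c = (dB.x2c).ev m1)
    (e_f_x2c_d : f_x2c = (dB.x2c).df (m / m1))
    (e_f_x2c_re : v288 = -f_x2c.re)
    (e_f_x2c_im : v295 = -f_x2c.im)
    (e_a_xbu_d : a_xbu = (dB.xbu).ev m1)
    (e_f_xbu_d : f_xbu = (dB.xbu).df (m / m1))
    (e_f_xbu_re : v302 = -f_xbu.re)
    (e_f_xbu_im : v309 = -f_xbu.im)
    (e_o_lam_d : o_lam = (dB.nd R m (shq (m1 - m)) (chq (m1 - m))).lam)
    (e_o_lam_v : v310 = o_lam)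
    (h311 : v311 = (0 : ℝ))
    (e_o_dar_d : o_dar = (dB.nd R m (shq (m1 - m)) (chq (m1 - m))).da.re)
    (e_o_dar_v : v312 = o_dar)
    (e_o_dai_d : o_dai = (dB.nd R m (shq (m1 - m)) (chq (m1 - m))).da.im)
    (e_o_dai_v : v313 = o_dai)
    (e_o_dyr_d : o_dyr = (dB.nd R m (shq (m1 - m)) (chq (m1 - m))).dy.re)
    (e_o_dyr_v : v314 = o_dyr)
    (e_o_dyi_d : o_dyi = (dB.nd R m (shq (m1 - m)) (chq (m1 - m))).dy.im)
    (e_o_dyi_v : v315 = o_dyi)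
    (e_o_oA11_d : o_oA11 = 2 * (dB.nd R m (shq (m1 - m)) (chq (m1 - m))).c1.a20)
    (e_o_oA11_v : v320 = o_oA11)
    (e_o_oA12_d : o_oA12 = (dB.nd R m (shq (m1 - m)) (chq (m1 - m))).c1.a11)
    (e_o_oA12_v : v321 = o_oA12)
    (e_o_oA22_d : o_oA22 = 2 * (dB.nd R m (shq (m1 - m)) (chq (m1 - m))).c1.a02)
    (e_o_oA22_v : v322 = o_oA22)
    (e_o_og1_d : o_og1 = 3 * (dB.nd R m (shq (m1 - m)) (chq (m1 - m))).c1.a30)
    (e_o_og1_v : v323 = o_og1)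
    (e_o_og2_d : o_og2 = 2 * (dB.nd R m (shq (m1 - m)) (chq (m1 - m))).c1.a21)
    (e_o_og2_v : v324 = o_og2)
    (e_o_og3_d : o_og3 = (dB.nd R m (shq (m1 - m)) (chq (m1 - m))).c1.a12)
    (e_o_og3_v : v233 = o_og3)
    (e_o_og4_d : o_og4 = (dB.nd R m (shq (m1 - m)) (chq (m1 - m))).c1.a21)
    (e_o_og4_v : v325 = o_og4)
    (e_o_og5_d : o_og5 = 2 * (dB.nd R m (shq (m1 - m)) (chq (m1 - m))).c1.a12)
    (e_o_og5_v : v326 = o_og5)
    (e_o_og6_d : o_og6 = 3 * (dB.nd R m (shq (m1 - m)) (chq (m1 - m))).c1.a03)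
    (e_o_og6_v : v327 = o_og6)
    (e_o_ob11_d : o_ob11 = (dB.nd R m (shq (m1 - m)) (chq (m1 - m))).c1.b11)
    (e_o_ob11_v : v328 = o_ob11)
    (e_o_ob12_d : o_ob12 = (dB.nd R m (shq (m1 - m)) (chq (m1 - m))).c1.b12)
    (e_o_ob12_v : v329 = o_ob12)
    (e_o_ob21_d : o_ob21 = (dB.nd R m (shq (m1 - m)) (chq (m1 - m))).c1.b21)
    (e_o_ob21_v : v330 = o_ob21)
    (e_o_ob22_d : o_ob22 = (dB.nd R m (shq (m1 - m)) (chq (m1 - m))).c1.b22)
    (e_o_ob22_v : v247 = o_ob22)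
    (e_o_oq1_d : o_oq1 = (dB.nd R m (shq (m1 - m)) (chq (m1 - m))).c1.q1)
    (e_o_oq1_v : v317 = o_oq1)
    (e_o_oq2_d : o_oq2 = (dB.nd R m (shq (m1 - m)) (chq (m1 - m))).c1.q2)
    (e_o_oq2_v : v331 = o_oq2)
    (e_o_oq3_d : o_oq3 = (dB.nd R m (shq (m1 - m)) (chq (m1 - m))).c1.q3)
    (e_o_oq3_v : v318 = o_oq3)
    (e_o_oq4_d : o_oq4 = (dB.nd R m (shq (m1 - m)) (chq (m1 - m))).c1.q4)
    (e_o_oq4_v : v332 = o_oq4)
    (e_o_oq5_d : o_oq5 = (dB.nd R m (shq (m1 - m)) (chq (m1 - m))).c1.q5)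
    (e_o_oq5_v : v333 = o_oq5)
    (e_o_oq6_d : o_oq6 = (dB.nd R m (shq (m1 - m)) (chq (m1 - m))).c1.q6)
    (e_o_oq6_v : v334 = o_oq6)
    (h335 : v335 = v214 + v220)
    (h336 : v336 = v214 - v220)
    (h337 : v337 = v58 * v206)
    (h338 : v338 = v231 + v245)
    (h339 : v339 = v51 * v231)
    (h340 : v340 = v339 - v245)
    (h341 : v341 = v51 * v225)
    (h342 : v342 = v238 + v341)
    (h343 : v343 = v225 - v238)
    (h344 : v344 = v259 + v270)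
    (h345 : v345 = v252 + v264)
    (h346 : v346 = v264 - v252)
    (h347 : v347 = v259 - v270)
    (h348 : v348 = v281 + v295)
    (h349 : v349 = v309 + v348)
    (h350 : v350 = v275 + v288)
    (h351 : v351 = v58 * v350)
    (h352 : v352 = v281 - v309)
    (h353 : v353 = v295 + v352)
    (h354 : v354 = v288 - v275)
    (h355 : v355 = v354 - v302)
    (h356 : v356 = v281 - v295)
    (h357 : v357 = v58 * v356)
    (h358 : v358 = v275 - v288)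
    (h359 : v359 = v358 - v302)
    (h : TrE (realAlg (fun i => get 0 (l1n μB m) i) (m / m1) (0)) (pXB.drop 360) [v359, v358, v357, v356, v355, v354, v353, v352, v351, v350, v349, v348, v347, v346, v345, v344, v343, v342, v341, v340, v339, v338, v337, v336, v335, v334, v333, v332, v331, v330, v329, v328, v327, v326, v325, v324, v323, v322, v321, v320, v319, v318, v317, v316, v315, v314, v313, v312, v311, v310, v309, v308, v307, v306, v305, v304, v303, v302, v301, v300, v299, v298, v297, v296, v295, v294, v293, v292, v291, v290, v289, v288, v287, v286, v285, v284, v283, v282, v281, v280, v279, v278, v277, v276, v275, v274, v273, v272, v271, v270, v269, v268, v267, v266, v265, v264, v263, v262, v261, v260, v259, v258, v257, v256, v255, v254, v253, v252, v251, v250, v249, v248, v247, v246, v245, v244, v243, v242, v241, v240, v239, v238, v237, v236, v235, v234, v233, v232, v231, v230,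 v229, v228, v227, v226, v225, v224, v223, v222, v221, v220, v219, v218, v217, v216, v215, v214, v213, v212, v211, v210, v209, v208, v207, v206, v205, v204, v203, v202, v201, v200, v199, v198, v197, v196, v195, v194, v193, v192, v191, v190, v189, v188, v187, v186, v185, v184, v183, v182, v181, v180, v179, v178, v177, v176, v175, v174, v173, v172, v171, v170, v169, v168, v167, v166, v165, v164, v163, v162, v161, v160, v159, v158, v157, v156, v155, v154, v153, v152, v151, v150, v149, v148, v147, v146, v145, v144, v143, v142, v141, v140, v139, v138, v137, v136, v135, v134, v133, v132, v131, v130, v129, v128, v127, v126, v125, v124, v123, v122, v121, v120, v119, v118, v117, v116, v115, v114, v113, v112, v111, v110, v109, v108, v107, v106, v105, v104, v103, v102, v101, v100, v99, v98, v97, v96, v95, v94, v93, v92, v91, v90, v89, v88, v87, v86, v85, v84, v83, v82, v81, v80, v79, v78, v77,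 v76, v75, v74, v73, v72, v71, v70, v69, v68, v67, v66, v65, v64, v63, v62, v61, v60, v59, v58, v57, v56, v55, v54, v53, v52, v51, v50, v49, v48, v47, v46, v45, v44, v43, v42, v41, v40, v39, v38, v37, v36, v35, v34, v33, v32, v31, v30, v29, v28, v27, v26, v25, v24, v23, v22, v21, v20, v19, v18, v17, v16, v15, v14, v13, v12, v11, v10, v9, v8, v7, v6, v5, v4, v3, v2, v1, v0] (fun st => run (realAlg (fun i => get 0 (l1n μB m) i) (m / m1) (0)) pXB [] = st)) :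
    pXB_goal R m := by
  have hm1 : m1 ≠ 0 := m1_ne
  obtain ⟨v360, h360, h⟩ := h
  change v360 = v58 * v335 at h360
  obtain ⟨v361, h361, h⟩ := h
  change v361 = v311 - v360 at h361
  obtain ⟨o_eA11, e_o_eA11_d⟩ : ∃ q : ℝ, q = 2 * (dB.nd R m (shq (m1 - m)) (chq (m1 - m))).dc.a20 := ⟨_, rfl⟩
  have a_o_eA11 : 2 * (dB.nd R m (shq (m1 - m)) (chq (m1 - m))).dc.a20 = 2 * (f_xx.im + f_xb.im) := by
    rw [e_f_xx_d, e_f_xb_d]; rfl
  have e_o_eA11_v : v361 = o_eA11 := by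
    rw [e_o_eA11_d, a_o_eA11]
    simp only [h361, h360, h335, h311, h58, e_f_xb_im, e_f_xx_im, e_f_xb_re, mul_re, mul_im, add_re, add_im, sub_re, sub_im, neg_re, neg_im, I_re, I_im, ofReal_re,
      ofReal_im, one_re, one_im, zero_re, zero_im, dt, normSq_apply, re_ofNat, im_ofNat, conj_re, conj_im]
    try ring
  obtain ⟨v362, h362, h⟩ := h
  change v362 = v311 - v337 at h362
  obtain ⟨o_eA12, e_o_eA12_d⟩ : ∃ q : ℝ, q = (dB.nd R m (shq (m1 - m)) (chq (m1 - m))).dc.a11 := ⟨_, rfl⟩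
  have a_o_eA12 : (dB.nd R m (shq (m1 - m)) (chq (m1 - m))).dc.a11 = 2 * f_xx.re := by
    rw [e_f_xx_d]; rfl
  have e_o_eA12_v : v362 = o_eA12 := by
    rw [e_o_eA12_d, a_o_eA12]
    simp only [h362, h337, h311, h58, e_f_xx_re, mul_re, mul_im, add_re, add_im, sub_re, sub_im, neg_re, neg_im, I_re, I_im, ofReal_re,
      ofReal_im, one_re, one_im, zero_re, zero_im, dt, normSq_apply, re_ofNat, im_ofNat, conj_re, conj_im]
    try ring
  obtain ⟨v363, h363, h⟩ := h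
  change v363 = v58 * v336 at h363
  obtain ⟨o_eA22, e_o_eA22_d⟩ : ∃ q : ℝ, q = 2 * (dB.nd R m (shq (m1 - m)) (chq (m1 - m))).dc.a02 := ⟨_, rfl⟩
  have a_o_eA22 : 2 * (dB.nd R m (shq (m1 - m)) (chq (m1 - m))).dc.a02 = 2 * (-f_xx.im + f_xb.im) := by
    rw [e_f_xx_d, e_f_xb_d]; rfl
  have e_o_eA22_v : v363 = o_eA22 := by
    rw [e_o_eA22_d, a_o_eA22]
    simp only [h363, h336, h58, e_f_xb_im, e_f_xx_im, e_f_xb_re, mul_re, mul_im, add_re, add_im, sub_re, sub_im, neg_re, neg_im, I_re, I_im, ofReal_re,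
      ofReal_im, one_re, one_im, zero_re, zero_im, dt, normSq_apply, re_ofNat, im_ofNat, conj_re, conj_im]
    try ring
  obtain ⟨v364, h364, h⟩ := h
  change v364 = v51 * v338 at h364
  obtain ⟨v365, h365, h⟩ := h
  change v365 = v311 - v364 at h365
  obtain ⟨o_eg1, e_o_eg1_d⟩ : ∃ q : ℝ, q = 3 * (dB.nd R m (shq (m1 - m)) (chq (m1 - m))).dc.a30 := ⟨_, rfl⟩
  have a_o_eg1 : 3 * (dB.nd R m (shq (m1 - m)) (chq (m1 - m))).dc.a30 = 3 * (f_x3.im + f_x2b.im) := by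
    rw [e_f_x3_d, e_f_x2b_d]; rfl
  have e_o_eg1_v : v365 = o_eg1 := by
    rw [e_o_eg1_d, a_o_eg1]
    simp only [h365, h364, h338, h311, h51, e_f_x2b_im, e_f_x3_im, mul_re, mul_im, add_re, add_im, sub_re, sub_im, neg_re, neg_im, I_re, I_im, ofReal_re,
      ofReal_im, one_re, one_im, zero_re, zero_im, dt, normSq_apply, re_ofNat, im_ofNat, conj_re, conj_im]
    try ring
  obtain ⟨v366, h366, h⟩ := h
  change v366 = v58 * v342 at h366
  obtain ⟨v367, h367, h⟩ := h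
  change v367 = v311 - v366 at h367
  obtain ⟨o_eg2, e_o_eg2_d⟩ : ∃ q : ℝ, q = 2 * (dB.nd R m (shq (m1 - m)) (chq (m1 - m))).dc.a21 := ⟨_, rfl⟩
  have a_o_eg2 : 2 * (dB.nd R m (shq (m1 - m)) (chq (m1 - m))).dc.a21 = 2 * (3 * f_x3.re + f_x2b.re) := by
    rw [e_f_x3_d, e_f_x2b_d]; rfl
  have e_o_eg2_v : v367 = o_eg2 := by
    rw [e_o_eg2_d, a_o_eg2]
    simp only [h367, h366, h342, h341, h311, h58, h51, e_f_x3_re, e_f_x2b_re, mul_re, mul_im, add_re, add_im, sub_re, sub_im, neg_re, neg_im, I_re, I_im, ofReal_re,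
      ofReal_im, one_re, one_im, zero_re, zero_im, dt, normSq_apply, re_ofNat, im_ofNat, conj_re, conj_im]
    try ring
  obtain ⟨o_eg3, e_o_eg3_d⟩ : ∃ q : ℝ, q = (dB.nd R m (shq (m1 - m)) (chq (m1 - m))).dc.a12 := ⟨_, rfl⟩
  have a_o_eg3 : (dB.nd R m (shq (m1 - m)) (chq (m1 - m))).dc.a12 = -3 * f_x3.im + f_x2b.im := by
    rw [e_f_x3_d, e_f_x2b_d]; rfl
  have e_o_eg3_v : v340 = o_eg3 := by
    rw [e_o_eg3_d, a_o_eg3]
    simp only [h340, h339, h51, e_f_x2b_im, e_f_x3_im, mul_re, mul_im, add_re, add_im, sub_re, sub_im, neg_re, neg_im, I_re, I_im, ofReal_re,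
      ofReal_im, one_re, one_im, zero_re, zero_im, dt, normSq_apply, re_ofNat, im_ofNat, conj_re, conj_im]
    try ring
  obtain ⟨v368, h368, h⟩ := h
  change v368 = v311 - v342 at h368
  obtain ⟨o_eg4, e_o_eg4_d⟩ : ∃ q : ℝ, q = (dB.nd R m (shq (m1 - m)) (chq (m1 - m))).dc.a21 := ⟨_, rfl⟩
  have a_o_eg4 : (dB.nd R m (shq (m1 - m)) (chq (m1 - m))).dc.a21 = 3 * f_x3.re + f_x2b.re := by
    rw [e_f_x3_d, e_f_x2b_d]; rfl
  have e_o_eg4_v : v368 = o_eg4 := by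
    rw [e_o_eg4_d, a_o_eg4]
    simp only [h368, h342, h341, h311, h51, e_f_x3_re, e_f_x2b_re, mul_re, mul_im, add_re, add_im, sub_re, sub_im, neg_re, neg_im, I_re, I_im, ofReal_re,
      ofReal_im, one_re, one_im, zero_re, zero_im, dt, normSq_apply, re_ofNat, im_ofNat, conj_re, conj_im]
    try ring
  obtain ⟨v369, h369, h⟩ := h
  change v369 = v58 * v340 at h369
  obtain ⟨o_eg5, e_o_eg5_d⟩ : ∃ q : ℝ, q = 2 * (dB.nd R m (shq (m1 - m)) (chq (m1 - m))).dc.a12 := ⟨_, rfl⟩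
  have a_o_eg5 : 2 * (dB.nd R m (shq (m1 - m)) (chq (m1 - m))).dc.a12 = 2 * (-3 * f_x3.im + f_x2b.im) := by
    rw [e_f_x3_d, e_f_x2b_d]; rfl
  have e_o_eg5_v : v369 = o_eg5 := by
    rw [e_o_eg5_d, a_o_eg5]
    simp only [h369, h340, h339, h58, h51, e_f_x2b_im, e_f_x3_im, mul_re, mul_im, add_re, add_im, sub_re, sub_im, neg_re, neg_im, I_re, I_im, ofReal_re,
      ofReal_im, one_re, one_im, zero_re, zero_im, dt, normSq_apply, re_ofNat, im_ofNat, conj_re, conj_im]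
    try ring
  obtain ⟨v370, h370, h⟩ := h
  change v370 = v51 * v343 at h370
  obtain ⟨o_eg6, e_o_eg6_d⟩ : ∃ q : ℝ, q = 3 * (dB.nd R m (shq (m1 - m)) (chq (m1 - m))).dc.a03 := ⟨_, rfl⟩
  have a_o_eg6 : 3 * (dB.nd R m (shq (m1 - m)) (chq (m1 - m))).dc.a03 = 3 * (-f_x3.re + f_x2b.re) := by
    rw [e_f_x3_d, e_f_x2b_d]; rfl
  have e_o_eg6_v : v370 = o_eg6 := by
    rw [e_o_eg6_d, a_o_eg6]
    simp only [h370, h343, h51, e_f_x2b_re, e_f_x3_re, mul_re, mul_im, add_re, add_im, sub_re, sub_im, neg_re, neg_im, I_re, I_im, ofReal_re,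
      ofReal_im, one_re, one_im, zero_re, zero_im, dt, normSq_apply, re_ofNat, im_ofNat, conj_re, conj_im]
    try ring
  obtain ⟨v371, h371, h⟩ := h
  change v371 = v311 - v344 at h371
  obtain ⟨o_eb11, e_o_eb11_d⟩ : ∃ q : ℝ, q = (dB.nd R m (shq (m1 - m)) (chq (m1 - m))).dc.b11 := ⟨_, rfl⟩
  have a_o_eb11 : (dB.nd R m (shq (m1 - m)) (chq (m1 - m))).dc.b11 = f_xu.im + f_xc.im := by
    rw [e_f_xu_d, e_f_xc_d]; rfl
  have e_o_eb11_v : v371 = o_eb11 := by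
    rw [e_o_eb11_d, a_o_eb11]
    simp only [h371, h344, h311, e_f_xc_im, e_f_xu_im, mul_re, mul_im, add_re, add_im, sub_re, sub_im, neg_re, neg_im, I_re, I_im, ofReal_re,
      ofReal_im, one_re, one_im, zero_re, zero_im, dt, normSq_apply, re_ofNat, im_ofNat, conj_re, conj_im]
    try ring
  obtain ⟨v372, h372, h⟩ := h
  change v372 = v311 - v345 at h372
  obtain ⟨o_eb12, e_o_eb12_d⟩ : ∃ q : ℝ, q = (dB.nd R m (shq (m1 - m)) (chq (m1 - m))).dc.b12 := ⟨_, rfl⟩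
  have a_o_eb12 : (dB.nd R m (shq (m1 - m)) (chq (m1 - m))).dc.b12 = f_xu.re + f_xc.re := by
    rw [e_f_xu_d, e_f_xc_d]; rfl
  have e_o_eb12_v : v372 = o_eb12 := by
    rw [e_o_eb12_d, a_o_eb12]
    simp only [h372, h345, h311, e_f_xc_re, e_f_xu_re, mul_re, mul_im, add_re, add_im, sub_re, sub_im, neg_re, neg_im, I_re, I_im, ofReal_re,
      ofReal_im, one_re, one_im, zero_re, zero_im, dt, normSq_apply, re_ofNat, im_ofNat, conj_re, conj_im]
    try ring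
  obtain ⟨o_eb21, e_o_eb21_d⟩ : ∃ q : ℝ, q = (dB.nd R m (shq (m1 - m)) (chq (m1 - m))).dc.b21 := ⟨_, rfl⟩
  have a_o_eb21 : (dB.nd R m (shq (m1 - m)) (chq (m1 - m))).dc.b21 = f_xu.re - f_xc.re := by
    rw [e_f_xu_d, e_f_xc_d]; rfl
  have e_o_eb21_v : v346 = o_eb21 := by
    rw [e_o_eb21_d, a_o_eb21]
    simp only [h346, e_f_xu_re, e_f_xc_re, mul_re, mul_im, add_re, add_im, sub_re, sub_im, neg_re, neg_im, I_re, I_im, ofReal_re,
      ofReal_im, one_re, one_im, zero_re, zero_im, dt, normSq_apply, re_ofNat, im_ofNat, conj_re, conj_im]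
    try ring
  obtain ⟨o_eb22, e_o_eb22_d⟩ : ∃ q : ℝ, q = (dB.nd R m (shq (m1 - m)) (chq (m1 - m))).dc.b22 := ⟨_, rfl⟩
  have a_o_eb22 : (dB.nd R m (shq (m1 - m)) (chq (m1 - m))).dc.b22 = -f_xu.im + f_xc.im := by
    rw [e_f_xu_d, e_f_xc_d]; rfl
  have e_o_eb22_v : v347 = o_eb22 := by
    rw [e_o_eb22_d, a_o_eb22]
    simp only [h347, e_f_xc_im, e_f_xu_im, mul_re, mul_im, add_re, add_im, sub_re, sub_im, neg_re, neg_im, I_re, I_im, ofReal_re,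
      ofReal_im, one_re, one_im, zero_re, zero_im, dt, normSq_apply, re_ofNat, im_ofNat, conj_re, conj_im]
    try ring
  obtain ⟨v373, h373, h⟩ := h
  change v373 = v311 - v349 at h373
  obtain ⟨o_eq1, e_o_eq1_d⟩ : ∃ q : ℝ, q = (dB.nd R m (shq (m1 - m)) (chq (m1 - m))).dc.q1 := ⟨_, rfl⟩
  have a_o_eq1 : (dB.nd R m (shq (m1 - m)) (chq (m1 - m))).dc.q1 = f_x2u.im + f_x2c.im + f_xbu.im := by
    rw [e_f_x2u_d, e_f_x2c_d, e_f_xbu_d]; rfl
  have e_o_eq1_v : v373 = o_eq1 := by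
    rw [e_o_eq1_d, a_o_eq1]
    simp only [h373, h349, h348, h311, e_f_x2c_im, e_f_x2u_im, e_f_xbu_im, mul_re, mul_im, add_re, add_im, sub_re, sub_im, neg_re, neg_im, I_re, I_im, ofReal_re,
      ofReal_im, one_re, one_im, zero_re, zero_im, dt, normSq_apply, re_ofNat, im_ofNat, conj_re, conj_im]
    try ring
  obtain ⟨v374, h374, h⟩ := h
  change v374 = v311 - v351 at h374
  obtain ⟨o_eq2, e_o_eq2_d⟩ : ∃ q : ℝ, q = (dB.nd R m (shq (m1 - m)) (chq (m1 - m))).dc.q2 := ⟨_, rfl⟩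
  have a_o_eq2 : (dB.nd R m (shq (m1 - m)) (chq (m1 - m))).dc.q2 = 2 * (f_x2u.re + f_x2c.re) := by
    rw [e_f_x2u_d, e_f_x2c_d]; rfl
  have e_o_eq2_v : v374 = o_eq2 := by
    rw [e_o_eq2_d, a_o_eq2]
    simp only [h374, h351, h350, h311, h58, e_f_x2c_re, e_f_x2u_re, mul_re, mul_im, add_re, add_im, sub_re, sub_im, neg_re, neg_im, I_re, I_im, ofReal_re,
      ofReal_im, one_re, one_im, zero_re, zero_im, dt, normSq_apply, re_ofNat, im_ofNat, conj_re, conj_im]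
    try ring
  obtain ⟨o_eq3, e_o_eq3_d⟩ : ∃ q : ℝ, q = (dB.nd R m (shq (m1 - m)) (chq (m1 - m))).dc.q3 := ⟨_, rfl⟩
  have a_o_eq3 : (dB.nd R m (shq (m1 - m)) (chq (m1 - m))).dc.q3 = -f_x2u.im - f_x2c.im + f_xbu.im := by
    rw [e_f_x2u_d, e_f_x2c_d, e_f_xbu_d]; rfl
  have e_o_eq3_v : v353 = o_eq3 := by
    rw [e_o_eq3_d, a_o_eq3]
    simp only [h353, h352, e_f_xbu_im, e_f_x2u_im, e_f_x2c_im, mul_re, mul_im, add_re, add_im, sub_re, sub_im, neg_re, neg_im, I_re, I_im, ofReal_re,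
      ofReal_im, one_re, one_im, zero_re, zero_im, dt, normSq_apply, re_ofNat, im_ofNat, conj_re, conj_im]
    try ring
  obtain ⟨o_eq4, e_o_eq4_d⟩ : ∃ q : ℝ, q = (dB.nd R m (shq (m1 - m)) (chq (m1 - m))).dc.q4 := ⟨_, rfl⟩
  have a_o_eq4 : (dB.nd R m (shq (m1 - m)) (chq (m1 - m))).dc.q4 = f_x2u.re - f_x2c.re + f_xbu.re := by
    rw [e_f_x2u_d, e_f_x2c_d, e_f_xbu_d]; rfl
  have e_o_eq4_v : v355 = o_eq4 := by
    rw [e_o_eq4_d, a_o_eq4]
    simp only [h355, h354, e_f_xbu_re, e_f_x2u_re, e_f_x2c_re, mul_re, mul_im, add_re, add_im, sub_re, sub_im, neg_re, neg_im, I_re, I_im, ofReal_re,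
      ofReal_im, one_re, one_im, zero_re, zero_im, dt, normSq_apply, re_ofNat, im_ofNat, conj_re, conj_im]
    try ring
  obtain ⟨o_eq5, e_o_eq5_d⟩ : ∃ q : ℝ, q = (dB.nd R m (shq (m1 - m)) (chq (m1 - m))).dc.q5 := ⟨_, rfl⟩
  have a_o_eq5 : (dB.nd R m (shq (m1 - m)) (chq (m1 - m))).dc.q5 = 2 * (-f_x2u.im + f_x2c.im) := by
    rw [e_f_x2u_d, e_f_x2c_d]; rfl
  have e_o_eq5_v : v357 = o_eq5 := by
    rw [e_o_eq5_d, a_o_eq5]
    simp only [h357, h356, h58, e_f_x2c_im, e_f_x2u_im, mul_re, mul_im, add_re, add_im, sub_re, sub_im, neg_re, neg_im, I_re, I_im, ofReal_re,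
      ofReal_im, one_re, one_im, zero_re, zero_im, dt, normSq_apply, re_ofNat, im_ofNat, conj_re, conj_im]
    try ring
  obtain ⟨o_eq6, e_o_eq6_d⟩ : ∃ q : ℝ, q = (dB.nd R m (shq (m1 - m)) (chq (m1 - m))).dc.q6 := ⟨_, rfl⟩
  have a_o_eq6 : (dB.nd R m (shq (m1 - m)) (chq (m1 - m))).dc.q6 = -f_x2u.re + f_x2c.re + f_xbu.re := by
    rw [e_f_x2u_d, e_f_x2c_d, e_f_xbu_d]; rfl
  have e_o_eq6_v : v359 = o_eq6 := by
    rw [e_o_eq6_d, a_o_eq6]
    simp only [h359, h358, e_f_xbu_re, e_f_x2c_re, e_f_x2u_re, mul_re, mul_im, add_re, add_im, sub_re, sub_im, neg_re, neg_im, I_re, I_im, ofReal_re,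
      ofReal_im, one_re, one_im, zero_re, zero_im, dt, normSq_apply, re_ofNat, im_ofNat, conj_re, conj_im]
    try ring
  unfold pXB_goal
  refine OutEq_of h ?_
  exact ⟨e_o_lam_v.trans e_o_lam_d, e_o_dar_v.trans e_o_dar_d, e_o_dai_v.trans e_o_dai_d, e_o_dyr_v.trans e_o_dyr_d, e_o_dyi_v.trans e_o_dyi_d, e_o_oA11_v.trans e_o_oA11_d, e_o_oA12_v.trans e_o_oA12_d, e_o_oA22_v.trans e_o_oA22_d, e_o_og1_v.trans e_o_og1_d, e_o_og2_v.trans e_o_og2_d, e_o_og3_v.trans e_o_og3_d, e_o_og4_v.trans e_o_og4_d, e_o_og5_v.trans e_o_og5_d, e_o_og6_v.trans e_o_og6_d, e_o_ob11_v.trans e_o_ob11_d, e_o_ob12_v.trans e_o_ob12_d, e_o_ob21_v.trans e_o_ob21_d, e_o_ob22_v.trans e_o_ob22_d, e_o_oq1_v.trans e_o_oq1_d, e_o_oq2_v.trans e_o_oq2_d, e_o_oq3_v.trans e_o_oq3_d, e_o_oq4_v.trans e_o_oq4_d, e_o_oq5_v.trans e_o_oq5_d, e_o_oq6_v.trans e_o_oq6_d, e_o_eA11_v.trans e_o_eA11_d, e_o_eA12_v.trans e_o_eA12_d, e_o_eA22_v.trans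 e_o_eA22_d, e_o_eg1_v.trans e_o_eg1_d, e_o_eg2_v.trans e_o_eg2_d, e_o_eg3_v.trans e_o_eg3_d, e_o_eg4_v.trans e_o_eg4_d, e_o_eg5_v.trans e_o_eg5_d, e_o_eg6_v.trans e_o_eg6_d, e_o_eb11_v.trans e_o_eb11_d, e_o_eb12_v.trans e_o_eb12_d, e_o_eb21_v.trans e_o_eb21_d, e_o_eb22_v.trans e_o_eb22_d, e_o_eq1_v.trans e_o_eq1_d, e_o_eq2_v.trans e_o_eq2_d, e_o_eq3_v.trans e_o_eq3_d, e_o_eq4_v.trans e_o_eq4_d, e_o_eq5_v.trans e_o_eq5_d, e_o_eq6_v.trans e_o_eq6_d, trivial⟩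

theorem pXB_c8 (R m : ℝ) {v0 v1 v2 v3 v4 v5 v6 v7 v8 v9 v10 v11 v12 v13 v14 U mm v15 U2 v16 v17 v18 v19 v20 v21 v22 v23 v24 v25 v26 sg v27 v28 v29 v30 v31 v32 v33 v34 v35 v36 v37 v38 kg v39 v40 c1v v41 h1v v42 v43 v44 Pv v45 v46 v47 Qv v48 r1v v49 iT v50 v51 v52 v53 v54 v55 v56 v57 v58 v59 v60 v61 v62 : ℝ} {dyv : ℂ} {v63 Ks v64 Kc v65 v66 QP v67 v68 v69 v70 v71 v72 v73 v74 v75 v76 v77 v78 v79 v80 v81 v82 v83 v84 v85 v86 v87 v88 v89 v90 v91 v92 v93 v94 v95 : ℝ} {dtv : ℂ} {v96 v97 v98 v99 v100 v101 v102 v103 v104 v105 v106 v107 : ℝ} {dpv : ℂ} {v108 v109 v110 v111 v112 v113 v114 v115 v116 v117 v118 v119 v120 v121 v122 v123 v124 v125 v126 v127 v128 : ℝ} {tkv : ℂ} {v129 v130 v131 v132 v133 v134 v135 v136 v137 v138 v139 v140 : ℝ} {pkv : ℂ} {v141 v142 v143 kc v144 v145 v146 v147 kq v148 v149 v150 v151 : ℝ} {tp : ℂ} {v152 v153 v154 v155 : ℝ} {tq : ℂ} {v156 v157 v158 v159 v160 v161 v162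 v163 v164 v165 : ℝ} {dqv : ℂ} {v166 t2 v167 v168 tf v169 v170 v171 v172 v173 v174 v175 v176 v177 v178 v179 v180 v181 v182 v183 v184 v185 v186 v187 v188 v189 v190 v191 v192 v193 : ℝ} {f_ax : ℂ} {v194 v195 : ℝ} {dav : ℂ} {v196 v197 v198 v199 v200 v201 : ℝ} {a_xx : ℂ} {v202 v203 v204 v205 v206 v207 v208 v209 v210 v211 v212 v213 v214 : ℝ} {f_xx a_xb : ℂ} {v215 v216 v217 v218 v219 v220 : ℝ} {f_xb a_x3 : ℂ} {v221 v222 v223 v224 v225 v226 v227 v228 v229 v230 v231 : ℝ} {f_x3 : ℂ} {v232 v233 : ℝ} {a_x2b : ℂ} {v234 v235 v236 v237 v238 v239 v240 v241 v242 v243 v244 v245 : ℝ} {f_x2b : ℂ} {v246 v247 : ℝ} {a_xu : ℂ} {v248 v249 v250 v251 v252 v253 v254 v255 v256 v257 v258 v259 : ℝ} {f_xu a_xc : ℂ} {v260 v261 v262 v263 v264 v265 v266 v267 v268 v269 v270 : ℝ} {f_xc a_x2u : ℂ} {v271 v272 v273 v274 v275 v276 v277 v278 v279 v280 v281 : ℝ} {f_x2u : ℂ} {v282 v283 : ℝ} {a_x2c : ℂ} {v284 v285 v286 v287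 v288 v289 v290 v291 v292 v293 v294 v295 : ℝ} {f_x2c : ℂ} {v296 v297 : ℝ} {a_xbu : ℂ} {v298 v299 v300 v301 v302 v303 v304 v305 v306 v307 v308 v309 : ℝ} {f_xbu : ℂ} {v310 o_lam v311 v312 o_dar v313 o_dai v314 o_dyr v315 o_dyi v316 v317 v318 v319 : ℝ}
    (e_U_d : U = m1 - m)
    (e_mm_d : mm = m)
    (e_U2_d : U2 = (m1 - m) ^ 2)
    (e_sg_d : sg = shq (m1 - m))
    (e_kg_d : kg = chq (m1 - m))
    (e_c1v_d : c1v = 1 + Real.sqrt 2 / 2)
    (e_h1v_d : h1v = 1 - Real.sqrt 2 / 2)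
    (e_Pv_d : Pv = nP (shq (m1 - m)) (chq (m1 - m)))
    (e_Qv_d : Qv = nQ (shq (m1 - m)) (chq (m1 - m)))
    (e_r1v_d : r1v = Real.sqrt 2 - 1)
    (e_iT_d : iT = (Real.sqrt 2 - 1) * (1 / oS m))
    (h51 : v51 = (3 : ℝ))
    (h58 : v58 = (2 : ℝ))
    (e_dyv_d : dyv = ndy m (nP (shq (m1 - m)) (chq (m1 - m))) (nQ (shq (m1 - m)) (chq (m1 - m))))
    (e_Ks_d : Ks = kp * Real.sinh m)
    (e_Kc_d : Kc = kp * Real.cosh m)
    (e_QP_d : QP = nQ (shq (m1 - m)) (chq (m1 - m)) * (1 + Real.sqrt 2 / 2) + kp * Real.sinh m * nP (shq (m1 - m)) (chq (m1 - m)))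
    (e_dtv_d : dtv = ndt m (nP (shq (m1 - m)) (chq (m1 - m))) (nQ (shq (m1 - m)) (chq (m1 - m))))
    (e_dpv_d : dpv = ndp m (nP (shq (m1 - m)) (chq (m1 - m))) (nQ (shq (m1 - m)) (chq (m1 - m))))
    (e_tkv_d : tkv = tk m)
    (e_pkv_d : pkv = pk m)
    (e_kc_d : kc = oc * (3 * (4 - Real.sqrt 2) / 4))
    (e_kq_d : kq = -(s3 * (1 / 27) * (1 / oK) ^ 2 * m1))
    (e_tp_d : tp = tk m + ((oc * (3 * (4 - Real.sqrt 2) / 4) : ℝ) : ℂ) * pk m)
    (e_tq_d : tq = ndt m (nP (shq (m1 - m)) (chq (m1 - m))) (nQ (shq (m1 - m)) (chq (m1 - m))) + ((oc * (3 * (4 - Real.sqrt 2) / 4) : ℝ) : ℂ) * ndp m (nP (shq (m1 - m)) (chq (m1 - m))) (nQ (shq (m1 - m)) (chq (m1 - m))))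
    (e_dqv_d : dqv = ndq m (nP (shq (m1 - m)) (chq (m1 - m))) (nQ (shq (m1 - m)) (chq (m1 - m))))
    (e_t2_d : t2 = (m / m1) ^ 2)
    (e_tf_d : tf = (m / m1) * (1 + m / m1))
    (e_f_ax_d : f_ax = (dB.ax).df (m / m1))
    (e_dav_d : dav = ndq m (nP (shq (m1 - m)) (chq (m1 - m))) (nQ (shq (m1 - m)) (chq (m1 - m))) + I * (starRingEnd ℂ) (dB.ax.df (m / m1)))
    (e_a_xx_d : a_xx = (dB.xx).ev m1)
    (e_a_xx_re : v196 = -a_xx.re)
    (e_a_xx_im : v201 = a_xx.im)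
    (e_f_xx_d : f_xx = (dB.xx).df (m / m1))
    (e_f_xx_re : v206 = -f_xx.re)
    (e_f_xx_im : v214 = -f_xx.im)
    (e_a_xb_d : a_xb = (dB.xb).ev m1)
    (e_a_xb_re : a_xb.re = (0 : ℝ))
    (e_a_xb_im : a_xb.im = (0 : ℝ))
    (e_f_xb_d : f_xb = (dB.xb).df (m / m1))
    (e_f_xb_re : f_xb.re = (0 : ℝ))
    (e_f_xb_im : v220 = -f_xb.im)
    (e_a_x3_d : a_x3 = (dB.x3).ev m1)
    (e_a_x3_re : a_x3.re = (-5927/524288 : ℝ))
    (e_a_x3_im : a_x3.im = (0 : ℝ))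
    (e_f_x3_d : f_x3 = (dB.x3).df (m / m1))
    (e_f_x3_re : v225 = -f_x3.re)
    (e_f_x3_im : v231 = -f_x3.im)
    (e_a_x2b_d : a_x2b = (dB.x2b).ev m1)
    (e_a_x2b_re : a_x2b.re = (33/524288 : ℝ))
    (e_a_x2b_im : v233 = a_x2b.im)
    (e_f_x2b_d : f_x2b = (dB.x2b).df (m / m1))
    (e_f_x2b_re : v238 = -f_x2b.re)
    (e_f_x2b_im : v245 = -f_x2b.im)
    (e_a_xu_d : a_xu = (dB.xu).ev m1)
    (e_a_xu_re : a_xu.re = (82015/1048576 : ℝ))
    (e_a_xu_im : v247 = -a_xu.im)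
    (e_f_xu_d : f_xu = (dB.xu).df (m / m1))
    (e_f_xu_re : v252 = -f_xu.re)
    (e_f_xu_im : v259 = -f_xu.im)
    (e_a_xc_d : a_xc = (dB.xc).ev m1)
    (e_a_xc_re : a_xc.re = (-82015/524288 : ℝ))
    (e_a_xc_im : a_xc.im = (0 : ℝ))
    (e_f_xc_d : f_xc = (dB.xc).df (m / m1))
    (e_f_xc_re : v264 = -f_xc.re)
    (e_f_xc_im : v270 = -f_xc.im)
    (e_a_x2u_d : a_x2u = (dB.x2u).ev m1)
    (e_a_x2u_re : a_x2u.re = (241/262144 : ℝ))
    (e_a_x2u_im : a_x2u.im = (0 : ℝ))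
    (e_f_x2u_d : f_x2u = (dB.x2u).df (m / m1))
    (e_f_x2u_re : v275 = -f_x2u.re)
    (e_f_x2u_im : v281 = -f_x2u.im)
    (e_a_x2c_d : a_x2c = (dB.x2c).ev m1)
    (e_a_x2c_re : a_x2c.re = (-9577/262144 : ℝ))
    (e_a_x2c_im : v283 = -a_x2c.im)
    (e_f_x2c_d : f_x2c = (dB.x2c).df (m / m1))
    (e_f_x2c_re : v288 = -f_x2c.re)
    (e_f_x2c_im : v295 = -f_x2c.im)
    (e_a_xbu_d : a_xbu = (dB.xbu).ev m1)
    (e_a_xbu_re : a_xbu.re = (9591/1048576 : ℝ))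
    (e_a_xbu_im : v297 = a_xbu.im)
    (e_f_xbu_d : f_xbu = (dB.xbu).df (m / m1))
    (e_f_xbu_re : v302 = -f_xbu.re)
    (e_f_xbu_im : v309 = -f_xbu.im)
    (e_o_lam_d : o_lam = (dB.nd R m (shq (m1 - m)) (chq (m1 - m))).lam)
    (e_o_lam_v : v310 = o_lam)
    (h311 : v311 = (0 : ℝ))
    (e_o_dar_d : o_dar = (dB.nd R m (shq (m1 - m)) (chq (m1 - m))).da.re)
    (e_o_dar_v : v312 = o_dar)
    (e_o_dai_d : o_dai = (dB.nd R m (shq (m1 - m)) (chq (m1 - m))).da.im)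
    (e_o_dai_v : v313 = o_dai)
    (e_o_dyr_d : o_dyr = (dB.nd R m (shq (m1 - m)) (chq (m1 - m))).dy.re)
    (e_o_dyr_v : v314 = o_dyr)
    (e_o_dyi_d : o_dyi = (dB.nd R m (shq (m1 - m)) (chq (m1 - m))).dy.im)
    (e_o_dyi_v : v315 = o_dyi)
    (h316 : v316 = v58 * v196)
    (h317 : v317 = v297 - v283)
    (h318 : v318 = v283 + v297)
    (h319 : v319 = v58 * v283)
    (h : TrE (realAlg (fun i => get 0 (l1n μB m) i) (m / m1) (0)) (pXB.drop 320) [v319, v318, v317, v316, v315, v314, v313, v312, v311, v310, v309, v308, v307, v306, v305, v304, v303, v302, v301, v300, v299, v298, v297, v296, v295, v294, v293, v292, v291, v290, v289, v288, v287, v286, v285, v284, v283, v282, v281, v280, v279, v278, v277, v276, v275, v274, v273, v272, v271, v270, v269, v268, v267, v266, v265, v264, v263, v262, v261, v260, v259, v258, v257, v256, v255, v254, v253, v252, v251, v250, v249, v248, v247, v246,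 v245, v244, v243, v242, v241, v240, v239, v238, v237, v236, v235, v234, v233, v232, v231, v230, v229, v228, v227, v226, v225, v224, v223, v222, v221, v220, v219, v218, v217, v216, v215, v214, v213, v212, v211, v210, v209, v208, v207, v206, v205, v204, v203, v202, v201, v200, v199, v198, v197, v196, v195, v194, v193, v192, v191, v190, v189, v188, v187, v186, v185, v184, v183, v182, v181, v180, v179, v178, v177, v176, v175, v174, v173, v172, v171, v170, v169, v168, v167, v166, v165, v164, v163, v162, v161, v160, v159, v158, v157, v156, v155, v154, v153, v152, v151, v150, v149, v148, v147, v146, v145, v144, v143, v142, v141, v140, v139, v138, v137, v136, v135, v134, v133, v132, v131, v130, v129, v128, v127, v126, v125, v124, v123, v122, v121, v120, v119, v118, v117, v116, v115, v114, v113, v112, v111, v110, v109, v108, v107, v106, v105, v104, v103, v102, v101, v100, v99, v98, v97, v96,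 v95, v94, v93, v92, v91, v90, v89, v88, v87, v86, v85, v84, v83, v82, v81, v80, v79, v78, v77, v76, v75, v74, v73, v72, v71, v70, v69, v68, v67, v66, v65, v64, v63, v62, v61, v60, v59, v58, v57, v56, v55, v54, v53, v52, v51, v50, v49, v48, v47, v46, v45, v44, v43, v42, v41, v40, v39, v38, v37, v36, v35, v34, v33, v32, v31, v30, v29, v28, v27, v26, v25, v24, v23, v22, v21, v20, v19, v18, v17, v16, v15, v14, v13, v12, v11, v10, v9, v8, v7, v6, v5, v4, v3, v2, v1, v0] (fun st => run (realAlg (fun i => get 0 (l1n μB m) i) (m / m1) (0)) pXB [] = st)) :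
    pXB_goal R m := by
  have hm1 : m1 ≠ 0 := m1_ne
  obtain ⟨v320, h320, h⟩ := h
  change v320 = v58 * v201 at h320
  obtain ⟨o_oA11, e_o_oA11_d⟩ : ∃ q : ℝ, q = 2 * (dB.nd R m (shq (m1 - m)) (chq (m1 - m))).c1.a20 := ⟨_, rfl⟩
  have a_o_oA11 : 2 * (dB.nd R m (shq (m1 - m)) (chq (m1 - m))).c1.a20 = 2 * (a_xx.im + a_xb.im) := by
    rw [e_a_xx_d, e_a_xb_d]; rfl
  have e_o_oA11_v : v320 = o_oA11 := by
    rw [e_o_oA11_d, a_o_oA11]
    simp only [h320, h58, e_a_xx_im, e_a_xb_re, e_a_xb_im, mul_re, mul_im, add_re, add_im, sub_re, sub_im, neg_re, neg_im, I_re, I_im, ofReal_re,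
      ofReal_im, one_re, one_im, zero_re, zero_im, dt, normSq_apply, re_ofNat, im_ofNat, conj_re, conj_im]
    try ring
  obtain ⟨v321, h321, h⟩ := h
  change v321 = v311 - v316 at h321
  obtain ⟨o_oA12, e_o_oA12_d⟩ : ∃ q : ℝ, q = (dB.nd R m (shq (m1 - m)) (chq (m1 - m))).c1.a11 := ⟨_, rfl⟩
  have a_o_oA12 : (dB.nd R m (shq (m1 - m)) (chq (m1 - m))).c1.a11 = 2 * a_xx.re := by
    rw [e_a_xx_d]; rfl
  have e_o_oA12_v : v321 = o_oA12 := by
    rw [e_o_oA12_d, a_o_oA12]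
    simp only [h321, h316, h311, h58, e_a_xx_re, mul_re, mul_im, add_re, add_im, sub_re, sub_im, neg_re, neg_im, I_re, I_im, ofReal_re,
      ofReal_im, one_re, one_im, zero_re, zero_im, dt, normSq_apply, re_ofNat, im_ofNat, conj_re, conj_im]
    try ring
  obtain ⟨v322, h322, h⟩ := h
  change v322 = v311 - v320 at h322
  obtain ⟨o_oA22, e_o_oA22_d⟩ : ∃ q : ℝ, q = 2 * (dB.nd R m (shq (m1 - m)) (chq (m1 - m))).c1.a02 := ⟨_, rfl⟩
  have a_o_oA22 : 2 * (dB.nd R m (shq (m1 - m)) (chq (m1 - m))).c1.a02 = 2 * (-a_xx.im + a_xb.im) := by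
    rw [e_a_xx_d, e_a_xb_d]; rfl
  have e_o_oA22_v : v322 = o_oA22 := by
    rw [e_o_oA22_d, a_o_oA22]
    simp only [h322, h320, h311, h58, e_a_xx_im, e_a_xb_re, e_a_xb_im, mul_re, mul_im, add_re, add_im, sub_re, sub_im, neg_re, neg_im, I_re, I_im, ofReal_re,
      ofReal_im, one_re, one_im, zero_re, zero_im, dt, normSq_apply, re_ofNat, im_ofNat, conj_re, conj_im]
    try ring
  obtain ⟨v323, h323, h⟩ := h
  change v323 = v51 * v233 at h323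
  obtain ⟨o_og1, e_o_og1_d⟩ : ∃ q : ℝ, q = 3 * (dB.nd R m (shq (m1 - m)) (chq (m1 - m))).c1.a30 := ⟨_, rfl⟩
  have a_o_og1 : 3 * (dB.nd R m (shq (m1 - m)) (chq (m1 - m))).c1.a30 = 3 * (a_x3.im + a_x2b.im) := by
    rw [e_a_x3_d, e_a_x2b_d]; rfl
  have e_o_og1_v : v323 = o_og1 := by
    rw [e_o_og1_d, a_o_og1]
    simp only [h323, h51, e_a_x2b_im, e_a_x3_re, e_a_x3_im, e_a_x2b_re, mul_re, mul_im, add_re, add_im, sub_re, sub_im, neg_re, neg_im, I_re, I_im, ofReal_re,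
      ofReal_im, one_re, one_im, zero_re, zero_im, dt, normSq_apply, re_ofNat, im_ofNat, conj_re, conj_im]
    try ring
  obtain ⟨v324, h324, h⟩ := h
  replace h324 : v324 = (-4437 : ℝ) / 2 ^ 16 := by rw [h324]; norm_num [step, realAlg]
  obtain ⟨o_og2, e_o_og2_d⟩ : ∃ q : ℝ, q = 2 * (dB.nd R m (shq (m1 - m)) (chq (m1 - m))).c1.a21 := ⟨_, rfl⟩
  have a_o_og2 : 2 * (dB.nd R m (shq (m1 - m)) (chq (m1 - m))).c1.a21 = 2 * (3 * a_x3.re + a_x2b.re) := by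
    rw [e_a_x3_d, e_a_x2b_d]; rfl
  have e_o_og2_v : v324 = o_og2 := by
    rw [e_o_og2_d, a_o_og2]
    simp only [h324, e_a_x2b_re, e_a_x3_re, e_a_x3_im, mul_re, mul_im, add_re, add_im, sub_re, sub_im, neg_re, neg_im, I_re, I_im, ofReal_re,
      ofReal_im, one_re, one_im, zero_re, zero_im, dt, normSq_apply, re_ofNat, im_ofNat, conj_re, conj_im]
    try ring
  obtain ⟨o_og3, e_o_og3_d⟩ : ∃ q : ℝ, q = (dB.nd R m (shq (m1 - m)) (chq (m1 - m))).c1.a12 := ⟨_, rfl⟩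
  have a_o_og3 : (dB.nd R m (shq (m1 - m)) (chq (m1 - m))).c1.a12 = -3 * a_x3.im + a_x2b.im := by
    rw [e_a_x3_d, e_a_x2b_d]; rfl
  have e_o_og3_v : v233 = o_og3 := by
    rw [e_o_og3_d, a_o_og3]
    simp only [e_a_x2b_im, e_a_x3_re, e_a_x3_im, e_a_x2b_re, mul_re, mul_im, add_re, add_im, sub_re, sub_im, neg_re, neg_im, I_re, I_im, ofReal_re,
      ofReal_im, one_re, one_im, zero_re, zero_im, dt, normSq_apply, re_ofNat, im_ofNat, conj_re, conj_im]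
    try ring
  obtain ⟨v325, h325, h⟩ := h
  replace h325 : v325 = (-4437 : ℝ) / 2 ^ 17 := by rw [h325]; norm_num [step, realAlg]
  obtain ⟨o_og4, e_o_og4_d⟩ : ∃ q : ℝ, q = (dB.nd R m (shq (m1 - m)) (chq (m1 - m))).c1.a21 := ⟨_, rfl⟩
  have a_o_og4 : (dB.nd R m (shq (m1 - m)) (chq (m1 - m))).c1.a21 = 3 * a_x3.re + a_x2b.re := by
    rw [e_a_x3_d, e_a_x2b_d]; rfl
  have e_o_og4_v : v325 = o_og4 := by
    rw [e_o_og4_d, a_o_og4]
    simp only [h325, e_a_x3_re, e_a_x3_im, e_a_x2b_re, mul_re, mul_im, add_re, add_im, sub_re, sub_im, neg_re, neg_im, I_re, I_im, ofReal_re,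
      ofReal_im, one_re, one_im, zero_re, zero_im, dt, normSq_apply, re_ofNat, im_ofNat, conj_re, conj_im]
    try ring
  obtain ⟨v326, h326, h⟩ := h
  change v326 = v58 * v233 at h326
  obtain ⟨o_og5, e_o_og5_d⟩ : ∃ q : ℝ, q = 2 * (dB.nd R m (shq (m1 - m)) (chq (m1 - m))).c1.a12 := ⟨_, rfl⟩
  have a_o_og5 : 2 * (dB.nd R m (shq (m1 - m)) (chq (m1 - m))).c1.a12 = 2 * (-3 * a_x3.im + a_x2b.im) := by
    rw [e_a_x3_d, e_a_x2b_d]; rfl
  have e_o_og5_v : v326 = o_og5 := by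
    rw [e_o_og5_d, a_o_og5]
    simp only [h326, h58, e_a_x2b_im, e_a_x2b_re, e_a_x3_re, e_a_x3_im, mul_re, mul_im, add_re, add_im, sub_re, sub_im, neg_re, neg_im, I_re, I_im, ofReal_re,
      ofReal_im, one_re, one_im, zero_re, zero_im, dt, normSq_apply, re_ofNat, im_ofNat, conj_re, conj_im]
    try ring
  obtain ⟨v327, h327, h⟩ := h
  replace h327 : v327 = (2235 : ℝ) / 2 ^ 16 := by rw [h327]; norm_num [step, realAlg]
  obtain ⟨o_og6, e_o_og6_d⟩ : ∃ q : ℝ, q = 3 * (dB.nd R m (shq (m1 - m)) (chq (m1 - m))).c1.a03 := ⟨_, rfl⟩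
  have a_o_og6 : 3 * (dB.nd R m (shq (m1 - m)) (chq (m1 - m))).c1.a03 = 3 * (-a_x3.re + a_x2b.re) := by
    rw [e_a_x3_d, e_a_x2b_d]; rfl
  have e_o_og6_v : v327 = o_og6 := by
    rw [e_o_og6_d, a_o_og6]
    simp only [h327, e_a_x3_re, e_a_x3_im, e_a_x2b_re, mul_re, mul_im, add_re, add_im, sub_re, sub_im, neg_re, neg_im, I_re, I_im, ofReal_re,
      ofReal_im, one_re, one_im, zero_re, zero_im, dt, normSq_apply, re_ofNat, im_ofNat, conj_re, conj_im]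
    try ring
  obtain ⟨v328, h328, h⟩ := h
  change v328 = v311 - v247 at h328
  obtain ⟨o_ob11, e_o_ob11_d⟩ : ∃ q : ℝ, q = (dB.nd R m (shq (m1 - m)) (chq (m1 - m))).c1.b11 := ⟨_, rfl⟩
  have a_o_ob11 : (dB.nd R m (shq (m1 - m)) (chq (m1 - m))).c1.b11 = a_xu.im + a_xc.im := by
    rw [e_a_xu_d, e_a_xc_d]; rfl
  have e_o_ob11_v : v328 = o_ob11 := by
    rw [e_o_ob11_d, a_o_ob11]
    simp only [h328, h311, e_a_xu_im, e_a_xu_re, e_a_xc_re, e_a_xc_im, mul_re, mul_im, add_re, add_im, sub_re, sub_im, neg_re, neg_im, I_re, I_im, ofReal_re,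
      ofReal_im, one_re, one_im, zero_re, zero_im, dt, normSq_apply, re_ofNat, im_ofNat, conj_re, conj_im]
    try ring
  obtain ⟨v329, h329, h⟩ := h
  replace h329 : v329 = (-82015 : ℝ) / 2 ^ 20 := by rw [h329]; norm_num [step, realAlg]
  obtain ⟨o_ob12, e_o_ob12_d⟩ : ∃ q : ℝ, q = (dB.nd R m (shq (m1 - m)) (chq (m1 - m))).c1.b12 := ⟨_, rfl⟩
  have a_o_ob12 : (dB.nd R m (shq (m1 - m)) (chq (m1 - m))).c1.b12 = a_xu.re + a_xc.re := by
    rw [e_a_xu_d, e_a_xc_d]; rfl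
  have e_o_ob12_v : v329 = o_ob12 := by
    rw [e_o_ob12_d, a_o_ob12]
    simp only [h329, e_a_xu_re, e_a_xc_re, e_a_xc_im, mul_re, mul_im, add_re, add_im, sub_re, sub_im, neg_re, neg_im, I_re, I_im, ofReal_re,
      ofReal_im, one_re, one_im, zero_re, zero_im, dt, normSq_apply, re_ofNat, im_ofNat, conj_re, conj_im]
    try ring
  obtain ⟨v330, h330, h⟩ := h
  replace h330 : v330 = (246045 : ℝ) / 2 ^ 20 := by rw [h330]; norm_num [step, realAlg]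
  obtain ⟨o_ob21, e_o_ob21_d⟩ : ∃ q : ℝ, q = (dB.nd R m (shq (m1 - m)) (chq (m1 - m))).c1.b21 := ⟨_, rfl⟩
  have a_o_ob21 : (dB.nd R m (shq (m1 - m)) (chq (m1 - m))).c1.b21 = a_xu.re - a_xc.re := by
    rw [e_a_xu_d, e_a_xc_d]; rfl
  have e_o_ob21_v : v330 = o_ob21 := by
    rw [e_o_ob21_d, a_o_ob21]
    simp only [h330, e_a_xu_re, e_a_xc_re, e_a_xc_im, mul_re, mul_im, add_re, add_im, sub_re, sub_im, neg_re, neg_im, I_re, I_im, ofReal_re,
      ofReal_im, one_re, one_im, zero_re, zero_im, dt, normSq_apply, re_ofNat, im_ofNat, conj_re, conj_im]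
    try ring
  obtain ⟨o_ob22, e_o_ob22_d⟩ : ∃ q : ℝ, q = (dB.nd R m (shq (m1 - m)) (chq (m1 - m))).c1.b22 := ⟨_, rfl⟩
  have a_o_ob22 : (dB.nd R m (shq (m1 - m)) (chq (m1 - m))).c1.b22 = -a_xu.im + a_xc.im := by
    rw [e_a_xu_d, e_a_xc_d]; rfl
  have e_o_ob22_v : v247 = o_ob22 := by
    rw [e_o_ob22_d, a_o_ob22]
    simp only [e_a_xu_im, e_a_xu_re, e_a_xc_re, e_a_xc_im, mul_re, mul_im, add_re, add_im, sub_re, sub_im, neg_re, neg_im, I_re, I_im, ofReal_re,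
      ofReal_im, one_re, one_im, zero_re, zero_im, dt, normSq_apply, re_ofNat, im_ofNat, conj_re, conj_im]
    try ring
  obtain ⟨o_oq1, e_o_oq1_d⟩ : ∃ q : ℝ, q = (dB.nd R m (shq (m1 - m)) (chq (m1 - m))).c1.q1 := ⟨_, rfl⟩
  have a_o_oq1 : (dB.nd R m (shq (m1 - m)) (chq (m1 - m))).c1.q1 = a_x2u.im + a_x2c.im + a_xbu.im := by
    rw [e_a_x2u_d, e_a_x2c_d, e_a_xbu_d]; rfl
  have e_o_oq1_v : v317 = o_oq1 := by
    rw [e_o_oq1_d, a_o_oq1]
    simp only [h317, e_a_x2c_im, e_a_xbu_im, e_a_xbu_re, e_a_x2c_re, e_a_x2u_re, e_a_x2u_im, mul_re, mul_im, add_re, add_im, sub_re, sub_im, neg_re, neg_im, I_re, I_im, ofReal_re,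
      ofReal_im, one_re, one_im, zero_re, zero_im, dt, normSq_apply, re_ofNat, im_ofNat, conj_re, conj_im]
    try ring
  obtain ⟨v331, h331, h⟩ := h
  replace h331 : v331 = (-1167 : ℝ) / 2 ^ 14 := by rw [h331]; norm_num [step, realAlg]
  obtain ⟨o_oq2, e_o_oq2_d⟩ : ∃ q : ℝ, q = (dB.nd R m (shq (m1 - m)) (chq (m1 - m))).c1.q2 := ⟨_, rfl⟩
  have a_o_oq2 : (dB.nd R m (shq (m1 - m)) (chq (m1 - m))).c1.q2 = 2 * (a_x2u.re + a_x2c.re) := by
    rw [e_a_x2u_d, e_a_x2c_d]; rfl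
  have e_o_oq2_v : v331 = o_oq2 := by
    rw [e_o_oq2_d, a_o_oq2]
    simp only [h331, e_a_x2u_re, e_a_x2u_im, e_a_x2c_re, mul_re, mul_im, add_re, add_im, sub_re, sub_im, neg_re, neg_im, I_re, I_im, ofReal_re,
      ofReal_im, one_re, one_im, zero_re, zero_im, dt, normSq_apply, re_ofNat, im_ofNat, conj_re, conj_im]
    try ring
  obtain ⟨o_oq3, e_o_oq3_d⟩ : ∃ q : ℝ, q = (dB.nd R m (shq (m1 - m)) (chq (m1 - m))).c1.q3 := ⟨_, rfl⟩
  have a_o_oq3 : (dB.nd R m (shq (m1 - m)) (chq (m1 - m))).c1.q3 = -a_x2u.im - a_x2c.im + a_xbu.im := by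
    rw [e_a_x2u_d, e_a_x2c_d, e_a_xbu_d]; rfl
  have e_o_oq3_v : v318 = o_oq3 := by
    rw [e_o_oq3_d, a_o_oq3]
    simp only [h318, e_a_xbu_im, e_a_x2c_im, e_a_xbu_re, e_a_x2c_re, e_a_x2u_re, e_a_x2u_im, mul_re, mul_im, add_re, add_im, sub_re, sub_im, neg_re, neg_im, I_re, I_im, ofReal_re,
      ofReal_im, one_re, one_im, zero_re, zero_im, dt, normSq_apply, re_ofNat, im_ofNat, conj_re, conj_im]
    try ring
  obtain ⟨v332, h332, h⟩ := h
  replace h332 : v332 = (48863 : ℝ) / 2 ^ 20 := by rw [h332]; norm_num [step, realAlg]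
  obtain ⟨o_oq4, e_o_oq4_d⟩ : ∃ q : ℝ, q = (dB.nd R m (shq (m1 - m)) (chq (m1 - m))).c1.q4 := ⟨_, rfl⟩
  have a_o_oq4 : (dB.nd R m (shq (m1 - m)) (chq (m1 - m))).c1.q4 = a_x2u.re - a_x2c.re + a_xbu.re := by
    rw [e_a_x2u_d, e_a_x2c_d, e_a_xbu_d]; rfl
  have e_o_oq4_v : v332 = o_oq4 := by
    rw [e_o_oq4_d, a_o_oq4]
    simp only [h332, e_a_xbu_re, e_a_x2c_re, e_a_x2u_re, e_a_x2u_im, mul_re, mul_im, add_re, add_im, sub_re, sub_im, neg_re, neg_im, I_re, I_im, ofReal_re,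
      ofReal_im, one_re, one_im, zero_re, zero_im, dt, normSq_apply, re_ofNat, im_ofNat, conj_re, conj_im]
    try ring
  obtain ⟨v333, h333, h⟩ := h
  change v333 = v311 - v319 at h333
  obtain ⟨o_oq5, e_o_oq5_d⟩ : ∃ q : ℝ, q = (dB.nd R m (shq (m1 - m)) (chq (m1 - m))).c1.q5 := ⟨_, rfl⟩
  have a_o_oq5 : (dB.nd R m (shq (m1 - m)) (chq (m1 - m))).c1.q5 = 2 * (-a_x2u.im + a_x2c.im) := by
    rw [e_a_x2u_d, e_a_x2c_d]; rfl
  have e_o_oq5_v : v333 = o_oq5 := by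
    rw [e_o_oq5_d, a_o_oq5]
    simp only [h333, h319, h311, h58, e_a_x2c_im, e_a_x2u_re, e_a_x2u_im, e_a_x2c_re, mul_re, mul_im, add_re, add_im, sub_re, sub_im, neg_re, neg_im, I_re, I_im, ofReal_re,
      ofReal_im, one_re, one_im, zero_re, zero_im, dt, normSq_apply, re_ofNat, im_ofNat, conj_re, conj_im]
    try ring
  obtain ⟨v334, h334, h⟩ := h
  replace h334 : v334 = (-29681 : ℝ) / 2 ^ 20 := by rw [h334]; norm_num [step, realAlg]
  obtain ⟨o_oq6, e_o_oq6_d⟩ : ∃ q : ℝ, q = (dB.nd R m (shq (m1 - m)) (chq (m1 - m))).c1.q6 := ⟨_, rfl⟩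
  have a_o_oq6 : (dB.nd R m (shq (m1 - m)) (chq (m1 - m))).c1.q6 = -a_x2u.re + a_x2c.re + a_xbu.re := by
    rw [e_a_x2u_d, e_a_x2c_d, e_a_xbu_d]; rfl
  have e_o_oq6_v : v334 = o_oq6 := by
    rw [e_o_oq6_d, a_o_oq6]
    simp only [h334, e_a_xbu_re, e_a_x2c_re, e_a_x2u_re, e_a_x2u_im, mul_re, mul_im, add_re, add_im, sub_re, sub_im, neg_re, neg_im, I_re, I_im, ofReal_re,
      ofReal_im, one_re, one_im, zero_re, zero_im, dt, normSq_apply, re_ofNat, im_ofNat, conj_re, conj_im]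
    try ring
  obtain ⟨v335, h335, h⟩ := h
  change v335 = v214 + v220 at h335
  obtain ⟨v336, h336, h⟩ := h
  change v336 = v214 - v220 at h336
  obtain ⟨v337, h337, h⟩ := h
  change v337 = v58 * v206 at h337
  obtain ⟨v338, h338, h⟩ := h
  change v338 = v231 + v245 at h338
  obtain ⟨v339, h339, h⟩ := h
  change v339 = v51 * v231 at h339
  obtain ⟨v340, h340, h⟩ := h
  change v340 = v339 - v245 at h340
  obtain ⟨v341, h341, h⟩ := h
  change v341 = v51 * v225 at h341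
  obtain ⟨v342, h342, h⟩ := h
  change v342 = v238 + v341 at h342
  obtain ⟨v343, h343, h⟩ := h
  change v343 = v225 - v238 at h343
  obtain ⟨v344, h344, h⟩ := h
  change v344 = v259 + v270 at h344
  obtain ⟨v345, h345, h⟩ := h
  change v345 = v252 + v264 at h345
  obtain ⟨v346, h346, h⟩ := h
  change v346 = v264 - v252 at h346
  obtain ⟨v347, h347, h⟩ := h
  change v347 = v259 - v270 at h347
  obtain ⟨v348, h348, h⟩ := h
  change v348 = v281 + v295 at h348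
  obtain ⟨v349, h349, h⟩ := h
  change v349 = v309 + v348 at h349
  obtain ⟨v350, h350, h⟩ := h
  change v350 = v275 + v288 at h350
  obtain ⟨v351, h351, h⟩ := h
  change v351 = v58 * v350 at h351
  obtain ⟨v352, h352, h⟩ := h
  change v352 = v281 - v309 at h352
  obtain ⟨v353, h353, h⟩ := h
  change v353 = v295 + v352 at h353
  obtain ⟨v354, h354, h⟩ := h
  change v354 = v288 - v275 at h354
  obtain ⟨v355, h355, h⟩ := h
  change v355 = v354 - v302 at h355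
  obtain ⟨v356, h356, h⟩ := h
  change v356 = v281 - v295 at h356
  obtain ⟨v357, h357, h⟩ := h
  change v357 = v58 * v356 at h357
  obtain ⟨v358, h358, h⟩ := h
  change v358 = v275 - v288 at h358
  obtain ⟨v359, h359, h⟩ := h
  change v359 = v358 - v302 at h359
  exact pXB_c9 R m e_U_d e_mm_d e_U2_d e_sg_d e_kg_d e_c1v_d e_h1v_d e_Pv_d e_Qv_d e_r1v_d e_iT_d h51 h58 e_dyv_d e_Ks_d e_Kc_d e_QP_d e_dtv_d e_dpv_d e_tkv_d e_pkv_d e_kc_d e_kq_d e_tp_d e_tq_d e_dqv_d e_t2_d e_tf_d e_f_ax_d e_dav_d e_a_xx_d e_f_xx_d e_f_xx_re e_f_xx_im e_a_xb_d e_f_xb_d e_f_xb_re e_f_xb_im e_a_x3_d e_f_x3_d e_f_x3_re e_f_x3_im e_a_x2b_d e_f_x2b_d e_f_x2b_re e_f_x2b_im e_a_xu_d e_f_xu_d e_f_xu_re e_f_xu_im e_a_xc_d e_f_xc_d e_f_xc_re e_f_xc_im e_a_x2u_d e_f_x2u_d e_f_x2u_re e_f_x2u_im e_a_x2c_d e_f_x2c_d e_f_x2c_re e_f_x2c_im e_a_xbu_d e_f_xbu_d e_f_xbu_re e_f_xbu_im e_o_lam_d e_o_lam_v h311 e_o_dar_d e_o_dar_v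 e_o_dai_d e_o_dai_v e_o_dyr_d e_o_dyr_v e_o_dyi_d e_o_dyi_v e_o_oA11_d e_o_oA11_v e_o_oA12_d e_o_oA12_v e_o_oA22_d e_o_oA22_v e_o_og1_d e_o_og1_v e_o_og2_d e_o_og2_v e_o_og3_d e_o_og3_v e_o_og4_d e_o_og4_v e_o_og5_d e_o_og5_v e_o_og6_d e_o_og6_v e_o_ob11_d e_o_ob11_v e_o_ob12_d e_o_ob12_v e_o_ob21_d e_o_ob21_v e_o_ob22_d e_o_ob22_v e_o_oq1_d e_o_oq1_v e_o_oq2_d e_o_oq2_v e_o_oq3_d e_o_oq3_v e_o_oq4_d e_o_oq4_v e_o_oq5_d e_o_oq5_v e_o_oq6_d e_o_oq6_v h335 h336 h337 h338 h339 h340 h341 h342 h343 h344 h345 h346 h347 h348 h349 h350 h351 h352 h353 h354 h355 h356 h357 h358 h359 h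

theorem pXB_c7 (R m : ℝ) {v0 v1 v2 v3 v4 v5 v6 v7 v8 v9 v10 v11 v12 v13 v14 U mm v15 U2 v16 v17 v18 v19 v20 v21 v22 v23 v24 v25 v26 sg v27 v28 v29 v30 v31 v32 v33 v34 v35 v36 v37 v38 kg v39 v40 c1v v41 h1v v42 v43 v44 Pv v45 v46 v47 Qv v48 r1v v49 iT v50 v51 v52 v53 v54 v55 v56 v57 v58 v59 v60 v61 v62 : ℝ} {dyv : ℂ} {v63 Ks v64 Kc v65 v66 QP v67 v68 v69 v70 v71 v72 v73 v74 v75 v76 v77 v78 v79 v80 v81 v82 v83 v84 v85 v86 v87 v88 v89 v90 v91 v92 v93 v94 v95 : ℝ} {dtv : ℂ} {v96 v97 v98 v99 v100 v101 v102 v103 v104 v105 v106 v107 : ℝ} {dpv : ℂ} {v108 v109 v110 v111 v112 v113 v114 v115 v116 v117 v118 v119 v120 v121 v122 v123 v124 v125 v126 v127 v128 : ℝ} {tkv : ℂ} {v129 v130 v131 v132 v133 v134 v135 v136 v137 v138 v139 v140 : ℝ} {pkv : ℂ} {v141 v142 v143 kc v144 v145 v146 v147 kq v148 v149 v150 v151 : ℝ} {tp : ℂ} {v152 v153 v154 v155 : ℝ} {tq : ℂ} {v156 v157 v158 v159 v160 v161 v162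 v163 v164 v165 : ℝ} {dqv : ℂ} {v166 t2 v167 v168 tf v169 v170 v171 v172 v173 v174 v175 v176 v177 v178 v179 v180 v181 v182 v183 v184 v185 v186 v187 v188 v189 v190 v191 v192 v193 : ℝ} {f_ax : ℂ} {v194 v195 : ℝ} {dav : ℂ} {v196 v197 v198 v199 v200 v201 : ℝ} {a_xx : ℂ} {v202 v203 v204 v205 v206 v207 v208 v209 v210 v211 v212 v213 v214 : ℝ} {f_xx a_xb : ℂ} {v215 v216 v217 v218 v219 v220 : ℝ} {f_xb a_x3 : ℂ} {v221 v222 v223 v224 v225 v226 v227 v228 v229 v230 v231 : ℝ} {f_x3 : ℂ} {v232 v233 : ℝ} {a_x2b : ℂ} {v234 v235 v236 v237 v238 v239 v240 v241 v242 v243 v244 v245 : ℝ} {f_x2b : ℂ} {v246 v247 : ℝ} {a_xu : ℂ} {v248 v249 v250 v251 v252 v253 v254 v255 v256 v257 v258 v259 : ℝ} {f_xu a_xc : ℂ} {v260 v261 v262 v263 v264 v265 v266 v267 v268 v269 v270 : ℝ} {f_xc a_x2u : ℂ} {v271 v272 v273 v274 v275 v276 v277 v278 v279 : ℝ}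
    (h1 : v1 = s3)
    (h12 : v12 = m / m1)
    (e_U_d : U = m1 - m)
    (e_mm_d : mm = m)
    (e_U2_d : U2 = (m1 - m) ^ 2)
    (h24 : v24 = (1 : ℝ))
    (e_sg_d : sg = shq (m1 - m))
    (e_kg_d : kg = chq (m1 - m))
    (e_c1v_d : c1v = 1 + Real.sqrt 2 / 2)
    (e_h1v_d : h1v = 1 - Real.sqrt 2 / 2)
    (e_Pv_d : Pv = nP (shq (m1 - m)) (chq (m1 - m)))
    (e_Qv_d : Qv = nQ (shq (m1 - m)) (chq (m1 - m)))
    (e_r1v_d : r1v = Real.sqrt 2 - 1)
    (e_r1v_v : v48 = r1v)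
    (e_iT_d : iT = (Real.sqrt 2 - 1) * (1 / oS m))
    (h51 : v51 = (3 : ℝ))
    (h58 : v58 = (2 : ℝ))
    (e_dyv_d : dyv = ndy m (nP (shq (m1 - m)) (chq (m1 - m))) (nQ (shq (m1 - m)) (chq (m1 - m))))
    (e_dyv_re : v53 = -dyv.re)
    (e_dyv_im : v62 = -dyv.im)
    (e_Ks_d : Ks = kp * Real.sinh m)
    (e_Kc_d : Kc = kp * Real.cosh m)
    (e_QP_d : QP = nQ (shq (m1 - m)) (chq (m1 - m)) * (1 + Real.sqrt 2 / 2) + kp * Real.sinh m * nP (shq (m1 - m)) (chq (m1 - m)))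
    (e_dtv_d : dtv = ndt m (nP (shq (m1 - m)) (chq (m1 - m))) (nQ (shq (m1 - m)) (chq (m1 - m))))
    (e_dpv_d : dpv = ndp m (nP (shq (m1 - m)) (chq (m1 - m))) (nQ (shq (m1 - m)) (chq (m1 - m))))
    (e_tkv_d : tkv = tk m)
    (e_pkv_d : pkv = pk m)
    (e_kc_d : kc = oc * (3 * (4 - Real.sqrt 2) / 4))
    (e_kq_d : kq = -(s3 * (1 / 27) * (1 / oK) ^ 2 * m1))
    (e_tp_d : tp = tk m + ((oc * (3 * (4 - Real.sqrt 2) / 4) : ℝ) : ℂ) * pk m)
    (e_tq_d : tq = ndt m (nP (shq (m1 - m)) (chq (m1 - m))) (nQ (shq (m1 - m)) (chq (m1 - m))) + ((oc * (3 * (4 - Real.sqrt 2) / 4) : ℝ) : ℂ) * ndp m (nP (shq (m1 - m)) (chq (m1 - m))) (nQ (shq (m1 - m)) (chq (m1 - m))))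
    (e_dqv_d : dqv = ndq m (nP (shq (m1 - m)) (chq (m1 - m))) (nQ (shq (m1 - m)) (chq (m1 - m))))
    (e_t2_d : t2 = (m / m1) ^ 2)
    (e_t2_v : v166 = t2)
    (h167 : v167 = v12 + v24)
    (e_tf_d : tf = (m / m1) * (1 + m / m1))
    (e_tf_v : v168 = tf)
    (e_f_ax_d : f_ax = (dB.ax).df (m / m1))
    (e_dav_d : dav = ndq m (nP (shq (m1 - m)) (chq (m1 - m))) (nQ (shq (m1 - m)) (chq (m1 - m))) + I * (starRingEnd ℂ) (dB.ax.df (m / m1)))
    (e_dav_re : v194 = -dav.re)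
    (e_dav_im : v195 = -dav.im)
    (e_a_xx_d : a_xx = (dB.xx).ev m1)
    (e_a_xx_re : v196 = -a_xx.re)
    (e_a_xx_im : v201 = a_xx.im)
    (e_f_xx_d : f_xx = (dB.xx).df (m / m1))
    (e_f_xx_re : v206 = -f_xx.re)
    (e_f_xx_im : v214 = -f_xx.im)
    (e_a_xb_d : a_xb = (dB.xb).ev m1)
    (e_a_xb_re : a_xb.re = (0 : ℝ))
    (e_a_xb_im : a_xb.im = (0 : ℝ))
    (e_f_xb_d : f_xb = (dB.xb).df (m / m1))
    (e_f_xb_re : f_xb.re = (0 : ℝ))
    (e_f_xb_im : v220 = -f_xb.im)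
    (e_a_x3_d : a_x3 = (dB.x3).ev m1)
    (e_a_x3_re : a_x3.re = (-5927/524288 : ℝ))
    (e_a_x3_im : a_x3.im = (0 : ℝ))
    (e_f_x3_d : f_x3 = (dB.x3).df (m / m1))
    (e_f_x3_re : v225 = -f_x3.re)
    (e_f_x3_im : v231 = -f_x3.im)
    (e_a_x2b_d : a_x2b = (dB.x2b).ev m1)
    (e_a_x2b_re : a_x2b.re = (33/524288 : ℝ))
    (e_a_x2b_im : v233 = a_x2b.im)
    (e_f_x2b_d : f_x2b = (dB.x2b).df (m / m1))
    (e_f_x2b_re : v238 = -f_x2b.re)
    (e_f_x2b_im : v245 = -f_x2b.im)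
    (e_a_xu_d : a_xu = (dB.xu).ev m1)
    (e_a_xu_re : a_xu.re = (82015/1048576 : ℝ))
    (e_a_xu_im : v247 = -a_xu.im)
    (e_f_xu_d : f_xu = (dB.xu).df (m / m1))
    (e_f_xu_re : v252 = -f_xu.re)
    (e_f_xu_im : v259 = -f_xu.im)
    (e_a_xc_d : a_xc = (dB.xc).ev m1)
    (e_a_xc_re : a_xc.re = (-82015/524288 : ℝ))
    (e_a_xc_im : a_xc.im = (0 : ℝ))
    (e_f_xc_d : f_xc = (dB.xc).df (m / m1))
    (e_f_xc_re : v264 = -f_xc.re)
    (e_f_xc_im : v270 = -f_xc.im)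
    (e_a_x2u_d : a_x2u = (dB.x2u).ev m1)
    (e_a_x2u_re : a_x2u.re = (241/262144 : ℝ))
    (e_a_x2u_im : a_x2u.im = (0 : ℝ))
    (h271 : v271 = (1787 : ℝ) / 2 ^ 19)
    (h272 : v272 = v166 * v271)
    (h273 : v273 = (57763 : ℝ) / 2 ^ 20)
    (h274 : v274 = v272 - v273)
    (h275 : v275 = v167 * v274)
    (h276 : v276 = (2509 : ℝ) / 2 ^ 20)
    (h277 : v277 = v166 * v276)
    (h278 : v278 = (6081 : ℝ) / 2 ^ 20)
    (h279 : v279 = v277 + v278)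
    (h : TrE (realAlg (fun i => get 0 (l1n μB m) i) (m / m1) (0)) (pXB.drop 280) [v279, v278, v277, v276, v275, v274, v273, v272, v271, v270, v269, v268, v267, v266, v265, v264, v263, v262, v261, v260, v259, v258, v257, v256, v255, v254, v253, v252, v251, v250, v249, v248, v247, v246, v245, v244, v243, v242, v241, v240, v239, v238, v237, v236, v235, v234, v233, v232, v231, v230, v229, v228, v227, v226, v225, v224, v223, v222, v221, v220, v219, v218, v217, v216, v215, v214, v213, v212, v211, v210, v209, v208, v207, v206, v205, v204, v203, v202, v201, v200, v199, v198, v197, v196, v195, v194, v193, v192, v191, v190, v189, v188, v187, v186, v185, v184, v183, v182, v181, v180, v179, v178, v177, v176, v175, v174, v173, v172, v171, v170, v169, v168, v167, v166, v165, v164, v163, v162, v161, v160, v159, v158, v157, v156, v155, v154, v153, v152, v151, v150, v149, v148, v147, v146, v145,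 v144, v143, v142, v141, v140, v139, v138, v137, v136, v135, v134, v133, v132, v131, v130, v129, v128, v127, v126, v125, v124, v123, v122, v121, v120, v119, v118, v117, v116, v115, v114, v113, v112, v111, v110, v109, v108, v107, v106, v105, v104, v103, v102, v101, v100, v99, v98, v97, v96, v95, v94, v93, v92, v91, v90, v89, v88, v87, v86, v85, v84, v83, v82, v81, v80, v79, v78, v77, v76, v75, v74, v73, v72, v71, v70, v69, v68, v67, v66, v65, v64, v63, v62, v61, v60, v59, v58, v57, v56, v55, v54, v53, v52, v51, v50, v49, v48, v47, v46, v45, v44, v43, v42, v41, v40, v39, v38, v37, v36, v35, v34, v33, v32, v31, v30, v29, v28, v27, v26, v25, v24, v23, v22, v21, v20, v19, v18, v17, v16, v15, v14, v13, v12, v11, v10, v9, v8, v7, v6, v5, v4, v3, v2, v1, v0] (fun st => run (realAlg (fun i => get 0 (l1n μB m) i) (m / m1) (0)) pXB [] = st)) :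
    pXB_goal R m := by
  have hm1 : m1 ≠ 0 := m1_ne
  obtain ⟨v280, h280, h⟩ := h
  change v280 = v168 * v279 at h280
  obtain ⟨v281, h281, h⟩ := h
  change v281 = v1 * v280 at h281
  obtain ⟨f_x2u, e_f_x2u_d⟩ : ∃ q : ℂ, q = (dB.x2u).df (m / m1) := ⟨_, rfl⟩
  have a_f_x2u : (dB.x2u).df (m / m1) = (⟨-((1 + m / m1) * ddh (dB.x2u).p t2), -(s3 * (hor (dB.x2u).q 1 + tf * ddh (dB.x2u).q t2))⟩ : ℂ) := by
    rw [e_t2_d, e_tf_d]; rfl
  have e_f_x2u_re : v275 = -f_x2u.re := by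
    rw [e_f_x2u_d, a_f_x2u]
    simp only [dB, hor, ddh, h275, h274, h273, h272, h271, h167, h24, h12, e_t2_v, mul_re, mul_im, add_re, add_im, sub_re, sub_im, neg_re, neg_im, I_re, I_im, ofReal_re,
      ofReal_im, one_re, one_im, zero_re, zero_im, dt, normSq_apply, re_ofNat, im_ofNat, conj_re, conj_im]
    try ring
  have e_f_x2u_im : v281 = -f_x2u.im := by
    rw [e_f_x2u_d, a_f_x2u]
    simp only [dB, hor, ddh, h281, h280, h279, h278, h277, h276, h1, e_t2_v, e_tf_v, mul_re, mul_im, add_re, add_im, sub_re, sub_im, neg_re, neg_im, I_re, I_im, ofReal_re,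
      ofReal_im, one_re, one_im, zero_re, zero_im, dt, normSq_apply, re_ofNat, im_ofNat, conj_re, conj_im]
    try ring
  obtain ⟨v282, h282, h⟩ := h
  replace h282 : v282 = (9577 : ℝ) / 2 ^ 18 := by rw [h282]; norm_num [step, realAlg]
  obtain ⟨v283, h283, h⟩ := h
  change v283 = v1 * v282 at h283
  obtain ⟨a_x2c, e_a_x2c_d⟩ : ∃ q : ℂ, q = (dB.x2c).ev m1 := ⟨_, rfl⟩
  have a_a_x2c : (dB.x2c).ev m1 = (⟨hor dB.x2c.p 1, s3 * hor dB.x2c.q 1⟩ : ℂ) := by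
    exact Cf.ev_m1 _
  have e_a_x2c_re : a_x2c.re = (-9577/262144 : ℝ) := by
    first | (rw [e_a_x2c_d, a_a_x2c]; done) | (rw [e_a_x2c_d, a_a_x2c]; simp only [dB, hor, mul_re, mul_im, add_re, add_im, sub_re, sub_im, neg_re, neg_im, I_re, I_im, ofReal_re,
      ofReal_im, one_re, one_im, zero_re, zero_im, dt, normSq_apply, re_ofNat, im_ofNat, conj_re, conj_im]; try ring)
  have e_a_x2c_im : v283 = -a_x2c.im := by
    rw [e_a_x2c_d, a_a_x2c]
    simp only [dB, hor, h283, h282, h1, mul_re, mul_im, add_re, add_im, sub_re, sub_im, neg_re, neg_im, I_re, I_im, ofReal_re,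
      ofReal_im, one_re, one_im, zero_re, zero_im, dt, normSq_apply, re_ofNat, im_ofNat, conj_re, conj_im]
    try ring
  obtain ⟨v284, h284, h⟩ := h
  replace h284 : v284 = (725 : ℝ) / 2 ^ 18 := by rw [h284]; norm_num [step, realAlg]
  obtain ⟨v285, h285, h⟩ := h
  change v285 = v166 * v284 at h285
  obtain ⟨v286, h286, h⟩ := h
  replace h286 : v286 = (3715 : ℝ) / 2 ^ 19 := by rw [h286]; norm_num [step, realAlg]
  obtain ⟨v287, h287, h⟩ := h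
  change v287 = v285 + v286 at h287
  obtain ⟨v288, h288, h⟩ := h
  change v288 = v167 * v287 at h288
  obtain ⟨v289, h289, h⟩ := h
  replace h289 : v289 = (2741 : ℝ) / 2 ^ 19 := by rw [h289]; norm_num [step, realAlg]
  obtain ⟨v290, h290, h⟩ := h
  change v290 = v166 * v289 at h290
  obtain ⟨v291, h291, h⟩ := h
  replace h291 : v291 = (9689 : ℝ) / 2 ^ 19 := by rw [h291]; norm_num [step, realAlg]
  obtain ⟨v292, h292, h⟩ := h
  change v292 = v290 - v291 at h292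
  obtain ⟨v293, h293, h⟩ := h
  change v293 = v168 * v292 at h293
  obtain ⟨v294, h294, h⟩ := h
  change v294 = v293 - v282 at h294
  obtain ⟨v295, h295, h⟩ := h
  change v295 = v1 * v294 at h295
  obtain ⟨f_x2c, e_f_x2c_d⟩ : ∃ q : ℂ, q = (dB.x2c).df (m / m1) := ⟨_, rfl⟩
  have a_f_x2c : (dB.x2c).df (m / m1) = (⟨-((1 + m / m1) * ddh (dB.x2c).p t2), -(s3 * (hor (dB.x2c).q 1 + tf * ddh (dB.x2c).q t2))⟩ : ℂ) := by
    rw [e_t2_d, e_tf_d]; rfl
  have e_f_x2c_re : v288 = -f_x2c.re := by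
    rw [e_f_x2c_d, a_f_x2c]
    simp only [dB, hor, ddh, h288, h287, h286, h285, h284, h167, h24, h12, e_t2_v, mul_re, mul_im, add_re, add_im, sub_re, sub_im, neg_re, neg_im, I_re, I_im, ofReal_re,
      ofReal_im, one_re, one_im, zero_re, zero_im, dt, normSq_apply, re_ofNat, im_ofNat, conj_re, conj_im]
    try ring
  have e_f_x2c_im : v295 = -f_x2c.im := by
    rw [e_f_x2c_d, a_f_x2c]
    simp only [dB, hor, ddh, h295, h294, h293, h292, h291, h290, h289, h282, h1, e_t2_v, e_tf_v, mul_re, mul_im, add_re, add_im, sub_re, sub_im, neg_re, neg_im, I_re, I_im, ofReal_re,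
      ofReal_im, one_re, one_im, zero_re, zero_im, dt, normSq_apply, re_ofNat, im_ofNat, conj_re, conj_im]
    try ring
  obtain ⟨v296, h296, h⟩ := h
  replace h296 : v296 = (9591 : ℝ) / 2 ^ 20 := by rw [h296]; norm_num [step, realAlg]
  obtain ⟨v297, h297, h⟩ := h
  change v297 = v1 * v296 at h297
  obtain ⟨a_xbu, e_a_xbu_d⟩ : ∃ q : ℂ, q = (dB.xbu).ev m1 := ⟨_, rfl⟩
  have a_a_xbu : (dB.xbu).ev m1 = (⟨hor dB.xbu.p 1, s3 * hor dB.xbu.q 1⟩ : ℂ) := by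
    exact Cf.ev_m1 _
  have e_a_xbu_re : a_xbu.re = (9591/1048576 : ℝ) := by
    first | (rw [e_a_xbu_d, a_a_xbu]; done) | (rw [e_a_xbu_d, a_a_xbu]; simp only [dB, hor, mul_re, mul_im, add_re, add_im, sub_re, sub_im, neg_re, neg_im, I_re, I_im, ofReal_re,
      ofReal_im, one_re, one_im, zero_re, zero_im, dt, normSq_apply, re_ofNat, im_ofNat, conj_re, conj_im]; try ring)
  have e_a_xbu_im : v297 = a_xbu.im := by
    rw [e_a_xbu_d, a_a_xbu]
    simp only [dB, hor, h297, h296, h1, mul_re, mul_im, add_re, add_im, sub_re, sub_im, neg_re, neg_im, I_re, I_im, ofReal_re,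
      ofReal_im, one_re, one_im, zero_re, zero_im, dt, normSq_apply, re_ofNat, im_ofNat, conj_re, conj_im]
    try ring
  obtain ⟨v298, h298, h⟩ := h
  replace h298 : v298 = (32347 : ℝ) / 2 ^ 20 := by rw [h298]; norm_num [step, realAlg]
  obtain ⟨v299, h299, h⟩ := h
  change v299 = v166 * v298 at h299
  obtain ⟨v300, h300, h⟩ := h
  replace h300 : v300 = (19547 : ℝ) / 2 ^ 18 := by rw [h300]; norm_num [step, realAlg]
  obtain ⟨v301, h301, h⟩ := h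
  change v301 = v299 + v300 at h301
  obtain ⟨v302, h302, h⟩ := h
  change v302 = v167 * v301 at h302
  obtain ⟨v303, h303, h⟩ := h
  replace h303 : v303 = (5187 : ℝ) / 2 ^ 20 := by rw [h303]; norm_num [step, realAlg]
  obtain ⟨v304, h304, h⟩ := h
  change v304 = v166 * v303 at h304
  obtain ⟨v305, h305, h⟩ := h
  replace h305 : v305 = (1457 : ℝ) / 2 ^ 17 := by rw [h305]; norm_num [step, realAlg]
  obtain ⟨v306, h306, h⟩ := h
  change v306 = v305 - v304 at h306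
  obtain ⟨v307, h307, h⟩ := h
  change v307 = v168 * v306 at h307
  obtain ⟨v308, h308, h⟩ := h
  change v308 = v307 + v296 at h308
  obtain ⟨v309, h309, h⟩ := h
  change v309 = v1 * v308 at h309
  obtain ⟨f_xbu, e_f_xbu_d⟩ : ∃ q : ℂ, q = (dB.xbu).df (m / m1) := ⟨_, rfl⟩
  have a_f_xbu : (dB.xbu).df (m / m1) = (⟨-((1 + m / m1) * ddh (dB.xbu).p t2), -(s3 * (hor (dB.xbu).q 1 + tf * ddh (dB.xbu).q t2))⟩ : ℂ) := by
    rw [e_t2_d, e_tf_d]; rfl
  have e_f_xbu_re : v302 = -f_xbu.re := by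
    rw [e_f_xbu_d, a_f_xbu]
    simp only [dB, hor, ddh, h302, h301, h300, h299, h298, h167, h24, h12, e_t2_v, mul_re, mul_im, add_re, add_im, sub_re, sub_im, neg_re, neg_im, I_re, I_im, ofReal_re,
      ofReal_im, one_re, one_im, zero_re, zero_im, dt, normSq_apply, re_ofNat, im_ofNat, conj_re, conj_im]
    try ring
  have e_f_xbu_im : v309 = -f_xbu.im := by
    rw [e_f_xbu_d, a_f_xbu]
    simp only [dB, hor, ddh, h309, h308, h307, h306, h305, h304, h303, h296, h1, e_t2_v, e_tf_v, mul_re, mul_im, add_re, add_im, sub_re, sub_im, neg_re, neg_im, I_re, I_im, ofReal_re,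
      ofReal_im, one_re, one_im, zero_re, zero_im, dt, normSq_apply, re_ofNat, im_ofNat, conj_re, conj_im]
    try ring
  obtain ⟨v310, h310, h⟩ := h
  change v310 = v48 * v51 at h310
  obtain ⟨o_lam, e_o_lam_d⟩ : ∃ q : ℝ, q = (dB.nd R m (shq (m1 - m)) (chq (m1 - m))).lam := ⟨_, rfl⟩
  have a_o_lam : (dB.nd R m (shq (m1 - m)) (chq (m1 - m))).lam = 3 * r1v := by
    rw [e_r1v_d]; rfl
  have e_o_lam_v : v310 = o_lam := by
    rw [e_o_lam_d, a_o_lam]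
    simp only [h310, h51, e_r1v_v, mul_re, mul_im, add_re, add_im, sub_re, sub_im, neg_re, neg_im, I_re, I_im, ofReal_re,
      ofReal_im, one_re, one_im, zero_re, zero_im, dt, normSq_apply, re_ofNat, im_ofNat, conj_re, conj_im]
    try ring
  obtain ⟨v311, h311, h⟩ := h
  replace h311 : v311 = (0 : ℝ) := by rw [h311]; norm_num [step, realAlg]
  obtain ⟨v312, h312, h⟩ := h
  change v312 = v311 - v194 at h312
  obtain ⟨o_dar, e_o_dar_d⟩ : ∃ q : ℝ, q = (dB.nd R m (shq (m1 - m)) (chq (m1 - m))).da.re := ⟨_, rfl⟩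
  have a_o_dar : (dB.nd R m (shq (m1 - m)) (chq (m1 - m))).da.re = dav.re := by
    rw [e_dav_d]; rfl
  have e_o_dar_v : v312 = o_dar := by
    rw [e_o_dar_d, a_o_dar]
    simp only [h312, h311, e_dav_re, mul_re, mul_im, add_re, add_im, sub_re, sub_im, neg_re, neg_im, I_re, I_im, ofReal_re,
      ofReal_im, one_re, one_im, zero_re, zero_im, dt, normSq_apply, re_ofNat, im_ofNat, conj_re, conj_im]
    try ring
  obtain ⟨v313, h313, h⟩ := h
  change v313 = v311 - v195 at h313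
  obtain ⟨o_dai, e_o_dai_d⟩ : ∃ q : ℝ, q = (dB.nd R m (shq (m1 - m)) (chq (m1 - m))).da.im := ⟨_, rfl⟩
  have a_o_dai : (dB.nd R m (shq (m1 - m)) (chq (m1 - m))).da.im = dav.im := by
    rw [e_dav_d]; rfl
  have e_o_dai_v : v313 = o_dai := by
    rw [e_o_dai_d, a_o_dai]
    simp only [h313, h311, e_dav_im, mul_re, mul_im, add_re, add_im, sub_re, sub_im, neg_re, neg_im, I_re, I_im, ofReal_re,
      ofReal_im, one_re, one_im, zero_re, zero_im, dt, normSq_apply, re_ofNat, im_ofNat, conj_re, conj_im]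
    try ring
  obtain ⟨v314, h314, h⟩ := h
  change v314 = v311 - v53 at h314
  obtain ⟨o_dyr, e_o_dyr_d⟩ : ∃ q : ℝ, q = (dB.nd R m (shq (m1 - m)) (chq (m1 - m))).dy.re := ⟨_, rfl⟩
  have a_o_dyr : (dB.nd R m (shq (m1 - m)) (chq (m1 - m))).dy.re = dyv.re := by
    rw [e_dyv_d]; rfl
  have e_o_dyr_v : v314 = o_dyr := by
    rw [e_o_dyr_d, a_o_dyr]
    simp only [h314, h311, e_dyv_re, mul_re, mul_im, add_re, add_im, sub_re, sub_im, neg_re, neg_im, I_re, I_im, ofReal_re,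
      ofReal_im, one_re, one_im, zero_re, zero_im, dt, normSq_apply, re_ofNat, im_ofNat, conj_re, conj_im]
    try ring
  obtain ⟨v315, h315, h⟩ := h
  change v315 = v311 - v62 at h315
  obtain ⟨o_dyi, e_o_dyi_d⟩ : ∃ q : ℝ, q = (dB.nd R m (shq (m1 - m)) (chq (m1 - m))).dy.im := ⟨_, rfl⟩
  have a_o_dyi : (dB.nd R m (shq (m1 - m)) (chq (m1 - m))).dy.im = dyv.im := by
    rw [e_dyv_d]; rfl
  have e_o_dyi_v : v315 = o_dyi := by
    rw [e_o_dyi_d, a_o_dyi]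
    simp only [h315, h311, e_dyv_im, mul_re, mul_im, add_re, add_im, sub_re, sub_im, neg_re, neg_im, I_re, I_im, ofReal_re,
      ofReal_im, one_re, one_im, zero_re, zero_im, dt, normSq_apply, re_ofNat, im_ofNat, conj_re, conj_im]
    try ring
  obtain ⟨v316, h316, h⟩ := h
  change v316 = v58 * v196 at h316
  obtain ⟨v317, h317, h⟩ := h
  change v317 = v297 - v283 at h317
  obtain ⟨v318, h318, h⟩ := h
  change v318 = v283 + v297 at h318
  obtain ⟨v319, h319, h⟩ := h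
  change v319 = v58 * v283 at h319
  exact pXB_c8 R m e_U_d e_mm_d e_U2_d e_sg_d e_kg_d e_c1v_d e_h1v_d e_Pv_d e_Qv_d e_r1v_d e_iT_d h51 h58 e_dyv_d e_Ks_d e_Kc_d e_QP_d e_dtv_d e_dpv_d e_tkv_d e_pkv_d e_kc_d e_kq_d e_tp_d e_tq_d e_dqv_d e_t2_d e_tf_d e_f_ax_d e_dav_d e_a_xx_d e_a_xx_re e_a_xx_im e_f_xx_d e_f_xx_re e_f_xx_im e_a_xb_d e_a_xb_re e_a_xb_im e_f_xb_d e_f_xb_re e_f_xb_im e_a_x3_d e_a_x3_re e_a_x3_im e_f_x3_d e_f_x3_re e_f_x3_im e_a_x2b_d e_a_x2b_re e_a_x2b_im e_f_x2b_d e_f_x2b_re e_f_x2b_im e_a_xu_d e_a_xu_re e_a_xu_im e_f_xu_d e_f_xu_re e_f_xu_im e_a_xc_d e_a_xc_re e_a_xc_im e_f_xc_d e_f_xc_re e_f_xc_im e_a_x2u_d e_a_x2u_re e_a_x2u_im e_f_x2u_d e_f_x2u_re e_f_x2u_im e_a_x2c_d e_a_x2c_re e_a_x2c_im e_f_x2c_d e_f_x2c_re e_f_x2c_im e_a_xbu_d e_a_xbu_re e_a_xbu_im e_f_xbu_d e_f_xbu_re e_f_xbu_im e_o_lam_d e_o_lam_v h311 e_o_dar_d e_o_dar_v e_o_dai_d e_o_dai_v e_o_dyr_d e_o_dyr_v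 e_o_dyi_d e_o_dyi_v h316 h317 h318 h319 h

theorem pXB_c6 (R m : ℝ) {v0 v1 v2 v3 v4 v5 v6 v7 v8 v9 v10 v11 v12 v13 v14 U mm v15 U2 v16 v17 v18 v19 v20 v21 v22 v23 v24 v25 v26 sg v27 v28 v29 v30 v31 v32 v33 v34 v35 v36 v37 v38 kg v39 v40 c1v v41 h1v v42 v43 v44 Pv v45 v46 v47 Qv v48 r1v v49 iT v50 v51 v52 v53 v54 v55 v56 v57 v58 v59 v60 v61 v62 : ℝ} {dyv : ℂ} {v63 Ks v64 Kc v65 v66 QP v67 v68 v69 v70 v71 v72 v73 v74 v75 v76 v77 v78 v79 v80 v81 v82 v83 v84 v85 v86 v87 v88 v89 v90 v91 v92 v93 v94 v95 : ℝ} {dtv : ℂ} {v96 v97 v98 v99 v100 v101 v102 v103 v104 v105 v106 v107 : ℝ} {dpv : ℂ} {v108 v109 v110 v111 v112 v113 v114 v115 v116 v117 v118 v119 v120 v121 v122 v123 v124 v125 v126 v127 v128 : ℝ} {tkv : ℂ} {v129 v130 v131 v132 v133 v134 v135 v136 v137 v138 v139 v140 : ℝ} {pkv : ℂ} {v141 v142 v143 kc v144 v145 v146 v147 kq v148 v149 v150 v151 : ℝ} {tp : ℂ} {v152 v153 v154 v155 : ℝ} {tq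 : ℂ} {v156 v157 v158 v159 v160 v161 v162 v163 v164 v165 : ℝ} {dqv : ℂ} {v166 t2 v167 v168 tf v169 v170 v171 v172 v173 v174 v175 v176 v177 v178 v179 v180 v181 v182 v183 v184 v185 v186 v187 v188 v189 v190 v191 v192 v193 : ℝ} {f_ax : ℂ} {v194 v195 : ℝ} {dav : ℂ} {v196 v197 v198 v199 v200 v201 : ℝ} {a_xx : ℂ} {v202 v203 v204 v205 v206 v207 v208 v209 v210 v211 v212 v213 v214 : ℝ} {f_xx a_xb : ℂ} {v215 v216 v217 v218 v219 v220 : ℝ} {f_xb a_x3 : ℂ} {v221 v222 v223 v224 v225 v226 v227 v228 v229 v230 v231 : ℝ} {f_x3 : ℂ} {v232 v233 : ℝ} {a_x2b : ℂ} {v234 v235 v236 v237 v238 v239 : ℝ}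
    (h1 : v1 = s3)
    (h12 : v12 = m / m1)
    (e_U_d : U = m1 - m)
    (e_mm_d : mm = m)
    (e_U2_d : U2 = (m1 - m) ^ 2)
    (h24 : v24 = (1 : ℝ))
    (e_sg_d : sg = shq (m1 - m))
    (e_kg_d : kg = chq (m1 - m))
    (e_c1v_d : c1v = 1 + Real.sqrt 2 / 2)
    (e_h1v_d : h1v = 1 - Real.sqrt 2 / 2)
    (e_Pv_d : Pv = nP (shq (m1 - m)) (chq (m1 - m)))
    (e_Qv_d : Qv = nQ (shq (m1 - m)) (chq (m1 - m)))
    (e_r1v_d : r1v = Real.sqrt 2 - 1)
    (e_r1v_v : v48 = r1v)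
    (e_iT_d : iT = (Real.sqrt 2 - 1) * (1 / oS m))
    (h51 : v51 = (3 : ℝ))
    (h58 : v58 = (2 : ℝ))
    (e_dyv_d : dyv = ndy m (nP (shq (m1 - m)) (chq (m1 - m))) (nQ (shq (m1 - m)) (chq (m1 - m))))
    (e_dyv_re : v53 = -dyv.re)
    (e_dyv_im : v62 = -dyv.im)
    (e_Ks_d : Ks = kp * Real.sinh m)
    (e_Kc_d : Kc = kp * Real.cosh m)
    (e_QP_d : QP = nQ (shq (m1 - m)) (chq (m1 - m)) * (1 + Real.sqrt 2 / 2) + kp * Real.sinh m * nP (shq (m1 - m)) (chq (m1 - m)))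
    (e_dtv_d : dtv = ndt m (nP (shq (m1 - m)) (chq (m1 - m))) (nQ (shq (m1 - m)) (chq (m1 - m))))
    (e_dpv_d : dpv = ndp m (nP (shq (m1 - m)) (chq (m1 - m))) (nQ (shq (m1 - m)) (chq (m1 - m))))
    (e_tkv_d : tkv = tk m)
    (e_pkv_d : pkv = pk m)
    (e_kc_d : kc = oc * (3 * (4 - Real.sqrt 2) / 4))
    (e_kq_d : kq = -(s3 * (1 / 27) * (1 / oK) ^ 2 * m1))
    (e_tp_d : tp = tk m + ((oc * (3 * (4 - Real.sqrt 2) / 4) : ℝ) : ℂ) * pk m)
    (e_tq_d : tq = ndt m (nP (shq (m1 - m)) (chq (m1 - m))) (nQ (shq (m1 - m)) (chq (m1 - m))) + ((oc * (3 * (4 - Real.sqrt 2) / 4) : ℝ) : ℂ) * ndp m (nP (shq (m1 - m)) (chq (m1 - m))) (nQ (shq (m1 - m)) (chq (m1 - m))))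
    (e_dqv_d : dqv = ndq m (nP (shq (m1 - m)) (chq (m1 - m))) (nQ (shq (m1 - m)) (chq (m1 - m))))
    (e_t2_d : t2 = (m / m1) ^ 2)
    (e_t2_v : v166 = t2)
    (h167 : v167 = v12 + v24)
    (e_tf_d : tf = (m / m1) * (1 + m / m1))
    (e_tf_v : v168 = tf)
    (e_f_ax_d : f_ax = (dB.ax).df (m / m1))
    (e_dav_d : dav = ndq m (nP (shq (m1 - m)) (chq (m1 - m))) (nQ (shq (m1 - m)) (chq (m1 - m))) + I * (starRingEnd ℂ) (dB.ax.df (m / m1)))
    (e_dav_re : v194 = -dav.re)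
    (e_dav_im : v195 = -dav.im)
    (e_a_xx_d : a_xx = (dB.xx).ev m1)
    (e_a_xx_re : v196 = -a_xx.re)
    (e_a_xx_im : v201 = a_xx.im)
    (e_f_xx_d : f_xx = (dB.xx).df (m / m1))
    (e_f_xx_re : v206 = -f_xx.re)
    (e_f_xx_im : v214 = -f_xx.im)
    (e_a_xb_d : a_xb = (dB.xb).ev m1)
    (e_a_xb_re : a_xb.re = (0 : ℝ))
    (e_a_xb_im : a_xb.im = (0 : ℝ))
    (e_f_xb_d : f_xb = (dB.xb).df (m / m1))
    (e_f_xb_re : f_xb.re = (0 : ℝ))
    (e_f_xb_im : v220 = -f_xb.im)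
    (e_a_x3_d : a_x3 = (dB.x3).ev m1)
    (e_a_x3_re : a_x3.re = (-5927/524288 : ℝ))
    (e_a_x3_im : a_x3.im = (0 : ℝ))
    (e_f_x3_d : f_x3 = (dB.x3).df (m / m1))
    (e_f_x3_re : v225 = -f_x3.re)
    (e_f_x3_im : v231 = -f_x3.im)
    (h232 : v232 = (33 : ℝ) / 2 ^ 19)
    (e_a_x2b_d : a_x2b = (dB.x2b).ev m1)
    (e_a_x2b_re : a_x2b.re = (33/524288 : ℝ))
    (e_a_x2b_im : v233 = a_x2b.im)
    (h234 : v234 = (1437 : ℝ) / 2 ^ 18)
    (h235 : v235 = v166 * v234)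
    (h236 : v236 = (-2985 : ℝ) / 2 ^ 18)
    (h237 : v237 = v236 - v235)
    (h238 : v238 = v167 * v237)
    (h239 : v239 = (1601 : ℝ) / 2 ^ 20)
    (h : TrE (realAlg (fun i => get 0 (l1n μB m) i) (m / m1) (0)) (pXB.drop 240) [v239, v238, v237, v236, v235, v234, v233, v232, v231, v230, v229, v228, v227, v226, v225, v224, v223, v222, v221, v220, v219, v218, v217, v216, v215, v214, v213, v212, v211, v210, v209, v208, v207, v206, v205, v204, v203, v202, v201, v200, v199, v198, v197, v196, v195, v194, v193, v192, v191, v190, v189, v188, v187, v186, v185, v184, v183, v182, v181, v180, v179, v178, v177, v176, v175, v174, v173, v172, v171, v170, v169, v168, v167, v166, v165, v164, v163, v162, v161, v160, v159, v158, v157, v156, v155, v154, v153, v152, v151, v150, v149, v148, v147, v146, v145, v144, v143, v142, v141, v140, v139, v138, v137, v136, v135, v134, v133, v132, v131, v130, v129,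 v128, v127, v126, v125, v124, v123, v122, v121, v120, v119, v118, v117, v116, v115, v114, v113, v112, v111, v110, v109, v108, v107, v106, v105, v104, v103, v102, v101, v100, v99, v98, v97, v96, v95, v94, v93, v92, v91, v90, v89, v88, v87, v86, v85, v84, v83, v82, v81, v80, v79, v78, v77, v76, v75, v74, v73, v72, v71, v70, v69, v68, v67, v66, v65, v64, v63, v62, v61, v60, v59, v58, v57, v56, v55, v54, v53, v52, v51, v50, v49, v48, v47, v46, v45, v44, v43, v42, v41, v40, v39, v38, v37, v36, v35, v34, v33, v32, v31, v30, v29, v28, v27, v26, v25, v24, v23, v22, v21, v20, v19, v18, v17, v16, v15, v14, v13, v12, v11, v10, v9, v8, v7, v6, v5, v4, v3, v2, v1, v0] (fun st => run (realAlg (fun i => get 0 (l1n μB m) i) (m / m1) (0)) pXB [] = st)) :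
    pXB_goal R m := by
  have hm1 : m1 ≠ 0 := m1_ne
  obtain ⟨v240, h240, h⟩ := h
  change v240 = v166 * v239 at h240
  obtain ⟨v241, h241, h⟩ := h
  replace h241 : v241 = (3341 : ℝ) / 2 ^ 20 := by rw [h241]; norm_num [step, realAlg]
  obtain ⟨v242, h242, h⟩ := h
  change v242 = v240 + v241 at h242
  obtain ⟨v243, h243, h⟩ := h
  change v243 = v168 * v242 at h243
  obtain ⟨v244, h244, h⟩ := h
  change v244 = v243 + v232 at h244
  obtain ⟨v245, h245, h⟩ := h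
  change v245 = v1 * v244 at h245
  obtain ⟨f_x2b, e_f_x2b_d⟩ : ∃ q : ℂ, q = (dB.x2b).df (m / m1) := ⟨_, rfl⟩
  have a_f_x2b : (dB.x2b).df (m / m1) = (⟨-((1 + m / m1) * ddh (dB.x2b).p t2), -(s3 * (hor (dB.x2b).q 1 + tf * ddh (dB.x2b).q t2))⟩ : ℂ) := by
    rw [e_t2_d, e_tf_d]; rfl
  have e_f_x2b_re : v238 = -f_x2b.re := by
    rw [e_f_x2b_d, a_f_x2b]
    simp only [dB, hor, ddh, h238, h237, h236, h235, h234, h167, h24, h12, e_t2_v, mul_re, mul_im, add_re, add_im, sub_re, sub_im, neg_re, neg_im, I_re, I_im, ofReal_re,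
      ofReal_im, one_re, one_im, zero_re, zero_im, dt, normSq_apply, re_ofNat, im_ofNat, conj_re, conj_im]
    try ring
  have e_f_x2b_im : v245 = -f_x2b.im := by
    rw [e_f_x2b_d, a_f_x2b]
    simp only [dB, hor, ddh, h245, h244, h243, h242, h241, h240, h239, h232, h1, e_t2_v, e_tf_v, mul_re, mul_im, add_re, add_im, sub_re, sub_im, neg_re, neg_im, I_re, I_im, ofReal_re,
      ofReal_im, one_re, one_im, zero_re, zero_im, dt, normSq_apply, re_ofNat, im_ofNat, conj_re, conj_im]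
    try ring
  obtain ⟨v246, h246, h⟩ := h
  replace h246 : v246 = (82015 : ℝ) / 2 ^ 20 := by rw [h246]; norm_num [step, realAlg]
  obtain ⟨v247, h247, h⟩ := h
  change v247 = v1 * v246 at h247
  obtain ⟨a_xu, e_a_xu_d⟩ : ∃ q : ℂ, q = (dB.xu).ev m1 := ⟨_, rfl⟩
  have a_a_xu : (dB.xu).ev m1 = (⟨hor dB.xu.p 1, s3 * hor dB.xu.q 1⟩ : ℂ) := by
    exact Cf.ev_m1 _
  have e_a_xu_re : a_xu.re = (82015/1048576 : ℝ) := by
    first | (rw [e_a_xu_d, a_a_xu]; done) | (rw [e_a_xu_d, a_a_xu]; simp only [dB, hor, mul_re, mul_im, add_re, add_im, sub_re, sub_im, neg_re, neg_im, I_re, I_im, ofReal_re,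
      ofReal_im, one_re, one_im, zero_re, zero_im, dt, normSq_apply, re_ofNat, im_ofNat, conj_re, conj_im]; try ring)
  have e_a_xu_im : v247 = -a_xu.im := by
    rw [e_a_xu_d, a_a_xu]
    simp only [dB, hor, h247, h246, h1, mul_re, mul_im, add_re, add_im, sub_re, sub_im, neg_re, neg_im, I_re, I_im, ofReal_re,
      ofReal_im, one_re, one_im, zero_re, zero_im, dt, normSq_apply, re_ofNat, im_ofNat, conj_re, conj_im]
    try ring
  obtain ⟨v248, h248, h⟩ := h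
  replace h248 : v248 = (9095 : ℝ) / 2 ^ 20 := by rw [h248]; norm_num [step, realAlg]
  obtain ⟨v249, h249, h⟩ := h
  change v249 = v166 * v248 at h249
  obtain ⟨v250, h250, h⟩ := h
  replace h250 : v250 = (-313 : ℝ) / 2 ^ 13 := by rw [h250]; norm_num [step, realAlg]
  obtain ⟨v251, h251, h⟩ := h
  change v251 = v250 - v249 at h251
  obtain ⟨v252, h252, h⟩ := h
  change v252 = v167 * v251 at h252
  obtain ⟨v253, h253, h⟩ := h
  replace h253 : v253 = (413 : ℝ) / 2 ^ 20 := by rw [h253]; norm_num [step, realAlg]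
  obtain ⟨v254, h254, h⟩ := h
  change v254 = v166 * v253 at h254
  obtain ⟨v255, h255, h⟩ := h
  replace h255 : v255 = (18943 : ℝ) / 2 ^ 20 := by rw [h255]; norm_num [step, realAlg]
  obtain ⟨v256, h256, h⟩ := h
  change v256 = v254 - v255 at h256
  obtain ⟨v257, h257, h⟩ := h
  change v257 = v168 * v256 at h257
  obtain ⟨v258, h258, h⟩ := h
  change v258 = v257 - v246 at h258
  obtain ⟨v259, h259, h⟩ := h
  change v259 = v1 * v258 at h259
  obtain ⟨f_xu, e_f_xu_d⟩ : ∃ q : ℂ, q = (dB.xu).df (m / m1) := ⟨_, rfl⟩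
  have a_f_xu : (dB.xu).df (m / m1) = (⟨-((1 + m / m1) * ddh (dB.xu).p t2), -(s3 * (hor (dB.xu).q 1 + tf * ddh (dB.xu).q t2))⟩ : ℂ) := by
    rw [e_t2_d, e_tf_d]; rfl
  have e_f_xu_re : v252 = -f_xu.re := by
    rw [e_f_xu_d, a_f_xu]
    simp only [dB, hor, ddh, h252, h251, h250, h249, h248, h167, h24, h12, e_t2_v, mul_re, mul_im, add_re, add_im, sub_re, sub_im, neg_re, neg_im, I_re, I_im, ofReal_re,
      ofReal_im, one_re, one_im, zero_re, zero_im, dt, normSq_apply, re_ofNat, im_ofNat, conj_re, conj_im]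
    try ring
  have e_f_xu_im : v259 = -f_xu.im := by
    rw [e_f_xu_d, a_f_xu]
    simp only [dB, hor, ddh, h259, h258, h257, h256, h255, h254, h253, h246, h1, e_t2_v, e_tf_v, mul_re, mul_im, add_re, add_im, sub_re, sub_im, neg_re, neg_im, I_re, I_im, ofReal_re,
      ofReal_im, one_re, one_im, zero_re, zero_im, dt, normSq_apply, re_ofNat, im_ofNat, conj_re, conj_im]
    try ring
  obtain ⟨a_xc, e_a_xc_d⟩ : ∃ q : ℂ, q = (dB.xc).ev m1 := ⟨_, rfl⟩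
  have a_a_xc : (dB.xc).ev m1 = (⟨hor dB.xc.p 1, s3 * hor dB.xc.q 1⟩ : ℂ) := by
    exact Cf.ev_m1 _
  have e_a_xc_re : a_xc.re = (-82015/524288 : ℝ) := by
    first | (rw [e_a_xc_d, a_a_xc]; done) | (rw [e_a_xc_d, a_a_xc]; simp only [dB, hor, mul_re, mul_im, add_re, add_im, sub_re, sub_im, neg_re, neg_im, I_re, I_im, ofReal_re,
      ofReal_im, one_re, one_im, zero_re, zero_im, dt, normSq_apply, re_ofNat, im_ofNat, conj_re, conj_im]; try ring)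
  have e_a_xc_im : a_xc.im = (0 : ℝ) := by
    first | (rw [e_a_xc_d, a_a_xc]; done) | (rw [e_a_xc_d, a_a_xc]; simp only [dB, hor, mul_re, mul_im, add_re, add_im, sub_re, sub_im, neg_re, neg_im, I_re, I_im, ofReal_re,
      ofReal_im, one_re, one_im, zero_re, zero_im, dt, normSq_apply, re_ofNat, im_ofNat, conj_re, conj_im]; try ring)
  obtain ⟨v260, h260, h⟩ := h
  replace h260 : v260 = (9151 : ℝ) / 2 ^ 20 := by rw [h260]; norm_num [step, realAlg]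
  obtain ⟨v261, h261, h⟩ := h
  change v261 = v166 * v260 at h261
  obtain ⟨v262, h262, h⟩ := h
  replace h262 : v262 = (22207 : ℝ) / 2 ^ 18 := by rw [h262]; norm_num [step, realAlg]
  obtain ⟨v263, h263, h⟩ := h
  change v263 = v262 - v261 at h263
  obtain ⟨v264, h264, h⟩ := h
  change v264 = v167 * v263 at h264
  obtain ⟨v265, h265, h⟩ := h
  replace h265 : v265 = (14713 : ℝ) / 2 ^ 20 := by rw [h265]; norm_num [step, realAlg]
  obtain ⟨v266, h266, h⟩ := h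
  change v266 = v166 * v265 at h266
  obtain ⟨v267, h267, h⟩ := h
  replace h267 : v267 = (1693 : ℝ) / 2 ^ 18 := by rw [h267]; norm_num [step, realAlg]
  obtain ⟨v268, h268, h⟩ := h
  change v268 = v266 - v267 at h268
  obtain ⟨v269, h269, h⟩ := h
  change v269 = v168 * v268 at h269
  obtain ⟨v270, h270, h⟩ := h
  change v270 = v1 * v269 at h270
  obtain ⟨f_xc, e_f_xc_d⟩ : ∃ q : ℂ, q = (dB.xc).df (m / m1) := ⟨_, rfl⟩
  have a_f_xc : (dB.xc).df (m / m1) = (⟨-((1 + m / m1) * ddh (dB.xc).p t2), -(s3 * (hor (dB.xc).q 1 + tf * ddh (dB.xc).q t2))⟩ : ℂ) := by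
    rw [e_t2_d, e_tf_d]; rfl
  have e_f_xc_re : v264 = -f_xc.re := by
    rw [e_f_xc_d, a_f_xc]
    simp only [dB, hor, ddh, h264, h263, h262, h261, h260, h167, h24, h12, e_t2_v, mul_re, mul_im, add_re, add_im, sub_re, sub_im, neg_re, neg_im, I_re, I_im, ofReal_re,
      ofReal_im, one_re, one_im, zero_re, zero_im, dt, normSq_apply, re_ofNat, im_ofNat, conj_re, conj_im]
    try ring
  have e_f_xc_im : v270 = -f_xc.im := by
    rw [e_f_xc_d, a_f_xc]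
    simp only [dB, hor, ddh, h270, h269, h268, h267, h266, h265, h1, e_t2_v, e_tf_v, mul_re, mul_im, add_re, add_im, sub_re, sub_im, neg_re, neg_im, I_re, I_im, ofReal_re,
      ofReal_im, one_re, one_im, zero_re, zero_im, dt, normSq_apply, re_ofNat, im_ofNat, conj_re, conj_im]
    try ring
  obtain ⟨a_x2u, e_a_x2u_d⟩ : ∃ q : ℂ, q = (dB.x2u).ev m1 := ⟨_, rfl⟩
  have a_a_x2u : (dB.x2u).ev m1 = (⟨hor dB.x2u.p 1, s3 * hor dB.x2u.q 1⟩ : ℂ) := by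
    exact Cf.ev_m1 _
  have e_a_x2u_re : a_x2u.re = (241/262144 : ℝ) := by
    first | (rw [e_a_x2u_d, a_a_x2u]; done) | (rw [e_a_x2u_d, a_a_x2u]; simp only [dB, hor, mul_re, mul_im, add_re, add_im, sub_re, sub_im, neg_re, neg_im, I_re, I_im, ofReal_re,
      ofReal_im, one_re, one_im, zero_re, zero_im, dt, normSq_apply, re_ofNat, im_ofNat, conj_re, conj_im]; try ring)
  have e_a_x2u_im : a_x2u.im = (0 : ℝ) := by
    first | (rw [e_a_x2u_d, a_a_x2u]; done) | (rw [e_a_x2u_d, a_a_x2u]; simp only [dB, hor, mul_re, mul_im, add_re, add_im, sub_re, sub_im, neg_re, neg_im, I_re, I_im, ofReal_re,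
      ofReal_im, one_re, one_im, zero_re, zero_im, dt, normSq_apply, re_ofNat, im_ofNat, conj_re, conj_im]; try ring)
  obtain ⟨v271, h271, h⟩ := h
  replace h271 : v271 = (1787 : ℝ) / 2 ^ 19 := by rw [h271]; norm_num [step, realAlg]
  obtain ⟨v272, h272, h⟩ := h
  change v272 = v166 * v271 at h272
  obtain ⟨v273, h273, h⟩ := h
  replace h273 : v273 = (57763 : ℝ) / 2 ^ 20 := by rw [h273]; norm_num [step, realAlg]
  obtain ⟨v274, h274, h⟩ := h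
  change v274 = v272 - v273 at h274
  obtain ⟨v275, h275, h⟩ := h
  change v275 = v167 * v274 at h275
  obtain ⟨v276, h276, h⟩ := h
  replace h276 : v276 = (2509 : ℝ) / 2 ^ 20 := by rw [h276]; norm_num [step, realAlg]
  obtain ⟨v277, h277, h⟩ := h
  change v277 = v166 * v276 at h277
  obtain ⟨v278, h278, h⟩ := h
  replace h278 : v278 = (6081 : ℝ) / 2 ^ 20 := by rw [h278]; norm_num [step, realAlg]
  obtain ⟨v279, h279, h⟩ := h
  change v279 = v277 + v278 at h279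
  exact pXB_c7 R m h1 h12 e_U_d e_mm_d e_U2_d h24 e_sg_d e_kg_d e_c1v_d e_h1v_d e_Pv_d e_Qv_d e_r1v_d e_r1v_v e_iT_d h51 h58 e_dyv_d e_dyv_re e_dyv_im e_Ks_d e_Kc_d e_QP_d e_dtv_d e_dpv_d e_tkv_d e_pkv_d e_kc_d e_kq_d e_tp_d e_tq_d e_dqv_d e_t2_d e_t2_v h167 e_tf_d e_tf_v e_f_ax_d e_dav_d e_dav_re e_dav_im e_a_xx_d e_a_xx_re e_a_xx_im e_f_xx_d e_f_xx_re e_f_xx_im e_a_xb_d e_a_xb_re e_a_xb_im e_f_xb_d e_f_xb_re e_f_xb_im e_a_x3_d e_a_x3_re e_a_x3_im e_f_x3_d e_f_x3_re e_f_x3_im e_a_x2b_d e_a_x2b_re e_a_x2b_im e_f_x2b_d e_f_x2b_re e_f_x2b_im e_a_xu_d e_a_xu_re e_a_xu_im e_f_xu_d e_f_xu_re e_f_xu_im e_a_xc_d e_a_xc_re e_a_xc_im e_f_xc_d e_f_xc_re e_f_xc_im e_a_x2u_d e_a_x2u_re e_a_x2u_im h271 h272 h273 h274 h275 h276 h277 h278 h279 h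

theorem pXB_c5 (R m : ℝ) {v0 v1 v2 v3 v4 v5 v6 v7 v8 v9 v10 v11 v12 v13 v14 U mm v15 U2 v16 v17 v18 v19 v20 v21 v22 v23 v24 v25 v26 sg v27 v28 v29 v30 v31 v32 v33 v34 v35 v36 v37 v38 kg v39 v40 c1v v41 h1v v42 v43 v44 Pv v45 v46 v47 Qv v48 r1v v49 iT v50 v51 v52 v53 v54 v55 v56 v57 v58 v59 v60 v61 v62 : ℝ} {dyv : ℂ} {v63 Ks v64 Kc v65 v66 QP v67 v68 v69 v70 v71 v72 v73 v74 v75 v76 v77 v78 v79 v80 v81 v82 v83 v84 v85 v86 v87 v88 v89 v90 v91 v92 v93 v94 v95 : ℝ} {dtv : ℂ} {v96 v97 v98 v99 v100 v101 v102 v103 v104 v105 v106 v107 : ℝ} {dpv : ℂ} {v108 v109 v110 v111 v112 v113 v114 v115 v116 v117 v118 v119 v120 v121 v122 v123 v124 v125 v126 v127 v128 : ℝ} {tkv : ℂ} {v129 v130 v131 v132 v133 v134 v135 v136 v137 v138 v139 v140 : ℝ} {pkv : ℂ} {v141 v142 v143 kc v144 v145 v146 v147 kq v148 v149 v150 v151 : ℝ} {tp : ℂ} {v152 v153 v154 v155 : ℝ} {tq : ℂ} {v156 v157 v158 v159 v160 v161 v162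 v163 v164 v165 : ℝ} {dqv : ℂ} {v166 t2 v167 v168 tf v169 v170 v171 v172 v173 v174 v175 v176 v177 v178 v179 v180 v181 v182 v183 v184 v185 v186 v187 v188 v189 v190 v191 v192 v193 : ℝ} {f_ax : ℂ} {v194 v195 : ℝ} {dav : ℂ} {v196 v197 v198 v199 : ℝ}
    (h1 : v1 = s3)
    (h10 : v10 = pj μB)
    (h12 : v12 = m / m1)
    (e_U_d : U = m1 - m)
    (e_mm_d : mm = m)
    (e_U2_d : U2 = (m1 - m) ^ 2)
    (h19 : v19 = (1 : ℝ) / 2 ^ 2)
    (h24 : v24 = (1 : ℝ))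
    (e_sg_d : sg = shq (m1 - m))
    (e_kg_d : kg = chq (m1 - m))
    (e_c1v_d : c1v = 1 + Real.sqrt 2 / 2)
    (e_h1v_d : h1v = 1 - Real.sqrt 2 / 2)
    (e_Pv_d : Pv = nP (shq (m1 - m)) (chq (m1 - m)))
    (e_Qv_d : Qv = nQ (shq (m1 - m)) (chq (m1 - m)))
    (e_r1v_d : r1v = Real.sqrt 2 - 1)
    (e_r1v_v : v48 = r1v)
    (e_iT_d : iT = (Real.sqrt 2 - 1) * (1 / oS m))
    (h51 : v51 = (3 : ℝ))
    (h58 : v58 = (2 : ℝ))
    (e_dyv_d : dyv = ndy m (nP (shq (m1 - m)) (chq (m1 - m))) (nQ (shq (m1 - m)) (chq (m1 - m))))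
    (e_dyv_re : v53 = -dyv.re)
    (e_dyv_im : v62 = -dyv.im)
    (e_Ks_d : Ks = kp * Real.sinh m)
    (e_Kc_d : Kc = kp * Real.cosh m)
    (e_QP_d : QP = nQ (shq (m1 - m)) (chq (m1 - m)) * (1 + Real.sqrt 2 / 2) + kp * Real.sinh m * nP (shq (m1 - m)) (chq (m1 - m)))
    (e_dtv_d : dtv = ndt m (nP (shq (m1 - m)) (chq (m1 - m))) (nQ (shq (m1 - m)) (chq (m1 - m))))
    (e_dpv_d : dpv = ndp m (nP (shq (m1 - m)) (chq (m1 - m))) (nQ (shq (m1 - m)) (chq (m1 - m))))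
    (e_tkv_d : tkv = tk m)
    (e_pkv_d : pkv = pk m)
    (e_kc_d : kc = oc * (3 * (4 - Real.sqrt 2) / 4))
    (e_kq_d : kq = -(s3 * (1 / 27) * (1 / oK) ^ 2 * m1))
    (e_tp_d : tp = tk m + ((oc * (3 * (4 - Real.sqrt 2) / 4) : ℝ) : ℂ) * pk m)
    (e_tq_d : tq = ndt m (nP (shq (m1 - m)) (chq (m1 - m))) (nQ (shq (m1 - m)) (chq (m1 - m))) + ((oc * (3 * (4 - Real.sqrt 2) / 4) : ℝ) : ℂ) * ndp m (nP (shq (m1 - m)) (chq (m1 - m))) (nQ (shq (m1 - m)) (chq (m1 - m))))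
    (e_dqv_d : dqv = ndq m (nP (shq (m1 - m)) (chq (m1 - m))) (nQ (shq (m1 - m)) (chq (m1 - m))))
    (e_t2_d : t2 = (m / m1) ^ 2)
    (e_t2_v : v166 = t2)
    (h167 : v167 = v12 + v24)
    (e_tf_d : tf = (m / m1) * (1 + m / m1))
    (e_tf_v : v168 = tf)
    (e_f_ax_d : f_ax = (dB.ax).df (m / m1))
    (e_dav_d : dav = ndq m (nP (shq (m1 - m)) (chq (m1 - m))) (nQ (shq (m1 - m)) (chq (m1 - m))) + I * (starRingEnd ℂ) (dB.ax.df (m / m1)))
    (e_dav_re : v194 = -dav.re)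
    (e_dav_im : v195 = -dav.im)
    (h196 : v196 = v10 * v19)
    (h197 : v197 = (2075 : ℝ) / 2 ^ 18)
    (h198 : v198 = v197 - v196)
    (h199 : v199 = (2065 : ℝ) / 2 ^ 19)
    (h : TrE (realAlg (fun i => get 0 (l1n μB m) i) (m / m1) (0)) (pXB.drop 200) [v199, v198, v197, v196, v195, v194, v193, v192, v191, v190, v189, v188, v187, v186, v185, v184, v183, v182, v181, v180, v179, v178, v177, v176, v175, v174, v173, v172, v171, v170, v169, v168, v167, v166, v165, v164, v163, v162, v161, v160, v159, v158, v157, v156, v155, v154, v153, v152, v151, v150, v149, v148, v147, v146, v145, v144, v143, v142, v141, v140, v139, v138, v137, v136, v135, v134, v133, v132, v131, v130, v129, v128, v127, v126, v125, v124, v123, v122, v121, v120, v119, v118, v117, v116, v115, v114, v113, v112, v111, v110, v109, v108, v107, v106, v105, v104, v103, v102, v101, v100, v99, v98, v97, v96, v95, v94, v93, v92,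 v91, v90, v89, v88, v87, v86, v85, v84, v83, v82, v81, v80, v79, v78, v77, v76, v75, v74, v73, v72, v71, v70, v69, v68, v67, v66, v65, v64, v63, v62, v61, v60, v59, v58, v57, v56, v55, v54, v53, v52, v51, v50, v49, v48, v47, v46, v45, v44, v43, v42, v41, v40, v39, v38, v37, v36, v35, v34, v33, v32, v31, v30, v29, v28, v27, v26, v25, v24, v23, v22, v21, v20, v19, v18, v17, v16, v15, v14, v13, v12, v11, v10, v9, v8, v7, v6, v5, v4, v3, v2, v1, v0] (fun st => run (realAlg (fun i => get 0 (l1n μB m) i) (m / m1) (0)) pXB [] = st)) :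
    pXB_goal R m := by
  have hm1 : m1 ≠ 0 := m1_ne
  obtain ⟨v200, h200, h⟩ := h
  change v200 = v196 - v199 at h200
  obtain ⟨v201, h201, h⟩ := h
  change v201 = v1 * v196 at h201
  obtain ⟨a_xx, e_a_xx_d⟩ : ∃ q : ℂ, q = (dB.xx).ev m1 := ⟨_, rfl⟩
  have a_a_xx : (dB.xx).ev m1 = (⟨hor dB.xx.p 1, s3 * hor dB.xx.q 1⟩ : ℂ) := by
    exact Cf.ev_m1 _
  have e_a_xx_re : v196 = -a_xx.re := by
    rw [e_a_xx_d, a_a_xx]
    simp only [dB, hor, h196, h19, h10, mul_re, mul_im, add_re, add_im, sub_re, sub_im, neg_re, neg_im, I_re, I_im, ofReal_re,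
      ofReal_im, one_re, one_im, zero_re, zero_im, dt, normSq_apply, re_ofNat, im_ofNat, conj_re, conj_im]
    try ring
  have e_a_xx_im : v201 = a_xx.im := by
    rw [e_a_xx_d, a_a_xx]
    simp only [dB, hor, h201, h196, h19, h10, h1, mul_re, mul_im, add_re, add_im, sub_re, sub_im, neg_re, neg_im, I_re, I_im, ofReal_re,
      ofReal_im, one_re, one_im, zero_re, zero_im, dt, normSq_apply, re_ofNat, im_ofNat, conj_re, conj_im]
    try ring
  obtain ⟨v202, h202, h⟩ := h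
  replace h202 : v202 = (981 : ℝ) / 2 ^ 16 := by rw [h202]; norm_num [step, realAlg]
  obtain ⟨v203, h203, h⟩ := h
  change v203 = v198 + v202 at h203
  obtain ⟨v204, h204, h⟩ := h
  change v204 = v166 * v198 at h204
  obtain ⟨v205, h205, h⟩ := h
  change v205 = v203 + v204 at h205
  obtain ⟨v206, h206, h⟩ := h
  change v206 = v167 * v205 at h206
  obtain ⟨v207, h207, h⟩ := h
  change v207 = v200 + v199 at h207
  obtain ⟨v208, h208, h⟩ := h
  replace h208 : v208 = (3153 : ℝ) / 2 ^ 20 := by rw [h208]; norm_num [step, realAlg]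
  obtain ⟨v209, h209, h⟩ := h
  change v209 = v200 - v208 at h209
  obtain ⟨v210, h210, h⟩ := h
  change v210 = v166 * v200 at h210
  obtain ⟨v211, h211, h⟩ := h
  change v211 = v209 + v210 at h211
  obtain ⟨v212, h212, h⟩ := h
  change v212 = v168 * v211 at h212
  obtain ⟨v213, h213, h⟩ := h
  change v213 = v207 + v212 at h213
  obtain ⟨v214, h214, h⟩ := h
  change v214 = v1 * v213 at h214
  obtain ⟨f_xx, e_f_xx_d⟩ : ∃ q : ℂ, q = (dB.xx).df (m / m1) := ⟨_, rfl⟩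
  have a_f_xx : (dB.xx).df (m / m1) = (⟨-((1 + m / m1) * ddh (dB.xx).p t2), -(s3 * (hor (dB.xx).q 1 + tf * ddh (dB.xx).q t2))⟩ : ℂ) := by
    rw [e_t2_d, e_tf_d]; rfl
  have e_f_xx_re : v206 = -f_xx.re := by
    rw [e_f_xx_d, a_f_xx]
    simp only [dB, hor, ddh, h206, h205, h204, h203, h202, h198, h197, h196, h167, h24, h19, h12, h10, e_t2_v, mul_re, mul_im, add_re, add_im, sub_re, sub_im, neg_re, neg_im, I_re, I_im, ofReal_re,
      ofReal_im, one_re, one_im, zero_re, zero_im, dt, normSq_apply, re_ofNat, im_ofNat, conj_re, conj_im]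
    try ring
  have e_f_xx_im : v214 = -f_xx.im := by
    rw [e_f_xx_d, a_f_xx]
    simp only [dB, hor, ddh, h214, h213, h212, h211, h210, h209, h208, h207, h200, h199, h196, h19, h10, h1, e_t2_v, e_tf_v, mul_re, mul_im, add_re, add_im, sub_re, sub_im, neg_re, neg_im, I_re, I_im, ofReal_re,
      ofReal_im, one_re, one_im, zero_re, zero_im, dt, normSq_apply, re_ofNat, im_ofNat, conj_re, conj_im]
    try ring
  obtain ⟨a_xb, e_a_xb_d⟩ : ∃ q : ℂ, q = (dB.xb).ev m1 := ⟨_, rfl⟩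
  have a_a_xb : (dB.xb).ev m1 = (⟨hor dB.xb.p 1, s3 * hor dB.xb.q 1⟩ : ℂ) := by
    exact Cf.ev_m1 _
  have e_a_xb_re : a_xb.re = (0 : ℝ) := by
    first | (rw [e_a_xb_d, a_a_xb]; done) | (rw [e_a_xb_d, a_a_xb]; simp only [dB, hor, mul_re, mul_im, add_re, add_im, sub_re, sub_im, neg_re, neg_im, I_re, I_im, ofReal_re,
      ofReal_im, one_re, one_im, zero_re, zero_im, dt, normSq_apply, re_ofNat, im_ofNat, conj_re, conj_im]; try ring)
  have e_a_xb_im : a_xb.im = (0 : ℝ) := by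
    first | (rw [e_a_xb_d, a_a_xb]; done) | (rw [e_a_xb_d, a_a_xb]; simp only [dB, hor, mul_re, mul_im, add_re, add_im, sub_re, sub_im, neg_re, neg_im, I_re, I_im, ofReal_re,
      ofReal_im, one_re, one_im, zero_re, zero_im, dt, normSq_apply, re_ofNat, im_ofNat, conj_re, conj_im]; try ring)
  obtain ⟨v215, h215, h⟩ := h
  replace h215 : v215 = (181 : ℝ) / 2 ^ 20 := by rw [h215]; norm_num [step, realAlg]
  obtain ⟨v216, h216, h⟩ := h
  change v216 = v166 * v215 at h216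
  obtain ⟨v217, h217, h⟩ := h
  replace h217 : v217 = (3953 : ℝ) / 2 ^ 19 := by rw [h217]; norm_num [step, realAlg]
  obtain ⟨v218, h218, h⟩ := h
  change v218 = v216 - v217 at h218
  obtain ⟨v219, h219, h⟩ := h
  change v219 = v168 * v218 at h219
  obtain ⟨v220, h220, h⟩ := h
  change v220 = v1 * v219 at h220
  obtain ⟨f_xb, e_f_xb_d⟩ : ∃ q : ℂ, q = (dB.xb).df (m / m1) := ⟨_, rfl⟩
  have a_f_xb : (dB.xb).df (m / m1) = (⟨-((1 + m / m1) * ddh (dB.xb).p t2), -(s3 * (hor (dB.xb).q 1 + tf * ddh (dB.xb).q t2))⟩ : ℂ) := by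
    rw [e_t2_d, e_tf_d]; rfl
  have e_f_xb_re : f_xb.re = (0 : ℝ) := by
    first | (rw [e_f_xb_d, a_f_xb]; done) | (rw [e_f_xb_d, a_f_xb]; simp only [dB, hor, ddh, mul_re, mul_im, add_re, add_im, sub_re, sub_im, neg_re, neg_im, I_re, I_im, ofReal_re,
      ofReal_im, one_re, one_im, zero_re, zero_im, dt, normSq_apply, re_ofNat, im_ofNat, conj_re, conj_im]; try ring)
  have e_f_xb_im : v220 = -f_xb.im := by
    rw [e_f_xb_d, a_f_xb]
    simp only [dB, hor, ddh, h220, h219, h218, h217, h216, h215, h1, e_t2_v, e_tf_v, mul_re, mul_im, add_re, add_im, sub_re, sub_im, neg_re, neg_im, I_re, I_im, ofReal_re,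
      ofReal_im, one_re, one_im, zero_re, zero_im, dt, normSq_apply, re_ofNat, im_ofNat, conj_re, conj_im]
    try ring
  obtain ⟨a_x3, e_a_x3_d⟩ : ∃ q : ℂ, q = (dB.x3).ev m1 := ⟨_, rfl⟩
  have a_a_x3 : (dB.x3).ev m1 = (⟨hor dB.x3.p 1, s3 * hor dB.x3.q 1⟩ : ℂ) := by
    exact Cf.ev_m1 _
  have e_a_x3_re : a_x3.re = (-5927/524288 : ℝ) := by
    first | (rw [e_a_x3_d, a_a_x3]; done) | (rw [e_a_x3_d, a_a_x3]; simp only [dB, hor, mul_re, mul_im, add_re, add_im, sub_re, sub_im, neg_re, neg_im, I_re, I_im, ofReal_re,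
      ofReal_im, one_re, one_im, zero_re, zero_im, dt, normSq_apply, re_ofNat, im_ofNat, conj_re, conj_im]; try ring)
  have e_a_x3_im : a_x3.im = (0 : ℝ) := by
    first | (rw [e_a_x3_d, a_a_x3]; done) | (rw [e_a_x3_d, a_a_x3]; simp only [dB, hor, mul_re, mul_im, add_re, add_im, sub_re, sub_im, neg_re, neg_im, I_re, I_im, ofReal_re,
      ofReal_im, one_re, one_im, zero_re, zero_im, dt, normSq_apply, re_ofNat, im_ofNat, conj_re, conj_im]; try ring)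
  obtain ⟨v221, h221, h⟩ := h
  replace h221 : v221 = (569 : ℝ) / 2 ^ 19 := by rw [h221]; norm_num [step, realAlg]
  obtain ⟨v222, h222, h⟩ := h
  change v222 = v166 * v221 at h222
  obtain ⟨v223, h223, h⟩ := h
  replace h223 : v223 = (-29 : ℝ) / 2 ^ 18 := by rw [h223]; norm_num [step, realAlg]
  obtain ⟨v224, h224, h⟩ := h
  change v224 = v223 - v222 at h224
  obtain ⟨v225, h225, h⟩ := h
  change v225 = v167 * v224 at h225
  obtain ⟨v226, h226, h⟩ := h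
  replace h226 : v226 = (73 : ℝ) / 2 ^ 17 := by rw [h226]; norm_num [step, realAlg]
  obtain ⟨v227, h227, h⟩ := h
  change v227 = v166 * v226 at h227
  obtain ⟨v228, h228, h⟩ := h
  replace h228 : v228 = (4129 : ℝ) / 2 ^ 20 := by rw [h228]; norm_num [step, realAlg]
  obtain ⟨v229, h229, h⟩ := h
  change v229 = v227 - v228 at h229
  obtain ⟨v230, h230, h⟩ := h
  change v230 = v168 * v229 at h230
  obtain ⟨v231, h231, h⟩ := h
  change v231 = v1 * v230 at h231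
  obtain ⟨f_x3, e_f_x3_d⟩ : ∃ q : ℂ, q = (dB.x3).df (m / m1) := ⟨_, rfl⟩
  have a_f_x3 : (dB.x3).df (m / m1) = (⟨-((1 + m / m1) * ddh (dB.x3).p t2), -(s3 * (hor (dB.x3).q 1 + tf * ddh (dB.x3).q t2))⟩ : ℂ) := by
    rw [e_t2_d, e_tf_d]; rfl
  have e_f_x3_re : v225 = -f_x3.re := by
    rw [e_f_x3_d, a_f_x3]
    simp only [dB, hor, ddh, h225, h224, h223, h222, h221, h167, h24, h12, e_t2_v, mul_re, mul_im, add_re, add_im, sub_re, sub_im, neg_re, neg_im, I_re, I_im, ofReal_re,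
      ofReal_im, one_re, one_im, zero_re, zero_im, dt, normSq_apply, re_ofNat, im_ofNat, conj_re, conj_im]
    try ring
  have e_f_x3_im : v231 = -f_x3.im := by
    rw [e_f_x3_d, a_f_x3]
    simp only [dB, hor, ddh, h231, h230, h229, h228, h227, h226, h1, e_t2_v, e_tf_v, mul_re, mul_im, add_re, add_im, sub_re, sub_im, neg_re, neg_im, I_re, I_im, ofReal_re,
      ofReal_im, one_re, one_im, zero_re, zero_im, dt, normSq_apply, re_ofNat, im_ofNat, conj_re, conj_im]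
    try ring
  obtain ⟨v232, h232, h⟩ := h
  replace h232 : v232 = (33 : ℝ) / 2 ^ 19 := by rw [h232]; norm_num [step, realAlg]
  obtain ⟨v233, h233, h⟩ := h
  change v233 = v1 * v232 at h233
  obtain ⟨a_x2b, e_a_x2b_d⟩ : ∃ q : ℂ, q = (dB.x2b).ev m1 := ⟨_, rfl⟩
  have a_a_x2b : (dB.x2b).ev m1 = (⟨hor dB.x2b.p 1, s3 * hor dB.x2b.q 1⟩ : ℂ) := by
    exact Cf.ev_m1 _
  have e_a_x2b_re : a_x2b.re = (33/524288 : ℝ) := by
    first | (rw [e_a_x2b_d, a_a_x2b]; done) | (rw [e_a_x2b_d, a_a_x2b]; simp only [dB, hor, mul_re, mul_im, add_re, add_im, sub_re, sub_im, neg_re, neg_im, I_re, I_im, ofReal_re,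
      ofReal_im, one_re, one_im, zero_re, zero_im, dt, normSq_apply, re_ofNat, im_ofNat, conj_re, conj_im]; try ring)
  have e_a_x2b_im : v233 = a_x2b.im := by
    rw [e_a_x2b_d, a_a_x2b]
    simp only [dB, hor, h233, h232, h1, mul_re, mul_im, add_re, add_im, sub_re, sub_im, neg_re, neg_im, I_re, I_im, ofReal_re,
      ofReal_im, one_re, one_im, zero_re, zero_im, dt, normSq_apply, re_ofNat, im_ofNat, conj_re, conj_im]
    try ring
  obtain ⟨v234, h234, h⟩ := h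
  replace h234 : v234 = (1437 : ℝ) / 2 ^ 18 := by rw [h234]; norm_num [step, realAlg]
  obtain ⟨v235, h235, h⟩ := h
  change v235 = v166 * v234 at h235
  obtain ⟨v236, h236, h⟩ := h
  replace h236 : v236 = (-2985 : ℝ) / 2 ^ 18 := by rw [h236]; norm_num [step, realAlg]
  obtain ⟨v237, h237, h⟩ := h
  change v237 = v236 - v235 at h237
  obtain ⟨v238, h238, h⟩ := h
  change v238 = v167 * v237 at h238
  obtain ⟨v239, h239, h⟩ := h
  replace h239 : v239 = (1601 : ℝ) / 2 ^ 20 := by rw [h239]; norm_num [step, realAlg]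
  exact pXB_c6 R m h1 h12 e_U_d e_mm_d e_U2_d h24 e_sg_d e_kg_d e_c1v_d e_h1v_d e_Pv_d e_Qv_d e_r1v_d e_r1v_v e_iT_d h51 h58 e_dyv_d e_dyv_re e_dyv_im e_Ks_d e_Kc_d e_QP_d e_dtv_d e_dpv_d e_tkv_d e_pkv_d e_kc_d e_kq_d e_tp_d e_tq_d e_dqv_d e_t2_d e_t2_v h167 e_tf_d e_tf_v e_f_ax_d e_dav_d e_dav_re e_dav_im e_a_xx_d e_a_xx_re e_a_xx_im e_f_xx_d e_f_xx_re e_f_xx_im e_a_xb_d e_a_xb_re e_a_xb_im e_f_xb_d e_f_xb_re e_f_xb_im e_a_x3_d e_a_x3_re e_a_x3_im e_f_x3_d e_f_x3_re e_f_x3_im h232 e_a_x2b_d e_a_x2b_re e_a_x2b_im h234 h235 h236 h237 h238 h239 h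

theorem pXB_c4 (R m : ℝ) {v0 v1 v2 v3 v4 v5 v6 v7 v8 v9 v10 v11 v12 v13 v14 U mm v15 U2 v16 v17 v18 v19 v20 v21 v22 v23 v24 v25 v26 sg v27 v28 v29 v30 v31 v32 v33 v34 v35 v36 v37 v38 kg v39 v40 c1v v41 h1v v42 v43 v44 Pv v45 v46 v47 Qv v48 r1v v49 iT v50 v51 v52 v53 v54 v55 v56 v57 v58 v59 v60 v61 v62 : ℝ} {dyv : ℂ} {v63 Ks v64 Kc v65 v66 QP v67 v68 v69 v70 v71 v72 v73 v74 v75 v76 v77 v78 v79 v80 v81 v82 v83 v84 v85 v86 v87 v88 v89 v90 v91 v92 v93 v94 v95 : ℝ} {dtv : ℂ} {v96 v97 v98 v99 v100 v101 v102 v103 v104 v105 v106 v107 : ℝ} {dpv : ℂ} {v108 v109 v110 v111 v112 v113 v114 v115 v116 v117 v118 v119 v120 v121 v122 v123 v124 v125 v126 v127 v128 : ℝ} {tkv : ℂ} {v129 v130 v131 v132 v133 v134 v135 v136 v137 v138 v139 v140 : ℝ} {pkv : ℂ} {v141 v142 v143 kc v144 v145 v146 v147 kq v148 v149 v150 v151 : ℝ} {tp : ℂ} {v152 v153 v154 v155 : ℝ} {tq : ℂ} {v156 v157 v158 v159 : ℝ}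
    (h0 : v0 = Real.sqrt 2)
    (h1 : v1 = s3)
    (h10 : v10 = pj μB)
    (h12 : v12 = m / m1)
    (e_U_d : U = m1 - m)
    (e_mm_d : mm = m)
    (e_U2_d : U2 = (m1 - m) ^ 2)
    (h19 : v19 = (1 : ℝ) / 2 ^ 2)
    (h24 : v24 = (1 : ℝ))
    (e_sg_d : sg = shq (m1 - m))
    (e_kg_d : kg = chq (m1 - m))
    (e_c1v_d : c1v = 1 + Real.sqrt 2 / 2)
    (e_h1v_d : h1v = 1 - Real.sqrt 2 / 2)
    (e_Pv_d : Pv = nP (shq (m1 - m)) (chq (m1 - m)))
    (e_Pv_v : v44 = Pv)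
    (e_Qv_d : Qv = nQ (shq (m1 - m)) (chq (m1 - m)))
    (e_r1v_d : r1v = Real.sqrt 2 - 1)
    (e_r1v_v : v48 = r1v)
    (e_iT_d : iT = (Real.sqrt 2 - 1) * (1 / oS m))
    (h51 : v51 = (3 : ℝ))
    (h58 : v58 = (2 : ℝ))
    (e_dyv_d : dyv = ndy m (nP (shq (m1 - m)) (chq (m1 - m))) (nQ (shq (m1 - m)) (chq (m1 - m))))
    (e_dyv_re : v53 = -dyv.re)
    (e_dyv_im : v62 = -dyv.im)
    (e_Ks_d : Ks = kp * Real.sinh m)
    (e_Kc_d : Kc = kp * Real.cosh m)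
    (e_QP_d : QP = nQ (shq (m1 - m)) (chq (m1 - m)) * (1 + Real.sqrt 2 / 2) + kp * Real.sinh m * nP (shq (m1 - m)) (chq (m1 - m)))
    (e_dtv_d : dtv = ndt m (nP (shq (m1 - m)) (chq (m1 - m))) (nQ (shq (m1 - m)) (chq (m1 - m))))
    (e_dpv_d : dpv = ndp m (nP (shq (m1 - m)) (chq (m1 - m))) (nQ (shq (m1 - m)) (chq (m1 - m))))
    (e_tkv_d : tkv = tk m)
    (e_pkv_d : pkv = pk m)
    (e_kc_d : kc = oc * (3 * (4 - Real.sqrt 2) / 4))
    (e_kq_d : kq = -(s3 * (1 / 27) * (1 / oK) ^ 2 * m1))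
    (e_kq_v : v147 = -kq)
    (e_tp_d : tp = tk m + ((oc * (3 * (4 - Real.sqrt 2) / 4) : ℝ) : ℂ) * pk m)
    (e_tp_re : v150 = tp.re)
    (e_tp_im : v151 = tp.im)
    (e_tq_d : tq = ndt m (nP (shq (m1 - m)) (chq (m1 - m))) (nQ (shq (m1 - m)) (chq (m1 - m))) + ((oc * (3 * (4 - Real.sqrt 2) / 4) : ℝ) : ℂ) * ndp m (nP (shq (m1 - m)) (chq (m1 - m))) (nQ (shq (m1 - m)) (chq (m1 - m))))
    (e_tq_re : v154 = tq.re)
    (e_tq_im : v155 = tq.im)
    (h156 : v156 = v44 * v58)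
    (h157 : v157 = v150 * v156)
    (h158 : v158 = v151 * v156)
    (h159 : v159 = v0 + v24)
    (h : TrE (realAlg (fun i => get 0 (l1n μB m) i) (m / m1) (0)) (pXB.drop 160) [v159, v158, v157, v156, v155, v154, v153, v152, v151, v150, v149, v148, v147, v146, v145, v144, v143, v142, v141, v140, v139, v138, v137, v136, v135, v134, v133, v132, v131, v130, v129, v128, v127, v126, v125, v124, v123, v122, v121, v120, v119, v118, v117, v116, v115, v114, v113, v112, v111, v110, v109, v108, v107, v106, v105, v104, v103, v102, v101, v100, v99, v98, v97, v96, v95, v94, v93, v92, v91, v90, v89, v88, v87, v86, v85, v84, v83, v82, v81, v80, v79, v78, v77, v76, v75, v74, v73, v72, v71, v70, v69, v68, v67, v66, v65, v64, v63, v62, v61, v60, v59, v58, v57, v56, v55, v54, v53, v52, v51, v50, v49, v48, v47, v46, v45, v44, v43, v42, v41, v40, v39, v38, v37, v36, v35, v34, v33, v32, v31, v30, v29, v28,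 v27, v26, v25, v24, v23, v22, v21, v20, v19, v18, v17, v16, v15, v14, v13, v12, v11, v10, v9, v8, v7, v6, v5, v4, v3, v2, v1, v0] (fun st => run (realAlg (fun i => get 0 (l1n μB m) i) (m / m1) (0)) pXB [] = st)) :
    pXB_goal R m := by
  have hm1 : m1 ≠ 0 := m1_ne
  obtain ⟨v160, h160, h⟩ := h
  change v160 = v154 * v159 at h160
  obtain ⟨v161, h161, h⟩ := h
  change v161 = v155 * v159 at h161
  obtain ⟨v162, h162, h⟩ := h
  change v162 = v157 + v160 at h162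
  obtain ⟨v163, h163, h⟩ := h
  change v163 = v158 + v161 at h163
  obtain ⟨v164, h164, h⟩ := h
  change v164 = v147 * v162 at h164
  obtain ⟨v165, h165, h⟩ := h
  change v165 = v147 * v163 at h165
  obtain ⟨dqv, e_dqv_d⟩ : ∃ q : ℂ, q = ndq m (nP (shq (m1 - m)) (chq (m1 - m))) (nQ (shq (m1 - m)) (chq (m1 - m))) := ⟨_, rfl⟩
  have a_dqv : ndq m (nP (shq (m1 - m)) (chq (m1 - m))) (nQ (shq (m1 - m)) (chq (m1 - m))) = (kq : ℂ) * (((2 * Pv : ℝ) : ℂ) * tp + ((1 + Real.sqrt 2 : ℝ) : ℂ) * tq) := by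
    rw [e_kq_d, e_Pv_d, e_tp_d, e_tq_d]; rfl
  have e_dqv_re : v164 = -dqv.re := by
    rw [e_dqv_d, a_dqv]
    simp only [h164, h162, h160, h159, h157, h156, h58, h24, h0, e_tq_re, e_Pv_v, e_tp_re, e_kq_v, mul_re, mul_im, add_re, add_im, sub_re, sub_im, neg_re, neg_im, I_re, I_im, ofReal_re,
      ofReal_im, one_re, one_im, zero_re, zero_im, dt, normSq_apply, re_ofNat, im_ofNat, conj_re, conj_im]
    try ring
  have e_dqv_im : v165 = -dqv.im := by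
    rw [e_dqv_d, a_dqv]
    simp only [h165, h163, h161, h159, h158, h156, h58, h24, h0, e_tq_im, e_Pv_v, e_tp_im, e_kq_v, mul_re, mul_im, add_re, add_im, sub_re, sub_im, neg_re, neg_im, I_re, I_im, ofReal_re,
      ofReal_im, one_re, one_im, zero_re, zero_im, dt, normSq_apply, re_ofNat, im_ofNat, conj_re, conj_im]
    try ring
  obtain ⟨v166, h166, h⟩ := h
  change v166 = v12 * v12 at h166
  obtain ⟨t2, e_t2_d⟩ : ∃ q : ℝ, q = (m / m1) ^ 2 := ⟨_, rfl⟩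
  have e_t2_v : v166 = t2 := by
    rw [e_t2_d]
    simp only [h166, h12, mul_re, mul_im, add_re, add_im, sub_re, sub_im, neg_re, neg_im, I_re, I_im, ofReal_re,
      ofReal_im, one_re, one_im, zero_re, zero_im, dt, normSq_apply, re_ofNat, im_ofNat, conj_re, conj_im]
    try ring
  obtain ⟨v167, h167, h⟩ := h
  change v167 = v12 + v24 at h167
  obtain ⟨v168, h168, h⟩ := h
  change v168 = v12 * v167 at h168
  obtain ⟨tf, e_tf_d⟩ : ∃ q : ℝ, q = (m / m1) * (1 + m / m1) := ⟨_, rfl⟩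
  have e_tf_v : v168 = tf := by
    rw [e_tf_d]
    simp only [h168, h167, h24, h12, mul_re, mul_im, add_re, add_im, sub_re, sub_im, neg_re, neg_im, I_re, I_im, ofReal_re,
      ofReal_im, one_re, one_im, zero_re, zero_im, dt, normSq_apply, re_ofNat, im_ofNat, conj_re, conj_im]
    try ring
  obtain ⟨v169, h169, h⟩ := h
  replace h169 : v169 = (21160355 : ℝ) / 2 ^ 45 := by rw [h169]; norm_num [step, realAlg]
  obtain ⟨v170, h170, h⟩ := h
  change v170 = v166 * v169 at h170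
  obtain ⟨v171, h171, h⟩ := h
  replace h171 : v171 = (145115685 : ℝ) / 2 ^ 45 := by rw [h171]; norm_num [step, realAlg]
  obtain ⟨v172, h172, h⟩ := h
  change v172 = v171 - v170 at h172
  obtain ⟨v173, h173, h⟩ := h
  change v173 = v166 * v172 at h173
  obtain ⟨v174, h174, h⟩ := h
  replace h174 : v174 = (20401551435 : ℝ) / 2 ^ 45 := by rw [h174]; norm_num [step, realAlg]
  obtain ⟨v175, h175, h⟩ := h
  change v175 = v173 + v174 at h175
  obtain ⟨v176, h176, h⟩ := h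
  change v176 = v166 * v175 at h176
  obtain ⟨v177, h177, h⟩ := h
  replace h177 : v177 = (200654926745 : ℝ) / 2 ^ 44 := by rw [h177]; norm_num [step, realAlg]
  obtain ⟨v178, h178, h⟩ := h
  change v178 = v176 - v177 at h178
  obtain ⟨v179, h179, h⟩ := h
  change v179 = v167 * v178 at h179
  obtain ⟨v180, h180, h⟩ := h
  replace h180 : v180 = (187925 : ℝ) / 2 ^ 42 := by rw [h180]; norm_num [step, realAlg]
  obtain ⟨v181, h181, h⟩ := h
  change v181 = v166 * v180 at h181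
  obtain ⟨v182, h182, h⟩ := h
  replace h182 : v182 = (1240305 : ℝ) / 2 ^ 40 := by rw [h182]; norm_num [step, realAlg]
  obtain ⟨v183, h183, h⟩ := h
  change v183 = v182 - v181 at h183
  obtain ⟨v184, h184, h⟩ := h
  change v184 = v166 * v183 at h184
  obtain ⟨v185, h185, h⟩ := h
  replace h185 : v185 = (1721505755 : ℝ) / 2 ^ 45 := by rw [h185]; norm_num [step, realAlg]
  obtain ⟨v186, h186, h⟩ := h
  change v186 = v184 + v185 at h186
  obtain ⟨v187, h187, h⟩ := h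
  change v187 = v166 * v186 at h187
  obtain ⟨v188, h188, h⟩ := h
  replace h188 : v188 = (7280176915 : ℝ) / 2 ^ 42 := by rw [h188]; norm_num [step, realAlg]
  obtain ⟨v189, h189, h⟩ := h
  change v189 = v187 - v188 at h189
  obtain ⟨v190, h190, h⟩ := h
  change v190 = v168 * v189 at h190
  obtain ⟨v191, h191, h⟩ := h
  replace h191 : v191 = (312190669345 : ℝ) / 2 ^ 45 := by rw [h191]; norm_num [step, realAlg]
  obtain ⟨v192, h192, h⟩ := h
  change v192 = v190 + v191 at h192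
  obtain ⟨v193, h193, h⟩ := h
  change v193 = v1 * v192 at h193
  obtain ⟨f_ax, e_f_ax_d⟩ : ∃ q : ℂ, q = (dB.ax).df (m / m1) := ⟨_, rfl⟩
  have a_f_ax : (dB.ax).df (m / m1) = (⟨-((1 + m / m1) * ddh (dB.ax).p t2), -(s3 * (hor (dB.ax).q 1 + tf * ddh (dB.ax).q t2))⟩ : ℂ) := by
    rw [e_t2_d, e_tf_d]; rfl
  have e_f_ax_re : v179 = -f_ax.re := by
    rw [e_f_ax_d, a_f_ax]
    simp only [dB, hor, ddh, sml, axp, axq, List.map, μB, h179, h178, h177, h176, h175, h174, h173, h172, h171, h170, h169, h167, h24, h12, e_t2_v, mul_re, mul_im, add_re, add_im, sub_re, sub_im, neg_re, neg_im, I_re, I_im, ofReal_re,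
      ofReal_im, one_re, one_im, zero_re, zero_im, dt, normSq_apply, re_ofNat, im_ofNat, conj_re, conj_im]
    try ring
  have e_f_ax_im : v193 = -f_ax.im := by
    rw [e_f_ax_d, a_f_ax]
    simp only [dB, hor, ddh, sml, axp, axq, List.map, μB, h193, h192, h191, h190, h189, h188, h187, h186, h185, h184, h183, h182, h181, h180, h1, e_t2_v, e_tf_v, mul_re, mul_im, add_re, add_im, sub_re, sub_im, neg_re, neg_im, I_re, I_im, ofReal_re,
      ofReal_im, one_re, one_im, zero_re, zero_im, dt, normSq_apply, re_ofNat, im_ofNat, conj_re, conj_im]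
    try ring
  obtain ⟨v194, h194, h⟩ := h
  change v194 = v164 + v193 at h194
  obtain ⟨v195, h195, h⟩ := h
  change v195 = v165 + v179 at h195
  obtain ⟨dav, e_dav_d⟩ : ∃ q : ℂ, q = ndq m (nP (shq (m1 - m)) (chq (m1 - m))) (nQ (shq (m1 - m)) (chq (m1 - m))) + I * (starRingEnd ℂ) (dB.ax.df (m / m1)) := ⟨_, rfl⟩
  have a_dav : ndq m (nP (shq (m1 - m)) (chq (m1 - m))) (nQ (shq (m1 - m)) (chq (m1 - m))) + I * (starRingEnd ℂ) (dB.ax.df (m / m1)) = dqv + I * (starRingEnd ℂ) f_ax := by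
    rw [e_dqv_d, e_f_ax_d]
  have e_dav_re : v194 = -dav.re := by
    rw [e_dav_d, a_dav]
    simp only [h194, e_f_ax_im, e_dqv_re, mul_re, mul_im, add_re, add_im, sub_re, sub_im, neg_re, neg_im, I_re, I_im, ofReal_re,
      ofReal_im, one_re, one_im, zero_re, zero_im, dt, normSq_apply, re_ofNat, im_ofNat, conj_re, conj_im]
    try ring
  have e_dav_im : v195 = -dav.im := by
    rw [e_dav_d, a_dav]
    simp only [h195, e_f_ax_re, e_dqv_im, mul_re, mul_im, add_re, add_im, sub_re, sub_im, neg_re, neg_im, I_re, I_im, ofReal_re,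
      ofReal_im, one_re, one_im, zero_re, zero_im, dt, normSq_apply, re_ofNat, im_ofNat, conj_re, conj_im]
    try ring
  obtain ⟨v196, h196, h⟩ := h
  change v196 = v10 * v19 at h196
  obtain ⟨v197, h197, h⟩ := h
  replace h197 : v197 = (2075 : ℝ) / 2 ^ 18 := by rw [h197]; norm_num [step, realAlg]
  obtain ⟨v198, h198, h⟩ := h
  change v198 = v197 - v196 at h198
  obtain ⟨v199, h199, h⟩ := h
  replace h199 : v199 = (2065 : ℝ) / 2 ^ 19 := by rw [h199]; norm_num [step, realAlg]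
  exact pXB_c5 R m h1 h10 h12 e_U_d e_mm_d e_U2_d h19 h24 e_sg_d e_kg_d e_c1v_d e_h1v_d e_Pv_d e_Qv_d e_r1v_d e_r1v_v e_iT_d h51 h58 e_dyv_d e_dyv_re e_dyv_im e_Ks_d e_Kc_d e_QP_d e_dtv_d e_dpv_d e_tkv_d e_pkv_d e_kc_d e_kq_d e_tp_d e_tq_d e_dqv_d e_t2_d e_t2_v h167 e_tf_d e_tf_v e_f_ax_d e_dav_d e_dav_re e_dav_im h196 h197 h198 h199 h

theorem pXB_c3 (R m : ℝ) {v0 v1 v2 v3 v4 v5 v6 v7 v8 v9 v10 v11 v12 v13 v14 U mm v15 U2 v16 v17 v18 v19 v20 v21 v22 v23 v24 v25 v26 sg v27 v28 v29 v30 v31 v32 v33 v34 v35 v36 v37 v38 kg v39 v40 c1v v41 h1v v42 v43 v44 Pv v45 v46 v47 Qv v48 r1v v49 iT v50 v51 v52 v53 v54 v55 v56 v57 v58 v59 v60 v61 v62 : ℝ} {dyv : ℂ} {v63 Ks v64 Kc v65 v66 QP v67 v68 v69 v70 v71 v72 v73 v74 v75 v76 v77 v78 v79 v80 v81 v82 v83 v84 v85 v86 v87 v88 v89 v90 v91 v92 v93 v94 v95 : ℝ} {dtv : ℂ} {v96 v97 v98 v99 v100 v101 v102 v103 v104 v105 v106 v107 : ℝ} {dpv : ℂ} {v108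 v109 v110 v111 v112 v113 v114 v115 v116 v117 v118 v119 : ℝ}
    (h0 : v0 = Real.sqrt 2)
    (h1 : v1 = s3)
    (h2 : v2 = kp)
    (h3 : v3 = m1)
    (h4 : v4 = 1 / oK)
    (h5 : v5 = Real.cosh m)
    (h6 : v6 = Real.sinh m)
    (h9 : v9 = 1 / 27)
    (h10 : v10 = pj μB)
    (h11 : v11 = oc)
    (h12 : v12 = m / m1)
    (e_U_d : U = m1 - m)
    (e_mm_d : mm = m)
    (e_mm_v : v13 = mm)
    (e_U2_d : U2 = (m1 - m) ^ 2)
    (h19 : v19 = (1 : ℝ) / 2 ^ 2)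
    (h24 : v24 = (1 : ℝ))
    (e_sg_d : sg = shq (m1 - m))
    (e_kg_d : kg = chq (m1 - m))
    (e_c1v_d : c1v = 1 + Real.sqrt 2 / 2)
    (e_h1v_d : h1v = 1 - Real.sqrt 2 / 2)
    (e_Pv_d : Pv = nP (shq (m1 - m)) (chq (m1 - m)))
    (e_Pv_v : v44 = Pv)
    (e_Qv_d : Qv = nQ (shq (m1 - m)) (chq (m1 - m)))
    (e_r1v_d : r1v = Real.sqrt 2 - 1)
    (e_r1v_v : v48 = r1v)
    (e_iT_d : iT = (Real.sqrt 2 - 1) * (1 / oS m))
    (h51 : v51 = (3 : ℝ))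
    (h58 : v58 = (2 : ℝ))
    (e_dyv_d : dyv = ndy m (nP (shq (m1 - m)) (chq (m1 - m))) (nQ (shq (m1 - m)) (chq (m1 - m))))
    (e_dyv_re : v53 = -dyv.re)
    (e_dyv_im : v62 = -dyv.im)
    (e_Ks_d : Ks = kp * Real.sinh m)
    (e_Ks_v : v63 = Ks)
    (e_Kc_d : Kc = kp * Real.cosh m)
    (e_Kc_v : v64 = Kc)
    (e_QP_d : QP = nQ (shq (m1 - m)) (chq (m1 - m)) * (1 + Real.sqrt 2 / 2) + kp * Real.sinh m * nP (shq (m1 - m)) (chq (m1 - m)))
    (h67 : v67 = (93 : ℝ) / 2 ^ 2)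
    (h68 : v68 = v0 * v67)
    (h69 : v69 = (-15 : ℝ))
    (h70 : v70 = v69 - v68)
    (h72 : v72 = (12 : ℝ))
    (h75 : v75 = (24 : ℝ))
    (h76 : v76 = v0 * v75)
    (h80 : v80 = (6 : ℝ))
    (h86 : v86 = (3 : ℝ) / 2 ^ 2)
    (h87 : v87 = v0 * v86)
    (h88 : v88 = v51 - v87)
    (e_dtv_d : dtv = ndt m (nP (shq (m1 - m)) (chq (m1 - m))) (nQ (shq (m1 - m)) (chq (m1 - m))))
    (e_dtv_re : v82 = dtv.re)
    (e_dtv_im : v95 = dtv.im)
    (h96 : v96 = (9 : ℝ))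
    (e_dpv_d : dpv = ndp m (nP (shq (m1 - m)) (chq (m1 - m))) (nQ (shq (m1 - m)) (chq (m1 - m))))
    (e_dpv_re : v101 = dpv.re)
    (e_dpv_im : v107 = dpv.im)
    (h108 : v108 = v5 * v6)
    (h109 : v109 = v63 * v70)
    (h110 : v110 = v0 * v108)
    (h111 : v111 = v75 * v110)
    (h112 : v112 = v109 + v111)
    (h113 : v113 = v64 * v80)
    (h114 : v114 = v76 - v113)
    (h115 : v115 = v13 * v114)
    (h116 : v116 = v112 + v115)
    (h117 : v117 = v0 * v72)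
    (h118 : v118 = v117 - v80)
    (h119 : v119 = v64 * v88)
    (h : TrE (realAlg (fun i => get 0 (l1n μB m) i) (m / m1) (0)) (pXB.drop 120) [v119, v118, v117, v116, v115, v114, v113, v112, v111, v110, v109, v108, v107, v106, v105, v104, v103, v102, v101, v100, v99, v98, v97, v96, v95, v94, v93, v92, v91, v90, v89, v88, v87, v86, v85, v84, v83, v82, v81, v80, v79, v78, v77, v76, v75, v74, v73, v72, v71, v70, v69, v68, v67, v66, v65, v64, v63, v62, v61, v60, v59, v58, v57, v56, v55, v54, v53, v52, v51, v50, v49, v48, v47, v46, v45, v44, v43, v42, v41, v40, v39, v38, v37, v36, v35, v34, v33, v32, v31, v30, v29, v28, v27, v26, v25, v24, v23, v22, v21, v20, v19, v18, v17, v16, v15, v14, v13, v12, v11, v10, v9, v8, v7, v6, v5, v4, v3, v2, v1, v0] (fun st => run (realAlg (fun i => get 0 (l1n μB m) i) (m / m1) (0)) pXB [] = st)) :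
    pXB_goal R m := by
  have hm1 : m1 ≠ 0 := m1_ne
  obtain ⟨v120, h120, h⟩ := h
  change v120 = v118 - v119 at h120
  obtain ⟨v121, h121, h⟩ := h
  change v121 = v6 * v6 at h121
  obtain ⟨v122, h122, h⟩ := h
  change v122 = v0 * v121 at h122
  obtain ⟨v123, h123, h⟩ := h
  change v123 = v75 * v122 at h123
  obtain ⟨v124, h124, h⟩ := h
  change v124 = v120 + v123 at h124
  obtain ⟨v125, h125, h⟩ := h
  change v125 = v13 * v63 at h125
  obtain ⟨v126, h126, h⟩ := h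
  change v126 = v80 * v125 at h126
  obtain ⟨v127, h127, h⟩ := h
  change v127 = v124 - v126 at h127
  obtain ⟨v128, h128, h⟩ := h
  change v128 = v1 * v127 at h128
  obtain ⟨tkv, e_tkv_d⟩ : ∃ q : ℂ, q = tk m := ⟨_, rfl⟩
  have a_tkv : tk m = (⟨Ks * (-15 - 93 / 4 * Real.sqrt 2) + 24 * Real.sqrt 2 * Real.sinh m * Real.cosh m + mm * (24 * Real.sqrt 2 - 6 * Kc), s3 * (12 * Real.sqrt 2 - 6 - (3 - 3 / 4 * Real.sqrt 2) * Kc + 24 * Real.sqrt 2 * Real.sinh m ^ 2 - 6 * mm * Ks)⟩ : ℂ) := by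
    rw [e_mm_d, e_Ks_d, e_Kc_d]; apply Complex.ext <;> simp only [tk] <;> ring
  have e_tkv_re : v116 = tkv.re := by
    rw [e_tkv_d, a_tkv]
    simp only [tk, h116, h115, h114, h113, h112, h111, h110, h109, h108, h80, h76, h75, h70, h69, h68, h67, h6, h5, h0, e_Kc_v, e_mm_v, e_Ks_v, mul_re, mul_im, add_re, add_im, sub_re, sub_im, neg_re, neg_im, I_re, I_im, ofReal_re,
      ofReal_im, one_re, one_im, zero_re, zero_im, dt, normSq_apply, re_ofNat, im_ofNat, conj_re, conj_im]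
    try ring
  have e_tkv_im : v128 = tkv.im := by
    rw [e_tkv_d, a_tkv]
    simp only [tk, h128, h127, h126, h125, h124, h123, h122, h121, h120, h119, h118, h117, h88, h87, h86, h80, h75, h72, h51, h6, h1, h0, e_Ks_v, e_mm_v, e_Kc_v, mul_re, mul_im, add_re, add_im, sub_re, sub_im, neg_re, neg_im, I_re, I_im, ofReal_re,
      ofReal_im, one_re, one_im, zero_re, zero_im, dt, normSq_apply, re_ofNat, im_ofNat, conj_re, conj_im]
    try ring
  obtain ⟨v129, h129, h⟩ := h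
  change v129 = v2 * v96 at h129
  obtain ⟨v130, h130, h⟩ := h
  replace h130 : v130 = (8 : ℝ) := by rw [h130]; norm_num [step, realAlg]
  obtain ⟨v131, h131, h⟩ := h
  change v131 = v5 * v130 at h131
  obtain ⟨v132, h132, h⟩ := h
  change v132 = v129 - v131 at h132
  obtain ⟨v133, h133, h⟩ := h
  change v133 = v1 * v132 at h133
  obtain ⟨v134, h134, h⟩ := h
  change v134 = v6 * v133 at h134
  obtain ⟨v135, h135, h⟩ := h
  change v135 = v5 * v5 at h135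
  obtain ⟨v136, h136, h⟩ := h
  change v136 = v130 * v135 at h136
  obtain ⟨v137, h137, h⟩ := h
  change v137 = v64 - v136 at h137
  obtain ⟨v138, h138, h⟩ := h
  replace h138 : v138 = (4 : ℝ) := by rw [h138]; norm_num [step, realAlg]
  obtain ⟨v139, h139, h⟩ := h
  change v139 = v137 + v138 at h139
  obtain ⟨v140, h140, h⟩ := h
  change v140 = v51 * v139 at h140
  obtain ⟨pkv, e_pkv_d⟩ : ∃ q : ℂ, q = pk m := ⟨_, rfl⟩
  have a_pkv : pk m = (⟨s3 * (9 * kp - 8 * Real.cosh m) * Real.sinh m, 3 * (Kc - 8 * Real.cosh m ^ 2 + 4)⟩ : ℂ) := by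
    rw [e_Kc_d]; rfl
  have e_pkv_re : v134 = pkv.re := by
    rw [e_pkv_d, a_pkv]
    simp only [pk, h134, h133, h132, h131, h130, h129, h96, h6, h5, h2, h1, mul_re, mul_im, add_re, add_im, sub_re, sub_im, neg_re, neg_im, I_re, I_im, ofReal_re,
      ofReal_im, one_re, one_im, zero_re, zero_im, dt, normSq_apply, re_ofNat, im_ofNat, conj_re, conj_im]
    try ring
  have e_pkv_im : v140 = pkv.im := by
    rw [e_pkv_d, a_pkv]
    simp only [pk, h140, h139, h138, h137, h136, h135, h130, h51, h5, e_Kc_v, mul_re, mul_im, add_re, add_im, sub_re, sub_im, neg_re, neg_im, I_re, I_im, ofReal_re,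
      ofReal_im, one_re, one_im, zero_re, zero_im, dt, normSq_apply, re_ofNat, im_ofNat, conj_re, conj_im]
    try ring
  obtain ⟨v141, h141, h⟩ := h
  change v141 = v138 - v0 at h141
  obtain ⟨v142, h142, h⟩ := h
  change v142 = v86 * v141 at h142
  obtain ⟨v143, h143, h⟩ := h
  change v143 = v11 * v142 at h143
  obtain ⟨kc, e_kc_d⟩ : ∃ q : ℝ, q = oc * (3 * (4 - Real.sqrt 2) / 4) := ⟨_, rfl⟩
  have e_kc_v : v143 = kc := by
    rw [e_kc_d]
    simp only [h143, h142, h141, h138, h86, h11, h0, mul_re, mul_im, add_re, add_im, sub_re, sub_im, neg_re, neg_im, I_re, I_im, ofReal_re,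
      ofReal_im, one_re, one_im, zero_re, zero_im, dt, normSq_apply, re_ofNat, im_ofNat, conj_re, conj_im]
    try ring
  obtain ⟨v144, h144, h⟩ := h
  change v144 = v1 * v9 at h144
  obtain ⟨v145, h145, h⟩ := h
  change v145 = v4 * v4 at h145
  obtain ⟨v146, h146, h⟩ := h
  change v146 = v144 * v145 at h146
  obtain ⟨v147, h147, h⟩ := h
  change v147 = v3 * v146 at h147
  obtain ⟨kq, e_kq_d⟩ : ∃ q : ℝ, q = -(s3 * (1 / 27) * (1 / oK) ^ 2 * m1) := ⟨_, rfl⟩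
  have e_kq_v : v147 = -kq := by
    rw [e_kq_d]
    simp only [h147, h146, h145, h144, h9, h4, h3, h1, mul_re, mul_im, add_re, add_im, sub_re, sub_im, neg_re, neg_im, I_re, I_im, ofReal_re,
      ofReal_im, one_re, one_im, zero_re, zero_im, dt, normSq_apply, re_ofNat, im_ofNat, conj_re, conj_im]
    try ring
  obtain ⟨v148, h148, h⟩ := h
  change v148 = v134 * v143 at h148
  obtain ⟨v149, h149, h⟩ := h
  change v149 = v140 * v143 at h149
  obtain ⟨v150, h150, h⟩ := h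
  change v150 = v116 + v148 at h150
  obtain ⟨v151, h151, h⟩ := h
  change v151 = v128 + v149 at h151
  obtain ⟨tp, e_tp_d⟩ : ∃ q : ℂ, q = tk m + ((oc * (3 * (4 - Real.sqrt 2) / 4) : ℝ) : ℂ) * pk m := ⟨_, rfl⟩
  have a_tp : tk m + ((oc * (3 * (4 - Real.sqrt 2) / 4) : ℝ) : ℂ) * pk m = tkv + (kc : ℂ) * pkv := by
    rw [e_kc_d, e_tkv_d, e_pkv_d]
  have e_tp_re : v150 = tp.re := by
    rw [e_tp_d, a_tp]
    simp only [h150, h148, e_kc_v, e_pkv_re, e_tkv_re, mul_re, mul_im, add_re, add_im, sub_re, sub_im, neg_re, neg_im, I_re, I_im, ofReal_re,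
      ofReal_im, one_re, one_im, zero_re, zero_im, dt, normSq_apply, re_ofNat, im_ofNat, conj_re, conj_im]
    try ring
  have e_tp_im : v151 = tp.im := by
    rw [e_tp_d, a_tp]
    simp only [h151, h149, e_kc_v, e_pkv_im, e_tkv_im, mul_re, mul_im, add_re, add_im, sub_re, sub_im, neg_re, neg_im, I_re, I_im, ofReal_re,
      ofReal_im, one_re, one_im, zero_re, zero_im, dt, normSq_apply, re_ofNat, im_ofNat, conj_re, conj_im]
    try ring
  obtain ⟨v152, h152, h⟩ := h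
  change v152 = v101 * v143 at h152
  obtain ⟨v153, h153, h⟩ := h
  change v153 = v107 * v143 at h153
  obtain ⟨v154, h154, h⟩ := h
  change v154 = v82 + v152 at h154
  obtain ⟨v155, h155, h⟩ := h
  change v155 = v95 + v153 at h155
  obtain ⟨tq, e_tq_d⟩ : ∃ q : ℂ, q = ndt m (nP (shq (m1 - m)) (chq (m1 - m))) (nQ (shq (m1 - m)) (chq (m1 - m))) + ((oc * (3 * (4 - Real.sqrt 2) / 4) : ℝ) : ℂ) * ndp m (nP (shq (m1 - m)) (chq (m1 - m))) (nQ (shq (m1 - m)) (chq (m1 - m))) := ⟨_, rfl⟩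
  have a_tq : ndt m (nP (shq (m1 - m)) (chq (m1 - m))) (nQ (shq (m1 - m)) (chq (m1 - m))) + ((oc * (3 * (4 - Real.sqrt 2) / 4) : ℝ) : ℂ) * ndp m (nP (shq (m1 - m)) (chq (m1 - m))) (nQ (shq (m1 - m)) (chq (m1 - m))) = dtv + (kc : ℂ) * dpv := by
    rw [e_kc_d, e_dtv_d, e_dpv_d]
  have e_tq_re : v154 = tq.re := by
    rw [e_tq_d, a_tq]
    simp only [h154, h152, e_kc_v, e_dpv_re, e_dtv_re, mul_re, mul_im, add_re, add_im, sub_re, sub_im, neg_re, neg_im, I_re, I_im, ofReal_re,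
      ofReal_im, one_re, one_im, zero_re, zero_im, dt, normSq_apply, re_ofNat, im_ofNat, conj_re, conj_im]
    try ring
  have e_tq_im : v155 = tq.im := by
    rw [e_tq_d, a_tq]
    simp only [h155, h153, e_kc_v, e_dpv_im, e_dtv_im, mul_re, mul_im, add_re, add_im, sub_re, sub_im, neg_re, neg_im, I_re, I_im, ofReal_re,
      ofReal_im, one_re, one_im, zero_re, zero_im, dt, normSq_apply, re_ofNat, im_ofNat, conj_re, conj_im]
    try ring
  obtain ⟨v156, h156, h⟩ := h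
  change v156 = v44 * v58 at h156
  obtain ⟨v157, h157, h⟩ := h
  change v157 = v150 * v156 at h157
  obtain ⟨v158, h158, h⟩ := h
  change v158 = v151 * v156 at h158
  obtain ⟨v159, h159, h⟩ := h
  change v159 = v0 + v24 at h159
  exact pXB_c4 R m h0 h1 h10 h12 e_U_d e_mm_d e_U2_d h19 h24 e_sg_d e_kg_d e_c1v_d e_h1v_d e_Pv_d e_Pv_v e_Qv_d e_r1v_d e_r1v_v e_iT_d h51 h58 e_dyv_d e_dyv_re e_dyv_im e_Ks_d e_Kc_d e_QP_d e_dtv_d e_dpv_d e_tkv_d e_pkv_d e_kc_d e_kq_d e_kq_v e_tp_d e_tp_re e_tp_im e_tq_d e_tq_re e_tq_im h156 h157 h158 h159 h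

theorem pXB_c2 (R m : ℝ) {v0 v1 v2 v3 v4 v5 v6 v7 v8 v9 v10 v11 v12 v13 v14 U mm v15 U2 v16 v17 v18 v19 v20 v21 v22 v23 v24 v25 v26 sg v27 v28 v29 v30 v31 v32 v33 v34 v35 v36 v37 v38 kg v39 v40 c1v v41 h1v v42 v43 v44 Pv v45 v46 v47 Qv v48 r1v v49 iT v50 v51 v52 v53 v54 v55 v56 v57 v58 v59 v60 v61 v62 : ℝ} {dyv : ℂ} {v63 Ks v64 Kc v65 v66 QP v67 v68 v69 v70 v71 v72 v73 v74 v75 v76 v77 v78 v79 : ℝ}
    (h0 : v0 = Real.sqrt 2)
    (h1 : v1 = s3)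
    (h2 : v2 = kp)
    (h3 : v3 = m1)
    (h4 : v4 = 1 / oK)
    (h5 : v5 = Real.cosh m)
    (h6 : v6 = Real.sinh m)
    (h9 : v9 = 1 / 27)
    (h10 : v10 = pj μB)
    (h11 : v11 = oc)
    (h12 : v12 = m / m1)
    (e_U_d : U = m1 - m)
    (e_mm_d : mm = m)
    (e_mm_v : v13 = mm)
    (e_U2_d : U2 = (m1 - m) ^ 2)
    (h19 : v19 = (1 : ℝ) / 2 ^ 2)
    (h24 : v24 = (1 : ℝ))
    (e_sg_d : sg = shq (m1 - m))
    (e_kg_d : kg = chq (m1 - m))
    (e_c1v_d : c1v = 1 + Real.sqrt 2 / 2)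
    (e_c1v_v : v40 = c1v)
    (e_h1v_d : h1v = 1 - Real.sqrt 2 / 2)
    (e_h1v_v : v41 = h1v)
    (e_Pv_d : Pv = nP (shq (m1 - m)) (chq (m1 - m)))
    (e_Pv_v : v44 = Pv)
    (e_Qv_d : Qv = nQ (shq (m1 - m)) (chq (m1 - m)))
    (e_Qv_v : v47 = Qv)
    (e_r1v_d : r1v = Real.sqrt 2 - 1)
    (e_r1v_v : v48 = r1v)
    (e_iT_d : iT = (Real.sqrt 2 - 1) * (1 / oS m))
    (h51 : v51 = (3 : ℝ))
    (h58 : v58 = (2 : ℝ))
    (e_dyv_d : dyv = ndy m (nP (shq (m1 - m)) (chq (m1 - m))) (nQ (shq (m1 - m)) (chq (m1 - m))))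
    (e_dyv_re : v53 = -dyv.re)
    (e_dyv_im : v62 = -dyv.im)
    (e_Ks_d : Ks = kp * Real.sinh m)
    (e_Ks_v : v63 = Ks)
    (e_Kc_d : Kc = kp * Real.cosh m)
    (e_Kc_v : v64 = Kc)
    (e_QP_d : QP = nQ (shq (m1 - m)) (chq (m1 - m)) * (1 + Real.sqrt 2 / 2) + kp * Real.sinh m * nP (shq (m1 - m)) (chq (m1 - m)))
    (e_QP_v : v66 = QP)
    (h67 : v67 = (93 : ℝ) / 2 ^ 2)
    (h68 : v68 = v0 * v67)
    (h69 : v69 = (-15 : ℝ))
    (h70 : v70 = v69 - v68)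
    (h71 : v71 = v47 * v70)
    (h72 : v72 = (12 : ℝ))
    (h73 : v73 = v66 * v72)
    (h74 : v74 = v71 + v73)
    (h75 : v75 = (24 : ℝ))
    (h76 : v76 = v0 * v75)
    (h77 : v77 = v74 + v76)
    (h78 : v78 = v13 * v44)
    (h79 : v79 = v40 + v78)
    (h : TrE (realAlg (fun i => get 0 (l1n μB m) i) (m / m1) (0)) (pXB.drop 80) [v79, v78, v77, v76, v75, v74, v73, v72, v71, v70, v69, v68, v67, v66, v65, v64, v63, v62, v61, v60, v59, v58, v57, v56, v55, v54, v53, v52, v51, v50, v49, v48, v47, v46, v45, v44, v43, v42, v41, v40, v39, v38, v37, v36, v35, v34, v33, v32, v31, v30, v29, v28, v27, v26, v25, v24, v23, v22, v21, v20, v19, v18, v17, v16, v15, v14, v13, v12, v11, v10, v9, v8, v7, v6, v5, v4, v3, v2, v1, v0] (fun st => run (realAlg (fun i => get 0 (l1n μB m) i) (m / m1) (0)) pXB [] = st)) :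
    pXB_goal R m := by
  have hm1 : m1 ≠ 0 := m1_ne
  obtain ⟨v80, h80, h⟩ := h
  replace h80 : v80 = (6 : ℝ) := by rw [h80]; norm_num [step, realAlg]
  obtain ⟨v81, h81, h⟩ := h
  change v81 = v79 * v80 at h81
  obtain ⟨v82, h82, h⟩ := h
  change v82 = v77 - v81 at h82
  obtain ⟨v83, h83, h⟩ := h
  change v83 = v41 + v63 at h83
  obtain ⟨v84, h84, h⟩ := h
  change v84 = v47 * v83 at h84
  obtain ⟨v85, h85, h⟩ := h
  change v85 = v72 * v84 at h85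
  obtain ⟨v86, h86, h⟩ := h
  replace h86 : v86 = (3 : ℝ) / 2 ^ 2 := by rw [h86]; norm_num [step, realAlg]
  obtain ⟨v87, h87, h⟩ := h
  change v87 = v0 * v86 at h87
  obtain ⟨v88, h88, h⟩ := h
  change v88 = v51 - v87 at h88
  obtain ⟨v89, h89, h⟩ := h
  change v89 = v44 * v88 at h89
  obtain ⟨v90, h90, h⟩ := h
  change v90 = v85 - v89 at h90
  obtain ⟨v91, h91, h⟩ := h
  change v91 = v13 * v47 at h91
  obtain ⟨v92, h92, h⟩ := h
  change v92 = v41 + v91 at h92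
  obtain ⟨v93, h93, h⟩ := h
  change v93 = v80 * v92 at h93
  obtain ⟨v94, h94, h⟩ := h
  change v94 = v90 - v93 at h94
  obtain ⟨v95, h95, h⟩ := h
  change v95 = v1 * v94 at h95
  obtain ⟨dtv, e_dtv_d⟩ : ∃ q : ℂ, q = ndt m (nP (shq (m1 - m)) (chq (m1 - m))) (nQ (shq (m1 - m)) (chq (m1 - m))) := ⟨_, rfl⟩
  have a_dtv : ndt m (nP (shq (m1 - m)) (chq (m1 - m))) (nQ (shq (m1 - m)) (chq (m1 - m))) = (⟨(-15 - 93 / 4 * Real.sqrt 2) * Qv + 12 * QP + 24 * Real.sqrt 2 - 6 * (c1v + mm * Pv), s3 * (-((3 - 3 / 4 * Real.sqrt 2) * Pv) + 12 * (Qv * (h1v + Ks)) - 6 * (h1v + mm * Qv))⟩ : ℂ) := by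
    rw [e_QP_d, e_Pv_d, e_Qv_d, e_c1v_d, e_h1v_d, e_mm_d, e_Ks_d]; rfl
  have e_dtv_re : v82 = dtv.re := by
    rw [e_dtv_d, a_dtv]
    simp only [h82, h81, h80, h79, h78, h77, h76, h75, h74, h73, h72, h71, h70, h69, h68, h67, h0, e_Pv_v, e_mm_v, e_c1v_v, e_QP_v, e_Qv_v, mul_re, mul_im, add_re, add_im, sub_re, sub_im, neg_re, neg_im, I_re, I_im, ofReal_re,
      ofReal_im, one_re, one_im, zero_re, zero_im, dt, normSq_apply, re_ofNat, im_ofNat, conj_re, conj_im]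
    try ring
  have e_dtv_im : v95 = dtv.im := by
    rw [e_dtv_d, a_dtv]
    simp only [h95, h94, h93, h92, h91, h90, h89, h88, h87, h86, h85, h84, h83, h80, h72, h51, h1, h0, e_Qv_v, e_mm_v, e_h1v_v, e_Pv_v, e_Ks_v, mul_re, mul_im, add_re, add_im, sub_re, sub_im, neg_re, neg_im, I_re, I_im, ofReal_re,
      ofReal_im, one_re, one_im, zero_re, zero_im, dt, normSq_apply, re_ofNat, im_ofNat, conj_re, conj_im]
    try ring
  obtain ⟨v96, h96, h⟩ := h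
  replace h96 : v96 = (9 : ℝ) := by rw [h96]; norm_num [step, realAlg]
  obtain ⟨v97, h97, h⟩ := h
  change v97 = v47 * v96 at h97
  obtain ⟨v98, h98, h⟩ := h
  change v98 = v0 * v66 at h98
  obtain ⟨v99, h99, h⟩ := h
  change v99 = v58 * v98 at h99
  obtain ⟨v100, h100, h⟩ := h
  change v100 = v97 - v99 at h100
  obtain ⟨v101, h101, h⟩ := h
  change v101 = v1 * v100 at h101
  obtain ⟨v102, h102, h⟩ := h
  change v102 = v40 + v64 at h102
  obtain ⟨v103, h103, h⟩ := h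
  change v103 = v44 * v102 at h103
  obtain ⟨v104, h104, h⟩ := h
  change v104 = v0 * v103 at h104
  obtain ⟨v105, h105, h⟩ := h
  change v105 = v58 * v104 at h105
  obtain ⟨v106, h106, h⟩ := h
  change v106 = v44 - v105 at h106
  obtain ⟨v107, h107, h⟩ := h
  change v107 = v51 * v106 at h107
  obtain ⟨dpv, e_dpv_d⟩ : ∃ q : ℂ, q = ndp m (nP (shq (m1 - m)) (chq (m1 - m))) (nQ (shq (m1 - m)) (chq (m1 - m))) := ⟨_, rfl⟩
  have a_dpv : ndp m (nP (shq (m1 - m)) (chq (m1 - m))) (nQ (shq (m1 - m)) (chq (m1 - m))) = (⟨s3 * (9 * Qv - 2 * Real.sqrt 2 * QP), 3 * (Pv - 2 * Real.sqrt 2 * (Pv * (c1v + Kc)))⟩ : ℂ) := by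
    rw [e_QP_d, e_Pv_d, e_Qv_d, e_c1v_d, e_Kc_d]; rfl
  have e_dpv_re : v101 = dpv.re := by
    rw [e_dpv_d, a_dpv]
    simp only [h101, h100, h99, h98, h97, h96, h58, h1, h0, e_QP_v, e_Qv_v, mul_re, mul_im, add_re, add_im, sub_re, sub_im, neg_re, neg_im, I_re, I_im, ofReal_re,
      ofReal_im, one_re, one_im, zero_re, zero_im, dt, normSq_apply, re_ofNat, im_ofNat, conj_re, conj_im]
    try ring
  have e_dpv_im : v107 = dpv.im := by
    rw [e_dpv_d, a_dpv]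
    simp only [h107, h106, h105, h104, h103, h102, h58, h51, h0, e_Kc_v, e_c1v_v, e_Pv_v, mul_re, mul_im, add_re, add_im, sub_re, sub_im, neg_re, neg_im, I_re, I_im, ofReal_re,
      ofReal_im, one_re, one_im, zero_re, zero_im, dt, normSq_apply, re_ofNat, im_ofNat, conj_re, conj_im]
    try ring
  obtain ⟨v108, h108, h⟩ := h
  change v108 = v5 * v6 at h108
  obtain ⟨v109, h109, h⟩ := h
  change v109 = v63 * v70 at h109
  obtain ⟨v110, h110, h⟩ := h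
  change v110 = v0 * v108 at h110
  obtain ⟨v111, h111, h⟩ := h
  change v111 = v75 * v110 at h111
  obtain ⟨v112, h112, h⟩ := h
  change v112 = v109 + v111 at h112
  obtain ⟨v113, h113, h⟩ := h
  change v113 = v64 * v80 at h113
  obtain ⟨v114, h114, h⟩ := h
  change v114 = v76 - v113 at h114
  obtain ⟨v115, h115, h⟩ := h
  change v115 = v13 * v114 at h115
  obtain ⟨v116, h116, h⟩ := h
  change v116 = v112 + v115 at h116
  obtain ⟨v117, h117, h⟩ := h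
  change v117 = v0 * v72 at h117
  obtain ⟨v118, h118, h⟩ := h
  change v118 = v117 - v80 at h118
  obtain ⟨v119, h119, h⟩ := h
  change v119 = v64 * v88 at h119
  exact pXB_c3 R m h0 h1 h2 h3 h4 h5 h6 h9 h10 h11 h12 e_U_d e_mm_d e_mm_v e_U2_d h19 h24 e_sg_d e_kg_d e_c1v_d e_h1v_d e_Pv_d e_Pv_v e_Qv_d e_r1v_d e_r1v_v e_iT_d h51 h58 e_dyv_d e_dyv_re e_dyv_im e_Ks_d e_Ks_v e_Kc_d e_Kc_v e_QP_d h67 h68 h69 h70 h72 h75 h76 h80 h86 h87 h88 e_dtv_d e_dtv_re e_dtv_im h96 e_dpv_d e_dpv_re e_dpv_im h108 h109 h110 h111 h112 h113 h114 h115 h116 h117 h118 h119 h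

theorem pXB_c1 (R m : ℝ) {v0 v1 v2 v3 v4 v5 v6 v7 v8 v9 v10 v11 v12 v13 v14 U mm v15 U2 v16 v17 v18 v19 v20 v21 v22 v23 v24 v25 v26 sg v27 v28 v29 v30 v31 v32 v33 v34 v35 v36 v37 v38 kg v39 : ℝ}
    (h0 : v0 = Real.sqrt 2)
    (h1 : v1 = s3)
    (h2 : v2 = kp)
    (h3 : v3 = m1)
    (h4 : v4 = 1 / oK)
    (h5 : v5 = Real.cosh m)
    (h6 : v6 = Real.sinh m)
    (h7 : v7 = 1 / oS m)
    (h9 : v9 = 1 / 27)
    (h10 : v10 = pj μB)
    (h11 : v11 = oc)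
    (h12 : v12 = m / m1)
    (e_U_d : U = m1 - m)
    (e_mm_d : mm = m)
    (e_mm_v : v13 = mm)
    (e_U2_d : U2 = (m1 - m) ^ 2)
    (h19 : v19 = (1 : ℝ) / 2 ^ 2)
    (h24 : v24 = (1 : ℝ))
    (e_sg_d : sg = shq (m1 - m))
    (e_sg_v : v26 = sg)
    (h35 : v35 = (1 : ℝ) / 2 ^ 1)
    (e_kg_d : kg = chq (m1 - m))
    (e_kg_v : v38 = kg)
    (h39 : v39 = v0 * v35)
    (h : TrE (realAlg (fun i => get 0 (l1n μB m) i) (m / m1) (0)) (pXB.drop 40) [v39, v38, v37, v36, v35, v34, v33, v32, v31, v30, v29, v28, v27, v26, v25, v24, v23, v22, v21, v20, v19, v18, v17, v16, v15, v14, v13, v12, v11, v10, v9, v8, v7, v6, v5, v4, v3, v2, v1, v0] (fun st => run (realAlg (fun i => get 0 (l1n μB m) i) (m / m1) (0)) pXB [] = st)) :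
    pXB_goal R m := by
  have hm1 : m1 ≠ 0 := m1_ne
  obtain ⟨v40, h40, h⟩ := h
  change v40 = v39 + v24 at h40
  obtain ⟨c1v, e_c1v_d⟩ : ∃ q : ℝ, q = 1 + Real.sqrt 2 / 2 := ⟨_, rfl⟩
  have e_c1v_v : v40 = c1v := by
    rw [e_c1v_d]
    simp only [h40, h39, h35, h24, h0, mul_re, mul_im, add_re, add_im, sub_re, sub_im, neg_re, neg_im, I_re, I_im, ofReal_re,
      ofReal_im, one_re, one_im, zero_re, zero_im, dt, normSq_apply, re_ofNat, im_ofNat, conj_re, conj_im]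
    try ring
  obtain ⟨v41, h41, h⟩ := h
  change v41 = v24 - v39 at h41
  obtain ⟨h1v, e_h1v_d⟩ : ∃ q : ℝ, q = 1 - Real.sqrt 2 / 2 := ⟨_, rfl⟩
  have e_h1v_v : v41 = h1v := by
    rw [e_h1v_d]
    simp only [h41, h39, h35, h24, h0, mul_re, mul_im, add_re, add_im, sub_re, sub_im, neg_re, neg_im, I_re, I_im, ofReal_re,
      ofReal_im, one_re, one_im, zero_re, zero_im, dt, normSq_apply, re_ofNat, im_ofNat, conj_re, conj_im]
    try ring
  obtain ⟨v42, h42, h⟩ := h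
  change v42 = v26 * v41 at h42
  obtain ⟨v43, h43, h⟩ := h
  change v43 = v38 * v40 at h43
  obtain ⟨v44, h44, h⟩ := h
  change v44 = v42 - v43 at h44
  obtain ⟨Pv, e_Pv_d⟩ : ∃ q : ℝ, q = nP (shq (m1 - m)) (chq (m1 - m)) := ⟨_, rfl⟩
  have a_Pv : nP (shq (m1 - m)) (chq (m1 - m)) = h1v * sg - c1v * kg := by
    rw [e_sg_d, e_kg_d, e_h1v_d, e_c1v_d]; rfl
  have e_Pv_v : v44 = Pv := by
    rw [e_Pv_d, a_Pv]
    simp only [h44, h43, h42, e_c1v_v, e_kg_v, e_h1v_v, e_sg_v, mul_re, mul_im, add_re, add_im, sub_re, sub_im, neg_re, neg_im, I_re, I_im, ofReal_re,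
      ofReal_im, one_re, one_im, zero_re, zero_im, dt, normSq_apply, re_ofNat, im_ofNat, conj_re, conj_im]
    try ring
  obtain ⟨v45, h45, h⟩ := h
  change v45 = v26 * v40 at h45
  obtain ⟨v46, h46, h⟩ := h
  change v46 = v38 * v41 at h46
  obtain ⟨v47, h47, h⟩ := h
  change v47 = v45 - v46 at h47
  obtain ⟨Qv, e_Qv_d⟩ : ∃ q : ℝ, q = nQ (shq (m1 - m)) (chq (m1 - m)) := ⟨_, rfl⟩
  have a_Qv : nQ (shq (m1 - m)) (chq (m1 - m)) = c1v * sg - h1v * kg := by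
    rw [e_sg_d, e_kg_d, e_h1v_d, e_c1v_d]; rfl
  have e_Qv_v : v47 = Qv := by
    rw [e_Qv_d, a_Qv]
    simp only [h47, h46, h45, e_h1v_v, e_kg_v, e_c1v_v, e_sg_v, mul_re, mul_im, add_re, add_im, sub_re, sub_im, neg_re, neg_im, I_re, I_im, ofReal_re,
      ofReal_im, one_re, one_im, zero_re, zero_im, dt, normSq_apply, re_ofNat, im_ofNat, conj_re, conj_im]
    try ring
  obtain ⟨v48, h48, h⟩ := h
  change v48 = v0 - v24 at h48
  obtain ⟨r1v, e_r1v_d⟩ : ∃ q : ℝ, q = Real.sqrt 2 - 1 := ⟨_, rfl⟩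
  have e_r1v_v : v48 = r1v := by
    rw [e_r1v_d]
    simp only [h48, h24, h0, mul_re, mul_im, add_re, add_im, sub_re, sub_im, neg_re, neg_im, I_re, I_im, ofReal_re,
      ofReal_im, one_re, one_im, zero_re, zero_im, dt, normSq_apply, re_ofNat, im_ofNat, conj_re, conj_im]
    try ring
  obtain ⟨v49, h49, h⟩ := h
  change v49 = v7 * v48 at h49
  obtain ⟨iT, e_iT_d⟩ : ∃ q : ℝ, q = (Real.sqrt 2 - 1) * (1 / oS m) := ⟨_, rfl⟩
  have a_iT : (Real.sqrt 2 - 1) * (1 / oS m) = r1v * (1 / oS m) := by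
    rw [e_r1v_d]
  have e_iT_v : v49 = iT := by
    rw [e_iT_d, a_iT]
    simp only [h49, h7, e_r1v_v, mul_re, mul_im, add_re, add_im, sub_re, sub_im, neg_re, neg_im, I_re, I_im, ofReal_re,
      ofReal_im, one_re, one_im, zero_re, zero_im, dt, normSq_apply, re_ofNat, im_ofNat, conj_re, conj_im]
    try ring
  obtain ⟨v50, h50, h⟩ := h
  change v50 = v3 * v44 at h50
  obtain ⟨v51, h51, h⟩ := h
  replace h51 : v51 = (3 : ℝ) := by rw [h51]; norm_num [step, realAlg]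
  obtain ⟨v52, h52, h⟩ := h
  change v52 = v50 * v51 at h52
  obtain ⟨v53, h53, h⟩ := h
  change v53 = v49 * v52 at h53
  obtain ⟨v54, h54, h⟩ := h
  change v54 = v1 * v3 at h54
  obtain ⟨v55, h55, h⟩ := h
  change v55 = v40 * v47 at h55
  obtain ⟨v56, h56, h⟩ := h
  change v56 = v41 * v44 at h56
  obtain ⟨v57, h57, h⟩ := h
  change v57 = v55 - v56 at h57
  obtain ⟨v58, h58, h⟩ := h
  replace h58 : v58 = (2 : ℝ) := by rw [h58]; norm_num [step, realAlg]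
  obtain ⟨v59, h59, h⟩ := h
  change v59 = v57 * v58 at h59
  obtain ⟨v60, h60, h⟩ := h
  change v60 = v59 - v47 at h60
  obtain ⟨v61, h61, h⟩ := h
  change v61 = v54 * v60 at h61
  obtain ⟨v62, h62, h⟩ := h
  change v62 = v49 * v61 at h62
  obtain ⟨dyv, e_dyv_d⟩ : ∃ q : ℂ, q = ndy m (nP (shq (m1 - m)) (chq (m1 - m))) (nQ (shq (m1 - m)) (chq (m1 - m))) := ⟨_, rfl⟩
  have a_dyv : ndy m (nP (shq (m1 - m)) (chq (m1 - m))) (nQ (shq (m1 - m)) (chq (m1 - m))) = (⟨-(3 * m1 * Pv * iT), -(s3 * m1 * (2 * (Qv * c1v - Pv * h1v) - Qv) * iT)⟩ : ℂ) := by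
    rw [e_Pv_d, e_Qv_d, e_c1v_d, e_h1v_d, e_iT_d]; rfl
  have e_dyv_re : v53 = -dyv.re := by
    rw [e_dyv_d, a_dyv]
    simp only [h53, h52, h51, h50, h3, e_Pv_v, e_iT_v, mul_re, mul_im, add_re, add_im, sub_re, sub_im, neg_re, neg_im, I_re, I_im, ofReal_re,
      ofReal_im, one_re, one_im, zero_re, zero_im, dt, normSq_apply, re_ofNat, im_ofNat, conj_re, conj_im]
    try ring
  have e_dyv_im : v62 = -dyv.im := by
    rw [e_dyv_d, a_dyv]
    simp only [h62, h61, h60, h59, h58, h57, h56, h55, h54, h3, h1, e_Qv_v, e_Pv_v, e_h1v_v, e_c1v_v, e_iT_v, mul_re, mul_im, add_re, add_im, sub_re, sub_im, neg_re, neg_im, I_re, I_im, ofReal_re,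
      ofReal_im, one_re, one_im, zero_re, zero_im, dt, normSq_apply, re_ofNat, im_ofNat, conj_re, conj_im]
    try ring
  obtain ⟨v63, h63, h⟩ := h
  change v63 = v2 * v6 at h63
  obtain ⟨Ks, e_Ks_d⟩ : ∃ q : ℝ, q = kp * Real.sinh m := ⟨_, rfl⟩
  have e_Ks_v : v63 = Ks := by
    rw [e_Ks_d]
    simp only [h63, h6, h2, mul_re, mul_im, add_re, add_im, sub_re, sub_im, neg_re, neg_im, I_re, I_im, ofReal_re,
      ofReal_im, one_re, one_im, zero_re, zero_im, dt, normSq_apply, re_ofNat, im_ofNat, conj_re, conj_im]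
    try ring
  obtain ⟨v64, h64, h⟩ := h
  change v64 = v2 * v5 at h64
  obtain ⟨Kc, e_Kc_d⟩ : ∃ q : ℝ, q = kp * Real.cosh m := ⟨_, rfl⟩
  have e_Kc_v : v64 = Kc := by
    rw [e_Kc_d]
    simp only [h64, h5, h2, mul_re, mul_im, add_re, add_im, sub_re, sub_im, neg_re, neg_im, I_re, I_im, ofReal_re,
      ofReal_im, one_re, one_im, zero_re, zero_im, dt, normSq_apply, re_ofNat, im_ofNat, conj_re, conj_im]
    try ring
  obtain ⟨v65, h65, h⟩ := h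
  change v65 = v44 * v63 at h65
  obtain ⟨v66, h66, h⟩ := h
  change v66 = v55 + v65 at h66
  obtain ⟨QP, e_QP_d⟩ : ∃ q : ℝ, q = nQ (shq (m1 - m)) (chq (m1 - m)) * (1 + Real.sqrt 2 / 2) + kp * Real.sinh m * nP (shq (m1 - m)) (chq (m1 - m)) := ⟨_, rfl⟩
  have a_QP : nQ (shq (m1 - m)) (chq (m1 - m)) * (1 + Real.sqrt 2 / 2) + kp * Real.sinh m * nP (shq (m1 - m)) (chq (m1 - m)) = Qv * c1v + Ks * Pv := by
    rw [e_Pv_d, e_Qv_d, e_c1v_d, e_Ks_d]
  have e_QP_v : v66 = QP := by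
    rw [e_QP_d, a_QP]
    simp only [h66, h65, h55, e_Ks_v, e_Pv_v, e_Qv_v, e_c1v_v, mul_re, mul_im, add_re, add_im, sub_re, sub_im, neg_re, neg_im, I_re, I_im, ofReal_re,
      ofReal_im, one_re, one_im, zero_re, zero_im, dt, normSq_apply, re_ofNat, im_ofNat, conj_re, conj_im]
    try ring
  obtain ⟨v67, h67, h⟩ := h
  replace h67 : v67 = (93 : ℝ) / 2 ^ 2 := by rw [h67]; norm_num [step, realAlg]
  obtain ⟨v68, h68, h⟩ := h
  change v68 = v0 * v67 at h68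
  obtain ⟨v69, h69, h⟩ := h
  replace h69 : v69 = (-15 : ℝ) := by rw [h69]; norm_num [step, realAlg]
  obtain ⟨v70, h70, h⟩ := h
  change v70 = v69 - v68 at h70
  obtain ⟨v71, h71, h⟩ := h
  change v71 = v47 * v70 at h71
  obtain ⟨v72, h72, h⟩ := h
  replace h72 : v72 = (12 : ℝ) := by rw [h72]; norm_num [step, realAlg]
  obtain ⟨v73, h73, h⟩ := h
  change v73 = v66 * v72 at h73
  obtain ⟨v74, h74, h⟩ := h
  change v74 = v71 + v73 at h74
  obtain ⟨v75, h75, h⟩ := h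
  replace h75 : v75 = (24 : ℝ) := by rw [h75]; norm_num [step, realAlg]
  obtain ⟨v76, h76, h⟩ := h
  change v76 = v0 * v75 at h76
  obtain ⟨v77, h77, h⟩ := h
  change v77 = v74 + v76 at h77
  obtain ⟨v78, h78, h⟩ := h
  change v78 = v13 * v44 at h78
  obtain ⟨v79, h79, h⟩ := h
  change v79 = v40 + v78 at h79
  exact pXB_c2 R m h0 h1 h2 h3 h4 h5 h6 h9 h10 h11 h12 e_U_d e_mm_d e_mm_v e_U2_d h19 h24 e_sg_d e_kg_d e_c1v_d e_c1v_v e_h1v_d e_h1v_v e_Pv_d e_Pv_v e_Qv_d e_Qv_v e_r1v_d e_r1v_v e_iT_d h51 h58 e_dyv_d e_dyv_re e_dyv_im e_Ks_d e_Ks_v e_Kc_d e_Kc_v e_QP_d e_QP_v h67 h68 h69 h70 h71 h72 h73 h74 h75 h76 h77 h78 h79 h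

theorem pXB_c0 (R m : ℝ)
    (h : TrE (realAlg (fun i => get 0 (l1n μB m) i) (m / m1) (0)) (pXB) [] (fun st => run (realAlg (fun i => get 0 (l1n μB m) i) (m / m1) (0)) pXB [] = st)) :
    pXB_goal R m := by
  have hm1 : m1 ≠ 0 := m1_ne
  obtain ⟨v0, h0, h⟩ := h
  change v0 = Real.sqrt 2 at h0
  obtain ⟨v1, h1, h⟩ := h
  change v1 = s3 at h1
  obtain ⟨v2, h2, h⟩ := h
  change v2 = kp at h2
  obtain ⟨v3, h3, h⟩ := h
  change v3 = m1 at h3
  obtain ⟨v4, h4, h⟩ := h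
  change v4 = 1 / oK at h4
  obtain ⟨v5, h5, h⟩ := h
  change v5 = Real.cosh m at h5
  obtain ⟨v6, h6, h⟩ := h
  change v6 = Real.sinh m at h6
  obtain ⟨v7, h7, h⟩ := h
  change v7 = 1 / oS m at h7
  obtain ⟨v8, h8, h⟩ := h
  change v8 = 1 / 6 at h8
  obtain ⟨v9, h9, h⟩ := h
  change v9 = 1 / 27 at h9
  obtain ⟨v10, h10, h⟩ := h
  change v10 = pj μB at h10
  obtain ⟨v11, h11, h⟩ := h
  change v11 = oc at h11
  obtain ⟨v12, h12, h⟩ := h
  change v12 = m / m1 at h12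
  obtain ⟨v13, h13, h⟩ := h
  change v13 = v3 * v12 at h13
  obtain ⟨v14, h14, h⟩ := h
  change v14 = v3 - v13 at h14
  obtain ⟨U, e_U_d⟩ : ∃ q : ℝ, q = m1 - m := ⟨_, rfl⟩
  have a_U : m1 - m = m1 - m1 * (m / m1) := by
    field_simp
  have e_U_v : v14 = U := by
    rw [e_U_d, a_U]
    simp only [h14, h13, h12, h3, mul_re, mul_im, add_re, add_im, sub_re, sub_im, neg_re, neg_im, I_re, I_im, ofReal_re,
      ofReal_im, one_re, one_im, zero_re, zero_im, dt, normSq_apply, re_ofNat, im_ofNat, conj_re, conj_im]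
    try ring
  obtain ⟨mm, e_mm_d⟩ : ∃ q : ℝ, q = m := ⟨_, rfl⟩
  have a_mm : m = m1 * (m / m1) := by
    field_simp
  have e_mm_v : v13 = mm := by
    rw [e_mm_d, a_mm]
    simp only [h13, h12, h3, mul_re, mul_im, add_re, add_im, sub_re, sub_im, neg_re, neg_im, I_re, I_im, ofReal_re,
      ofReal_im, one_re, one_im, zero_re, zero_im, dt, normSq_apply, re_ofNat, im_ofNat, conj_re, conj_im]
    try ring
  obtain ⟨v15, h15, h⟩ := h
  change v15 = v14 * v14 at h15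
  obtain ⟨U2, e_U2_d⟩ : ∃ q : ℝ, q = (m1 - m) ^ 2 := ⟨_, rfl⟩
  have a_U2 : (m1 - m) ^ 2 = U * U := by
    rw [e_U_d]; ring
  have e_U2_v : v15 = U2 := by
    rw [e_U2_d, a_U2]
    simp only [h15, e_U_v, mul_re, mul_im, add_re, add_im, sub_re, sub_im, neg_re, neg_im, I_re, I_im, ofReal_re,
      ofReal_im, one_re, one_im, zero_re, zero_im, dt, normSq_apply, re_ofNat, im_ofNat, conj_re, conj_im]
    try ring
  obtain ⟨v16, h16, h⟩ := h
  change v16 = shq (m1 - m) - shp (m1 - m) at h16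
  obtain ⟨v17, h17, h⟩ := h
  change v17 = 1 / 5 at h17
  obtain ⟨v18, h18, h⟩ := h
  change v18 = v8 * v17 at h18
  obtain ⟨v19, h19, h⟩ := h
  replace h19 : v19 = (1 : ℝ) / 2 ^ 2 := by rw [h19]; norm_num [step, realAlg]
  obtain ⟨v20, h20, h⟩ := h
  change v20 = v18 * v19 at h20
  obtain ⟨v21, h21, h⟩ := h
  change v21 = v15 * v20 at h21
  obtain ⟨v22, h22, h⟩ := h
  change v22 = v8 + v21 at h22
  obtain ⟨v23, h23, h⟩ := h
  change v23 = v15 * v22 at h23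
  obtain ⟨v24, h24, h⟩ := h
  replace h24 : v24 = (1 : ℝ) := by rw [h24]; norm_num [step, realAlg]
  obtain ⟨v25, h25, h⟩ := h
  change v25 = v23 + v24 at h25
  obtain ⟨v26, h26, h⟩ := h
  change v26 = v16 + v25 at h26
  obtain ⟨sg, e_sg_d⟩ : ∃ q : ℝ, q = shq (m1 - m) := ⟨_, rfl⟩
  have a_sg : shq (m1 - m) = (shq (m1 - m) - shp (m1 - m)) + (1 + U2 * (1 / 6 + U2 * (1 / 6 * (1 / 5) * (1 / 4)))) := by
    rw [e_U2_d, shp]; ring
  have e_sg_v : v26 = sg := by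
    rw [e_sg_d, a_sg]
    simp only [h26, h25, h24, h23, h22, h21, h20, h19, h18, h17, h16, h8, e_U2_v, mul_re, mul_im, add_re, add_im, sub_re, sub_im, neg_re, neg_im, I_re, I_im, ofReal_re,
      ofReal_im, one_re, one_im, zero_re, zero_im, dt, normSq_apply, re_ofNat, im_ofNat, conj_re, conj_im]
    try ring
  obtain ⟨v27, h27, h⟩ := h
  change v27 = chq (m1 - m) - chp (m1 - m) at h27
  obtain ⟨v28, h28, h⟩ := h
  change v28 = v8 * v19 at h28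
  obtain ⟨v29, h29, h⟩ := h
  change v29 = v8 * v8 at h29
  obtain ⟨v30, h30, h⟩ := h
  change v30 = v17 * v29 at h30
  obtain ⟨v31, h31, h⟩ := h
  change v31 = v19 * v30 at h31
  obtain ⟨v32, h32, h⟩ := h
  change v32 = v15 * v31 at h32
  obtain ⟨v33, h33, h⟩ := h
  change v33 = v28 + v32 at h33
  obtain ⟨v34, h34, h⟩ := h
  change v34 = v15 * v33 at h34
  obtain ⟨v35, h35, h⟩ := h
  replace h35 : v35 = (1 : ℝ) / 2 ^ 1 := by rw [h35]; norm_num [step, realAlg]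
  obtain ⟨v36, h36, h⟩ := h
  change v36 = v34 + v35 at h36
  obtain ⟨v37, h37, h⟩ := h
  change v37 = v14 * v36 at h37
  obtain ⟨v38, h38, h⟩ := h
  change v38 = v27 + v37 at h38
  obtain ⟨kg, e_kg_d⟩ : ∃ q : ℝ, q = chq (m1 - m) := ⟨_, rfl⟩
  have a_kg : chq (m1 - m) = (chq (m1 - m) - chp (m1 - m)) + U * (1 / 2 + U2 * (1 / 6 * (1 / 4) + U2 * (1 / 6 * (1 / 6) * (1 / 5) * (1 / 4)))) := by
    rw [e_U2_d, e_U_d, chp]; ring
  have e_kg_v : v38 = kg := by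
    rw [e_kg_d, a_kg]
    simp only [h38, h37, h36, h35, h34, h33, h32, h31, h30, h29, h28, h27, h19, h17, h8, e_U2_v, e_U_v, mul_re, mul_im, add_re, add_im, sub_re, sub_im, neg_re, neg_im, I_re, I_im, ofReal_re,
      ofReal_im, one_re, one_im, zero_re, zero_im, dt, normSq_apply, re_ofNat, im_ofNat, conj_re, conj_im]
    try ring
  obtain ⟨v39, h39, h⟩ := h
  change v39 = v0 * v35 at h39
  exact pXB_c1 R m h0 h1 h2 h3 h4 h5 h6 h7 h9 h10 h11 h12 e_U_d e_mm_d e_mm_v e_U2_d h19 h24 e_sg_d e_sg_v h35 e_kg_d e_kg_v h39 h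

theorem pXB_val (R m : ℝ) :
    OutEq (run (realAlg (fun i => get 0 (l1n μB m) i) (m / m1) (0)) pXB []) pXB_out
      (dB.nd R m (shq (m1 - m)) (chq (m1 - m))).xl :=
  pXB_c0 R m (trE_runst (realAlg (fun i => get 0 (l1n μB m) i) (m / m1) (0)) pXB)

end Pool.H61.Rh
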