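import Pool.Agent.H89.Nz.W7
import Pool.Agent.H89.Nz.PXB
import Pool.Agent.H61.Rz.Tq
import Pool.Agent.H61.Rz.SyB

/-! # generated: the near zone of the vertex `2` for `dB` -/

set_option autoImplicit false
set_option maxRecDepth 1000000
set_option linter.all false

namespace Pool.H61.Rh

open Complex Pool.H47.Kc Pool.H47.K3

def nxB_0 : List Sym :=
  [⟨[⟨.ofNat 174886129233307, 47⟩], 2797⟩,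
   ⟨[⟨.negSucc 713818801250, 45⟩, ⟨.ofNat 557846863557, 47⟩, ⟨.ofNat 69730857939, 44⟩, ⟨.negSucc 17387179976, 48⟩, ⟨.negSucc 4346796324, 46⟩, ⟨.negSucc 550999468, 48⟩, ⟨.negSucc 551032068, 48⟩, ⟨.ofNat 20724785, 48⟩, ⟨.ofNat 10349393, 47⟩], 17069398906⟩,
   ⟨[⟨.ofNat 4074421299751, 48⟩, ⟨.ofNat 4074421299387, 48⟩, ⟨.negSucc 40860681232, 46⟩, ⟨.negSucc 163442791808, 48⟩, ⟨.negSucc 1673849024, 48⟩, ⟨.negSucc 1674537552, 48⟩, ⟨.ofNat 41280381, 46⟩, ⟨.ofNat 164372555, 48⟩], 10405077284⟩,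
   ⟨[⟨.negSucc 3746053229902, 48⟩, ⟨.negSucc 468256654756, 45⟩, ⟨.ofNat 35340030853, 47⟩, ⟨.ofNat 70678561085, 48⟩, ⟨.negSucc 1314140546, 48⟩, ⟨.negSucc 664865092, 47⟩, ⟨.ofNat 36060547, 48⟩, ⟨.ofNat 9391027, 47⟩], 1757745347⟩,
   ⟨[⟨.negSucc 29573590504968, 47⟩, ⟨.ofNat 482815132763, 47⟩, ⟨.ofNat 965630676289, 48⟩, ⟨.negSucc 8960851024, 47⟩, ⟨.negSucc 17905940156, 48⟩, ⟨.ofNat 306619101, 48⟩, ⟨.ofNat 367635673, 48⟩, ⟨.negSucc 28153846, 48⟩], 5809458435⟩,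
   ⟨[⟨.ofNat 4595496082819, 48⟩], 2760⟩,
   ⟨[⟨.negSucc 2653210900474, 48⟩], 3771⟩,
   ⟨[⟨.negSucc 4595496082818, 48⟩], 2761⟩,
   ⟨[⟨.ofNat 23014720493, 46⟩], 2304⟩,
   ⟨[⟨.negSucc 4436, 16⟩], 1017⟩,
   ⟨[⟨.ofNat 30686293991, 48⟩], 2014⟩,
   ⟨[⟨.negSucc 4436, 17⟩], 1017⟩,
   ⟨[⟨.ofNat 30686293991, 47⟩], 3027⟩,
   ⟨[⟨.ofNat 2235, 16⟩], 1017⟩,
   ⟨[⟨.negSucc 38132369722008, 48⟩], 2712⟩,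
   ⟨[⟨.negSucc 82014, 20⟩], 1017⟩]

def nxB_1 : List Sym :=
  [⟨[⟨.ofNat 246045, 20⟩], 1017⟩,
   ⟨[⟨.ofNat 38132369722009, 48⟩], 2711⟩,
   ⟨[⟨.negSucc 13351792492920, 48⟩], 1314⟩,
   ⟨[⟨.negSucc 1166, 14⟩], 1017⟩,
   ⟨[⟨.ofNat 22270345391873, 48⟩], 2366⟩,
   ⟨[⟨.ofNat 48863, 20⟩], 1017⟩,
   ⟨[⟨.negSucc 17811068942396, 47⟩], 2647⟩,
   ⟨[⟨.negSucc 29680, 20⟩], 1017⟩,
   ⟨[⟨.negSucc 4595496082818, 48⟩, ⟨.ofNat 9528568142203, 48⟩, ⟨.ofNat 9528568142203, 48⟩, ⟨.negSucc 923369568590, 48⟩, ⟨.negSucc 923369568590, 48⟩], 8950⟩,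
   ⟨[⟨.negSucc 10229543503876, 48⟩, ⟨.negSucc 10229543503876, 48⟩, ⟨.negSucc 1802817669124, 48⟩, ⟨.negSucc 1802817669124, 48⟩], 12134⟩,
   ⟨[⟨.ofNat 4595496082819, 48⟩, ⟨.ofNat 5174816117857, 48⟩, ⟨.ofNat 5174816117857, 48⟩, ⟨.ofNat 586750222389, 48⟩, ⟨.ofNat 586750222389, 48⟩], 8933⟩,
   ⟨[⟨.negSucc 23014720492, 46⟩, ⟨.ofNat 1099127257487, 48⟩, ⟨.ofNat 1099127257487, 48⟩, ⟨.negSucc 3047706925900, 48⟩, ⟨.negSucc 3047706925900, 48⟩], 4145⟩,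
   ⟨[⟨.ofNat 3, 7⟩, ⟨.ofNat 3, 7⟩, ⟨.ofNat 4581, 18⟩, ⟨.ofNat 4581, 18⟩], 1481⟩,
   ⟨[⟨.negSucc 30686293990, 48⟩, ⟨.negSucc 7312636846768, 48⟩, ⟨.negSucc 7312636846768, 48⟩, ⟨.ofNat 17551630275, 46⟩, ⟨.ofNat 17551630275, 46⟩], 3991⟩,
   ⟨[⟨.ofNat 3, 8⟩, ⟨.ofNat 3, 8⟩, ⟨.ofNat 4581, 19⟩, ⟨.ofNat 4581, 19⟩], 1265⟩,
   ⟨[⟨.negSucc 30686293990, 47⟩, ⟨.negSucc 7312636846768, 47⟩, ⟨.negSucc 7312636846768, 47⟩, ⟨.ofNat 17551630275, 45⟩, ⟨.ofNat 17551630275, 45⟩], 6920⟩]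

def nxB_2 : List Sym :=
  [⟨[⟨.ofNat 2217, 16⟩, ⟨.ofNat 2217, 16⟩, ⟨.ofNat 6915, 19⟩, ⟨.ofNat 6915, 19⟩], 1358⟩,
   ⟨[⟨.ofNat 38132369722009, 48⟩, ⟨.ofNat 5978015530095, 47⟩, ⟨.ofNat 5978015530095, 47⟩, ⟨.negSucc 7032740650064, 48⟩, ⟨.negSucc 7032740650064, 48⟩], 8332⟩,
   ⟨[⟨.negSucc 12190, 18⟩, ⟨.negSucc 12190, 18⟩, ⟨.ofNat 9123, 19⟩, ⟨.ofNat 9123, 19⟩], 1157⟩,
   ⟨[⟨.ofNat 32223, 18⟩, ⟨.ofNat 32223, 18⟩, ⟨.negSucc 6, 17⟩, ⟨.negSucc 6, 17⟩], 1156⟩,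
   ⟨[⟨.negSucc 38132369722008, 48⟩, ⟨.negSucc 2829415789102, 47⟩, ⟨.negSucc 2829415789102, 47⟩, ⟨.negSucc 1662174257832, 46⟩, ⟨.negSucc 1662174257832, 46⟩], 5396⟩,
   ⟨[⟨.ofNat 13351792492921, 48⟩, ⟨.ofNat 381486427567, 47⟩, ⟨.ofNat 381486427567, 47⟩, ⟨.negSucc 1303702550758, 48⟩, ⟨.negSucc 1303702550758, 48⟩], 2660⟩,
   ⟨[⟨.ofNat 50333, 19⟩, ⟨.ofNat 50333, 19⟩, ⟨.negSucc 3236, 18⟩, ⟨.negSucc 3236, 18⟩], 1265⟩,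
   ⟨[⟨.negSucc 22270345391872, 48⟩, ⟨.negSucc 11601743847750, 48⟩, ⟨.negSucc 11601743847750, 48⟩, ⟨.ofNat 6127030033489, 48⟩, ⟨.ofNat 6127030033489, 48⟩], 5540⟩,
   ⟨[⟨.negSucc 12994, 20⟩, ⟨.negSucc 12994, 20⟩, ⟨.negSucc 33020, 20⟩, ⟨.negSucc 33020, 20⟩], 1202⟩,
   ⟨[⟨.ofNat 17811068942397, 47⟩, ⟨.ofNat 23674010870027, 48⟩, ⟨.ofNat 23674010870027, 48⟩, ⟨.negSucc 2764556122258, 48⟩, ⟨.negSucc 2764556122258, 48⟩], 3511⟩,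
   ⟨[⟨.negSucc 143380, 20⟩, ⟨.negSucc 143380, 20⟩, ⟨.negSucc 31672, 20⟩, ⟨.negSucc 31672, 20⟩], 1202⟩]

/-- enclosures of the additional symbols on `[0, 1]` -/
def nxB : List Sym := nxB_0 ++ (nxB_1 ++ (nxB_2))

/-- enclosures of all symbols on `[3/4, 1]` -/
def nzB_0 : List Sym :=
  [⟨[⟨.negSucc 72505118, 29⟩, ⟨.ofNat 1404647, 30⟩, ⟨.ofNat 6669657, 29⟩], 488791693276⟩,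
   ⟨[⟨.negSucc 65144, 29⟩, ⟨.ofNat 229879415, 30⟩, ⟨.negSucc 876736, 30⟩, ⟨.negSucc 101368, 25⟩], 10488503692⟩,
   ⟨[⟨.ofNat 1363762299, 30⟩, ⟨.negSucc 1404646, 29⟩, ⟨.negSucc 26678626, 30⟩], 977395514672⟩,
   ⟨[⟨.negSucc 976190230, 30⟩, ⟨.ofNat 779211, 28⟩, ⟨.ofNat 29599289, 30⟩], 1083836463952⟩,
   ⟨[⟨.ofNat 526828263, 29⟩, ⟨.ofNat 183967, 26⟩, ⟨.negSucc 25148734, 29⟩, ⟨.ofNat 4223251, 30⟩], 33199606209⟩,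
   ⟨[⟨.negSucc 4116144, 27⟩, ⟨.ofNat 19269, 26⟩, ⟨.ofNat 9044377, 29⟩], 125740567374⟩,
   ⟨[⟨.negSucc 348170, 28⟩, ⟨.ofNat 31991397, 30⟩, ⟨.negSucc 2713552, 29⟩], 1158778157569⟩,
   ⟨[⟨.negSucc 215666, 29⟩, ⟨.ofNat 63626021, 30⟩, ⟨.negSucc 1458694, 29⟩, ⟨.negSucc 5530648, 30⟩], 30531098503⟩,
   ⟨[⟨.ofNat 526084877, 29⟩, ⟨.ofNat 9967483, 30⟩, ⟨.negSucc 160780158, 30⟩, ⟨.ofNat 14344607, 30⟩], 111088856449⟩,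
   ⟨[⟨.ofNat 2446520867, 30⟩, ⟨.ofNat 14028497, 30⟩, ⟨.negSucc 206910930, 30⟩, ⟨.ofNat 20277111, 30⟩], 154772695363⟩,
   ⟨[⟨.ofNat 3169701, 30⟩, ⟨.negSucc 1494701490, 30⟩, ⟨.ofNat 21416817, 30⟩, ⟨.ofNat 48313195, 30⟩], 224733581570⟩,
   ⟨[⟨.negSucc 1053892, 30⟩, ⟨.ofNat 228840963, 30⟩, ⟨.negSucc 7165218, 30⟩, ⟨.negSucc 9662656, 30⟩], 73816734649⟩,
   ⟨[⟨.ofNat 1763252523, 30⟩, ⟨.ofNat 6109953, 29⟩, ⟨.negSucc 75639040, 29⟩, ⟨.ofNat 18277573, 30⟩], 127876357580⟩,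
   ⟨[⟨.negSucc 453902, 29⟩, ⟨.ofNat 114560889, 29⟩, ⟨.negSucc 3079686, 29⟩, ⟨.negSucc 9709836, 30⟩], 64308495760⟩,
   ⟨[⟨.ofNat 1770774511, 30⟩, ⟨.ofNat 5484845, 29⟩, ⟨.negSucc 36171472, 28⟩, ⟨.ofNat 16201189, 30⟩], 117843591817⟩,
   ⟨[⟨.ofNat 538852787, 29⟩, ⟨.ofNat 702035, 29⟩, ⟨.ofNat 842431, 29⟩], 508440842644⟩]

def nzB_1 : List Sym :=
  [⟨[⟨.ofNat 535753897, 29⟩, ⟨.ofNat 1124417, 29⟩, ⟨.negSucc 604106, 30⟩], 805037166414⟩,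
   ⟨[⟨.negSucc 119458, 29⟩, ⟨.ofNat 53781, 25⟩, ⟨.negSucc 1141422, 30⟩], 144307812655⟩,
   ⟨[⟨.ofNat 524031, 19⟩, ⟨.ofNat 35361, 29⟩, ⟨.negSucc 527614, 30⟩], 38324978194⟩,
   ⟨[⟨.ofNat 267011439, 28⟩, ⟨.ofNat 2463425, 30⟩, ⟨.ofNat 1679347, 30⟩], 853123652896⟩,
   ⟨[⟨.negSucc 562548, 30⟩, ⟨.ofNat 6547105, 30⟩, ⟨.negSucc 652702, 28⟩], 359960157046⟩,
   ⟨[⟨.negSucc 240018, 30⟩, ⟨.ofNat 4429055, 29⟩, ⟨.negSucc 100760, 26⟩, ⟨.negSucc 3632480, 30⟩], 18314474188⟩,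
   ⟨[⟨.ofNat 67116003, 26⟩, ⟨.ofNat 113195, 26⟩, ⟨.negSucc 4934390, 29⟩, ⟨.ofNat 2494013, 30⟩], 21832748506⟩,
   ⟨[⟨.negSucc 221646416, 29⟩, ⟨.negSucc 6010808, 30⟩, ⟨.ofNat 7885911, 29⟩, ⟨.negSucc 9304654, 30⟩], 58694056037⟩,
   ⟨[⟨.negSucc 59022, 30⟩, ⟨.ofNat 25543, 30⟩, ⟨.negSucc 1360142, 30⟩], 343344190060⟩,
   ⟨[⟨.ofNat 336209, 28⟩, ⟨.negSucc 4877224, 29⟩, ⟨.ofNat 3507901, 29⟩], 695558632980⟩,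
   ⟨[⟨.negSucc 222671176, 29⟩, ⟨.negSucc 871936, 27⟩, ⟨.ofNat 10984633, 29⟩, ⟨.negSucc 10879032, 30⟩], 67566053817⟩,
   ⟨[⟨.ofNat 284239, 30⟩, ⟨.negSucc 256822438, 30⟩, ⟨.ofNat 1915343, 30⟩, ⟨.ofNat 5368887, 30⟩], 21153095329⟩,
   ⟨[⟨.negSucc 88754674, 29⟩, ⟨.ofNat 1195217, 29⟩, ⟨.ofNat 31212811, 30⟩], 815877980607⟩,
   ⟨[⟨.negSucc 144636, 30⟩, ⟨.ofNat 13331279, 29⟩, ⟨.negSucc 946498, 30⟩, ⟨.negSucc 946852, 28⟩], 11994006410⟩,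
   ⟨[⟨.ofNat 27741913, 30⟩, ⟨.ofNat 867829, 29⟩, ⟨.negSucc 9568286, 29⟩, ⟨.ofNat 279499, 27⟩], 23260962820⟩,
   ⟨[⟨.ofNat 197767415, 30⟩, ⟨.ofNat 6393283, 29⟩, ⟨.negSucc 126915742, 30⟩, ⟨.ofNat 17202987, 30⟩], 155250102452⟩]

def nzB_2 : List Sym :=
  [⟨[⟨.ofNat 418761, 29⟩, ⟨.negSucc 252544322, 30⟩, ⟨.ofNat 1337991, 28⟩, ⟨.ofNat 1377375, 26⟩], 69631632578⟩,
   ⟨[⟨.negSucc 7079524, 30⟩, ⟨.ofNat 42277617, 29⟩, ⟨.negSucc 47098010, 30⟩, ⟨.negSucc 12847754, 30⟩], 525016321085⟩,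
   ⟨[⟨.negSucc 53093036, 30⟩, ⟨.ofNat 4560177, 28⟩, ⟨.ofNat 330355, 29⟩, ⟨.ofNat 24070213, 30⟩], 227870175997⟩,
   ⟨[⟨.ofNat 2249323, 29⟩, ⟨.negSucc 17283098, 30⟩, ⟨.ofNat 14964089, 29⟩, ⟨.negSucc 8668460, 28⟩], 333623194013⟩,
   ⟨[⟨.ofNat 90809, 24⟩, ⟨.negSucc 1813142, 26⟩, ⟨.ofNat 77289585, 30⟩, ⟨.negSucc 104604014, 30⟩, ⟨.ofNat 50864097, 30⟩], 24493735993⟩,
   ⟨[⟨.negSucc 36754898, 30⟩, ⟨.negSucc 3110498, 26⟩, ⟨.ofNat 1242201, 24⟩, ⟨.negSucc 32066, 19⟩], 621407771770⟩,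
   ⟨[⟨.ofNat 538277, 30⟩, ⟨.negSucc 30110838, 30⟩, ⟨.ofNat 3581001, 30⟩, ⟨.ofNat 26108657, 30⟩], 40211727408⟩,
   ⟨[⟨.negSucc 9188724, 29⟩, ⟨.negSucc 3110498, 27⟩, ⟨.ofNat 1242201, 25⟩, ⟨.negSucc 32066, 20⟩], 310840028617⟩,
   ⟨[⟨.ofNat 1076555, 30⟩, ⟨.negSucc 60221678, 30⟩, ⟨.ofNat 3581001, 29⟩, ⟨.ofNat 52217313, 30⟩], 80208326964⟩,
   ⟨[⟨.ofNat 10134255, 27⟩, ⟨.negSucc 4695284, 27⟩, ⟨.ofNat 1333551, 25⟩, ⟨.negSucc 48404, 20⟩], 468902878238⟩,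
   ⟨[⟨.ofNat 101884787, 29⟩, ⟨.ofNat 10272603, 29⟩, ⟨.negSucc 510360586, 30⟩, ⟨.ofNat 46445921, 30⟩, ⟨.ofNat 58645985, 30⟩], 17894938402⟩,
   ⟨[⟨.ofNat 4236157, 29⟩, ⟨.ofNat 229032139, 29⟩, ⟨.ofNat 57456987, 30⟩, ⟨.ofNat 166397759, 30⟩], 592571608302⟩,
   ⟨[⟨.ofNat 6710499, 28⟩, ⟨.negSucc 43133426, 29⟩, ⟨.negSucc 12315914, 28⟩, ⟨.negSucc 122523600, 30⟩], 977183362536⟩,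
   ⟨[⟨.ofNat 1206271, 28⟩, ⟨.ofNat 38221371, 30⟩, ⟨.negSucc 102772700, 29⟩, ⟨.ofNat 86520573, 30⟩, ⟨.ofNat 57063593, 29⟩], 32836310893⟩,
   ⟨[⟨.negSucc 6192110, 29⟩, ⟨.ofNat 597893, 27⟩, ⟨.negSucc 83948624, 30⟩, ⟨.negSucc 119414618, 29⟩], 867502966396⟩,
   ⟨[⟨.negSucc 201860814, 30⟩, ⟨.negSucc 14237108, 28⟩, ⟨.ofNat 757500295, 30⟩, ⟨.negSucc 41127592, 29⟩], 628002075047⟩]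

def nzB_3 : List Sym :=
  [⟨[⟨.negSucc 3056948, 29⟩, ⟨.negSucc 87068152, 30⟩, ⟨.negSucc 41449154, 30⟩, ⟨.negSucc 118489672, 30⟩], 428771939561⟩,
   ⟨[⟨.ofNat 3352743, 28⟩, ⟨.negSucc 11080192, 26⟩, ⟨.ofNat 1393357, 23⟩, ⟨.negSucc 34664074, 27⟩, ⟨.ofNat 58685761, 29⟩], 55840624990⟩,
   ⟨[⟨.negSucc 61594238, 29⟩, ⟨.negSucc 6194516, 27⟩, ⟨.ofNat 4817359, 25⟩, ⟨.negSucc 63860, 20⟩], 618561013526⟩,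
   ⟨[⟨.ofNat 192017393, 29⟩, ⟨.negSucc 38268, 27⟩, ⟨.negSucc 4118082, 25⟩], 110618048427⟩,
   ⟨[⟨.ofNat 6339313, 29⟩, ⟨.ofNat 50676637, 30⟩, ⟨.ofNat 168610383, 30⟩, ⟨.negSucc 197464350, 30⟩, ⟨.ofNat 110962103, 30⟩], 52609639052⟩,
   ⟨[⟨.negSucc 9995558, 30⟩, ⟨.negSucc 1177724, 28⟩, ⟨.negSucc 16624382, 28⟩, ⟨.ofNat 15135131, 29⟩], 740981117888⟩,
   ⟨[⟨.ofNat 18987643, 30⟩, ⟨.ofNat 2197923, 26⟩, ⟨.negSucc 2766264, 24⟩, ⟨.ofNat 22659, 19⟩], 439215258917⟩,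
   ⟨[⟨.negSucc 11683840, 30⟩, ⟨.ofNat 54077087, 29⟩, ⟨.negSucc 155380952, 30⟩, ⟨.ofNat 15382571, 26⟩, ⟨.negSucc 51127922, 29⟩], 48619379401⟩,
   ⟨[⟨.ofNat 4327863, 28⟩, ⟨.ofNat 22421259, 28⟩, ⟨.negSucc 10956816, 26⟩, ⟨.ofNat 231147, 21⟩], 1119183743757⟩,
   ⟨[⟨.ofNat 2635913, 29⟩, ⟨.negSucc 19003846, 28⟩, ⟨.ofNat 70108905, 30⟩, ⟨.negSucc 181391542, 30⟩, ⟨.ofNat 11534627, 28⟩], 21996364377⟩,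
   ⟨[⟨.negSucc 97920100, 29⟩, ⟨.ofNat 21505967, 28⟩, ⟨.negSucc 2130876, 26⟩, ⟨.ofNat 221711, 21⟩], 1073635615582⟩,
   ⟨[⟨.negSucc 817402388, 30⟩, ⟨.ofNat 270900167, 30⟩, ⟨.negSucc 280789828, 27⟩, ⟨.ofNat 306552935, 29⟩, ⟨.ofNat 803251127, 30⟩], 230994925414⟩,
   ⟨[⟨.ofNat 314239, 26⟩, ⟨.ofNat 513463651, 29⟩, ⟨.ofNat 71494727, 30⟩, ⟨.negSucc 343899978, 29⟩, ⟨.ofNat 6799473, 27⟩], 19049538847⟩,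
   ⟨[⟨.ofNat 344997, 27⟩, ⟨.negSucc 1022803016, 29⟩, ⟨.ofNat 9297063, 29⟩, ⟨.ofNat 39888559, 30⟩], 197113217042⟩,
   ⟨[⟨.ofNat 455058561, 29⟩, ⟨.ofNat 3824593, 24⟩, ⟨.negSucc 644650806, 30⟩, ⟨.ofNat 554191999, 30⟩, ⟨.ofNat 367861785, 29⟩], 208888057164⟩,
   ⟨[⟨.negSucc 94649356, 28⟩, ⟨.ofNat 1537159, 25⟩, ⟨.negSucc 140314428, 29⟩, ⟨.ofNat 111345065, 30⟩, ⟨.ofNat 73334809, 29⟩], 43041680353⟩]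

def nzB_4 : List Sym :=
  [⟨[⟨.negSucc 3766, 20⟩, ⟨.negSucc 884434242, 29⟩, ⟨.negSucc 6843568, 27⟩, ⟨.ofNat 517922385, 30⟩, ⟨.negSucc 20750998, 29⟩], 14026193600⟩,
   ⟨[⟨.ofNat 44471965, 27⟩, ⟨.negSucc 236878786, 30⟩, ⟨.ofNat 2071955737, 30⟩, ⟨.negSucc 536091738, 30⟩, ⟨.negSucc 701721846, 30⟩], 202060497522⟩,
   ⟨[⟨.negSucc 4327756, 29⟩, ⟨.negSucc 132195164, 29⟩, ⟨.negSucc 123237788, 30⟩, ⟨.ofNat 1199031131, 30⟩, ⟨.negSucc 93997794, 30⟩], 31015047344⟩,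
   ⟨[⟨.negSucc 186178312, 29⟩, ⟨.ofNat 59727565, 29⟩, ⟨.negSucc 1291075102, 29⟩, ⟨.ofNat 270106851, 30⟩, ⟨.ofNat 343245261, 30⟩], 102229800112⟩,
   ⟨[⟨.negSucc 1932120, 28⟩, ⟨.ofNat 903830369, 29⟩, ⟨.negSucc 55126704, 29⟩, ⟨.ofNat 1090957509, 30⟩, ⟨.negSucc 21102960, 28⟩], 28363096339⟩,
   ⟨[⟨.ofNat 30906445, 27⟩, ⟨.ofNat 10376793, 29⟩, ⟨.negSucc 172972746, 30⟩, ⟨.ofNat 7041257, 28⟩], 248442152532⟩,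
   ⟨[⟨.ofNat 2429955, 30⟩, ⟨.negSucc 262252250, 30⟩, ⟨.ofNat 3997303, 28⟩, ⟨.ofNat 30448663, 30⟩], 186030645729⟩,
   ⟨[⟨.negSucc 16474238, 29⟩, ⟨.ofNat 80749, 28⟩, ⟨.ofNat 4522013, 28⟩], 124416539935⟩,
   ⟨[⟨.negSucc 1388554, 30⟩, ⟨.ofNat 7998595, 28⟩, ⟨.negSucc 2712498, 29⟩], 1150594420963⟩,
   ⟨[⟨.ofNat 1074432565, 30⟩, ⟨.negSucc 580668, 30⟩, ⟨.ofNat 283313, 30⟩], 211184278538⟩,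
   ⟨[⟨.ofNat 89003813, 29⟩, ⟨.ofNat 410571, 30⟩, ⟨.ofNat 279891, 30⟩], 142188803408⟩,
   ⟨[⟨.negSucc 46878, 29⟩, ⟨.ofNat 68199, 26⟩, ⟨.negSucc 435134, 30⟩], 60329265349⟩,
   ⟨[⟨.negSucc 439626, 30⟩, ⟨.ofNat 2860397, 30⟩, ⟨.negSucc 929118, 29⟩], 326396789372⟩,
   ⟨[⟨.ofNat 22406237, 27⟩, ⟨.negSucc 323642, 29⟩, ⟨.negSucc 554082, 30⟩], 227259688933⟩,
   ⟨[⟨.ofNat 1859775393, 30⟩], 412922762⟩,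
   ⟨[⟨.ofNat 513785463, 29⟩], 469660551⟩]

def nzB_5 : List Sym :=
  [⟨[⟨.ofNat 529354719, 30⟩], 252764720⟩,
   ⟨[⟨.ofNat 1, 0⟩, ⟨.negSucc 0, 0⟩], 1000⟩,
   ⟨[⟨.ofNat 667137639, 29⟩], 38965747⟩,
   ⟨[⟨.ofNat 5, 0⟩], 1000⟩,
   ⟨[⟨.negSucc 21957332, 30⟩, ⟨.ofNat 4803443, 30⟩, ⟨.ofNat 3745409, 30⟩], 203758482402⟩,
   ⟨[⟨.ofNat 15107425, 30⟩, ⟨.ofNat 17039897, 30⟩, ⟨.negSucc 1160054, 29⟩], 368273138592⟩,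
   ⟨[⟨.negSucc 7067628, 29⟩, ⟨.negSucc 14837658, 30⟩, ⟨.ofNat 922059, 30⟩], 118330625955⟩,
   ⟨[⟨.negSucc 112891400, 29⟩, ⟨.ofNat 261159, 26⟩, ⟨.ofNat 1604389, 29⟩], 158605808975⟩,
   ⟨[⟨.ofNat 8765213, 29⟩], 370158316⟩,
   ⟨[⟨.negSucc 2530298, 28⟩], 398191379⟩,
   ⟨[⟨.negSucc 8765212, 29⟩], 370158317⟩,
   ⟨[⟨.ofNat 351177, 30⟩], 254492591⟩,
   ⟨[⟨.negSucc 4436, 16⟩], 2060⟩,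
   ⟨[⟨.ofNat 117059, 30⟩], 84831432⟩,
   ⟨[⟨.negSucc 4436, 17⟩], 2060⟩,
   ⟨[⟨.ofNat 117059, 29⟩], 169660820⟩]

def nzB_6 : List Sym :=
  [⟨[⟨.ofNat 2235, 16⟩], 2060⟩,
   ⟨[⟨.negSucc 145463446, 30⟩], 531019821⟩,
   ⟨[⟨.negSucc 82014, 20⟩], 2060⟩,
   ⟨[⟨.ofNat 246045, 20⟩], 2060⟩,
   ⟨[⟨.ofNat 145463447, 30⟩], 531019820⟩,
   ⟨[⟨.negSucc 25466522, 29⟩], 340461757⟩,
   ⟨[⟨.negSucc 1166, 14⟩], 2060⟩,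
   ⟨[⟨.ofNat 42477313, 29⟩], 356903099⟩,
   ⟨[⟨.ofNat 48863, 20⟩], 2060⟩,
   ⟨[⟨.negSucc 16985958, 27⟩], 16443985⟩,
   ⟨[⟨.negSucc 29680, 20⟩], 2060⟩,
   ⟨[⟨.negSucc 15507704, 30⟩, ⟨.ofNat 27006053, 30⟩, ⟨.ofNat 26237239, 29⟩, ⟨.negSucc 15850688, 30⟩], 117561338736⟩,
   ⟨[⟨.negSucc 9755652, 28⟩, ⟨.negSucc 9755652, 28⟩, ⟨.negSucc 1719300, 28⟩, ⟨.negSucc 1719300, 28⟩], 1592759527⟩,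
   ⟨[⟨.ofNat 16245099, 30⟩, ⟨.ofNat 12838515, 29⟩, ⟨.ofNat 9493257, 30⟩, ⟨.ofNat 10072235, 30⟩], 74335111349⟩,
   ⟨[⟨.ofNat 6325091, 30⟩, ⟨.negSucc 26643520, 30⟩, ⟨.ofNat 28709241, 29⟩, ⟨.negSucc 52317356, 30⟩], 384955122656⟩,
   ⟨[⟨.ofNat 3, 7⟩, ⟨.ofNat 3, 7⟩, ⟨.ofNat 4581, 18⟩, ⟨.ofNat 4581, 18⟩], 2620⟩]

def nzB_7 : List Sym :=
  [⟨[⟨.ofNat 261685, 29⟩, ⟨.negSucc 3742166, 27⟩, ⟨.negSucc 1622440, 26⟩], 655959806363⟩,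
   ⟨[⟨.ofNat 3, 8⟩, ⟨.ofNat 3, 8⟩, ⟨.ofNat 4581, 19⟩, ⟨.ofNat 4581, 19⟩], 2401⟩,
   ⟨[⟨.negSucc 541704, 30⟩, ⟨.negSucc 13592576, 28⟩, ⟨.negSucc 14560796, 28⟩, ⟨.ofNat 1205175, 29⟩], 17958873290⟩,
   ⟨[⟨.ofNat 2217, 16⟩, ⟨.ofNat 2217, 16⟩, ⟨.ofNat 6915, 19⟩, ⟨.ofNat 6915, 19⟩], 2495⟩,
   ⟨[⟨.ofNat 80434639, 29⟩, ⟨.negSucc 12773922, 29⟩, ⟨.ofNat 168429553, 30⟩, ⟨.negSucc 60362496, 29⟩], 888794610821⟩,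
   ⟨[⟨.negSucc 12190, 18⟩, ⟨.negSucc 12190, 18⟩, ⟨.ofNat 9123, 19⟩, ⟨.ofNat 9123, 19⟩], 2292⟩,
   ⟨[⟨.ofNat 32986895, 28⟩, ⟨.ofNat 4128639, 25⟩, ⟨.negSucc 202, 20⟩], 30365421059⟩,
   ⟨[⟨.negSucc 8181180, 26⟩, ⟨.negSucc 2776796, 25⟩, ⟨.ofNat 47263593, 29⟩, ⟨.negSucc 114132448, 30⟩], 840450451753⟩,
   ⟨[⟨.ofNat 6723615, 27⟩, ⟨.negSucc 10280206, 30⟩, ⟨.ofNat 12839291, 29⟩, ⟨.negSucc 11189768, 29⟩], 165570872696⟩,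
   ⟨[⟨.ofNat 50333, 19⟩, ⟨.ofNat 50333, 19⟩, ⟨.negSucc 3236, 18⟩, ⟨.negSucc 3236, 18⟩], 2401⟩,
   ⟨[⟨.negSucc 98376418, 30⟩, ⟨.ofNat 8867733, 29⟩, ⟨.negSucc 151260578, 30⟩, ⟨.ofNat 105177441, 30⟩], 773986777965⟩,
   ⟨[⟨.negSucc 12994, 20⟩, ⟨.negSucc 12994, 20⟩, ⟨.negSucc 33020, 20⟩, ⟨.negSucc 33020, 20⟩], 2338⟩,
   ⟨[⟨.ofNat 141943673, 30⟩, ⟨.ofNat 31168857, 29⟩, ⟨.ofNat 69294919, 29⟩, ⟨.negSucc 47456750, 30⟩], 349539722870⟩,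
   ⟨[⟨.negSucc 143380, 20⟩, ⟨.negSucc 143380, 20⟩, ⟨.negSucc 31672, 20⟩, ⟨.negSucc 31672, 20⟩], 2338⟩]

def nzB_L : List (List Sym) := [nzB_0, nzB_1, nzB_2, nzB_3, nzB_4, nzB_5, nzB_6, nzB_7]

noncomputable def nzB (i : Nat) : Sym := sym16 nzB_L i

theorem nzB_c1 : nzChk (run (tmAlg (nq qB)) pXB []) pXB_out nxB = true := by decide +kernel

theorem nzB_c2 : nzAll (fun i => nck2 (nS SyB ⟨[⟨5, 0⟩], 0⟩ nxB i) (nzB i)) 126 = true := by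
  decide +kernel

theorem nzB_a : posV ⟨4, 14, 1, 2, 835⟩ nzB kNa ⟨42, 16, 18⟩ [0, 1] ⟨5, 4, 0, 8, 1, 1, 2, 8⟩ = true := by decide +kernel

theorem nzB_b : posV ⟨4, 14, 1, 2, 836⟩ nzB kNb ⟨42, 16, 18⟩ [0, 1] ⟨5, 4, 0, 8, 1, 1, 2, 8⟩ = true := by decide +kernel

theorem nzB_hi (i : ℕ) (hi : 126 ≤ i) : nzB i = ⟨[], 0⟩ := by
  unfold nzB sym16
  show get2 _ (get2 [] nzB_L (i / 16)) (i % 16) = _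
  rcases lt_or_ge (i / 16) 8 with h | h
  · have h1 : i / 16 = 7 := by omega
    have h2 : 14 ≤ i % 16 := by omega
    rw [h1]
    show get2 _ nzB_7 (i % 16) = _
    rw [nz_get2_ge _ _ _ h2]
  · rw [nz_get2_ge [] nzB_L _ h, nz_get2_ge _ [] _ (Nat.zero_le _)]

theorem nzB_mem (b : ℕ) (t r s : ℝ) (t0 : 3 / 4 ≤ t) (t1 : t ≤ 1) (hr : |r| ≤ 1 / 16) (s0 : 0 ≤ s)
    (s1 : s ≤ 1) : (zz ⟨4, 14, 1, 2, b⟩ ⟨5, 4, 0, 8, 1, 1, 2, 8⟩).Mem t r s := by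
  rw [abs_le] at hr
  refine ⟨?_, ?_, ?_⟩
  · show |t * 2 ^ 4 - ((14 : ℕ) : ℝ)| ≤ ((1 : ℕ) : ℝ) * ((2 : ℕ) : ℝ)
    rw [abs_le]; push_cast; constructor <;> linarith
  · show |r * 2 ^ 5 - ((0 : ℕ) : ℝ)| ≤ ((1 : ℕ) : ℝ) * ((2 : ℕ) : ℝ)
    rw [abs_le]; push_cast; constructor <;> linarith [hr.1, hr.2]
  · show |s * 2 ^ 4 - ((8 : ℕ) : ℝ)| ≤ ((1 : ℕ) : ℝ) * ((8 : ℕ) : ℝ)
    rw [abs_le]; push_cast; constructor <;> linarith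

/-- **the near zone of the vertex `2`** for `dB` -/
theorem near_B {m : ℝ} (m0 : 3 / 4 * m1 ≤ m) (mm : m ≤ m1)
    (hq : TmIn qB (2 * (m / m1) - 1) (fun i => get 0 (l1 μB m) i))
    (h81 : ∀ (l : List ℝ) (i : ℕ), i < 81 →
      |get 0 ((dB.pt m).syl l) i - pval (SyB i).p (m / m1)| ≤ ((SyB i).eps : ℝ) / 2 ^ 60)
    {x : ℂ} (hx : |x.re| ≤ 1 / 16) (hy : |x.im| ≤ 1 / 16) : (dB.pt m).FI 5 x 2 :=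
  nz_final (S0 := SyB) (Rs := ⟨[⟨5, 0⟩], 0⟩) dB_ends (fun m => pXB_val 5 m) nzB_c1 rfl
    (fun t => by simp only [pval, Fx.val]; norm_num) nzB_c2 nzB_hi nzB_a nzB_b
    (nzB_mem _) (nzB_mem _) m0 mm hq (fun i hi => h81 _ i hi) hx hy

end Pool.H61.Rh
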