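import Pool.Agent.H89.Nz.W1
import Pool.Agent.H61.Rz.L2

/-! # W4: the near zone: real forms, list of base symbols -/

set_option autoImplicit false

namespace Pool.H61.Rh

open Complex

lemma VAq_re (c : VC) (X : ℂ) : (VAq c X).re
    = 3 * c.a30 * (X.re * X.re) + 2 * c.a21 * (X.re * X.im) + c.a12 * (X.im * X.im) := by
  simp only [VAq, VC.a30, VC.a12, VC.a21, normSq_apply, pow_succ,
    pow_zero, one_mul, add_re, add_im, sub_re, mul_re, mul_im, ofReal_re, ofReal_im, I_re,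
    I_im, conj_re, conj_im, re_ofNat, im_ofNat]
  ring

lemma VAq_im (c : VC) (X : ℂ) : (VAq c X).im
    = c.a21 * (X.re * X.re) + 2 * c.a12 * (X.re * X.im) + 3 * c.a03 * (X.im * X.im) := by
  simp only [VAq, VC.a12, VC.a21, VC.a03, normSq_apply, pow_succ,
    pow_zero, one_mul, add_re, add_im, sub_im, mul_re, mul_im, ofReal_re, ofReal_im, I_re,
    I_im, conj_re, conj_im, re_ofNat, im_ofNat]
  ring

lemma VBq_re (c : VC) (X h : ℂ) : (VBq c X h).re
    = c.q1 * (X.re * h.re * 2) + c.q2 * (X.re * h.im + X.im * h.re) + c.q3 * (X.im * h.im * 2) := by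
  simp only [VBq, VC.q1, VC.q2, VC.q3, dt,
    add_re, add_im, sub_re, mul_re, mul_im, ofReal_re, ofReal_im, I_re,
    I_im, conj_re, conj_im, re_ofNat, im_ofNat]
  ring

lemma VBq_im (c : VC) (X h : ℂ) : (VBq c X h).im
    = c.q4 * (X.re * h.re * 2) + c.q5 * (X.re * h.im + X.im * h.re) + c.q6 * (X.im * h.im * 2) := by
  simp only [VBq, VC.q4, VC.q5, VC.q6, dt,
    add_re, add_im, sub_im, mul_re, mul_im, ofReal_re, ofReal_im, I_re,
    I_im, conj_re, conj_im, re_ofNat, im_ofNat]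
  ring

lemma VBz_re (c : VC) (h : ℂ) : (VBd c 0 h).re = c.b11 * h.re + c.b12 * h.im := by
  simp only [VBd, VC.b11, VC.b12, dt, zero_re, zero_im,
    add_re, add_im, sub_re, mul_re, mul_im, ofReal_re, ofReal_im, I_re,
    I_im, conj_re, conj_im, re_ofNat, im_ofNat]
  ring

lemma VBz_im (c : VC) (h : ℂ) : (VBd c 0 h).im = c.b21 * h.re + c.b22 * h.im := by
  simp only [VBd, VC.b21, VC.b22, dt, zero_re, zero_im,
    add_re, add_im, sub_im, mul_re, mul_im, ofReal_re, ofReal_im, I_re,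
    I_im, conj_re, conj_im, re_ofNat, im_ofNat]
  ring

lemma e3_re : e3.re = 1 / 2 := rfl
lemma e3_im : e3.im = -(s3 / 2) := rfl

/-- the real coefficients, with the multiplicities of `Pt.syl` -/
noncomputable def VC.cl (c : VC) : List ℝ :=
  [2 * c.a20, c.a11, 2 * c.a02, 3 * c.a30, 2 * c.a21, c.a12, c.a21, 2 * c.a12, 3 * c.a03, c.b11,
    c.b12, c.b21, c.b22, c.q1, c.q2, c.q3, c.q4, c.q5, c.q6]

/-- the additional base symbols -/
noncomputable def Nd.l (n : Nd) : List ℝ :=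
  [n.τ, n.lam, n.R, n.da.re, n.da.im, n.dy.re, n.dy.im,
    2 * n.c1.a20, n.c1.a11, 2 * n.c1.a02, 3 * n.c1.a30, 2 * n.c1.a21, n.c1.a12, n.c1.a21,
    2 * n.c1.a12, 3 * n.c1.a03, n.c1.b11, n.c1.b12, n.c1.b21, n.c1.b22, n.c1.q1, n.c1.q2, n.c1.q3,
    n.c1.q4, n.c1.q5, n.c1.q6,
    2 * n.dc.a20, n.dc.a11, 2 * n.dc.a02, 3 * n.dc.a30, 2 * n.dc.a21, n.dc.a12, n.dc.a21,
    2 * n.dc.a12, 3 * n.dc.a03, n.dc.b11, n.dc.b12, n.dc.b21, n.dc.b22, n.dc.q1, n.dc.q2, n.dc.q3,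
    n.dc.q4, n.dc.q5, n.dc.q6]

end Pool.H61.Rh
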