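import Pool.Agent.H61.Rz.Rr
import Pool.Agent.H89.Nz.W4

/-! # generated: program `pNa` (near zone, chart a) -/

set_option autoImplicit false
set_option maxRecDepth 100000
set_option linter.unusedVariables false
set_option linter.unusedSimpArgs false
set_option linter.unreachableTactic false
set_option linter.unusedTactic false

namespace Pool.H61.Rh

open Complex Pool.H47.Kc

/-- program -/
def pNa : List Op := [.x, .y, .cst 2 0, .mul 1 0, .cst 1 0, .sub 1 0, .base 2, .mul 6 4,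
  .sub 1 0, .mul 3 3, .add 0 5, .base 0, .base 1, .mul 7 0, .add 2 0, .base 3,
  .add 2 0, .mul 0 0, .cst 4 0, .mul 1 0, .base 4, .mul 10 0, .mul 19 0, .sub 3 0,
  .mul 9 5, .mul 24 14, .add 1 0, .mul 16 0, .mul 27 0, .add 5 0, .mul 27 0, .mul 28 16,
  .add 6 0, .mul 27 0, .mul 23 22, .mul 24 22, .add 3 1, .add 3 1, .mul 29 0, .mul 30 2,
  .add 9 0, .base 5, .base 6, .mul 37 0, .add 2 0, .base 15, .mul 45 1, .add 1 0,
  .base 7, .base 8, .mul 44 0, .add 2 0, .base 9, .base 10, .mul 48 0, .add 2 0,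
  .mul 47 4, .mul 48 1, .mul 57 19, .mul 58 18, .sub 3 1, .add 3 1, .base 11, .base 12,
  .mul 55 19, .mul 2 0, .mul 2 1, .sub 6 1, .sub 6 1, .mul 68 63, .add 69 58, .add 58 1,
  .mul 30 1, .mul 30 1, .add 1 0, .base 16, .mul 5 0, .base 17, .mul 6 0, .add 2 0,
  .mul 9 2, .base 18, .mul 10 0, .add 2 0, .base 19, .base 20, .mul 80 0, .add 2 0,
  .base 21, .base 22, .mul 84 0, .add 2 0, .mul 4 4, .mul 1 1, .add 1 0, .base 45,
  .base 46, .mul 91 0, .add 2 0, .base 47, .base 48, .mul 95 0, .add 2 0, .mul 93 0,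
  .add 5 0, .base 42, .base 43, .mul 101 0, .add 2 0, .base 44, .mul 100 0, .add 2 0,
  .mul 111 7, .add 1 0, .base 33, .base 34, .mul 110 0, .add 2 0, .base 36, .base 37,
  .mul 114 0, .add 2 0, .base 38, .mul 113 0, .add 2 0, .mul 124 0, .add 8 0, .base 35,
  .mul 122 0, .add 13 0, .base 39, .base 40, .mul 126 0, .add 2 0, .base 41, .mul 125 0,
  .add 2 0, .mul 136 0, .add 8 0, .base 49, .base 50, .mul 135 0, .add 2 0, .base 53,
  .base 54, .mul 139 0, .add 2 0, .base 55, .mul 138 0, .add 2 0, .mul 149 0, .add 8 0,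
  .base 51, .base 52, .mul 148 0, .add 2 0, .base 56, .base 57, .mul 152 0, .add 2 0,
  .base 58, .mul 151 0, .add 2 0, .mul 162 0, .add 8 0, .base 59, .base 60, .mul 161 0,
  .add 2 0, .base 63, .base 64, .mul 165 0, .add 2 0, .base 65, .mul 164 0, .add 2 0,
  .mul 175 0, .add 8 0, .base 61, .base 62, .mul 174 0, .add 2 0, .base 66, .base 67,
  .mul 178 0, .add 2 0, .base 68, .mul 177 0, .add 2 0, .mul 188 0, .add 8 0, .mul 188 123,
  .mul 186 124, .add 124 0, .mul 188 125, .mul 192 0, .mul 128 56, .mul 128 56, .add 1 0, .mul 55 7,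
  .mul 55 6, .add 1 0, .mul 54 6, .add 1 0, .mul 203 0, .add 6 0, .mul 138 53, .mul 138 53,
  .add 1 0, .mul 52 17, .mul 52 16, .add 1 0, .mul 51 16, .add 1 0, .mul 213 0, .add 6 0,
  .base 31, .base 32, .mul 212 0, .add 2 0, .base 29, .base 30, .mul 183 1, .mul 182 1,
  .sub 0 1, .mul 180 5, .mul 178 112, .add 1 0, .mul 219 0, .add 4 0, .mul 162 103, .mul 162 92,
  .add 1 0, .add 3 0, .mul 142 82, .mul 147 70, .sub 0 1, .mul 228 0, .sub 0 4, .base 23,
  .base 24, .mul 235 0, .add 2 0, .base 25, .base 26, .mul 239 0, .add 2 0, .mul 184 120,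
  .mul 184 109, .add 1 0, .base 27, .base 28, .mul 180 100, .mul 182 88, .sub 1 0, .mul 213 0,
  .mul 213 1, .mul 105 6, .mul 93 6, .add 1 0, .mul 180 0, .mul 177 1, .add 6 1, .add 6 1,
  .mul 189 99, .mul 190 113, .add 3 1, .sub 3 1, .mul 267 154, .add 49 0, .sub 0 20, .mul 191 0,
  .mul 188 1, .sub 30 1, .sub 27 1, .mul 272 110, .mul 273 124, .sub 99 1, .add 87 1, .mul 231 1,
  .mul 232 1, .sub 7 1, .sub 7 1, .sub 1 16, .sub 1 16, .mul 237 46, .cst 6 0, .mul 1 0,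
  .mul 279 193, .mul 286 1, .sub 0 1, .mul 243 243, .mul 220 200, .mul 222 205, .add 1 0, .mul 253 0,
  .mul 253 1, .mul 205 46, .mul 210 46, .sub 0 1, .mul 220 0, .mul 217 1, .sub 1 6, .sub 1 6,
  .mul 229 216, .mul 230 213, .add 3 1, .add 3 1, .mul 299 260, .mul 2 0, .mul 2 1, .sub 22 23,
  .mul 311 0, .mul 233 0, .mul 230 1, .add 5 1, .add 5 1, .mul 308 33, .mul 309 33, .sub 1 113,
  .sub 1 104, .mul 34 29, .mul 2 0, .mul 2 1, .add 8 1, .add 8 1, .base 78, .cst 1 1,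
  .mul 1 0, .mul 258 258, .mul 258 258, .add 1 0, .sub 327 0, .mul 262 5, .mul 262 5, .add 1 0,
  .mul 333 0, .add 0 332, .mul 335 11, .mul 6 6, .mul 1 0, .base 82, .mul 14 0, .mul 16 1,
  .mul 16 0, .sub 2 344, .add 276 1, .base 91, .base 92, .mul 343 0, .add 2 0, .base 93,
  .mul 342 0, .add 2 0, .base 94, .base 95, .mul 350 0, .add 2 0, .base 96, .mul 349 0,
  .add 2 0, .base 88, .base 89, .mul 357 0, .add 2 0, .mul 364 11, .add 1 0, .base 90,
  .mul 362 0, .add 6 0, .mul 369 9, .add 1 0, .mul 44 18, .mul 44 12, .sub 1 0, .mul 33 0,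
  .mul 370 4, .add 10 0, .sub 2 0, .mul 376 33, .mul 374 34, .sub 0 34, .mul 376 35, .mul 380 0,
  .base 101, .mul 5 0, .base 102, .mul 5 0, .add 2 0, .base 103, .mul 6 0, .sub 2 0,
  .base 104, .mul 13 0, .base 105, .mul 13 0, .add 2 0, .base 106, .mul 14 0, .sub 2 0,
  .base 97, .base 98, .mul 396 0, .add 2 0, .base 99, .base 100, .mul 400 0, .add 2 0,
  .sub 16 4, .sub 9 1, .base 107, .base 108, .mul 406 0, .add 2 0, .base 110, .base 111,
  .mul 410 0, .add 2 0, .base 112, .mul 409 0, .add 2 0, .mul 420 0, .add 8 0, .base 109,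
  .mul 418 0, .add 13 0, .base 113, .base 114, .mul 422 0, .add 2 0, .base 115, .mul 421 0,
  .add 2 0, .mul 432 0, .add 8 0, .base 84, .base 85, .base 86, .base 87, .mul 438 16,
  .mul 439 5, .add 5 1, .add 5 1, .mul 97 1, .mul 97 1, .sub 1 0, .mul 445 319, .mul 446 308,
  .add 227 1, .add 227 1, .mul 12 1, .mul 12 1, .add 1 0, .sub 7 0, .base 116, .mul 109 0,
  .base 117, .mul 110 0, .sub 2 0, .base 120, .mul 80 0, .base 121, .mul 80 0, .add 2 0,
  .base 122, .mul 81 0, .sub 2 0, .mul 466 0, .add 9 0, .base 118, .mul 124 0, .base 119,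
  .mul 125 0, .sub 2 0, .base 123, .mul 95 0, .base 124, .mul 95 0, .add 2 0, .base 125,
  .mul 96 0, .sub 2 0, .mul 481 0, .add 9 0, .mul 481 46, .mul 479 47, .add 47 0, .mul 481 48,
  .mul 485 0, .mul 349 51, .mul 349 51, .add 1 0, .mul 348 7, .mul 348 6, .add 1 0, .mul 347 6,
  .add 1 0, .mul 496 0, .add 6 0, .mul 346 61, .mul 346 61, .add 1 0, .mul 345 17, .mul 345 16,
  .add 1 0, .mul 344 16, .add 1 0, .mul 506 0, .add 6 0, .sub 40 10, .sub 26 1, .mul 219 219,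
  .mul 464 171, .mul 188 175, .mul 188 176, .mul 228 2, .mul 515 137, .mul 1 0, .mul 438 0, .mul 435 1,
  .add 6 1, .add 6 1, .mul 474 9, .mul 236 0, .mul 115 0, .mul 115 1, .sub 5 1, .sub 5 1,
  .mul 519 190, .mul 17 0, .base 83, .mul 1 0, .cst 12 0, .mul 1 0, .mul 243 196, .mul 156 22,
  .mul 3 0, .sub 2 0, .mul 527 246, .cst 3 11, .mul 11 0, .mul 2 0, .sub 4 0, .mul 9 0,
  .mul 17 17, .mul 17 17, .add 1 0, .sub 3 0, .mul 468 94, .mul 465 95, .mul 502 40, .mul 503 40,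
  .sub 3 1, .sub 3 1, .mul 100 20, .mul 28 2, .mul 28 2, .add 1 0, .mul 557 0, .add 4 0,
  .base 81, .cst 3 0, .mul 1 0, .mul 50 0, .mul 11 11, .mul 11 11, .add 1 0, .mul 3 0,
  .add 8 0, .cst 0 0, .sub 0 1]

/-- positions of the outputs -/
def pNa_out : List ℕ := [23, 0]

/-- the statement of `pNa_val` -/
def pNa_goal (P : Pt) (n : Nd) (r s : ℝ) : Prop :=
    OutEq (run (realAlg (fun i => get 0 (P.syl n.l) i) (r) (s)) pNa []) pNa_out
      [P.NA n.R r ⟨1, 2 * s - 1⟩ (P.T0 r ⟨1, 2 * s - 1⟩ (1 - 2 * P.ys.re - 2 * (r * (⟨1, 2 * s - 1⟩ : ℂ).re))) (P.U0 r ⟨1, 2 * s - 1⟩ (P.T0 r ⟨1, 2 * s - 1⟩ (1 - 2 * P.ys.re - 2 * (r * (⟨1, 2 * s - 1⟩ : ℂ).re))) (1 - 2 * P.ys.re - 2 * (r * (⟨1, 2 * s - 1⟩ : ℂ).re))) (1 - 2 * P.ys.re - 2 * (r * (⟨1, 2 * s - 1⟩ : ℂ).re)) (n.φ2 r ⟨1, 2 * s - 1⟩) (n.γ1 r ⟨1, 2 * s - 1⟩),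
      P.NB n.R r ⟨1, 2 * s - 1⟩ (P.T0 r ⟨1, 2 * s - 1⟩ (1 - 2 * P.ys.re - 2 * (r * (⟨1, 2 * s - 1⟩ : ℂ).re))) (P.U0 r ⟨1, 2 * s - 1⟩ (P.T0 r ⟨1, 2 * s - 1⟩ (1 - 2 * P.ys.re - 2 * (r * (⟨1, 2 * s - 1⟩ : ℂ).re))) (1 - 2 * P.ys.re - 2 * (r * (⟨1, 2 * s - 1⟩ : ℂ).re))) (1 - 2 * P.ys.re - 2 * (r * (⟨1, 2 * s - 1⟩ : ℂ).re)) (n.φ2 r ⟨1, 2 * s - 1⟩) (n.γ1 r ⟨1, 2 * s - 1⟩) n.τ (n.φt P r ⟨1, 2 * s - 1⟩) (n.γt P r ⟨1, 2 * s - 1⟩)]

theorem pNa_c14 (P : Pt) (n : Nd) (r s : ℝ) {v0 v1 v2 v3 v4 v5 : ℝ} {X : ℂ} {v6 v7 v8 d v9 v10 v11 v12 v13 v14 yx v15 v16 v17 v18 v19 v20 v21 v22 v23 v24 v25 v26 v27 v28 v29 S v30 v31 v32 v33 v34 v35 v36 v37 v38 v39 v40 : ℝ} {T : ℂ} {v41 v42 v43 v44 e v45 v46 v47 f v48 v49 v50 v51 v52 v53 v54 v55 v56 v57 v58 v59 v60 v61 v62 v63 v64 v65 v66 v67 v68 : ℝ} {U : ℂ} {v69 v70 v71 : ℝ} {y : ℂ} {v72 v73 v74 k v75 v76 v77 v78 v79 v80 v81 v82 v83 : ℝ} {fv : ℂ} {v84 v85 v86 v87 v88 v89 v90 v91 : ℝ} {M iM : ℂ}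 {v92 v93 v94 nM v95 v96 v97 v98 v99 v100 v101 v102 v103 v104 v105 v106 v107 v108 v109 v110 v111 v112 v113 As v114 v115 v116 v117 v118 v119 v120 v121 v122 v123 v124 v125 v126 v127 v128 v129 v130 v131 v132 v133 v134 v135 v136 v137 v138 : ℝ} {Ax : ℂ} {v139 v140 v141 v142 v143 v144 v145 v146 v147 v148 v149 v150 v151 v152 v153 v154 v155 v156 v157 v158 v159 v160 v161 v162 v163 v164 : ℝ} {B : ℂ} {v165 v166 v167 v168 v169 v170 v171 v172 v173 v174 v175 v176 v177 v178 v179 v180 v181 v182 v183 v184 v185 v186 v187 v188 v189 v190 : ℝ} {Bs : ℂ} {v191 v192 v193 v194 v195 v196 v197 v198 v199 v200 v201 v202 v203 v204 v205 v206 v207 v208 v209 v210 v211 v212 v213 v214 v215 : ℝ} {DB : ℂ} {v216 v217 v218 v219 sax v220 v221 v222 v223 v224 v225 v226 v227 v228 v229 v230 v231 v232 v233 v234 v235 v236 v237 v238 Xv v239 v240 v241 v242 v243 v244 v245 v246 : ℝ} {L : ℂ} {v247 v248 v249 aV v250 v251 v252 v253 v254 v255 v256 v257 v258 v259 v260 v261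 v262 v263 v264 v265 v266 v267 : ℝ} {ZB : ℂ} {v268 v269 v270 v271 v272 v273 v274 v275 v276 v277 v278 v279 v280 v281 v282 v283 v284 : ℝ} {H : ℂ} {v285 v286 v287 v288 v289 v290 E12 v291 v292 v293 v294 v295 v296 v297 v298 v299 v300 v301 v302 v303 v304 v305 v306 v307 : ℝ} {ZM : ℂ} {v308 v309 v310 v311 v312 v313 v314 v315 v316 v317 v318 v319 v320 v321 v322 v323 v324 v325 : ℝ} {G6 : ℂ} {v326 v327 v328 v329 v330 v331 v332 w v333 v334 v335 v336 v337 D v338 v339 v340 sv v341 v342 v343 v344 v345 v346 : ℝ} {lr : ℂ} {v347 v348 v349 v350 v351 v352 v353 v354 v355 v356 v357 v358 v359 v360 : ℝ} {Aq : ℂ} {v361 v362 v363 v364 v365 v366 v367 v368 v369 v370 v371 : ℝ} {A1 : ℂ} {v372 v373 v374 v375 v376 v377 v378 pha v379 v380 v381 v382 v383 v384 v385 v386 v387 v388 v389 v390 v391 v392 v393 v394 v395 v396 v397 v398 v399 : ℝ} {B1 : ℂ} {v400 v401 v402 v403 v404 v405 v406 v407 : ℝ} {B0 : ℂ} {v408 v409 : ℝ} {gma : ℂ} {v410 v411 v412 v413 v414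 v415 v416 v417 v418 v419 v420 v421 v422 v423 v424 v425 v426 v427 v428 v429 v430 v431 v432 v433 v434 : ℝ} {Ad : ℂ} {v435 v436 v437 v438 v439 v440 v441 v442 v443 v444 v445 v446 v447 v448 v449 v450 v451 v452 v453 phb v454 v455 v456 v457 v458 v459 v460 v461 v462 v463 v464 v465 v466 v467 v468 v469 v470 v471 v472 v473 v474 v475 v476 v477 v478 v479 v480 v481 v482 v483 : ℝ} {Bd : ℂ} {v484 v485 v486 v487 v488 v489 v490 v491 v492 v493 v494 v495 v496 v497 v498 v499 v500 v501 v502 v503 v504 v505 v506 v507 v508 : ℝ} {Bc : ℂ} {v509 v510 : ℝ} {gmb : ℂ} {v511 v512 v513 v514 v515 v516 v517 v518 v519 v520 v521 v522 v523 v524 v525 v526 v527 : ℝ} {NG : ℂ} {v528 v529 v530 v531 v532 v533 v534 v535 v536 v537 v538 v539 v540 v541 v542 v543 v544 v545 v546 v547 NA v548 v549 v550 v551 v552 v553 : ℝ} {Zz : ℂ} {v554 v555 v556 v557 v558 v559 : ℝ}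
    (h0 : v0 = r)
    (e_X_d : X = (⟨1, 2 * s - 1⟩ : ℂ))
    (e_d_d : d = 1 - 2 * P.ys.re - 2 * (r * X.re))
    (e_d_v : v8 = d)
    (e_yx_d : yx = dt P.ys X)
    (e_S_d : S = 4 * ((P.ys.re - (1 - normSq P.ys) / (1 - 2 * P.ys.re)) * X.re + P.ys.im * X.im) ^ 2 - 2 * (1 - normSq P.ys) * normSq X + (4 * yx + normSq X * r) * normSq X * r)
    (e_T_d : T = I * ((2 * S : ℝ) : ℂ) + I * (X * ((2 * yx + normSq X * r : ℝ) : ℂ) + P.ys * (normSq X : ℂ)) * (d : ℂ))
    (e_e_d : e = dt P.ns X)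
    (e_f_d : f = P.fs + e * r)
    (e_f_v : v47 = f)
    (e_U_d : U = P.DV X * (d : ℂ) + T * (r : ℂ) - P.V0 / (P.fs : ℂ) * ((d * e : ℝ) : ℂ))
    (e_y_d : y = P.ys + X * (r : ℂ))
    (e_k_d : k = dt y P.ns)
    (e_fv_d : fv = P.fv y)
    (e_M_d : M = P.M X)
    (e_iM_d : iM = I * M)
    (e_nM_d : nM = normSq M)
    (e_As_d : As = VAr P.cs r X)
    (e_Ax_d : Ax = VAxr P.c r X)
    (e_B_d : B = VBr P.c r X)
    (e_Bs_d : Bs = VBr P.cs r X)
    (e_DB_d : DB = VBd P.c (X * (r : ℂ)) U)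
    (e_sax_d : sax = dt P.sa X)
    (e_Xv_d : Xv = -dt P.a T - (e * sax + f * As) * d - dt Ax U + dt B iM * d)
    (e_L_d : L = P.L X)
    (e_aV_d : aV = dt Ax (P.V0 / (P.fs : ℂ)))
    (e_ZB_d : ZB = ((dt B (-(I * y)) : ℝ) : ℂ) * P.ns + ((dt B (I * P.vs - P.bs) : ℝ) : ℂ) * fv - (k : ℂ) * (I * B))
    (e_H_d : H = L - ((sax + As * r - aV : ℝ) : ℂ) * fv - (Bs + 2 * I * B) * (f : ℂ) - ZB)
    (e_E12_d : E12 = 12 * (f * Xv) - nM * d)
    (h291 : v291 = v47 * v47)
    (e_ZM_d : ZM = ((dt iM (-(I * y)) : ℝ) : ℂ) * P.ns + ((dt iM (I * P.vs - P.bs) : ℝ) : ℂ) * fv - (k : ℂ) * (I * iM))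
    (e_G6_d : G6 = ZM * ((d * f : ℝ) : ℂ) + fv * ((r * (nM * d - 6 * (f * Xv)) : ℝ) : ℂ) + (H * (d : ℂ) - DB) * ((6 * f ^ 2 : ℝ) : ℂ))
    (e_w_d : w = 1 - normSq y)
    (e_D_d : D = 1 - 2 * dt (uu 2) y)
    (e_D_v : v337 = D)
    (e_sv_d : sv = 2 * s3 * w ^ 2)
    (e_sv_v : v340 = sv)
    (e_lr_d : lr = (n.lam : ℂ) * e3 - X * (r : ℂ))
    (e_Aq_d : Aq = VAq n.c1 X)
    (e_A1_d : A1 = VAxr n.c1 r X)
    (e_pha_d : pha = n.lam * dt Aq e3 - dt A1 X)
    (e_B1_d : B1 = VBq n.c1 X lr)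
    (e_B0_d : B0 = VBd n.c1 0 X)
    (e_gma_d : gma = B1 - B0)
    (e_Ad_d : Ad = VAxr n.dc r X)
    (e_phb_d : phb = dt (n.da + Ad * (r : ℂ)) lr - dt (P.a + Ax * (r : ℂ)) n.dy)
    (e_phb_v : v453 = phb)
    (e_Bd_d : Bd = VBd n.dc (X * (r : ℂ)) lr)
    (e_Bc_d : Bc = VBd P.c (X * (r : ℂ)) n.dy)
    (e_gmb_d : gmb = Bd - Bc)
    (h511 : v511 = v291 * v291)
    (h512 : v512 = v47 * v340)
    (e_NG_d : NG = (D : ℂ) * G6 + ((6 * f * sv * (r * pha) : ℝ) : ℂ) * fv - ((6 * f ^ 2 * sv : ℝ) : ℂ) * gma)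
    (e_NG_re : v526 = NG.re)
    (e_NG_im : v527 = NG.im)
    (h528 : v528 = v8 * v337)
    (h529 : v529 = v511 * v528)
    (h530 : v530 = n.R)
    (h531 : v531 = v529 * v530)
    (h532 : v532 = (12 : ℝ))
    (h533 : v533 = v531 * v532)
    (e_NA_d : NA = 12 * n.R * f ^ 4 * d * D * (D * E12 - 12 * f * sv * pha - 12 * (1 / 8192) * normSq X * f ^ 2 * d * D) - normSq NG)
    (e_NA_v : v547 = NA)
    (e_Zz_d : Zz = (phb : ℂ) * fv - (f : ℂ) * gmb)
    (e_Zz_re : v552 = Zz.re)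
    (e_Zz_im : v553 = Zz.im)
    (h554 : v554 = v453 * v533)
    (h555 : v555 = v526 * v552)
    (h556 : v556 = v527 * v553)
    (h557 : v557 = v555 + v556)
    (h558 : v558 = v0 * v557)
    (h559 : v559 = v554 + v558)
    (h : TrE (realAlg (fun i => get 0 (P.syl n.l) i) (r) (s)) (pNa.drop 560) [v559, v558, v557, v556, v555, v554, v553, v552, v551, v550, v549, v548, v547, v546, v545, v544, v543, v542, v541, v540, v539, v538, v537, v536, v535, v534, v533, v532, v531, v530, v529, v528, v527, v526, v525, v524, v523, v522, v521, v520, v519, v518, v517, v516, v515, v514, v513, v512, v511, v510, v509, v508, v507, v506, v505, v504, v503, v502, v501, v500, v499, v498, v497, v496, v495, v494, v493, v492, v491, v490, v489, v488, v487, v486, v485, v484, v483, v482, v481, v480, v479, v478, v477, v476, v475, v474, v473, v472, v471, v470, v469, v468, v467, v466, v465, v464, v463, v462, v461, v460, v459, v458, v457, v456, v455, v454,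 v453, v452, v451, v450, v449, v448, v447, v446, v445, v444, v443, v442, v441, v440, v439, v438, v437, v436, v435, v434, v433, v432, v431, v430, v429, v428, v427, v426, v425, v424, v423, v422, v421, v420, v419, v418, v417, v416, v415, v414, v413, v412, v411, v410, v409, v408, v407, v406, v405, v404, v403, v402, v401, v400, v399, v398, v397, v396, v395, v394, v393, v392, v391, v390, v389, v388, v387, v386, v385, v384, v383, v382, v381, v380, v379, v378, v377, v376, v375, v374, v373, v372, v371, v370, v369, v368, v367, v366, v365, v364, v363, v362, v361, v360, v359, v358, v357, v356, v355, v354, v353, v352, v351, v350, v349, v348, v347, v346, v345, v344, v343, v342, v341, v340, v339, v338, v337, v336, v335, v334, v333, v332, v331, v330, v329, v328, v327, v326, v325, v324, v323, v322, v321, v320, v319, v318, v317, v316, v315, v314, v313, v312, v311, v310, v309, v308, v307, v306, v305, v304, v303, v302, v301, v300, v299,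 v298, v297, v296, v295, v294, v293, v292, v291, v290, v289, v288, v287, v286, v285, v284, v283, v282, v281, v280, v279, v278, v277, v276, v275, v274, v273, v272, v271, v270, v269, v268, v267, v266, v265, v264, v263, v262, v261, v260, v259, v258, v257, v256, v255, v254, v253, v252, v251, v250, v249, v248, v247, v246, v245, v244, v243, v242, v241, v240, v239, v238, v237, v236, v235, v234, v233, v232, v231, v230, v229, v228, v227, v226, v225, v224, v223, v222, v221, v220, v219, v218, v217, v216, v215, v214, v213, v212, v211, v210, v209, v208, v207, v206, v205, v204, v203, v202, v201, v200, v199, v198, v197, v196, v195, v194, v193, v192, v191, v190, v189, v188, v187, v186, v185, v184, v183, v182, v181, v180, v179, v178, v177, v176, v175, v174, v173, v172, v171, v170, v169, v168, v167, v166, v165, v164, v163, v162, v161, v160, v159, v158, v157, v156, v155, v154, v153, v152, v151, v150, v149, v148, v147, v146, v145, v144,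 v143, v142, v141, v140, v139, v138, v137, v136, v135, v134, v133, v132, v131, v130, v129, v128, v127, v126, v125, v124, v123, v122, v121, v120, v119, v118, v117, v116, v115, v114, v113, v112, v111, v110, v109, v108, v107, v106, v105, v104, v103, v102, v101, v100, v99, v98, v97, v96, v95, v94, v93, v92, v91, v90, v89, v88, v87, v86, v85, v84, v83, v82, v81, v80, v79, v78, v77, v76, v75, v74, v73, v72, v71, v70, v69, v68, v67, v66, v65, v64, v63, v62, v61, v60, v59, v58, v57, v56, v55, v54, v53, v52, v51, v50, v49, v48, v47, v46, v45, v44, v43, v42, v41, v40, v39, v38, v37, v36, v35, v34, v33, v32, v31, v30, v29, v28, v27, v26, v25, v24, v23, v22, v21, v20, v19, v18, v17, v16, v15, v14, v13, v12, v11, v10, v9, v8, v7, v6, v5, v4, v3, v2, v1, v0] (fun st => run (realAlg (fun i => get 0 (P.syl n.l) i) (r) (s)) pNa [] = st)) :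
    pNa_goal P n r s := by
  obtain ⟨v560, h560, h⟩ := h
  change v560 = n.τ at h560
  obtain ⟨v561, h561, h⟩ := h
  replace h561 : v561 = (3 : ℝ) := by rw [h561]; norm_num [step, realAlg]
  obtain ⟨v562, h562, h⟩ := h
  change v562 = v560 * v561 at h562
  obtain ⟨v563, h563, h⟩ := h
  change v563 = v512 * v562 at h563
  obtain ⟨v564, h564, h⟩ := h
  change v564 = v552 * v552 at h564
  obtain ⟨v565, h565, h⟩ := h
  change v565 = v553 * v553 at h565
  obtain ⟨v566, h566, h⟩ := h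
  change v566 = v564 + v565 at h566
  obtain ⟨v567, h567, h⟩ := h
  change v567 = v563 * v566 at h567
  obtain ⟨v568, h568, h⟩ := h
  change v568 = v559 + v567 at h568
  obtain ⟨NB, e_NB_d⟩ : ∃ q : ℝ, q = -(12 * n.R * f ^ 4 * d * D * phb) - r * dt NG Zz - 3 * n.τ * f * sv * normSq Zz := ⟨_, rfl⟩
  have e_NB_v : v568 = -NB := by
    rw [e_NB_d]
    simp only [h568, h567, h566, h565, h564, h563, h562, h561, h560, h559, h558, h557, h556, h555, h554, h533, h532, h531, h530, h529, h528, h512, h511, h291, h0, e_Zz_im, e_Zz_re, e_sv_v, e_f_v, e_NG_im, e_NG_re, e_D_v, e_d_v, e_phb_v, mul_re, mul_im, add_re, add_im, sub_re, sub_im, neg_re, neg_im, I_re, I_im, ofReal_re,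
      ofReal_im, one_re, one_im, zero_re, zero_im, dt, normSq_apply, re_ofNat, im_ofNat, conj_re, conj_im]
    try ring
  obtain ⟨o_NA, e_o_NA_d⟩ : ∃ q : ℝ, q = NA := ⟨_, rfl⟩
  have a_o_NA : NA = NA := by
    rfl
  have e_o_NA_v : v547 = o_NA := by
    rw [e_o_NA_d, a_o_NA]
    simp only [e_NA_v, mul_re, mul_im, add_re, add_im, sub_re, sub_im, neg_re, neg_im, I_re, I_im, ofReal_re,
      ofReal_im, one_re, one_im, zero_re, zero_im, dt, normSq_apply, re_ofNat, im_ofNat, conj_re, conj_im]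
    try ring
  obtain ⟨v569, h569, h⟩ := h
  replace h569 : v569 = (0 : ℝ) := by rw [h569]; norm_num [step, realAlg]
  obtain ⟨v570, h570, h⟩ := h
  change v570 = v569 - v568 at h570
  obtain ⟨o_NB, e_o_NB_d⟩ : ∃ q : ℝ, q = NB := ⟨_, rfl⟩
  have a_o_NB : NB = NB := by
    rfl
  have e_o_NB_v : v570 = o_NB := by
    rw [e_o_NB_d, a_o_NB]
    simp only [h570, h569, e_NB_v, mul_re, mul_im, add_re, add_im, sub_re, sub_im, neg_re, neg_im, I_re, I_im, ofReal_re,
      ofReal_im, one_re, one_im, zero_re, zero_im, dt, normSq_apply, re_ofNat, im_ofNat, conj_re, conj_im]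
    try ring
  unfold pNa_goal
  refine OutEq_of h ?_
  refine ⟨e_o_NA_v.trans ?_, e_o_NB_v.trans ?_, trivial⟩
  all_goals
    subst o_NB o_NA NB Zz NA NG gmb Bc Bd phb Ad gma B0 B1 pha A1 Aq lr sv D w G6 ZM E12 H ZB aV L Xv sax DB Bs B Ax As nM iM M fv k y U f e T S yx d X
    rfl

theorem pNa_c13 (P : Pt) (n : Nd) (r s : ℝ) {v0 v1 v2 v3 v4 v5 : ℝ} {X : ℂ} {v6 v7 v8 d v9 v10 v11 v12 v13 v14 yx v15 v16 v17 v18 v19 v20 v21 v22 v23 v24 v25 v26 v27 v28 v29 S v30 v31 v32 v33 v34 v35 v36 v37 v38 v39 v40 : ℝ} {T : ℂ} {v41 v42 v43 v44 e v45 v46 v47 f v48 v49 v50 v51 v52 v53 v54 v55 v56 v57 v58 v59 v60 v61 v62 v63 v64 v65 v66 v67 v68 : ℝ} {U : ℂ} {v69 v70 v71 : ℝ} {y : ℂ} {v72 v73 v74 k v75 v76 v77 v78 v79 v80 v81 v82 v83 : ℝ} {fv : ℂ} {v84 v85 v86 v87 v88 v89 v90 v91 : ℝ} {M iM : ℂ} {v92 v93 v94 nM v95 v96 v97 v98 v99 v100 v101 v102 v103 v104 v105 v106 v107 v108 v109 v110 v111 v112 v113 As v114 v115 v116 v117 v118 v119 v120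 v121 v122 v123 v124 v125 v126 v127 v128 v129 v130 v131 v132 v133 v134 v135 v136 v137 v138 : ℝ} {Ax : ℂ} {v139 v140 v141 v142 v143 v144 v145 v146 v147 v148 v149 v150 v151 v152 v153 v154 v155 v156 v157 v158 v159 v160 v161 v162 v163 v164 : ℝ} {B : ℂ} {v165 v166 v167 v168 v169 v170 v171 v172 v173 v174 v175 v176 v177 v178 v179 v180 v181 v182 v183 v184 v185 v186 v187 v188 v189 v190 : ℝ} {Bs : ℂ} {v191 v192 v193 v194 v195 v196 v197 v198 v199 v200 v201 v202 v203 v204 v205 v206 v207 v208 v209 v210 v211 v212 v213 v214 v215 : ℝ} {DB : ℂ} {v216 v217 v218 v219 sax v220 v221 v222 v223 v224 v225 v226 v227 v228 v229 v230 v231 v232 v233 v234 v235 v236 v237 v238 Xv v239 v240 v241 v242 v243 v244 v245 v246 : ℝ} {L : ℂ} {v247 v248 v249 aV v250 v251 v252 v253 v254 v255 v256 v257 v258 v259 v260 v261 v262 v263 v264 v265 v266 v267 : ℝ} {ZB : ℂ} {v268 v269 v270 v271 v272 v273 v274 v275 v276 v277 v278 v279 v280 v281 v282 v283 v284 : ℝ} {H : ℂ}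 {v285 v286 v287 v288 v289 v290 E12 v291 v292 v293 v294 v295 v296 v297 v298 v299 v300 v301 v302 v303 v304 v305 v306 v307 : ℝ} {ZM : ℂ} {v308 v309 v310 v311 v312 v313 v314 v315 v316 v317 v318 v319 v320 v321 v322 v323 v324 v325 : ℝ} {G6 : ℂ} {v326 v327 v328 v329 v330 v331 v332 w v333 v334 v335 v336 v337 D v338 v339 v340 sv v341 v342 v343 v344 v345 v346 : ℝ} {lr : ℂ} {v347 v348 v349 v350 v351 v352 v353 v354 v355 v356 v357 v358 v359 v360 : ℝ} {Aq : ℂ} {v361 v362 v363 v364 v365 v366 v367 v368 v369 v370 v371 : ℝ} {A1 : ℂ} {v372 v373 v374 v375 v376 v377 v378 pha v379 v380 v381 v382 v383 v384 v385 v386 v387 v388 v389 v390 v391 v392 v393 v394 v395 v396 v397 v398 v399 : ℝ} {B1 : ℂ} {v400 v401 v402 v403 v404 v405 v406 v407 : ℝ} {B0 : ℂ} {v408 v409 : ℝ} {gma : ℂ} {v410 v411 v412 v413 v414 v415 v416 v417 v418 v419 v420 v421 v422 v423 v424 v425 v426 v427 v428 v429 v430 v431 v432 v433 v434 : ℝ} {Ad : ℂ} {v435 v436 v437 v438 v439 v440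 v441 v442 v443 v444 v445 v446 v447 v448 v449 v450 v451 v452 v453 phb v454 v455 v456 v457 v458 v459 v460 v461 v462 v463 v464 v465 v466 v467 v468 v469 v470 v471 v472 v473 v474 v475 v476 v477 v478 v479 v480 v481 v482 v483 : ℝ} {Bd : ℂ} {v484 v485 v486 v487 v488 v489 v490 v491 v492 v493 v494 v495 v496 v497 v498 v499 v500 v501 v502 v503 v504 v505 v506 v507 v508 : ℝ} {Bc : ℂ} {v509 v510 : ℝ} {gmb : ℂ} {v511 v512 v513 v514 v515 v516 v517 v518 v519 : ℝ}
    (h0 : v0 = r)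
    (h4 : v4 = (1 : ℝ))
    (e_X_d : X = (⟨1, 2 * s - 1⟩ : ℂ))
    (e_X_re : X.re = (1 : ℝ))
    (e_X_im : v5 = X.im)
    (e_d_d : d = 1 - 2 * P.ys.re - 2 * (r * X.re))
    (e_d_v : v8 = d)
    (h9 : v9 = v5 * v5)
    (h10 : v10 = v9 + v4)
    (e_yx_d : yx = dt P.ys X)
    (e_S_d : S = 4 * ((P.ys.re - (1 - normSq P.ys) / (1 - 2 * P.ys.re)) * X.re + P.ys.im * X.im) ^ 2 - 2 * (1 - normSq P.ys) * normSq X + (4 * yx + normSq X * r) * normSq X * r)
    (e_T_d : T = I * ((2 * S : ℝ) : ℂ) + I * (X * ((2 * yx + normSq X * r : ℝ) : ℂ) + P.ys * (normSq X : ℂ)) * (d : ℂ))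
    (e_e_d : e = dt P.ns X)
    (e_f_d : f = P.fs + e * r)
    (e_f_v : v47 = f)
    (e_U_d : U = P.DV X * (d : ℂ) + T * (r : ℂ) - P.V0 / (P.fs : ℂ) * ((d * e : ℝ) : ℂ))
    (e_y_d : y = P.ys + X * (r : ℂ))
    (e_k_d : k = dt y P.ns)
    (e_fv_d : fv = P.fv y)
    (e_fv_re : v79 = fv.re)
    (e_fv_im : v83 = fv.im)
    (e_M_d : M = P.M X)
    (e_iM_d : iM = I * M)
    (e_nM_d : nM = normSq M)
    (e_As_d : As = VAr P.cs r X)
    (e_Ax_d : Ax = VAxr P.c r X)
    (e_B_d : B = VBr P.c r X)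
    (e_Bs_d : Bs = VBr P.cs r X)
    (e_DB_d : DB = VBd P.c (X * (r : ℂ)) U)
    (e_sax_d : sax = dt P.sa X)
    (e_Xv_d : Xv = -dt P.a T - (e * sax + f * As) * d - dt Ax U + dt B iM * d)
    (e_L_d : L = P.L X)
    (e_aV_d : aV = dt Ax (P.V0 / (P.fs : ℂ)))
    (e_ZB_d : ZB = ((dt B (-(I * y)) : ℝ) : ℂ) * P.ns + ((dt B (I * P.vs - P.bs) : ℝ) : ℂ) * fv - (k : ℂ) * (I * B))
    (e_H_d : H = L - ((sax + As * r - aV : ℝ) : ℂ) * fv - (Bs + 2 * I * B) * (f : ℂ) - ZB)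
    (h286 : v286 = (6 : ℝ))
    (e_E12_d : E12 = 12 * (f * Xv) - nM * d)
    (e_E12_v : v290 = E12)
    (h291 : v291 = v47 * v47)
    (e_ZM_d : ZM = ((dt iM (-(I * y)) : ℝ) : ℂ) * P.ns + ((dt iM (I * P.vs - P.bs) : ℝ) : ℂ) * fv - (k : ℂ) * (I * iM))
    (e_G6_d : G6 = ZM * ((d * f : ℝ) : ℂ) + fv * ((r * (nM * d - 6 * (f * Xv)) : ℝ) : ℂ) + (H * (d : ℂ) - DB) * ((6 * f ^ 2 : ℝ) : ℂ))
    (e_G6_re : v324 = G6.re)
    (e_G6_im : v325 = G6.im)
    (e_w_d : w = 1 - normSq y)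
    (e_D_d : D = 1 - 2 * dt (uu 2) y)
    (e_D_v : v337 = D)
    (e_sv_d : sv = 2 * s3 * w ^ 2)
    (e_sv_v : v340 = sv)
    (e_lr_d : lr = (n.lam : ℂ) * e3 - X * (r : ℂ))
    (e_Aq_d : Aq = VAq n.c1 X)
    (e_A1_d : A1 = VAxr n.c1 r X)
    (e_pha_d : pha = n.lam * dt Aq e3 - dt A1 X)
    (e_pha_v : v378 = pha)
    (e_B1_d : B1 = VBq n.c1 X lr)
    (e_B0_d : B0 = VBd n.c1 0 X)
    (e_gma_d : gma = B1 - B0)
    (e_gma_re : v408 = gma.re)
    (e_gma_im : v409 = gma.im)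
    (e_Ad_d : Ad = VAxr n.dc r X)
    (e_phb_d : phb = dt (n.da + Ad * (r : ℂ)) lr - dt (P.a + Ax * (r : ℂ)) n.dy)
    (e_phb_v : v453 = phb)
    (e_Bd_d : Bd = VBd n.dc (X * (r : ℂ)) lr)
    (e_Bc_d : Bc = VBd P.c (X * (r : ℂ)) n.dy)
    (e_gmb_d : gmb = Bd - Bc)
    (e_gmb_re : v509 = gmb.re)
    (e_gmb_im : v510 = gmb.im)
    (h511 : v511 = v291 * v291)
    (h512 : v512 = v47 * v340)
    (h513 : v513 = v324 * v337)
    (h514 : v514 = v325 * v337)
    (h515 : v515 = v286 * v512)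
    (h516 : v516 = v0 * v378)
    (h517 : v517 = v515 * v516)
    (h518 : v518 = v79 * v517)
    (h519 : v519 = v83 * v517)
    (h : TrE (realAlg (fun i => get 0 (P.syl n.l) i) (r) (s)) (pNa.drop 520) [v519, v518, v517, v516, v515, v514, v513, v512, v511, v510, v509, v508, v507, v506, v505, v504, v503, v502, v501, v500, v499, v498, v497, v496, v495, v494, v493, v492, v491, v490, v489, v488, v487, v486, v485, v484, v483, v482, v481, v480, v479, v478, v477, v476, v475, v474, v473, v472, v471, v470, v469, v468, v467, v466, v465, v464, v463, v462, v461, v460, v459, v458, v457, v456, v455, v454, v453, v452, v451, v450, v449, v448, v447, v446, v445, v444, v443, v442, v441, v440, v439, v438, v437, v436, v435, v434, v433, v432, v431, v430, v429, v428, v427, v426, v425, v424, v423, v422, v421, v420, v419, v418, v417, v416, v415, v414, v413, v412, v411, v410, v409, v408, v407, v406, v405, v404, v403, v402, v401, v400, v399, v398,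 v397, v396, v395, v394, v393, v392, v391, v390, v389, v388, v387, v386, v385, v384, v383, v382, v381, v380, v379, v378, v377, v376, v375, v374, v373, v372, v371, v370, v369, v368, v367, v366, v365, v364, v363, v362, v361, v360, v359, v358, v357, v356, v355, v354, v353, v352, v351, v350, v349, v348, v347, v346, v345, v344, v343, v342, v341, v340, v339, v338, v337, v336, v335, v334, v333, v332, v331, v330, v329, v328, v327, v326, v325, v324, v323, v322, v321, v320, v319, v318, v317, v316, v315, v314, v313, v312, v311, v310, v309, v308, v307, v306, v305, v304, v303, v302, v301, v300, v299, v298, v297, v296, v295, v294, v293, v292, v291, v290, v289, v288, v287, v286, v285, v284, v283, v282, v281, v280, v279, v278, v277, v276, v275, v274, v273, v272, v271, v270, v269, v268, v267, v266, v265, v264, v263, v262, v261, v260, v259, v258, v257, v256, v255, v254, v253, v252, v251, v250, v249, v248, v247, v246, v245, v244, v243,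 v242, v241, v240, v239, v238, v237, v236, v235, v234, v233, v232, v231, v230, v229, v228, v227, v226, v225, v224, v223, v222, v221, v220, v219, v218, v217, v216, v215, v214, v213, v212, v211, v210, v209, v208, v207, v206, v205, v204, v203, v202, v201, v200, v199, v198, v197, v196, v195, v194, v193, v192, v191, v190, v189, v188, v187, v186, v185, v184, v183, v182, v181, v180, v179, v178, v177, v176, v175, v174, v173, v172, v171, v170, v169, v168, v167, v166, v165, v164, v163, v162, v161, v160, v159, v158, v157, v156, v155, v154, v153, v152, v151, v150, v149, v148, v147, v146, v145, v144, v143, v142, v141, v140, v139, v138, v137, v136, v135, v134, v133, v132, v131, v130, v129, v128, v127, v126, v125, v124, v123, v122, v121, v120, v119, v118, v117, v116, v115, v114, v113, v112, v111, v110, v109, v108, v107, v106, v105, v104, v103, v102, v101, v100, v99, v98, v97, v96, v95, v94, v93, v92, v91, v90, v89, v88, v87, v86, v85,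 v84, v83, v82, v81, v80, v79, v78, v77, v76, v75, v74, v73, v72, v71, v70, v69, v68, v67, v66, v65, v64, v63, v62, v61, v60, v59, v58, v57, v56, v55, v54, v53, v52, v51, v50, v49, v48, v47, v46, v45, v44, v43, v42, v41, v40, v39, v38, v37, v36, v35, v34, v33, v32, v31, v30, v29, v28, v27, v26, v25, v24, v23, v22, v21, v20, v19, v18, v17, v16, v15, v14, v13, v12, v11, v10, v9, v8, v7, v6, v5, v4, v3, v2, v1, v0] (fun st => run (realAlg (fun i => get 0 (P.syl n.l) i) (r) (s)) pNa [] = st)) :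
    pNa_goal P n r s := by
  obtain ⟨v520, h520, h⟩ := h
  change v520 = v513 + v518 at h520
  obtain ⟨v521, h521, h⟩ := h
  change v521 = v514 + v519 at h521
  obtain ⟨v522, h522, h⟩ := h
  change v522 = v47 * v512 at h522
  obtain ⟨v523, h523, h⟩ := h
  change v523 = v286 * v522 at h523
  obtain ⟨v524, h524, h⟩ := h
  change v524 = v408 * v523 at h524
  obtain ⟨v525, h525, h⟩ := h
  change v525 = v409 * v523 at h525
  obtain ⟨v526, h526, h⟩ := h
  change v526 = v520 - v524 at h526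
  obtain ⟨v527, h527, h⟩ := h
  change v527 = v521 - v525 at h527
  obtain ⟨NG, e_NG_d⟩ : ∃ q : ℂ, q = (D : ℂ) * G6 + ((6 * f * sv * (r * pha) : ℝ) : ℂ) * fv - ((6 * f ^ 2 * sv : ℝ) : ℂ) * gma := ⟨_, rfl⟩
  have e_NG_re : v526 = NG.re := by
    rw [e_NG_d]
    simp only [h526, h524, h523, h522, h520, h518, h517, h516, h515, h513, h512, h286, h0, e_sv_v, e_f_v, e_gma_re, e_pha_v, e_fv_re, e_D_v, e_G6_re, mul_re, mul_im, add_re, add_im, sub_re, sub_im, neg_re, neg_im, I_re, I_im, ofReal_re,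
      ofReal_im, one_re, one_im, zero_re, zero_im, dt, normSq_apply, re_ofNat, im_ofNat, conj_re, conj_im]
    try ring
  have e_NG_im : v527 = NG.im := by
    rw [e_NG_d]
    simp only [h527, h525, h523, h522, h521, h519, h517, h516, h515, h514, h512, h286, h0, e_sv_v, e_f_v, e_gma_im, e_pha_v, e_fv_im, e_D_v, e_G6_im, mul_re, mul_im, add_re, add_im, sub_re, sub_im, neg_re, neg_im, I_re, I_im, ofReal_re,
      ofReal_im, one_re, one_im, zero_re, zero_im, dt, normSq_apply, re_ofNat, im_ofNat, conj_re, conj_im]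
    try ring
  obtain ⟨v528, h528, h⟩ := h
  change v528 = v8 * v337 at h528
  obtain ⟨v529, h529, h⟩ := h
  change v529 = v511 * v528 at h529
  obtain ⟨v530, h530, h⟩ := h
  change v530 = n.R at h530
  obtain ⟨v531, h531, h⟩ := h
  change v531 = v529 * v530 at h531
  obtain ⟨v532, h532, h⟩ := h
  replace h532 : v532 = (12 : ℝ) := by rw [h532]; norm_num [step, realAlg]
  obtain ⟨v533, h533, h⟩ := h
  change v533 = v531 * v532 at h533
  obtain ⟨v534, h534, h⟩ := h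
  change v534 = v290 * v337 at h534
  obtain ⟨v535, h535, h⟩ := h
  change v535 = v378 * v512 at h535
  obtain ⟨v536, h536, h⟩ := h
  change v536 = v532 * v535 at h536
  obtain ⟨v537, h537, h⟩ := h
  change v537 = v534 - v536 at h537
  obtain ⟨v538, h538, h⟩ := h
  change v538 = v10 * v291 at h538
  obtain ⟨v539, h539, h⟩ := h
  replace h539 : v539 = (3 : ℝ) / 2 ^ 11 := by rw [h539]; norm_num [step, realAlg]
  obtain ⟨v540, h540, h⟩ := h
  change v540 = v528 * v539 at h540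
  obtain ⟨v541, h541, h⟩ := h
  change v541 = v538 * v540 at h541
  obtain ⟨v542, h542, h⟩ := h
  change v542 = v537 - v541 at h542
  obtain ⟨v543, h543, h⟩ := h
  change v543 = v533 * v542 at h543
  obtain ⟨v544, h544, h⟩ := h
  change v544 = v526 * v526 at h544
  obtain ⟨v545, h545, h⟩ := h
  change v545 = v527 * v527 at h545
  obtain ⟨v546, h546, h⟩ := h
  change v546 = v544 + v545 at h546
  obtain ⟨v547, h547, h⟩ := h
  change v547 = v543 - v546 at h547
  obtain ⟨NA, e_NA_d⟩ : ∃ q : ℝ, q = 12 * n.R * f ^ 4 * d * D * (D * E12 - 12 * f * sv * pha - 12 * (1 / 8192) * normSq X * f ^ 2 * d * D) - normSq NG := ⟨_, rfl⟩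
  have e_NA_v : v547 = NA := by
    rw [e_NA_d]
    simp only [h547, h546, h545, h544, h543, h542, h541, h540, h539, h538, h537, h536, h535, h534, h533, h532, h531, h530, h529, h528, h512, h511, h291, h10, h9, h4, e_NG_im, e_NG_re, e_D_v, e_d_v, e_f_v, e_X_im, e_sv_v, e_pha_v, e_E12_v, e_X_re, mul_re, mul_im, add_re, add_im, sub_re, sub_im, neg_re, neg_im, I_re, I_im, ofReal_re,
      ofReal_im, one_re, one_im, zero_re, zero_im, dt, normSq_apply, re_ofNat, im_ofNat, conj_re, conj_im]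
    try ring
  obtain ⟨v548, h548, h⟩ := h
  change v548 = v79 * v453 at h548
  obtain ⟨v549, h549, h⟩ := h
  change v549 = v83 * v453 at h549
  obtain ⟨v550, h550, h⟩ := h
  change v550 = v47 * v509 at h550
  obtain ⟨v551, h551, h⟩ := h
  change v551 = v47 * v510 at h551
  obtain ⟨v552, h552, h⟩ := h
  change v552 = v548 - v550 at h552
  obtain ⟨v553, h553, h⟩ := h
  change v553 = v549 - v551 at h553
  obtain ⟨Zz, e_Zz_d⟩ : ∃ q : ℂ, q = (phb : ℂ) * fv - (f : ℂ) * gmb := ⟨_, rfl⟩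
  have e_Zz_re : v552 = Zz.re := by
    rw [e_Zz_d]
    simp only [h552, h550, h548, e_gmb_re, e_f_v, e_phb_v, e_fv_re, mul_re, mul_im, add_re, add_im, sub_re, sub_im, neg_re, neg_im, I_re, I_im, ofReal_re,
      ofReal_im, one_re, one_im, zero_re, zero_im, dt, normSq_apply, re_ofNat, im_ofNat, conj_re, conj_im]
    try ring
  have e_Zz_im : v553 = Zz.im := by
    rw [e_Zz_d]
    simp only [h553, h551, h549, e_gmb_im, e_f_v, e_phb_v, e_fv_im, mul_re, mul_im, add_re, add_im, sub_re, sub_im, neg_re, neg_im, I_re, I_im, ofReal_re,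
      ofReal_im, one_re, one_im, zero_re, zero_im, dt, normSq_apply, re_ofNat, im_ofNat, conj_re, conj_im]
    try ring
  obtain ⟨v554, h554, h⟩ := h
  change v554 = v453 * v533 at h554
  obtain ⟨v555, h555, h⟩ := h
  change v555 = v526 * v552 at h555
  obtain ⟨v556, h556, h⟩ := h
  change v556 = v527 * v553 at h556
  obtain ⟨v557, h557, h⟩ := h
  change v557 = v555 + v556 at h557
  obtain ⟨v558, h558, h⟩ := h
  change v558 = v0 * v557 at h558
  obtain ⟨v559, h559, h⟩ := h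
  change v559 = v554 + v558 at h559
  exact pNa_c14 P n r s h0 e_X_d e_d_d e_d_v e_yx_d e_S_d e_T_d e_e_d e_f_d e_f_v e_U_d e_y_d e_k_d e_fv_d e_M_d e_iM_d e_nM_d e_As_d e_Ax_d e_B_d e_Bs_d e_DB_d e_sax_d e_Xv_d e_L_d e_aV_d e_ZB_d e_H_d e_E12_d h291 e_ZM_d e_G6_d e_w_d e_D_d e_D_v e_sv_d e_sv_v e_lr_d e_Aq_d e_A1_d e_pha_d e_B1_d e_B0_d e_gma_d e_Ad_d e_phb_d e_phb_v e_Bd_d e_Bc_d e_gmb_d h511 h512 e_NG_d e_NG_re e_NG_im h528 h529 h530 h531 h532 h533 e_NA_d e_NA_v e_Zz_d e_Zz_re e_Zz_im h554 h555 h556 h557 h558 h559 h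

theorem pNa_c12 (P : Pt) (n : Nd) (r s : ℝ) {v0 v1 v2 v3 v4 v5 : ℝ} {X : ℂ} {v6 v7 v8 d v9 v10 v11 v12 v13 v14 yx v15 v16 v17 v18 v19 v20 v21 v22 v23 v24 v25 v26 v27 v28 v29 S v30 v31 v32 v33 v34 v35 v36 v37 v38 v39 v40 : ℝ} {T : ℂ} {v41 v42 v43 v44 e v45 v46 v47 f v48 v49 v50 v51 v52 v53 v54 v55 v56 v57 v58 v59 v60 v61 v62 v63 v64 v65 v66 v67 v68 : ℝ} {U : ℂ} {v69 v70 v71 : ℝ} {y : ℂ} {v72 v73 v74 k v75 v76 v77 v78 v79 v80 v81 v82 v83 : ℝ} {fv : ℂ} {v84 v85 v86 v87 v88 v89 v90 v91 : ℝ} {M iM : ℂ} {v92 v93 v94 nM v95 v96 v97 v98 v99 v100 v101 v102 v103 v104 v105 v106 v107 v108 v109 v110 v111 v112 v113 As v114 v115 v116 v117 v118 v119 v120 v121 v122 v123 v124 v125 v126 v127 v128 v129 v130 v131 v132 v133 v134 v135 v136 v137 v138 : ℝ} {Ax : ℂ} {v139 v140 v141 v142 v143 v144 v145 v146 v147 v148 v149 v150 v151 v152 v153 v154 v155 v156 v157 v158 v159 v160 v161 v162 v163 v164 : ℝ} {B : ℂ} {v165 v166 v167 v168 v169 v170 v171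 v172 v173 v174 v175 v176 v177 v178 v179 v180 v181 v182 v183 v184 v185 v186 v187 v188 v189 v190 : ℝ} {Bs : ℂ} {v191 v192 v193 v194 v195 v196 v197 v198 v199 v200 v201 v202 v203 v204 v205 v206 v207 v208 v209 v210 v211 v212 v213 v214 v215 : ℝ} {DB : ℂ} {v216 v217 v218 v219 sax v220 v221 v222 v223 v224 v225 v226 v227 v228 v229 v230 v231 v232 v233 v234 v235 v236 v237 v238 Xv v239 v240 v241 v242 v243 v244 v245 v246 : ℝ} {L : ℂ} {v247 v248 v249 aV v250 v251 v252 v253 v254 v255 v256 v257 v258 v259 v260 v261 v262 v263 v264 v265 v266 v267 : ℝ} {ZB : ℂ} {v268 v269 v270 v271 v272 v273 v274 v275 v276 v277 v278 v279 v280 v281 v282 v283 v284 : ℝ} {H : ℂ} {v285 v286 v287 v288 v289 v290 E12 v291 v292 v293 v294 v295 v296 v297 v298 v299 v300 v301 v302 v303 v304 v305 v306 v307 : ℝ} {ZM : ℂ} {v308 v309 v310 v311 v312 v313 v314 v315 v316 v317 v318 v319 v320 v321 v322 v323 v324 v325 : ℝ} {G6 : ℂ} {v326 v327 v328 v329 v330 v331 v332 w v333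 v334 v335 v336 v337 D v338 v339 v340 sv v341 v342 v343 v344 v345 v346 : ℝ} {lr : ℂ} {v347 v348 v349 v350 v351 v352 v353 v354 v355 v356 v357 v358 v359 v360 : ℝ} {Aq : ℂ} {v361 v362 v363 v364 v365 v366 v367 v368 v369 v370 v371 : ℝ} {A1 : ℂ} {v372 v373 v374 v375 v376 v377 v378 pha v379 v380 v381 v382 v383 v384 v385 v386 v387 v388 v389 v390 v391 v392 v393 v394 v395 v396 v397 v398 v399 : ℝ} {B1 : ℂ} {v400 v401 v402 v403 v404 v405 v406 v407 : ℝ} {B0 : ℂ} {v408 v409 : ℝ} {gma : ℂ} {v410 v411 v412 v413 v414 v415 v416 v417 v418 v419 v420 v421 v422 v423 v424 v425 v426 v427 v428 v429 v430 v431 v432 v433 v434 : ℝ} {Ad : ℂ} {v435 v436 v437 v438 v439 v440 v441 v442 v443 v444 v445 v446 v447 v448 v449 v450 v451 v452 v453 phb v454 v455 v456 v457 v458 v459 v460 v461 v462 v463 v464 v465 v466 v467 v468 v469 v470 v471 v472 v473 v474 v475 v476 v477 v478 v479 : ℝ}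
    (h0 : v0 = r)
    (h2 : v2 = (2 : ℝ))
    (h4 : v4 = (1 : ℝ))
    (e_X_d : X = (⟨1, 2 * s - 1⟩ : ℂ))
    (e_X_re : X.re = (1 : ℝ))
    (e_X_im : v5 = X.im)
    (e_d_d : d = 1 - 2 * P.ys.re - 2 * (r * X.re))
    (e_d_v : v8 = d)
    (h9 : v9 = v5 * v5)
    (h10 : v10 = v9 + v4)
    (e_yx_d : yx = dt P.ys X)
    (e_S_d : S = 4 * ((P.ys.re - (1 - normSq P.ys) / (1 - 2 * P.ys.re)) * X.re + P.ys.im * X.im) ^ 2 - 2 * (1 - normSq P.ys) * normSq X + (4 * yx + normSq X * r) * normSq X * r)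
    (e_T_d : T = I * ((2 * S : ℝ) : ℂ) + I * (X * ((2 * yx + normSq X * r : ℝ) : ℂ) + P.ys * (normSq X : ℂ)) * (d : ℂ))
    (e_e_d : e = dt P.ns X)
    (e_f_d : f = P.fs + e * r)
    (e_f_v : v47 = f)
    (e_U_d : U = P.DV X * (d : ℂ) + T * (r : ℂ) - P.V0 / (P.fs : ℂ) * ((d * e : ℝ) : ℂ))
    (e_y_d : y = P.ys + X * (r : ℂ))
    (e_k_d : k = dt y P.ns)
    (e_fv_d : fv = P.fv y)
    (e_fv_re : v79 = fv.re)
    (e_fv_im : v83 = fv.im)
    (e_M_d : M = P.M X)
    (e_iM_d : iM = I * M)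
    (e_nM_d : nM = normSq M)
    (e_As_d : As = VAr P.cs r X)
    (e_Ax_d : Ax = VAxr P.c r X)
    (h139 : v139 = P.c.b11)
    (h140 : v140 = P.c.b12)
    (h143 : v143 = P.c.q1)
    (h144 : v144 = P.c.q2)
    (h147 : v147 = P.c.q3)
    (h152 : v152 = P.c.b21)
    (h153 : v153 = P.c.b22)
    (h156 : v156 = P.c.q4)
    (h157 : v157 = P.c.q5)
    (h160 : v160 = P.c.q6)
    (e_B_d : B = VBr P.c r X)
    (e_Bs_d : Bs = VBr P.cs r X)
    (e_DB_d : DB = VBd P.c (X * (r : ℂ)) U)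
    (e_sax_d : sax = dt P.sa X)
    (e_Xv_d : Xv = -dt P.a T - (e * sax + f * As) * d - dt Ax U + dt B iM * d)
    (e_L_d : L = P.L X)
    (e_aV_d : aV = dt Ax (P.V0 / (P.fs : ℂ)))
    (e_ZB_d : ZB = ((dt B (-(I * y)) : ℝ) : ℂ) * P.ns + ((dt B (I * P.vs - P.bs) : ℝ) : ℂ) * fv - (k : ℂ) * (I * B))
    (e_H_d : H = L - ((sax + As * r - aV : ℝ) : ℂ) * fv - (Bs + 2 * I * B) * (f : ℂ) - ZB)
    (h286 : v286 = (6 : ℝ))
    (e_E12_d : E12 = 12 * (f * Xv) - nM * d)
    (e_E12_v : v290 = E12)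
    (h291 : v291 = v47 * v47)
    (e_ZM_d : ZM = ((dt iM (-(I * y)) : ℝ) : ℂ) * P.ns + ((dt iM (I * P.vs - P.bs) : ℝ) : ℂ) * fv - (k : ℂ) * (I * iM))
    (e_G6_d : G6 = ZM * ((d * f : ℝ) : ℂ) + fv * ((r * (nM * d - 6 * (f * Xv)) : ℝ) : ℂ) + (H * (d : ℂ) - DB) * ((6 * f ^ 2 : ℝ) : ℂ))
    (e_G6_re : v324 = G6.re)
    (e_G6_im : v325 = G6.im)
    (e_w_d : w = 1 - normSq y)
    (e_D_d : D = 1 - 2 * dt (uu 2) y)
    (e_D_v : v337 = D)
    (e_sv_d : sv = 2 * s3 * w ^ 2)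
    (e_sv_v : v340 = sv)
    (e_lr_d : lr = (n.lam : ℂ) * e3 - X * (r : ℂ))
    (e_lr_re : v345 = lr.re)
    (e_lr_im : v346 = -lr.im)
    (e_Aq_d : Aq = VAq n.c1 X)
    (e_A1_d : A1 = VAxr n.c1 r X)
    (e_pha_d : pha = n.lam * dt Aq e3 - dt A1 X)
    (e_pha_v : v378 = pha)
    (h379 : v379 = v2 * v345)
    (h380 : v380 = v5 * v345)
    (h381 : v381 = v380 - v346)
    (h382 : v382 = v5 * v346)
    (h383 : v383 = v2 * v382)
    (e_B1_d : B1 = VBq n.c1 X lr)
    (e_B0_d : B0 = VBd n.c1 0 X)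
    (e_gma_d : gma = B1 - B0)
    (e_gma_re : v408 = gma.re)
    (e_gma_im : v409 = gma.im)
    (e_Ad_d : Ad = VAxr n.dc r X)
    (h437 : v437 = n.dy.re)
    (h438 : v438 = n.dy.im)
    (e_phb_d : phb = dt (n.da + Ad * (r : ℂ)) lr - dt (P.a + Ax * (r : ℂ)) n.dy)
    (e_phb_v : v453 = phb)
    (h454 : v454 = n.dc.b11)
    (h455 : v455 = v345 * v454)
    (h456 : v456 = n.dc.b12)
    (h457 : v457 = v346 * v456)
    (h458 : v458 = v455 - v457)
    (h459 : v459 = n.dc.q1)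
    (h460 : v460 = v379 * v459)
    (h461 : v461 = n.dc.q2)
    (h462 : v462 = v381 * v461)
    (h463 : v463 = v460 + v462)
    (h464 : v464 = n.dc.q3)
    (h465 : v465 = v383 * v464)
    (h466 : v466 = v463 - v465)
    (h467 : v467 = v0 * v466)
    (h468 : v468 = v458 + v467)
    (h469 : v469 = n.dc.b21)
    (h470 : v470 = v345 * v469)
    (h471 : v471 = n.dc.b22)
    (h472 : v472 = v346 * v471)
    (h473 : v473 = v470 - v472)
    (h474 : v474 = n.dc.q4)
    (h475 : v475 = v379 * v474)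
    (h476 : v476 = n.dc.q5)
    (h477 : v477 = v381 * v476)
    (h478 : v478 = v475 + v477)
    (h479 : v479 = n.dc.q6)
    (h : TrE (realAlg (fun i => get 0 (P.syl n.l) i) (r) (s)) (pNa.drop 480) [v479, v478, v477, v476, v475, v474, v473, v472, v471, v470, v469, v468, v467, v466, v465, v464, v463, v462, v461, v460, v459, v458, v457, v456, v455, v454, v453, v452, v451, v450, v449, v448, v447, v446, v445, v444, v443, v442, v441, v440, v439, v438, v437, v436, v435, v434, v433, v432, v431, v430, v429, v428, v427, v426, v425, v424, v423, v422, v421, v420, v419, v418, v417, v416, v415, v414, v413, v412, v411, v410, v409, v408, v407, v406, v405, v404, v403, v402, v401, v400, v399, v398, v397, v396, v395, v394, v393, v392, v391, v390, v389, v388, v387, v386, v385, v384, v383, v382, v381, v380, v379, v378, v377, v376, v375, v374, v373, v372, v371, v370, v369, v368, v367, v366, v365, v364, v363, v362, v361, v360, v359, v358,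 v357, v356, v355, v354, v353, v352, v351, v350, v349, v348, v347, v346, v345, v344, v343, v342, v341, v340, v339, v338, v337, v336, v335, v334, v333, v332, v331, v330, v329, v328, v327, v326, v325, v324, v323, v322, v321, v320, v319, v318, v317, v316, v315, v314, v313, v312, v311, v310, v309, v308, v307, v306, v305, v304, v303, v302, v301, v300, v299, v298, v297, v296, v295, v294, v293, v292, v291, v290, v289, v288, v287, v286, v285, v284, v283, v282, v281, v280, v279, v278, v277, v276, v275, v274, v273, v272, v271, v270, v269, v268, v267, v266, v265, v264, v263, v262, v261, v260, v259, v258, v257, v256, v255, v254, v253, v252, v251, v250, v249, v248, v247, v246, v245, v244, v243, v242, v241, v240, v239, v238, v237, v236, v235, v234, v233, v232, v231, v230, v229, v228, v227, v226, v225, v224, v223, v222, v221, v220, v219, v218, v217, v216, v215, v214, v213, v212, v211, v210, v209, v208, v207, v206, v205, v204, v203,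 v202, v201, v200, v199, v198, v197, v196, v195, v194, v193, v192, v191, v190, v189, v188, v187, v186, v185, v184, v183, v182, v181, v180, v179, v178, v177, v176, v175, v174, v173, v172, v171, v170, v169, v168, v167, v166, v165, v164, v163, v162, v161, v160, v159, v158, v157, v156, v155, v154, v153, v152, v151, v150, v149, v148, v147, v146, v145, v144, v143, v142, v141, v140, v139, v138, v137, v136, v135, v134, v133, v132, v131, v130, v129, v128, v127, v126, v125, v124, v123, v122, v121, v120, v119, v118, v117, v116, v115, v114, v113, v112, v111, v110, v109, v108, v107, v106, v105, v104, v103, v102, v101, v100, v99, v98, v97, v96, v95, v94, v93, v92, v91, v90, v89, v88, v87, v86, v85, v84, v83, v82, v81, v80, v79, v78, v77, v76, v75, v74, v73, v72, v71, v70, v69, v68, v67, v66, v65, v64, v63, v62, v61, v60, v59, v58, v57, v56, v55, v54, v53, v52, v51, v50, v49, v48, v47, v46, v45, v44, v43, v42, v41, v40, v39, v38, v37,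 v36, v35, v34, v33, v32, v31, v30, v29, v28, v27, v26, v25, v24, v23, v22, v21, v20, v19, v18, v17, v16, v15, v14, v13, v12, v11, v10, v9, v8, v7, v6, v5, v4, v3, v2, v1, v0] (fun st => run (realAlg (fun i => get 0 (P.syl n.l) i) (r) (s)) pNa [] = st)) :
    pNa_goal P n r s := by
  obtain ⟨v480, h480, h⟩ := h
  change v480 = v383 * v479 at h480
  obtain ⟨v481, h481, h⟩ := h
  change v481 = v478 - v480 at h481
  obtain ⟨v482, h482, h⟩ := h
  change v482 = v0 * v481 at h482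
  obtain ⟨v483, h483, h⟩ := h
  change v483 = v473 + v482 at h483
  obtain ⟨Bd, e_Bd_d⟩ : ∃ q : ℂ, q = VBd n.dc (X * (r : ℂ)) lr := ⟨_, rfl⟩
  have e_Bd_re : v468 = Bd.re := by
    rw [e_Bd_d]
    simp only [VBd_re, VBd_im, h468, h467, h466, h465, h464, h463, h462, h461, h460, h459, h458, h457, h456, h455, h454, h383, h382, h381, h380, h379, h2, h0, e_lr_im, e_X_im, e_lr_re, e_X_re, mul_re, mul_im, add_re, add_im, sub_re, sub_im, neg_re, neg_im, I_re, I_im, ofReal_re,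
      ofReal_im, one_re, one_im, zero_re, zero_im, dt, normSq_apply, re_ofNat, im_ofNat, conj_re, conj_im]
    try ring
  have e_Bd_im : v483 = Bd.im := by
    rw [e_Bd_d]
    simp only [VBd_re, VBd_im, h483, h482, h481, h480, h479, h478, h477, h476, h475, h474, h473, h472, h471, h470, h469, h383, h382, h381, h380, h379, h2, h0, e_lr_im, e_X_im, e_lr_re, e_X_re, mul_re, mul_im, add_re, add_im, sub_re, sub_im, neg_re, neg_im, I_re, I_im, ofReal_re,
      ofReal_im, one_re, one_im, zero_re, zero_im, dt, normSq_apply, re_ofNat, im_ofNat, conj_re, conj_im]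
    try ring
  obtain ⟨v484, h484, h⟩ := h
  change v484 = v2 * v437 at h484
  obtain ⟨v485, h485, h⟩ := h
  change v485 = v5 * v437 at h485
  obtain ⟨v486, h486, h⟩ := h
  change v486 = v438 + v485 at h486
  obtain ⟨v487, h487, h⟩ := h
  change v487 = v5 * v438 at h487
  obtain ⟨v488, h488, h⟩ := h
  change v488 = v2 * v487 at h488
  obtain ⟨v489, h489, h⟩ := h
  change v489 = v139 * v437 at h489
  obtain ⟨v490, h490, h⟩ := h
  change v490 = v140 * v438 at h490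
  obtain ⟨v491, h491, h⟩ := h
  change v491 = v489 + v490 at h491
  obtain ⟨v492, h492, h⟩ := h
  change v492 = v143 * v484 at h492
  obtain ⟨v493, h493, h⟩ := h
  change v493 = v144 * v486 at h493
  obtain ⟨v494, h494, h⟩ := h
  change v494 = v492 + v493 at h494
  obtain ⟨v495, h495, h⟩ := h
  change v495 = v147 * v488 at h495
  obtain ⟨v496, h496, h⟩ := h
  change v496 = v494 + v495 at h496
  obtain ⟨v497, h497, h⟩ := h
  change v497 = v0 * v496 at h497
  obtain ⟨v498, h498, h⟩ := h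
  change v498 = v491 + v497 at h498
  obtain ⟨v499, h499, h⟩ := h
  change v499 = v152 * v437 at h499
  obtain ⟨v500, h500, h⟩ := h
  change v500 = v153 * v438 at h500
  obtain ⟨v501, h501, h⟩ := h
  change v501 = v499 + v500 at h501
  obtain ⟨v502, h502, h⟩ := h
  change v502 = v156 * v484 at h502
  obtain ⟨v503, h503, h⟩ := h
  change v503 = v157 * v486 at h503
  obtain ⟨v504, h504, h⟩ := h
  change v504 = v502 + v503 at h504
  obtain ⟨v505, h505, h⟩ := h
  change v505 = v160 * v488 at h505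
  obtain ⟨v506, h506, h⟩ := h
  change v506 = v504 + v505 at h506
  obtain ⟨v507, h507, h⟩ := h
  change v507 = v0 * v506 at h507
  obtain ⟨v508, h508, h⟩ := h
  change v508 = v501 + v507 at h508
  obtain ⟨Bc, e_Bc_d⟩ : ∃ q : ℂ, q = VBd P.c (X * (r : ℂ)) n.dy := ⟨_, rfl⟩
  have e_Bc_re : v498 = Bc.re := by
    rw [e_Bc_d]
    simp only [VBd_re, VBd_im, h498, h497, h496, h495, h494, h493, h492, h491, h490, h489, h488, h487, h486, h485, h484, h438, h437, h147, h144, h143, h140, h139, h2, h0, e_X_im, e_X_re, mul_re, mul_im, add_re, add_im, sub_re, sub_im, neg_re, neg_im, I_re, I_im, ofReal_re,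
      ofReal_im, one_re, one_im, zero_re, zero_im, dt, normSq_apply, re_ofNat, im_ofNat, conj_re, conj_im]
    try ring
  have e_Bc_im : v508 = Bc.im := by
    rw [e_Bc_d]
    simp only [VBd_re, VBd_im, h508, h507, h506, h505, h504, h503, h502, h501, h500, h499, h488, h487, h486, h485, h484, h438, h437, h160, h157, h156, h153, h152, h2, h0, e_X_im, e_X_re, mul_re, mul_im, add_re, add_im, sub_re, sub_im, neg_re, neg_im, I_re, I_im, ofReal_re,
      ofReal_im, one_re, one_im, zero_re, zero_im, dt, normSq_apply, re_ofNat, im_ofNat, conj_re, conj_im]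
    try ring
  obtain ⟨v509, h509, h⟩ := h
  change v509 = v468 - v498 at h509
  obtain ⟨v510, h510, h⟩ := h
  change v510 = v483 - v508 at h510
  obtain ⟨gmb, e_gmb_d⟩ : ∃ q : ℂ, q = Bd - Bc := ⟨_, rfl⟩
  have e_gmb_re : v509 = gmb.re := by
    rw [e_gmb_d]
    simp only [h509, e_Bc_re, e_Bd_re, mul_re, mul_im, add_re, add_im, sub_re, sub_im, neg_re, neg_im, I_re, I_im, ofReal_re,
      ofReal_im, one_re, one_im, zero_re, zero_im, dt, normSq_apply, re_ofNat, im_ofNat, conj_re, conj_im]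
    try ring
  have e_gmb_im : v510 = gmb.im := by
    rw [e_gmb_d]
    simp only [h510, e_Bc_im, e_Bd_im, mul_re, mul_im, add_re, add_im, sub_re, sub_im, neg_re, neg_im, I_re, I_im, ofReal_re,
      ofReal_im, one_re, one_im, zero_re, zero_im, dt, normSq_apply, re_ofNat, im_ofNat, conj_re, conj_im]
    try ring
  obtain ⟨v511, h511, h⟩ := h
  change v511 = v291 * v291 at h511
  obtain ⟨v512, h512, h⟩ := h
  change v512 = v47 * v340 at h512
  obtain ⟨v513, h513, h⟩ := h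
  change v513 = v324 * v337 at h513
  obtain ⟨v514, h514, h⟩ := h
  change v514 = v325 * v337 at h514
  obtain ⟨v515, h515, h⟩ := h
  change v515 = v286 * v512 at h515
  obtain ⟨v516, h516, h⟩ := h
  change v516 = v0 * v378 at h516
  obtain ⟨v517, h517, h⟩ := h
  change v517 = v515 * v516 at h517
  obtain ⟨v518, h518, h⟩ := h
  change v518 = v79 * v517 at h518
  obtain ⟨v519, h519, h⟩ := h
  change v519 = v83 * v517 at h519
  exact pNa_c13 P n r s h0 h4 e_X_d e_X_re e_X_im e_d_d e_d_v h9 h10 e_yx_d e_S_d e_T_d e_e_d e_f_d e_f_v e_U_d e_y_d e_k_d e_fv_d e_fv_re e_fv_im e_M_d e_iM_d e_nM_d e_As_d e_Ax_d e_B_d e_Bs_d e_DB_d e_sax_d e_Xv_d e_L_d e_aV_d e_ZB_d e_H_d h286 e_E12_d e_E12_v h291 e_ZM_d e_G6_d e_G6_re e_G6_im e_w_d e_D_d e_D_v e_sv_d e_sv_v e_lr_d e_Aq_d e_A1_d e_pha_d e_pha_v e_B1_d e_B0_d e_gma_d e_gma_re e_gma_im e_Ad_d e_phb_d e_phb_v e_Bd_d e_Bc_d e_gmb_d e_gmb_re e_gmb_im h511 h512 h513 h514 h515 h516 h517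 h518 h519 h

theorem pNa_c11 (P : Pt) (n : Nd) (r s : ℝ) {v0 v1 v2 v3 v4 v5 : ℝ} {X : ℂ} {v6 v7 v8 d v9 v10 v11 v12 v13 v14 yx v15 v16 v17 v18 v19 v20 v21 v22 v23 v24 v25 v26 v27 v28 v29 S v30 v31 v32 v33 v34 v35 v36 v37 v38 v39 v40 : ℝ} {T : ℂ} {v41 v42 v43 v44 e v45 v46 v47 f v48 v49 v50 v51 v52 v53 v54 v55 v56 v57 v58 v59 v60 v61 v62 v63 v64 v65 v66 v67 v68 : ℝ} {U : ℂ} {v69 v70 v71 : ℝ} {y : ℂ} {v72 v73 v74 k v75 v76 v77 v78 v79 v80 v81 v82 v83 : ℝ} {fv : ℂ} {v84 v85 v86 v87 v88 v89 v90 v91 : ℝ} {M iM : ℂ} {v92 v93 v94 nM v95 v96 v97 v98 v99 v100 v101 v102 v103 v104 v105 v106 v107 v108 v109 v110 v111 v112 v113 As v114 v115 v116 v117 v118 v119 v120 v121 v122 v123 v124 v125 v126 v127 v128 v129 v130 v131 v132 v133 v134 v135 v136 v137 v138 : ℝ} {Ax : ℂ} {v139 v140 v141 v142 v143 v144 v145 v146 v147 v148 v149 v150 v151 v152 v153 v154 v155 v156 v157 v158 v159 v160 v161 v162 v163 v164 : ℝ} {B : ℂ} {v165 v166 v167 v168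 v169 v170 v171 v172 v173 v174 v175 v176 v177 v178 v179 v180 v181 v182 v183 v184 v185 v186 v187 v188 v189 v190 : ℝ} {Bs : ℂ} {v191 v192 v193 v194 v195 v196 v197 v198 v199 v200 v201 v202 v203 v204 v205 v206 v207 v208 v209 v210 v211 v212 v213 v214 v215 : ℝ} {DB : ℂ} {v216 v217 v218 v219 sax v220 v221 v222 v223 v224 v225 v226 v227 v228 v229 v230 v231 v232 v233 v234 v235 v236 v237 v238 Xv v239 v240 v241 v242 v243 v244 v245 v246 : ℝ} {L : ℂ} {v247 v248 v249 aV v250 v251 v252 v253 v254 v255 v256 v257 v258 v259 v260 v261 v262 v263 v264 v265 v266 v267 : ℝ} {ZB : ℂ} {v268 v269 v270 v271 v272 v273 v274 v275 v276 v277 v278 v279 v280 v281 v282 v283 v284 : ℝ} {H : ℂ} {v285 v286 v287 v288 v289 v290 E12 v291 v292 v293 v294 v295 v296 v297 v298 v299 v300 v301 v302 v303 v304 v305 v306 v307 : ℝ} {ZM : ℂ} {v308 v309 v310 v311 v312 v313 v314 v315 v316 v317 v318 v319 v320 v321 v322 v323 v324 v325 : ℝ} {G6 : ℂ} {v326 v327 v328 v329 v330 v331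 v332 w v333 v334 v335 v336 v337 D v338 v339 v340 sv v341 v342 v343 v344 v345 v346 : ℝ} {lr : ℂ} {v347 v348 v349 v350 v351 v352 v353 v354 v355 v356 v357 v358 v359 v360 : ℝ} {Aq : ℂ} {v361 v362 v363 v364 v365 v366 v367 v368 v369 v370 v371 : ℝ} {A1 : ℂ} {v372 v373 v374 v375 v376 v377 v378 pha v379 v380 v381 v382 v383 v384 v385 v386 v387 v388 v389 v390 v391 v392 v393 v394 v395 v396 v397 v398 v399 : ℝ} {B1 : ℂ} {v400 v401 v402 v403 v404 v405 v406 v407 : ℝ} {B0 : ℂ} {v408 v409 : ℝ} {gma : ℂ} {v410 v411 v412 v413 v414 v415 v416 v417 v418 v419 v420 v421 v422 v423 v424 v425 v426 v427 v428 v429 v430 v431 v432 v433 v434 : ℝ} {Ad : ℂ} {v435 v436 v437 v438 v439 : ℝ}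
    (h0 : v0 = r)
    (h2 : v2 = (2 : ℝ))
    (h4 : v4 = (1 : ℝ))
    (e_X_d : X = (⟨1, 2 * s - 1⟩ : ℂ))
    (e_X_re : X.re = (1 : ℝ))
    (e_X_im : v5 = X.im)
    (e_d_d : d = 1 - 2 * P.ys.re - 2 * (r * X.re))
    (e_d_v : v8 = d)
    (h9 : v9 = v5 * v5)
    (h10 : v10 = v9 + v4)
    (e_yx_d : yx = dt P.ys X)
    (e_S_d : S = 4 * ((P.ys.re - (1 - normSq P.ys) / (1 - 2 * P.ys.re)) * X.re + P.ys.im * X.im) ^ 2 - 2 * (1 - normSq P.ys) * normSq X + (4 * yx + normSq X * r) * normSq X * r)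
    (e_T_d : T = I * ((2 * S : ℝ) : ℂ) + I * (X * ((2 * yx + normSq X * r : ℝ) : ℂ) + P.ys * (normSq X : ℂ)) * (d : ℂ))
    (e_e_d : e = dt P.ns X)
    (e_f_d : f = P.fs + e * r)
    (e_f_v : v47 = f)
    (e_U_d : U = P.DV X * (d : ℂ) + T * (r : ℂ) - P.V0 / (P.fs : ℂ) * ((d * e : ℝ) : ℂ))
    (e_y_d : y = P.ys + X * (r : ℂ))
    (e_k_d : k = dt y P.ns)
    (e_fv_d : fv = P.fv y)
    (e_fv_re : v79 = fv.re)
    (e_fv_im : v83 = fv.im)
    (e_M_d : M = P.M X)
    (e_iM_d : iM = I * M)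
    (e_nM_d : nM = normSq M)
    (e_As_d : As = VAr P.cs r X)
    (e_Ax_d : Ax = VAxr P.c r X)
    (e_Ax_re : v126 = Ax.re)
    (e_Ax_im : v138 = Ax.im)
    (h139 : v139 = P.c.b11)
    (h140 : v140 = P.c.b12)
    (h143 : v143 = P.c.q1)
    (h144 : v144 = P.c.q2)
    (h147 : v147 = P.c.q3)
    (h152 : v152 = P.c.b21)
    (h153 : v153 = P.c.b22)
    (h156 : v156 = P.c.q4)
    (h157 : v157 = P.c.q5)
    (h160 : v160 = P.c.q6)
    (e_B_d : B = VBr P.c r X)
    (e_Bs_d : Bs = VBr P.cs r X)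
    (e_DB_d : DB = VBd P.c (X * (r : ℂ)) U)
    (e_sax_d : sax = dt P.sa X)
    (h220 : v220 = P.a.re)
    (h221 : v221 = P.a.im)
    (e_Xv_d : Xv = -dt P.a T - (e * sax + f * As) * d - dt Ax U + dt B iM * d)
    (e_L_d : L = P.L X)
    (e_aV_d : aV = dt Ax (P.V0 / (P.fs : ℂ)))
    (e_ZB_d : ZB = ((dt B (-(I * y)) : ℝ) : ℂ) * P.ns + ((dt B (I * P.vs - P.bs) : ℝ) : ℂ) * fv - (k : ℂ) * (I * B))
    (e_H_d : H = L - ((sax + As * r - aV : ℝ) : ℂ) * fv - (Bs + 2 * I * B) * (f : ℂ) - ZB)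
    (h286 : v286 = (6 : ℝ))
    (e_E12_d : E12 = 12 * (f * Xv) - nM * d)
    (e_E12_v : v290 = E12)
    (h291 : v291 = v47 * v47)
    (e_ZM_d : ZM = ((dt iM (-(I * y)) : ℝ) : ℂ) * P.ns + ((dt iM (I * P.vs - P.bs) : ℝ) : ℂ) * fv - (k : ℂ) * (I * iM))
    (e_G6_d : G6 = ZM * ((d * f : ℝ) : ℂ) + fv * ((r * (nM * d - 6 * (f * Xv)) : ℝ) : ℂ) + (H * (d : ℂ) - DB) * ((6 * f ^ 2 : ℝ) : ℂ))
    (e_G6_re : v324 = G6.re)
    (e_G6_im : v325 = G6.im)
    (e_w_d : w = 1 - normSq y)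
    (e_D_d : D = 1 - 2 * dt (uu 2) y)
    (e_D_v : v337 = D)
    (e_sv_d : sv = 2 * s3 * w ^ 2)
    (e_sv_v : v340 = sv)
    (e_lr_d : lr = (n.lam : ℂ) * e3 - X * (r : ℂ))
    (e_lr_re : v345 = lr.re)
    (e_lr_im : v346 = -lr.im)
    (e_Aq_d : Aq = VAq n.c1 X)
    (e_A1_d : A1 = VAxr n.c1 r X)
    (e_pha_d : pha = n.lam * dt Aq e3 - dt A1 X)
    (e_pha_v : v378 = pha)
    (h379 : v379 = v2 * v345)
    (h380 : v380 = v5 * v345)
    (h381 : v381 = v380 - v346)
    (h382 : v382 = v5 * v346)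
    (h383 : v383 = v2 * v382)
    (e_B1_d : B1 = VBq n.c1 X lr)
    (e_B0_d : B0 = VBd n.c1 0 X)
    (e_gma_d : gma = B1 - B0)
    (e_gma_re : v408 = gma.re)
    (e_gma_im : v409 = gma.im)
    (e_Ad_d : Ad = VAxr n.dc r X)
    (e_Ad_re : v422 = Ad.re)
    (e_Ad_im : v434 = Ad.im)
    (h435 : v435 = n.da.re)
    (h436 : v436 = n.da.im)
    (h437 : v437 = n.dy.re)
    (h438 : v438 = n.dy.im)
    (h439 : v439 = v0 * v422)
    (h : TrE (realAlg (fun i => get 0 (P.syl n.l) i) (r) (s)) (pNa.drop 440) [v439, v438, v437, v436, v435, v434, v433, v432, v431, v430, v429, v428, v427, v426, v425, v424, v423, v422, v421, v420, v419, v418, v417, v416, v415, v414, v413, v412, v411, v410, v409, v408, v407, v406, v405, v404, v403, v402, v401, v400, v399, v398, v397, v396, v395, v394, v393, v392, v391, v390, v389, v388, v387, v386, v385, v384, v383, v382, v381, v380, v379, v378, v377, v376, v375, v374, v373, v372, v371, v370, v369, v368,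 v367, v366, v365, v364, v363, v362, v361, v360, v359, v358, v357, v356, v355, v354, v353, v352, v351, v350, v349, v348, v347, v346, v345, v344, v343, v342, v341, v340, v339, v338, v337, v336, v335, v334, v333, v332, v331, v330, v329, v328, v327, v326, v325, v324, v323, v322, v321, v320, v319, v318, v317, v316, v315, v314, v313, v312, v311, v310, v309, v308, v307, v306, v305, v304, v303, v302, v301, v300, v299, v298, v297, v296, v295, v294, v293, v292, v291, v290, v289, v288, v287, v286, v285, v284, v283, v282, v281, v280, v279, v278, v277, v276, v275, v274, v273, v272, v271, v270, v269, v268, v267, v266, v265, v264, v263, v262, v261, v260, v259, v258, v257, v256, v255, v254, v253, v252, v251, v250, v249, v248, v247, v246, v245, v244, v243, v242, v241, v240, v239, v238, v237, v236, v235, v234, v233, v232, v231, v230, v229, v228, v227, v226, v225, v224, v223, v222, v221, v220, v219, v218, v217, v216, v215, v214, v213,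 v212, v211, v210, v209, v208, v207, v206, v205, v204, v203, v202, v201, v200, v199, v198, v197, v196, v195, v194, v193, v192, v191, v190, v189, v188, v187, v186, v185, v184, v183, v182, v181, v180, v179, v178, v177, v176, v175, v174, v173, v172, v171, v170, v169, v168, v167, v166, v165, v164, v163, v162, v161, v160, v159, v158, v157, v156, v155, v154, v153, v152, v151, v150, v149, v148, v147, v146, v145, v144, v143, v142, v141, v140, v139, v138, v137, v136, v135, v134, v133, v132, v131, v130, v129, v128, v127, v126, v125, v124, v123, v122, v121, v120, v119, v118, v117, v116, v115, v114, v113, v112, v111, v110, v109, v108, v107, v106, v105, v104, v103, v102, v101, v100, v99, v98, v97, v96, v95, v94, v93, v92, v91, v90, v89, v88, v87, v86, v85, v84, v83, v82, v81, v80, v79, v78, v77, v76, v75, v74, v73, v72, v71, v70, v69, v68, v67, v66, v65, v64, v63, v62, v61, v60, v59, v58, v57, v56, v55, v54, v53, v52, v51, v50, v49,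 v48, v47, v46, v45, v44, v43, v42, v41, v40, v39, v38, v37, v36, v35, v34, v33, v32, v31, v30, v29, v28, v27, v26, v25, v24, v23, v22, v21, v20, v19, v18, v17, v16, v15, v14, v13, v12, v11, v10, v9, v8, v7, v6, v5, v4, v3, v2, v1, v0] (fun st => run (realAlg (fun i => get 0 (P.syl n.l) i) (r) (s)) pNa [] = st)) :
    pNa_goal P n r s := by
  obtain ⟨v440, h440, h⟩ := h
  change v440 = v0 * v434 at h440
  obtain ⟨v441, h441, h⟩ := h
  change v441 = v435 + v439 at h441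
  obtain ⟨v442, h442, h⟩ := h
  change v442 = v436 + v440 at h442
  obtain ⟨v443, h443, h⟩ := h
  change v443 = v345 * v441 at h443
  obtain ⟨v444, h444, h⟩ := h
  change v444 = v346 * v442 at h444
  obtain ⟨v445, h445, h⟩ := h
  change v445 = v443 - v444 at h445
  obtain ⟨v446, h446, h⟩ := h
  change v446 = v0 * v126 at h446
  obtain ⟨v447, h447, h⟩ := h
  change v447 = v0 * v138 at h447
  obtain ⟨v448, h448, h⟩ := h
  change v448 = v220 + v446 at h448
  obtain ⟨v449, h449, h⟩ := h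
  change v449 = v221 + v447 at h449
  obtain ⟨v450, h450, h⟩ := h
  change v450 = v437 * v448 at h450
  obtain ⟨v451, h451, h⟩ := h
  change v451 = v438 * v449 at h451
  obtain ⟨v452, h452, h⟩ := h
  change v452 = v450 + v451 at h452
  obtain ⟨v453, h453, h⟩ := h
  change v453 = v445 - v452 at h453
  obtain ⟨phb, e_phb_d⟩ : ∃ q : ℝ, q = dt (n.da + Ad * (r : ℂ)) lr - dt (P.a + Ax * (r : ℂ)) n.dy := ⟨_, rfl⟩
  have e_phb_v : v453 = phb := by
    rw [e_phb_d]
    simp only [h453, h452, h451, h450, h449, h448, h447, h446, h445, h444, h443, h442, h441, h440, h439, h438, h437, h436, h435, h221, h220, h0, e_Ax_im, e_Ax_re, e_Ad_im, e_lr_im, e_Ad_re, e_lr_re, mul_re, mul_im, add_re, add_im, sub_re, sub_im, neg_re, neg_im, I_re, I_im, ofReal_re,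
      ofReal_im, one_re, one_im, zero_re, zero_im, dt, normSq_apply, re_ofNat, im_ofNat, conj_re, conj_im]
    try ring
  obtain ⟨v454, h454, h⟩ := h
  change v454 = n.dc.b11 at h454
  obtain ⟨v455, h455, h⟩ := h
  change v455 = v345 * v454 at h455
  obtain ⟨v456, h456, h⟩ := h
  change v456 = n.dc.b12 at h456
  obtain ⟨v457, h457, h⟩ := h
  change v457 = v346 * v456 at h457
  obtain ⟨v458, h458, h⟩ := h
  change v458 = v455 - v457 at h458
  obtain ⟨v459, h459, h⟩ := h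
  change v459 = n.dc.q1 at h459
  obtain ⟨v460, h460, h⟩ := h
  change v460 = v379 * v459 at h460
  obtain ⟨v461, h461, h⟩ := h
  change v461 = n.dc.q2 at h461
  obtain ⟨v462, h462, h⟩ := h
  change v462 = v381 * v461 at h462
  obtain ⟨v463, h463, h⟩ := h
  change v463 = v460 + v462 at h463
  obtain ⟨v464, h464, h⟩ := h
  change v464 = n.dc.q3 at h464
  obtain ⟨v465, h465, h⟩ := h
  change v465 = v383 * v464 at h465
  obtain ⟨v466, h466, h⟩ := h
  change v466 = v463 - v465 at h466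
  obtain ⟨v467, h467, h⟩ := h
  change v467 = v0 * v466 at h467
  obtain ⟨v468, h468, h⟩ := h
  change v468 = v458 + v467 at h468
  obtain ⟨v469, h469, h⟩ := h
  change v469 = n.dc.b21 at h469
  obtain ⟨v470, h470, h⟩ := h
  change v470 = v345 * v469 at h470
  obtain ⟨v471, h471, h⟩ := h
  change v471 = n.dc.b22 at h471
  obtain ⟨v472, h472, h⟩ := h
  change v472 = v346 * v471 at h472
  obtain ⟨v473, h473, h⟩ := h
  change v473 = v470 - v472 at h473
  obtain ⟨v474, h474, h⟩ := h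
  change v474 = n.dc.q4 at h474
  obtain ⟨v475, h475, h⟩ := h
  change v475 = v379 * v474 at h475
  obtain ⟨v476, h476, h⟩ := h
  change v476 = n.dc.q5 at h476
  obtain ⟨v477, h477, h⟩ := h
  change v477 = v381 * v476 at h477
  obtain ⟨v478, h478, h⟩ := h
  change v478 = v475 + v477 at h478
  obtain ⟨v479, h479, h⟩ := h
  change v479 = n.dc.q6 at h479
  exact pNa_c12 P n r s h0 h2 h4 e_X_d e_X_re e_X_im e_d_d e_d_v h9 h10 e_yx_d e_S_d e_T_d e_e_d e_f_d e_f_v e_U_d e_y_d e_k_d e_fv_d e_fv_re e_fv_im e_M_d e_iM_d e_nM_d e_As_d e_Ax_d h139 h140 h143 h144 h147 h152 h153 h156 h157 h160 e_B_d e_Bs_d e_DB_d e_sax_d e_Xv_d e_L_d e_aV_d e_ZB_d e_H_d h286 e_E12_d e_E12_v h291 e_ZM_d e_G6_d e_G6_re e_G6_im e_w_d e_D_d e_D_v e_sv_d e_sv_v e_lr_d e_lr_re e_lr_im e_Aq_d e_A1_d e_pha_d e_pha_v h379 h380 h381 h382 h383 e_B1_d e_B0_d e_gma_d e_gma_re e_gma_im e_Ad_d h437 h438 e_phb_d e_phb_v h454 h455 h456 h457 h458 h459 h460 h461 h462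 h463 h464 h465 h466 h467 h468 h469 h470 h471 h472 h473 h474 h475 h476 h477 h478 h479 h

theorem pNa_c10 (P : Pt) (n : Nd) (r s : ℝ) {v0 v1 v2 v3 v4 v5 : ℝ} {X : ℂ} {v6 v7 v8 d v9 v10 v11 v12 v13 v14 yx v15 v16 v17 v18 v19 v20 v21 v22 v23 v24 v25 v26 v27 v28 v29 S v30 v31 v32 v33 v34 v35 v36 v37 v38 v39 v40 : ℝ} {T : ℂ} {v41 v42 v43 v44 e v45 v46 v47 f v48 v49 v50 v51 v52 v53 v54 v55 v56 v57 v58 v59 v60 v61 v62 v63 v64 v65 v66 v67 v68 : ℝ} {U : ℂ} {v69 v70 v71 : ℝ} {y : ℂ} {v72 v73 v74 k v75 v76 v77 v78 v79 v80 v81 v82 v83 : ℝ} {fv : ℂ} {v84 v85 v86 v87 v88 v89 v90 v91 : ℝ} {M iM : ℂ} {v92 v93 v94 nM v95 v96 v97 v98 v99 v100 v101 v102 v103 v104 v105 v106 v107 v108 v109 v110 v111 v112 v113 As v114 v115 v116 v117 v118 v119 v120 v121 v122 v123 v124 v125 v126 v127 v128 v129 v130 v131 v132 v133 v134 v135 v136 v137 v138 : ℝ} {Ax : ℂ} {v139 v140 v141 v142 v143 v144 v145 v146 v147 v148 v149 v150 v151 v152 v153 v154 v155 v156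 v157 v158 v159 v160 v161 v162 v163 v164 : ℝ} {B : ℂ} {v165 v166 v167 v168 v169 v170 v171 v172 v173 v174 v175 v176 v177 v178 v179 v180 v181 v182 v183 v184 v185 v186 v187 v188 v189 v190 : ℝ} {Bs : ℂ} {v191 v192 v193 v194 v195 v196 v197 v198 v199 v200 v201 v202 v203 v204 v205 v206 v207 v208 v209 v210 v211 v212 v213 v214 v215 : ℝ} {DB : ℂ} {v216 v217 v218 v219 sax v220 v221 v222 v223 v224 v225 v226 v227 v228 v229 v230 v231 v232 v233 v234 v235 v236 v237 v238 Xv v239 v240 v241 v242 v243 v244 v245 v246 : ℝ} {L : ℂ} {v247 v248 v249 aV v250 v251 v252 v253 v254 v255 v256 v257 v258 v259 v260 v261 v262 v263 v264 v265 v266 v267 : ℝ} {ZB : ℂ} {v268 v269 v270 v271 v272 v273 v274 v275 v276 v277 v278 v279 v280 v281 v282 v283 v284 : ℝ} {H : ℂ} {v285 v286 v287 v288 v289 v290 E12 v291 v292 v293 v294 v295 v296 v297 v298 v299 v300 v301 v302 v303 v304 v305 v306 v307 : ℝ} {ZM : ℂ} {v308 v309 v310 v311 v312 v313 v314 v315 v316 v317 v318 v319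 v320 v321 v322 v323 v324 v325 : ℝ} {G6 : ℂ} {v326 v327 v328 v329 v330 v331 v332 w v333 v334 v335 v336 v337 D v338 v339 v340 sv v341 v342 v343 v344 v345 v346 : ℝ} {lr : ℂ} {v347 v348 v349 v350 v351 v352 v353 v354 v355 v356 v357 v358 v359 v360 : ℝ} {Aq : ℂ} {v361 v362 v363 v364 v365 v366 v367 v368 v369 v370 v371 : ℝ} {A1 : ℂ} {v372 v373 v374 v375 v376 v377 v378 pha v379 v380 v381 v382 v383 v384 v385 v386 v387 v388 v389 v390 v391 v392 v393 v394 v395 v396 v397 v398 v399 : ℝ} {B1 : ℂ}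
    (h0 : v0 = r)
    (h2 : v2 = (2 : ℝ))
    (h4 : v4 = (1 : ℝ))
    (e_X_d : X = (⟨1, 2 * s - 1⟩ : ℂ))
    (e_X_re : X.re = (1 : ℝ))
    (e_X_im : v5 = X.im)
    (e_d_d : d = 1 - 2 * P.ys.re - 2 * (r * X.re))
    (e_d_v : v8 = d)
    (h9 : v9 = v5 * v5)
    (h10 : v10 = v9 + v4)
    (e_yx_d : yx = dt P.ys X)
    (e_S_d : S = 4 * ((P.ys.re - (1 - normSq P.ys) / (1 - 2 * P.ys.re)) * X.re + P.ys.im * X.im) ^ 2 - 2 * (1 - normSq P.ys) * normSq X + (4 * yx + normSq X * r) * normSq X * r)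
    (e_T_d : T = I * ((2 * S : ℝ) : ℂ) + I * (X * ((2 * yx + normSq X * r : ℝ) : ℂ) + P.ys * (normSq X : ℂ)) * (d : ℂ))
    (e_e_d : e = dt P.ns X)
    (e_f_d : f = P.fs + e * r)
    (e_f_v : v47 = f)
    (e_U_d : U = P.DV X * (d : ℂ) + T * (r : ℂ) - P.V0 / (P.fs : ℂ) * ((d * e : ℝ) : ℂ))
    (e_y_d : y = P.ys + X * (r : ℂ))
    (e_k_d : k = dt y P.ns)
    (e_fv_d : fv = P.fv y)
    (e_fv_re : v79 = fv.re)
    (e_fv_im : v83 = fv.im)
    (e_M_d : M = P.M X)
    (e_iM_d : iM = I * M)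
    (e_nM_d : nM = normSq M)
    (e_As_d : As = VAr P.cs r X)
    (e_Ax_d : Ax = VAxr P.c r X)
    (e_Ax_re : v126 = Ax.re)
    (e_Ax_im : v138 = Ax.im)
    (h139 : v139 = P.c.b11)
    (h140 : v140 = P.c.b12)
    (h143 : v143 = P.c.q1)
    (h144 : v144 = P.c.q2)
    (h147 : v147 = P.c.q3)
    (h152 : v152 = P.c.b21)
    (h153 : v153 = P.c.b22)
    (h156 : v156 = P.c.q4)
    (h157 : v157 = P.c.q5)
    (h160 : v160 = P.c.q6)
    (e_B_d : B = VBr P.c r X)
    (e_Bs_d : Bs = VBr P.cs r X)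
    (e_DB_d : DB = VBd P.c (X * (r : ℂ)) U)
    (e_sax_d : sax = dt P.sa X)
    (h220 : v220 = P.a.re)
    (h221 : v221 = P.a.im)
    (e_Xv_d : Xv = -dt P.a T - (e * sax + f * As) * d - dt Ax U + dt B iM * d)
    (e_L_d : L = P.L X)
    (e_aV_d : aV = dt Ax (P.V0 / (P.fs : ℂ)))
    (e_ZB_d : ZB = ((dt B (-(I * y)) : ℝ) : ℂ) * P.ns + ((dt B (I * P.vs - P.bs) : ℝ) : ℂ) * fv - (k : ℂ) * (I * B))
    (e_H_d : H = L - ((sax + As * r - aV : ℝ) : ℂ) * fv - (Bs + 2 * I * B) * (f : ℂ) - ZB)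
    (h286 : v286 = (6 : ℝ))
    (e_E12_d : E12 = 12 * (f * Xv) - nM * d)
    (e_E12_v : v290 = E12)
    (h291 : v291 = v47 * v47)
    (e_ZM_d : ZM = ((dt iM (-(I * y)) : ℝ) : ℂ) * P.ns + ((dt iM (I * P.vs - P.bs) : ℝ) : ℂ) * fv - (k : ℂ) * (I * iM))
    (e_G6_d : G6 = ZM * ((d * f : ℝ) : ℂ) + fv * ((r * (nM * d - 6 * (f * Xv)) : ℝ) : ℂ) + (H * (d : ℂ) - DB) * ((6 * f ^ 2 : ℝ) : ℂ))
    (e_G6_re : v324 = G6.re)
    (e_G6_im : v325 = G6.im)
    (e_w_d : w = 1 - normSq y)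
    (e_D_d : D = 1 - 2 * dt (uu 2) y)
    (e_D_v : v337 = D)
    (e_sv_d : sv = 2 * s3 * w ^ 2)
    (e_sv_v : v340 = sv)
    (e_lr_d : lr = (n.lam : ℂ) * e3 - X * (r : ℂ))
    (e_lr_re : v345 = lr.re)
    (e_lr_im : v346 = -lr.im)
    (e_Aq_d : Aq = VAq n.c1 X)
    (e_A1_d : A1 = VAxr n.c1 r X)
    (e_pha_d : pha = n.lam * dt Aq e3 - dt A1 X)
    (e_pha_v : v378 = pha)
    (h379 : v379 = v2 * v345)
    (h380 : v380 = v5 * v345)
    (h381 : v381 = v380 - v346)
    (h382 : v382 = v5 * v346)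
    (h383 : v383 = v2 * v382)
    (e_B1_d : B1 = VBq n.c1 X lr)
    (e_B1_re : v391 = B1.re)
    (e_B1_im : v399 = B1.im)
    (h : TrE (realAlg (fun i => get 0 (P.syl n.l) i) (r) (s)) (pNa.drop 400) [v399, v398, v397, v396, v395, v394, v393, v392, v391, v390, v389, v388, v387, v386, v385, v384, v383, v382, v381, v380, v379, v378, v377, v376, v375, v374, v373, v372, v371, v370, v369, v368, v367, v366, v365, v364, v363, v362, v361, v360, v359, v358, v357, v356, v355, v354, v353, v352, v351, v350, v349, v348, v347, v346, v345, v344, v343, v342, v341, v340, v339, v338, v337, v336, v335, v334, v333, v332, v331, v330, v329, v328, v327, v326, v325, v324, v323, v322, v321, v320, v319, v318, v317, v316, v315, v314, v313, v312, v311, v310, v309, v308, v307, v306, v305, v304, v303, v302, v301, v300, v299, v298, v297, v296, v295, v294, v293, v292, v291, v290, v289, v288, v287, v286, v285, v284, v283, v282, v281, v280, v279, v278,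 v277, v276, v275, v274, v273, v272, v271, v270, v269, v268, v267, v266, v265, v264, v263, v262, v261, v260, v259, v258, v257, v256, v255, v254, v253, v252, v251, v250, v249, v248, v247, v246, v245, v244, v243, v242, v241, v240, v239, v238, v237, v236, v235, v234, v233, v232, v231, v230, v229, v228, v227, v226, v225, v224, v223, v222, v221, v220, v219, v218, v217, v216, v215, v214, v213, v212, v211, v210, v209, v208, v207, v206, v205, v204, v203, v202, v201, v200, v199, v198, v197, v196, v195, v194, v193, v192, v191, v190, v189, v188, v187, v186, v185, v184, v183, v182, v181, v180, v179, v178, v177, v176, v175, v174, v173, v172, v171, v170, v169, v168, v167, v166, v165, v164, v163, v162, v161, v160, v159, v158, v157, v156, v155, v154, v153, v152, v151, v150, v149, v148, v147, v146, v145, v144, v143, v142, v141, v140, v139, v138, v137, v136, v135, v134, v133, v132, v131, v130, v129, v128, v127, v126, v125, v124, v123,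 v122, v121, v120, v119, v118, v117, v116, v115, v114, v113, v112, v111, v110, v109, v108, v107, v106, v105, v104, v103, v102, v101, v100, v99, v98, v97, v96, v95, v94, v93, v92, v91, v90, v89, v88, v87, v86, v85, v84, v83, v82, v81, v80, v79, v78, v77, v76, v75, v74, v73, v72, v71, v70, v69, v68, v67, v66, v65, v64, v63, v62, v61, v60, v59, v58, v57, v56, v55, v54, v53, v52, v51, v50, v49, v48, v47, v46, v45, v44, v43, v42, v41, v40, v39, v38, v37, v36, v35, v34, v33, v32, v31, v30, v29, v28, v27, v26, v25, v24, v23, v22, v21, v20, v19, v18, v17, v16, v15, v14, v13, v12, v11, v10, v9, v8, v7, v6, v5, v4, v3, v2, v1, v0] (fun st => run (realAlg (fun i => get 0 (P.syl n.l) i) (r) (s)) pNa [] = st)) :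
    pNa_goal P n r s := by
  obtain ⟨v400, h400, h⟩ := h
  change v400 = n.c1.b11 at h400
  obtain ⟨v401, h401, h⟩ := h
  change v401 = n.c1.b12 at h401
  obtain ⟨v402, h402, h⟩ := h
  change v402 = v5 * v401 at h402
  obtain ⟨v403, h403, h⟩ := h
  change v403 = v400 + v402 at h403
  obtain ⟨v404, h404, h⟩ := h
  change v404 = n.c1.b21 at h404
  obtain ⟨v405, h405, h⟩ := h
  change v405 = n.c1.b22 at h405
  obtain ⟨v406, h406, h⟩ := h
  change v406 = v5 * v405 at h406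
  obtain ⟨v407, h407, h⟩ := h
  change v407 = v404 + v406 at h407
  obtain ⟨B0, e_B0_d⟩ : ∃ q : ℂ, q = VBd n.c1 0 X := ⟨_, rfl⟩
  have e_B0_re : v403 = B0.re := by
    rw [e_B0_d]
    simp only [VBz_re, VBz_im, h403, h402, h401, h400, e_X_im, e_X_re, mul_re, mul_im, add_re, add_im, sub_re, sub_im, neg_re, neg_im, I_re, I_im, ofReal_re,
      ofReal_im, one_re, one_im, zero_re, zero_im, dt, normSq_apply, re_ofNat, im_ofNat, conj_re, conj_im]
    try ring
  have e_B0_im : v407 = B0.im := by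
    rw [e_B0_d]
    simp only [VBz_re, VBz_im, h407, h406, h405, h404, e_X_im, e_X_re, mul_re, mul_im, add_re, add_im, sub_re, sub_im, neg_re, neg_im, I_re, I_im, ofReal_re,
      ofReal_im, one_re, one_im, zero_re, zero_im, dt, normSq_apply, re_ofNat, im_ofNat, conj_re, conj_im]
    try ring
  obtain ⟨v408, h408, h⟩ := h
  change v408 = v391 - v403 at h408
  obtain ⟨v409, h409, h⟩ := h
  change v409 = v399 - v407 at h409
  obtain ⟨gma, e_gma_d⟩ : ∃ q : ℂ, q = B1 - B0 := ⟨_, rfl⟩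
  have e_gma_re : v408 = gma.re := by
    rw [e_gma_d]
    simp only [h408, e_B0_re, e_B1_re, mul_re, mul_im, add_re, add_im, sub_re, sub_im, neg_re, neg_im, I_re, I_im, ofReal_re,
      ofReal_im, one_re, one_im, zero_re, zero_im, dt, normSq_apply, re_ofNat, im_ofNat, conj_re, conj_im]
    try ring
  have e_gma_im : v409 = gma.im := by
    rw [e_gma_d]
    simp only [h409, e_B0_im, e_B1_im, mul_re, mul_im, add_re, add_im, sub_re, sub_im, neg_re, neg_im, I_re, I_im, ofReal_re,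
      ofReal_im, one_re, one_im, zero_re, zero_im, dt, normSq_apply, re_ofNat, im_ofNat, conj_re, conj_im]
    try ring
  obtain ⟨v410, h410, h⟩ := h
  change v410 = 2 * n.dc.a20 at h410
  obtain ⟨v411, h411, h⟩ := h
  change v411 = n.dc.a11 at h411
  obtain ⟨v412, h412, h⟩ := h
  change v412 = v5 * v411 at h412
  obtain ⟨v413, h413, h⟩ := h
  change v413 = v410 + v412 at h413
  obtain ⟨v414, h414, h⟩ := h
  change v414 = 3 * n.dc.a30 at h414
  obtain ⟨v415, h415, h⟩ := h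
  change v415 = 2 * n.dc.a21 at h415
  obtain ⟨v416, h416, h⟩ := h
  change v416 = v5 * v415 at h416
  obtain ⟨v417, h417, h⟩ := h
  change v417 = v414 + v416 at h417
  obtain ⟨v418, h418, h⟩ := h
  change v418 = n.dc.a12 at h418
  obtain ⟨v419, h419, h⟩ := h
  change v419 = v9 * v418 at h419
  obtain ⟨v420, h420, h⟩ := h
  change v420 = v417 + v419 at h420
  obtain ⟨v421, h421, h⟩ := h
  change v421 = v0 * v420 at h421
  obtain ⟨v422, h422, h⟩ := h
  change v422 = v413 + v421 at h422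
  obtain ⟨v423, h423, h⟩ := h
  change v423 = 2 * n.dc.a02 at h423
  obtain ⟨v424, h424, h⟩ := h
  change v424 = v5 * v423 at h424
  obtain ⟨v425, h425, h⟩ := h
  change v425 = v411 + v424 at h425
  obtain ⟨v426, h426, h⟩ := h
  change v426 = n.dc.a21 at h426
  obtain ⟨v427, h427, h⟩ := h
  change v427 = 2 * n.dc.a12 at h427
  obtain ⟨v428, h428, h⟩ := h
  change v428 = v5 * v427 at h428
  obtain ⟨v429, h429, h⟩ := h
  change v429 = v426 + v428 at h429
  obtain ⟨v430, h430, h⟩ := h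
  change v430 = 3 * n.dc.a03 at h430
  obtain ⟨v431, h431, h⟩ := h
  change v431 = v9 * v430 at h431
  obtain ⟨v432, h432, h⟩ := h
  change v432 = v429 + v431 at h432
  obtain ⟨v433, h433, h⟩ := h
  change v433 = v0 * v432 at h433
  obtain ⟨v434, h434, h⟩ := h
  change v434 = v425 + v433 at h434
  obtain ⟨Ad, e_Ad_d⟩ : ∃ q : ℂ, q = VAxr n.dc r X := ⟨_, rfl⟩
  have e_Ad_re : v422 = Ad.re := by
    rw [e_Ad_d]
    simp only [VAxr_re, VAxr_im, h422, h421, h420, h419, h418, h417, h416, h415, h414, h413, h412, h411, h410, h9, h0, e_X_im, e_X_re, mul_re, mul_im, add_re, add_im, sub_re, sub_im, neg_re, neg_im, I_re, I_im, ofReal_re,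
      ofReal_im, one_re, one_im, zero_re, zero_im, dt, normSq_apply, re_ofNat, im_ofNat, conj_re, conj_im]
    try ring
  have e_Ad_im : v434 = Ad.im := by
    rw [e_Ad_d]
    simp only [VAxr_re, VAxr_im, h434, h433, h432, h431, h430, h429, h428, h427, h426, h425, h424, h423, h411, h9, h0, e_X_im, e_X_re, mul_re, mul_im, add_re, add_im, sub_re, sub_im, neg_re, neg_im, I_re, I_im, ofReal_re,
      ofReal_im, one_re, one_im, zero_re, zero_im, dt, normSq_apply, re_ofNat, im_ofNat, conj_re, conj_im]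
    try ring
  obtain ⟨v435, h435, h⟩ := h
  change v435 = n.da.re at h435
  obtain ⟨v436, h436, h⟩ := h
  change v436 = n.da.im at h436
  obtain ⟨v437, h437, h⟩ := h
  change v437 = n.dy.re at h437
  obtain ⟨v438, h438, h⟩ := h
  change v438 = n.dy.im at h438
  obtain ⟨v439, h439, h⟩ := h
  change v439 = v0 * v422 at h439
  exact pNa_c11 P n r s h0 h2 h4 e_X_d e_X_re e_X_im e_d_d e_d_v h9 h10 e_yx_d e_S_d e_T_d e_e_d e_f_d e_f_v e_U_d e_y_d e_k_d e_fv_d e_fv_re e_fv_im e_M_d e_iM_d e_nM_d e_As_d e_Ax_d e_Ax_re e_Ax_im h139 h140 h143 h144 h147 h152 h153 h156 h157 h160 e_B_d e_Bs_d e_DB_d e_sax_d h220 h221 e_Xv_d e_L_d e_aV_d e_ZB_d e_H_d h286 e_E12_d e_E12_v h291 e_ZM_d e_G6_d e_G6_re e_G6_im e_w_d e_D_d e_D_v e_sv_d e_sv_v e_lr_d e_lr_re e_lr_im e_Aq_d e_A1_d e_pha_d e_pha_v h379 h380 h381 h382 h383 e_B1_d e_B0_d e_gma_d e_gma_re e_gma_im e_Ad_d e_Ad_re e_Ad_im h435 h436 h437 h438 h439 h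

theorem pNa_c9 (P : Pt) (n : Nd) (r s : ℝ) {v0 v1 v2 v3 v4 v5 : ℝ} {X : ℂ} {v6 v7 v8 d v9 v10 v11 v12 v13 v14 yx v15 v16 v17 v18 v19 v20 v21 v22 v23 v24 v25 v26 v27 v28 v29 S v30 v31 v32 v33 v34 v35 v36 v37 v38 v39 v40 : ℝ} {T : ℂ} {v41 v42 v43 v44 e v45 v46 v47 f v48 v49 v50 v51 v52 v53 v54 v55 v56 v57 v58 v59 v60 v61 v62 v63 v64 v65 v66 v67 v68 : ℝ} {U : ℂ} {v69 v70 v71 : ℝ} {y : ℂ} {v72 v73 v74 k v75 v76 v77 v78 v79 v80 v81 v82 v83 : ℝ} {fv : ℂ} {v84 v85 v86 v87 v88 v89 v90 v91 : ℝ} {M iM : ℂ} {v92 v93 v94 nM v95 v96 v97 v98 v99 v100 v101 v102 v103 v104 v105 v106 v107 v108 v109 v110 v111 v112 v113 As v114 v115 v116 v117 v118 v119 v120 v121 v122 v123 v124 v125 v126 v127 v128 v129 v130 v131 v132 v133 v134 v135 v136 v137 v138 : ℝ} {Ax : ℂ} {v139 v140 v141 v142 v143 v144 v145 v146 v147 v148 v149 v150 v151 v152 v153 v154 v155 v156 v157 v158 v159 v160 v161 v162 v163 v164 : ℝ} {B : ℂ} {v165 v166 v167 v168 v169 v170 v171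 v172 v173 v174 v175 v176 v177 v178 v179 v180 v181 v182 v183 v184 v185 v186 v187 v188 v189 v190 : ℝ} {Bs : ℂ} {v191 v192 v193 v194 v195 v196 v197 v198 v199 v200 v201 v202 v203 v204 v205 v206 v207 v208 v209 v210 v211 v212 v213 v214 v215 : ℝ} {DB : ℂ} {v216 v217 v218 v219 sax v220 v221 v222 v223 v224 v225 v226 v227 v228 v229 v230 v231 v232 v233 v234 v235 v236 v237 v238 Xv v239 v240 v241 v242 v243 v244 v245 v246 : ℝ} {L : ℂ} {v247 v248 v249 aV v250 v251 v252 v253 v254 v255 v256 v257 v258 v259 v260 v261 v262 v263 v264 v265 v266 v267 : ℝ} {ZB : ℂ} {v268 v269 v270 v271 v272 v273 v274 v275 v276 v277 v278 v279 v280 v281 v282 v283 v284 : ℝ} {H : ℂ} {v285 v286 v287 v288 v289 v290 E12 v291 v292 v293 v294 v295 v296 v297 v298 v299 v300 v301 v302 v303 v304 v305 v306 v307 : ℝ} {ZM : ℂ} {v308 v309 v310 v311 v312 v313 v314 v315 v316 v317 v318 v319 v320 v321 v322 v323 v324 v325 : ℝ} {G6 : ℂ} {v326 v327 v328 v329 v330 v331 v332 w v333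 v334 v335 v336 v337 D v338 v339 v340 sv v341 v342 v343 v344 v345 v346 : ℝ} {lr : ℂ} {v347 v348 v349 v350 v351 v352 v353 v354 v355 v356 v357 v358 v359 : ℝ}
    (h0 : v0 = r)
    (h2 : v2 = (2 : ℝ))
    (h4 : v4 = (1 : ℝ))
    (e_X_d : X = (⟨1, 2 * s - 1⟩ : ℂ))
    (e_X_re : X.re = (1 : ℝ))
    (e_X_im : v5 = X.im)
    (e_d_d : d = 1 - 2 * P.ys.re - 2 * (r * X.re))
    (e_d_v : v8 = d)
    (h9 : v9 = v5 * v5)
    (h10 : v10 = v9 + v4)
    (e_yx_d : yx = dt P.ys X)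
    (e_S_d : S = 4 * ((P.ys.re - (1 - normSq P.ys) / (1 - 2 * P.ys.re)) * X.re + P.ys.im * X.im) ^ 2 - 2 * (1 - normSq P.ys) * normSq X + (4 * yx + normSq X * r) * normSq X * r)
    (e_T_d : T = I * ((2 * S : ℝ) : ℂ) + I * (X * ((2 * yx + normSq X * r : ℝ) : ℂ) + P.ys * (normSq X : ℂ)) * (d : ℂ))
    (e_e_d : e = dt P.ns X)
    (e_f_d : f = P.fs + e * r)
    (e_f_v : v47 = f)
    (e_U_d : U = P.DV X * (d : ℂ) + T * (r : ℂ) - P.V0 / (P.fs : ℂ) * ((d * e : ℝ) : ℂ))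
    (e_y_d : y = P.ys + X * (r : ℂ))
    (e_k_d : k = dt y P.ns)
    (e_fv_d : fv = P.fv y)
    (e_fv_re : v79 = fv.re)
    (e_fv_im : v83 = fv.im)
    (e_M_d : M = P.M X)
    (e_iM_d : iM = I * M)
    (e_nM_d : nM = normSq M)
    (e_As_d : As = VAr P.cs r X)
    (e_Ax_d : Ax = VAxr P.c r X)
    (e_Ax_re : v126 = Ax.re)
    (e_Ax_im : v138 = Ax.im)
    (h139 : v139 = P.c.b11)
    (h140 : v140 = P.c.b12)
    (h143 : v143 = P.c.q1)
    (h144 : v144 = P.c.q2)
    (h147 : v147 = P.c.q3)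
    (h152 : v152 = P.c.b21)
    (h153 : v153 = P.c.b22)
    (h156 : v156 = P.c.q4)
    (h157 : v157 = P.c.q5)
    (h160 : v160 = P.c.q6)
    (e_B_d : B = VBr P.c r X)
    (e_Bs_d : Bs = VBr P.cs r X)
    (e_DB_d : DB = VBd P.c (X * (r : ℂ)) U)
    (e_sax_d : sax = dt P.sa X)
    (h220 : v220 = P.a.re)
    (h221 : v221 = P.a.im)
    (e_Xv_d : Xv = -dt P.a T - (e * sax + f * As) * d - dt Ax U + dt B iM * d)
    (e_L_d : L = P.L X)
    (e_aV_d : aV = dt Ax (P.V0 / (P.fs : ℂ)))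
    (e_ZB_d : ZB = ((dt B (-(I * y)) : ℝ) : ℂ) * P.ns + ((dt B (I * P.vs - P.bs) : ℝ) : ℂ) * fv - (k : ℂ) * (I * B))
    (e_H_d : H = L - ((sax + As * r - aV : ℝ) : ℂ) * fv - (Bs + 2 * I * B) * (f : ℂ) - ZB)
    (h286 : v286 = (6 : ℝ))
    (e_E12_d : E12 = 12 * (f * Xv) - nM * d)
    (e_E12_v : v290 = E12)
    (h291 : v291 = v47 * v47)
    (e_ZM_d : ZM = ((dt iM (-(I * y)) : ℝ) : ℂ) * P.ns + ((dt iM (I * P.vs - P.bs) : ℝ) : ℂ) * fv - (k : ℂ) * (I * iM))
    (e_G6_d : G6 = ZM * ((d * f : ℝ) : ℂ) + fv * ((r * (nM * d - 6 * (f * Xv)) : ℝ) : ℂ) + (H * (d : ℂ) - DB) * ((6 * f ^ 2 : ℝ) : ℂ))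
    (e_G6_re : v324 = G6.re)
    (e_G6_im : v325 = G6.im)
    (h326 : v326 = s3)
    (h327 : v327 = (1 : ℝ) / 2 ^ 1)
    (h328 : v328 = v326 * v327)
    (e_w_d : w = 1 - normSq y)
    (e_D_d : D = 1 - 2 * dt (uu 2) y)
    (e_D_v : v337 = D)
    (e_sv_d : sv = 2 * s3 * w ^ 2)
    (e_sv_v : v340 = sv)
    (h341 : v341 = n.lam)
    (e_lr_d : lr = (n.lam : ℂ) * e3 - X * (r : ℂ))
    (e_lr_re : v345 = lr.re)
    (e_lr_im : v346 = -lr.im)
    (h347 : v347 = 3 * n.c1.a30)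
    (h348 : v348 = 2 * n.c1.a21)
    (h349 : v349 = v5 * v348)
    (h350 : v350 = v347 + v349)
    (h351 : v351 = n.c1.a12)
    (h352 : v352 = v9 * v351)
    (h353 : v353 = v350 + v352)
    (h354 : v354 = n.c1.a21)
    (h355 : v355 = 2 * n.c1.a12)
    (h356 : v356 = v5 * v355)
    (h357 : v357 = v354 + v356)
    (h358 : v358 = 3 * n.c1.a03)
    (h359 : v359 = v9 * v358)
    (h : TrE (realAlg (fun i => get 0 (P.syl n.l) i) (r) (s)) (pNa.drop 360) [v359, v358, v357, v356, v355, v354, v353, v352, v351, v350, v349, v348, v347, v346, v345, v344, v343, v342, v341, v340, v339, v338, v337, v336, v335, v334, v333, v332, v331, v330, v329, v328, v327, v326, v325, v324, v323, v322, v321, v320, v319, v318, v317, v316, v315, v314, v313, v312, v311, v310, v309, v308, v307, v306, v305, v304, v303, v302, v301, v300, v299, v298, v297, v296, v295, v294, v293, v292, v291, v290, v289, v288, v287, v286, v285, v284, v283, v282, v281, v280,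 v279, v278, v277, v276, v275, v274, v273, v272, v271, v270, v269, v268, v267, v266, v265, v264, v263, v262, v261, v260, v259, v258, v257, v256, v255, v254, v253, v252, v251, v250, v249, v248, v247, v246, v245, v244, v243, v242, v241, v240, v239, v238, v237, v236, v235, v234, v233, v232, v231, v230, v229, v228, v227, v226, v225, v224, v223, v222, v221, v220, v219, v218, v217, v216, v215, v214, v213, v212, v211, v210, v209, v208, v207, v206, v205, v204, v203, v202, v201, v200, v199, v198, v197, v196, v195, v194, v193, v192, v191, v190, v189, v188, v187, v186, v185, v184, v183, v182, v181, v180, v179, v178, v177, v176, v175, v174, v173, v172, v171, v170, v169, v168, v167, v166, v165, v164, v163, v162, v161, v160, v159, v158, v157, v156, v155, v154, v153, v152, v151, v150, v149, v148, v147, v146, v145, v144, v143, v142, v141, v140, v139, v138, v137, v136, v135, v134, v133, v132, v131, v130, v129, v128, v127, v126, v125,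 v124, v123, v122, v121, v120, v119, v118, v117, v116, v115, v114, v113, v112, v111, v110, v109, v108, v107, v106, v105, v104, v103, v102, v101, v100, v99, v98, v97, v96, v95, v94, v93, v92, v91, v90, v89, v88, v87, v86, v85, v84, v83, v82, v81, v80, v79, v78, v77, v76, v75, v74, v73, v72, v71, v70, v69, v68, v67, v66, v65, v64, v63, v62, v61, v60, v59, v58, v57, v56, v55, v54, v53, v52, v51, v50, v49, v48, v47, v46, v45, v44, v43, v42, v41, v40, v39, v38, v37, v36, v35, v34, v33, v32, v31, v30, v29, v28, v27, v26, v25, v24, v23, v22, v21, v20, v19, v18, v17, v16, v15, v14, v13, v12, v11, v10, v9, v8, v7, v6, v5, v4, v3, v2, v1, v0] (fun st => run (realAlg (fun i => get 0 (P.syl n.l) i) (r) (s)) pNa [] = st)) :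
    pNa_goal P n r s := by
  obtain ⟨v360, h360, h⟩ := h
  change v360 = v357 + v359 at h360
  obtain ⟨Aq, e_Aq_d⟩ : ∃ q : ℂ, q = VAq n.c1 X := ⟨_, rfl⟩
  have e_Aq_re : v353 = Aq.re := by
    rw [e_Aq_d]
    simp only [VAq_re, VAq_im, h353, h352, h351, h350, h349, h348, h347, h9, e_X_im, e_X_re, mul_re, mul_im, add_re, add_im, sub_re, sub_im, neg_re, neg_im, I_re, I_im, ofReal_re,
      ofReal_im, one_re, one_im, zero_re, zero_im, dt, normSq_apply, re_ofNat, im_ofNat, conj_re, conj_im]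
    try ring
  have e_Aq_im : v360 = Aq.im := by
    rw [e_Aq_d]
    simp only [VAq_re, VAq_im, h360, h359, h358, h357, h356, h355, h354, h9, e_X_im, e_X_re, mul_re, mul_im, add_re, add_im, sub_re, sub_im, neg_re, neg_im, I_re, I_im, ofReal_re,
      ofReal_im, one_re, one_im, zero_re, zero_im, dt, normSq_apply, re_ofNat, im_ofNat, conj_re, conj_im]
    try ring
  obtain ⟨v361, h361, h⟩ := h
  change v361 = 2 * n.c1.a20 at h361
  obtain ⟨v362, h362, h⟩ := h
  change v362 = n.c1.a11 at h362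
  obtain ⟨v363, h363, h⟩ := h
  change v363 = v5 * v362 at h363
  obtain ⟨v364, h364, h⟩ := h
  change v364 = v361 + v363 at h364
  obtain ⟨v365, h365, h⟩ := h
  change v365 = v0 * v353 at h365
  obtain ⟨v366, h366, h⟩ := h
  change v366 = v364 + v365 at h366
  obtain ⟨v367, h367, h⟩ := h
  change v367 = 2 * n.c1.a02 at h367
  obtain ⟨v368, h368, h⟩ := h
  change v368 = v5 * v367 at h368
  obtain ⟨v369, h369, h⟩ := h
  change v369 = v362 + v368 at h369
  obtain ⟨v370, h370, h⟩ := h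
  change v370 = v0 * v360 at h370
  obtain ⟨v371, h371, h⟩ := h
  change v371 = v369 + v370 at h371
  obtain ⟨A1, e_A1_d⟩ : ∃ q : ℂ, q = VAxr n.c1 r X := ⟨_, rfl⟩
  have e_A1_re : v366 = A1.re := by
    rw [e_A1_d]
    simp only [VAxr_re, VAxr_im, h366, h365, h364, h363, h362, h361, h353, h352, h351, h350, h349, h348, h347, h9, h0, e_X_im, e_X_re, mul_re, mul_im, add_re, add_im, sub_re, sub_im, neg_re, neg_im, I_re, I_im, ofReal_re,
      ofReal_im, one_re, one_im, zero_re, zero_im, dt, normSq_apply, re_ofNat, im_ofNat, conj_re, conj_im]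
    try ring
  have e_A1_im : v371 = A1.im := by
    rw [e_A1_d]
    simp only [VAxr_re, VAxr_im, h371, h370, h369, h368, h367, h362, h360, h359, h358, h357, h356, h355, h354, h9, h0, e_X_im, e_X_re, mul_re, mul_im, add_re, add_im, sub_re, sub_im, neg_re, neg_im, I_re, I_im, ofReal_re,
      ofReal_im, one_re, one_im, zero_re, zero_im, dt, normSq_apply, re_ofNat, im_ofNat, conj_re, conj_im]
    try ring
  obtain ⟨v372, h372, h⟩ := h
  change v372 = v327 * v353 at h372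
  obtain ⟨v373, h373, h⟩ := h
  change v373 = v328 * v360 at h373
  obtain ⟨v374, h374, h⟩ := h
  change v374 = v372 - v373 at h374
  obtain ⟨v375, h375, h⟩ := h
  change v375 = v341 * v374 at h375
  obtain ⟨v376, h376, h⟩ := h
  change v376 = v5 * v371 at h376
  obtain ⟨v377, h377, h⟩ := h
  change v377 = v366 + v376 at h377
  obtain ⟨v378, h378, h⟩ := h
  change v378 = v375 - v377 at h378
  obtain ⟨pha, e_pha_d⟩ : ∃ q : ℝ, q = n.lam * dt Aq e3 - dt A1 X := ⟨_, rfl⟩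
  have e_pha_v : v378 = pha := by
    rw [e_pha_d]
    simp only [e3_re, e3_im, h378, h377, h376, h375, h374, h373, h372, h341, h328, h327, h326, e_A1_im, e_X_im, e_A1_re, e_Aq_im, e_Aq_re, e_X_re, mul_re, mul_im, add_re, add_im, sub_re, sub_im, neg_re, neg_im, I_re, I_im, ofReal_re,
      ofReal_im, one_re, one_im, zero_re, zero_im, dt, normSq_apply, re_ofNat, im_ofNat, conj_re, conj_im]
    try ring
  obtain ⟨v379, h379, h⟩ := h
  change v379 = v2 * v345 at h379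
  obtain ⟨v380, h380, h⟩ := h
  change v380 = v5 * v345 at h380
  obtain ⟨v381, h381, h⟩ := h
  change v381 = v380 - v346 at h381
  obtain ⟨v382, h382, h⟩ := h
  change v382 = v5 * v346 at h382
  obtain ⟨v383, h383, h⟩ := h
  change v383 = v2 * v382 at h383
  obtain ⟨v384, h384, h⟩ := h
  change v384 = n.c1.q1 at h384
  obtain ⟨v385, h385, h⟩ := h
  change v385 = v379 * v384 at h385
  obtain ⟨v386, h386, h⟩ := h
  change v386 = n.c1.q2 at h386
  obtain ⟨v387, h387, h⟩ := h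
  change v387 = v381 * v386 at h387
  obtain ⟨v388, h388, h⟩ := h
  change v388 = v385 + v387 at h388
  obtain ⟨v389, h389, h⟩ := h
  change v389 = n.c1.q3 at h389
  obtain ⟨v390, h390, h⟩ := h
  change v390 = v383 * v389 at h390
  obtain ⟨v391, h391, h⟩ := h
  change v391 = v388 - v390 at h391
  obtain ⟨v392, h392, h⟩ := h
  change v392 = n.c1.q4 at h392
  obtain ⟨v393, h393, h⟩ := h
  change v393 = v379 * v392 at h393
  obtain ⟨v394, h394, h⟩ := h
  change v394 = n.c1.q5 at h394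
  obtain ⟨v395, h395, h⟩ := h
  change v395 = v381 * v394 at h395
  obtain ⟨v396, h396, h⟩ := h
  change v396 = v393 + v395 at h396
  obtain ⟨v397, h397, h⟩ := h
  change v397 = n.c1.q6 at h397
  obtain ⟨v398, h398, h⟩ := h
  change v398 = v383 * v397 at h398
  obtain ⟨v399, h399, h⟩ := h
  change v399 = v396 - v398 at h399
  obtain ⟨B1, e_B1_d⟩ : ∃ q : ℂ, q = VBq n.c1 X lr := ⟨_, rfl⟩
  have e_B1_re : v391 = B1.re := by
    rw [e_B1_d]
    simp only [VBq_re, VBq_im, h391, h390, h389, h388, h387, h386, h385, h384, h383, h382, h381, h380, h379, h2, e_lr_im, e_X_im, e_lr_re, e_X_re, mul_re, mul_im, add_re, add_im, sub_re, sub_im, neg_re, neg_im, I_re, I_im, ofReal_re,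
      ofReal_im, one_re, one_im, zero_re, zero_im, dt, normSq_apply, re_ofNat, im_ofNat, conj_re, conj_im]
    try ring
  have e_B1_im : v399 = B1.im := by
    rw [e_B1_d]
    simp only [VBq_re, VBq_im, h399, h398, h397, h396, h395, h394, h393, h392, h383, h382, h381, h380, h379, h2, e_lr_im, e_X_im, e_lr_re, e_X_re, mul_re, mul_im, add_re, add_im, sub_re, sub_im, neg_re, neg_im, I_re, I_im, ofReal_re,
      ofReal_im, one_re, one_im, zero_re, zero_im, dt, normSq_apply, re_ofNat, im_ofNat, conj_re, conj_im]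
    try ring
  exact pNa_c10 P n r s h0 h2 h4 e_X_d e_X_re e_X_im e_d_d e_d_v h9 h10 e_yx_d e_S_d e_T_d e_e_d e_f_d e_f_v e_U_d e_y_d e_k_d e_fv_d e_fv_re e_fv_im e_M_d e_iM_d e_nM_d e_As_d e_Ax_d e_Ax_re e_Ax_im h139 h140 h143 h144 h147 h152 h153 h156 h157 h160 e_B_d e_Bs_d e_DB_d e_sax_d h220 h221 e_Xv_d e_L_d e_aV_d e_ZB_d e_H_d h286 e_E12_d e_E12_v h291 e_ZM_d e_G6_d e_G6_re e_G6_im e_w_d e_D_d e_D_v e_sv_d e_sv_v e_lr_d e_lr_re e_lr_im e_Aq_d e_A1_d e_pha_d e_pha_v h379 h380 h381 h382 h383 e_B1_d e_B1_re e_B1_im h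

theorem pNa_c8 (P : Pt) (n : Nd) (r s : ℝ) {v0 v1 v2 v3 v4 v5 : ℝ} {X : ℂ} {v6 v7 v8 d v9 v10 v11 v12 v13 v14 yx v15 v16 v17 v18 v19 v20 v21 v22 v23 v24 v25 v26 v27 v28 v29 S v30 v31 v32 v33 v34 v35 v36 v37 v38 v39 v40 : ℝ} {T : ℂ} {v41 v42 v43 v44 e v45 v46 v47 f v48 v49 v50 v51 v52 v53 v54 v55 v56 v57 v58 v59 v60 v61 v62 v63 v64 v65 v66 v67 v68 : ℝ} {U : ℂ} {v69 v70 v71 : ℝ} {y : ℂ} {v72 v73 v74 k v75 v76 v77 v78 v79 v80 v81 v82 v83 : ℝ} {fv : ℂ} {v84 v85 v86 v87 v88 v89 v90 v91 : ℝ} {M iM : ℂ} {v92 v93 v94 nM v95 v96 v97 v98 v99 v100 v101 v102 v103 v104 v105 v106 v107 v108 v109 v110 v111 v112 v113 As v114 v115 v116 v117 v118 v119 v120 v121 v122 v123 v124 v125 v126 v127 v128 v129 v130 v131 v132 v133 v134 v135 v136 v137 v138 : ℝ} {Ax : ℂ} {v139 v140 v141 v142 v143 v144 v145 v146 v147 v148 v149 v150 v151 v152 v153 v154 v155 v156 v157 v158 v159 v160 v161 v162 v163 v164 : ℝ} {B : ℂ} {v165 v166 v167 v168 v169 v170 v171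 v172 v173 v174 v175 v176 v177 v178 v179 v180 v181 v182 v183 v184 v185 v186 v187 v188 v189 v190 : ℝ} {Bs : ℂ} {v191 v192 v193 v194 v195 v196 v197 v198 v199 v200 v201 v202 v203 v204 v205 v206 v207 v208 v209 v210 v211 v212 v213 v214 v215 : ℝ} {DB : ℂ} {v216 v217 v218 v219 sax v220 v221 v222 v223 v224 v225 v226 v227 v228 v229 v230 v231 v232 v233 v234 v235 v236 v237 v238 Xv v239 v240 v241 v242 v243 v244 v245 v246 : ℝ} {L : ℂ} {v247 v248 v249 aV v250 v251 v252 v253 v254 v255 v256 v257 v258 v259 v260 v261 v262 v263 v264 v265 v266 v267 : ℝ} {ZB : ℂ} {v268 v269 v270 v271 v272 v273 v274 v275 v276 v277 v278 v279 v280 v281 v282 v283 v284 : ℝ} {H : ℂ} {v285 v286 v287 v288 v289 v290 E12 v291 v292 v293 v294 v295 v296 v297 v298 v299 v300 v301 v302 v303 v304 v305 v306 v307 : ℝ} {ZM : ℂ} {v308 v309 v310 v311 v312 v313 v314 v315 v316 v317 v318 v319 : ℝ}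
    (h0 : v0 = r)
    (h2 : v2 = (2 : ℝ))
    (h4 : v4 = (1 : ℝ))
    (e_X_d : X = (⟨1, 2 * s - 1⟩ : ℂ))
    (e_X_re : X.re = (1 : ℝ))
    (e_X_im : v5 = X.im)
    (e_d_d : d = 1 - 2 * P.ys.re - 2 * (r * X.re))
    (e_d_v : v8 = d)
    (h9 : v9 = v5 * v5)
    (h10 : v10 = v9 + v4)
    (e_yx_d : yx = dt P.ys X)
    (e_S_d : S = 4 * ((P.ys.re - (1 - normSq P.ys) / (1 - 2 * P.ys.re)) * X.re + P.ys.im * X.im) ^ 2 - 2 * (1 - normSq P.ys) * normSq X + (4 * yx + normSq X * r) * normSq X * r)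
    (e_T_d : T = I * ((2 * S : ℝ) : ℂ) + I * (X * ((2 * yx + normSq X * r : ℝ) : ℂ) + P.ys * (normSq X : ℂ)) * (d : ℂ))
    (e_e_d : e = dt P.ns X)
    (e_f_d : f = P.fs + e * r)
    (e_f_v : v47 = f)
    (e_U_d : U = P.DV X * (d : ℂ) + T * (r : ℂ) - P.V0 / (P.fs : ℂ) * ((d * e : ℝ) : ℂ))
    (h69 : v69 = v0 * v5)
    (e_y_d : y = P.ys + X * (r : ℂ))
    (e_y_re : v70 = y.re)
    (e_y_im : v71 = y.im)
    (e_k_d : k = dt y P.ns)
    (e_fv_d : fv = P.fv y)
    (e_fv_re : v79 = fv.re)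
    (e_fv_im : v83 = fv.im)
    (e_M_d : M = P.M X)
    (e_iM_d : iM = I * M)
    (e_nM_d : nM = normSq M)
    (e_nM_v : v94 = nM)
    (e_As_d : As = VAr P.cs r X)
    (e_Ax_d : Ax = VAxr P.c r X)
    (e_Ax_re : v126 = Ax.re)
    (e_Ax_im : v138 = Ax.im)
    (h139 : v139 = P.c.b11)
    (h140 : v140 = P.c.b12)
    (h143 : v143 = P.c.q1)
    (h144 : v144 = P.c.q2)
    (h147 : v147 = P.c.q3)
    (h152 : v152 = P.c.b21)
    (h153 : v153 = P.c.b22)
    (h156 : v156 = P.c.q4)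
    (h157 : v157 = P.c.q5)
    (h160 : v160 = P.c.q6)
    (e_B_d : B = VBr P.c r X)
    (e_Bs_d : Bs = VBr P.cs r X)
    (e_DB_d : DB = VBd P.c (X * (r : ℂ)) U)
    (e_DB_re : v205 = DB.re)
    (e_DB_im : v215 = DB.im)
    (e_sax_d : sax = dt P.sa X)
    (h220 : v220 = P.a.re)
    (h221 : v221 = P.a.im)
    (e_Xv_d : Xv = -dt P.a T - (e * sax + f * As) * d - dt Ax U + dt B iM * d)
    (e_Xv_v : v238 = Xv)
    (e_L_d : L = P.L X)
    (e_aV_d : aV = dt Ax (P.V0 / (P.fs : ℂ)))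
    (e_ZB_d : ZB = ((dt B (-(I * y)) : ℝ) : ℂ) * P.ns + ((dt B (I * P.vs - P.bs) : ℝ) : ℂ) * fv - (k : ℂ) * (I * B))
    (e_H_d : H = L - ((sax + As * r - aV : ℝ) : ℂ) * fv - (Bs + 2 * I * B) * (f : ℂ) - ZB)
    (e_H_re : v283 = H.re)
    (e_H_im : v284 = H.im)
    (h285 : v285 = v47 * v238)
    (h286 : v286 = (6 : ℝ))
    (h287 : v287 = v285 * v286)
    (h288 : v288 = v8 * v94)
    (e_E12_d : E12 = 12 * (f * Xv) - nM * d)
    (e_E12_v : v290 = E12)
    (h291 : v291 = v47 * v47)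
    (e_ZM_d : ZM = ((dt iM (-(I * y)) : ℝ) : ℂ) * P.ns + ((dt iM (I * P.vs - P.bs) : ℝ) : ℂ) * fv - (k : ℂ) * (I * iM))
    (e_ZM_re : v306 = ZM.re)
    (e_ZM_im : v307 = ZM.im)
    (h308 : v308 = v8 * v47)
    (h309 : v309 = v306 * v308)
    (h310 : v310 = v307 * v308)
    (h311 : v311 = v288 - v287)
    (h312 : v312 = v0 * v311)
    (h313 : v313 = v79 * v312)
    (h314 : v314 = v83 * v312)
    (h315 : v315 = v309 + v313)
    (h316 : v316 = v310 + v314)
    (h317 : v317 = v8 * v283)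
    (h318 : v318 = v8 * v284)
    (h319 : v319 = v317 - v205)
    (h : TrE (realAlg (fun i => get 0 (P.syl n.l) i) (r) (s)) (pNa.drop 320) [v319, v318, v317, v316, v315, v314, v313, v312, v311, v310, v309, v308, v307, v306, v305, v304, v303, v302, v301, v300, v299, v298, v297, v296, v295, v294, v293, v292, v291, v290, v289, v288, v287, v286, v285, v284, v283, v282, v281, v280, v279, v278, v277, v276, v275, v274, v273, v272, v271, v270, v269, v268, v267, v266, v265, v264, v263, v262, v261, v260, v259, v258, v257, v256, v255, v254, v253, v252, v251, v250, v249, v248, v247, v246, v245, v244, v243, v242, v241, v240, v239, v238, v237, v236, v235, v234, v233, v232, v231, v230, v229, v228, v227, v226, v225, v224, v223, v222, v221, v220, v219, v218, v217, v216, v215, v214, v213, v212, v211, v210, v209, v208, v207, v206, v205, v204, v203, v202, v201, v200, v199, v198, v197, v196, v195, v194, v193, v192, v191, v190, v189, v188,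 v187, v186, v185, v184, v183, v182, v181, v180, v179, v178, v177, v176, v175, v174, v173, v172, v171, v170, v169, v168, v167, v166, v165, v164, v163, v162, v161, v160, v159, v158, v157, v156, v155, v154, v153, v152, v151, v150, v149, v148, v147, v146, v145, v144, v143, v142, v141, v140, v139, v138, v137, v136, v135, v134, v133, v132, v131, v130, v129, v128, v127, v126, v125, v124, v123, v122, v121, v120, v119, v118, v117, v116, v115, v114, v113, v112, v111, v110, v109, v108, v107, v106, v105, v104, v103, v102, v101, v100, v99, v98, v97, v96, v95, v94, v93, v92, v91, v90, v89, v88, v87, v86, v85, v84, v83, v82, v81, v80, v79, v78, v77, v76, v75, v74, v73, v72, v71, v70, v69, v68, v67, v66, v65, v64, v63, v62, v61, v60, v59, v58, v57, v56, v55, v54, v53, v52, v51, v50, v49, v48, v47, v46, v45, v44, v43, v42, v41, v40, v39, v38, v37, v36, v35, v34, v33, v32, v31, v30, v29, v28, v27, v26, v25, v24, v23, v22, v21, v20, v19,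 v18, v17, v16, v15, v14, v13, v12, v11, v10, v9, v8, v7, v6, v5, v4, v3, v2, v1, v0] (fun st => run (realAlg (fun i => get 0 (P.syl n.l) i) (r) (s)) pNa [] = st)) :
    pNa_goal P n r s := by
  obtain ⟨v320, h320, h⟩ := h
  change v320 = v318 - v215 at h320
  obtain ⟨v321, h321, h⟩ := h
  change v321 = v286 * v291 at h321
  obtain ⟨v322, h322, h⟩ := h
  change v322 = v319 * v321 at h322
  obtain ⟨v323, h323, h⟩ := h
  change v323 = v320 * v321 at h323
  obtain ⟨v324, h324, h⟩ := h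
  change v324 = v315 + v322 at h324
  obtain ⟨v325, h325, h⟩ := h
  change v325 = v316 + v323 at h325
  obtain ⟨G6, e_G6_d⟩ : ∃ q : ℂ, q = ZM * ((d * f : ℝ) : ℂ) + fv * ((r * (nM * d - 6 * (f * Xv)) : ℝ) : ℂ) + (H * (d : ℂ) - DB) * ((6 * f ^ 2 : ℝ) : ℂ) := ⟨_, rfl⟩
  have e_G6_re : v324 = G6.re := by
    rw [e_G6_d]
    simp only [h324, h322, h321, h319, h317, h315, h313, h312, h311, h309, h308, h291, h288, h287, h286, h285, h0, e_f_v, e_DB_re, e_H_re, e_d_v, e_Xv_v, e_nM_v, e_fv_re, e_ZM_re, mul_re, mul_im, add_re, add_im, sub_re, sub_im, neg_re, neg_im, I_re, I_im, ofReal_re,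
      ofReal_im, one_re, one_im, zero_re, zero_im, dt, normSq_apply, re_ofNat, im_ofNat, conj_re, conj_im]
    try ring
  have e_G6_im : v325 = G6.im := by
    rw [e_G6_d]
    simp only [h325, h323, h321, h320, h318, h316, h314, h312, h311, h310, h308, h291, h288, h287, h286, h285, h0, e_f_v, e_DB_im, e_H_im, e_d_v, e_Xv_v, e_nM_v, e_fv_im, e_ZM_im, mul_re, mul_im, add_re, add_im, sub_re, sub_im, neg_re, neg_im, I_re, I_im, ofReal_re,
      ofReal_im, one_re, one_im, zero_re, zero_im, dt, normSq_apply, re_ofNat, im_ofNat, conj_re, conj_im]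
    try ring
  obtain ⟨v326, h326, h⟩ := h
  change v326 = s3 at h326
  obtain ⟨v327, h327, h⟩ := h
  replace h327 : v327 = (1 : ℝ) / 2 ^ 1 := by rw [h327]; norm_num [step, realAlg]
  obtain ⟨v328, h328, h⟩ := h
  change v328 = v326 * v327 at h328
  obtain ⟨v329, h329, h⟩ := h
  change v329 = v70 * v70 at h329
  obtain ⟨v330, h330, h⟩ := h
  change v330 = v71 * v71 at h330
  obtain ⟨v331, h331, h⟩ := h
  change v331 = v329 + v330 at h331
  obtain ⟨v332, h332, h⟩ := h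
  change v332 = v4 - v331 at h332
  obtain ⟨w, e_w_d⟩ : ∃ q : ℝ, q = 1 - normSq y := ⟨_, rfl⟩
  have e_w_v : v332 = w := by
    rw [e_w_d]
    simp only [h332, h331, h330, h329, h4, e_y_im, e_y_re, mul_re, mul_im, add_re, add_im, sub_re, sub_im, neg_re, neg_im, I_re, I_im, ofReal_re,
      ofReal_im, one_re, one_im, zero_re, zero_im, dt, normSq_apply, re_ofNat, im_ofNat, conj_re, conj_im]
    try ring
  obtain ⟨v333, h333, h⟩ := h
  change v333 = v70 * v327 at h333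
  obtain ⟨v334, h334, h⟩ := h
  change v334 = v71 * v328 at h334
  obtain ⟨v335, h335, h⟩ := h
  change v335 = v333 + v334 at h335
  obtain ⟨v336, h336, h⟩ := h
  change v336 = v2 * v335 at h336
  obtain ⟨v337, h337, h⟩ := h
  change v337 = v336 + v4 at h337
  obtain ⟨D, e_D_d⟩ : ∃ q : ℝ, q = 1 - 2 * dt (uu 2) y := ⟨_, rfl⟩
  have e_D_v : v337 = D := by
    rw [e_D_d]
    simp only [uu2_re, uu2_im, h337, h336, h335, h334, h333, h328, h327, h326, h4, h2, e_y_im, e_y_re, mul_re, mul_im, add_re, add_im, sub_re, sub_im, neg_re, neg_im, I_re, I_im, ofReal_re,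
      ofReal_im, one_re, one_im, zero_re, zero_im, dt, normSq_apply, re_ofNat, im_ofNat, conj_re, conj_im]
    try ring
  obtain ⟨v338, h338, h⟩ := h
  change v338 = v2 * v326 at h338
  obtain ⟨v339, h339, h⟩ := h
  change v339 = v332 * v332 at h339
  obtain ⟨v340, h340, h⟩ := h
  change v340 = v338 * v339 at h340
  obtain ⟨sv, e_sv_d⟩ : ∃ q : ℝ, q = 2 * s3 * w ^ 2 := ⟨_, rfl⟩
  have e_sv_v : v340 = sv := by
    rw [e_sv_d]
    simp only [h340, h339, h338, h326, h2, e_w_v, mul_re, mul_im, add_re, add_im, sub_re, sub_im, neg_re, neg_im, I_re, I_im, ofReal_re,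
      ofReal_im, one_re, one_im, zero_re, zero_im, dt, normSq_apply, re_ofNat, im_ofNat, conj_re, conj_im]
    try ring
  obtain ⟨v341, h341, h⟩ := h
  change v341 = n.lam at h341
  obtain ⟨v342, h342, h⟩ := h
  change v342 = v327 * v341 at h342
  obtain ⟨v343, h343, h⟩ := h
  change v343 = v326 * v341 at h343
  obtain ⟨v344, h344, h⟩ := h
  change v344 = v327 * v343 at h344
  obtain ⟨v345, h345, h⟩ := h
  change v345 = v342 - v0 at h345
  obtain ⟨v346, h346, h⟩ := h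
  change v346 = v69 + v344 at h346
  obtain ⟨lr, e_lr_d⟩ : ∃ q : ℂ, q = (n.lam : ℂ) * e3 - X * (r : ℂ) := ⟨_, rfl⟩
  have e_lr_re : v345 = lr.re := by
    rw [e_lr_d]
    simp only [e3_re, e3_im, h345, h342, h341, h327, h0, e_X_re, mul_re, mul_im, add_re, add_im, sub_re, sub_im, neg_re, neg_im, I_re, I_im, ofReal_re,
      ofReal_im, one_re, one_im, zero_re, zero_im, dt, normSq_apply, re_ofNat, im_ofNat, conj_re, conj_im]
    try ring
  have e_lr_im : v346 = -lr.im := by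
    rw [e_lr_d]
    simp only [e3_re, e3_im, h346, h344, h343, h341, h327, h326, h69, h0, e_X_im, e_X_re, mul_re, mul_im, add_re, add_im, sub_re, sub_im, neg_re, neg_im, I_re, I_im, ofReal_re,
      ofReal_im, one_re, one_im, zero_re, zero_im, dt, normSq_apply, re_ofNat, im_ofNat, conj_re, conj_im]
    try ring
  obtain ⟨v347, h347, h⟩ := h
  change v347 = 3 * n.c1.a30 at h347
  obtain ⟨v348, h348, h⟩ := h
  change v348 = 2 * n.c1.a21 at h348
  obtain ⟨v349, h349, h⟩ := h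
  change v349 = v5 * v348 at h349
  obtain ⟨v350, h350, h⟩ := h
  change v350 = v347 + v349 at h350
  obtain ⟨v351, h351, h⟩ := h
  change v351 = n.c1.a12 at h351
  obtain ⟨v352, h352, h⟩ := h
  change v352 = v9 * v351 at h352
  obtain ⟨v353, h353, h⟩ := h
  change v353 = v350 + v352 at h353
  obtain ⟨v354, h354, h⟩ := h
  change v354 = n.c1.a21 at h354
  obtain ⟨v355, h355, h⟩ := h
  change v355 = 2 * n.c1.a12 at h355
  obtain ⟨v356, h356, h⟩ := h
  change v356 = v5 * v355 at h356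
  obtain ⟨v357, h357, h⟩ := h
  change v357 = v354 + v356 at h357
  obtain ⟨v358, h358, h⟩ := h
  change v358 = 3 * n.c1.a03 at h358
  obtain ⟨v359, h359, h⟩ := h
  change v359 = v9 * v358 at h359
  exact pNa_c9 P n r s h0 h2 h4 e_X_d e_X_re e_X_im e_d_d e_d_v h9 h10 e_yx_d e_S_d e_T_d e_e_d e_f_d e_f_v e_U_d e_y_d e_k_d e_fv_d e_fv_re e_fv_im e_M_d e_iM_d e_nM_d e_As_d e_Ax_d e_Ax_re e_Ax_im h139 h140 h143 h144 h147 h152 h153 h156 h157 h160 e_B_d e_Bs_d e_DB_d e_sax_d h220 h221 e_Xv_d e_L_d e_aV_d e_ZB_d e_H_d h286 e_E12_d e_E12_v h291 e_ZM_d e_G6_d e_G6_re e_G6_im h326 h327 h328 e_w_d e_D_d e_D_v e_sv_d e_sv_v h341 e_lr_d e_lr_re e_lr_im h347 h348 h349 h350 h351 h352 h353 h354 h355 h356 h357 h358 h359 h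

theorem pNa_c7 (P : Pt) (n : Nd) (r s : ℝ) {v0 v1 v2 v3 v4 v5 : ℝ} {X : ℂ} {v6 v7 v8 d v9 v10 v11 v12 v13 v14 yx v15 v16 v17 v18 v19 v20 v21 v22 v23 v24 v25 v26 v27 v28 v29 S v30 v31 v32 v33 v34 v35 v36 v37 v38 v39 v40 : ℝ} {T : ℂ} {v41 v42 v43 v44 e v45 v46 v47 f v48 v49 v50 v51 v52 v53 v54 v55 v56 v57 v58 v59 v60 v61 v62 v63 v64 v65 v66 v67 v68 : ℝ} {U : ℂ} {v69 v70 v71 : ℝ} {y : ℂ} {v72 v73 v74 k v75 v76 v77 v78 v79 v80 v81 v82 v83 : ℝ} {fv : ℂ} {v84 v85 v86 v87 v88 v89 v90 v91 : ℝ} {M iM : ℂ} {v92 v93 v94 nM v95 v96 v97 v98 v99 v100 v101 v102 v103 v104 v105 v106 v107 v108 v109 v110 v111 v112 v113 As v114 v115 v116 v117 v118 v119 v120 v121 v122 v123 v124 v125 v126 v127 v128 v129 v130 v131 v132 v133 v134 v135 v136 v137 v138 : ℝ} {Ax : ℂ} {v139 v140 v141 v142 v143 v144 v145 v146 v147 v148 v149 v150 v151 v152 v153 v154 v155 v156 v157 v158 v159 v160 v161 v162 v163 v164 : ℝ} {B : ℂ} {v165 v166 v167 v168 v169 v170 v171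 v172 v173 v174 v175 v176 v177 v178 v179 v180 v181 v182 v183 v184 v185 v186 v187 v188 v189 v190 : ℝ} {Bs : ℂ} {v191 v192 v193 v194 v195 v196 v197 v198 v199 v200 v201 v202 v203 v204 v205 v206 v207 v208 v209 v210 v211 v212 v213 v214 v215 : ℝ} {DB : ℂ} {v216 v217 v218 v219 sax v220 v221 v222 v223 v224 v225 v226 v227 v228 v229 v230 v231 v232 v233 v234 v235 v236 v237 v238 Xv v239 v240 v241 v242 v243 v244 v245 v246 : ℝ} {L : ℂ} {v247 v248 v249 aV v250 v251 v252 v253 v254 v255 v256 v257 v258 v259 v260 v261 v262 v263 v264 v265 v266 v267 : ℝ} {ZB : ℂ} {v268 v269 v270 v271 v272 v273 v274 v275 v276 v277 v278 v279 : ℝ}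
    (h0 : v0 = r)
    (h2 : v2 = (2 : ℝ))
    (h4 : v4 = (1 : ℝ))
    (e_X_d : X = (⟨1, 2 * s - 1⟩ : ℂ))
    (e_X_re : X.re = (1 : ℝ))
    (e_X_im : v5 = X.im)
    (e_d_d : d = 1 - 2 * P.ys.re - 2 * (r * X.re))
    (e_d_v : v8 = d)
    (h9 : v9 = v5 * v5)
    (h10 : v10 = v9 + v4)
    (e_yx_d : yx = dt P.ys X)
    (e_S_d : S = 4 * ((P.ys.re - (1 - normSq P.ys) / (1 - 2 * P.ys.re)) * X.re + P.ys.im * X.im) ^ 2 - 2 * (1 - normSq P.ys) * normSq X + (4 * yx + normSq X * r) * normSq X * r)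
    (e_T_d : T = I * ((2 * S : ℝ) : ℂ) + I * (X * ((2 * yx + normSq X * r : ℝ) : ℂ) + P.ys * (normSq X : ℂ)) * (d : ℂ))
    (h41 : v41 = P.ns.re)
    (h42 : v42 = P.ns.im)
    (e_e_d : e = dt P.ns X)
    (e_f_d : f = P.fs + e * r)
    (e_f_v : v47 = f)
    (e_U_d : U = P.DV X * (d : ℂ) + T * (r : ℂ) - P.V0 / (P.fs : ℂ) * ((d * e : ℝ) : ℂ))
    (h69 : v69 = v0 * v5)
    (e_y_d : y = P.ys + X * (r : ℂ))
    (e_y_re : v70 = y.re)
    (e_y_im : v71 = y.im)
    (e_k_d : k = dt y P.ns)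
    (e_k_v : v74 = k)
    (e_fv_d : fv = P.fv y)
    (e_fv_re : v79 = fv.re)
    (e_fv_im : v83 = fv.im)
    (e_M_d : M = P.M X)
    (e_iM_d : iM = I * M)
    (e_iM_re : v91 = -iM.re)
    (e_iM_im : v87 = iM.im)
    (e_nM_d : nM = normSq M)
    (e_nM_v : v94 = nM)
    (e_As_d : As = VAr P.cs r X)
    (e_As_v : v113 = As)
    (e_Ax_d : Ax = VAxr P.c r X)
    (e_Ax_re : v126 = Ax.re)
    (e_Ax_im : v138 = Ax.im)
    (h139 : v139 = P.c.b11)
    (h140 : v140 = P.c.b12)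
    (h143 : v143 = P.c.q1)
    (h144 : v144 = P.c.q2)
    (h147 : v147 = P.c.q3)
    (h152 : v152 = P.c.b21)
    (h153 : v153 = P.c.b22)
    (h156 : v156 = P.c.q4)
    (h157 : v157 = P.c.q5)
    (h160 : v160 = P.c.q6)
    (e_B_d : B = VBr P.c r X)
    (e_B_re : v151 = B.re)
    (e_B_im : v164 = B.im)
    (e_Bs_d : Bs = VBr P.cs r X)
    (e_Bs_re : v177 = Bs.re)
    (e_Bs_im : v190 = Bs.im)
    (e_DB_d : DB = VBd P.c (X * (r : ℂ)) U)
    (e_DB_re : v205 = DB.re)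
    (e_DB_im : v215 = DB.im)
    (e_sax_d : sax = dt P.sa X)
    (e_sax_v : v219 = sax)
    (h220 : v220 = P.a.re)
    (h221 : v221 = P.a.im)
    (e_Xv_d : Xv = -dt P.a T - (e * sax + f * As) * d - dt Ax U + dt B iM * d)
    (e_Xv_v : v238 = Xv)
    (e_L_d : L = P.L X)
    (e_L_re : v242 = L.re)
    (e_L_im : v246 = L.im)
    (e_aV_d : aV = dt Ax (P.V0 / (P.fs : ℂ)))
    (e_aV_v : v249 = aV)
    (h250 : v250 = (I * P.vs - P.bs).re)
    (h251 : v251 = (I * P.vs - P.bs).im)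
    (e_ZB_d : ZB = ((dt B (-(I * y)) : ℝ) : ℂ) * P.ns + ((dt B (I * P.vs - P.bs) : ℝ) : ℂ) * fv - (k : ℂ) * (I * B))
    (e_ZB_re : v266 = ZB.re)
    (e_ZB_im : v267 = ZB.im)
    (h268 : v268 = v0 * v113)
    (h269 : v269 = v219 + v268)
    (h270 : v270 = v269 - v249)
    (h271 : v271 = v79 * v270)
    (h272 : v272 = v83 * v270)
    (h273 : v273 = v242 - v271)
    (h274 : v274 = v246 - v272)
    (h275 : v275 = v2 * v164)
    (h276 : v276 = v2 * v151)
    (h277 : v277 = v177 - v275)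
    (h278 : v278 = v190 + v276)
    (h279 : v279 = v47 * v277)
    (h : TrE (realAlg (fun i => get 0 (P.syl n.l) i) (r) (s)) (pNa.drop 280) [v279, v278, v277, v276, v275, v274, v273, v272, v271, v270, v269, v268, v267, v266, v265, v264, v263, v262, v261, v260, v259, v258, v257, v256, v255, v254, v253, v252, v251, v250, v249, v248, v247, v246, v245, v244, v243, v242, v241, v240, v239, v238, v237, v236, v235, v234, v233, v232, v231, v230, v229, v228, v227, v226, v225, v224, v223, v222, v221, v220, v219, v218, v217, v216, v215, v214, v213, v212, v211, v210, v209, v208, v207, v206, v205, v204, v203, v202, v201, v200, v199, v198, v197, v196, v195, v194, v193, v192, v191, v190, v189, v188, v187, v186, v185, v184, v183, v182, v181, v180, v179, v178, v177, v176, v175, v174, v173, v172, v171, v170, v169, v168, v167, v166, v165, v164, v163, v162, v161, v160, v159, v158, v157, v156, v155, v154, v153, v152, v151, v150, v149, v148,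 v147, v146, v145, v144, v143, v142, v141, v140, v139, v138, v137, v136, v135, v134, v133, v132, v131, v130, v129, v128, v127, v126, v125, v124, v123, v122, v121, v120, v119, v118, v117, v116, v115, v114, v113, v112, v111, v110, v109, v108, v107, v106, v105, v104, v103, v102, v101, v100, v99, v98, v97, v96, v95, v94, v93, v92, v91, v90, v89, v88, v87, v86, v85, v84, v83, v82, v81, v80, v79, v78, v77, v76, v75, v74, v73, v72, v71, v70, v69, v68, v67, v66, v65, v64, v63, v62, v61, v60, v59, v58, v57, v56, v55, v54, v53, v52, v51, v50, v49, v48, v47, v46, v45, v44, v43, v42, v41, v40, v39, v38, v37, v36, v35, v34, v33, v32, v31, v30, v29, v28, v27, v26, v25, v24, v23, v22, v21, v20, v19, v18, v17, v16, v15, v14, v13, v12, v11, v10, v9, v8, v7, v6, v5, v4, v3, v2, v1, v0] (fun st => run (realAlg (fun i => get 0 (P.syl n.l) i) (r) (s)) pNa [] = st)) :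
    pNa_goal P n r s := by
  obtain ⟨v280, h280, h⟩ := h
  change v280 = v47 * v278 at h280
  obtain ⟨v281, h281, h⟩ := h
  change v281 = v273 - v279 at h281
  obtain ⟨v282, h282, h⟩ := h
  change v282 = v274 - v280 at h282
  obtain ⟨v283, h283, h⟩ := h
  change v283 = v281 - v266 at h283
  obtain ⟨v284, h284, h⟩ := h
  change v284 = v282 - v267 at h284
  obtain ⟨H, e_H_d⟩ : ∃ q : ℂ, q = L - ((sax + As * r - aV : ℝ) : ℂ) * fv - (Bs + 2 * I * B) * (f : ℂ) - ZB := ⟨_, rfl⟩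
  have e_H_re : v283 = H.re := by
    rw [e_H_d]
    simp only [h283, h281, h279, h277, h275, h273, h271, h270, h269, h268, h2, h0, e_ZB_re, e_B_im, e_Bs_re, e_f_v, e_aV_v, e_As_v, e_sax_v, e_fv_re, e_L_re, mul_re, mul_im, add_re, add_im, sub_re, sub_im, neg_re, neg_im, I_re, I_im, ofReal_re,
      ofReal_im, one_re, one_im, zero_re, zero_im, dt, normSq_apply, re_ofNat, im_ofNat, conj_re, conj_im]
    try ring
  have e_H_im : v284 = H.im := by
    rw [e_H_d]
    simp only [h284, h282, h280, h278, h276, h274, h272, h270, h269, h268, h2, h0, e_ZB_im, e_B_re, e_Bs_im, e_f_v, e_aV_v, e_As_v, e_sax_v, e_fv_im, e_L_im, mul_re, mul_im, add_re, add_im, sub_re, sub_im, neg_re, neg_im, I_re, I_im, ofReal_re,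
      ofReal_im, one_re, one_im, zero_re, zero_im, dt, normSq_apply, re_ofNat, im_ofNat, conj_re, conj_im]
    try ring
  obtain ⟨v285, h285, h⟩ := h
  change v285 = v47 * v238 at h285
  obtain ⟨v286, h286, h⟩ := h
  replace h286 : v286 = (6 : ℝ) := by rw [h286]; norm_num [step, realAlg]
  obtain ⟨v287, h287, h⟩ := h
  change v287 = v285 * v286 at h287
  obtain ⟨v288, h288, h⟩ := h
  change v288 = v8 * v94 at h288
  obtain ⟨v289, h289, h⟩ := h
  change v289 = v2 * v287 at h289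
  obtain ⟨v290, h290, h⟩ := h
  change v290 = v289 - v288 at h290
  obtain ⟨E12, e_E12_d⟩ : ∃ q : ℝ, q = 12 * (f * Xv) - nM * d := ⟨_, rfl⟩
  have e_E12_v : v290 = E12 := by
    rw [e_E12_d]
    simp only [h290, h289, h288, h287, h286, h285, h2, e_nM_v, e_d_v, e_Xv_v, e_f_v, mul_re, mul_im, add_re, add_im, sub_re, sub_im, neg_re, neg_im, I_re, I_im, ofReal_re,
      ofReal_im, one_re, one_im, zero_re, zero_im, dt, normSq_apply, re_ofNat, im_ofNat, conj_re, conj_im]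
    try ring
  obtain ⟨v291, h291, h⟩ := h
  change v291 = v47 * v47 at h291
  obtain ⟨v292, h292, h⟩ := h
  change v292 = v71 * v91 at h292
  obtain ⟨v293, h293, h⟩ := h
  change v293 = v70 * v87 at h293
  obtain ⟨v294, h294, h⟩ := h
  change v294 = v292 + v293 at h294
  obtain ⟨v295, h295, h⟩ := h
  change v295 = v41 * v294 at h295
  obtain ⟨v296, h296, h⟩ := h
  change v296 = v42 * v294 at h296
  obtain ⟨v297, h297, h⟩ := h
  change v297 = v91 * v250 at h297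
  obtain ⟨v298, h298, h⟩ := h
  change v298 = v87 * v251 at h298
  obtain ⟨v299, h299, h⟩ := h
  change v299 = v298 - v297 at h299
  obtain ⟨v300, h300, h⟩ := h
  change v300 = v79 * v299 at h300
  obtain ⟨v301, h301, h⟩ := h
  change v301 = v83 * v299 at h301
  obtain ⟨v302, h302, h⟩ := h
  change v302 = v300 - v295 at h302
  obtain ⟨v303, h303, h⟩ := h
  change v303 = v301 - v296 at h303
  obtain ⟨v304, h304, h⟩ := h
  change v304 = v74 * v87 at h304
  obtain ⟨v305, h305, h⟩ := h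
  change v305 = v74 * v91 at h305
  obtain ⟨v306, h306, h⟩ := h
  change v306 = v302 + v304 at h306
  obtain ⟨v307, h307, h⟩ := h
  change v307 = v303 + v305 at h307
  obtain ⟨ZM, e_ZM_d⟩ : ∃ q : ℂ, q = ((dt iM (-(I * y)) : ℝ) : ℂ) * P.ns + ((dt iM (I * P.vs - P.bs) : ℝ) : ℂ) * fv - (k : ℂ) * (I * iM) := ⟨_, rfl⟩
  have e_ZM_re : v306 = ZM.re := by
    rw [e_ZM_d]
    simp only [h306, h304, h302, h300, h299, h298, h297, h295, h294, h293, h292, h251, h250, h41, e_iM_im, e_k_v, e_y_re, e_iM_re, e_y_im, e_fv_re, mul_re, mul_im, add_re, add_im, sub_re, sub_im, neg_re, neg_im, I_re, I_im, ofReal_re,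
      ofReal_im, one_re, one_im, zero_re, zero_im, dt, normSq_apply, re_ofNat, im_ofNat, conj_re, conj_im]
    try ring
  have e_ZM_im : v307 = ZM.im := by
    rw [e_ZM_d]
    simp only [h307, h305, h303, h301, h299, h298, h297, h296, h294, h293, h292, h251, h250, h42, e_iM_re, e_k_v, e_iM_im, e_y_re, e_y_im, e_fv_im, mul_re, mul_im, add_re, add_im, sub_re, sub_im, neg_re, neg_im, I_re, I_im, ofReal_re,
      ofReal_im, one_re, one_im, zero_re, zero_im, dt, normSq_apply, re_ofNat, im_ofNat, conj_re, conj_im]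
    try ring
  obtain ⟨v308, h308, h⟩ := h
  change v308 = v8 * v47 at h308
  obtain ⟨v309, h309, h⟩ := h
  change v309 = v306 * v308 at h309
  obtain ⟨v310, h310, h⟩ := h
  change v310 = v307 * v308 at h310
  obtain ⟨v311, h311, h⟩ := h
  change v311 = v288 - v287 at h311
  obtain ⟨v312, h312, h⟩ := h
  change v312 = v0 * v311 at h312
  obtain ⟨v313, h313, h⟩ := h
  change v313 = v79 * v312 at h313
  obtain ⟨v314, h314, h⟩ := h
  change v314 = v83 * v312 at h314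
  obtain ⟨v315, h315, h⟩ := h
  change v315 = v309 + v313 at h315
  obtain ⟨v316, h316, h⟩ := h
  change v316 = v310 + v314 at h316
  obtain ⟨v317, h317, h⟩ := h
  change v317 = v8 * v283 at h317
  obtain ⟨v318, h318, h⟩ := h
  change v318 = v8 * v284 at h318
  obtain ⟨v319, h319, h⟩ := h
  change v319 = v317 - v205 at h319
  exact pNa_c8 P n r s h0 h2 h4 e_X_d e_X_re e_X_im e_d_d e_d_v h9 h10 e_yx_d e_S_d e_T_d e_e_d e_f_d e_f_v e_U_d h69 e_y_d e_y_re e_y_im e_k_d e_fv_d e_fv_re e_fv_im e_M_d e_iM_d e_nM_d e_nM_v e_As_d e_Ax_d e_Ax_re e_Ax_im h139 h140 h143 h144 h147 h152 h153 h156 h157 h160 e_B_d e_Bs_d e_DB_d e_DB_re e_DB_im e_sax_d h220 h221 e_Xv_d e_Xv_v e_L_d e_aV_d e_ZB_d e_H_d e_H_re e_H_im h285 h286 h287 h288 e_E12_d e_E12_v h291 e_ZM_d e_ZM_re e_ZM_im h308 h309 h310 h311 h312 h313 h314 h315 h316 h317 h318 h319 h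

theorem pNa_c6 (P : Pt) (n : Nd) (r s : ℝ) {v0 v1 v2 v3 v4 v5 : ℝ} {X : ℂ} {v6 v7 v8 d v9 v10 v11 v12 v13 v14 yx v15 v16 v17 v18 v19 v20 v21 v22 v23 v24 v25 v26 v27 v28 v29 S v30 v31 v32 v33 v34 v35 v36 v37 v38 v39 v40 : ℝ} {T : ℂ} {v41 v42 v43 v44 e v45 v46 v47 f v48 v49 v50 v51 v52 v53 v54 v55 v56 v57 v58 v59 v60 v61 v62 v63 v64 v65 v66 v67 v68 : ℝ} {U : ℂ} {v69 v70 v71 : ℝ} {y : ℂ} {v72 v73 v74 k v75 v76 v77 v78 v79 v80 v81 v82 v83 : ℝ} {fv : ℂ} {v84 v85 v86 v87 v88 v89 v90 v91 : ℝ} {M iM : ℂ} {v92 v93 v94 nM v95 v96 v97 v98 v99 v100 v101 v102 v103 v104 v105 v106 v107 v108 v109 v110 v111 v112 v113 As v114 v115 v116 v117 v118 v119 v120 v121 v122 v123 v124 v125 v126 v127 v128 v129 v130 v131 v132 v133 v134 v135 v136 v137 v138 : ℝ} {Ax : ℂ} {v139 v140 v141 v142 v143 v144 v145 v146 v147 v148 v149 v150 v151 v152 v153 v154 v155 v156 v157 v158 v159 v160 v161 v162 v163 v164 : ℝ} {B : ℂ} {v165 v166 v167 v168 v169 v170 v171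 v172 v173 v174 v175 v176 v177 v178 v179 v180 v181 v182 v183 v184 v185 v186 v187 v188 v189 v190 : ℝ} {Bs : ℂ} {v191 v192 v193 v194 v195 v196 v197 v198 v199 v200 v201 v202 v203 v204 v205 v206 v207 v208 v209 v210 v211 v212 v213 v214 v215 : ℝ} {DB : ℂ} {v216 v217 v218 v219 sax v220 v221 v222 v223 v224 v225 v226 v227 v228 v229 v230 v231 v232 v233 v234 v235 v236 v237 v238 Xv v239 : ℝ}
    (h0 : v0 = r)
    (h2 : v2 = (2 : ℝ))
    (h4 : v4 = (1 : ℝ))
    (e_X_d : X = (⟨1, 2 * s - 1⟩ : ℂ))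
    (e_X_re : X.re = (1 : ℝ))
    (e_X_im : v5 = X.im)
    (e_d_d : d = 1 - 2 * P.ys.re - 2 * (r * X.re))
    (e_d_v : v8 = d)
    (h9 : v9 = v5 * v5)
    (h10 : v10 = v9 + v4)
    (e_yx_d : yx = dt P.ys X)
    (e_S_d : S = 4 * ((P.ys.re - (1 - normSq P.ys) / (1 - 2 * P.ys.re)) * X.re + P.ys.im * X.im) ^ 2 - 2 * (1 - normSq P.ys) * normSq X + (4 * yx + normSq X * r) * normSq X * r)
    (e_T_d : T = I * ((2 * S : ℝ) : ℂ) + I * (X * ((2 * yx + normSq X * r : ℝ) : ℂ) + P.ys * (normSq X : ℂ)) * (d : ℂ))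
    (h41 : v41 = P.ns.re)
    (h42 : v42 = P.ns.im)
    (e_e_d : e = dt P.ns X)
    (e_f_d : f = P.fs + e * r)
    (e_f_v : v47 = f)
    (h62 : v62 = (P.V0 / (P.fs : ℂ)).re)
    (h63 : v63 = (P.V0 / (P.fs : ℂ)).im)
    (e_U_d : U = P.DV X * (d : ℂ) + T * (r : ℂ) - P.V0 / (P.fs : ℂ) * ((d * e : ℝ) : ℂ))
    (h69 : v69 = v0 * v5)
    (e_y_d : y = P.ys + X * (r : ℂ))
    (e_y_re : v70 = y.re)
    (e_y_im : v71 = y.im)
    (e_k_d : k = dt y P.ns)
    (e_k_v : v74 = k)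
    (e_fv_d : fv = P.fv y)
    (e_fv_re : v79 = fv.re)
    (e_fv_im : v83 = fv.im)
    (e_M_d : M = P.M X)
    (e_iM_d : iM = I * M)
    (e_iM_re : v91 = -iM.re)
    (e_iM_im : v87 = iM.im)
    (e_nM_d : nM = normSq M)
    (e_nM_v : v94 = nM)
    (e_As_d : As = VAr P.cs r X)
    (e_As_v : v113 = As)
    (e_Ax_d : Ax = VAxr P.c r X)
    (e_Ax_re : v126 = Ax.re)
    (e_Ax_im : v138 = Ax.im)
    (h139 : v139 = P.c.b11)
    (h140 : v140 = P.c.b12)
    (h143 : v143 = P.c.q1)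
    (h144 : v144 = P.c.q2)
    (h147 : v147 = P.c.q3)
    (h152 : v152 = P.c.b21)
    (h153 : v153 = P.c.b22)
    (h156 : v156 = P.c.q4)
    (h157 : v157 = P.c.q5)
    (h160 : v160 = P.c.q6)
    (e_B_d : B = VBr P.c r X)
    (e_B_re : v151 = B.re)
    (e_B_im : v164 = B.im)
    (e_Bs_d : Bs = VBr P.cs r X)
    (e_Bs_re : v177 = Bs.re)
    (e_Bs_im : v190 = Bs.im)
    (e_DB_d : DB = VBd P.c (X * (r : ℂ)) U)
    (e_DB_re : v205 = DB.re)
    (e_DB_im : v215 = DB.im)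
    (e_sax_d : sax = dt P.sa X)
    (e_sax_v : v219 = sax)
    (h220 : v220 = P.a.re)
    (h221 : v221 = P.a.im)
    (e_Xv_d : Xv = -dt P.a T - (e * sax + f * As) * d - dt Ax U + dt B iM * d)
    (e_Xv_v : v238 = Xv)
    (h239 : v239 = (P.L 1).re)
    (h : TrE (realAlg (fun i => get 0 (P.syl n.l) i) (r) (s)) (pNa.drop 240) [v239, v238, v237, v236, v235, v234, v233, v232, v231, v230, v229, v228, v227, v226, v225, v224, v223, v222, v221, v220, v219, v218, v217, v216, v215, v214, v213, v212, v211, v210, v209, v208, v207, v206, v205, v204, v203, v202, v201, v200, v199, v198, v197, v196, v195, v194, v193, v192, v191, v190, v189, v188, v187, v186, v185, v184, v183, v182, v181, v180, v179, v178, v177, v176, v175, v174, v173, v172, v171, v170, v169, v168, v167, v166, v165, v164, v163, v162, v161, v160, v159, v158, v157, v156, v155, v154, v153, v152, v151, v150, v149, v148, v147, v146, v145, v144, v143, v142, v141, v140, v139,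 v138, v137, v136, v135, v134, v133, v132, v131, v130, v129, v128, v127, v126, v125, v124, v123, v122, v121, v120, v119, v118, v117, v116, v115, v114, v113, v112, v111, v110, v109, v108, v107, v106, v105, v104, v103, v102, v101, v100, v99, v98, v97, v96, v95, v94, v93, v92, v91, v90, v89, v88, v87, v86, v85, v84, v83, v82, v81, v80, v79, v78, v77, v76, v75, v74, v73, v72, v71, v70, v69, v68, v67, v66, v65, v64, v63, v62, v61, v60, v59, v58, v57, v56, v55, v54, v53, v52, v51, v50, v49, v48, v47, v46, v45, v44, v43, v42, v41, v40, v39, v38, v37, v36, v35, v34, v33, v32, v31, v30, v29, v28, v27, v26, v25, v24, v23, v22, v21, v20, v19, v18, v17, v16, v15, v14, v13, v12, v11, v10, v9, v8, v7, v6, v5, v4, v3, v2, v1, v0] (fun st => run (realAlg (fun i => get 0 (P.syl n.l) i) (r) (s)) pNa [] = st)) :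
    pNa_goal P n r s := by
  obtain ⟨v240, h240, h⟩ := h
  change v240 = (P.L I).re at h240
  obtain ⟨v241, h241, h⟩ := h
  change v241 = v5 * v240 at h241
  obtain ⟨v242, h242, h⟩ := h
  change v242 = v239 + v241 at h242
  obtain ⟨v243, h243, h⟩ := h
  change v243 = (P.L 1).im at h243
  obtain ⟨v244, h244, h⟩ := h
  change v244 = (P.L I).im at h244
  obtain ⟨v245, h245, h⟩ := h
  change v245 = v5 * v244 at h245
  obtain ⟨v246, h246, h⟩ := h
  change v246 = v243 + v245 at h246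
  obtain ⟨L, e_L_d⟩ : ∃ q : ℂ, q = P.L X := ⟨_, rfl⟩
  have e_L_re : v242 = L.re := by
    rw [e_L_d]
    simp only [L_re P X, L_im P X, h242, h241, h240, h239, e_X_im, e_X_re, mul_re, mul_im, add_re, add_im, sub_re, sub_im, neg_re, neg_im, I_re, I_im, ofReal_re,
      ofReal_im, one_re, one_im, zero_re, zero_im, dt, normSq_apply, re_ofNat, im_ofNat, conj_re, conj_im]
    try ring
  have e_L_im : v246 = L.im := by
    rw [e_L_d]
    simp only [L_re P X, L_im P X, h246, h245, h244, h243, e_X_im, e_X_re, mul_re, mul_im, add_re, add_im, sub_re, sub_im, neg_re, neg_im, I_re, I_im, ofReal_re,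
      ofReal_im, one_re, one_im, zero_re, zero_im, dt, normSq_apply, re_ofNat, im_ofNat, conj_re, conj_im]
    try ring
  obtain ⟨v247, h247, h⟩ := h
  change v247 = v62 * v126 at h247
  obtain ⟨v248, h248, h⟩ := h
  change v248 = v63 * v138 at h248
  obtain ⟨v249, h249, h⟩ := h
  change v249 = v247 + v248 at h249
  obtain ⟨aV, e_aV_d⟩ : ∃ q : ℝ, q = dt Ax (P.V0 / (P.fs : ℂ)) := ⟨_, rfl⟩
  have e_aV_v : v249 = aV := by
    rw [e_aV_d]
    simp only [h249, h248, h247, h63, h62, e_Ax_im, e_Ax_re, mul_re, mul_im, add_re, add_im, sub_re, sub_im, neg_re, neg_im, I_re, I_im, ofReal_re,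
      ofReal_im, one_re, one_im, zero_re, zero_im, dt, normSq_apply, re_ofNat, im_ofNat, conj_re, conj_im]
    try ring
  obtain ⟨v250, h250, h⟩ := h
  change v250 = (I * P.vs - P.bs).re at h250
  obtain ⟨v251, h251, h⟩ := h
  change v251 = (I * P.vs - P.bs).im at h251
  obtain ⟨v252, h252, h⟩ := h
  change v252 = v71 * v151 at h252
  obtain ⟨v253, h253, h⟩ := h
  change v253 = v70 * v164 at h253
  obtain ⟨v254, h254, h⟩ := h
  change v254 = v252 - v253 at h254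
  obtain ⟨v255, h255, h⟩ := h
  change v255 = v41 * v254 at h255
  obtain ⟨v256, h256, h⟩ := h
  change v256 = v42 * v254 at h256
  obtain ⟨v257, h257, h⟩ := h
  change v257 = v151 * v250 at h257
  obtain ⟨v258, h258, h⟩ := h
  change v258 = v164 * v251 at h258
  obtain ⟨v259, h259, h⟩ := h
  change v259 = v257 + v258 at h259
  obtain ⟨v260, h260, h⟩ := h
  change v260 = v79 * v259 at h260
  obtain ⟨v261, h261, h⟩ := h
  change v261 = v83 * v259 at h261
  obtain ⟨v262, h262, h⟩ := h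
  change v262 = v255 + v260 at h262
  obtain ⟨v263, h263, h⟩ := h
  change v263 = v256 + v261 at h263
  obtain ⟨v264, h264, h⟩ := h
  change v264 = v74 * v164 at h264
  obtain ⟨v265, h265, h⟩ := h
  change v265 = v74 * v151 at h265
  obtain ⟨v266, h266, h⟩ := h
  change v266 = v262 + v264 at h266
  obtain ⟨v267, h267, h⟩ := h
  change v267 = v263 - v265 at h267
  obtain ⟨ZB, e_ZB_d⟩ : ∃ q : ℂ, q = ((dt B (-(I * y)) : ℝ) : ℂ) * P.ns + ((dt B (I * P.vs - P.bs) : ℝ) : ℂ) * fv - (k : ℂ) * (I * B) := ⟨_, rfl⟩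
  have e_ZB_re : v266 = ZB.re := by
    rw [e_ZB_d]
    simp only [h266, h264, h262, h260, h259, h258, h257, h255, h254, h253, h252, h251, h250, h41, e_B_im, e_k_v, e_B_re, e_fv_re, e_y_re, e_y_im, mul_re, mul_im, add_re, add_im, sub_re, sub_im, neg_re, neg_im, I_re, I_im, ofReal_re,
      ofReal_im, one_re, one_im, zero_re, zero_im, dt, normSq_apply, re_ofNat, im_ofNat, conj_re, conj_im]
    try ring
  have e_ZB_im : v267 = ZB.im := by
    rw [e_ZB_d]
    simp only [h267, h265, h263, h261, h259, h258, h257, h256, h254, h253, h252, h251, h250, h42, e_B_re, e_k_v, e_B_im, e_fv_im, e_y_re, e_y_im, mul_re, mul_im, add_re, add_im, sub_re, sub_im, neg_re, neg_im, I_re, I_im, ofReal_re,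
      ofReal_im, one_re, one_im, zero_re, zero_im, dt, normSq_apply, re_ofNat, im_ofNat, conj_re, conj_im]
    try ring
  obtain ⟨v268, h268, h⟩ := h
  change v268 = v0 * v113 at h268
  obtain ⟨v269, h269, h⟩ := h
  change v269 = v219 + v268 at h269
  obtain ⟨v270, h270, h⟩ := h
  change v270 = v269 - v249 at h270
  obtain ⟨v271, h271, h⟩ := h
  change v271 = v79 * v270 at h271
  obtain ⟨v272, h272, h⟩ := h
  change v272 = v83 * v270 at h272
  obtain ⟨v273, h273, h⟩ := h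
  change v273 = v242 - v271 at h273
  obtain ⟨v274, h274, h⟩ := h
  change v274 = v246 - v272 at h274
  obtain ⟨v275, h275, h⟩ := h
  change v275 = v2 * v164 at h275
  obtain ⟨v276, h276, h⟩ := h
  change v276 = v2 * v151 at h276
  obtain ⟨v277, h277, h⟩ := h
  change v277 = v177 - v275 at h277
  obtain ⟨v278, h278, h⟩ := h
  change v278 = v190 + v276 at h278
  obtain ⟨v279, h279, h⟩ := h
  change v279 = v47 * v277 at h279
  exact pNa_c7 P n r s h0 h2 h4 e_X_d e_X_re e_X_im e_d_d e_d_v h9 h10 e_yx_d e_S_d e_T_d h41 h42 e_e_d e_f_d e_f_v e_U_d h69 e_y_d e_y_re e_y_im e_k_d e_k_v e_fv_d e_fv_re e_fv_im e_M_d e_iM_d e_iM_re e_iM_im e_nM_d e_nM_v e_As_d e_As_v e_Ax_d e_Ax_re e_Ax_im h139 h140 h143 h144 h147 h152 h153 h156 h157 h160 e_B_d e_B_re e_B_im e_Bs_d e_Bs_re e_Bs_im e_DB_d e_DB_re e_DB_im e_sax_d e_sax_v h220 h221 e_Xv_d e_Xv_v e_L_d e_L_re e_L_im e_aV_d e_aV_v h250 h251 e_ZB_d e_ZB_re e_ZB_im h268 h269 h270 h271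 h272 h273 h274 h275 h276 h277 h278 h279 h

theorem pNa_c5 (P : Pt) (n : Nd) (r s : ℝ) {v0 v1 v2 v3 v4 v5 : ℝ} {X : ℂ} {v6 v7 v8 d v9 v10 v11 v12 v13 v14 yx v15 v16 v17 v18 v19 v20 v21 v22 v23 v24 v25 v26 v27 v28 v29 S v30 v31 v32 v33 v34 v35 v36 v37 v38 v39 v40 : ℝ} {T : ℂ} {v41 v42 v43 v44 e v45 v46 v47 f v48 v49 v50 v51 v52 v53 v54 v55 v56 v57 v58 v59 v60 v61 v62 v63 v64 v65 v66 v67 v68 : ℝ} {U : ℂ} {v69 v70 v71 : ℝ} {y : ℂ} {v72 v73 v74 k v75 v76 v77 v78 v79 v80 v81 v82 v83 : ℝ} {fv : ℂ} {v84 v85 v86 v87 v88 v89 v90 v91 : ℝ} {M iM : ℂ} {v92 v93 v94 nM v95 v96 v97 v98 v99 v100 v101 v102 v103 v104 v105 v106 v107 v108 v109 v110 v111 v112 v113 As v114 v115 v116 v117 v118 v119 v120 v121 v122 v123 v124 v125 v126 v127 v128 v129 v130 v131 v132 v133 v134 v135 v136 v137 v138 : ℝ} {Ax : ℂ} {v139 v140 v141 v142 v143 v144 v145 v146 v147 v148 v149 v150 v151 v152 v153 v154 v155 v156 v157 v158 v159 v160 v161 v162 v163 v164 : ℝ}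 {B : ℂ} {v165 v166 v167 v168 v169 v170 v171 v172 v173 v174 v175 v176 v177 v178 v179 v180 v181 v182 v183 v184 v185 v186 v187 v188 v189 v190 : ℝ} {Bs : ℂ} {v191 v192 v193 v194 v195 v196 v197 v198 v199 : ℝ}
    (h0 : v0 = r)
    (h2 : v2 = (2 : ℝ))
    (h4 : v4 = (1 : ℝ))
    (e_X_d : X = (⟨1, 2 * s - 1⟩ : ℂ))
    (e_X_re : X.re = (1 : ℝ))
    (e_X_im : v5 = X.im)
    (e_d_d : d = 1 - 2 * P.ys.re - 2 * (r * X.re))
    (e_d_v : v8 = d)
    (h9 : v9 = v5 * v5)
    (h10 : v10 = v9 + v4)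
    (e_yx_d : yx = dt P.ys X)
    (e_S_d : S = 4 * ((P.ys.re - (1 - normSq P.ys) / (1 - 2 * P.ys.re)) * X.re + P.ys.im * X.im) ^ 2 - 2 * (1 - normSq P.ys) * normSq X + (4 * yx + normSq X * r) * normSq X * r)
    (e_T_d : T = I * ((2 * S : ℝ) : ℂ) + I * (X * ((2 * yx + normSq X * r : ℝ) : ℂ) + P.ys * (normSq X : ℂ)) * (d : ℂ))
    (e_T_re : v38 = -T.re)
    (e_T_im : v40 = T.im)
    (h41 : v41 = P.ns.re)
    (h42 : v42 = P.ns.im)
    (e_e_d : e = dt P.ns X)
    (e_e_v : v44 = e)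
    (e_f_d : f = P.fs + e * r)
    (e_f_v : v47 = f)
    (h62 : v62 = (P.V0 / (P.fs : ℂ)).re)
    (h63 : v63 = (P.V0 / (P.fs : ℂ)).im)
    (e_U_d : U = P.DV X * (d : ℂ) + T * (r : ℂ) - P.V0 / (P.fs : ℂ) * ((d * e : ℝ) : ℂ))
    (e_U_re : v67 = U.re)
    (e_U_im : v68 = U.im)
    (h69 : v69 = v0 * v5)
    (e_y_d : y = P.ys + X * (r : ℂ))
    (e_y_re : v70 = y.re)
    (e_y_im : v71 = y.im)
    (e_k_d : k = dt y P.ns)
    (e_k_v : v74 = k)
    (e_fv_d : fv = P.fv y)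
    (e_fv_re : v79 = fv.re)
    (e_fv_im : v83 = fv.im)
    (e_M_d : M = P.M X)
    (e_iM_d : iM = I * M)
    (e_iM_re : v91 = -iM.re)
    (e_iM_im : v87 = iM.im)
    (e_nM_d : nM = normSq M)
    (e_nM_v : v94 = nM)
    (e_As_d : As = VAr P.cs r X)
    (e_As_v : v113 = As)
    (e_Ax_d : Ax = VAxr P.c r X)
    (e_Ax_re : v126 = Ax.re)
    (e_Ax_im : v138 = Ax.im)
    (h139 : v139 = P.c.b11)
    (h140 : v140 = P.c.b12)
    (h143 : v143 = P.c.q1)
    (h144 : v144 = P.c.q2)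
    (h147 : v147 = P.c.q3)
    (h152 : v152 = P.c.b21)
    (h153 : v153 = P.c.b22)
    (h156 : v156 = P.c.q4)
    (h157 : v157 = P.c.q5)
    (h160 : v160 = P.c.q6)
    (e_B_d : B = VBr P.c r X)
    (e_B_re : v151 = B.re)
    (e_B_im : v164 = B.im)
    (e_Bs_d : Bs = VBr P.cs r X)
    (e_Bs_re : v177 = Bs.re)
    (e_Bs_im : v190 = Bs.im)
    (h191 : v191 = v2 * v67)
    (h192 : v192 = v5 * v67)
    (h193 : v193 = v68 + v192)
    (h194 : v194 = v5 * v68)
    (h195 : v195 = v2 * v194)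
    (h196 : v196 = v67 * v139)
    (h197 : v197 = v68 * v140)
    (h198 : v198 = v196 + v197)
    (h199 : v199 = v143 * v191)
    (h : TrE (realAlg (fun i => get 0 (P.syl n.l) i) (r) (s)) (pNa.drop 200) [v199, v198, v197, v196, v195, v194, v193, v192, v191, v190, v189, v188, v187, v186, v185, v184, v183, v182, v181, v180, v179, v178, v177, v176, v175, v174, v173, v172, v171, v170, v169, v168, v167, v166, v165, v164, v163, v162, v161, v160, v159, v158, v157, v156, v155, v154, v153, v152, v151, v150, v149, v148, v147, v146, v145, v144, v143, v142, v141, v140, v139, v138, v137, v136, v135, v134, v133, v132, v131, v130, v129, v128, v127, v126, v125, v124, v123, v122, v121, v120, v119, v118, v117, v116, v115, v114, v113, v112, v111, v110, v109, v108, v107, v106, v105, v104, v103, v102, v101, v100, v99, v98, v97, v96, v95, v94, v93, v92, v91, v90, v89, v88, v87, v86, v85, v84, v83, v82, v81, v80, v79, v78, v77, v76, v75,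 v74, v73, v72, v71, v70, v69, v68, v67, v66, v65, v64, v63, v62, v61, v60, v59, v58, v57, v56, v55, v54, v53, v52, v51, v50, v49, v48, v47, v46, v45, v44, v43, v42, v41, v40, v39, v38, v37, v36, v35, v34, v33, v32, v31, v30, v29, v28, v27, v26, v25, v24, v23, v22, v21, v20, v19, v18, v17, v16, v15, v14, v13, v12, v11, v10, v9, v8, v7, v6, v5, v4, v3, v2, v1, v0] (fun st => run (realAlg (fun i => get 0 (P.syl n.l) i) (r) (s)) pNa [] = st)) :
    pNa_goal P n r s := by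
  obtain ⟨v200, h200, h⟩ := h
  change v200 = v144 * v193 at h200
  obtain ⟨v201, h201, h⟩ := h
  change v201 = v199 + v200 at h201
  obtain ⟨v202, h202, h⟩ := h
  change v202 = v147 * v195 at h202
  obtain ⟨v203, h203, h⟩ := h
  change v203 = v201 + v202 at h203
  obtain ⟨v204, h204, h⟩ := h
  change v204 = v0 * v203 at h204
  obtain ⟨v205, h205, h⟩ := h
  change v205 = v198 + v204 at h205
  obtain ⟨v206, h206, h⟩ := h
  change v206 = v67 * v152 at h206
  obtain ⟨v207, h207, h⟩ := h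
  change v207 = v68 * v153 at h207
  obtain ⟨v208, h208, h⟩ := h
  change v208 = v206 + v207 at h208
  obtain ⟨v209, h209, h⟩ := h
  change v209 = v156 * v191 at h209
  obtain ⟨v210, h210, h⟩ := h
  change v210 = v157 * v193 at h210
  obtain ⟨v211, h211, h⟩ := h
  change v211 = v209 + v210 at h211
  obtain ⟨v212, h212, h⟩ := h
  change v212 = v160 * v195 at h212
  obtain ⟨v213, h213, h⟩ := h
  change v213 = v211 + v212 at h213
  obtain ⟨v214, h214, h⟩ := h
  change v214 = v0 * v213 at h214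
  obtain ⟨v215, h215, h⟩ := h
  change v215 = v208 + v214 at h215
  obtain ⟨DB, e_DB_d⟩ : ∃ q : ℂ, q = VBd P.c (X * (r : ℂ)) U := ⟨_, rfl⟩
  have e_DB_re : v205 = DB.re := by
    rw [e_DB_d]
    simp only [VBd_re, VBd_im, h205, h204, h203, h202, h201, h200, h199, h198, h197, h196, h195, h194, h193, h192, h191, h147, h144, h143, h140, h139, h2, h0, e_U_im, e_X_im, e_U_re, e_X_re, mul_re, mul_im, add_re, add_im, sub_re, sub_im, neg_re, neg_im, I_re, I_im, ofReal_re,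
      ofReal_im, one_re, one_im, zero_re, zero_im, dt, normSq_apply, re_ofNat, im_ofNat, conj_re, conj_im]
    try ring
  have e_DB_im : v215 = DB.im := by
    rw [e_DB_d]
    simp only [VBd_re, VBd_im, h215, h214, h213, h212, h211, h210, h209, h208, h207, h206, h195, h194, h193, h192, h191, h160, h157, h156, h153, h152, h2, h0, e_U_im, e_X_im, e_U_re, e_X_re, mul_re, mul_im, add_re, add_im, sub_re, sub_im, neg_re, neg_im, I_re, I_im, ofReal_re,
      ofReal_im, one_re, one_im, zero_re, zero_im, dt, normSq_apply, re_ofNat, im_ofNat, conj_re, conj_im]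
    try ring
  obtain ⟨v216, h216, h⟩ := h
  change v216 = P.sa.re at h216
  obtain ⟨v217, h217, h⟩ := h
  change v217 = P.sa.im at h217
  obtain ⟨v218, h218, h⟩ := h
  change v218 = v5 * v217 at h218
  obtain ⟨v219, h219, h⟩ := h
  change v219 = v216 + v218 at h219
  obtain ⟨sax, e_sax_d⟩ : ∃ q : ℝ, q = dt P.sa X := ⟨_, rfl⟩
  have e_sax_v : v219 = sax := by
    rw [e_sax_d]
    simp only [h219, h218, h217, h216, e_X_im, e_X_re, mul_re, mul_im, add_re, add_im, sub_re, sub_im, neg_re, neg_im, I_re, I_im, ofReal_re,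
      ofReal_im, one_re, one_im, zero_re, zero_im, dt, normSq_apply, re_ofNat, im_ofNat, conj_re, conj_im]
    try ring
  obtain ⟨v220, h220, h⟩ := h
  change v220 = P.a.re at h220
  obtain ⟨v221, h221, h⟩ := h
  change v221 = P.a.im at h221
  obtain ⟨v222, h222, h⟩ := h
  change v222 = v38 * v220 at h222
  obtain ⟨v223, h223, h⟩ := h
  change v223 = v40 * v221 at h223
  obtain ⟨v224, h224, h⟩ := h
  change v224 = v223 - v222 at h224
  obtain ⟨v225, h225, h⟩ := h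
  change v225 = v44 * v219 at h225
  obtain ⟨v226, h226, h⟩ := h
  change v226 = v47 * v113 at h226
  obtain ⟨v227, h227, h⟩ := h
  change v227 = v225 + v226 at h227
  obtain ⟨v228, h228, h⟩ := h
  change v228 = v8 * v227 at h228
  obtain ⟨v229, h229, h⟩ := h
  change v229 = v224 + v228 at h229
  obtain ⟨v230, h230, h⟩ := h
  change v230 = v67 * v126 at h230
  obtain ⟨v231, h231, h⟩ := h
  change v231 = v68 * v138 at h231
  obtain ⟨v232, h232, h⟩ := h
  change v232 = v230 + v231 at h232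
  obtain ⟨v233, h233, h⟩ := h
  change v233 = v229 + v232 at h233
  obtain ⟨v234, h234, h⟩ := h
  change v234 = v91 * v151 at h234
  obtain ⟨v235, h235, h⟩ := h
  change v235 = v87 * v164 at h235
  obtain ⟨v236, h236, h⟩ := h
  change v236 = v235 - v234 at h236
  obtain ⟨v237, h237, h⟩ := h
  change v237 = v8 * v236 at h237
  obtain ⟨v238, h238, h⟩ := h
  change v238 = v237 - v233 at h238
  obtain ⟨Xv, e_Xv_d⟩ : ∃ q : ℝ, q = -dt P.a T - (e * sax + f * As) * d - dt Ax U + dt B iM * d := ⟨_, rfl⟩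
  have e_Xv_v : v238 = Xv := by
    rw [e_Xv_d]
    simp only [h238, h237, h236, h235, h234, h233, h232, h231, h230, h229, h228, h227, h226, h225, h224, h223, h222, h221, h220, e_Ax_im, e_U_im, e_Ax_re, e_U_re, e_As_v, e_f_v, e_sax_v, e_e_v, e_d_v, e_T_re, e_T_im, e_B_re, e_iM_re, e_B_im, e_iM_im, mul_re, mul_im, add_re, add_im, sub_re, sub_im, neg_re, neg_im, I_re, I_im, ofReal_re,
      ofReal_im, one_re, one_im, zero_re, zero_im, dt, normSq_apply, re_ofNat, im_ofNat, conj_re, conj_im]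
    try ring
  obtain ⟨v239, h239, h⟩ := h
  change v239 = (P.L 1).re at h239
  exact pNa_c6 P n r s h0 h2 h4 e_X_d e_X_re e_X_im e_d_d e_d_v h9 h10 e_yx_d e_S_d e_T_d h41 h42 e_e_d e_f_d e_f_v h62 h63 e_U_d h69 e_y_d e_y_re e_y_im e_k_d e_k_v e_fv_d e_fv_re e_fv_im e_M_d e_iM_d e_iM_re e_iM_im e_nM_d e_nM_v e_As_d e_As_v e_Ax_d e_Ax_re e_Ax_im h139 h140 h143 h144 h147 h152 h153 h156 h157 h160 e_B_d e_B_re e_B_im e_Bs_d e_Bs_re e_Bs_im e_DB_d e_DB_re e_DB_im e_sax_d e_sax_v h220 h221 e_Xv_d e_Xv_v h239 h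

theorem pNa_c4 (P : Pt) (n : Nd) (r s : ℝ) {v0 v1 v2 v3 v4 v5 : ℝ} {X : ℂ} {v6 v7 v8 d v9 v10 v11 v12 v13 v14 yx v15 v16 v17 v18 v19 v20 v21 v22 v23 v24 v25 v26 v27 v28 v29 S v30 v31 v32 v33 v34 v35 v36 v37 v38 v39 v40 : ℝ} {T : ℂ} {v41 v42 v43 v44 e v45 v46 v47 f v48 v49 v50 v51 v52 v53 v54 v55 v56 v57 v58 v59 v60 v61 v62 v63 v64 v65 v66 v67 v68 : ℝ} {U : ℂ} {v69 v70 v71 : ℝ} {y : ℂ} {v72 v73 v74 k v75 v76 v77 v78 v79 v80 v81 v82 v83 : ℝ} {fv : ℂ} {v84 v85 v86 v87 v88 v89 v90 v91 : ℝ} {M iM : ℂ} {v92 v93 v94 nM v95 v96 v97 v98 v99 v100 v101 v102 v103 v104 v105 v106 v107 v108 v109 v110 v111 v112 v113 As v114 v115 v116 v117 v118 v119 v120 v121 v122 v123 v124 v125 v126 v127 v128 v129 v130 v131 v132 v133 v134 v135 v136 v137 v138 : ℝ} {Ax : ℂ} {v139 v140 v141 v142 v143 v144 v145 v146 v147 v148 v149 v150 v151 v152 v153 v154 v155 v156 v157 v158 v159 : ℝ}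
    (h0 : v0 = r)
    (h2 : v2 = (2 : ℝ))
    (h4 : v4 = (1 : ℝ))
    (e_X_d : X = (⟨1, 2 * s - 1⟩ : ℂ))
    (e_X_re : X.re = (1 : ℝ))
    (e_X_im : v5 = X.im)
    (e_d_d : d = 1 - 2 * P.ys.re - 2 * (r * X.re))
    (e_d_v : v8 = d)
    (h9 : v9 = v5 * v5)
    (h10 : v10 = v9 + v4)
    (e_yx_d : yx = dt P.ys X)
    (e_S_d : S = 4 * ((P.ys.re - (1 - normSq P.ys) / (1 - 2 * P.ys.re)) * X.re + P.ys.im * X.im) ^ 2 - 2 * (1 - normSq P.ys) * normSq X + (4 * yx + normSq X * r) * normSq X * r)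
    (e_T_d : T = I * ((2 * S : ℝ) : ℂ) + I * (X * ((2 * yx + normSq X * r : ℝ) : ℂ) + P.ys * (normSq X : ℂ)) * (d : ℂ))
    (e_T_re : v38 = -T.re)
    (e_T_im : v40 = T.im)
    (h41 : v41 = P.ns.re)
    (h42 : v42 = P.ns.im)
    (e_e_d : e = dt P.ns X)
    (e_e_v : v44 = e)
    (e_f_d : f = P.fs + e * r)
    (e_f_v : v47 = f)
    (h62 : v62 = (P.V0 / (P.fs : ℂ)).re)
    (h63 : v63 = (P.V0 / (P.fs : ℂ)).im)
    (e_U_d : U = P.DV X * (d : ℂ) + T * (r : ℂ) - P.V0 / (P.fs : ℂ) * ((d * e : ℝ) : ℂ))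
    (e_U_re : v67 = U.re)
    (e_U_im : v68 = U.im)
    (h69 : v69 = v0 * v5)
    (e_y_d : y = P.ys + X * (r : ℂ))
    (e_y_re : v70 = y.re)
    (e_y_im : v71 = y.im)
    (e_k_d : k = dt y P.ns)
    (e_k_v : v74 = k)
    (e_fv_d : fv = P.fv y)
    (e_fv_re : v79 = fv.re)
    (e_fv_im : v83 = fv.im)
    (e_M_d : M = P.M X)
    (e_iM_d : iM = I * M)
    (e_iM_re : v91 = -iM.re)
    (e_iM_im : v87 = iM.im)
    (e_nM_d : nM = normSq M)
    (e_nM_v : v94 = nM)
    (e_As_d : As = VAr P.cs r X)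
    (e_As_v : v113 = As)
    (e_Ax_d : Ax = VAxr P.c r X)
    (e_Ax_re : v126 = Ax.re)
    (e_Ax_im : v138 = Ax.im)
    (h139 : v139 = P.c.b11)
    (h140 : v140 = P.c.b12)
    (h141 : v141 = v5 * v140)
    (h142 : v142 = v139 + v141)
    (h143 : v143 = P.c.q1)
    (h144 : v144 = P.c.q2)
    (h145 : v145 = v5 * v144)
    (h146 : v146 = v143 + v145)
    (h147 : v147 = P.c.q3)
    (h148 : v148 = v9 * v147)
    (h149 : v149 = v146 + v148)
    (h150 : v150 = v0 * v149)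
    (h151 : v151 = v142 + v150)
    (h152 : v152 = P.c.b21)
    (h153 : v153 = P.c.b22)
    (h154 : v154 = v5 * v153)
    (h155 : v155 = v152 + v154)
    (h156 : v156 = P.c.q4)
    (h157 : v157 = P.c.q5)
    (h158 : v158 = v5 * v157)
    (h159 : v159 = v156 + v158)
    (h : TrE (realAlg (fun i => get 0 (P.syl n.l) i) (r) (s)) (pNa.drop 160) [v159, v158, v157, v156, v155, v154, v153, v152, v151, v150, v149, v148, v147, v146, v145, v144, v143, v142, v141, v140, v139, v138, v137, v136, v135, v134, v133, v132, v131, v130, v129, v128, v127, v126, v125, v124, v123, v122, v121, v120, v119, v118, v117, v116, v115, v114, v113, v112, v111, v110, v109, v108, v107, v106, v105, v104, v103, v102, v101, v100, v99, v98, v97, v96, v95, v94, v93, v92, v91, v90, v89, v88, v87, v86, v85, v84, v83, v82, v81, v80, v79, v78, v77, v76, v75, v74, v73, v72, v71, v70, v69, v68, v67, v66, v65, v64, v63, v62, v61, v60, v59, v58, v57, v56, v55,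 v54, v53, v52, v51, v50, v49, v48, v47, v46, v45, v44, v43, v42, v41, v40, v39, v38, v37, v36, v35, v34, v33, v32, v31, v30, v29, v28, v27, v26, v25, v24, v23, v22, v21, v20, v19, v18, v17, v16, v15, v14, v13, v12, v11, v10, v9, v8, v7, v6, v5, v4, v3, v2, v1, v0] (fun st => run (realAlg (fun i => get 0 (P.syl n.l) i) (r) (s)) pNa [] = st)) :
    pNa_goal P n r s := by
  obtain ⟨v160, h160, h⟩ := h
  change v160 = P.c.q6 at h160
  obtain ⟨v161, h161, h⟩ := h
  change v161 = v9 * v160 at h161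
  obtain ⟨v162, h162, h⟩ := h
  change v162 = v159 + v161 at h162
  obtain ⟨v163, h163, h⟩ := h
  change v163 = v0 * v162 at h163
  obtain ⟨v164, h164, h⟩ := h
  change v164 = v155 + v163 at h164
  obtain ⟨B, e_B_d⟩ : ∃ q : ℂ, q = VBr P.c r X := ⟨_, rfl⟩
  have e_B_re : v151 = B.re := by
    rw [e_B_d]
    simp only [VBr_re, VBr_im, h151, h150, h149, h148, h147, h146, h145, h144, h143, h142, h141, h140, h139, h9, h0, e_X_im, e_X_re, mul_re, mul_im, add_re, add_im, sub_re, sub_im, neg_re, neg_im, I_re, I_im, ofReal_re,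
      ofReal_im, one_re, one_im, zero_re, zero_im, dt, normSq_apply, re_ofNat, im_ofNat, conj_re, conj_im]
    try ring
  have e_B_im : v164 = B.im := by
    rw [e_B_d]
    simp only [VBr_re, VBr_im, h164, h163, h162, h161, h160, h159, h158, h157, h156, h155, h154, h153, h152, h9, h0, e_X_im, e_X_re, mul_re, mul_im, add_re, add_im, sub_re, sub_im, neg_re, neg_im, I_re, I_im, ofReal_re,
      ofReal_im, one_re, one_im, zero_re, zero_im, dt, normSq_apply, re_ofNat, im_ofNat, conj_re, conj_im]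
    try ring
  obtain ⟨v165, h165, h⟩ := h
  change v165 = P.cs.b11 at h165
  obtain ⟨v166, h166, h⟩ := h
  change v166 = P.cs.b12 at h166
  obtain ⟨v167, h167, h⟩ := h
  change v167 = v5 * v166 at h167
  obtain ⟨v168, h168, h⟩ := h
  change v168 = v165 + v167 at h168
  obtain ⟨v169, h169, h⟩ := h
  change v169 = P.cs.q1 at h169
  obtain ⟨v170, h170, h⟩ := h
  change v170 = P.cs.q2 at h170
  obtain ⟨v171, h171, h⟩ := h
  change v171 = v5 * v170 at h171
  obtain ⟨v172, h172, h⟩ := h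
  change v172 = v169 + v171 at h172
  obtain ⟨v173, h173, h⟩ := h
  change v173 = P.cs.q3 at h173
  obtain ⟨v174, h174, h⟩ := h
  change v174 = v9 * v173 at h174
  obtain ⟨v175, h175, h⟩ := h
  change v175 = v172 + v174 at h175
  obtain ⟨v176, h176, h⟩ := h
  change v176 = v0 * v175 at h176
  obtain ⟨v177, h177, h⟩ := h
  change v177 = v168 + v176 at h177
  obtain ⟨v178, h178, h⟩ := h
  change v178 = P.cs.b21 at h178
  obtain ⟨v179, h179, h⟩ := h
  change v179 = P.cs.b22 at h179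
  obtain ⟨v180, h180, h⟩ := h
  change v180 = v5 * v179 at h180
  obtain ⟨v181, h181, h⟩ := h
  change v181 = v178 + v180 at h181
  obtain ⟨v182, h182, h⟩ := h
  change v182 = P.cs.q4 at h182
  obtain ⟨v183, h183, h⟩ := h
  change v183 = P.cs.q5 at h183
  obtain ⟨v184, h184, h⟩ := h
  change v184 = v5 * v183 at h184
  obtain ⟨v185, h185, h⟩ := h
  change v185 = v182 + v184 at h185
  obtain ⟨v186, h186, h⟩ := h
  change v186 = P.cs.q6 at h186
  obtain ⟨v187, h187, h⟩ := h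
  change v187 = v9 * v186 at h187
  obtain ⟨v188, h188, h⟩ := h
  change v188 = v185 + v187 at h188
  obtain ⟨v189, h189, h⟩ := h
  change v189 = v0 * v188 at h189
  obtain ⟨v190, h190, h⟩ := h
  change v190 = v181 + v189 at h190
  obtain ⟨Bs, e_Bs_d⟩ : ∃ q : ℂ, q = VBr P.cs r X := ⟨_, rfl⟩
  have e_Bs_re : v177 = Bs.re := by
    rw [e_Bs_d]
    simp only [VBr_re, VBr_im, h177, h176, h175, h174, h173, h172, h171, h170, h169, h168, h167, h166, h165, h9, h0, e_X_im, e_X_re, mul_re, mul_im, add_re, add_im, sub_re, sub_im, neg_re, neg_im, I_re, I_im, ofReal_re,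
      ofReal_im, one_re, one_im, zero_re, zero_im, dt, normSq_apply, re_ofNat, im_ofNat, conj_re, conj_im]
    try ring
  have e_Bs_im : v190 = Bs.im := by
    rw [e_Bs_d]
    simp only [VBr_re, VBr_im, h190, h189, h188, h187, h186, h185, h184, h183, h182, h181, h180, h179, h178, h9, h0, e_X_im, e_X_re, mul_re, mul_im, add_re, add_im, sub_re, sub_im, neg_re, neg_im, I_re, I_im, ofReal_re,
      ofReal_im, one_re, one_im, zero_re, zero_im, dt, normSq_apply, re_ofNat, im_ofNat, conj_re, conj_im]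
    try ring
  obtain ⟨v191, h191, h⟩ := h
  change v191 = v2 * v67 at h191
  obtain ⟨v192, h192, h⟩ := h
  change v192 = v5 * v67 at h192
  obtain ⟨v193, h193, h⟩ := h
  change v193 = v68 + v192 at h193
  obtain ⟨v194, h194, h⟩ := h
  change v194 = v5 * v68 at h194
  obtain ⟨v195, h195, h⟩ := h
  change v195 = v2 * v194 at h195
  obtain ⟨v196, h196, h⟩ := h
  change v196 = v67 * v139 at h196
  obtain ⟨v197, h197, h⟩ := h
  change v197 = v68 * v140 at h197
  obtain ⟨v198, h198, h⟩ := h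
  change v198 = v196 + v197 at h198
  obtain ⟨v199, h199, h⟩ := h
  change v199 = v143 * v191 at h199
  exact pNa_c5 P n r s h0 h2 h4 e_X_d e_X_re e_X_im e_d_d e_d_v h9 h10 e_yx_d e_S_d e_T_d e_T_re e_T_im h41 h42 e_e_d e_e_v e_f_d e_f_v h62 h63 e_U_d e_U_re e_U_im h69 e_y_d e_y_re e_y_im e_k_d e_k_v e_fv_d e_fv_re e_fv_im e_M_d e_iM_d e_iM_re e_iM_im e_nM_d e_nM_v e_As_d e_As_v e_Ax_d e_Ax_re e_Ax_im h139 h140 h143 h144 h147 h152 h153 h156 h157 h160 e_B_d e_B_re e_B_im e_Bs_d e_Bs_re e_Bs_im h191 h192 h193 h194 h195 h196 h197 h198 h199 h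

theorem pNa_c3 (P : Pt) (n : Nd) (r s : ℝ) {v0 v1 v2 v3 v4 v5 : ℝ} {X : ℂ} {v6 v7 v8 d v9 v10 v11 v12 v13 v14 yx v15 v16 v17 v18 v19 v20 v21 v22 v23 v24 v25 v26 v27 v28 v29 S v30 v31 v32 v33 v34 v35 v36 v37 v38 v39 v40 : ℝ} {T : ℂ} {v41 v42 v43 v44 e v45 v46 v47 f v48 v49 v50 v51 v52 v53 v54 v55 v56 v57 v58 v59 v60 v61 v62 v63 v64 v65 v66 v67 v68 : ℝ} {U : ℂ} {v69 v70 v71 : ℝ} {y : ℂ} {v72 v73 v74 k v75 v76 v77 v78 v79 v80 v81 v82 v83 : ℝ} {fv : ℂ} {v84 v85 v86 v87 v88 v89 v90 v91 : ℝ} {M iM : ℂ} {v92 v93 v94 nM v95 v96 v97 v98 v99 v100 v101 v102 v103 v104 v105 v106 v107 v108 v109 v110 v111 v112 v113 As v114 v115 v116 v117 v118 v119 : ℝ}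
    (h0 : v0 = r)
    (h2 : v2 = (2 : ℝ))
    (h4 : v4 = (1 : ℝ))
    (e_X_d : X = (⟨1, 2 * s - 1⟩ : ℂ))
    (e_X_re : X.re = (1 : ℝ))
    (e_X_im : v5 = X.im)
    (e_d_d : d = 1 - 2 * P.ys.re - 2 * (r * X.re))
    (e_d_v : v8 = d)
    (h9 : v9 = v5 * v5)
    (h10 : v10 = v9 + v4)
    (e_yx_d : yx = dt P.ys X)
    (e_S_d : S = 4 * ((P.ys.re - (1 - normSq P.ys) / (1 - 2 * P.ys.re)) * X.re + P.ys.im * X.im) ^ 2 - 2 * (1 - normSq P.ys) * normSq X + (4 * yx + normSq X * r) * normSq X * r)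
    (e_T_d : T = I * ((2 * S : ℝ) : ℂ) + I * (X * ((2 * yx + normSq X * r : ℝ) : ℂ) + P.ys * (normSq X : ℂ)) * (d : ℂ))
    (e_T_re : v38 = -T.re)
    (e_T_im : v40 = T.im)
    (h41 : v41 = P.ns.re)
    (h42 : v42 = P.ns.im)
    (e_e_d : e = dt P.ns X)
    (e_e_v : v44 = e)
    (e_f_d : f = P.fs + e * r)
    (e_f_v : v47 = f)
    (h62 : v62 = (P.V0 / (P.fs : ℂ)).re)
    (h63 : v63 = (P.V0 / (P.fs : ℂ)).im)
    (e_U_d : U = P.DV X * (d : ℂ) + T * (r : ℂ) - P.V0 / (P.fs : ℂ) * ((d * e : ℝ) : ℂ))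
    (e_U_re : v67 = U.re)
    (e_U_im : v68 = U.im)
    (h69 : v69 = v0 * v5)
    (e_y_d : y = P.ys + X * (r : ℂ))
    (e_y_re : v70 = y.re)
    (e_y_im : v71 = y.im)
    (e_k_d : k = dt y P.ns)
    (e_k_v : v74 = k)
    (e_fv_d : fv = P.fv y)
    (e_fv_re : v79 = fv.re)
    (e_fv_im : v83 = fv.im)
    (e_M_d : M = P.M X)
    (e_iM_d : iM = I * M)
    (e_iM_re : v91 = -iM.re)
    (e_iM_im : v87 = iM.im)
    (e_nM_d : nM = normSq M)
    (e_nM_v : v94 = nM)
    (e_As_d : As = VAr P.cs r X)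
    (e_As_v : v113 = As)
    (h114 : v114 = 2 * P.c.a20)
    (h115 : v115 = P.c.a11)
    (h116 : v116 = v5 * v115)
    (h117 : v117 = v114 + v116)
    (h118 : v118 = 3 * P.c.a30)
    (h119 : v119 = 2 * P.c.a21)
    (h : TrE (realAlg (fun i => get 0 (P.syl n.l) i) (r) (s)) (pNa.drop 120) [v119, v118, v117, v116, v115, v114, v113, v112, v111, v110, v109, v108, v107, v106, v105, v104, v103, v102, v101, v100, v99, v98, v97, v96, v95, v94, v93, v92, v91, v90, v89, v88, v87, v86, v85, v84, v83, v82, v81, v80, v79, v78, v77, v76, v75, v74, v73, v72, v71, v70, v69, v68, v67, v66, v65, v64, v63, v62, v61, v60, v59, v58, v57, v56, v55, v54, v53, v52, v51, v50, v49, v48, v47, v46, v45, v44, v43, v42, v41, v40, v39, v38, v37, v36, v35, v34, v33, v32, v31, v30, v29, v28, v27, v26, v25, v24, v23, v22, v21, v20, v19, v18, v17, v16, v15, v14, v13, v12, v11, v10, v9, v8, v7, v6, v5, v4, v3, v2, v1, v0] (fun st => run (realAlg (fun i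 => get 0 (P.syl n.l) i) (r) (s)) pNa [] = st)) :
    pNa_goal P n r s := by
  obtain ⟨v120, h120, h⟩ := h
  change v120 = v5 * v119 at h120
  obtain ⟨v121, h121, h⟩ := h
  change v121 = v118 + v120 at h121
  obtain ⟨v122, h122, h⟩ := h
  change v122 = P.c.a12 at h122
  obtain ⟨v123, h123, h⟩ := h
  change v123 = v9 * v122 at h123
  obtain ⟨v124, h124, h⟩ := h
  change v124 = v121 + v123 at h124
  obtain ⟨v125, h125, h⟩ := h
  change v125 = v0 * v124 at h125
  obtain ⟨v126, h126, h⟩ := h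
  change v126 = v117 + v125 at h126
  obtain ⟨v127, h127, h⟩ := h
  change v127 = 2 * P.c.a02 at h127
  obtain ⟨v128, h128, h⟩ := h
  change v128 = v5 * v127 at h128
  obtain ⟨v129, h129, h⟩ := h
  change v129 = v115 + v128 at h129
  obtain ⟨v130, h130, h⟩ := h
  change v130 = P.c.a21 at h130
  obtain ⟨v131, h131, h⟩ := h
  change v131 = 2 * P.c.a12 at h131
  obtain ⟨v132, h132, h⟩ := h
  change v132 = v5 * v131 at h132
  obtain ⟨v133, h133, h⟩ := h
  change v133 = v130 + v132 at h133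
  obtain ⟨v134, h134, h⟩ := h
  change v134 = 3 * P.c.a03 at h134
  obtain ⟨v135, h135, h⟩ := h
  change v135 = v9 * v134 at h135
  obtain ⟨v136, h136, h⟩ := h
  change v136 = v133 + v135 at h136
  obtain ⟨v137, h137, h⟩ := h
  change v137 = v0 * v136 at h137
  obtain ⟨v138, h138, h⟩ := h
  change v138 = v129 + v137 at h138
  obtain ⟨Ax, e_Ax_d⟩ : ∃ q : ℂ, q = VAxr P.c r X := ⟨_, rfl⟩
  have e_Ax_re : v126 = Ax.re := by
    rw [e_Ax_d]
    simp only [VAxr_re, VAxr_im, h126, h125, h124, h123, h122, h121, h120, h119, h118, h117, h116, h115, h114, h9, h0, e_X_im, e_X_re, mul_re, mul_im, add_re, add_im, sub_re, sub_im, neg_re, neg_im, I_re, I_im, ofReal_re,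
      ofReal_im, one_re, one_im, zero_re, zero_im, dt, normSq_apply, re_ofNat, im_ofNat, conj_re, conj_im]
    try ring
  have e_Ax_im : v138 = Ax.im := by
    rw [e_Ax_d]
    simp only [VAxr_re, VAxr_im, h138, h137, h136, h135, h134, h133, h132, h131, h130, h129, h128, h127, h115, h9, h0, e_X_im, e_X_re, mul_re, mul_im, add_re, add_im, sub_re, sub_im, neg_re, neg_im, I_re, I_im, ofReal_re,
      ofReal_im, one_re, one_im, zero_re, zero_im, dt, normSq_apply, re_ofNat, im_ofNat, conj_re, conj_im]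
    try ring
  obtain ⟨v139, h139, h⟩ := h
  change v139 = P.c.b11 at h139
  obtain ⟨v140, h140, h⟩ := h
  change v140 = P.c.b12 at h140
  obtain ⟨v141, h141, h⟩ := h
  change v141 = v5 * v140 at h141
  obtain ⟨v142, h142, h⟩ := h
  change v142 = v139 + v141 at h142
  obtain ⟨v143, h143, h⟩ := h
  change v143 = P.c.q1 at h143
  obtain ⟨v144, h144, h⟩ := h
  change v144 = P.c.q2 at h144
  obtain ⟨v145, h145, h⟩ := h
  change v145 = v5 * v144 at h145
  obtain ⟨v146, h146, h⟩ := h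
  change v146 = v143 + v145 at h146
  obtain ⟨v147, h147, h⟩ := h
  change v147 = P.c.q3 at h147
  obtain ⟨v148, h148, h⟩ := h
  change v148 = v9 * v147 at h148
  obtain ⟨v149, h149, h⟩ := h
  change v149 = v146 + v148 at h149
  obtain ⟨v150, h150, h⟩ := h
  change v150 = v0 * v149 at h150
  obtain ⟨v151, h151, h⟩ := h
  change v151 = v142 + v150 at h151
  obtain ⟨v152, h152, h⟩ := h
  change v152 = P.c.b21 at h152
  obtain ⟨v153, h153, h⟩ := h
  change v153 = P.c.b22 at h153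
  obtain ⟨v154, h154, h⟩ := h
  change v154 = v5 * v153 at h154
  obtain ⟨v155, h155, h⟩ := h
  change v155 = v152 + v154 at h155
  obtain ⟨v156, h156, h⟩ := h
  change v156 = P.c.q4 at h156
  obtain ⟨v157, h157, h⟩ := h
  change v157 = P.c.q5 at h157
  obtain ⟨v158, h158, h⟩ := h
  change v158 = v5 * v157 at h158
  obtain ⟨v159, h159, h⟩ := h
  change v159 = v156 + v158 at h159
  exact pNa_c4 P n r s h0 h2 h4 e_X_d e_X_re e_X_im e_d_d e_d_v h9 h10 e_yx_d e_S_d e_T_d e_T_re e_T_im h41 h42 e_e_d e_e_v e_f_d e_f_v h62 h63 e_U_d e_U_re e_U_im h69 e_y_d e_y_re e_y_im e_k_d e_k_v e_fv_d e_fv_re e_fv_im e_M_d e_iM_d e_iM_re e_iM_im e_nM_d e_nM_v e_As_d e_As_v e_Ax_d e_Ax_re e_Ax_im h139 h140 h141 h142 h143 h144 h145 h146 h147 h148 h149 h150 h151 h152 h153 h154 h155 h156 h157 h158 h159 h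

theorem pNa_c2 (P : Pt) (n : Nd) (r s : ℝ) {v0 v1 v2 v3 v4 v5 : ℝ} {X : ℂ} {v6 v7 v8 d v9 v10 v11 v12 v13 v14 yx v15 v16 v17 v18 v19 v20 v21 v22 v23 v24 v25 v26 v27 v28 v29 S v30 v31 v32 v33 v34 v35 v36 v37 v38 v39 v40 : ℝ} {T : ℂ} {v41 v42 v43 v44 e v45 v46 v47 f v48 v49 v50 v51 v52 v53 v54 v55 v56 v57 v58 v59 v60 v61 v62 v63 v64 v65 v66 v67 v68 : ℝ} {U : ℂ} {v69 v70 v71 : ℝ} {y : ℂ} {v72 v73 v74 k v75 v76 v77 v78 v79 : ℝ}
    (h0 : v0 = r)
    (h2 : v2 = (2 : ℝ))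
    (h4 : v4 = (1 : ℝ))
    (e_X_d : X = (⟨1, 2 * s - 1⟩ : ℂ))
    (e_X_re : X.re = (1 : ℝ))
    (e_X_im : v5 = X.im)
    (e_d_d : d = 1 - 2 * P.ys.re - 2 * (r * X.re))
    (e_d_v : v8 = d)
    (h9 : v9 = v5 * v5)
    (h10 : v10 = v9 + v4)
    (e_yx_d : yx = dt P.ys X)
    (e_S_d : S = 4 * ((P.ys.re - (1 - normSq P.ys) / (1 - 2 * P.ys.re)) * X.re + P.ys.im * X.im) ^ 2 - 2 * (1 - normSq P.ys) * normSq X + (4 * yx + normSq X * r) * normSq X * r)
    (e_T_d : T = I * ((2 * S : ℝ) : ℂ) + I * (X * ((2 * yx + normSq X * r : ℝ) : ℂ) + P.ys * (normSq X : ℂ)) * (d : ℂ))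
    (e_T_re : v38 = -T.re)
    (e_T_im : v40 = T.im)
    (h41 : v41 = P.ns.re)
    (h42 : v42 = P.ns.im)
    (e_e_d : e = dt P.ns X)
    (e_e_v : v44 = e)
    (e_f_d : f = P.fs + e * r)
    (e_f_v : v47 = f)
    (h62 : v62 = (P.V0 / (P.fs : ℂ)).re)
    (h63 : v63 = (P.V0 / (P.fs : ℂ)).im)
    (e_U_d : U = P.DV X * (d : ℂ) + T * (r : ℂ) - P.V0 / (P.fs : ℂ) * ((d * e : ℝ) : ℂ))
    (e_U_re : v67 = U.re)
    (e_U_im : v68 = U.im)
    (h69 : v69 = v0 * v5)
    (e_y_d : y = P.ys + X * (r : ℂ))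
    (e_y_re : v70 = y.re)
    (e_y_im : v71 = y.im)
    (e_k_d : k = dt y P.ns)
    (e_k_v : v74 = k)
    (h75 : v75 = (P.fv 1).re)
    (h76 : v76 = v70 * v75)
    (h77 : v77 = (P.fv 1).im)
    (h78 : v78 = v71 * v77)
    (h79 : v79 = v76 + v78)
    (h : TrE (realAlg (fun i => get 0 (P.syl n.l) i) (r) (s)) (pNa.drop 80) [v79, v78, v77, v76, v75, v74, v73, v72, v71, v70, v69, v68, v67, v66, v65, v64, v63, v62, v61, v60, v59, v58, v57, v56, v55, v54, v53, v52, v51, v50, v49, v48, v47, v46, v45, v44, v43, v42, v41, v40, v39, v38, v37, v36, v35, v34, v33, v32, v31, v30, v29, v28, v27, v26, v25, v24, v23, v22, v21, v20, v19, v18, v17, v16, v15, v14, v13, v12, v11, v10, v9, v8, v7, v6, v5, v4, v3, v2, v1, v0] (fun st => run (realAlg (fun i => get 0 (P.syl n.l) i) (r) (s)) pNa [] = st)) :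
    pNa_goal P n r s := by
  obtain ⟨v80, h80, h⟩ := h
  change v80 = v70 * v77 at h80
  obtain ⟨v81, h81, h⟩ := h
  change v81 = (P.fv I).im at h81
  obtain ⟨v82, h82, h⟩ := h
  change v82 = v71 * v81 at h82
  obtain ⟨v83, h83, h⟩ := h
  change v83 = v80 + v82 at h83
  obtain ⟨fv, e_fv_d⟩ : ∃ q : ℂ, q = P.fv y := ⟨_, rfl⟩
  have e_fv_re : v79 = fv.re := by
    rw [e_fv_d]
    simp only [fv_re P y, fv_im P y, h79, h78, h77, h76, h75, e_y_im, e_y_re, mul_re, mul_im, add_re, add_im, sub_re, sub_im, neg_re, neg_im, I_re, I_im, ofReal_re,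
      ofReal_im, one_re, one_im, zero_re, zero_im, dt, normSq_apply, re_ofNat, im_ofNat, conj_re, conj_im]
    try ring
  have e_fv_im : v83 = fv.im := by
    rw [e_fv_d]
    simp only [fv_re P y, fv_im P y, h83, h82, h81, h80, h77, e_y_im, e_y_re, mul_re, mul_im, add_re, add_im, sub_re, sub_im, neg_re, neg_im, I_re, I_im, ofReal_re,
      ofReal_im, one_re, one_im, zero_re, zero_im, dt, normSq_apply, re_ofNat, im_ofNat, conj_re, conj_im]
    try ring
  obtain ⟨v84, h84, h⟩ := h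
  change v84 = (P.M 1).re at h84
  obtain ⟨v85, h85, h⟩ := h
  change v85 = (P.M I).re at h85
  obtain ⟨v86, h86, h⟩ := h
  change v86 = v5 * v85 at h86
  obtain ⟨v87, h87, h⟩ := h
  change v87 = v84 + v86 at h87
  obtain ⟨v88, h88, h⟩ := h
  change v88 = (P.M 1).im at h88
  obtain ⟨v89, h89, h⟩ := h
  change v89 = (P.M I).im at h89
  obtain ⟨v90, h90, h⟩ := h
  change v90 = v5 * v89 at h90
  obtain ⟨v91, h91, h⟩ := h
  change v91 = v88 + v90 at h91
  obtain ⟨M, e_M_d⟩ : ∃ q : ℂ, q = P.M X := ⟨_, rfl⟩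
  have e_M_re : v87 = M.re := by
    rw [e_M_d]
    simp only [M_re P X, M_im P X, h87, h86, h85, h84, e_X_im, e_X_re, mul_re, mul_im, add_re, add_im, sub_re, sub_im, neg_re, neg_im, I_re, I_im, ofReal_re,
      ofReal_im, one_re, one_im, zero_re, zero_im, dt, normSq_apply, re_ofNat, im_ofNat, conj_re, conj_im]
    try ring
  have e_M_im : v91 = M.im := by
    rw [e_M_d]
    simp only [M_re P X, M_im P X, h91, h90, h89, h88, e_X_im, e_X_re, mul_re, mul_im, add_re, add_im, sub_re, sub_im, neg_re, neg_im, I_re, I_im, ofReal_re,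
      ofReal_im, one_re, one_im, zero_re, zero_im, dt, normSq_apply, re_ofNat, im_ofNat, conj_re, conj_im]
    try ring
  obtain ⟨iM, e_iM_d⟩ : ∃ q : ℂ, q = I * M := ⟨_, rfl⟩
  have e_iM_re : v91 = -iM.re := by
    rw [e_iM_d]
    simp only [e_M_im, mul_re, mul_im, add_re, add_im, sub_re, sub_im, neg_re, neg_im, I_re, I_im, ofReal_re,
      ofReal_im, one_re, one_im, zero_re, zero_im, dt, normSq_apply, re_ofNat, im_ofNat, conj_re, conj_im]
    try ring
  have e_iM_im : v87 = iM.im := by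
    rw [e_iM_d]
    simp only [e_M_re, mul_re, mul_im, add_re, add_im, sub_re, sub_im, neg_re, neg_im, I_re, I_im, ofReal_re,
      ofReal_im, one_re, one_im, zero_re, zero_im, dt, normSq_apply, re_ofNat, im_ofNat, conj_re, conj_im]
    try ring
  obtain ⟨v92, h92, h⟩ := h
  change v92 = v87 * v87 at h92
  obtain ⟨v93, h93, h⟩ := h
  change v93 = v91 * v91 at h93
  obtain ⟨v94, h94, h⟩ := h
  change v94 = v92 + v93 at h94
  obtain ⟨nM, e_nM_d⟩ : ∃ q : ℝ, q = normSq M := ⟨_, rfl⟩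
  have e_nM_v : v94 = nM := by
    rw [e_nM_d]
    simp only [h94, h93, h92, e_M_im, e_M_re, mul_re, mul_im, add_re, add_im, sub_re, sub_im, neg_re, neg_im, I_re, I_im, ofReal_re,
      ofReal_im, one_re, one_im, zero_re, zero_im, dt, normSq_apply, re_ofNat, im_ofNat, conj_re, conj_im]
    try ring
  obtain ⟨v95, h95, h⟩ := h
  change v95 = P.cs.a30 at h95
  obtain ⟨v96, h96, h⟩ := h
  change v96 = P.cs.a21 at h96
  obtain ⟨v97, h97, h⟩ := h
  change v97 = v5 * v96 at h97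
  obtain ⟨v98, h98, h⟩ := h
  change v98 = v95 + v97 at h98
  obtain ⟨v99, h99, h⟩ := h
  change v99 = P.cs.a12 at h99
  obtain ⟨v100, h100, h⟩ := h
  change v100 = P.cs.a03 at h100
  obtain ⟨v101, h101, h⟩ := h
  change v101 = v5 * v100 at h101
  obtain ⟨v102, h102, h⟩ := h
  change v102 = v99 + v101 at h102
  obtain ⟨v103, h103, h⟩ := h
  change v103 = v9 * v102 at h103
  obtain ⟨v104, h104, h⟩ := h
  change v104 = v98 + v103 at h104
  obtain ⟨v105, h105, h⟩ := h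
  change v105 = P.cs.a20 at h105
  obtain ⟨v106, h106, h⟩ := h
  change v106 = P.cs.a11 at h106
  obtain ⟨v107, h107, h⟩ := h
  change v107 = v5 * v106 at h107
  obtain ⟨v108, h108, h⟩ := h
  change v108 = v105 + v107 at h108
  obtain ⟨v109, h109, h⟩ := h
  change v109 = P.cs.a02 at h109
  obtain ⟨v110, h110, h⟩ := h
  change v110 = v9 * v109 at h110
  obtain ⟨v111, h111, h⟩ := h
  change v111 = v108 + v110 at h111
  obtain ⟨v112, h112, h⟩ := h
  change v112 = v0 * v104 at h112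
  obtain ⟨v113, h113, h⟩ := h
  change v113 = v111 + v112 at h113
  obtain ⟨As, e_As_d⟩ : ∃ q : ℝ, q = VAr P.cs r X := ⟨_, rfl⟩
  have e_As_v : v113 = As := by
    rw [e_As_d]
    simp only [VAr_eq, h113, h112, h111, h110, h109, h108, h107, h106, h105, h104, h103, h102, h101, h100, h99, h98, h97, h96, h95, h9, h0, e_X_im, e_X_re, mul_re, mul_im, add_re, add_im, sub_re, sub_im, neg_re, neg_im, I_re, I_im, ofReal_re,
      ofReal_im, one_re, one_im, zero_re, zero_im, dt, normSq_apply, re_ofNat, im_ofNat, conj_re, conj_im]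
    try ring
  obtain ⟨v114, h114, h⟩ := h
  change v114 = 2 * P.c.a20 at h114
  obtain ⟨v115, h115, h⟩ := h
  change v115 = P.c.a11 at h115
  obtain ⟨v116, h116, h⟩ := h
  change v116 = v5 * v115 at h116
  obtain ⟨v117, h117, h⟩ := h
  change v117 = v114 + v116 at h117
  obtain ⟨v118, h118, h⟩ := h
  change v118 = 3 * P.c.a30 at h118
  obtain ⟨v119, h119, h⟩ := h
  change v119 = 2 * P.c.a21 at h119
  exact pNa_c3 P n r s h0 h2 h4 e_X_d e_X_re e_X_im e_d_d e_d_v h9 h10 e_yx_d e_S_d e_T_d e_T_re e_T_im h41 h42 e_e_d e_e_v e_f_d e_f_v h62 h63 e_U_d e_U_re e_U_im h69 e_y_d e_y_re e_y_im e_k_d e_k_v e_fv_d e_fv_re e_fv_im e_M_d e_iM_d e_iM_re e_iM_im e_nM_d e_nM_v e_As_d e_As_v h114 h115 h116 h117 h118 h119 h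

theorem pNa_c1 (P : Pt) (n : Nd) (r s : ℝ) {v0 v1 v2 v3 v4 v5 : ℝ} {X : ℂ} {v6 v7 v8 d v9 v10 v11 v12 v13 v14 yx v15 v16 v17 v18 v19 v20 v21 v22 v23 v24 v25 v26 v27 v28 v29 S v30 v31 v32 v33 v34 v35 v36 v37 v38 v39 : ℝ}
    (h0 : v0 = r)
    (h2 : v2 = (2 : ℝ))
    (h4 : v4 = (1 : ℝ))
    (e_X_d : X = (⟨1, 2 * s - 1⟩ : ℂ))
    (e_X_re : X.re = (1 : ℝ))
    (e_X_im : v5 = X.im)
    (e_d_d : d = 1 - 2 * P.ys.re - 2 * (r * X.re))
    (e_d_v : v8 = d)
    (h9 : v9 = v5 * v5)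
    (h10 : v10 = v9 + v4)
    (h11 : v11 = P.ys.re)
    (h12 : v12 = P.ys.im)
    (e_yx_d : yx = dt P.ys X)
    (e_yx_v : v14 = yx)
    (h25 : v25 = v0 * v10)
    (e_S_d : S = 4 * ((P.ys.re - (1 - normSq P.ys) / (1 - 2 * P.ys.re)) * X.re + P.ys.im * X.im) ^ 2 - 2 * (1 - normSq P.ys) * normSq X + (4 * yx + normSq X * r) * normSq X * r)
    (e_S_v : v29 = S)
    (h30 : v30 = v2 * v29)
    (h31 : v31 = v2 * v14)
    (h32 : v32 = v25 + v31)
    (h33 : v33 = v5 * v32)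
    (h34 : v34 = v10 * v11)
    (h35 : v35 = v10 * v12)
    (h36 : v36 = v32 + v34)
    (h37 : v37 = v33 + v35)
    (h38 : v38 = v8 * v37)
    (h39 : v39 = v8 * v36)
    (h : TrE (realAlg (fun i => get 0 (P.syl n.l) i) (r) (s)) (pNa.drop 40) [v39, v38, v37, v36, v35, v34, v33, v32, v31, v30, v29, v28, v27, v26, v25, v24, v23, v22, v21, v20, v19, v18, v17, v16, v15, v14, v13, v12, v11, v10, v9, v8, v7, v6, v5, v4, v3, v2, v1, v0] (fun st => run (realAlg (fun i => get 0 (P.syl n.l) i) (r) (s)) pNa [] = st)) :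
    pNa_goal P n r s := by
  obtain ⟨v40, h40, h⟩ := h
  change v40 = v30 + v39 at h40
  obtain ⟨T, e_T_d⟩ : ∃ q : ℂ, q = I * ((2 * S : ℝ) : ℂ) + I * (X * ((2 * yx + normSq X * r : ℝ) : ℂ) + P.ys * (normSq X : ℂ)) * (d : ℂ) := ⟨_, rfl⟩
  have e_T_re : v38 = -T.re := by
    rw [e_T_d]
    simp only [h38, h37, h35, h33, h32, h31, h25, h12, h10, h9, h4, h2, h0, e_X_im, e_yx_v, e_d_v, e_X_re, mul_re, mul_im, add_re, add_im, sub_re, sub_im, neg_re, neg_im, I_re, I_im, ofReal_re,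
      ofReal_im, one_re, one_im, zero_re, zero_im, dt, normSq_apply, re_ofNat, im_ofNat, conj_re, conj_im]
    try ring
  have e_T_im : v40 = T.im := by
    rw [e_T_d]
    simp only [h40, h39, h36, h34, h32, h31, h30, h25, h11, h10, h9, h4, h2, h0, e_X_im, e_yx_v, e_d_v, e_S_v, e_X_re, mul_re, mul_im, add_re, add_im, sub_re, sub_im, neg_re, neg_im, I_re, I_im, ofReal_re,
      ofReal_im, one_re, one_im, zero_re, zero_im, dt, normSq_apply, re_ofNat, im_ofNat, conj_re, conj_im]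
    try ring
  obtain ⟨v41, h41, h⟩ := h
  change v41 = P.ns.re at h41
  obtain ⟨v42, h42, h⟩ := h
  change v42 = P.ns.im at h42
  obtain ⟨v43, h43, h⟩ := h
  change v43 = v5 * v42 at h43
  obtain ⟨v44, h44, h⟩ := h
  change v44 = v41 + v43 at h44
  obtain ⟨e, e_e_d⟩ : ∃ q : ℝ, q = dt P.ns X := ⟨_, rfl⟩
  have e_e_v : v44 = e := by
    rw [e_e_d]
    simp only [h44, h43, h42, h41, e_X_im, e_X_re, mul_re, mul_im, add_re, add_im, sub_re, sub_im, neg_re, neg_im, I_re, I_im, ofReal_re,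
      ofReal_im, one_re, one_im, zero_re, zero_im, dt, normSq_apply, re_ofNat, im_ofNat, conj_re, conj_im]
    try ring
  obtain ⟨v45, h45, h⟩ := h
  change v45 = P.fs at h45
  obtain ⟨v46, h46, h⟩ := h
  change v46 = v0 * v44 at h46
  obtain ⟨v47, h47, h⟩ := h
  change v47 = v45 + v46 at h47
  obtain ⟨f, e_f_d⟩ : ∃ q : ℝ, q = P.fs + e * r := ⟨_, rfl⟩
  have e_f_v : v47 = f := by
    rw [e_f_d]
    simp only [h47, h46, h45, h0, e_e_v, mul_re, mul_im, add_re, add_im, sub_re, sub_im, neg_re, neg_im, I_re, I_im, ofReal_re,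
      ofReal_im, one_re, one_im, zero_re, zero_im, dt, normSq_apply, re_ofNat, im_ofNat, conj_re, conj_im]
    try ring
  obtain ⟨v48, h48, h⟩ := h
  change v48 = (P.DV 1).re at h48
  obtain ⟨v49, h49, h⟩ := h
  change v49 = (P.DV I).re at h49
  obtain ⟨v50, h50, h⟩ := h
  change v50 = v5 * v49 at h50
  obtain ⟨v51, h51, h⟩ := h
  change v51 = v48 + v50 at h51
  obtain ⟨v52, h52, h⟩ := h
  change v52 = (P.DV 1).im at h52
  obtain ⟨v53, h53, h⟩ := h
  change v53 = (P.DV I).im at h53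
  obtain ⟨v54, h54, h⟩ := h
  change v54 = v5 * v53 at h54
  obtain ⟨v55, h55, h⟩ := h
  change v55 = v52 + v54 at h55
  obtain ⟨v56, h56, h⟩ := h
  change v56 = v8 * v51 at h56
  obtain ⟨v57, h57, h⟩ := h
  change v57 = v8 * v55 at h57
  obtain ⟨v58, h58, h⟩ := h
  change v58 = v0 * v38 at h58
  obtain ⟨v59, h59, h⟩ := h
  change v59 = v0 * v40 at h59
  obtain ⟨v60, h60, h⟩ := h
  change v60 = v56 - v58 at h60
  obtain ⟨v61, h61, h⟩ := h
  change v61 = v57 + v59 at h61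
  obtain ⟨v62, h62, h⟩ := h
  change v62 = (P.V0 / (P.fs : ℂ)).re at h62
  obtain ⟨v63, h63, h⟩ := h
  change v63 = (P.V0 / (P.fs : ℂ)).im at h63
  obtain ⟨v64, h64, h⟩ := h
  change v64 = v8 * v44 at h64
  obtain ⟨v65, h65, h⟩ := h
  change v65 = v62 * v64 at h65
  obtain ⟨v66, h66, h⟩ := h
  change v66 = v63 * v64 at h66
  obtain ⟨v67, h67, h⟩ := h
  change v67 = v60 - v65 at h67
  obtain ⟨v68, h68, h⟩ := h
  change v68 = v61 - v66 at h68
  obtain ⟨U, e_U_d⟩ : ∃ q : ℂ, q = P.DV X * (d : ℂ) + T * (r : ℂ) - P.V0 / (P.fs : ℂ) * ((d * e : ℝ) : ℂ) := ⟨_, rfl⟩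
  have e_U_re : v67 = U.re := by
    rw [e_U_d]
    simp only [DV_re P X, DV_im P X, h67, h65, h64, h62, h60, h58, h56, h51, h50, h49, h48, h0, e_e_v, e_d_v, e_T_re, e_X_im, e_X_re, mul_re, mul_im, add_re, add_im, sub_re, sub_im, neg_re, neg_im, I_re, I_im, ofReal_re,
      ofReal_im, one_re, one_im, zero_re, zero_im, dt, normSq_apply, re_ofNat, im_ofNat, conj_re, conj_im]
    try ring
  have e_U_im : v68 = U.im := by
    rw [e_U_d]
    simp only [DV_re P X, DV_im P X, h68, h66, h64, h63, h61, h59, h57, h55, h54, h53, h52, h0, e_e_v, e_d_v, e_T_im, e_X_im, e_X_re, mul_re, mul_im, add_re, add_im, sub_re, sub_im, neg_re, neg_im, I_re, I_im, ofReal_re,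
      ofReal_im, one_re, one_im, zero_re, zero_im, dt, normSq_apply, re_ofNat, im_ofNat, conj_re, conj_im]
    try ring
  obtain ⟨v69, h69, h⟩ := h
  change v69 = v0 * v5 at h69
  obtain ⟨v70, h70, h⟩ := h
  change v70 = v0 + v11 at h70
  obtain ⟨v71, h71, h⟩ := h
  change v71 = v12 + v69 at h71
  obtain ⟨y, e_y_d⟩ : ∃ q : ℂ, q = P.ys + X * (r : ℂ) := ⟨_, rfl⟩
  have e_y_re : v70 = y.re := by
    rw [e_y_d]
    simp only [h70, h11, h0, e_X_re, mul_re, mul_im, add_re, add_im, sub_re, sub_im, neg_re, neg_im, I_re, I_im, ofReal_re,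
      ofReal_im, one_re, one_im, zero_re, zero_im, dt, normSq_apply, re_ofNat, im_ofNat, conj_re, conj_im]
    try ring
  have e_y_im : v71 = y.im := by
    rw [e_y_d]
    simp only [h71, h69, h12, h0, e_X_im, e_X_re, mul_re, mul_im, add_re, add_im, sub_re, sub_im, neg_re, neg_im, I_re, I_im, ofReal_re,
      ofReal_im, one_re, one_im, zero_re, zero_im, dt, normSq_apply, re_ofNat, im_ofNat, conj_re, conj_im]
    try ring
  obtain ⟨v72, h72, h⟩ := h
  change v72 = v41 * v70 at h72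
  obtain ⟨v73, h73, h⟩ := h
  change v73 = v42 * v71 at h73
  obtain ⟨v74, h74, h⟩ := h
  change v74 = v72 + v73 at h74
  obtain ⟨k, e_k_d⟩ : ∃ q : ℝ, q = dt y P.ns := ⟨_, rfl⟩
  have e_k_v : v74 = k := by
    rw [e_k_d]
    simp only [h74, h73, h72, h42, h41, e_y_im, e_y_re, mul_re, mul_im, add_re, add_im, sub_re, sub_im, neg_re, neg_im, I_re, I_im, ofReal_re,
      ofReal_im, one_re, one_im, zero_re, zero_im, dt, normSq_apply, re_ofNat, im_ofNat, conj_re, conj_im]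
    try ring
  obtain ⟨v75, h75, h⟩ := h
  change v75 = (P.fv 1).re at h75
  obtain ⟨v76, h76, h⟩ := h
  change v76 = v70 * v75 at h76
  obtain ⟨v77, h77, h⟩ := h
  change v77 = (P.fv 1).im at h77
  obtain ⟨v78, h78, h⟩ := h
  change v78 = v71 * v77 at h78
  obtain ⟨v79, h79, h⟩ := h
  change v79 = v76 + v78 at h79
  exact pNa_c2 P n r s h0 h2 h4 e_X_d e_X_re e_X_im e_d_d e_d_v h9 h10 e_yx_d e_S_d e_T_d e_T_re e_T_im h41 h42 e_e_d e_e_v e_f_d e_f_v h62 h63 e_U_d e_U_re e_U_im h69 e_y_d e_y_re e_y_im e_k_d e_k_v h75 h76 h77 h78 h79 h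

theorem pNa_c0 (P : Pt) (n : Nd) (r s : ℝ)
    (h : TrE (realAlg (fun i => get 0 (P.syl n.l) i) (r) (s)) (pNa) [] (fun st => run (realAlg (fun i => get 0 (P.syl n.l) i) (r) (s)) pNa [] = st)) :
    pNa_goal P n r s := by
  obtain ⟨v0, h0, h⟩ := h
  change v0 = r at h0
  obtain ⟨v1, h1, h⟩ := h
  change v1 = s at h1
  obtain ⟨v2, h2, h⟩ := h
  replace h2 : v2 = (2 : ℝ) := by rw [h2]; norm_num [step, realAlg]
  obtain ⟨v3, h3, h⟩ := h
  change v3 = v1 * v2 at h3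
  obtain ⟨v4, h4, h⟩ := h
  replace h4 : v4 = (1 : ℝ) := by rw [h4]; norm_num [step, realAlg]
  obtain ⟨v5, h5, h⟩ := h
  change v5 = v3 - v4 at h5
  obtain ⟨X, e_X_d⟩ : ∃ q : ℂ, q = (⟨1, 2 * s - 1⟩ : ℂ) := ⟨_, rfl⟩
  have e_X_re : X.re = (1 : ℝ) := by
    first | (rw [e_X_d]; done) | (rw [e_X_d]; simp only [mul_re, mul_im, add_re, add_im, sub_re, sub_im, neg_re, neg_im, I_re, I_im, ofReal_re,
      ofReal_im, one_re, one_im, zero_re, zero_im, dt, normSq_apply, re_ofNat, im_ofNat, conj_re, conj_im]; try ring)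
  have e_X_im : v5 = X.im := by
    rw [e_X_d]
    simp only [h5, h4, h3, h2, h1, mul_re, mul_im, add_re, add_im, sub_re, sub_im, neg_re, neg_im, I_re, I_im, ofReal_re,
      ofReal_im, one_re, one_im, zero_re, zero_im, dt, normSq_apply, re_ofNat, im_ofNat, conj_re, conj_im]
    try ring
  obtain ⟨v6, h6, h⟩ := h
  change v6 = 1 - 2 * P.ys.re at h6
  obtain ⟨v7, h7, h⟩ := h
  change v7 = v0 * v2 at h7
  obtain ⟨v8, h8, h⟩ := h
  change v8 = v6 - v7 at h8
  obtain ⟨d, e_d_d⟩ : ∃ q : ℝ, q = 1 - 2 * P.ys.re - 2 * (r * X.re) := ⟨_, rfl⟩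
  have e_d_v : v8 = d := by
    rw [e_d_d]
    simp only [h8, h7, h6, h2, h0, e_X_re, mul_re, mul_im, add_re, add_im, sub_re, sub_im, neg_re, neg_im, I_re, I_im, ofReal_re,
      ofReal_im, one_re, one_im, zero_re, zero_im, dt, normSq_apply, re_ofNat, im_ofNat, conj_re, conj_im]
    try ring
  obtain ⟨v9, h9, h⟩ := h
  change v9 = v5 * v5 at h9
  obtain ⟨v10, h10, h⟩ := h
  change v10 = v9 + v4 at h10
  obtain ⟨v11, h11, h⟩ := h
  change v11 = P.ys.re at h11
  obtain ⟨v12, h12, h⟩ := h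
  change v12 = P.ys.im at h12
  obtain ⟨v13, h13, h⟩ := h
  change v13 = v5 * v12 at h13
  obtain ⟨v14, h14, h⟩ := h
  change v14 = v11 + v13 at h14
  obtain ⟨yx, e_yx_d⟩ : ∃ q : ℝ, q = dt P.ys X := ⟨_, rfl⟩
  have e_yx_v : v14 = yx := by
    rw [e_yx_d]
    simp only [h14, h13, h12, h11, e_X_im, e_X_re, mul_re, mul_im, add_re, add_im, sub_re, sub_im, neg_re, neg_im, I_re, I_im, ofReal_re,
      ofReal_im, one_re, one_im, zero_re, zero_im, dt, normSq_apply, re_ofNat, im_ofNat, conj_re, conj_im]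
    try ring
  obtain ⟨v15, h15, h⟩ := h
  change v15 = P.ys.re - (1 - normSq P.ys) / (1 - 2 * P.ys.re) at h15
  obtain ⟨v16, h16, h⟩ := h
  change v16 = v13 + v15 at h16
  obtain ⟨v17, h17, h⟩ := h
  change v17 = v16 * v16 at h17
  obtain ⟨v18, h18, h⟩ := h
  replace h18 : v18 = (4 : ℝ) := by rw [h18]; norm_num [step, realAlg]
  obtain ⟨v19, h19, h⟩ := h
  change v19 = v17 * v18 at h19
  obtain ⟨v20, h20, h⟩ := h
  change v20 = 1 - normSq P.ys at h20
  obtain ⟨v21, h21, h⟩ := h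
  change v21 = v10 * v20 at h21
  obtain ⟨v22, h22, h⟩ := h
  change v22 = v2 * v21 at h22
  obtain ⟨v23, h23, h⟩ := h
  change v23 = v19 - v22 at h23
  obtain ⟨v24, h24, h⟩ := h
  change v24 = v14 * v18 at h24
  obtain ⟨v25, h25, h⟩ := h
  change v25 = v0 * v10 at h25
  obtain ⟨v26, h26, h⟩ := h
  change v26 = v24 + v25 at h26
  obtain ⟨v27, h27, h⟩ := h
  change v27 = v10 * v26 at h27
  obtain ⟨v28, h28, h⟩ := h
  change v28 = v0 * v27 at h28
  obtain ⟨v29, h29, h⟩ := h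
  change v29 = v23 + v28 at h29
  obtain ⟨S, e_S_d⟩ : ∃ q : ℝ, q = 4 * ((P.ys.re - (1 - normSq P.ys) / (1 - 2 * P.ys.re)) * X.re + P.ys.im * X.im) ^ 2 - 2 * (1 - normSq P.ys) * normSq X + (4 * yx + normSq X * r) * normSq X * r := ⟨_, rfl⟩
  have e_S_v : v29 = S := by
    rw [e_S_d]
    simp only [h29, h28, h27, h26, h25, h24, h23, h22, h21, h20, h19, h18, h17, h16, h15, h13, h12, h10, h9, h4, h2, h0, e_X_im, e_yx_v, e_X_re, mul_re, mul_im, add_re, add_im, sub_re, sub_im, neg_re, neg_im, I_re, I_im, ofReal_re,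
      ofReal_im, one_re, one_im, zero_re, zero_im, dt, normSq_apply, re_ofNat, im_ofNat, conj_re, conj_im]
    try ring
  obtain ⟨v30, h30, h⟩ := h
  change v30 = v2 * v29 at h30
  obtain ⟨v31, h31, h⟩ := h
  change v31 = v2 * v14 at h31
  obtain ⟨v32, h32, h⟩ := h
  change v32 = v25 + v31 at h32
  obtain ⟨v33, h33, h⟩ := h
  change v33 = v5 * v32 at h33
  obtain ⟨v34, h34, h⟩ := h
  change v34 = v10 * v11 at h34
  obtain ⟨v35, h35, h⟩ := h
  change v35 = v10 * v12 at h35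
  obtain ⟨v36, h36, h⟩ := h
  change v36 = v32 + v34 at h36
  obtain ⟨v37, h37, h⟩ := h
  change v37 = v33 + v35 at h37
  obtain ⟨v38, h38, h⟩ := h
  change v38 = v8 * v37 at h38
  obtain ⟨v39, h39, h⟩ := h
  change v39 = v8 * v36 at h39
  exact pNa_c1 P n r s h0 h2 h4 e_X_d e_X_re e_X_im e_d_d e_d_v h9 h10 h11 h12 e_yx_d e_yx_v h25 e_S_d e_S_v h30 h31 h32 h33 h34 h35 h36 h37 h38 h39 h

theorem pNa_val (P : Pt) (n : Nd) (r s : ℝ) :
    OutEq (run (realAlg (fun i => get 0 (P.syl n.l) i) (r) (s)) pNa []) pNa_out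
      [P.NA n.R r ⟨1, 2 * s - 1⟩ (P.T0 r ⟨1, 2 * s - 1⟩ (1 - 2 * P.ys.re - 2 * (r * (⟨1, 2 * s - 1⟩ : ℂ).re))) (P.U0 r ⟨1, 2 * s - 1⟩ (P.T0 r ⟨1, 2 * s - 1⟩ (1 - 2 * P.ys.re - 2 * (r * (⟨1, 2 * s - 1⟩ : ℂ).re))) (1 - 2 * P.ys.re - 2 * (r * (⟨1, 2 * s - 1⟩ : ℂ).re))) (1 - 2 * P.ys.re - 2 * (r * (⟨1, 2 * s - 1⟩ : ℂ).re)) (n.φ2 r ⟨1, 2 * s - 1⟩) (n.γ1 r ⟨1, 2 * s - 1⟩),
      P.NB n.R r ⟨1, 2 * s - 1⟩ (P.T0 r ⟨1, 2 * s - 1⟩ (1 - 2 * P.ys.re - 2 * (r * (⟨1, 2 * s - 1⟩ : ℂ).re))) (P.U0 r ⟨1, 2 * s - 1⟩ (P.T0 r ⟨1, 2 * s - 1⟩ (1 - 2 * P.ys.re - 2 * (r * (⟨1, 2 * s - 1⟩ : ℂ).re))) (1 - 2 * P.ys.re - 2 * (r * (⟨1, 2 * s - 1⟩ : ℂ).re))) (1 - 2 * P.ys.re - 2 * (r * (⟨1, 2 * s - 1⟩ : ℂ).re)) (n.φ2 r ⟨1, 2 * s - 1⟩) (n.γ1 r ⟨1, 2 * s - 1⟩) n.τ (n.φt P r ⟨1, 2 * s - 1⟩) (n.γt P r ⟨1, 2 * s - 1⟩)] :=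
  pNa_c0 P n r s (trE_runst (realAlg (fun i => get 0 (P.syl n.l) i) (r) (s)) pNa)

end Pool.H61.Rh
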