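import Pool.Agent.H47.K3.Fast
import Pool.Agent.H89.Nz.PNa

/-! # generated: the program `pNa` in block form -/

set_option autoImplicit false
set_option maxRecDepth 1000000
set_option linter.all false

namespace Pool.H61.Rh

open Pool.H47.Kc Pool.H47.K3

def kNa_b35 {α : Type} (A : Alg α) (v512 v547 v552 v553 v559 : α) : List α :=
  let v560 := A.base 81
  let v561 := A.cst (3) 0
  let v562 := A.mul v560 v561
  let v563 := A.mul v512 v562
  let v564 := A.mul v552 v552
  let v565 := A.mul v553 v553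
  let v566 := A.add v564 v565
  let v567 := A.mul v563 v566
  let v568 := A.add v559 v567
  let v569 := A.cst (0) 0
  let v570 := A.sub v569 v568
  [v547, v570]

def kNa_b34 {α : Type} (A : Alg α) (v0 v47 v79 v83 v453 v509 v510 v512 v526 v527 v533 v543 : α) : List α :=
  let v544 := A.mul v526 v526
  let v545 := A.mul v527 v527
  let v546 := A.add v544 v545
  let v547 := A.sub v543 v546
  let v548 := A.mul v79 v453
  let v549 := A.mul v83 v453
  let v550 := A.mul v47 v509
  let v551 := A.mul v47 v510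
  let v552 := A.sub v548 v550
  let v553 := A.sub v549 v551
  let v554 := A.mul v453 v533
  let v555 := A.mul v526 v552
  let v556 := A.mul v527 v553
  let v557 := A.add v555 v556
  let v558 := A.mul v0 v557
  let v559 := A.add v554 v558
  kNa_b35 A v512 v547 v552 v553 v559

def kNa_b33 {α : Type} (A : Alg α) (v0 v8 v10 v47 v79 v83 v290 v291 v337 v378 v453 v509 v510 v511 v512 v526 v527 : α) : List α :=
  let v528 := A.mul v8 v337
  let v529 := A.mul v511 v528
  let v530 := A.base 83
  let v531 := A.mul v529 v530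
  let v532 := A.cst (12) 0
  let v533 := A.mul v531 v532
  let v534 := A.mul v290 v337
  let v535 := A.mul v378 v512
  let v536 := A.mul v532 v535
  let v537 := A.sub v534 v536
  let v538 := A.mul v10 v291
  let v539 := A.cst (3) 11
  let v540 := A.mul v528 v539
  let v541 := A.mul v538 v540
  let v542 := A.sub v537 v541
  let v543 := A.mul v533 v542
  kNa_b34 A v0 v47 v79 v83 v453 v509 v510 v512 v526 v527 v533 v543

def kNa_b32 {α : Type} (A : Alg α) (v0 v8 v10 v47 v79 v83 v286 v290 v291 v324 v325 v337 v340 v378 v408 v409 v453 v509 v510 v511 : α) : List α :=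
  let v512 := A.mul v47 v340
  let v513 := A.mul v324 v337
  let v514 := A.mul v325 v337
  let v515 := A.mul v286 v512
  let v516 := A.mul v0 v378
  let v517 := A.mul v515 v516
  let v518 := A.mul v79 v517
  let v519 := A.mul v83 v517
  let v520 := A.add v513 v518
  let v521 := A.add v514 v519
  let v522 := A.mul v47 v512
  let v523 := A.mul v286 v522
  let v524 := A.mul v408 v523
  let v525 := A.mul v409 v523
  let v526 := A.sub v520 v524
  let v527 := A.sub v521 v525
  kNa_b33 A v0 v8 v10 v47 v79 v83 v290 v291 v337 v378 v453 v509 v510 v511 v512 v526 v527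

def kNa_b31 {α : Type} (A : Alg α) (v0 v8 v10 v47 v79 v83 v152 v153 v156 v157 v160 v286 v290 v291 v324 v325 v337 v340 v378 v408 v409 v437 v438 v453 v468 v483 v484 v486 v488 v491 v494 v495 : α) : List α :=
  let v496 := A.add v494 v495
  let v497 := A.mul v0 v496
  let v498 := A.add v491 v497
  let v499 := A.mul v152 v437
  let v500 := A.mul v153 v438
  let v501 := A.add v499 v500
  let v502 := A.mul v156 v484
  let v503 := A.mul v157 v486
  let v504 := A.add v502 v503
  let v505 := A.mul v160 v488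
  let v506 := A.add v504 v505
  let v507 := A.mul v0 v506
  let v508 := A.add v501 v507
  let v509 := A.sub v468 v498
  let v510 := A.sub v483 v508
  let v511 := A.mul v291 v291
  kNa_b32 A v0 v8 v10 v47 v79 v83 v286 v290 v291 v324 v325 v337 v340 v378 v408 v409 v453 v509 v510 v511

def kNa_b30 {α : Type} (A : Alg α) (v0 v2 v5 v8 v10 v47 v79 v83 v139 v140 v143 v144 v147 v152 v153 v156 v157 v160 v286 v290 v291 v324 v325 v337 v340 v378 v383 v408 v409 v437 v438 v453 v468 v473 v478 v479 : α) : List α :=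
  let v480 := A.mul v383 v479
  let v481 := A.sub v478 v480
  let v482 := A.mul v0 v481
  let v483 := A.add v473 v482
  let v484 := A.mul v2 v437
  let v485 := A.mul v5 v437
  let v486 := A.add v438 v485
  let v487 := A.mul v5 v438
  let v488 := A.mul v2 v487
  let v489 := A.mul v139 v437
  let v490 := A.mul v140 v438
  let v491 := A.add v489 v490
  let v492 := A.mul v143 v484
  let v493 := A.mul v144 v486
  let v494 := A.add v492 v493
  let v495 := A.mul v147 v488
  kNa_b31 A v0 v8 v10 v47 v79 v83 v152 v153 v156 v157 v160 v286 v290 v291 v324 v325 v337 v340 v378 v408 v409 v437 v438 v453 v468 v483 v484 v486 v488 v491 v494 v495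

def kNa_b29 {α : Type} (A : Alg α) (v0 v2 v5 v8 v10 v47 v79 v83 v139 v140 v143 v144 v147 v152 v153 v156 v157 v160 v286 v290 v291 v324 v325 v337 v340 v345 v346 v378 v379 v381 v383 v408 v409 v437 v438 v453 v458 v463 : α) : List α :=
  let v464 := A.base 122
  let v465 := A.mul v383 v464
  let v466 := A.sub v463 v465
  let v467 := A.mul v0 v466
  let v468 := A.add v458 v467
  let v469 := A.base 118
  let v470 := A.mul v345 v469
  let v471 := A.base 119
  let v472 := A.mul v346 v471
  let v473 := A.sub v470 v472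
  let v474 := A.base 123
  let v475 := A.mul v379 v474
  let v476 := A.base 124
  let v477 := A.mul v381 v476
  let v478 := A.add v475 v477
  let v479 := A.base 125
  kNa_b30 A v0 v2 v5 v8 v10 v47 v79 v83 v139 v140 v143 v144 v147 v152 v153 v156 v157 v160 v286 v290 v291 v324 v325 v337 v340 v378 v383 v408 v409 v437 v438 v453 v468 v473 v478 v479

def kNa_b28 {α : Type} (A : Alg α) (v0 v2 v5 v8 v10 v47 v79 v83 v139 v140 v143 v144 v147 v152 v153 v156 v157 v160 v220 v221 v286 v290 v291 v324 v325 v337 v340 v345 v346 v378 v379 v381 v383 v408 v409 v437 v438 v445 v446 v447 : α) : List α :=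
  let v448 := A.add v220 v446
  let v449 := A.add v221 v447
  let v450 := A.mul v437 v448
  let v451 := A.mul v438 v449
  let v452 := A.add v450 v451
  let v453 := A.sub v445 v452
  let v454 := A.base 116
  let v455 := A.mul v345 v454
  let v456 := A.base 117
  let v457 := A.mul v346 v456
  let v458 := A.sub v455 v457
  let v459 := A.base 120
  let v460 := A.mul v379 v459
  let v461 := A.base 121
  let v462 := A.mul v381 v461
  let v463 := A.add v460 v462
  kNa_b29 A v0 v2 v5 v8 v10 v47 v79 v83 v139 v140 v143 v144 v147 v152 v153 v156 v157 v160 v286 v290 v291 v324 v325 v337 v340 v345 v346 v378 v379 v381 v383 v408 v409 v437 v438 v453 v458 v463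

def kNa_b27 {α : Type} (A : Alg α) (v0 v2 v5 v8 v10 v47 v79 v83 v126 v138 v139 v140 v143 v144 v147 v152 v153 v156 v157 v160 v220 v221 v286 v290 v291 v324 v325 v337 v340 v345 v346 v378 v379 v381 v383 v408 v409 v422 v425 v429 v431 : α) : List α :=
  let v432 := A.add v429 v431
  let v433 := A.mul v0 v432
  let v434 := A.add v425 v433
  let v435 := A.base 84
  let v436 := A.base 85
  let v437 := A.base 86
  let v438 := A.base 87
  let v439 := A.mul v0 v422
  let v440 := A.mul v0 v434
  let v441 := A.add v435 v439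
  let v442 := A.add v436 v440
  let v443 := A.mul v345 v441
  let v444 := A.mul v346 v442
  let v445 := A.sub v443 v444
  let v446 := A.mul v0 v126
  let v447 := A.mul v0 v138
  kNa_b28 A v0 v2 v5 v8 v10 v47 v79 v83 v139 v140 v143 v144 v147 v152 v153 v156 v157 v160 v220 v221 v286 v290 v291 v324 v325 v337 v340 v345 v346 v378 v379 v381 v383 v408 v409 v437 v438 v445 v446 v447

def kNa_b26 {α : Type} (A : Alg α) (v0 v2 v5 v8 v9 v10 v47 v79 v83 v126 v138 v139 v140 v143 v144 v147 v152 v153 v156 v157 v160 v220 v221 v286 v290 v291 v324 v325 v337 v340 v345 v346 v378 v379 v381 v383 v408 v409 v411 v413 v414 v415 : α) : List α :=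
  let v416 := A.mul v5 v415
  let v417 := A.add v414 v416
  let v418 := A.base 112
  let v419 := A.mul v9 v418
  let v420 := A.add v417 v419
  let v421 := A.mul v0 v420
  let v422 := A.add v413 v421
  let v423 := A.base 109
  let v424 := A.mul v5 v423
  let v425 := A.add v411 v424
  let v426 := A.base 113
  let v427 := A.base 114
  let v428 := A.mul v5 v427
  let v429 := A.add v426 v428
  let v430 := A.base 115
  let v431 := A.mul v9 v430
  kNa_b27 A v0 v2 v5 v8 v10 v47 v79 v83 v126 v138 v139 v140 v143 v144 v147 v152 v153 v156 v157 v160 v220 v221 v286 v290 v291 v324 v325 v337 v340 v345 v346 v378 v379 v381 v383 v408 v409 v422 v425 v429 v431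

def kNa_b25 {α : Type} (A : Alg α) (v0 v2 v5 v8 v9 v10 v47 v79 v83 v126 v138 v139 v140 v143 v144 v147 v152 v153 v156 v157 v160 v220 v221 v286 v290 v291 v324 v325 v337 v340 v345 v346 v378 v379 v381 v383 v391 v399 : α) : List α :=
  let v400 := A.base 97
  let v401 := A.base 98
  let v402 := A.mul v5 v401
  let v403 := A.add v400 v402
  let v404 := A.base 99
  let v405 := A.base 100
  let v406 := A.mul v5 v405
  let v407 := A.add v404 v406
  let v408 := A.sub v391 v403
  let v409 := A.sub v399 v407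
  let v410 := A.base 107
  let v411 := A.base 108
  let v412 := A.mul v5 v411
  let v413 := A.add v410 v412
  let v414 := A.base 110
  let v415 := A.base 111
  kNa_b26 A v0 v2 v5 v8 v9 v10 v47 v79 v83 v126 v138 v139 v140 v143 v144 v147 v152 v153 v156 v157 v160 v220 v221 v286 v290 v291 v324 v325 v337 v340 v345 v346 v378 v379 v381 v383 v408 v409 v411 v413 v414 v415

def kNa_b24 {α : Type} (A : Alg α) (v0 v2 v5 v8 v9 v10 v47 v79 v83 v126 v138 v139 v140 v143 v144 v147 v152 v153 v156 v157 v160 v220 v221 v286 v290 v291 v324 v325 v337 v340 v345 v346 v378 v379 v381 v383 : α) : List α :=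
  let v384 := A.base 101
  let v385 := A.mul v379 v384
  let v386 := A.base 102
  let v387 := A.mul v381 v386
  let v388 := A.add v385 v387
  let v389 := A.base 103
  let v390 := A.mul v383 v389
  let v391 := A.sub v388 v390
  let v392 := A.base 104
  let v393 := A.mul v379 v392
  let v394 := A.base 105
  let v395 := A.mul v381 v394
  let v396 := A.add v393 v395
  let v397 := A.base 106
  let v398 := A.mul v383 v397
  let v399 := A.sub v396 v398
  kNa_b25 A v0 v2 v5 v8 v9 v10 v47 v79 v83 v126 v138 v139 v140 v143 v144 v147 v152 v153 v156 v157 v160 v220 v221 v286 v290 v291 v324 v325 v337 v340 v345 v346 v378 v379 v381 v383 v391 v399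

def kNa_b23 {α : Type} (A : Alg α) (v0 v2 v5 v8 v9 v10 v47 v79 v83 v126 v138 v139 v140 v143 v144 v147 v152 v153 v156 v157 v160 v220 v221 v286 v290 v291 v324 v325 v327 v328 v337 v340 v341 v345 v346 v353 v360 v362 v366 v367 : α) : List α :=
  let v368 := A.mul v5 v367
  let v369 := A.add v362 v368
  let v370 := A.mul v0 v360
  let v371 := A.add v369 v370
  let v372 := A.mul v327 v353
  let v373 := A.mul v328 v360
  let v374 := A.sub v372 v373
  let v375 := A.mul v341 v374
  let v376 := A.mul v5 v371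
  let v377 := A.add v366 v376
  let v378 := A.sub v375 v377
  let v379 := A.mul v2 v345
  let v380 := A.mul v5 v345
  let v381 := A.sub v380 v346
  let v382 := A.mul v5 v346
  let v383 := A.mul v2 v382
  kNa_b24 A v0 v2 v5 v8 v9 v10 v47 v79 v83 v126 v138 v139 v140 v143 v144 v147 v152 v153 v156 v157 v160 v220 v221 v286 v290 v291 v324 v325 v337 v340 v345 v346 v378 v379 v381 v383

def kNa_b22 {α : Type} (A : Alg α) (v0 v2 v5 v8 v9 v10 v47 v79 v83 v126 v138 v139 v140 v143 v144 v147 v152 v153 v156 v157 v160 v220 v221 v286 v290 v291 v324 v325 v327 v328 v337 v340 v341 v345 v346 v350 v351 : α) : List α :=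
  let v352 := A.mul v9 v351
  let v353 := A.add v350 v352
  let v354 := A.base 94
  let v355 := A.base 95
  let v356 := A.mul v5 v355
  let v357 := A.add v354 v356
  let v358 := A.base 96
  let v359 := A.mul v9 v358
  let v360 := A.add v357 v359
  let v361 := A.base 88
  let v362 := A.base 89
  let v363 := A.mul v5 v362
  let v364 := A.add v361 v363
  let v365 := A.mul v0 v353
  let v366 := A.add v364 v365
  let v367 := A.base 90
  kNa_b23 A v0 v2 v5 v8 v9 v10 v47 v79 v83 v126 v138 v139 v140 v143 v144 v147 v152 v153 v156 v157 v160 v220 v221 v286 v290 v291 v324 v325 v327 v328 v337 v340 v341 v345 v346 v353 v360 v362 v366 v367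

def kNa_b21 {α : Type} (A : Alg α) (v0 v2 v4 v5 v8 v9 v10 v47 v69 v79 v83 v126 v138 v139 v140 v143 v144 v147 v152 v153 v156 v157 v160 v220 v221 v286 v290 v291 v324 v325 v326 v327 v328 v332 v335 : α) : List α :=
  let v336 := A.mul v2 v335
  let v337 := A.add v336 v4
  let v338 := A.mul v2 v326
  let v339 := A.mul v332 v332
  let v340 := A.mul v338 v339
  let v341 := A.base 82
  let v342 := A.mul v327 v341
  let v343 := A.mul v326 v341
  let v344 := A.mul v327 v343
  let v345 := A.sub v342 v0
  let v346 := A.add v69 v344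
  let v347 := A.base 91
  let v348 := A.base 92
  let v349 := A.mul v5 v348
  let v350 := A.add v347 v349
  let v351 := A.base 93
  kNa_b22 A v0 v2 v5 v8 v9 v10 v47 v79 v83 v126 v138 v139 v140 v143 v144 v147 v152 v153 v156 v157 v160 v220 v221 v286 v290 v291 v324 v325 v327 v328 v337 v340 v341 v345 v346 v350 v351

def kNa_b20 {α : Type} (A : Alg α) (v0 v2 v4 v5 v8 v9 v10 v47 v69 v70 v71 v79 v83 v126 v138 v139 v140 v143 v144 v147 v152 v153 v156 v157 v160 v215 v220 v221 v286 v290 v291 v315 v316 v318 v319 : α) : List α :=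
  let v320 := A.sub v318 v215
  let v321 := A.mul v286 v291
  let v322 := A.mul v319 v321
  let v323 := A.mul v320 v321
  let v324 := A.add v315 v322
  let v325 := A.add v316 v323
  let v326 := A.base 78
  let v327 := A.cst (1) 1
  let v328 := A.mul v326 v327
  let v329 := A.mul v70 v70
  let v330 := A.mul v71 v71
  let v331 := A.add v329 v330
  let v332 := A.sub v4 v331
  let v333 := A.mul v70 v327
  let v334 := A.mul v71 v328
  let v335 := A.add v333 v334
  kNa_b21 A v0 v2 v4 v5 v8 v9 v10 v47 v69 v79 v83 v126 v138 v139 v140 v143 v144 v147 v152 v153 v156 v157 v160 v220 v221 v286 v290 v291 v324 v325 v326 v327 v328 v332 v335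

def kNa_b19 {α : Type} (A : Alg α) (v0 v2 v4 v5 v8 v9 v10 v47 v69 v70 v71 v74 v79 v83 v87 v91 v126 v138 v139 v140 v143 v144 v147 v152 v153 v156 v157 v160 v205 v215 v220 v221 v283 v284 v286 v287 v288 v290 v291 v302 v303 : α) : List α :=
  let v304 := A.mul v74 v87
  let v305 := A.mul v74 v91
  let v306 := A.add v302 v304
  let v307 := A.add v303 v305
  let v308 := A.mul v8 v47
  let v309 := A.mul v306 v308
  let v310 := A.mul v307 v308
  let v311 := A.sub v288 v287
  let v312 := A.mul v0 v311
  let v313 := A.mul v79 v312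
  let v314 := A.mul v83 v312
  let v315 := A.add v309 v313
  let v316 := A.add v310 v314
  let v317 := A.mul v8 v283
  let v318 := A.mul v8 v284
  let v319 := A.sub v317 v205
  kNa_b20 A v0 v2 v4 v5 v8 v9 v10 v47 v69 v70 v71 v79 v83 v126 v138 v139 v140 v143 v144 v147 v152 v153 v156 v157 v160 v215 v220 v221 v286 v290 v291 v315 v316 v318 v319

def kNa_b18 {α : Type} (A : Alg α) (v0 v2 v4 v5 v8 v9 v10 v41 v42 v47 v69 v70 v71 v74 v79 v83 v87 v91 v94 v126 v138 v139 v140 v143 v144 v147 v152 v153 v156 v157 v160 v205 v215 v220 v221 v250 v251 v283 v284 v286 v287 : α) : List α :=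
  let v288 := A.mul v8 v94
  let v289 := A.mul v2 v287
  let v290 := A.sub v289 v288
  let v291 := A.mul v47 v47
  let v292 := A.mul v71 v91
  let v293 := A.mul v70 v87
  let v294 := A.add v292 v293
  let v295 := A.mul v41 v294
  let v296 := A.mul v42 v294
  let v297 := A.mul v91 v250
  let v298 := A.mul v87 v251
  let v299 := A.sub v298 v297
  let v300 := A.mul v79 v299
  let v301 := A.mul v83 v299
  let v302 := A.sub v300 v295
  let v303 := A.sub v301 v296
  kNa_b19 A v0 v2 v4 v5 v8 v9 v10 v47 v69 v70 v71 v74 v79 v83 v87 v91 v126 v138 v139 v140 v143 v144 v147 v152 v153 v156 v157 v160 v205 v215 v220 v221 v283 v284 v286 v287 v288 v290 v291 v302 v303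

def kNa_b17 {α : Type} (A : Alg α) (v0 v2 v4 v5 v8 v9 v10 v41 v42 v47 v69 v70 v71 v74 v79 v83 v87 v91 v94 v126 v138 v139 v140 v143 v144 v147 v151 v152 v153 v156 v157 v160 v164 v177 v190 v205 v215 v220 v221 v238 v242 v246 v250 v251 v266 v267 v270 v271 : α) : List α :=
  let v272 := A.mul v83 v270
  let v273 := A.sub v242 v271
  let v274 := A.sub v246 v272
  let v275 := A.mul v2 v164
  let v276 := A.mul v2 v151
  let v277 := A.sub v177 v275
  let v278 := A.add v190 v276
  let v279 := A.mul v47 v277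
  let v280 := A.mul v47 v278
  let v281 := A.sub v273 v279
  let v282 := A.sub v274 v280
  let v283 := A.sub v281 v266
  let v284 := A.sub v282 v267
  let v285 := A.mul v47 v238
  let v286 := A.cst (6) 0
  let v287 := A.mul v285 v286
  kNa_b18 A v0 v2 v4 v5 v8 v9 v10 v41 v42 v47 v69 v70 v71 v74 v79 v83 v87 v91 v94 v126 v138 v139 v140 v143 v144 v147 v152 v153 v156 v157 v160 v205 v215 v220 v221 v250 v251 v283 v284 v286 v287

def kNa_b16 {α : Type} (A : Alg α) (v0 v2 v4 v5 v8 v9 v10 v41 v42 v47 v69 v70 v71 v74 v79 v83 v87 v91 v94 v113 v126 v138 v139 v140 v143 v144 v147 v151 v152 v153 v156 v157 v160 v164 v177 v190 v205 v215 v219 v220 v221 v238 v242 v246 v249 v250 v251 v254 v255 : α) : List α :=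
  let v256 := A.mul v42 v254
  let v257 := A.mul v151 v250
  let v258 := A.mul v164 v251
  let v259 := A.add v257 v258
  let v260 := A.mul v79 v259
  let v261 := A.mul v83 v259
  let v262 := A.add v255 v260
  let v263 := A.add v256 v261
  let v264 := A.mul v74 v164
  let v265 := A.mul v74 v151
  let v266 := A.add v262 v264
  let v267 := A.sub v263 v265
  let v268 := A.mul v0 v113
  let v269 := A.add v219 v268
  let v270 := A.sub v269 v249
  let v271 := A.mul v79 v270
  kNa_b17 A v0 v2 v4 v5 v8 v9 v10 v41 v42 v47 v69 v70 v71 v74 v79 v83 v87 v91 v94 v126 v138 v139 v140 v143 v144 v147 v151 v152 v153 v156 v157 v160 v164 v177 v190 v205 v215 v220 v221 v238 v242 v246 v250 v251 v266 v267 v270 v271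

def kNa_b15 {α : Type} (A : Alg α) (v0 v2 v4 v5 v8 v9 v10 v41 v42 v47 v62 v63 v69 v70 v71 v74 v79 v83 v87 v91 v94 v113 v126 v138 v139 v140 v143 v144 v147 v151 v152 v153 v156 v157 v160 v164 v177 v190 v205 v215 v219 v220 v221 v238 v239 : α) : List α :=
  let v240 := A.base 24
  let v241 := A.mul v5 v240
  let v242 := A.add v239 v241
  let v243 := A.base 25
  let v244 := A.base 26
  let v245 := A.mul v5 v244
  let v246 := A.add v243 v245
  let v247 := A.mul v62 v126
  let v248 := A.mul v63 v138
  let v249 := A.add v247 v248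
  let v250 := A.base 27
  let v251 := A.base 28
  let v252 := A.mul v71 v151
  let v253 := A.mul v70 v164
  let v254 := A.sub v252 v253
  let v255 := A.mul v41 v254
  kNa_b16 A v0 v2 v4 v5 v8 v9 v10 v41 v42 v47 v69 v70 v71 v74 v79 v83 v87 v91 v94 v113 v126 v138 v139 v140 v143 v144 v147 v151 v152 v153 v156 v157 v160 v164 v177 v190 v205 v215 v219 v220 v221 v238 v242 v246 v249 v250 v251 v254 v255

def kNa_b14 {α : Type} (A : Alg α) (v0 v2 v4 v5 v8 v9 v10 v41 v42 v44 v47 v62 v63 v67 v68 v69 v70 v71 v74 v79 v83 v87 v91 v94 v113 v126 v138 v139 v140 v143 v144 v147 v151 v152 v153 v156 v157 v160 v164 v177 v190 v205 v215 v219 v220 v221 v222 v223 : α) : List α :=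
  let v224 := A.sub v223 v222
  let v225 := A.mul v44 v219
  let v226 := A.mul v47 v113
  let v227 := A.add v225 v226
  let v228 := A.mul v8 v227
  let v229 := A.add v224 v228
  let v230 := A.mul v67 v126
  let v231 := A.mul v68 v138
  let v232 := A.add v230 v231
  let v233 := A.add v229 v232
  let v234 := A.mul v91 v151
  let v235 := A.mul v87 v164
  let v236 := A.sub v235 v234
  let v237 := A.mul v8 v236
  let v238 := A.sub v237 v233
  let v239 := A.base 23
  kNa_b15 A v0 v2 v4 v5 v8 v9 v10 v41 v42 v47 v62 v63 v69 v70 v71 v74 v79 v83 v87 v91 v94 v113 v126 v138 v139 v140 v143 v144 v147 v151 v152 v153 v156 v157 v160 v164 v177 v190 v205 v215 v219 v220 v221 v238 v239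

def kNa_b13 {α : Type} (A : Alg α) (v0 v2 v4 v5 v8 v9 v10 v38 v40 v41 v42 v44 v47 v62 v63 v67 v68 v69 v70 v71 v74 v79 v83 v87 v91 v94 v113 v126 v138 v139 v140 v143 v144 v147 v151 v152 v153 v156 v157 v160 v164 v177 v190 v191 v193 v195 v205 v206 v207 : α) : List α :=
  let v208 := A.add v206 v207
  let v209 := A.mul v156 v191
  let v210 := A.mul v157 v193
  let v211 := A.add v209 v210
  let v212 := A.mul v160 v195
  let v213 := A.add v211 v212
  let v214 := A.mul v0 v213
  let v215 := A.add v208 v214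
  let v216 := A.base 31
  let v217 := A.base 32
  let v218 := A.mul v5 v217
  let v219 := A.add v216 v218
  let v220 := A.base 29
  let v221 := A.base 30
  let v222 := A.mul v38 v220
  let v223 := A.mul v40 v221
  kNa_b14 A v0 v2 v4 v5 v8 v9 v10 v41 v42 v44 v47 v62 v63 v67 v68 v69 v70 v71 v74 v79 v83 v87 v91 v94 v113 v126 v138 v139 v140 v143 v144 v147 v151 v152 v153 v156 v157 v160 v164 v177 v190 v205 v215 v219 v220 v221 v222 v223

def kNa_b12 {α : Type} (A : Alg α) (v0 v2 v4 v5 v8 v9 v10 v38 v40 v41 v42 v44 v47 v62 v63 v67 v68 v69 v70 v71 v74 v79 v83 v87 v91 v94 v113 v126 v138 v139 v140 v143 v144 v147 v151 v152 v153 v156 v157 v160 v164 v177 v190 v191 : α) : List α :=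
  let v192 := A.mul v5 v67
  let v193 := A.add v68 v192
  let v194 := A.mul v5 v68
  let v195 := A.mul v2 v194
  let v196 := A.mul v67 v139
  let v197 := A.mul v68 v140
  let v198 := A.add v196 v197
  let v199 := A.mul v143 v191
  let v200 := A.mul v144 v193
  let v201 := A.add v199 v200
  let v202 := A.mul v147 v195
  let v203 := A.add v201 v202
  let v204 := A.mul v0 v203
  let v205 := A.add v198 v204
  let v206 := A.mul v67 v152
  let v207 := A.mul v68 v153
  kNa_b13 A v0 v2 v4 v5 v8 v9 v10 v38 v40 v41 v42 v44 v47 v62 v63 v67 v68 v69 v70 v71 v74 v79 v83 v87 v91 v94 v113 v126 v138 v139 v140 v143 v144 v147 v151 v152 v153 v156 v157 v160 v164 v177 v190 v191 v193 v195 v205 v206 v207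

def kNa_b11 {α : Type} (A : Alg α) (v0 v2 v4 v5 v8 v9 v10 v38 v40 v41 v42 v44 v47 v62 v63 v67 v68 v69 v70 v71 v74 v79 v83 v87 v91 v94 v113 v126 v138 v139 v140 v143 v144 v147 v151 v152 v153 v156 v157 v160 v164 v168 v175 : α) : List α :=
  let v176 := A.mul v0 v175
  let v177 := A.add v168 v176
  let v178 := A.base 61
  let v179 := A.base 62
  let v180 := A.mul v5 v179
  let v181 := A.add v178 v180
  let v182 := A.base 66
  let v183 := A.base 67
  let v184 := A.mul v5 v183
  let v185 := A.add v182 v184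
  let v186 := A.base 68
  let v187 := A.mul v9 v186
  let v188 := A.add v185 v187
  let v189 := A.mul v0 v188
  let v190 := A.add v181 v189
  let v191 := A.mul v2 v67
  kNa_b12 A v0 v2 v4 v5 v8 v9 v10 v38 v40 v41 v42 v44 v47 v62 v63 v67 v68 v69 v70 v71 v74 v79 v83 v87 v91 v94 v113 v126 v138 v139 v140 v143 v144 v147 v151 v152 v153 v156 v157 v160 v164 v177 v190 v191

def kNa_b10 {α : Type} (A : Alg α) (v0 v2 v4 v5 v8 v9 v10 v38 v40 v41 v42 v44 v47 v62 v63 v67 v68 v69 v70 v71 v74 v79 v83 v87 v91 v94 v113 v126 v138 v139 v140 v143 v144 v147 v151 v152 v153 v155 v156 v157 v159 : α) : List α :=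
  let v160 := A.base 58
  let v161 := A.mul v9 v160
  let v162 := A.add v159 v161
  let v163 := A.mul v0 v162
  let v164 := A.add v155 v163
  let v165 := A.base 59
  let v166 := A.base 60
  let v167 := A.mul v5 v166
  let v168 := A.add v165 v167
  let v169 := A.base 63
  let v170 := A.base 64
  let v171 := A.mul v5 v170
  let v172 := A.add v169 v171
  let v173 := A.base 65
  let v174 := A.mul v9 v173
  let v175 := A.add v172 v174
  kNa_b11 A v0 v2 v4 v5 v8 v9 v10 v38 v40 v41 v42 v44 v47 v62 v63 v67 v68 v69 v70 v71 v74 v79 v83 v87 v91 v94 v113 v126 v138 v139 v140 v143 v144 v147 v151 v152 v153 v156 v157 v160 v164 v168 v175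

def kNa_b9 {α : Type} (A : Alg α) (v0 v2 v4 v5 v8 v9 v10 v38 v40 v41 v42 v44 v47 v62 v63 v67 v68 v69 v70 v71 v74 v79 v83 v87 v91 v94 v113 v126 v138 v139 v140 v142 v143 : α) : List α :=
  let v144 := A.base 54
  let v145 := A.mul v5 v144
  let v146 := A.add v143 v145
  let v147 := A.base 55
  let v148 := A.mul v9 v147
  let v149 := A.add v146 v148
  let v150 := A.mul v0 v149
  let v151 := A.add v142 v150
  let v152 := A.base 51
  let v153 := A.base 52
  let v154 := A.mul v5 v153
  let v155 := A.add v152 v154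
  let v156 := A.base 56
  let v157 := A.base 57
  let v158 := A.mul v5 v157
  let v159 := A.add v156 v158
  kNa_b10 A v0 v2 v4 v5 v8 v9 v10 v38 v40 v41 v42 v44 v47 v62 v63 v67 v68 v69 v70 v71 v74 v79 v83 v87 v91 v94 v113 v126 v138 v139 v140 v143 v144 v147 v151 v152 v153 v155 v156 v157 v159

def kNa_b8 {α : Type} (A : Alg α) (v0 v2 v4 v5 v8 v9 v10 v38 v40 v41 v42 v44 v47 v62 v63 v67 v68 v69 v70 v71 v74 v79 v83 v87 v91 v94 v113 v115 v126 v127 : α) : List α :=
  let v128 := A.mul v5 v127
  let v129 := A.add v115 v128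
  let v130 := A.base 39
  let v131 := A.base 40
  let v132 := A.mul v5 v131
  let v133 := A.add v130 v132
  let v134 := A.base 41
  let v135 := A.mul v9 v134
  let v136 := A.add v133 v135
  let v137 := A.mul v0 v136
  let v138 := A.add v129 v137
  let v139 := A.base 49
  let v140 := A.base 50
  let v141 := A.mul v5 v140
  let v142 := A.add v139 v141
  let v143 := A.base 53
  kNa_b9 A v0 v2 v4 v5 v8 v9 v10 v38 v40 v41 v42 v44 v47 v62 v63 v67 v68 v69 v70 v71 v74 v79 v83 v87 v91 v94 v113 v126 v138 v139 v140 v142 v143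

def kNa_b7 {α : Type} (A : Alg α) (v0 v2 v4 v5 v8 v9 v10 v38 v40 v41 v42 v44 v47 v62 v63 v67 v68 v69 v70 v71 v74 v79 v83 v87 v91 v94 v104 v111 : α) : List α :=
  let v112 := A.mul v0 v104
  let v113 := A.add v111 v112
  let v114 := A.base 33
  let v115 := A.base 34
  let v116 := A.mul v5 v115
  let v117 := A.add v114 v116
  let v118 := A.base 36
  let v119 := A.base 37
  let v120 := A.mul v5 v119
  let v121 := A.add v118 v120
  let v122 := A.base 38
  let v123 := A.mul v9 v122
  let v124 := A.add v121 v123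
  let v125 := A.mul v0 v124
  let v126 := A.add v117 v125
  let v127 := A.base 35
  kNa_b8 A v0 v2 v4 v5 v8 v9 v10 v38 v40 v41 v42 v44 v47 v62 v63 v67 v68 v69 v70 v71 v74 v79 v83 v87 v91 v94 v113 v115 v126 v127

def kNa_b6 {α : Type} (A : Alg α) (v0 v2 v4 v5 v8 v9 v10 v38 v40 v41 v42 v44 v47 v62 v63 v67 v68 v69 v70 v71 v74 v79 v83 v87 v91 v94 v95 : α) : List α :=
  let v96 := A.base 46
  let v97 := A.mul v5 v96
  let v98 := A.add v95 v97
  let v99 := A.base 47
  let v100 := A.base 48
  let v101 := A.mul v5 v100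
  let v102 := A.add v99 v101
  let v103 := A.mul v9 v102
  let v104 := A.add v98 v103
  let v105 := A.base 42
  let v106 := A.base 43
  let v107 := A.mul v5 v106
  let v108 := A.add v105 v107
  let v109 := A.base 44
  let v110 := A.mul v9 v109
  let v111 := A.add v108 v110
  kNa_b7 A v0 v2 v4 v5 v8 v9 v10 v38 v40 v41 v42 v44 v47 v62 v63 v67 v68 v69 v70 v71 v74 v79 v83 v87 v91 v94 v104 v111

def kNa_b5 {α : Type} (A : Alg α) (v0 v2 v4 v5 v8 v9 v10 v38 v40 v41 v42 v44 v47 v62 v63 v67 v68 v69 v70 v71 v74 v77 v79 : α) : List α :=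
  let v80 := A.mul v70 v77
  let v81 := A.base 18
  let v82 := A.mul v71 v81
  let v83 := A.add v80 v82
  let v84 := A.base 19
  let v85 := A.base 20
  let v86 := A.mul v5 v85
  let v87 := A.add v84 v86
  let v88 := A.base 21
  let v89 := A.base 22
  let v90 := A.mul v5 v89
  let v91 := A.add v88 v90
  let v92 := A.mul v87 v87
  let v93 := A.mul v91 v91
  let v94 := A.add v92 v93
  let v95 := A.base 45
  kNa_b6 A v0 v2 v4 v5 v8 v9 v10 v38 v40 v41 v42 v44 v47 v62 v63 v67 v68 v69 v70 v71 v74 v79 v83 v87 v91 v94 v95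

def kNa_b4 {α : Type} (A : Alg α) (v0 v2 v4 v5 v8 v9 v10 v11 v12 v38 v40 v41 v42 v44 v47 v60 v61 v62 v63 : α) : List α :=
  let v64 := A.mul v8 v44
  let v65 := A.mul v62 v64
  let v66 := A.mul v63 v64
  let v67 := A.sub v60 v65
  let v68 := A.sub v61 v66
  let v69 := A.mul v0 v5
  let v70 := A.add v0 v11
  let v71 := A.add v12 v69
  let v72 := A.mul v41 v70
  let v73 := A.mul v42 v71
  let v74 := A.add v72 v73
  let v75 := A.base 16
  let v76 := A.mul v70 v75
  let v77 := A.base 17
  let v78 := A.mul v71 v77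
  let v79 := A.add v76 v78
  kNa_b5 A v0 v2 v4 v5 v8 v9 v10 v38 v40 v41 v42 v44 v47 v62 v63 v67 v68 v69 v70 v71 v74 v77 v79

def kNa_b3 {α : Type} (A : Alg α) (v0 v2 v4 v5 v8 v9 v10 v11 v12 v38 v40 v41 v42 v44 v47 : α) : List α :=
  let v48 := A.base 7
  let v49 := A.base 8
  let v50 := A.mul v5 v49
  let v51 := A.add v48 v50
  let v52 := A.base 9
  let v53 := A.base 10
  let v54 := A.mul v5 v53
  let v55 := A.add v52 v54
  let v56 := A.mul v8 v51
  let v57 := A.mul v8 v55
  let v58 := A.mul v0 v38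
  let v59 := A.mul v0 v40
  let v60 := A.sub v56 v58
  let v61 := A.add v57 v59
  let v62 := A.base 11
  let v63 := A.base 12
  kNa_b4 A v0 v2 v4 v5 v8 v9 v10 v11 v12 v38 v40 v41 v42 v44 v47 v60 v61 v62 v63

def kNa_b2 {α : Type} (A : Alg α) (v0 v2 v4 v5 v8 v9 v10 v11 v12 v25 v30 v31 : α) : List α :=
  let v32 := A.add v25 v31
  let v33 := A.mul v5 v32
  let v34 := A.mul v10 v11
  let v35 := A.mul v10 v12
  let v36 := A.add v32 v34
  let v37 := A.add v33 v35
  let v38 := A.mul v8 v37
  let v39 := A.mul v8 v36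
  let v40 := A.add v30 v39
  let v41 := A.base 5
  let v42 := A.base 6
  let v43 := A.mul v5 v42
  let v44 := A.add v41 v43
  let v45 := A.base 15
  let v46 := A.mul v0 v44
  let v47 := A.add v45 v46
  kNa_b3 A v0 v2 v4 v5 v8 v9 v10 v11 v12 v38 v40 v41 v42 v44 v47

def kNa_b1 {α : Type} (A : Alg α) (v0 v2 v4 v5 v8 v9 v10 v11 v12 v13 v14 v15 : α) : List α :=
  let v16 := A.add v13 v15
  let v17 := A.mul v16 v16
  let v18 := A.cst (4) 0
  let v19 := A.mul v17 v18
  let v20 := A.base 4
  let v21 := A.mul v10 v20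
  let v22 := A.mul v2 v21
  let v23 := A.sub v19 v22
  let v24 := A.mul v14 v18
  let v25 := A.mul v0 v10
  let v26 := A.add v24 v25
  let v27 := A.mul v10 v26
  let v28 := A.mul v0 v27
  let v29 := A.add v23 v28
  let v30 := A.mul v2 v29
  let v31 := A.mul v2 v14
  kNa_b2 A v0 v2 v4 v5 v8 v9 v10 v11 v12 v25 v30 v31

def kNa_f {α : Type} (A : Alg α) : List α :=
  let v0 := A.x
  let v1 := A.y
  let v2 := A.cst (2) 0
  let v3 := A.mul v1 v2
  let v4 := A.cst (1) 0
  let v5 := A.sub v3 v4
  let v6 := A.base 2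
  let v7 := A.mul v0 v2
  let v8 := A.sub v6 v7
  let v9 := A.mul v5 v5
  let v10 := A.add v9 v4
  let v11 := A.base 0
  let v12 := A.base 1
  let v13 := A.mul v5 v12
  let v14 := A.add v11 v13
  let v15 := A.base 3
  kNa_b1 A v0 v2 v4 v5 v8 v9 v10 v11 v12 v13 v14 v15

theorem kNa_h {α : Type} (A : Alg α) : kNa_f A = outs A pNa pNa_out := rfl

def kNa : Prg := ⟨pNa, pNa_out, kNa_f, kNa_h⟩

end Pool.H61.Rh
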