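import Pool.Agent.H61.Rz.Rr
import Pool.Agent.H89.Nz.W4

/-! # generated: program `pNb` (near zone, chart b) -/

set_option autoImplicit false
set_option maxRecDepth 100000
set_option linter.unusedVariables false
set_option linter.unusedSimpArgs false
set_option linter.unreachableTactic false
set_option linter.unusedTactic false

namespace Pool.H61.Rh

open Complex Pool.H47.Kc

/-- program -/
def pNb : List Op := [.x, .y, .cst 2 0, .mul 1 0, .cst 1 0, .sub 1 0, .base 2, .mul 6 1,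
  .mul 5 0, .sub 2 0, .mul 4 4, .add 0 6, .base 0, .base 1, .mul 8 1, .add 1 0,
  .base 3, .mul 11 0, .add 4 0, .mul 0 0, .cst 4 0, .mul 1 0, .base 4, .mul 11 0,
  .mul 21 0, .sub 3 0, .mul 10 5, .mul 26 15, .add 1 0, .mul 17 0, .mul 29 0, .add 5 0,
  .mul 29 0, .mul 30 17, .add 6 0, .mul 29 0, .mul 24 23, .mul 25 23, .add 2 1, .add 4 1,
  .mul 30 0, .mul 31 2, .add 9 0, .base 5, .base 6, .mul 39 1, .add 1 0, .base 15,
  .mul 47 1, .add 1 0, .base 7, .mul 45 0, .base 8, .add 1 0, .base 9, .mul 49 0,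
  .base 10, .add 1 0, .mul 48 4, .mul 49 1, .mul 59 19, .mul 60 18, .sub 3 1, .add 3 1,
  .base 11, .base 12, .mul 56 19, .mul 2 0, .mul 2 1, .sub 6 1, .sub 6 1, .add 63 58,
  .add 71 58, .mul 29 1, .mul 29 1, .add 1 0, .base 16, .mul 5 0, .base 17, .mul 6 0,
  .add 2 0, .mul 9 2, .base 18, .mul 10 0, .add 2 0, .base 19, .mul 80 0, .base 20,
  .add 1 0, .base 21, .mul 84 0, .base 22, .add 1 0, .mul 4 4, .mul 1 1, .add 1 0,
  .base 45, .mul 91 0, .base 46, .add 1 0, .mul 89 0, .base 47, .mul 96 0, .base 48,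
  .add 1 0, .add 4 0, .base 42, .mul 96 0, .base 43, .mul 103 0, .add 2 0, .base 44,
  .add 1 0, .mul 112 7, .add 1 0, .base 33, .mul 110 0, .base 34, .add 1 0, .base 36,
  .mul 109 0, .base 37, .mul 116 0, .add 2 0, .base 38, .add 1 0, .mul 125 0, .add 8 0,
  .mul 122 10, .base 35, .add 1 0, .base 39, .mul 121 0, .base 40, .mul 128 0, .add 2 0,
  .base 41, .add 1 0, .mul 137 0, .add 8 0, .base 49, .mul 135 0, .base 50, .add 1 0,
  .base 53, .mul 134 0, .base 54, .mul 141 0, .add 2 0, .base 55, .add 1 0, .mul 150 0,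
  .add 8 0, .base 51, .mul 148 0, .base 52, .add 1 0, .base 56, .mul 147 0, .base 57,
  .mul 154 0, .add 2 0, .base 58, .add 1 0, .mul 163 0, .add 8 0, .base 59, .mul 161 0,
  .base 60, .add 1 0, .base 63, .mul 160 0, .base 64, .mul 167 0, .add 2 0, .base 65,
  .add 1 0, .mul 176 0, .add 8 0, .base 61, .mul 174 0, .base 62, .add 1 0, .base 66,
  .mul 173 0, .base 67, .mul 180 0, .add 2 0, .base 68, .add 1 0, .mul 189 0, .add 8 0,
  .mul 186 122, .mul 190 0, .mul 188 123, .add 125 0, .mul 193 125, .mul 127 56, .mul 127 55, .add 1 0,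
  .mul 55 6, .mul 54 5, .add 1 0, .mul 53 6, .add 1 0, .mul 204 0, .add 6 0, .mul 137 53,
  .mul 137 52, .add 1 0, .mul 52 16, .mul 51 15, .add 1 0, .mul 50 16, .add 1 0, .mul 214 0,
  .add 6 0, .base 31, .base 32, .mul 213 1, .add 1 0, .base 29, .base 30, .mul 182 1,
  .mul 181 1, .sub 0 1, .mul 179 5, .mul 177 112, .add 1 0, .mul 219 0, .add 4 0, .mul 161 103,
  .mul 161 92, .add 1 0, .add 3 0, .mul 142 82, .mul 147 70, .sub 0 1, .mul 228 0, .sub 0 4,
  .base 23, .mul 235 0, .base 24, .add 1 0, .base 25, .mul 239 0, .base 26, .add 1 0,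
  .mul 183 120, .mul 183 109, .add 1 0, .base 27, .base 28, .mul 180 100, .mul 182 88, .sub 1 0,
  .mul 212 0, .mul 212 1, .mul 105 6, .mul 93 6, .add 1 0, .mul 180 0, .mul 177 1, .add 6 1,
  .add 6 1, .mul 189 99, .mul 190 113, .add 3 1, .sub 3 1, .mul 268 154, .add 49 0, .sub 0 20,
  .mul 191 0, .mul 188 1, .sub 30 1, .sub 27 1, .mul 273 110, .mul 274 124, .sub 99 1, .add 87 1,
  .mul 230 1, .mul 231 1, .sub 7 1, .sub 7 1, .sub 1 16, .sub 1 16, .mul 236 46, .cst 6 0,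
  .mul 1 0, .mul 279 193, .mul 287 1, .sub 0 1, .mul 242 242, .mul 220 200, .mul 222 205, .add 1 0,
  .mul 252 0, .mul 252 1, .mul 205 46, .mul 210 46, .sub 0 1, .mul 220 0, .mul 217 1, .sub 1 6,
  .sub 1 6, .mul 229 216, .mul 230 213, .add 3 1, .add 3 1, .mul 299 259, .mul 2 0, .mul 2 1,
  .sub 22 23, .mul 312 0, .mul 233 0, .mul 230 1, .add 5 1, .add 5 1, .mul 308 33, .mul 309 33,
  .sub 1 113, .sub 1 104, .mul 34 29, .mul 2 0, .mul 2 1, .add 8 1, .add 8 1, .base 78,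
  .cst 1 1, .mul 1 0, .mul 258 258, .mul 258 258, .add 1 0, .sub 328 0, .mul 262 5, .mul 262 5,
  .add 1 0, .mul 334 0, .add 0 333, .mul 336 11, .mul 6 6, .mul 1 0, .base 82, .mul 14 0,
  .mul 16 1, .mul 16 0, .sub 2 338, .add 346 1, .base 91, .mul 338 0, .base 92, .mul 345 0,
  .add 2 0, .base 93, .add 1 0, .base 94, .mul 345 0, .base 95, .mul 352 0, .add 2 0,
  .base 96, .add 1 0, .base 88, .mul 357 0, .base 89, .add 1 0, .mul 365 11, .add 1 0,
  .mul 362 3, .base 90, .add 1 0, .mul 370 9, .add 1 0, .mul 44 18, .mul 44 12, .sub 1 0,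
  .mul 33 0, .mul 371 9, .add 5 0, .sub 2 0, .mul 374 33, .mul 378 0, .mul 376 34, .sub 36 0,
  .mul 381 36, .base 101, .mul 4 0, .base 102, .mul 4 0, .add 2 0, .base 103, .mul 6 0,
  .sub 2 0, .base 104, .mul 12 0, .base 105, .mul 12 0, .add 2 0, .base 106, .mul 14 0,
  .sub 2 0, .base 97, .mul 396 0, .base 98, .add 1 0, .base 99, .mul 400 0, .base 100,
  .add 1 0, .sub 16 4, .sub 9 1, .base 107, .mul 406 0, .base 108, .add 1 0, .base 110,
  .mul 405 0, .base 111, .mul 412 0, .add 2 0, .base 112, .add 1 0, .mul 421 0, .add 8 0,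
  .mul 418 10, .base 109, .add 1 0, .base 113, .mul 417 0, .base 114, .mul 424 0, .add 2 0,
  .base 115, .add 1 0, .mul 433 0, .add 8 0, .base 84, .base 85, .base 86, .base 87,
  .mul 439 16, .mul 440 5, .add 5 1, .add 5 1, .mul 97 1, .mul 97 1, .sub 1 0, .mul 446 319,
  .mul 447 308, .add 227 1, .add 227 1, .mul 12 1, .mul 12 1, .add 1 0, .sub 7 0, .base 116,
  .mul 109 0, .base 117, .mul 110 0, .sub 2 0, .base 120, .mul 79 0, .base 121, .mul 79 0,
  .add 2 0, .base 122, .mul 81 0, .sub 2 0, .mul 467 0, .add 9 0, .base 118, .mul 124 0,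
  .base 119, .mul 125 0, .sub 2 0, .base 123, .mul 94 0, .base 124, .mul 94 0, .add 2 0,
  .base 125, .mul 96 0, .sub 2 0, .mul 482 0, .add 9 0, .mul 479 46, .mul 483 0, .mul 481 47,
  .add 49 0, .mul 486 49, .mul 349 51, .mul 348 51, .add 1 0, .mul 348 6, .mul 347 5, .add 1 0,
  .mul 346 6, .add 1 0, .mul 497 0, .add 6 0, .mul 346 61, .mul 345 61, .add 1 0, .mul 345 16,
  .mul 344 15, .add 1 0, .mul 343 16, .add 1 0, .mul 507 0, .add 6 0, .sub 40 10, .sub 26 1,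
  .mul 219 219, .mul 463 171, .mul 188 175, .mul 188 176, .mul 228 2, .mul 516 137, .mul 1 0, .mul 438 0,
  .mul 435 1, .add 6 1, .add 6 1, .mul 473 9, .mul 236 0, .mul 115 0, .mul 115 1, .sub 5 1,
  .sub 5 1, .mul 519 190, .mul 17 0, .base 83, .mul 1 0, .cst 12 0, .mul 1 0, .mul 243 196,
  .mul 156 22, .mul 3 0, .sub 2 0, .mul 527 246, .cst 3 11, .mul 11 0, .mul 2 0, .sub 4 0,
  .mul 9 0, .mul 17 17, .mul 17 17, .add 1 0, .sub 3 0, .mul 468 94, .mul 465 95, .mul 501 40,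
  .mul 502 40, .sub 3 1, .sub 3 1, .mul 100 20, .mul 28 2, .mul 28 2, .add 1 0, .mul 558 0,
  .add 4 0, .base 81, .cst 3 0, .mul 1 0, .mul 50 0, .mul 11 11, .mul 11 11, .add 1 0,
  .mul 3 0, .add 8 0, .cst 0 0, .sub 0 1]

/-- positions of the outputs -/
def pNb_out : List ℕ := [23, 0]

/-- the statement of `pNb_val` -/
def pNb_goal (P : Pt) (n : Nd) (r s : ℝ) : Prop :=
    OutEq (run (realAlg (fun i => get 0 (P.syl n.l) i) (r) (s)) pNb []) pNb_out
      [P.NA n.R r ⟨2 * s - 1, 1⟩ (P.T0 r ⟨2 * s - 1, 1⟩ (1 - 2 * P.ys.re - 2 * (r * (⟨2 * s - 1, 1⟩ : ℂ).re))) (P.U0 r ⟨2 * s - 1, 1⟩ (P.T0 r ⟨2 * s - 1, 1⟩ (1 - 2 * P.ys.re - 2 * (r * (⟨2 * s - 1, 1⟩ : ℂ).re))) (1 - 2 * P.ys.re - 2 * (r * (⟨2 * s - 1, 1⟩ : ℂ).re))) (1 - 2 * P.ys.re - 2 * (r * (⟨2 * s - 1, 1⟩ : ℂ).re)) (n.φ2 r ⟨2 * s - 1, 1⟩) (n.γ1 r ⟨2 * s - 1, 1⟩),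
      P.NB n.R r ⟨2 * s - 1, 1⟩ (P.T0 r ⟨2 * s - 1, 1⟩ (1 - 2 * P.ys.re - 2 * (r * (⟨2 * s - 1, 1⟩ : ℂ).re))) (P.U0 r ⟨2 * s - 1, 1⟩ (P.T0 r ⟨2 * s - 1, 1⟩ (1 - 2 * P.ys.re - 2 * (r * (⟨2 * s - 1, 1⟩ : ℂ).re))) (1 - 2 * P.ys.re - 2 * (r * (⟨2 * s - 1, 1⟩ : ℂ).re))) (1 - 2 * P.ys.re - 2 * (r * (⟨2 * s - 1, 1⟩ : ℂ).re)) (n.φ2 r ⟨2 * s - 1, 1⟩) (n.γ1 r ⟨2 * s - 1, 1⟩) n.τ (n.φt P r ⟨2 * s - 1, 1⟩) (n.γt P r ⟨2 * s - 1, 1⟩)]

theorem pNb_c14 (P : Pt) (n : Nd) (r s : ℝ) {v0 v1 v2 v3 v4 v5 : ℝ} {X : ℂ} {v6 v7 v8 v9 d v10 v11 v12 v13 v14 v15 yx v16 v17 v18 v19 v20 v21 v22 v23 v24 v25 v26 v27 v28 v29 v30 v31 S v32 v33 v34 v35 v36 v37 v38 v39 v40 v41 v42 : ℝ} {T : ℂ} {v43 v44 v45 v46 e v47 v48 v49 f v50 v51 v52 v53 v54 v55 v56 v57 v58 v59 v60 v61 v62 v63 v64 v65 v66 v67 v68 v69 v70 : ℝ} {U : ℂ} {v71 v72 : ℝ} {y : ℂ} {v73 v74 v75 k v76 v77 v78 v79 v80 v81 v82 v83 v84 : ℝ} {fv : ℂ} {v85 v86 v87 v88 v89 v90 v91 v92 : ℝ} {M iM :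 ℂ} {v93 v94 v95 nM v96 v97 v98 v99 v100 v101 v102 v103 v104 v105 v106 v107 v108 v109 v110 v111 v112 v113 v114 As v115 v116 v117 v118 v119 v120 v121 v122 v123 v124 v125 v126 v127 v128 v129 v130 v131 v132 v133 v134 v135 v136 v137 v138 v139 : ℝ} {Ax : ℂ} {v140 v141 v142 v143 v144 v145 v146 v147 v148 v149 v150 v151 v152 v153 v154 v155 v156 v157 v158 v159 v160 v161 v162 v163 v164 v165 : ℝ} {B : ℂ} {v166 v167 v168 v169 v170 v171 v172 v173 v174 v175 v176 v177 v178 v179 v180 v181 v182 v183 v184 v185 v186 v187 v188 v189 v190 v191 : ℝ} {Bs : ℂ} {v192 v193 v194 v195 v196 v197 v198 v199 v200 v201 v202 v203 v204 v205 v206 v207 v208 v209 v210 v211 v212 v213 v214 v215 v216 : ℝ} {DB : ℂ} {v217 v218 v219 v220 sax v221 v222 v223 v224 v225 v226 v227 v228 v229 v230 v231 v232 v233 v234 v235 v236 v237 v238 v239 Xv v240 v241 v242 v243 v244 v245 v246 v247 : ℝ} {L : ℂ} {v248 v249 v250 aV v251 v252 v253 v254 v255 v256 v257 v258 v259 v260 v261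 v262 v263 v264 v265 v266 v267 v268 : ℝ} {ZB : ℂ} {v269 v270 v271 v272 v273 v274 v275 v276 v277 v278 v279 v280 v281 v282 v283 v284 v285 : ℝ} {H : ℂ} {v286 v287 v288 v289 v290 v291 E12 v292 v293 v294 v295 v296 v297 v298 v299 v300 v301 v302 v303 v304 v305 v306 v307 v308 : ℝ} {ZM : ℂ} {v309 v310 v311 v312 v313 v314 v315 v316 v317 v318 v319 v320 v321 v322 v323 v324 v325 v326 : ℝ} {G6 : ℂ} {v327 v328 v329 v330 v331 v332 v333 w v334 v335 v336 v337 v338 D v339 v340 v341 sv v342 v343 v344 v345 v346 v347 : ℝ} {lr : ℂ} {v348 v349 v350 v351 v352 v353 v354 v355 v356 v357 v358 v359 v360 v361 : ℝ} {Aq : ℂ} {v362 v363 v364 v365 v366 v367 v368 v369 v370 v371 v372 : ℝ} {A1 : ℂ} {v373 v374 v375 v376 v377 v378 v379 pha v380 v381 v382 v383 v384 v385 v386 v387 v388 v389 v390 v391 v392 v393 v394 v395 v396 v397 v398 v399 v400 : ℝ} {B1 : ℂ} {v401 v402 v403 v404 v405 v406 v407 v408 : ℝ} {B0 : ℂ} {v409 v410 : ℝ} {gma : ℂ} {v411 v412 v413 v414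 v415 v416 v417 v418 v419 v420 v421 v422 v423 v424 v425 v426 v427 v428 v429 v430 v431 v432 v433 v434 v435 : ℝ} {Ad : ℂ} {v436 v437 v438 v439 v440 v441 v442 v443 v444 v445 v446 v447 v448 v449 v450 v451 v452 v453 v454 phb v455 v456 v457 v458 v459 v460 v461 v462 v463 v464 v465 v466 v467 v468 v469 v470 v471 v472 v473 v474 v475 v476 v477 v478 v479 v480 v481 v482 v483 v484 : ℝ} {Bd : ℂ} {v485 v486 v487 v488 v489 v490 v491 v492 v493 v494 v495 v496 v497 v498 v499 v500 v501 v502 v503 v504 v505 v506 v507 v508 v509 : ℝ} {Bc : ℂ} {v510 v511 : ℝ} {gmb : ℂ} {v512 v513 v514 v515 v516 v517 v518 v519 v520 v521 v522 v523 v524 v525 v526 v527 v528 : ℝ} {NG : ℂ} {v529 v530 v531 v532 v533 v534 v535 v536 v537 v538 v539 v540 v541 v542 v543 v544 v545 v546 v547 v548 NA v549 v550 v551 v552 v553 v554 : ℝ} {Zz : ℂ} {v555 v556 v557 v558 v559 : ℝ}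
    (h0 : v0 = r)
    (e_X_d : X = (⟨2 * s - 1, 1⟩ : ℂ))
    (e_d_d : d = 1 - 2 * P.ys.re - 2 * (r * X.re))
    (e_d_v : v9 = d)
    (e_yx_d : yx = dt P.ys X)
    (e_S_d : S = 4 * ((P.ys.re - (1 - normSq P.ys) / (1 - 2 * P.ys.re)) * X.re + P.ys.im * X.im) ^ 2 - 2 * (1 - normSq P.ys) * normSq X + (4 * yx + normSq X * r) * normSq X * r)
    (e_T_d : T = I * ((2 * S : ℝ) : ℂ) + I * (X * ((2 * yx + normSq X * r : ℝ) : ℂ) + P.ys * (normSq X : ℂ)) * (d : ℂ))
    (e_e_d : e = dt P.ns X)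
    (e_f_d : f = P.fs + e * r)
    (e_f_v : v49 = f)
    (e_U_d : U = P.DV X * (d : ℂ) + T * (r : ℂ) - P.V0 / (P.fs : ℂ) * ((d * e : ℝ) : ℂ))
    (e_y_d : y = P.ys + X * (r : ℂ))
    (e_k_d : k = dt y P.ns)
    (e_fv_d : fv = P.fv y)
    (e_M_d : M = P.M X)
    (e_iM_d : iM = I * M)
    (e_nM_d : nM = normSq M)
    (e_As_d : As = VAr P.cs r X)
    (e_Ax_d : Ax = VAxr P.c r X)
    (e_B_d : B = VBr P.c r X)
    (e_Bs_d : Bs = VBr P.cs r X)
    (e_DB_d : DB = VBd P.c (X * (r : ℂ)) U)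
    (e_sax_d : sax = dt P.sa X)
    (e_Xv_d : Xv = -dt P.a T - (e * sax + f * As) * d - dt Ax U + dt B iM * d)
    (e_L_d : L = P.L X)
    (e_aV_d : aV = dt Ax (P.V0 / (P.fs : ℂ)))
    (e_ZB_d : ZB = ((dt B (-(I * y)) : ℝ) : ℂ) * P.ns + ((dt B (I * P.vs - P.bs) : ℝ) : ℂ) * fv - (k : ℂ) * (I * B))
    (e_H_d : H = L - ((sax + As * r - aV : ℝ) : ℂ) * fv - (Bs + 2 * I * B) * (f : ℂ) - ZB)
    (e_E12_d : E12 = 12 * (f * Xv) - nM * d)
    (h292 : v292 = v49 * v49)
    (e_ZM_d : ZM = ((dt iM (-(I * y)) : ℝ) : ℂ) * P.ns + ((dt iM (I * P.vs - P.bs) : ℝ) : ℂ) * fv - (k : ℂ) * (I * iM))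
    (e_G6_d : G6 = ZM * ((d * f : ℝ) : ℂ) + fv * ((r * (nM * d - 6 * (f * Xv)) : ℝ) : ℂ) + (H * (d : ℂ) - DB) * ((6 * f ^ 2 : ℝ) : ℂ))
    (e_w_d : w = 1 - normSq y)
    (e_D_d : D = 1 - 2 * dt (uu 2) y)
    (e_D_v : v338 = D)
    (e_sv_d : sv = 2 * s3 * w ^ 2)
    (e_sv_v : v341 = sv)
    (e_lr_d : lr = (n.lam : ℂ) * e3 - X * (r : ℂ))
    (e_Aq_d : Aq = VAq n.c1 X)
    (e_A1_d : A1 = VAxr n.c1 r X)
    (e_pha_d : pha = n.lam * dt Aq e3 - dt A1 X)
    (e_B1_d : B1 = VBq n.c1 X lr)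
    (e_B0_d : B0 = VBd n.c1 0 X)
    (e_gma_d : gma = B1 - B0)
    (e_Ad_d : Ad = VAxr n.dc r X)
    (e_phb_d : phb = dt (n.da + Ad * (r : ℂ)) lr - dt (P.a + Ax * (r : ℂ)) n.dy)
    (e_phb_v : v454 = phb)
    (e_Bd_d : Bd = VBd n.dc (X * (r : ℂ)) lr)
    (e_Bc_d : Bc = VBd P.c (X * (r : ℂ)) n.dy)
    (e_gmb_d : gmb = Bd - Bc)
    (h512 : v512 = v292 * v292)
    (h513 : v513 = v49 * v341)
    (e_NG_d : NG = (D : ℂ) * G6 + ((6 * f * sv * (r * pha) : ℝ) : ℂ) * fv - ((6 * f ^ 2 * sv : ℝ) : ℂ) * gma)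
    (e_NG_re : v527 = NG.re)
    (e_NG_im : v528 = NG.im)
    (h529 : v529 = v9 * v338)
    (h530 : v530 = v512 * v529)
    (h531 : v531 = n.R)
    (h532 : v532 = v530 * v531)
    (h533 : v533 = (12 : ℝ))
    (h534 : v534 = v532 * v533)
    (e_NA_d : NA = 12 * n.R * f ^ 4 * d * D * (D * E12 - 12 * f * sv * pha - 12 * (1 / 8192) * normSq X * f ^ 2 * d * D) - normSq NG)
    (e_NA_v : v548 = NA)
    (e_Zz_d : Zz = (phb : ℂ) * fv - (f : ℂ) * gmb)
    (e_Zz_re : v553 = Zz.re)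
    (e_Zz_im : v554 = Zz.im)
    (h555 : v555 = v454 * v534)
    (h556 : v556 = v527 * v553)
    (h557 : v557 = v528 * v554)
    (h558 : v558 = v556 + v557)
    (h559 : v559 = v0 * v558)
    (h : TrE (realAlg (fun i => get 0 (P.syl n.l) i) (r) (s)) (pNb.drop 560) [v559, v558, v557, v556, v555, v554, v553, v552, v551, v550, v549, v548, v547, v546, v545, v544, v543, v542, v541, v540, v539, v538, v537, v536, v535, v534, v533, v532, v531, v530, v529, v528, v527, v526, v525, v524, v523, v522, v521, v520, v519, v518, v517, v516, v515, v514, v513, v512, v511, v510, v509, v508, v507, v506, v505, v504, v503, v502, v501, v500, v499, v498, v497, v496, v495, v494, v493, v492, v491, v490, v489, v488, v487, v486, v485, v484, v483, v482, v481, v480, v479, v478, v477, v476, v475, v474, v473, v472, v471, v470, v469, v468, v467, v466, v465, v464, v463, v462, v461, v460, v459, v458, v457, v456, v455, v454, v453, v452, v451, v450, v449,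 v448, v447, v446, v445, v444, v443, v442, v441, v440, v439, v438, v437, v436, v435, v434, v433, v432, v431, v430, v429, v428, v427, v426, v425, v424, v423, v422, v421, v420, v419, v418, v417, v416, v415, v414, v413, v412, v411, v410, v409, v408, v407, v406, v405, v404, v403, v402, v401, v400, v399, v398, v397, v396, v395, v394, v393, v392, v391, v390, v389, v388, v387, v386, v385, v384, v383, v382, v381, v380, v379, v378, v377, v376, v375, v374, v373, v372, v371, v370, v369, v368, v367, v366, v365, v364, v363, v362, v361, v360, v359, v358, v357, v356, v355, v354, v353, v352, v351, v350, v349, v348, v347, v346, v345, v344, v343, v342, v341, v340, v339, v338, v337, v336, v335, v334, v333, v332, v331, v330, v329, v328, v327, v326, v325, v324, v323, v322, v321, v320, v319, v318, v317, v316, v315, v314, v313, v312, v311, v310, v309, v308, v307, v306, v305, v304, v303, v302, v301, v300, v299, v298, v297, v296, v295, v294,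 v293, v292, v291, v290, v289, v288, v287, v286, v285, v284, v283, v282, v281, v280, v279, v278, v277, v276, v275, v274, v273, v272, v271, v270, v269, v268, v267, v266, v265, v264, v263, v262, v261, v260, v259, v258, v257, v256, v255, v254, v253, v252, v251, v250, v249, v248, v247, v246, v245, v244, v243, v242, v241, v240, v239, v238, v237, v236, v235, v234, v233, v232, v231, v230, v229, v228, v227, v226, v225, v224, v223, v222, v221, v220, v219, v218, v217, v216, v215, v214, v213, v212, v211, v210, v209, v208, v207, v206, v205, v204, v203, v202, v201, v200, v199, v198, v197, v196, v195, v194, v193, v192, v191, v190, v189, v188, v187, v186, v185, v184, v183, v182, v181, v180, v179, v178, v177, v176, v175, v174, v173, v172, v171, v170, v169, v168, v167, v166, v165, v164, v163, v162, v161, v160, v159, v158, v157, v156, v155, v154, v153, v152, v151, v150, v149, v148, v147, v146, v145, v144, v143, v142, v141, v140, v139,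 v138, v137, v136, v135, v134, v133, v132, v131, v130, v129, v128, v127, v126, v125, v124, v123, v122, v121, v120, v119, v118, v117, v116, v115, v114, v113, v112, v111, v110, v109, v108, v107, v106, v105, v104, v103, v102, v101, v100, v99, v98, v97, v96, v95, v94, v93, v92, v91, v90, v89, v88, v87, v86, v85, v84, v83, v82, v81, v80, v79, v78, v77, v76, v75, v74, v73, v72, v71, v70, v69, v68, v67, v66, v65, v64, v63, v62, v61, v60, v59, v58, v57, v56, v55, v54, v53, v52, v51, v50, v49, v48, v47, v46, v45, v44, v43, v42, v41, v40, v39, v38, v37, v36, v35, v34, v33, v32, v31, v30, v29, v28, v27, v26, v25, v24, v23, v22, v21, v20, v19, v18, v17, v16, v15, v14, v13, v12, v11, v10, v9, v8, v7, v6, v5, v4, v3, v2, v1, v0] (fun st => run (realAlg (fun i => get 0 (P.syl n.l) i) (r) (s)) pNb [] = st)) :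
    pNb_goal P n r s := by
  obtain ⟨v560, h560, h⟩ := h
  change v560 = v555 + v559 at h560
  obtain ⟨v561, h561, h⟩ := h
  change v561 = n.τ at h561
  obtain ⟨v562, h562, h⟩ := h
  replace h562 : v562 = (3 : ℝ) := by rw [h562]; norm_num [step, realAlg]
  obtain ⟨v563, h563, h⟩ := h
  change v563 = v561 * v562 at h563
  obtain ⟨v564, h564, h⟩ := h
  change v564 = v513 * v563 at h564
  obtain ⟨v565, h565, h⟩ := h
  change v565 = v553 * v553 at h565
  obtain ⟨v566, h566, h⟩ := h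
  change v566 = v554 * v554 at h566
  obtain ⟨v567, h567, h⟩ := h
  change v567 = v565 + v566 at h567
  obtain ⟨v568, h568, h⟩ := h
  change v568 = v564 * v567 at h568
  obtain ⟨v569, h569, h⟩ := h
  change v569 = v560 + v568 at h569
  obtain ⟨NB, e_NB_d⟩ : ∃ q : ℝ, q = -(12 * n.R * f ^ 4 * d * D * phb) - r * dt NG Zz - 3 * n.τ * f * sv * normSq Zz := ⟨_, rfl⟩
  have e_NB_v : v569 = -NB := by
    rw [e_NB_d]
    simp only [h569, h568, h567, h566, h565, h564, h563, h562, h561, h560, h559, h558, h557, h556, h555, h534, h533, h532, h531, h530, h529, h513, h512, h292, h0, e_Zz_im, e_Zz_re, e_sv_v, e_f_v, e_NG_im, e_NG_re, e_D_v, e_d_v, e_phb_v, mul_re, mul_im, add_re, add_im, sub_re, sub_im, neg_re, neg_im, I_re, I_im, ofReal_re,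
      ofReal_im, one_re, one_im, zero_re, zero_im, dt, normSq_apply, re_ofNat, im_ofNat, conj_re, conj_im]
    try ring
  obtain ⟨o_NA, e_o_NA_d⟩ : ∃ q : ℝ, q = NA := ⟨_, rfl⟩
  have a_o_NA : NA = NA := by
    rfl
  have e_o_NA_v : v548 = o_NA := by
    rw [e_o_NA_d, a_o_NA]
    simp only [e_NA_v, mul_re, mul_im, add_re, add_im, sub_re, sub_im, neg_re, neg_im, I_re, I_im, ofReal_re,
      ofReal_im, one_re, one_im, zero_re, zero_im, dt, normSq_apply, re_ofNat, im_ofNat, conj_re, conj_im]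
    try ring
  obtain ⟨v570, h570, h⟩ := h
  replace h570 : v570 = (0 : ℝ) := by rw [h570]; norm_num [step, realAlg]
  obtain ⟨v571, h571, h⟩ := h
  change v571 = v570 - v569 at h571
  obtain ⟨o_NB, e_o_NB_d⟩ : ∃ q : ℝ, q = NB := ⟨_, rfl⟩
  have a_o_NB : NB = NB := by
    rfl
  have e_o_NB_v : v571 = o_NB := by
    rw [e_o_NB_d, a_o_NB]
    simp only [h571, h570, e_NB_v, mul_re, mul_im, add_re, add_im, sub_re, sub_im, neg_re, neg_im, I_re, I_im, ofReal_re,
      ofReal_im, one_re, one_im, zero_re, zero_im, dt, normSq_apply, re_ofNat, im_ofNat, conj_re, conj_im]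
    try ring
  unfold pNb_goal
  refine OutEq_of h ?_
  refine ⟨e_o_NA_v.trans ?_, e_o_NB_v.trans ?_, trivial⟩
  all_goals
    subst o_NB o_NA NB Zz NA NG gmb Bc Bd phb Ad gma B0 B1 pha A1 Aq lr sv D w G6 ZM E12 H ZB aV L Xv sax DB Bs B Ax As nM iM M fv k y U f e T S yx d X
    rfl

theorem pNb_c13 (P : Pt) (n : Nd) (r s : ℝ) {v0 v1 v2 v3 v4 v5 : ℝ} {X : ℂ} {v6 v7 v8 v9 d v10 v11 v12 v13 v14 v15 yx v16 v17 v18 v19 v20 v21 v22 v23 v24 v25 v26 v27 v28 v29 v30 v31 S v32 v33 v34 v35 v36 v37 v38 v39 v40 v41 v42 : ℝ} {T : ℂ} {v43 v44 v45 v46 e v47 v48 v49 f v50 v51 v52 v53 v54 v55 v56 v57 v58 v59 v60 v61 v62 v63 v64 v65 v66 v67 v68 v69 v70 : ℝ} {U : ℂ} {v71 v72 : ℝ} {y : ℂ} {v73 v74 v75 k v76 v77 v78 v79 v80 v81 v82 v83 v84 : ℝ} {fv : ℂ} {v85 v86 v87 v88 v89 v90 v91 v92 : ℝ} {M iM : ℂ} {v93 v94 v95 nM v96 v97 v98 v99 v100 v101 v102 v103 v104 v105 v106 v107 v108 v109 v110 v111 v112 v113 v114 As v115 v116 v117 v118 v119 v120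 v121 v122 v123 v124 v125 v126 v127 v128 v129 v130 v131 v132 v133 v134 v135 v136 v137 v138 v139 : ℝ} {Ax : ℂ} {v140 v141 v142 v143 v144 v145 v146 v147 v148 v149 v150 v151 v152 v153 v154 v155 v156 v157 v158 v159 v160 v161 v162 v163 v164 v165 : ℝ} {B : ℂ} {v166 v167 v168 v169 v170 v171 v172 v173 v174 v175 v176 v177 v178 v179 v180 v181 v182 v183 v184 v185 v186 v187 v188 v189 v190 v191 : ℝ} {Bs : ℂ} {v192 v193 v194 v195 v196 v197 v198 v199 v200 v201 v202 v203 v204 v205 v206 v207 v208 v209 v210 v211 v212 v213 v214 v215 v216 : ℝ} {DB : ℂ} {v217 v218 v219 v220 sax v221 v222 v223 v224 v225 v226 v227 v228 v229 v230 v231 v232 v233 v234 v235 v236 v237 v238 v239 Xv v240 v241 v242 v243 v244 v245 v246 v247 : ℝ} {L : ℂ} {v248 v249 v250 aV v251 v252 v253 v254 v255 v256 v257 v258 v259 v260 v261 v262 v263 v264 v265 v266 v267 v268 : ℝ} {ZB : ℂ} {v269 v270 v271 v272 v273 v274 v275 v276 v277 v278 v279 v280 v281 v282 v283 v284 v285 : ℝ} {H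 : ℂ} {v286 v287 v288 v289 v290 v291 E12 v292 v293 v294 v295 v296 v297 v298 v299 v300 v301 v302 v303 v304 v305 v306 v307 v308 : ℝ} {ZM : ℂ} {v309 v310 v311 v312 v313 v314 v315 v316 v317 v318 v319 v320 v321 v322 v323 v324 v325 v326 : ℝ} {G6 : ℂ} {v327 v328 v329 v330 v331 v332 v333 w v334 v335 v336 v337 v338 D v339 v340 v341 sv v342 v343 v344 v345 v346 v347 : ℝ} {lr : ℂ} {v348 v349 v350 v351 v352 v353 v354 v355 v356 v357 v358 v359 v360 v361 : ℝ} {Aq : ℂ} {v362 v363 v364 v365 v366 v367 v368 v369 v370 v371 v372 : ℝ} {A1 : ℂ} {v373 v374 v375 v376 v377 v378 v379 pha v380 v381 v382 v383 v384 v385 v386 v387 v388 v389 v390 v391 v392 v393 v394 v395 v396 v397 v398 v399 v400 : ℝ} {B1 : ℂ} {v401 v402 v403 v404 v405 v406 v407 v408 : ℝ} {B0 : ℂ} {v409 v410 : ℝ} {gma : ℂ} {v411 v412 v413 v414 v415 v416 v417 v418 v419 v420 v421 v422 v423 v424 v425 v426 v427 v428 v429 v430 v431 v432 v433 v434 v435 : ℝ} {Ad : ℂ} {v436 v437 v438 v439 v440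 v441 v442 v443 v444 v445 v446 v447 v448 v449 v450 v451 v452 v453 v454 phb v455 v456 v457 v458 v459 v460 v461 v462 v463 v464 v465 v466 v467 v468 v469 v470 v471 v472 v473 v474 v475 v476 v477 v478 v479 v480 v481 v482 v483 v484 : ℝ} {Bd : ℂ} {v485 v486 v487 v488 v489 v490 v491 v492 v493 v494 v495 v496 v497 v498 v499 v500 v501 v502 v503 v504 v505 v506 v507 v508 v509 : ℝ} {Bc : ℂ} {v510 v511 : ℝ} {gmb : ℂ} {v512 v513 v514 v515 v516 v517 v518 v519 : ℝ}
    (h0 : v0 = r)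
    (h4 : v4 = (1 : ℝ))
    (e_X_d : X = (⟨2 * s - 1, 1⟩ : ℂ))
    (e_X_re : v5 = X.re)
    (e_X_im : X.im = (1 : ℝ))
    (e_d_d : d = 1 - 2 * P.ys.re - 2 * (r * X.re))
    (e_d_v : v9 = d)
    (h10 : v10 = v5 * v5)
    (h11 : v11 = v10 + v4)
    (e_yx_d : yx = dt P.ys X)
    (e_S_d : S = 4 * ((P.ys.re - (1 - normSq P.ys) / (1 - 2 * P.ys.re)) * X.re + P.ys.im * X.im) ^ 2 - 2 * (1 - normSq P.ys) * normSq X + (4 * yx + normSq X * r) * normSq X * r)
    (e_T_d : T = I * ((2 * S : ℝ) : ℂ) + I * (X * ((2 * yx + normSq X * r : ℝ) : ℂ) + P.ys * (normSq X : ℂ)) * (d : ℂ))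
    (e_e_d : e = dt P.ns X)
    (e_f_d : f = P.fs + e * r)
    (e_f_v : v49 = f)
    (e_U_d : U = P.DV X * (d : ℂ) + T * (r : ℂ) - P.V0 / (P.fs : ℂ) * ((d * e : ℝ) : ℂ))
    (e_y_d : y = P.ys + X * (r : ℂ))
    (e_k_d : k = dt y P.ns)
    (e_fv_d : fv = P.fv y)
    (e_fv_re : v80 = fv.re)
    (e_fv_im : v84 = fv.im)
    (e_M_d : M = P.M X)
    (e_iM_d : iM = I * M)
    (e_nM_d : nM = normSq M)
    (e_As_d : As = VAr P.cs r X)
    (e_Ax_d : Ax = VAxr P.c r X)
    (e_B_d : B = VBr P.c r X)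
    (e_Bs_d : Bs = VBr P.cs r X)
    (e_DB_d : DB = VBd P.c (X * (r : ℂ)) U)
    (e_sax_d : sax = dt P.sa X)
    (e_Xv_d : Xv = -dt P.a T - (e * sax + f * As) * d - dt Ax U + dt B iM * d)
    (e_L_d : L = P.L X)
    (e_aV_d : aV = dt Ax (P.V0 / (P.fs : ℂ)))
    (e_ZB_d : ZB = ((dt B (-(I * y)) : ℝ) : ℂ) * P.ns + ((dt B (I * P.vs - P.bs) : ℝ) : ℂ) * fv - (k : ℂ) * (I * B))
    (e_H_d : H = L - ((sax + As * r - aV : ℝ) : ℂ) * fv - (Bs + 2 * I * B) * (f : ℂ) - ZB)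
    (h287 : v287 = (6 : ℝ))
    (e_E12_d : E12 = 12 * (f * Xv) - nM * d)
    (e_E12_v : v291 = E12)
    (h292 : v292 = v49 * v49)
    (e_ZM_d : ZM = ((dt iM (-(I * y)) : ℝ) : ℂ) * P.ns + ((dt iM (I * P.vs - P.bs) : ℝ) : ℂ) * fv - (k : ℂ) * (I * iM))
    (e_G6_d : G6 = ZM * ((d * f : ℝ) : ℂ) + fv * ((r * (nM * d - 6 * (f * Xv)) : ℝ) : ℂ) + (H * (d : ℂ) - DB) * ((6 * f ^ 2 : ℝ) : ℂ))
    (e_G6_re : v325 = G6.re)
    (e_G6_im : v326 = G6.im)
    (e_w_d : w = 1 - normSq y)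
    (e_D_d : D = 1 - 2 * dt (uu 2) y)
    (e_D_v : v338 = D)
    (e_sv_d : sv = 2 * s3 * w ^ 2)
    (e_sv_v : v341 = sv)
    (e_lr_d : lr = (n.lam : ℂ) * e3 - X * (r : ℂ))
    (e_Aq_d : Aq = VAq n.c1 X)
    (e_A1_d : A1 = VAxr n.c1 r X)
    (e_pha_d : pha = n.lam * dt Aq e3 - dt A1 X)
    (e_pha_v : v379 = pha)
    (e_B1_d : B1 = VBq n.c1 X lr)
    (e_B0_d : B0 = VBd n.c1 0 X)
    (e_gma_d : gma = B1 - B0)
    (e_gma_re : v409 = gma.re)
    (e_gma_im : v410 = gma.im)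
    (e_Ad_d : Ad = VAxr n.dc r X)
    (e_phb_d : phb = dt (n.da + Ad * (r : ℂ)) lr - dt (P.a + Ax * (r : ℂ)) n.dy)
    (e_phb_v : v454 = phb)
    (e_Bd_d : Bd = VBd n.dc (X * (r : ℂ)) lr)
    (e_Bc_d : Bc = VBd P.c (X * (r : ℂ)) n.dy)
    (e_gmb_d : gmb = Bd - Bc)
    (e_gmb_re : v510 = gmb.re)
    (e_gmb_im : v511 = gmb.im)
    (h512 : v512 = v292 * v292)
    (h513 : v513 = v49 * v341)
    (h514 : v514 = v325 * v338)
    (h515 : v515 = v326 * v338)
    (h516 : v516 = v287 * v513)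
    (h517 : v517 = v0 * v379)
    (h518 : v518 = v516 * v517)
    (h519 : v519 = v80 * v518)
    (h : TrE (realAlg (fun i => get 0 (P.syl n.l) i) (r) (s)) (pNb.drop 520) [v519, v518, v517, v516, v515, v514, v513, v512, v511, v510, v509, v508, v507, v506, v505, v504, v503, v502, v501, v500, v499, v498, v497, v496, v495, v494, v493, v492, v491, v490, v489, v488, v487, v486, v485, v484, v483, v482, v481, v480, v479, v478, v477, v476, v475, v474, v473, v472, v471, v470, v469, v468, v467, v466, v465, v464, v463, v462, v461, v460, v459, v458, v457, v456, v455, v454, v453, v452, v451, v450, v449, v448, v447, v446, v445, v444, v443, v442, v441, v440, v439, v438, v437, v436, v435, v434, v433, v432, v431, v430, v429, v428, v427, v426, v425, v424, v423, v422, v421, v420, v419, v418, v417, v416, v415, v414, v413, v412, v411, v410, v409, v408, v407, v406, v405, v404, v403, v402, v401, v400, v399, v398, v397, v396, v395, v394, v393,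 v392, v391, v390, v389, v388, v387, v386, v385, v384, v383, v382, v381, v380, v379, v378, v377, v376, v375, v374, v373, v372, v371, v370, v369, v368, v367, v366, v365, v364, v363, v362, v361, v360, v359, v358, v357, v356, v355, v354, v353, v352, v351, v350, v349, v348, v347, v346, v345, v344, v343, v342, v341, v340, v339, v338, v337, v336, v335, v334, v333, v332, v331, v330, v329, v328, v327, v326, v325, v324, v323, v322, v321, v320, v319, v318, v317, v316, v315, v314, v313, v312, v311, v310, v309, v308, v307, v306, v305, v304, v303, v302, v301, v300, v299, v298, v297, v296, v295, v294, v293, v292, v291, v290, v289, v288, v287, v286, v285, v284, v283, v282, v281, v280, v279, v278, v277, v276, v275, v274, v273, v272, v271, v270, v269, v268, v267, v266, v265, v264, v263, v262, v261, v260, v259, v258, v257, v256, v255, v254, v253, v252, v251, v250, v249, v248, v247, v246, v245, v244, v243, v242, v241, v240, v239, v238,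 v237, v236, v235, v234, v233, v232, v231, v230, v229, v228, v227, v226, v225, v224, v223, v222, v221, v220, v219, v218, v217, v216, v215, v214, v213, v212, v211, v210, v209, v208, v207, v206, v205, v204, v203, v202, v201, v200, v199, v198, v197, v196, v195, v194, v193, v192, v191, v190, v189, v188, v187, v186, v185, v184, v183, v182, v181, v180, v179, v178, v177, v176, v175, v174, v173, v172, v171, v170, v169, v168, v167, v166, v165, v164, v163, v162, v161, v160, v159, v158, v157, v156, v155, v154, v153, v152, v151, v150, v149, v148, v147, v146, v145, v144, v143, v142, v141, v140, v139, v138, v137, v136, v135, v134, v133, v132, v131, v130, v129, v128, v127, v126, v125, v124, v123, v122, v121, v120, v119, v118, v117, v116, v115, v114, v113, v112, v111, v110, v109, v108, v107, v106, v105, v104, v103, v102, v101, v100, v99, v98, v97, v96, v95, v94, v93, v92, v91, v90, v89, v88, v87, v86, v85, v84, v83, v82, v81, v80, v79,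 v78, v77, v76, v75, v74, v73, v72, v71, v70, v69, v68, v67, v66, v65, v64, v63, v62, v61, v60, v59, v58, v57, v56, v55, v54, v53, v52, v51, v50, v49, v48, v47, v46, v45, v44, v43, v42, v41, v40, v39, v38, v37, v36, v35, v34, v33, v32, v31, v30, v29, v28, v27, v26, v25, v24, v23, v22, v21, v20, v19, v18, v17, v16, v15, v14, v13, v12, v11, v10, v9, v8, v7, v6, v5, v4, v3, v2, v1, v0] (fun st => run (realAlg (fun i => get 0 (P.syl n.l) i) (r) (s)) pNb [] = st)) :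
    pNb_goal P n r s := by
  obtain ⟨v520, h520, h⟩ := h
  change v520 = v84 * v518 at h520
  obtain ⟨v521, h521, h⟩ := h
  change v521 = v514 + v519 at h521
  obtain ⟨v522, h522, h⟩ := h
  change v522 = v515 + v520 at h522
  obtain ⟨v523, h523, h⟩ := h
  change v523 = v49 * v513 at h523
  obtain ⟨v524, h524, h⟩ := h
  change v524 = v287 * v523 at h524
  obtain ⟨v525, h525, h⟩ := h
  change v525 = v409 * v524 at h525
  obtain ⟨v526, h526, h⟩ := h
  change v526 = v410 * v524 at h526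
  obtain ⟨v527, h527, h⟩ := h
  change v527 = v521 - v525 at h527
  obtain ⟨v528, h528, h⟩ := h
  change v528 = v522 - v526 at h528
  obtain ⟨NG, e_NG_d⟩ : ∃ q : ℂ, q = (D : ℂ) * G6 + ((6 * f * sv * (r * pha) : ℝ) : ℂ) * fv - ((6 * f ^ 2 * sv : ℝ) : ℂ) * gma := ⟨_, rfl⟩
  have e_NG_re : v527 = NG.re := by
    rw [e_NG_d]
    simp only [h527, h525, h524, h523, h521, h519, h518, h517, h516, h514, h513, h287, h0, e_sv_v, e_f_v, e_gma_re, e_pha_v, e_fv_re, e_D_v, e_G6_re, mul_re, mul_im, add_re, add_im, sub_re, sub_im, neg_re, neg_im, I_re, I_im, ofReal_re,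
      ofReal_im, one_re, one_im, zero_re, zero_im, dt, normSq_apply, re_ofNat, im_ofNat, conj_re, conj_im]
    try ring
  have e_NG_im : v528 = NG.im := by
    rw [e_NG_d]
    simp only [h528, h526, h524, h523, h522, h520, h518, h517, h516, h515, h513, h287, h0, e_sv_v, e_f_v, e_gma_im, e_pha_v, e_fv_im, e_D_v, e_G6_im, mul_re, mul_im, add_re, add_im, sub_re, sub_im, neg_re, neg_im, I_re, I_im, ofReal_re,
      ofReal_im, one_re, one_im, zero_re, zero_im, dt, normSq_apply, re_ofNat, im_ofNat, conj_re, conj_im]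
    try ring
  obtain ⟨v529, h529, h⟩ := h
  change v529 = v9 * v338 at h529
  obtain ⟨v530, h530, h⟩ := h
  change v530 = v512 * v529 at h530
  obtain ⟨v531, h531, h⟩ := h
  change v531 = n.R at h531
  obtain ⟨v532, h532, h⟩ := h
  change v532 = v530 * v531 at h532
  obtain ⟨v533, h533, h⟩ := h
  replace h533 : v533 = (12 : ℝ) := by rw [h533]; norm_num [step, realAlg]
  obtain ⟨v534, h534, h⟩ := h
  change v534 = v532 * v533 at h534
  obtain ⟨v535, h535, h⟩ := h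
  change v535 = v291 * v338 at h535
  obtain ⟨v536, h536, h⟩ := h
  change v536 = v379 * v513 at h536
  obtain ⟨v537, h537, h⟩ := h
  change v537 = v533 * v536 at h537
  obtain ⟨v538, h538, h⟩ := h
  change v538 = v535 - v537 at h538
  obtain ⟨v539, h539, h⟩ := h
  change v539 = v11 * v292 at h539
  obtain ⟨v540, h540, h⟩ := h
  replace h540 : v540 = (3 : ℝ) / 2 ^ 11 := by rw [h540]; norm_num [step, realAlg]
  obtain ⟨v541, h541, h⟩ := h
  change v541 = v529 * v540 at h541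
  obtain ⟨v542, h542, h⟩ := h
  change v542 = v539 * v541 at h542
  obtain ⟨v543, h543, h⟩ := h
  change v543 = v538 - v542 at h543
  obtain ⟨v544, h544, h⟩ := h
  change v544 = v534 * v543 at h544
  obtain ⟨v545, h545, h⟩ := h
  change v545 = v527 * v527 at h545
  obtain ⟨v546, h546, h⟩ := h
  change v546 = v528 * v528 at h546
  obtain ⟨v547, h547, h⟩ := h
  change v547 = v545 + v546 at h547
  obtain ⟨v548, h548, h⟩ := h
  change v548 = v544 - v547 at h548
  obtain ⟨NA, e_NA_d⟩ : ∃ q : ℝ, q = 12 * n.R * f ^ 4 * d * D * (D * E12 - 12 * f * sv * pha - 12 * (1 / 8192) * normSq X * f ^ 2 * d * D) - normSq NG := ⟨_, rfl⟩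
  have e_NA_v : v548 = NA := by
    rw [e_NA_d]
    simp only [h548, h547, h546, h545, h544, h543, h542, h541, h540, h539, h538, h537, h536, h535, h534, h533, h532, h531, h530, h529, h513, h512, h292, h11, h10, h4, e_NG_im, e_NG_re, e_D_v, e_d_v, e_f_v, e_X_re, e_sv_v, e_pha_v, e_E12_v, e_X_im, mul_re, mul_im, add_re, add_im, sub_re, sub_im, neg_re, neg_im, I_re, I_im, ofReal_re,
      ofReal_im, one_re, one_im, zero_re, zero_im, dt, normSq_apply, re_ofNat, im_ofNat, conj_re, conj_im]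
    try ring
  obtain ⟨v549, h549, h⟩ := h
  change v549 = v80 * v454 at h549
  obtain ⟨v550, h550, h⟩ := h
  change v550 = v84 * v454 at h550
  obtain ⟨v551, h551, h⟩ := h
  change v551 = v49 * v510 at h551
  obtain ⟨v552, h552, h⟩ := h
  change v552 = v49 * v511 at h552
  obtain ⟨v553, h553, h⟩ := h
  change v553 = v549 - v551 at h553
  obtain ⟨v554, h554, h⟩ := h
  change v554 = v550 - v552 at h554
  obtain ⟨Zz, e_Zz_d⟩ : ∃ q : ℂ, q = (phb : ℂ) * fv - (f : ℂ) * gmb := ⟨_, rfl⟩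
  have e_Zz_re : v553 = Zz.re := by
    rw [e_Zz_d]
    simp only [h553, h551, h549, e_gmb_re, e_f_v, e_phb_v, e_fv_re, mul_re, mul_im, add_re, add_im, sub_re, sub_im, neg_re, neg_im, I_re, I_im, ofReal_re,
      ofReal_im, one_re, one_im, zero_re, zero_im, dt, normSq_apply, re_ofNat, im_ofNat, conj_re, conj_im]
    try ring
  have e_Zz_im : v554 = Zz.im := by
    rw [e_Zz_d]
    simp only [h554, h552, h550, e_gmb_im, e_f_v, e_phb_v, e_fv_im, mul_re, mul_im, add_re, add_im, sub_re, sub_im, neg_re, neg_im, I_re, I_im, ofReal_re,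
      ofReal_im, one_re, one_im, zero_re, zero_im, dt, normSq_apply, re_ofNat, im_ofNat, conj_re, conj_im]
    try ring
  obtain ⟨v555, h555, h⟩ := h
  change v555 = v454 * v534 at h555
  obtain ⟨v556, h556, h⟩ := h
  change v556 = v527 * v553 at h556
  obtain ⟨v557, h557, h⟩ := h
  change v557 = v528 * v554 at h557
  obtain ⟨v558, h558, h⟩ := h
  change v558 = v556 + v557 at h558
  obtain ⟨v559, h559, h⟩ := h
  change v559 = v0 * v558 at h559
  exact pNb_c14 P n r s h0 e_X_d e_d_d e_d_v e_yx_d e_S_d e_T_d e_e_d e_f_d e_f_v e_U_d e_y_d e_k_d e_fv_d e_M_d e_iM_d e_nM_d e_As_d e_Ax_d e_B_d e_Bs_d e_DB_d e_sax_d e_Xv_d e_L_d e_aV_d e_ZB_d e_H_d e_E12_d h292 e_ZM_d e_G6_d e_w_d e_D_d e_D_v e_sv_d e_sv_v e_lr_d e_Aq_d e_A1_d e_pha_d e_B1_d e_B0_d e_gma_d e_Ad_d e_phb_d e_phb_v e_Bd_d e_Bc_d e_gmb_d h512 h513 e_NG_d e_NG_re e_NG_im h529 h530 h531 h532 h533 h534 e_NA_d e_NA_v e_Zz_d e_Zz_re e_Zz_im h555 h556 h557 h558 h559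 h

theorem pNb_c12 (P : Pt) (n : Nd) (r s : ℝ) {v0 v1 v2 v3 v4 v5 : ℝ} {X : ℂ} {v6 v7 v8 v9 d v10 v11 v12 v13 v14 v15 yx v16 v17 v18 v19 v20 v21 v22 v23 v24 v25 v26 v27 v28 v29 v30 v31 S v32 v33 v34 v35 v36 v37 v38 v39 v40 v41 v42 : ℝ} {T : ℂ} {v43 v44 v45 v46 e v47 v48 v49 f v50 v51 v52 v53 v54 v55 v56 v57 v58 v59 v60 v61 v62 v63 v64 v65 v66 v67 v68 v69 v70 : ℝ} {U : ℂ} {v71 v72 : ℝ} {y : ℂ} {v73 v74 v75 k v76 v77 v78 v79 v80 v81 v82 v83 v84 : ℝ} {fv : ℂ} {v85 v86 v87 v88 v89 v90 v91 v92 : ℝ} {M iM : ℂ} {v93 v94 v95 nM v96 v97 v98 v99 v100 v101 v102 v103 v104 v105 v106 v107 v108 v109 v110 v111 v112 v113 v114 As v115 v116 v117 v118 v119 v120 v121 v122 v123 v124 v125 v126 v127 v128 v129 v130 v131 v132 v133 v134 v135 v136 v137 v138 v139 : ℝ} {Ax : ℂ} {v140 v141 v142 v143 v144 v145 v146 v147 v148 v149 v150 v151 v152 v153 v154 v155 v156 v157 v158 v159 v160 v161 v162 v163 v164 v165 : ℝ} {B : ℂ} {v166 v167 v168 v169 v170 v171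 v172 v173 v174 v175 v176 v177 v178 v179 v180 v181 v182 v183 v184 v185 v186 v187 v188 v189 v190 v191 : ℝ} {Bs : ℂ} {v192 v193 v194 v195 v196 v197 v198 v199 v200 v201 v202 v203 v204 v205 v206 v207 v208 v209 v210 v211 v212 v213 v214 v215 v216 : ℝ} {DB : ℂ} {v217 v218 v219 v220 sax v221 v222 v223 v224 v225 v226 v227 v228 v229 v230 v231 v232 v233 v234 v235 v236 v237 v238 v239 Xv v240 v241 v242 v243 v244 v245 v246 v247 : ℝ} {L : ℂ} {v248 v249 v250 aV v251 v252 v253 v254 v255 v256 v257 v258 v259 v260 v261 v262 v263 v264 v265 v266 v267 v268 : ℝ} {ZB : ℂ} {v269 v270 v271 v272 v273 v274 v275 v276 v277 v278 v279 v280 v281 v282 v283 v284 v285 : ℝ} {H : ℂ} {v286 v287 v288 v289 v290 v291 E12 v292 v293 v294 v295 v296 v297 v298 v299 v300 v301 v302 v303 v304 v305 v306 v307 v308 : ℝ} {ZM : ℂ} {v309 v310 v311 v312 v313 v314 v315 v316 v317 v318 v319 v320 v321 v322 v323 v324 v325 v326 : ℝ} {G6 : ℂ} {v327 v328 v329 v330 v331 v332 v333 w v334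 v335 v336 v337 v338 D v339 v340 v341 sv v342 v343 v344 v345 v346 v347 : ℝ} {lr : ℂ} {v348 v349 v350 v351 v352 v353 v354 v355 v356 v357 v358 v359 v360 v361 : ℝ} {Aq : ℂ} {v362 v363 v364 v365 v366 v367 v368 v369 v370 v371 v372 : ℝ} {A1 : ℂ} {v373 v374 v375 v376 v377 v378 v379 pha v380 v381 v382 v383 v384 v385 v386 v387 v388 v389 v390 v391 v392 v393 v394 v395 v396 v397 v398 v399 v400 : ℝ} {B1 : ℂ} {v401 v402 v403 v404 v405 v406 v407 v408 : ℝ} {B0 : ℂ} {v409 v410 : ℝ} {gma : ℂ} {v411 v412 v413 v414 v415 v416 v417 v418 v419 v420 v421 v422 v423 v424 v425 v426 v427 v428 v429 v430 v431 v432 v433 v434 v435 : ℝ} {Ad : ℂ} {v436 v437 v438 v439 v440 v441 v442 v443 v444 v445 v446 v447 v448 v449 v450 v451 v452 v453 v454 phb v455 v456 v457 v458 v459 v460 v461 v462 v463 v464 v465 v466 v467 v468 v469 v470 v471 v472 v473 v474 v475 v476 v477 v478 v479 : ℝ}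
    (h0 : v0 = r)
    (h2 : v2 = (2 : ℝ))
    (h4 : v4 = (1 : ℝ))
    (e_X_d : X = (⟨2 * s - 1, 1⟩ : ℂ))
    (e_X_re : v5 = X.re)
    (e_X_im : X.im = (1 : ℝ))
    (e_d_d : d = 1 - 2 * P.ys.re - 2 * (r * X.re))
    (e_d_v : v9 = d)
    (h10 : v10 = v5 * v5)
    (h11 : v11 = v10 + v4)
    (e_yx_d : yx = dt P.ys X)
    (e_S_d : S = 4 * ((P.ys.re - (1 - normSq P.ys) / (1 - 2 * P.ys.re)) * X.re + P.ys.im * X.im) ^ 2 - 2 * (1 - normSq P.ys) * normSq X + (4 * yx + normSq X * r) * normSq X * r)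
    (e_T_d : T = I * ((2 * S : ℝ) : ℂ) + I * (X * ((2 * yx + normSq X * r : ℝ) : ℂ) + P.ys * (normSq X : ℂ)) * (d : ℂ))
    (e_e_d : e = dt P.ns X)
    (e_f_d : f = P.fs + e * r)
    (e_f_v : v49 = f)
    (e_U_d : U = P.DV X * (d : ℂ) + T * (r : ℂ) - P.V0 / (P.fs : ℂ) * ((d * e : ℝ) : ℂ))
    (e_y_d : y = P.ys + X * (r : ℂ))
    (e_k_d : k = dt y P.ns)
    (e_fv_d : fv = P.fv y)
    (e_fv_re : v80 = fv.re)
    (e_fv_im : v84 = fv.im)
    (e_M_d : M = P.M X)
    (e_iM_d : iM = I * M)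
    (e_nM_d : nM = normSq M)
    (e_As_d : As = VAr P.cs r X)
    (e_Ax_d : Ax = VAxr P.c r X)
    (h140 : v140 = P.c.b11)
    (h142 : v142 = P.c.b12)
    (h144 : v144 = P.c.q1)
    (h146 : v146 = P.c.q2)
    (h149 : v149 = P.c.q3)
    (h153 : v153 = P.c.b21)
    (h155 : v155 = P.c.b22)
    (h157 : v157 = P.c.q4)
    (h159 : v159 = P.c.q5)
    (h162 : v162 = P.c.q6)
    (e_B_d : B = VBr P.c r X)
    (e_Bs_d : Bs = VBr P.cs r X)
    (e_DB_d : DB = VBd P.c (X * (r : ℂ)) U)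
    (e_sax_d : sax = dt P.sa X)
    (e_Xv_d : Xv = -dt P.a T - (e * sax + f * As) * d - dt Ax U + dt B iM * d)
    (e_L_d : L = P.L X)
    (e_aV_d : aV = dt Ax (P.V0 / (P.fs : ℂ)))
    (e_ZB_d : ZB = ((dt B (-(I * y)) : ℝ) : ℂ) * P.ns + ((dt B (I * P.vs - P.bs) : ℝ) : ℂ) * fv - (k : ℂ) * (I * B))
    (e_H_d : H = L - ((sax + As * r - aV : ℝ) : ℂ) * fv - (Bs + 2 * I * B) * (f : ℂ) - ZB)
    (h287 : v287 = (6 : ℝ))
    (e_E12_d : E12 = 12 * (f * Xv) - nM * d)
    (e_E12_v : v291 = E12)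
    (h292 : v292 = v49 * v49)
    (e_ZM_d : ZM = ((dt iM (-(I * y)) : ℝ) : ℂ) * P.ns + ((dt iM (I * P.vs - P.bs) : ℝ) : ℂ) * fv - (k : ℂ) * (I * iM))
    (e_G6_d : G6 = ZM * ((d * f : ℝ) : ℂ) + fv * ((r * (nM * d - 6 * (f * Xv)) : ℝ) : ℂ) + (H * (d : ℂ) - DB) * ((6 * f ^ 2 : ℝ) : ℂ))
    (e_G6_re : v325 = G6.re)
    (e_G6_im : v326 = G6.im)
    (e_w_d : w = 1 - normSq y)
    (e_D_d : D = 1 - 2 * dt (uu 2) y)
    (e_D_v : v338 = D)
    (e_sv_d : sv = 2 * s3 * w ^ 2)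
    (e_sv_v : v341 = sv)
    (e_lr_d : lr = (n.lam : ℂ) * e3 - X * (r : ℂ))
    (e_lr_re : v346 = lr.re)
    (e_lr_im : v347 = -lr.im)
    (e_Aq_d : Aq = VAq n.c1 X)
    (e_A1_d : A1 = VAxr n.c1 r X)
    (e_pha_d : pha = n.lam * dt Aq e3 - dt A1 X)
    (e_pha_v : v379 = pha)
    (h380 : v380 = v5 * v346)
    (h381 : v381 = v2 * v380)
    (h382 : v382 = v5 * v347)
    (h383 : v383 = v346 - v382)
    (h384 : v384 = v2 * v347)
    (e_B1_d : B1 = VBq n.c1 X lr)
    (e_B0_d : B0 = VBd n.c1 0 X)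
    (e_gma_d : gma = B1 - B0)
    (e_gma_re : v409 = gma.re)
    (e_gma_im : v410 = gma.im)
    (e_Ad_d : Ad = VAxr n.dc r X)
    (h438 : v438 = n.dy.re)
    (h439 : v439 = n.dy.im)
    (e_phb_d : phb = dt (n.da + Ad * (r : ℂ)) lr - dt (P.a + Ax * (r : ℂ)) n.dy)
    (e_phb_v : v454 = phb)
    (h455 : v455 = n.dc.b11)
    (h456 : v456 = v346 * v455)
    (h457 : v457 = n.dc.b12)
    (h458 : v458 = v347 * v457)
    (h459 : v459 = v456 - v458)
    (h460 : v460 = n.dc.q1)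
    (h461 : v461 = v381 * v460)
    (h462 : v462 = n.dc.q2)
    (h463 : v463 = v383 * v462)
    (h464 : v464 = v461 + v463)
    (h465 : v465 = n.dc.q3)
    (h466 : v466 = v384 * v465)
    (h467 : v467 = v464 - v466)
    (h468 : v468 = v0 * v467)
    (h469 : v469 = v459 + v468)
    (h470 : v470 = n.dc.b21)
    (h471 : v471 = v346 * v470)
    (h472 : v472 = n.dc.b22)
    (h473 : v473 = v347 * v472)
    (h474 : v474 = v471 - v473)
    (h475 : v475 = n.dc.q4)
    (h476 : v476 = v381 * v475)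
    (h477 : v477 = n.dc.q5)
    (h478 : v478 = v383 * v477)
    (h479 : v479 = v476 + v478)
    (h : TrE (realAlg (fun i => get 0 (P.syl n.l) i) (r) (s)) (pNb.drop 480) [v479, v478, v477, v476, v475, v474, v473, v472, v471, v470, v469, v468, v467, v466, v465, v464, v463, v462, v461, v460, v459, v458, v457, v456, v455, v454, v453, v452, v451, v450, v449, v448, v447, v446, v445, v444, v443, v442, v441, v440, v439, v438, v437, v436, v435, v434, v433, v432, v431, v430, v429, v428, v427, v426, v425, v424, v423, v422, v421, v420, v419, v418, v417, v416, v415, v414, v413, v412, v411, v410, v409, v408, v407, v406, v405, v404, v403, v402, v401, v400, v399, v398, v397, v396, v395, v394, v393, v392, v391, v390, v389, v388, v387, v386, v385, v384, v383, v382, v381, v380, v379, v378, v377, v376, v375, v374, v373, v372, v371, v370, v369, v368, v367, v366, v365, v364, v363, v362, v361, v360, v359, v358, v357, v356, v355, v354, v353,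 v352, v351, v350, v349, v348, v347, v346, v345, v344, v343, v342, v341, v340, v339, v338, v337, v336, v335, v334, v333, v332, v331, v330, v329, v328, v327, v326, v325, v324, v323, v322, v321, v320, v319, v318, v317, v316, v315, v314, v313, v312, v311, v310, v309, v308, v307, v306, v305, v304, v303, v302, v301, v300, v299, v298, v297, v296, v295, v294, v293, v292, v291, v290, v289, v288, v287, v286, v285, v284, v283, v282, v281, v280, v279, v278, v277, v276, v275, v274, v273, v272, v271, v270, v269, v268, v267, v266, v265, v264, v263, v262, v261, v260, v259, v258, v257, v256, v255, v254, v253, v252, v251, v250, v249, v248, v247, v246, v245, v244, v243, v242, v241, v240, v239, v238, v237, v236, v235, v234, v233, v232, v231, v230, v229, v228, v227, v226, v225, v224, v223, v222, v221, v220, v219, v218, v217, v216, v215, v214, v213, v212, v211, v210, v209, v208, v207, v206, v205, v204, v203, v202, v201, v200, v199, v198,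 v197, v196, v195, v194, v193, v192, v191, v190, v189, v188, v187, v186, v185, v184, v183, v182, v181, v180, v179, v178, v177, v176, v175, v174, v173, v172, v171, v170, v169, v168, v167, v166, v165, v164, v163, v162, v161, v160, v159, v158, v157, v156, v155, v154, v153, v152, v151, v150, v149, v148, v147, v146, v145, v144, v143, v142, v141, v140, v139, v138, v137, v136, v135, v134, v133, v132, v131, v130, v129, v128, v127, v126, v125, v124, v123, v122, v121, v120, v119, v118, v117, v116, v115, v114, v113, v112, v111, v110, v109, v108, v107, v106, v105, v104, v103, v102, v101, v100, v99, v98, v97, v96, v95, v94, v93, v92, v91, v90, v89, v88, v87, v86, v85, v84, v83, v82, v81, v80, v79, v78, v77, v76, v75, v74, v73, v72, v71, v70, v69, v68, v67, v66, v65, v64, v63, v62, v61, v60, v59, v58, v57, v56, v55, v54, v53, v52, v51, v50, v49, v48, v47, v46, v45, v44, v43, v42, v41, v40, v39, v38, v37, v36, v35, v34, v33, v32, v31,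 v30, v29, v28, v27, v26, v25, v24, v23, v22, v21, v20, v19, v18, v17, v16, v15, v14, v13, v12, v11, v10, v9, v8, v7, v6, v5, v4, v3, v2, v1, v0] (fun st => run (realAlg (fun i => get 0 (P.syl n.l) i) (r) (s)) pNb [] = st)) :
    pNb_goal P n r s := by
  obtain ⟨v480, h480, h⟩ := h
  change v480 = n.dc.q6 at h480
  obtain ⟨v481, h481, h⟩ := h
  change v481 = v384 * v480 at h481
  obtain ⟨v482, h482, h⟩ := h
  change v482 = v479 - v481 at h482
  obtain ⟨v483, h483, h⟩ := h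
  change v483 = v0 * v482 at h483
  obtain ⟨v484, h484, h⟩ := h
  change v484 = v474 + v483 at h484
  obtain ⟨Bd, e_Bd_d⟩ : ∃ q : ℂ, q = VBd n.dc (X * (r : ℂ)) lr := ⟨_, rfl⟩
  have e_Bd_re : v469 = Bd.re := by
    rw [e_Bd_d]
    simp only [VBd_re, VBd_im, h469, h468, h467, h466, h465, h464, h463, h462, h461, h460, h459, h458, h457, h456, h455, h384, h383, h382, h381, h380, h2, h0, e_lr_im, e_X_re, e_lr_re, e_X_im, mul_re, mul_im, add_re, add_im, sub_re, sub_im, neg_re, neg_im, I_re, I_im, ofReal_re,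
      ofReal_im, one_re, one_im, zero_re, zero_im, dt, normSq_apply, re_ofNat, im_ofNat, conj_re, conj_im]
    try ring
  have e_Bd_im : v484 = Bd.im := by
    rw [e_Bd_d]
    simp only [VBd_re, VBd_im, h484, h483, h482, h481, h480, h479, h478, h477, h476, h475, h474, h473, h472, h471, h470, h384, h383, h382, h381, h380, h2, h0, e_lr_im, e_X_re, e_lr_re, e_X_im, mul_re, mul_im, add_re, add_im, sub_re, sub_im, neg_re, neg_im, I_re, I_im, ofReal_re,
      ofReal_im, one_re, one_im, zero_re, zero_im, dt, normSq_apply, re_ofNat, im_ofNat, conj_re, conj_im]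
    try ring
  obtain ⟨v485, h485, h⟩ := h
  change v485 = v5 * v438 at h485
  obtain ⟨v486, h486, h⟩ := h
  change v486 = v2 * v485 at h486
  obtain ⟨v487, h487, h⟩ := h
  change v487 = v5 * v439 at h487
  obtain ⟨v488, h488, h⟩ := h
  change v488 = v438 + v487 at h488
  obtain ⟨v489, h489, h⟩ := h
  change v489 = v2 * v439 at h489
  obtain ⟨v490, h490, h⟩ := h
  change v490 = v140 * v438 at h490
  obtain ⟨v491, h491, h⟩ := h
  change v491 = v142 * v439 at h491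
  obtain ⟨v492, h492, h⟩ := h
  change v492 = v490 + v491 at h492
  obtain ⟨v493, h493, h⟩ := h
  change v493 = v144 * v486 at h493
  obtain ⟨v494, h494, h⟩ := h
  change v494 = v146 * v488 at h494
  obtain ⟨v495, h495, h⟩ := h
  change v495 = v493 + v494 at h495
  obtain ⟨v496, h496, h⟩ := h
  change v496 = v149 * v489 at h496
  obtain ⟨v497, h497, h⟩ := h
  change v497 = v495 + v496 at h497
  obtain ⟨v498, h498, h⟩ := h
  change v498 = v0 * v497 at h498
  obtain ⟨v499, h499, h⟩ := h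
  change v499 = v492 + v498 at h499
  obtain ⟨v500, h500, h⟩ := h
  change v500 = v153 * v438 at h500
  obtain ⟨v501, h501, h⟩ := h
  change v501 = v155 * v439 at h501
  obtain ⟨v502, h502, h⟩ := h
  change v502 = v500 + v501 at h502
  obtain ⟨v503, h503, h⟩ := h
  change v503 = v157 * v486 at h503
  obtain ⟨v504, h504, h⟩ := h
  change v504 = v159 * v488 at h504
  obtain ⟨v505, h505, h⟩ := h
  change v505 = v503 + v504 at h505
  obtain ⟨v506, h506, h⟩ := h
  change v506 = v162 * v489 at h506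
  obtain ⟨v507, h507, h⟩ := h
  change v507 = v505 + v506 at h507
  obtain ⟨v508, h508, h⟩ := h
  change v508 = v0 * v507 at h508
  obtain ⟨v509, h509, h⟩ := h
  change v509 = v502 + v508 at h509
  obtain ⟨Bc, e_Bc_d⟩ : ∃ q : ℂ, q = VBd P.c (X * (r : ℂ)) n.dy := ⟨_, rfl⟩
  have e_Bc_re : v499 = Bc.re := by
    rw [e_Bc_d]
    simp only [VBd_re, VBd_im, h499, h498, h497, h496, h495, h494, h493, h492, h491, h490, h489, h488, h487, h486, h485, h439, h438, h149, h146, h144, h142, h140, h2, h0, e_X_re, e_X_im, mul_re, mul_im, add_re, add_im, sub_re, sub_im, neg_re, neg_im, I_re, I_im, ofReal_re,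
      ofReal_im, one_re, one_im, zero_re, zero_im, dt, normSq_apply, re_ofNat, im_ofNat, conj_re, conj_im]
    try ring
  have e_Bc_im : v509 = Bc.im := by
    rw [e_Bc_d]
    simp only [VBd_re, VBd_im, h509, h508, h507, h506, h505, h504, h503, h502, h501, h500, h489, h488, h487, h486, h485, h439, h438, h162, h159, h157, h155, h153, h2, h0, e_X_re, e_X_im, mul_re, mul_im, add_re, add_im, sub_re, sub_im, neg_re, neg_im, I_re, I_im, ofReal_re,
      ofReal_im, one_re, one_im, zero_re, zero_im, dt, normSq_apply, re_ofNat, im_ofNat, conj_re, conj_im]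
    try ring
  obtain ⟨v510, h510, h⟩ := h
  change v510 = v469 - v499 at h510
  obtain ⟨v511, h511, h⟩ := h
  change v511 = v484 - v509 at h511
  obtain ⟨gmb, e_gmb_d⟩ : ∃ q : ℂ, q = Bd - Bc := ⟨_, rfl⟩
  have e_gmb_re : v510 = gmb.re := by
    rw [e_gmb_d]
    simp only [h510, e_Bc_re, e_Bd_re, mul_re, mul_im, add_re, add_im, sub_re, sub_im, neg_re, neg_im, I_re, I_im, ofReal_re,
      ofReal_im, one_re, one_im, zero_re, zero_im, dt, normSq_apply, re_ofNat, im_ofNat, conj_re, conj_im]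
    try ring
  have e_gmb_im : v511 = gmb.im := by
    rw [e_gmb_d]
    simp only [h511, e_Bc_im, e_Bd_im, mul_re, mul_im, add_re, add_im, sub_re, sub_im, neg_re, neg_im, I_re, I_im, ofReal_re,
      ofReal_im, one_re, one_im, zero_re, zero_im, dt, normSq_apply, re_ofNat, im_ofNat, conj_re, conj_im]
    try ring
  obtain ⟨v512, h512, h⟩ := h
  change v512 = v292 * v292 at h512
  obtain ⟨v513, h513, h⟩ := h
  change v513 = v49 * v341 at h513
  obtain ⟨v514, h514, h⟩ := h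
  change v514 = v325 * v338 at h514
  obtain ⟨v515, h515, h⟩ := h
  change v515 = v326 * v338 at h515
  obtain ⟨v516, h516, h⟩ := h
  change v516 = v287 * v513 at h516
  obtain ⟨v517, h517, h⟩ := h
  change v517 = v0 * v379 at h517
  obtain ⟨v518, h518, h⟩ := h
  change v518 = v516 * v517 at h518
  obtain ⟨v519, h519, h⟩ := h
  change v519 = v80 * v518 at h519
  exact pNb_c13 P n r s h0 h4 e_X_d e_X_re e_X_im e_d_d e_d_v h10 h11 e_yx_d e_S_d e_T_d e_e_d e_f_d e_f_v e_U_d e_y_d e_k_d e_fv_d e_fv_re e_fv_im e_M_d e_iM_d e_nM_d e_As_d e_Ax_d e_B_d e_Bs_d e_DB_d e_sax_d e_Xv_d e_L_d e_aV_d e_ZB_d e_H_d h287 e_E12_d e_E12_v h292 e_ZM_d e_G6_d e_G6_re e_G6_im e_w_d e_D_d e_D_v e_sv_d e_sv_v e_lr_d e_Aq_d e_A1_d e_pha_d e_pha_v e_B1_d e_B0_d e_gma_d e_gma_re e_gma_im e_Ad_d e_phb_d e_phb_v e_Bd_d e_Bc_d e_gmb_d e_gmb_re e_gmb_im h512 h513 h514 h515 h516 h517 h518 h519 h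

theorem pNb_c11 (P : Pt) (n : Nd) (r s : ℝ) {v0 v1 v2 v3 v4 v5 : ℝ} {X : ℂ} {v6 v7 v8 v9 d v10 v11 v12 v13 v14 v15 yx v16 v17 v18 v19 v20 v21 v22 v23 v24 v25 v26 v27 v28 v29 v30 v31 S v32 v33 v34 v35 v36 v37 v38 v39 v40 v41 v42 : ℝ} {T : ℂ} {v43 v44 v45 v46 e v47 v48 v49 f v50 v51 v52 v53 v54 v55 v56 v57 v58 v59 v60 v61 v62 v63 v64 v65 v66 v67 v68 v69 v70 : ℝ} {U : ℂ} {v71 v72 : ℝ} {y : ℂ} {v73 v74 v75 k v76 v77 v78 v79 v80 v81 v82 v83 v84 : ℝ} {fv : ℂ} {v85 v86 v87 v88 v89 v90 v91 v92 : ℝ} {M iM : ℂ} {v93 v94 v95 nM v96 v97 v98 v99 v100 v101 v102 v103 v104 v105 v106 v107 v108 v109 v110 v111 v112 v113 v114 As v115 v116 v117 v118 v119 v120 v121 v122 v123 v124 v125 v126 v127 v128 v129 v130 v131 v132 v133 v134 v135 v136 v137 v138 v139 : ℝ} {Ax : ℂ} {v140 v141 v142 v143 v144 v145 v146 v147 v148 v149 v150 v151 v152 v153 v154 v155 v156 v157 v158 v159 v160 v161 v162 v163 v164 v165 : ℝ} {B : ℂ} {v166 v167 v168 v169 v170 v171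 v172 v173 v174 v175 v176 v177 v178 v179 v180 v181 v182 v183 v184 v185 v186 v187 v188 v189 v190 v191 : ℝ} {Bs : ℂ} {v192 v193 v194 v195 v196 v197 v198 v199 v200 v201 v202 v203 v204 v205 v206 v207 v208 v209 v210 v211 v212 v213 v214 v215 v216 : ℝ} {DB : ℂ} {v217 v218 v219 v220 sax v221 v222 v223 v224 v225 v226 v227 v228 v229 v230 v231 v232 v233 v234 v235 v236 v237 v238 v239 Xv v240 v241 v242 v243 v244 v245 v246 v247 : ℝ} {L : ℂ} {v248 v249 v250 aV v251 v252 v253 v254 v255 v256 v257 v258 v259 v260 v261 v262 v263 v264 v265 v266 v267 v268 : ℝ} {ZB : ℂ} {v269 v270 v271 v272 v273 v274 v275 v276 v277 v278 v279 v280 v281 v282 v283 v284 v285 : ℝ} {H : ℂ} {v286 v287 v288 v289 v290 v291 E12 v292 v293 v294 v295 v296 v297 v298 v299 v300 v301 v302 v303 v304 v305 v306 v307 v308 : ℝ} {ZM : ℂ} {v309 v310 v311 v312 v313 v314 v315 v316 v317 v318 v319 v320 v321 v322 v323 v324 v325 v326 : ℝ} {G6 : ℂ} {v327 v328 v329 v330 v331 v332 v333 w v334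 v335 v336 v337 v338 D v339 v340 v341 sv v342 v343 v344 v345 v346 v347 : ℝ} {lr : ℂ} {v348 v349 v350 v351 v352 v353 v354 v355 v356 v357 v358 v359 v360 v361 : ℝ} {Aq : ℂ} {v362 v363 v364 v365 v366 v367 v368 v369 v370 v371 v372 : ℝ} {A1 : ℂ} {v373 v374 v375 v376 v377 v378 v379 pha v380 v381 v382 v383 v384 v385 v386 v387 v388 v389 v390 v391 v392 v393 v394 v395 v396 v397 v398 v399 v400 : ℝ} {B1 : ℂ} {v401 v402 v403 v404 v405 v406 v407 v408 : ℝ} {B0 : ℂ} {v409 v410 : ℝ} {gma : ℂ} {v411 v412 v413 v414 v415 v416 v417 v418 v419 v420 v421 v422 v423 v424 v425 v426 v427 v428 v429 v430 v431 v432 v433 v434 v435 : ℝ} {Ad : ℂ} {v436 v437 v438 v439 : ℝ}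
    (h0 : v0 = r)
    (h2 : v2 = (2 : ℝ))
    (h4 : v4 = (1 : ℝ))
    (e_X_d : X = (⟨2 * s - 1, 1⟩ : ℂ))
    (e_X_re : v5 = X.re)
    (e_X_im : X.im = (1 : ℝ))
    (e_d_d : d = 1 - 2 * P.ys.re - 2 * (r * X.re))
    (e_d_v : v9 = d)
    (h10 : v10 = v5 * v5)
    (h11 : v11 = v10 + v4)
    (e_yx_d : yx = dt P.ys X)
    (e_S_d : S = 4 * ((P.ys.re - (1 - normSq P.ys) / (1 - 2 * P.ys.re)) * X.re + P.ys.im * X.im) ^ 2 - 2 * (1 - normSq P.ys) * normSq X + (4 * yx + normSq X * r) * normSq X * r)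
    (e_T_d : T = I * ((2 * S : ℝ) : ℂ) + I * (X * ((2 * yx + normSq X * r : ℝ) : ℂ) + P.ys * (normSq X : ℂ)) * (d : ℂ))
    (e_e_d : e = dt P.ns X)
    (e_f_d : f = P.fs + e * r)
    (e_f_v : v49 = f)
    (e_U_d : U = P.DV X * (d : ℂ) + T * (r : ℂ) - P.V0 / (P.fs : ℂ) * ((d * e : ℝ) : ℂ))
    (e_y_d : y = P.ys + X * (r : ℂ))
    (e_k_d : k = dt y P.ns)
    (e_fv_d : fv = P.fv y)
    (e_fv_re : v80 = fv.re)
    (e_fv_im : v84 = fv.im)
    (e_M_d : M = P.M X)
    (e_iM_d : iM = I * M)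
    (e_nM_d : nM = normSq M)
    (e_As_d : As = VAr P.cs r X)
    (e_Ax_d : Ax = VAxr P.c r X)
    (e_Ax_re : v127 = Ax.re)
    (e_Ax_im : v139 = Ax.im)
    (h140 : v140 = P.c.b11)
    (h142 : v142 = P.c.b12)
    (h144 : v144 = P.c.q1)
    (h146 : v146 = P.c.q2)
    (h149 : v149 = P.c.q3)
    (h153 : v153 = P.c.b21)
    (h155 : v155 = P.c.b22)
    (h157 : v157 = P.c.q4)
    (h159 : v159 = P.c.q5)
    (h162 : v162 = P.c.q6)
    (e_B_d : B = VBr P.c r X)
    (e_Bs_d : Bs = VBr P.cs r X)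
    (e_DB_d : DB = VBd P.c (X * (r : ℂ)) U)
    (e_sax_d : sax = dt P.sa X)
    (h221 : v221 = P.a.re)
    (h222 : v222 = P.a.im)
    (e_Xv_d : Xv = -dt P.a T - (e * sax + f * As) * d - dt Ax U + dt B iM * d)
    (e_L_d : L = P.L X)
    (e_aV_d : aV = dt Ax (P.V0 / (P.fs : ℂ)))
    (e_ZB_d : ZB = ((dt B (-(I * y)) : ℝ) : ℂ) * P.ns + ((dt B (I * P.vs - P.bs) : ℝ) : ℂ) * fv - (k : ℂ) * (I * B))
    (e_H_d : H = L - ((sax + As * r - aV : ℝ) : ℂ) * fv - (Bs + 2 * I * B) * (f : ℂ) - ZB)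
    (h287 : v287 = (6 : ℝ))
    (e_E12_d : E12 = 12 * (f * Xv) - nM * d)
    (e_E12_v : v291 = E12)
    (h292 : v292 = v49 * v49)
    (e_ZM_d : ZM = ((dt iM (-(I * y)) : ℝ) : ℂ) * P.ns + ((dt iM (I * P.vs - P.bs) : ℝ) : ℂ) * fv - (k : ℂ) * (I * iM))
    (e_G6_d : G6 = ZM * ((d * f : ℝ) : ℂ) + fv * ((r * (nM * d - 6 * (f * Xv)) : ℝ) : ℂ) + (H * (d : ℂ) - DB) * ((6 * f ^ 2 : ℝ) : ℂ))
    (e_G6_re : v325 = G6.re)
    (e_G6_im : v326 = G6.im)
    (e_w_d : w = 1 - normSq y)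
    (e_D_d : D = 1 - 2 * dt (uu 2) y)
    (e_D_v : v338 = D)
    (e_sv_d : sv = 2 * s3 * w ^ 2)
    (e_sv_v : v341 = sv)
    (e_lr_d : lr = (n.lam : ℂ) * e3 - X * (r : ℂ))
    (e_lr_re : v346 = lr.re)
    (e_lr_im : v347 = -lr.im)
    (e_Aq_d : Aq = VAq n.c1 X)
    (e_A1_d : A1 = VAxr n.c1 r X)
    (e_pha_d : pha = n.lam * dt Aq e3 - dt A1 X)
    (e_pha_v : v379 = pha)
    (h380 : v380 = v5 * v346)
    (h381 : v381 = v2 * v380)
    (h382 : v382 = v5 * v347)
    (h383 : v383 = v346 - v382)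
    (h384 : v384 = v2 * v347)
    (e_B1_d : B1 = VBq n.c1 X lr)
    (e_B0_d : B0 = VBd n.c1 0 X)
    (e_gma_d : gma = B1 - B0)
    (e_gma_re : v409 = gma.re)
    (e_gma_im : v410 = gma.im)
    (e_Ad_d : Ad = VAxr n.dc r X)
    (e_Ad_re : v423 = Ad.re)
    (e_Ad_im : v435 = Ad.im)
    (h436 : v436 = n.da.re)
    (h437 : v437 = n.da.im)
    (h438 : v438 = n.dy.re)
    (h439 : v439 = n.dy.im)
    (h : TrE (realAlg (fun i => get 0 (P.syl n.l) i) (r) (s)) (pNb.drop 440) [v439, v438, v437, v436, v435, v434, v433, v432, v431, v430, v429, v428, v427, v426, v425, v424, v423, v422, v421, v420, v419, v418, v417, v416, v415, v414, v413, v412, v411, v410, v409, v408, v407, v406, v405, v404, v403, v402, v401, v400, v399, v398, v397, v396, v395, v394, v393, v392, v391, v390, v389, v388, v387, v386, v385, v384, v383, v382, v381, v380, v379, v378, v377, v376, v375, v374, v373, v372, v371, v370, v369, v368, v367, v366, v365, v364, v363,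 v362, v361, v360, v359, v358, v357, v356, v355, v354, v353, v352, v351, v350, v349, v348, v347, v346, v345, v344, v343, v342, v341, v340, v339, v338, v337, v336, v335, v334, v333, v332, v331, v330, v329, v328, v327, v326, v325, v324, v323, v322, v321, v320, v319, v318, v317, v316, v315, v314, v313, v312, v311, v310, v309, v308, v307, v306, v305, v304, v303, v302, v301, v300, v299, v298, v297, v296, v295, v294, v293, v292, v291, v290, v289, v288, v287, v286, v285, v284, v283, v282, v281, v280, v279, v278, v277, v276, v275, v274, v273, v272, v271, v270, v269, v268, v267, v266, v265, v264, v263, v262, v261, v260, v259, v258, v257, v256, v255, v254, v253, v252, v251, v250, v249, v248, v247, v246, v245, v244, v243, v242, v241, v240, v239, v238, v237, v236, v235, v234, v233, v232, v231, v230, v229, v228, v227, v226, v225, v224, v223, v222, v221, v220, v219, v218, v217, v216, v215, v214, v213, v212, v211, v210, v209, v208,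 v207, v206, v205, v204, v203, v202, v201, v200, v199, v198, v197, v196, v195, v194, v193, v192, v191, v190, v189, v188, v187, v186, v185, v184, v183, v182, v181, v180, v179, v178, v177, v176, v175, v174, v173, v172, v171, v170, v169, v168, v167, v166, v165, v164, v163, v162, v161, v160, v159, v158, v157, v156, v155, v154, v153, v152, v151, v150, v149, v148, v147, v146, v145, v144, v143, v142, v141, v140, v139, v138, v137, v136, v135, v134, v133, v132, v131, v130, v129, v128, v127, v126, v125, v124, v123, v122, v121, v120, v119, v118, v117, v116, v115, v114, v113, v112, v111, v110, v109, v108, v107, v106, v105, v104, v103, v102, v101, v100, v99, v98, v97, v96, v95, v94, v93, v92, v91, v90, v89, v88, v87, v86, v85, v84, v83, v82, v81, v80, v79, v78, v77, v76, v75, v74, v73, v72, v71, v70, v69, v68, v67, v66, v65, v64, v63, v62, v61, v60, v59, v58, v57, v56, v55, v54, v53, v52, v51, v50, v49, v48, v47, v46, v45, v44, v43,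 v42, v41, v40, v39, v38, v37, v36, v35, v34, v33, v32, v31, v30, v29, v28, v27, v26, v25, v24, v23, v22, v21, v20, v19, v18, v17, v16, v15, v14, v13, v12, v11, v10, v9, v8, v7, v6, v5, v4, v3, v2, v1, v0] (fun st => run (realAlg (fun i => get 0 (P.syl n.l) i) (r) (s)) pNb [] = st)) :
    pNb_goal P n r s := by
  obtain ⟨v440, h440, h⟩ := h
  change v440 = v0 * v423 at h440
  obtain ⟨v441, h441, h⟩ := h
  change v441 = v0 * v435 at h441
  obtain ⟨v442, h442, h⟩ := h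
  change v442 = v436 + v440 at h442
  obtain ⟨v443, h443, h⟩ := h
  change v443 = v437 + v441 at h443
  obtain ⟨v444, h444, h⟩ := h
  change v444 = v346 * v442 at h444
  obtain ⟨v445, h445, h⟩ := h
  change v445 = v347 * v443 at h445
  obtain ⟨v446, h446, h⟩ := h
  change v446 = v444 - v445 at h446
  obtain ⟨v447, h447, h⟩ := h
  change v447 = v0 * v127 at h447
  obtain ⟨v448, h448, h⟩ := h
  change v448 = v0 * v139 at h448
  obtain ⟨v449, h449, h⟩ := h
  change v449 = v221 + v447 at h449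
  obtain ⟨v450, h450, h⟩ := h
  change v450 = v222 + v448 at h450
  obtain ⟨v451, h451, h⟩ := h
  change v451 = v438 * v449 at h451
  obtain ⟨v452, h452, h⟩ := h
  change v452 = v439 * v450 at h452
  obtain ⟨v453, h453, h⟩ := h
  change v453 = v451 + v452 at h453
  obtain ⟨v454, h454, h⟩ := h
  change v454 = v446 - v453 at h454
  obtain ⟨phb, e_phb_d⟩ : ∃ q : ℝ, q = dt (n.da + Ad * (r : ℂ)) lr - dt (P.a + Ax * (r : ℂ)) n.dy := ⟨_, rfl⟩
  have e_phb_v : v454 = phb := by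
    rw [e_phb_d]
    simp only [h454, h453, h452, h451, h450, h449, h448, h447, h446, h445, h444, h443, h442, h441, h440, h439, h438, h437, h436, h222, h221, h0, e_Ax_im, e_Ax_re, e_Ad_im, e_lr_im, e_Ad_re, e_lr_re, mul_re, mul_im, add_re, add_im, sub_re, sub_im, neg_re, neg_im, I_re, I_im, ofReal_re,
      ofReal_im, one_re, one_im, zero_re, zero_im, dt, normSq_apply, re_ofNat, im_ofNat, conj_re, conj_im]
    try ring
  obtain ⟨v455, h455, h⟩ := h
  change v455 = n.dc.b11 at h455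
  obtain ⟨v456, h456, h⟩ := h
  change v456 = v346 * v455 at h456
  obtain ⟨v457, h457, h⟩ := h
  change v457 = n.dc.b12 at h457
  obtain ⟨v458, h458, h⟩ := h
  change v458 = v347 * v457 at h458
  obtain ⟨v459, h459, h⟩ := h
  change v459 = v456 - v458 at h459
  obtain ⟨v460, h460, h⟩ := h
  change v460 = n.dc.q1 at h460
  obtain ⟨v461, h461, h⟩ := h
  change v461 = v381 * v460 at h461
  obtain ⟨v462, h462, h⟩ := h
  change v462 = n.dc.q2 at h462
  obtain ⟨v463, h463, h⟩ := h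
  change v463 = v383 * v462 at h463
  obtain ⟨v464, h464, h⟩ := h
  change v464 = v461 + v463 at h464
  obtain ⟨v465, h465, h⟩ := h
  change v465 = n.dc.q3 at h465
  obtain ⟨v466, h466, h⟩ := h
  change v466 = v384 * v465 at h466
  obtain ⟨v467, h467, h⟩ := h
  change v467 = v464 - v466 at h467
  obtain ⟨v468, h468, h⟩ := h
  change v468 = v0 * v467 at h468
  obtain ⟨v469, h469, h⟩ := h
  change v469 = v459 + v468 at h469
  obtain ⟨v470, h470, h⟩ := h
  change v470 = n.dc.b21 at h470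
  obtain ⟨v471, h471, h⟩ := h
  change v471 = v346 * v470 at h471
  obtain ⟨v472, h472, h⟩ := h
  change v472 = n.dc.b22 at h472
  obtain ⟨v473, h473, h⟩ := h
  change v473 = v347 * v472 at h473
  obtain ⟨v474, h474, h⟩ := h
  change v474 = v471 - v473 at h474
  obtain ⟨v475, h475, h⟩ := h
  change v475 = n.dc.q4 at h475
  obtain ⟨v476, h476, h⟩ := h
  change v476 = v381 * v475 at h476
  obtain ⟨v477, h477, h⟩ := h
  change v477 = n.dc.q5 at h477
  obtain ⟨v478, h478, h⟩ := h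
  change v478 = v383 * v477 at h478
  obtain ⟨v479, h479, h⟩ := h
  change v479 = v476 + v478 at h479
  exact pNb_c12 P n r s h0 h2 h4 e_X_d e_X_re e_X_im e_d_d e_d_v h10 h11 e_yx_d e_S_d e_T_d e_e_d e_f_d e_f_v e_U_d e_y_d e_k_d e_fv_d e_fv_re e_fv_im e_M_d e_iM_d e_nM_d e_As_d e_Ax_d h140 h142 h144 h146 h149 h153 h155 h157 h159 h162 e_B_d e_Bs_d e_DB_d e_sax_d e_Xv_d e_L_d e_aV_d e_ZB_d e_H_d h287 e_E12_d e_E12_v h292 e_ZM_d e_G6_d e_G6_re e_G6_im e_w_d e_D_d e_D_v e_sv_d e_sv_v e_lr_d e_lr_re e_lr_im e_Aq_d e_A1_d e_pha_d e_pha_v h380 h381 h382 h383 h384 e_B1_d e_B0_d e_gma_d e_gma_re e_gma_im e_Ad_d h438 h439 e_phb_d e_phb_v h455 h456 h457 h458 h459 h460 h461 h462 h463 h464 h465 h466 h467 h468 h469 h470 h471 h472 h473 h474 h475 h476 h477 h478 h479 h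

theorem pNb_c10 (P : Pt) (n : Nd) (r s : ℝ) {v0 v1 v2 v3 v4 v5 : ℝ} {X : ℂ} {v6 v7 v8 v9 d v10 v11 v12 v13 v14 v15 yx v16 v17 v18 v19 v20 v21 v22 v23 v24 v25 v26 v27 v28 v29 v30 v31 S v32 v33 v34 v35 v36 v37 v38 v39 v40 v41 v42 : ℝ} {T : ℂ} {v43 v44 v45 v46 e v47 v48 v49 f v50 v51 v52 v53 v54 v55 v56 v57 v58 v59 v60 v61 v62 v63 v64 v65 v66 v67 v68 v69 v70 : ℝ} {U : ℂ} {v71 v72 : ℝ} {y : ℂ} {v73 v74 v75 k v76 v77 v78 v79 v80 v81 v82 v83 v84 : ℝ} {fv : ℂ} {v85 v86 v87 v88 v89 v90 v91 v92 : ℝ} {M iM : ℂ} {v93 v94 v95 nM v96 v97 v98 v99 v100 v101 v102 v103 v104 v105 v106 v107 v108 v109 v110 v111 v112 v113 v114 As v115 v116 v117 v118 v119 v120 v121 v122 v123 v124 v125 v126 v127 v128 v129 v130 v131 v132 v133 v134 v135 v136 v137 v138 v139 : ℝ} {Ax : ℂ} {v140 v141 v142 v143 v144 v145 v146 v147 v148 v149 v150 v151 v152 v153 v154 v155 v156 v157 v158 v159 v160 v161 v162 v163 v164 v165 : ℝ} {B : ℂ} {v166 v167 v168 v169 v170 v171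 v172 v173 v174 v175 v176 v177 v178 v179 v180 v181 v182 v183 v184 v185 v186 v187 v188 v189 v190 v191 : ℝ} {Bs : ℂ} {v192 v193 v194 v195 v196 v197 v198 v199 v200 v201 v202 v203 v204 v205 v206 v207 v208 v209 v210 v211 v212 v213 v214 v215 v216 : ℝ} {DB : ℂ} {v217 v218 v219 v220 sax v221 v222 v223 v224 v225 v226 v227 v228 v229 v230 v231 v232 v233 v234 v235 v236 v237 v238 v239 Xv v240 v241 v242 v243 v244 v245 v246 v247 : ℝ} {L : ℂ} {v248 v249 v250 aV v251 v252 v253 v254 v255 v256 v257 v258 v259 v260 v261 v262 v263 v264 v265 v266 v267 v268 : ℝ} {ZB : ℂ} {v269 v270 v271 v272 v273 v274 v275 v276 v277 v278 v279 v280 v281 v282 v283 v284 v285 : ℝ} {H : ℂ} {v286 v287 v288 v289 v290 v291 E12 v292 v293 v294 v295 v296 v297 v298 v299 v300 v301 v302 v303 v304 v305 v306 v307 v308 : ℝ} {ZM : ℂ} {v309 v310 v311 v312 v313 v314 v315 v316 v317 v318 v319 v320 v321 v322 v323 v324 v325 v326 : ℝ} {G6 : ℂ} {v327 v328 v329 v330 v331 v332 v333 w v334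 v335 v336 v337 v338 D v339 v340 v341 sv v342 v343 v344 v345 v346 v347 : ℝ} {lr : ℂ} {v348 v349 v350 v351 v352 v353 v354 v355 v356 v357 v358 v359 v360 v361 : ℝ} {Aq : ℂ} {v362 v363 v364 v365 v366 v367 v368 v369 v370 v371 v372 : ℝ} {A1 : ℂ} {v373 v374 v375 v376 v377 v378 v379 pha v380 v381 v382 v383 v384 v385 v386 v387 v388 v389 v390 v391 v392 v393 v394 v395 v396 v397 v398 v399 : ℝ}
    (h0 : v0 = r)
    (h2 : v2 = (2 : ℝ))
    (h4 : v4 = (1 : ℝ))
    (e_X_d : X = (⟨2 * s - 1, 1⟩ : ℂ))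
    (e_X_re : v5 = X.re)
    (e_X_im : X.im = (1 : ℝ))
    (e_d_d : d = 1 - 2 * P.ys.re - 2 * (r * X.re))
    (e_d_v : v9 = d)
    (h10 : v10 = v5 * v5)
    (h11 : v11 = v10 + v4)
    (e_yx_d : yx = dt P.ys X)
    (e_S_d : S = 4 * ((P.ys.re - (1 - normSq P.ys) / (1 - 2 * P.ys.re)) * X.re + P.ys.im * X.im) ^ 2 - 2 * (1 - normSq P.ys) * normSq X + (4 * yx + normSq X * r) * normSq X * r)
    (e_T_d : T = I * ((2 * S : ℝ) : ℂ) + I * (X * ((2 * yx + normSq X * r : ℝ) : ℂ) + P.ys * (normSq X : ℂ)) * (d : ℂ))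
    (e_e_d : e = dt P.ns X)
    (e_f_d : f = P.fs + e * r)
    (e_f_v : v49 = f)
    (e_U_d : U = P.DV X * (d : ℂ) + T * (r : ℂ) - P.V0 / (P.fs : ℂ) * ((d * e : ℝ) : ℂ))
    (e_y_d : y = P.ys + X * (r : ℂ))
    (e_k_d : k = dt y P.ns)
    (e_fv_d : fv = P.fv y)
    (e_fv_re : v80 = fv.re)
    (e_fv_im : v84 = fv.im)
    (e_M_d : M = P.M X)
    (e_iM_d : iM = I * M)
    (e_nM_d : nM = normSq M)
    (e_As_d : As = VAr P.cs r X)
    (e_Ax_d : Ax = VAxr P.c r X)
    (e_Ax_re : v127 = Ax.re)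
    (e_Ax_im : v139 = Ax.im)
    (h140 : v140 = P.c.b11)
    (h142 : v142 = P.c.b12)
    (h144 : v144 = P.c.q1)
    (h146 : v146 = P.c.q2)
    (h149 : v149 = P.c.q3)
    (h153 : v153 = P.c.b21)
    (h155 : v155 = P.c.b22)
    (h157 : v157 = P.c.q4)
    (h159 : v159 = P.c.q5)
    (h162 : v162 = P.c.q6)
    (e_B_d : B = VBr P.c r X)
    (e_Bs_d : Bs = VBr P.cs r X)
    (e_DB_d : DB = VBd P.c (X * (r : ℂ)) U)
    (e_sax_d : sax = dt P.sa X)
    (h221 : v221 = P.a.re)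
    (h222 : v222 = P.a.im)
    (e_Xv_d : Xv = -dt P.a T - (e * sax + f * As) * d - dt Ax U + dt B iM * d)
    (e_L_d : L = P.L X)
    (e_aV_d : aV = dt Ax (P.V0 / (P.fs : ℂ)))
    (e_ZB_d : ZB = ((dt B (-(I * y)) : ℝ) : ℂ) * P.ns + ((dt B (I * P.vs - P.bs) : ℝ) : ℂ) * fv - (k : ℂ) * (I * B))
    (e_H_d : H = L - ((sax + As * r - aV : ℝ) : ℂ) * fv - (Bs + 2 * I * B) * (f : ℂ) - ZB)
    (h287 : v287 = (6 : ℝ))
    (e_E12_d : E12 = 12 * (f * Xv) - nM * d)
    (e_E12_v : v291 = E12)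
    (h292 : v292 = v49 * v49)
    (e_ZM_d : ZM = ((dt iM (-(I * y)) : ℝ) : ℂ) * P.ns + ((dt iM (I * P.vs - P.bs) : ℝ) : ℂ) * fv - (k : ℂ) * (I * iM))
    (e_G6_d : G6 = ZM * ((d * f : ℝ) : ℂ) + fv * ((r * (nM * d - 6 * (f * Xv)) : ℝ) : ℂ) + (H * (d : ℂ) - DB) * ((6 * f ^ 2 : ℝ) : ℂ))
    (e_G6_re : v325 = G6.re)
    (e_G6_im : v326 = G6.im)
    (e_w_d : w = 1 - normSq y)
    (e_D_d : D = 1 - 2 * dt (uu 2) y)
    (e_D_v : v338 = D)
    (e_sv_d : sv = 2 * s3 * w ^ 2)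
    (e_sv_v : v341 = sv)
    (e_lr_d : lr = (n.lam : ℂ) * e3 - X * (r : ℂ))
    (e_lr_re : v346 = lr.re)
    (e_lr_im : v347 = -lr.im)
    (e_Aq_d : Aq = VAq n.c1 X)
    (e_A1_d : A1 = VAxr n.c1 r X)
    (e_pha_d : pha = n.lam * dt Aq e3 - dt A1 X)
    (e_pha_v : v379 = pha)
    (h380 : v380 = v5 * v346)
    (h381 : v381 = v2 * v380)
    (h382 : v382 = v5 * v347)
    (h383 : v383 = v346 - v382)
    (h384 : v384 = v2 * v347)
    (h385 : v385 = n.c1.q1)
    (h386 : v386 = v381 * v385)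
    (h387 : v387 = n.c1.q2)
    (h388 : v388 = v383 * v387)
    (h389 : v389 = v386 + v388)
    (h390 : v390 = n.c1.q3)
    (h391 : v391 = v384 * v390)
    (h392 : v392 = v389 - v391)
    (h393 : v393 = n.c1.q4)
    (h394 : v394 = v381 * v393)
    (h395 : v395 = n.c1.q5)
    (h396 : v396 = v383 * v395)
    (h397 : v397 = v394 + v396)
    (h398 : v398 = n.c1.q6)
    (h399 : v399 = v384 * v398)
    (h : TrE (realAlg (fun i => get 0 (P.syl n.l) i) (r) (s)) (pNb.drop 400) [v399, v398, v397, v396, v395, v394, v393, v392, v391, v390, v389, v388, v387, v386, v385, v384, v383, v382, v381, v380, v379, v378, v377, v376, v375, v374, v373, v372, v371, v370, v369, v368, v367, v366, v365, v364, v363, v362, v361, v360, v359, v358, v357, v356, v355, v354, v353, v352, v351, v350, v349, v348, v347, v346, v345, v344, v343, v342, v341, v340, v339, v338, v337, v336, v335, v334, v333, v332, v331, v330, v329, v328, v327, v326, v325, v324,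 v323, v322, v321, v320, v319, v318, v317, v316, v315, v314, v313, v312, v311, v310, v309, v308, v307, v306, v305, v304, v303, v302, v301, v300, v299, v298, v297, v296, v295, v294, v293, v292, v291, v290, v289, v288, v287, v286, v285, v284, v283, v282, v281, v280, v279, v278, v277, v276, v275, v274, v273, v272, v271, v270, v269, v268, v267, v266, v265, v264, v263, v262, v261, v260, v259, v258, v257, v256, v255, v254, v253, v252, v251, v250, v249, v248, v247, v246, v245, v244, v243, v242, v241, v240, v239, v238, v237, v236, v235, v234, v233, v232, v231, v230, v229, v228, v227, v226, v225, v224, v223, v222, v221, v220, v219, v218, v217, v216, v215, v214, v213, v212, v211, v210, v209, v208, v207, v206, v205, v204, v203, v202, v201, v200, v199, v198, v197, v196, v195, v194, v193, v192, v191, v190, v189, v188, v187, v186, v185, v184, v183, v182, v181, v180, v179, v178, v177, v176, v175, v174, v173, v172, v171, v170, v169,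 v168, v167, v166, v165, v164, v163, v162, v161, v160, v159, v158, v157, v156, v155, v154, v153, v152, v151, v150, v149, v148, v147, v146, v145, v144, v143, v142, v141, v140, v139, v138, v137, v136, v135, v134, v133, v132, v131, v130, v129, v128, v127, v126, v125, v124, v123, v122, v121, v120, v119, v118, v117, v116, v115, v114, v113, v112, v111, v110, v109, v108, v107, v106, v105, v104, v103, v102, v101, v100, v99, v98, v97, v96, v95, v94, v93, v92, v91, v90, v89, v88, v87, v86, v85, v84, v83, v82, v81, v80, v79, v78, v77, v76, v75, v74, v73, v72, v71, v70, v69, v68, v67, v66, v65, v64, v63, v62, v61, v60, v59, v58, v57, v56, v55, v54, v53, v52, v51, v50, v49, v48, v47, v46, v45, v44, v43, v42, v41, v40, v39, v38, v37, v36, v35, v34, v33, v32, v31, v30, v29, v28, v27, v26, v25, v24, v23, v22, v21, v20, v19, v18, v17, v16, v15, v14, v13, v12, v11, v10, v9, v8, v7, v6, v5, v4, v3, v2, v1, v0] (fun st => run (realAlg (fun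 i => get 0 (P.syl n.l) i) (r) (s)) pNb [] = st)) :
    pNb_goal P n r s := by
  obtain ⟨v400, h400, h⟩ := h
  change v400 = v397 - v399 at h400
  obtain ⟨B1, e_B1_d⟩ : ∃ q : ℂ, q = VBq n.c1 X lr := ⟨_, rfl⟩
  have e_B1_re : v392 = B1.re := by
    rw [e_B1_d]
    simp only [VBq_re, VBq_im, h392, h391, h390, h389, h388, h387, h386, h385, h384, h383, h382, h381, h380, h2, e_lr_im, e_X_re, e_lr_re, e_X_im, mul_re, mul_im, add_re, add_im, sub_re, sub_im, neg_re, neg_im, I_re, I_im, ofReal_re,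
      ofReal_im, one_re, one_im, zero_re, zero_im, dt, normSq_apply, re_ofNat, im_ofNat, conj_re, conj_im]
    try ring
  have e_B1_im : v400 = B1.im := by
    rw [e_B1_d]
    simp only [VBq_re, VBq_im, h400, h399, h398, h397, h396, h395, h394, h393, h384, h383, h382, h381, h380, h2, e_lr_im, e_X_re, e_lr_re, e_X_im, mul_re, mul_im, add_re, add_im, sub_re, sub_im, neg_re, neg_im, I_re, I_im, ofReal_re,
      ofReal_im, one_re, one_im, zero_re, zero_im, dt, normSq_apply, re_ofNat, im_ofNat, conj_re, conj_im]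
    try ring
  obtain ⟨v401, h401, h⟩ := h
  change v401 = n.c1.b11 at h401
  obtain ⟨v402, h402, h⟩ := h
  change v402 = v5 * v401 at h402
  obtain ⟨v403, h403, h⟩ := h
  change v403 = n.c1.b12 at h403
  obtain ⟨v404, h404, h⟩ := h
  change v404 = v402 + v403 at h404
  obtain ⟨v405, h405, h⟩ := h
  change v405 = n.c1.b21 at h405
  obtain ⟨v406, h406, h⟩ := h
  change v406 = v5 * v405 at h406
  obtain ⟨v407, h407, h⟩ := h
  change v407 = n.c1.b22 at h407
  obtain ⟨v408, h408, h⟩ := h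
  change v408 = v406 + v407 at h408
  obtain ⟨B0, e_B0_d⟩ : ∃ q : ℂ, q = VBd n.c1 0 X := ⟨_, rfl⟩
  have e_B0_re : v404 = B0.re := by
    rw [e_B0_d]
    simp only [VBz_re, VBz_im, h404, h403, h402, h401, e_X_re, e_X_im, mul_re, mul_im, add_re, add_im, sub_re, sub_im, neg_re, neg_im, I_re, I_im, ofReal_re,
      ofReal_im, one_re, one_im, zero_re, zero_im, dt, normSq_apply, re_ofNat, im_ofNat, conj_re, conj_im]
    try ring
  have e_B0_im : v408 = B0.im := by
    rw [e_B0_d]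
    simp only [VBz_re, VBz_im, h408, h407, h406, h405, e_X_re, e_X_im, mul_re, mul_im, add_re, add_im, sub_re, sub_im, neg_re, neg_im, I_re, I_im, ofReal_re,
      ofReal_im, one_re, one_im, zero_re, zero_im, dt, normSq_apply, re_ofNat, im_ofNat, conj_re, conj_im]
    try ring
  obtain ⟨v409, h409, h⟩ := h
  change v409 = v392 - v404 at h409
  obtain ⟨v410, h410, h⟩ := h
  change v410 = v400 - v408 at h410
  obtain ⟨gma, e_gma_d⟩ : ∃ q : ℂ, q = B1 - B0 := ⟨_, rfl⟩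
  have e_gma_re : v409 = gma.re := by
    rw [e_gma_d]
    simp only [h409, e_B0_re, e_B1_re, mul_re, mul_im, add_re, add_im, sub_re, sub_im, neg_re, neg_im, I_re, I_im, ofReal_re,
      ofReal_im, one_re, one_im, zero_re, zero_im, dt, normSq_apply, re_ofNat, im_ofNat, conj_re, conj_im]
    try ring
  have e_gma_im : v410 = gma.im := by
    rw [e_gma_d]
    simp only [h410, e_B0_im, e_B1_im, mul_re, mul_im, add_re, add_im, sub_re, sub_im, neg_re, neg_im, I_re, I_im, ofReal_re,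
      ofReal_im, one_re, one_im, zero_re, zero_im, dt, normSq_apply, re_ofNat, im_ofNat, conj_re, conj_im]
    try ring
  obtain ⟨v411, h411, h⟩ := h
  change v411 = 2 * n.dc.a20 at h411
  obtain ⟨v412, h412, h⟩ := h
  change v412 = v5 * v411 at h412
  obtain ⟨v413, h413, h⟩ := h
  change v413 = n.dc.a11 at h413
  obtain ⟨v414, h414, h⟩ := h
  change v414 = v412 + v413 at h414
  obtain ⟨v415, h415, h⟩ := h
  change v415 = 3 * n.dc.a30 at h415
  obtain ⟨v416, h416, h⟩ := h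
  change v416 = v10 * v415 at h416
  obtain ⟨v417, h417, h⟩ := h
  change v417 = 2 * n.dc.a21 at h417
  obtain ⟨v418, h418, h⟩ := h
  change v418 = v5 * v417 at h418
  obtain ⟨v419, h419, h⟩ := h
  change v419 = v416 + v418 at h419
  obtain ⟨v420, h420, h⟩ := h
  change v420 = n.dc.a12 at h420
  obtain ⟨v421, h421, h⟩ := h
  change v421 = v419 + v420 at h421
  obtain ⟨v422, h422, h⟩ := h
  change v422 = v0 * v421 at h422
  obtain ⟨v423, h423, h⟩ := h
  change v423 = v414 + v422 at h423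
  obtain ⟨v424, h424, h⟩ := h
  change v424 = v5 * v413 at h424
  obtain ⟨v425, h425, h⟩ := h
  change v425 = 2 * n.dc.a02 at h425
  obtain ⟨v426, h426, h⟩ := h
  change v426 = v424 + v425 at h426
  obtain ⟨v427, h427, h⟩ := h
  change v427 = n.dc.a21 at h427
  obtain ⟨v428, h428, h⟩ := h
  change v428 = v10 * v427 at h428
  obtain ⟨v429, h429, h⟩ := h
  change v429 = 2 * n.dc.a12 at h429
  obtain ⟨v430, h430, h⟩ := h
  change v430 = v5 * v429 at h430
  obtain ⟨v431, h431, h⟩ := h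
  change v431 = v428 + v430 at h431
  obtain ⟨v432, h432, h⟩ := h
  change v432 = 3 * n.dc.a03 at h432
  obtain ⟨v433, h433, h⟩ := h
  change v433 = v431 + v432 at h433
  obtain ⟨v434, h434, h⟩ := h
  change v434 = v0 * v433 at h434
  obtain ⟨v435, h435, h⟩ := h
  change v435 = v426 + v434 at h435
  obtain ⟨Ad, e_Ad_d⟩ : ∃ q : ℂ, q = VAxr n.dc r X := ⟨_, rfl⟩
  have e_Ad_re : v423 = Ad.re := by
    rw [e_Ad_d]
    simp only [VAxr_re, VAxr_im, h423, h422, h421, h420, h419, h418, h417, h416, h415, h414, h413, h412, h411, h10, h0, e_X_re, e_X_im, mul_re, mul_im, add_re, add_im, sub_re, sub_im, neg_re, neg_im, I_re, I_im, ofReal_re,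
      ofReal_im, one_re, one_im, zero_re, zero_im, dt, normSq_apply, re_ofNat, im_ofNat, conj_re, conj_im]
    try ring
  have e_Ad_im : v435 = Ad.im := by
    rw [e_Ad_d]
    simp only [VAxr_re, VAxr_im, h435, h434, h433, h432, h431, h430, h429, h428, h427, h426, h425, h424, h413, h10, h0, e_X_re, e_X_im, mul_re, mul_im, add_re, add_im, sub_re, sub_im, neg_re, neg_im, I_re, I_im, ofReal_re,
      ofReal_im, one_re, one_im, zero_re, zero_im, dt, normSq_apply, re_ofNat, im_ofNat, conj_re, conj_im]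
    try ring
  obtain ⟨v436, h436, h⟩ := h
  change v436 = n.da.re at h436
  obtain ⟨v437, h437, h⟩ := h
  change v437 = n.da.im at h437
  obtain ⟨v438, h438, h⟩ := h
  change v438 = n.dy.re at h438
  obtain ⟨v439, h439, h⟩ := h
  change v439 = n.dy.im at h439
  exact pNb_c11 P n r s h0 h2 h4 e_X_d e_X_re e_X_im e_d_d e_d_v h10 h11 e_yx_d e_S_d e_T_d e_e_d e_f_d e_f_v e_U_d e_y_d e_k_d e_fv_d e_fv_re e_fv_im e_M_d e_iM_d e_nM_d e_As_d e_Ax_d e_Ax_re e_Ax_im h140 h142 h144 h146 h149 h153 h155 h157 h159 h162 e_B_d e_Bs_d e_DB_d e_sax_d h221 h222 e_Xv_d e_L_d e_aV_d e_ZB_d e_H_d h287 e_E12_d e_E12_v h292 e_ZM_d e_G6_d e_G6_re e_G6_im e_w_d e_D_d e_D_v e_sv_d e_sv_v e_lr_d e_lr_re e_lr_im e_Aq_d e_A1_d e_pha_d e_pha_v h380 h381 h382 h383 h384 e_B1_d e_B0_d e_gma_d e_gma_re e_gma_im e_Ad_d e_Ad_re e_Ad_im h436 h437 h438 h439 h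

theorem pNb_c9 (P : Pt) (n : Nd) (r s : ℝ) {v0 v1 v2 v3 v4 v5 : ℝ} {X : ℂ} {v6 v7 v8 v9 d v10 v11 v12 v13 v14 v15 yx v16 v17 v18 v19 v20 v21 v22 v23 v24 v25 v26 v27 v28 v29 v30 v31 S v32 v33 v34 v35 v36 v37 v38 v39 v40 v41 v42 : ℝ} {T : ℂ} {v43 v44 v45 v46 e v47 v48 v49 f v50 v51 v52 v53 v54 v55 v56 v57 v58 v59 v60 v61 v62 v63 v64 v65 v66 v67 v68 v69 v70 : ℝ} {U : ℂ} {v71 v72 : ℝ} {y : ℂ} {v73 v74 v75 k v76 v77 v78 v79 v80 v81 v82 v83 v84 : ℝ} {fv : ℂ} {v85 v86 v87 v88 v89 v90 v91 v92 : ℝ} {M iM : ℂ} {v93 v94 v95 nM v96 v97 v98 v99 v100 v101 v102 v103 v104 v105 v106 v107 v108 v109 v110 v111 v112 v113 v114 As v115 v116 v117 v118 v119 v120 v121 v122 v123 v124 v125 v126 v127 v128 v129 v130 v131 v132 v133 v134 v135 v136 v137 v138 v139 : ℝ} {Ax : ℂ} {v140 v141 v142 v143 v144 v145 v146 v147 v148 v149 v150 v151 v152 v153 v154 v155 v156 v157 v158 v159 v160 v161 v162 v163 v164 v165 : ℝ} {B : ℂ} {v166 v167 v168 v169 v170 v171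 v172 v173 v174 v175 v176 v177 v178 v179 v180 v181 v182 v183 v184 v185 v186 v187 v188 v189 v190 v191 : ℝ} {Bs : ℂ} {v192 v193 v194 v195 v196 v197 v198 v199 v200 v201 v202 v203 v204 v205 v206 v207 v208 v209 v210 v211 v212 v213 v214 v215 v216 : ℝ} {DB : ℂ} {v217 v218 v219 v220 sax v221 v222 v223 v224 v225 v226 v227 v228 v229 v230 v231 v232 v233 v234 v235 v236 v237 v238 v239 Xv v240 v241 v242 v243 v244 v245 v246 v247 : ℝ} {L : ℂ} {v248 v249 v250 aV v251 v252 v253 v254 v255 v256 v257 v258 v259 v260 v261 v262 v263 v264 v265 v266 v267 v268 : ℝ} {ZB : ℂ} {v269 v270 v271 v272 v273 v274 v275 v276 v277 v278 v279 v280 v281 v282 v283 v284 v285 : ℝ} {H : ℂ} {v286 v287 v288 v289 v290 v291 E12 v292 v293 v294 v295 v296 v297 v298 v299 v300 v301 v302 v303 v304 v305 v306 v307 v308 : ℝ} {ZM : ℂ} {v309 v310 v311 v312 v313 v314 v315 v316 v317 v318 v319 v320 v321 v322 v323 v324 v325 v326 : ℝ} {G6 : ℂ} {v327 v328 v329 v330 v331 v332 v333 w v334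 v335 v336 v337 v338 D v339 v340 v341 sv v342 v343 v344 v345 v346 v347 : ℝ} {lr : ℂ} {v348 v349 v350 v351 v352 v353 v354 v355 v356 v357 v358 v359 : ℝ}
    (h0 : v0 = r)
    (h2 : v2 = (2 : ℝ))
    (h4 : v4 = (1 : ℝ))
    (e_X_d : X = (⟨2 * s - 1, 1⟩ : ℂ))
    (e_X_re : v5 = X.re)
    (e_X_im : X.im = (1 : ℝ))
    (e_d_d : d = 1 - 2 * P.ys.re - 2 * (r * X.re))
    (e_d_v : v9 = d)
    (h10 : v10 = v5 * v5)
    (h11 : v11 = v10 + v4)
    (e_yx_d : yx = dt P.ys X)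
    (e_S_d : S = 4 * ((P.ys.re - (1 - normSq P.ys) / (1 - 2 * P.ys.re)) * X.re + P.ys.im * X.im) ^ 2 - 2 * (1 - normSq P.ys) * normSq X + (4 * yx + normSq X * r) * normSq X * r)
    (e_T_d : T = I * ((2 * S : ℝ) : ℂ) + I * (X * ((2 * yx + normSq X * r : ℝ) : ℂ) + P.ys * (normSq X : ℂ)) * (d : ℂ))
    (e_e_d : e = dt P.ns X)
    (e_f_d : f = P.fs + e * r)
    (e_f_v : v49 = f)
    (e_U_d : U = P.DV X * (d : ℂ) + T * (r : ℂ) - P.V0 / (P.fs : ℂ) * ((d * e : ℝ) : ℂ))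
    (e_y_d : y = P.ys + X * (r : ℂ))
    (e_k_d : k = dt y P.ns)
    (e_fv_d : fv = P.fv y)
    (e_fv_re : v80 = fv.re)
    (e_fv_im : v84 = fv.im)
    (e_M_d : M = P.M X)
    (e_iM_d : iM = I * M)
    (e_nM_d : nM = normSq M)
    (e_As_d : As = VAr P.cs r X)
    (e_Ax_d : Ax = VAxr P.c r X)
    (e_Ax_re : v127 = Ax.re)
    (e_Ax_im : v139 = Ax.im)
    (h140 : v140 = P.c.b11)
    (h142 : v142 = P.c.b12)
    (h144 : v144 = P.c.q1)
    (h146 : v146 = P.c.q2)
    (h149 : v149 = P.c.q3)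
    (h153 : v153 = P.c.b21)
    (h155 : v155 = P.c.b22)
    (h157 : v157 = P.c.q4)
    (h159 : v159 = P.c.q5)
    (h162 : v162 = P.c.q6)
    (e_B_d : B = VBr P.c r X)
    (e_Bs_d : Bs = VBr P.cs r X)
    (e_DB_d : DB = VBd P.c (X * (r : ℂ)) U)
    (e_sax_d : sax = dt P.sa X)
    (h221 : v221 = P.a.re)
    (h222 : v222 = P.a.im)
    (e_Xv_d : Xv = -dt P.a T - (e * sax + f * As) * d - dt Ax U + dt B iM * d)
    (e_L_d : L = P.L X)
    (e_aV_d : aV = dt Ax (P.V0 / (P.fs : ℂ)))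
    (e_ZB_d : ZB = ((dt B (-(I * y)) : ℝ) : ℂ) * P.ns + ((dt B (I * P.vs - P.bs) : ℝ) : ℂ) * fv - (k : ℂ) * (I * B))
    (e_H_d : H = L - ((sax + As * r - aV : ℝ) : ℂ) * fv - (Bs + 2 * I * B) * (f : ℂ) - ZB)
    (h287 : v287 = (6 : ℝ))
    (e_E12_d : E12 = 12 * (f * Xv) - nM * d)
    (e_E12_v : v291 = E12)
    (h292 : v292 = v49 * v49)
    (e_ZM_d : ZM = ((dt iM (-(I * y)) : ℝ) : ℂ) * P.ns + ((dt iM (I * P.vs - P.bs) : ℝ) : ℂ) * fv - (k : ℂ) * (I * iM))
    (e_G6_d : G6 = ZM * ((d * f : ℝ) : ℂ) + fv * ((r * (nM * d - 6 * (f * Xv)) : ℝ) : ℂ) + (H * (d : ℂ) - DB) * ((6 * f ^ 2 : ℝ) : ℂ))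
    (e_G6_re : v325 = G6.re)
    (e_G6_im : v326 = G6.im)
    (h327 : v327 = s3)
    (h328 : v328 = (1 : ℝ) / 2 ^ 1)
    (h329 : v329 = v327 * v328)
    (e_w_d : w = 1 - normSq y)
    (e_D_d : D = 1 - 2 * dt (uu 2) y)
    (e_D_v : v338 = D)
    (e_sv_d : sv = 2 * s3 * w ^ 2)
    (e_sv_v : v341 = sv)
    (h342 : v342 = n.lam)
    (e_lr_d : lr = (n.lam : ℂ) * e3 - X * (r : ℂ))
    (e_lr_re : v346 = lr.re)
    (e_lr_im : v347 = -lr.im)
    (h348 : v348 = 3 * n.c1.a30)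
    (h349 : v349 = v10 * v348)
    (h350 : v350 = 2 * n.c1.a21)
    (h351 : v351 = v5 * v350)
    (h352 : v352 = v349 + v351)
    (h353 : v353 = n.c1.a12)
    (h354 : v354 = v352 + v353)
    (h355 : v355 = n.c1.a21)
    (h356 : v356 = v10 * v355)
    (h357 : v357 = 2 * n.c1.a12)
    (h358 : v358 = v5 * v357)
    (h359 : v359 = v356 + v358)
    (h : TrE (realAlg (fun i => get 0 (P.syl n.l) i) (r) (s)) (pNb.drop 360) [v359, v358, v357, v356, v355, v354, v353, v352, v351, v350, v349, v348, v347, v346, v345, v344, v343, v342, v341, v340, v339, v338, v337, v336, v335, v334, v333, v332, v331, v330, v329, v328, v327, v326, v325, v324, v323, v322, v321, v320, v319, v318, v317, v316, v315, v314, v313, v312, v311, v310, v309, v308, v307, v306, v305, v304, v303, v302, v301, v300, v299, v298, v297, v296, v295, v294, v293, v292, v291, v290, v289, v288, v287, v286, v285, v284, v283, v282, v281, v280, v279, v278, v277, v276, v275,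 v274, v273, v272, v271, v270, v269, v268, v267, v266, v265, v264, v263, v262, v261, v260, v259, v258, v257, v256, v255, v254, v253, v252, v251, v250, v249, v248, v247, v246, v245, v244, v243, v242, v241, v240, v239, v238, v237, v236, v235, v234, v233, v232, v231, v230, v229, v228, v227, v226, v225, v224, v223, v222, v221, v220, v219, v218, v217, v216, v215, v214, v213, v212, v211, v210, v209, v208, v207, v206, v205, v204, v203, v202, v201, v200, v199, v198, v197, v196, v195, v194, v193, v192, v191, v190, v189, v188, v187, v186, v185, v184, v183, v182, v181, v180, v179, v178, v177, v176, v175, v174, v173, v172, v171, v170, v169, v168, v167, v166, v165, v164, v163, v162, v161, v160, v159, v158, v157, v156, v155, v154, v153, v152, v151, v150, v149, v148, v147, v146, v145, v144, v143, v142, v141, v140, v139, v138, v137, v136, v135, v134, v133, v132, v131, v130, v129, v128, v127, v126, v125, v124, v123, v122, v121, v120,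 v119, v118, v117, v116, v115, v114, v113, v112, v111, v110, v109, v108, v107, v106, v105, v104, v103, v102, v101, v100, v99, v98, v97, v96, v95, v94, v93, v92, v91, v90, v89, v88, v87, v86, v85, v84, v83, v82, v81, v80, v79, v78, v77, v76, v75, v74, v73, v72, v71, v70, v69, v68, v67, v66, v65, v64, v63, v62, v61, v60, v59, v58, v57, v56, v55, v54, v53, v52, v51, v50, v49, v48, v47, v46, v45, v44, v43, v42, v41, v40, v39, v38, v37, v36, v35, v34, v33, v32, v31, v30, v29, v28, v27, v26, v25, v24, v23, v22, v21, v20, v19, v18, v17, v16, v15, v14, v13, v12, v11, v10, v9, v8, v7, v6, v5, v4, v3, v2, v1, v0] (fun st => run (realAlg (fun i => get 0 (P.syl n.l) i) (r) (s)) pNb [] = st)) :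
    pNb_goal P n r s := by
  obtain ⟨v360, h360, h⟩ := h
  change v360 = 3 * n.c1.a03 at h360
  obtain ⟨v361, h361, h⟩ := h
  change v361 = v359 + v360 at h361
  obtain ⟨Aq, e_Aq_d⟩ : ∃ q : ℂ, q = VAq n.c1 X := ⟨_, rfl⟩
  have e_Aq_re : v354 = Aq.re := by
    rw [e_Aq_d]
    simp only [VAq_re, VAq_im, h354, h353, h352, h351, h350, h349, h348, h10, e_X_re, e_X_im, mul_re, mul_im, add_re, add_im, sub_re, sub_im, neg_re, neg_im, I_re, I_im, ofReal_re,
      ofReal_im, one_re, one_im, zero_re, zero_im, dt, normSq_apply, re_ofNat, im_ofNat, conj_re, conj_im]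
    try ring
  have e_Aq_im : v361 = Aq.im := by
    rw [e_Aq_d]
    simp only [VAq_re, VAq_im, h361, h360, h359, h358, h357, h356, h355, h10, e_X_re, e_X_im, mul_re, mul_im, add_re, add_im, sub_re, sub_im, neg_re, neg_im, I_re, I_im, ofReal_re,
      ofReal_im, one_re, one_im, zero_re, zero_im, dt, normSq_apply, re_ofNat, im_ofNat, conj_re, conj_im]
    try ring
  obtain ⟨v362, h362, h⟩ := h
  change v362 = 2 * n.c1.a20 at h362
  obtain ⟨v363, h363, h⟩ := h
  change v363 = v5 * v362 at h363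
  obtain ⟨v364, h364, h⟩ := h
  change v364 = n.c1.a11 at h364
  obtain ⟨v365, h365, h⟩ := h
  change v365 = v363 + v364 at h365
  obtain ⟨v366, h366, h⟩ := h
  change v366 = v0 * v354 at h366
  obtain ⟨v367, h367, h⟩ := h
  change v367 = v365 + v366 at h367
  obtain ⟨v368, h368, h⟩ := h
  change v368 = v5 * v364 at h368
  obtain ⟨v369, h369, h⟩ := h
  change v369 = 2 * n.c1.a02 at h369
  obtain ⟨v370, h370, h⟩ := h
  change v370 = v368 + v369 at h370
  obtain ⟨v371, h371, h⟩ := h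
  change v371 = v0 * v361 at h371
  obtain ⟨v372, h372, h⟩ := h
  change v372 = v370 + v371 at h372
  obtain ⟨A1, e_A1_d⟩ : ∃ q : ℂ, q = VAxr n.c1 r X := ⟨_, rfl⟩
  have e_A1_re : v367 = A1.re := by
    rw [e_A1_d]
    simp only [VAxr_re, VAxr_im, h367, h366, h365, h364, h363, h362, h354, h353, h352, h351, h350, h349, h348, h10, h0, e_X_re, e_X_im, mul_re, mul_im, add_re, add_im, sub_re, sub_im, neg_re, neg_im, I_re, I_im, ofReal_re,
      ofReal_im, one_re, one_im, zero_re, zero_im, dt, normSq_apply, re_ofNat, im_ofNat, conj_re, conj_im]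
    try ring
  have e_A1_im : v372 = A1.im := by
    rw [e_A1_d]
    simp only [VAxr_re, VAxr_im, h372, h371, h370, h369, h368, h364, h361, h360, h359, h358, h357, h356, h355, h10, h0, e_X_re, e_X_im, mul_re, mul_im, add_re, add_im, sub_re, sub_im, neg_re, neg_im, I_re, I_im, ofReal_re,
      ofReal_im, one_re, one_im, zero_re, zero_im, dt, normSq_apply, re_ofNat, im_ofNat, conj_re, conj_im]
    try ring
  obtain ⟨v373, h373, h⟩ := h
  change v373 = v328 * v354 at h373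
  obtain ⟨v374, h374, h⟩ := h
  change v374 = v329 * v361 at h374
  obtain ⟨v375, h375, h⟩ := h
  change v375 = v373 - v374 at h375
  obtain ⟨v376, h376, h⟩ := h
  change v376 = v342 * v375 at h376
  obtain ⟨v377, h377, h⟩ := h
  change v377 = v5 * v367 at h377
  obtain ⟨v378, h378, h⟩ := h
  change v378 = v372 + v377 at h378
  obtain ⟨v379, h379, h⟩ := h
  change v379 = v376 - v378 at h379
  obtain ⟨pha, e_pha_d⟩ : ∃ q : ℝ, q = n.lam * dt Aq e3 - dt A1 X := ⟨_, rfl⟩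
  have e_pha_v : v379 = pha := by
    rw [e_pha_d]
    simp only [e3_re, e3_im, h379, h378, h377, h376, h375, h374, h373, h342, h329, h328, h327, e_A1_re, e_X_re, e_A1_im, e_Aq_im, e_Aq_re, e_X_im, mul_re, mul_im, add_re, add_im, sub_re, sub_im, neg_re, neg_im, I_re, I_im, ofReal_re,
      ofReal_im, one_re, one_im, zero_re, zero_im, dt, normSq_apply, re_ofNat, im_ofNat, conj_re, conj_im]
    try ring
  obtain ⟨v380, h380, h⟩ := h
  change v380 = v5 * v346 at h380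
  obtain ⟨v381, h381, h⟩ := h
  change v381 = v2 * v380 at h381
  obtain ⟨v382, h382, h⟩ := h
  change v382 = v5 * v347 at h382
  obtain ⟨v383, h383, h⟩ := h
  change v383 = v346 - v382 at h383
  obtain ⟨v384, h384, h⟩ := h
  change v384 = v2 * v347 at h384
  obtain ⟨v385, h385, h⟩ := h
  change v385 = n.c1.q1 at h385
  obtain ⟨v386, h386, h⟩ := h
  change v386 = v381 * v385 at h386
  obtain ⟨v387, h387, h⟩ := h
  change v387 = n.c1.q2 at h387
  obtain ⟨v388, h388, h⟩ := h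
  change v388 = v383 * v387 at h388
  obtain ⟨v389, h389, h⟩ := h
  change v389 = v386 + v388 at h389
  obtain ⟨v390, h390, h⟩ := h
  change v390 = n.c1.q3 at h390
  obtain ⟨v391, h391, h⟩ := h
  change v391 = v384 * v390 at h391
  obtain ⟨v392, h392, h⟩ := h
  change v392 = v389 - v391 at h392
  obtain ⟨v393, h393, h⟩ := h
  change v393 = n.c1.q4 at h393
  obtain ⟨v394, h394, h⟩ := h
  change v394 = v381 * v393 at h394
  obtain ⟨v395, h395, h⟩ := h
  change v395 = n.c1.q5 at h395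
  obtain ⟨v396, h396, h⟩ := h
  change v396 = v383 * v395 at h396
  obtain ⟨v397, h397, h⟩ := h
  change v397 = v394 + v396 at h397
  obtain ⟨v398, h398, h⟩ := h
  change v398 = n.c1.q6 at h398
  obtain ⟨v399, h399, h⟩ := h
  change v399 = v384 * v398 at h399
  exact pNb_c10 P n r s h0 h2 h4 e_X_d e_X_re e_X_im e_d_d e_d_v h10 h11 e_yx_d e_S_d e_T_d e_e_d e_f_d e_f_v e_U_d e_y_d e_k_d e_fv_d e_fv_re e_fv_im e_M_d e_iM_d e_nM_d e_As_d e_Ax_d e_Ax_re e_Ax_im h140 h142 h144 h146 h149 h153 h155 h157 h159 h162 e_B_d e_Bs_d e_DB_d e_sax_d h221 h222 e_Xv_d e_L_d e_aV_d e_ZB_d e_H_d h287 e_E12_d e_E12_v h292 e_ZM_d e_G6_d e_G6_re e_G6_im e_w_d e_D_d e_D_v e_sv_d e_sv_v e_lr_d e_lr_re e_lr_im e_Aq_d e_A1_d e_pha_d e_pha_v h380 h381 h382 h383 h384 h385 h386 h387 h388 h389 h390 h391 h392 h393 h394 h395 h396 h397 h398 h399 h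

theorem pNb_c8 (P : Pt) (n : Nd) (r s : ℝ) {v0 v1 v2 v3 v4 v5 : ℝ} {X : ℂ} {v6 v7 v8 v9 d v10 v11 v12 v13 v14 v15 yx v16 v17 v18 v19 v20 v21 v22 v23 v24 v25 v26 v27 v28 v29 v30 v31 S v32 v33 v34 v35 v36 v37 v38 v39 v40 v41 v42 : ℝ} {T : ℂ} {v43 v44 v45 v46 e v47 v48 v49 f v50 v51 v52 v53 v54 v55 v56 v57 v58 v59 v60 v61 v62 v63 v64 v65 v66 v67 v68 v69 v70 : ℝ} {U : ℂ} {v71 v72 : ℝ} {y : ℂ} {v73 v74 v75 k v76 v77 v78 v79 v80 v81 v82 v83 v84 : ℝ} {fv : ℂ} {v85 v86 v87 v88 v89 v90 v91 v92 : ℝ} {M iM : ℂ} {v93 v94 v95 nM v96 v97 v98 v99 v100 v101 v102 v103 v104 v105 v106 v107 v108 v109 v110 v111 v112 v113 v114 As v115 v116 v117 v118 v119 v120 v121 v122 v123 v124 v125 v126 v127 v128 v129 v130 v131 v132 v133 v134 v135 v136 v137 v138 v139 : ℝ} {Ax : ℂ} {v140 v141 v142 v143 v144 v145 v146 v147 v148 v149 v150 v151 v152 v153 v154 v155 v156 v157 v158 v159 v160 v161 v162 v163 v164 v165 : ℝ} {B : ℂ} {v166 v167 v168 v169 v170 v171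 v172 v173 v174 v175 v176 v177 v178 v179 v180 v181 v182 v183 v184 v185 v186 v187 v188 v189 v190 v191 : ℝ} {Bs : ℂ} {v192 v193 v194 v195 v196 v197 v198 v199 v200 v201 v202 v203 v204 v205 v206 v207 v208 v209 v210 v211 v212 v213 v214 v215 v216 : ℝ} {DB : ℂ} {v217 v218 v219 v220 sax v221 v222 v223 v224 v225 v226 v227 v228 v229 v230 v231 v232 v233 v234 v235 v236 v237 v238 v239 Xv v240 v241 v242 v243 v244 v245 v246 v247 : ℝ} {L : ℂ} {v248 v249 v250 aV v251 v252 v253 v254 v255 v256 v257 v258 v259 v260 v261 v262 v263 v264 v265 v266 v267 v268 : ℝ} {ZB : ℂ} {v269 v270 v271 v272 v273 v274 v275 v276 v277 v278 v279 v280 v281 v282 v283 v284 v285 : ℝ} {H : ℂ} {v286 v287 v288 v289 v290 v291 E12 v292 v293 v294 v295 v296 v297 v298 v299 v300 v301 v302 v303 v304 v305 v306 v307 v308 : ℝ} {ZM : ℂ} {v309 v310 v311 v312 v313 v314 v315 v316 v317 v318 v319 : ℝ}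
    (h0 : v0 = r)
    (h2 : v2 = (2 : ℝ))
    (h4 : v4 = (1 : ℝ))
    (e_X_d : X = (⟨2 * s - 1, 1⟩ : ℂ))
    (e_X_re : v5 = X.re)
    (e_X_im : X.im = (1 : ℝ))
    (h7 : v7 = v0 * v5)
    (e_d_d : d = 1 - 2 * P.ys.re - 2 * (r * X.re))
    (e_d_v : v9 = d)
    (h10 : v10 = v5 * v5)
    (h11 : v11 = v10 + v4)
    (e_yx_d : yx = dt P.ys X)
    (e_S_d : S = 4 * ((P.ys.re - (1 - normSq P.ys) / (1 - 2 * P.ys.re)) * X.re + P.ys.im * X.im) ^ 2 - 2 * (1 - normSq P.ys) * normSq X + (4 * yx + normSq X * r) * normSq X * r)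
    (e_T_d : T = I * ((2 * S : ℝ) : ℂ) + I * (X * ((2 * yx + normSq X * r : ℝ) : ℂ) + P.ys * (normSq X : ℂ)) * (d : ℂ))
    (e_e_d : e = dt P.ns X)
    (e_f_d : f = P.fs + e * r)
    (e_f_v : v49 = f)
    (e_U_d : U = P.DV X * (d : ℂ) + T * (r : ℂ) - P.V0 / (P.fs : ℂ) * ((d * e : ℝ) : ℂ))
    (e_y_d : y = P.ys + X * (r : ℂ))
    (e_y_re : v71 = y.re)
    (e_y_im : v72 = y.im)
    (e_k_d : k = dt y P.ns)
    (e_fv_d : fv = P.fv y)
    (e_fv_re : v80 = fv.re)
    (e_fv_im : v84 = fv.im)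
    (e_M_d : M = P.M X)
    (e_iM_d : iM = I * M)
    (e_nM_d : nM = normSq M)
    (e_nM_v : v95 = nM)
    (e_As_d : As = VAr P.cs r X)
    (e_Ax_d : Ax = VAxr P.c r X)
    (e_Ax_re : v127 = Ax.re)
    (e_Ax_im : v139 = Ax.im)
    (h140 : v140 = P.c.b11)
    (h142 : v142 = P.c.b12)
    (h144 : v144 = P.c.q1)
    (h146 : v146 = P.c.q2)
    (h149 : v149 = P.c.q3)
    (h153 : v153 = P.c.b21)
    (h155 : v155 = P.c.b22)
    (h157 : v157 = P.c.q4)
    (h159 : v159 = P.c.q5)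
    (h162 : v162 = P.c.q6)
    (e_B_d : B = VBr P.c r X)
    (e_Bs_d : Bs = VBr P.cs r X)
    (e_DB_d : DB = VBd P.c (X * (r : ℂ)) U)
    (e_DB_re : v206 = DB.re)
    (e_DB_im : v216 = DB.im)
    (e_sax_d : sax = dt P.sa X)
    (h221 : v221 = P.a.re)
    (h222 : v222 = P.a.im)
    (e_Xv_d : Xv = -dt P.a T - (e * sax + f * As) * d - dt Ax U + dt B iM * d)
    (e_Xv_v : v239 = Xv)
    (e_L_d : L = P.L X)
    (e_aV_d : aV = dt Ax (P.V0 / (P.fs : ℂ)))
    (e_ZB_d : ZB = ((dt B (-(I * y)) : ℝ) : ℂ) * P.ns + ((dt B (I * P.vs - P.bs) : ℝ) : ℂ) * fv - (k : ℂ) * (I * B))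
    (e_H_d : H = L - ((sax + As * r - aV : ℝ) : ℂ) * fv - (Bs + 2 * I * B) * (f : ℂ) - ZB)
    (e_H_re : v284 = H.re)
    (e_H_im : v285 = H.im)
    (h286 : v286 = v49 * v239)
    (h287 : v287 = (6 : ℝ))
    (h288 : v288 = v286 * v287)
    (h289 : v289 = v9 * v95)
    (e_E12_d : E12 = 12 * (f * Xv) - nM * d)
    (e_E12_v : v291 = E12)
    (h292 : v292 = v49 * v49)
    (e_ZM_d : ZM = ((dt iM (-(I * y)) : ℝ) : ℂ) * P.ns + ((dt iM (I * P.vs - P.bs) : ℝ) : ℂ) * fv - (k : ℂ) * (I * iM))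
    (e_ZM_re : v307 = ZM.re)
    (e_ZM_im : v308 = ZM.im)
    (h309 : v309 = v9 * v49)
    (h310 : v310 = v307 * v309)
    (h311 : v311 = v308 * v309)
    (h312 : v312 = v289 - v288)
    (h313 : v313 = v0 * v312)
    (h314 : v314 = v80 * v313)
    (h315 : v315 = v84 * v313)
    (h316 : v316 = v310 + v314)
    (h317 : v317 = v311 + v315)
    (h318 : v318 = v9 * v284)
    (h319 : v319 = v9 * v285)
    (h : TrE (realAlg (fun i => get 0 (P.syl n.l) i) (r) (s)) (pNb.drop 320) [v319, v318, v317, v316, v315, v314, v313, v312, v311, v310, v309, v308, v307, v306, v305, v304, v303, v302, v301, v300, v299, v298, v297, v296, v295, v294, v293, v292, v291, v290, v289, v288, v287, v286, v285, v284, v283, v282, v281, v280, v279, v278, v277, v276, v275, v274, v273, v272, v271, v270, v269, v268, v267, v266, v265, v264, v263, v262, v261, v260, v259, v258, v257, v256, v255, v254, v253, v252, v251, v250, v249, v248, v247, v246, v245, v244,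 v243, v242, v241, v240, v239, v238, v237, v236, v235, v234, v233, v232, v231, v230, v229, v228, v227, v226, v225, v224, v223, v222, v221, v220, v219, v218, v217, v216, v215, v214, v213, v212, v211, v210, v209, v208, v207, v206, v205, v204, v203, v202, v201, v200, v199, v198, v197, v196, v195, v194, v193, v192, v191, v190, v189, v188, v187, v186, v185, v184, v183, v182, v181, v180, v179, v178, v177, v176, v175, v174, v173, v172, v171, v170, v169, v168, v167, v166, v165, v164, v163, v162, v161, v160, v159, v158, v157, v156, v155, v154, v153, v152, v151, v150, v149, v148, v147, v146, v145, v144, v143, v142, v141, v140, v139, v138, v137, v136, v135, v134, v133, v132, v131, v130, v129, v128, v127, v126, v125, v124, v123, v122, v121, v120, v119, v118, v117, v116, v115, v114, v113, v112, v111, v110, v109, v108, v107, v106, v105, v104, v103, v102, v101, v100, v99, v98, v97, v96, v95, v94, v93, v92, v91, v90, v89, v88, v87, v86,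 v85, v84, v83, v82, v81, v80, v79, v78, v77, v76, v75, v74, v73, v72, v71, v70, v69, v68, v67, v66, v65, v64, v63, v62, v61, v60, v59, v58, v57, v56, v55, v54, v53, v52, v51, v50, v49, v48, v47, v46, v45, v44, v43, v42, v41, v40, v39, v38, v37, v36, v35, v34, v33, v32, v31, v30, v29, v28, v27, v26, v25, v24, v23, v22, v21, v20, v19, v18, v17, v16, v15, v14, v13, v12, v11, v10, v9, v8, v7, v6, v5, v4, v3, v2, v1, v0] (fun st => run (realAlg (fun i => get 0 (P.syl n.l) i) (r) (s)) pNb [] = st)) :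
    pNb_goal P n r s := by
  obtain ⟨v320, h320, h⟩ := h
  change v320 = v318 - v206 at h320
  obtain ⟨v321, h321, h⟩ := h
  change v321 = v319 - v216 at h321
  obtain ⟨v322, h322, h⟩ := h
  change v322 = v287 * v292 at h322
  obtain ⟨v323, h323, h⟩ := h
  change v323 = v320 * v322 at h323
  obtain ⟨v324, h324, h⟩ := h
  change v324 = v321 * v322 at h324
  obtain ⟨v325, h325, h⟩ := h
  change v325 = v316 + v323 at h325
  obtain ⟨v326, h326, h⟩ := h
  change v326 = v317 + v324 at h326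
  obtain ⟨G6, e_G6_d⟩ : ∃ q : ℂ, q = ZM * ((d * f : ℝ) : ℂ) + fv * ((r * (nM * d - 6 * (f * Xv)) : ℝ) : ℂ) + (H * (d : ℂ) - DB) * ((6 * f ^ 2 : ℝ) : ℂ) := ⟨_, rfl⟩
  have e_G6_re : v325 = G6.re := by
    rw [e_G6_d]
    simp only [h325, h323, h322, h320, h318, h316, h314, h313, h312, h310, h309, h292, h289, h288, h287, h286, h0, e_f_v, e_DB_re, e_H_re, e_d_v, e_Xv_v, e_nM_v, e_fv_re, e_ZM_re, mul_re, mul_im, add_re, add_im, sub_re, sub_im, neg_re, neg_im, I_re, I_im, ofReal_re,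
      ofReal_im, one_re, one_im, zero_re, zero_im, dt, normSq_apply, re_ofNat, im_ofNat, conj_re, conj_im]
    try ring
  have e_G6_im : v326 = G6.im := by
    rw [e_G6_d]
    simp only [h326, h324, h322, h321, h319, h317, h315, h313, h312, h311, h309, h292, h289, h288, h287, h286, h0, e_f_v, e_DB_im, e_H_im, e_d_v, e_Xv_v, e_nM_v, e_fv_im, e_ZM_im, mul_re, mul_im, add_re, add_im, sub_re, sub_im, neg_re, neg_im, I_re, I_im, ofReal_re,
      ofReal_im, one_re, one_im, zero_re, zero_im, dt, normSq_apply, re_ofNat, im_ofNat, conj_re, conj_im]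
    try ring
  obtain ⟨v327, h327, h⟩ := h
  change v327 = s3 at h327
  obtain ⟨v328, h328, h⟩ := h
  replace h328 : v328 = (1 : ℝ) / 2 ^ 1 := by rw [h328]; norm_num [step, realAlg]
  obtain ⟨v329, h329, h⟩ := h
  change v329 = v327 * v328 at h329
  obtain ⟨v330, h330, h⟩ := h
  change v330 = v71 * v71 at h330
  obtain ⟨v331, h331, h⟩ := h
  change v331 = v72 * v72 at h331
  obtain ⟨v332, h332, h⟩ := h
  change v332 = v330 + v331 at h332
  obtain ⟨v333, h333, h⟩ := h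
  change v333 = v4 - v332 at h333
  obtain ⟨w, e_w_d⟩ : ∃ q : ℝ, q = 1 - normSq y := ⟨_, rfl⟩
  have e_w_v : v333 = w := by
    rw [e_w_d]
    simp only [h333, h332, h331, h330, h4, e_y_im, e_y_re, mul_re, mul_im, add_re, add_im, sub_re, sub_im, neg_re, neg_im, I_re, I_im, ofReal_re,
      ofReal_im, one_re, one_im, zero_re, zero_im, dt, normSq_apply, re_ofNat, im_ofNat, conj_re, conj_im]
    try ring
  obtain ⟨v334, h334, h⟩ := h
  change v334 = v71 * v328 at h334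
  obtain ⟨v335, h335, h⟩ := h
  change v335 = v72 * v329 at h335
  obtain ⟨v336, h336, h⟩ := h
  change v336 = v334 + v335 at h336
  obtain ⟨v337, h337, h⟩ := h
  change v337 = v2 * v336 at h337
  obtain ⟨v338, h338, h⟩ := h
  change v338 = v337 + v4 at h338
  obtain ⟨D, e_D_d⟩ : ∃ q : ℝ, q = 1 - 2 * dt (uu 2) y := ⟨_, rfl⟩
  have e_D_v : v338 = D := by
    rw [e_D_d]
    simp only [uu2_re, uu2_im, h338, h337, h336, h335, h334, h329, h328, h327, h4, h2, e_y_im, e_y_re, mul_re, mul_im, add_re, add_im, sub_re, sub_im, neg_re, neg_im, I_re, I_im, ofReal_re,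
      ofReal_im, one_re, one_im, zero_re, zero_im, dt, normSq_apply, re_ofNat, im_ofNat, conj_re, conj_im]
    try ring
  obtain ⟨v339, h339, h⟩ := h
  change v339 = v2 * v327 at h339
  obtain ⟨v340, h340, h⟩ := h
  change v340 = v333 * v333 at h340
  obtain ⟨v341, h341, h⟩ := h
  change v341 = v339 * v340 at h341
  obtain ⟨sv, e_sv_d⟩ : ∃ q : ℝ, q = 2 * s3 * w ^ 2 := ⟨_, rfl⟩
  have e_sv_v : v341 = sv := by
    rw [e_sv_d]
    simp only [h341, h340, h339, h327, h2, e_w_v, mul_re, mul_im, add_re, add_im, sub_re, sub_im, neg_re, neg_im, I_re, I_im, ofReal_re,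
      ofReal_im, one_re, one_im, zero_re, zero_im, dt, normSq_apply, re_ofNat, im_ofNat, conj_re, conj_im]
    try ring
  obtain ⟨v342, h342, h⟩ := h
  change v342 = n.lam at h342
  obtain ⟨v343, h343, h⟩ := h
  change v343 = v328 * v342 at h343
  obtain ⟨v344, h344, h⟩ := h
  change v344 = v327 * v342 at h344
  obtain ⟨v345, h345, h⟩ := h
  change v345 = v328 * v344 at h345
  obtain ⟨v346, h346, h⟩ := h
  change v346 = v343 - v7 at h346
  obtain ⟨v347, h347, h⟩ := h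
  change v347 = v0 + v345 at h347
  obtain ⟨lr, e_lr_d⟩ : ∃ q : ℂ, q = (n.lam : ℂ) * e3 - X * (r : ℂ) := ⟨_, rfl⟩
  have e_lr_re : v346 = lr.re := by
    rw [e_lr_d]
    simp only [e3_re, e3_im, h346, h343, h342, h328, h7, h0, e_X_re, e_X_im, mul_re, mul_im, add_re, add_im, sub_re, sub_im, neg_re, neg_im, I_re, I_im, ofReal_re,
      ofReal_im, one_re, one_im, zero_re, zero_im, dt, normSq_apply, re_ofNat, im_ofNat, conj_re, conj_im]
    try ring
  have e_lr_im : v347 = -lr.im := by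
    rw [e_lr_d]
    simp only [e3_re, e3_im, h347, h345, h344, h342, h328, h327, h0, e_X_im, mul_re, mul_im, add_re, add_im, sub_re, sub_im, neg_re, neg_im, I_re, I_im, ofReal_re,
      ofReal_im, one_re, one_im, zero_re, zero_im, dt, normSq_apply, re_ofNat, im_ofNat, conj_re, conj_im]
    try ring
  obtain ⟨v348, h348, h⟩ := h
  change v348 = 3 * n.c1.a30 at h348
  obtain ⟨v349, h349, h⟩ := h
  change v349 = v10 * v348 at h349
  obtain ⟨v350, h350, h⟩ := h
  change v350 = 2 * n.c1.a21 at h350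
  obtain ⟨v351, h351, h⟩ := h
  change v351 = v5 * v350 at h351
  obtain ⟨v352, h352, h⟩ := h
  change v352 = v349 + v351 at h352
  obtain ⟨v353, h353, h⟩ := h
  change v353 = n.c1.a12 at h353
  obtain ⟨v354, h354, h⟩ := h
  change v354 = v352 + v353 at h354
  obtain ⟨v355, h355, h⟩ := h
  change v355 = n.c1.a21 at h355
  obtain ⟨v356, h356, h⟩ := h
  change v356 = v10 * v355 at h356
  obtain ⟨v357, h357, h⟩ := h
  change v357 = 2 * n.c1.a12 at h357
  obtain ⟨v358, h358, h⟩ := h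
  change v358 = v5 * v357 at h358
  obtain ⟨v359, h359, h⟩ := h
  change v359 = v356 + v358 at h359
  exact pNb_c9 P n r s h0 h2 h4 e_X_d e_X_re e_X_im e_d_d e_d_v h10 h11 e_yx_d e_S_d e_T_d e_e_d e_f_d e_f_v e_U_d e_y_d e_k_d e_fv_d e_fv_re e_fv_im e_M_d e_iM_d e_nM_d e_As_d e_Ax_d e_Ax_re e_Ax_im h140 h142 h144 h146 h149 h153 h155 h157 h159 h162 e_B_d e_Bs_d e_DB_d e_sax_d h221 h222 e_Xv_d e_L_d e_aV_d e_ZB_d e_H_d h287 e_E12_d e_E12_v h292 e_ZM_d e_G6_d e_G6_re e_G6_im h327 h328 h329 e_w_d e_D_d e_D_v e_sv_d e_sv_v h342 e_lr_d e_lr_re e_lr_im h348 h349 h350 h351 h352 h353 h354 h355 h356 h357 h358 h359 h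

theorem pNb_c7 (P : Pt) (n : Nd) (r s : ℝ) {v0 v1 v2 v3 v4 v5 : ℝ} {X : ℂ} {v6 v7 v8 v9 d v10 v11 v12 v13 v14 v15 yx v16 v17 v18 v19 v20 v21 v22 v23 v24 v25 v26 v27 v28 v29 v30 v31 S v32 v33 v34 v35 v36 v37 v38 v39 v40 v41 v42 : ℝ} {T : ℂ} {v43 v44 v45 v46 e v47 v48 v49 f v50 v51 v52 v53 v54 v55 v56 v57 v58 v59 v60 v61 v62 v63 v64 v65 v66 v67 v68 v69 v70 : ℝ} {U : ℂ} {v71 v72 : ℝ} {y : ℂ} {v73 v74 v75 k v76 v77 v78 v79 v80 v81 v82 v83 v84 : ℝ} {fv : ℂ} {v85 v86 v87 v88 v89 v90 v91 v92 : ℝ} {M iM : ℂ} {v93 v94 v95 nM v96 v97 v98 v99 v100 v101 v102 v103 v104 v105 v106 v107 v108 v109 v110 v111 v112 v113 v114 As v115 v116 v117 v118 v119 v120 v121 v122 v123 v124 v125 v126 v127 v128 v129 v130 v131 v132 v133 v134 v135 v136 v137 v138 v139 : ℝ} {Ax : ℂ} {v140 v141 v142 v143 v144 v145 v146 v147 v148 v149 v150 v151 v152 v153 v154 v155 v156 v157 v158 v159 v160 v161 v162 v163 v164 v165 : ℝ} {B : ℂ} {v166 v167 v168 v169 v170 v171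 v172 v173 v174 v175 v176 v177 v178 v179 v180 v181 v182 v183 v184 v185 v186 v187 v188 v189 v190 v191 : ℝ} {Bs : ℂ} {v192 v193 v194 v195 v196 v197 v198 v199 v200 v201 v202 v203 v204 v205 v206 v207 v208 v209 v210 v211 v212 v213 v214 v215 v216 : ℝ} {DB : ℂ} {v217 v218 v219 v220 sax v221 v222 v223 v224 v225 v226 v227 v228 v229 v230 v231 v232 v233 v234 v235 v236 v237 v238 v239 Xv v240 v241 v242 v243 v244 v245 v246 v247 : ℝ} {L : ℂ} {v248 v249 v250 aV v251 v252 v253 v254 v255 v256 v257 v258 v259 v260 v261 v262 v263 v264 v265 v266 v267 v268 : ℝ} {ZB : ℂ} {v269 v270 v271 v272 v273 v274 v275 v276 v277 v278 v279 : ℝ}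
    (h0 : v0 = r)
    (h2 : v2 = (2 : ℝ))
    (h4 : v4 = (1 : ℝ))
    (e_X_d : X = (⟨2 * s - 1, 1⟩ : ℂ))
    (e_X_re : v5 = X.re)
    (e_X_im : X.im = (1 : ℝ))
    (h7 : v7 = v0 * v5)
    (e_d_d : d = 1 - 2 * P.ys.re - 2 * (r * X.re))
    (e_d_v : v9 = d)
    (h10 : v10 = v5 * v5)
    (h11 : v11 = v10 + v4)
    (e_yx_d : yx = dt P.ys X)
    (e_S_d : S = 4 * ((P.ys.re - (1 - normSq P.ys) / (1 - 2 * P.ys.re)) * X.re + P.ys.im * X.im) ^ 2 - 2 * (1 - normSq P.ys) * normSq X + (4 * yx + normSq X * r) * normSq X * r)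
    (e_T_d : T = I * ((2 * S : ℝ) : ℂ) + I * (X * ((2 * yx + normSq X * r : ℝ) : ℂ) + P.ys * (normSq X : ℂ)) * (d : ℂ))
    (h43 : v43 = P.ns.re)
    (h44 : v44 = P.ns.im)
    (e_e_d : e = dt P.ns X)
    (e_f_d : f = P.fs + e * r)
    (e_f_v : v49 = f)
    (e_U_d : U = P.DV X * (d : ℂ) + T * (r : ℂ) - P.V0 / (P.fs : ℂ) * ((d * e : ℝ) : ℂ))
    (e_y_d : y = P.ys + X * (r : ℂ))
    (e_y_re : v71 = y.re)
    (e_y_im : v72 = y.im)
    (e_k_d : k = dt y P.ns)
    (e_k_v : v75 = k)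
    (e_fv_d : fv = P.fv y)
    (e_fv_re : v80 = fv.re)
    (e_fv_im : v84 = fv.im)
    (e_M_d : M = P.M X)
    (e_iM_d : iM = I * M)
    (e_iM_re : v92 = -iM.re)
    (e_iM_im : v88 = iM.im)
    (e_nM_d : nM = normSq M)
    (e_nM_v : v95 = nM)
    (e_As_d : As = VAr P.cs r X)
    (e_As_v : v114 = As)
    (e_Ax_d : Ax = VAxr P.c r X)
    (e_Ax_re : v127 = Ax.re)
    (e_Ax_im : v139 = Ax.im)
    (h140 : v140 = P.c.b11)
    (h142 : v142 = P.c.b12)
    (h144 : v144 = P.c.q1)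
    (h146 : v146 = P.c.q2)
    (h149 : v149 = P.c.q3)
    (h153 : v153 = P.c.b21)
    (h155 : v155 = P.c.b22)
    (h157 : v157 = P.c.q4)
    (h159 : v159 = P.c.q5)
    (h162 : v162 = P.c.q6)
    (e_B_d : B = VBr P.c r X)
    (e_B_re : v152 = B.re)
    (e_B_im : v165 = B.im)
    (e_Bs_d : Bs = VBr P.cs r X)
    (e_Bs_re : v178 = Bs.re)
    (e_Bs_im : v191 = Bs.im)
    (e_DB_d : DB = VBd P.c (X * (r : ℂ)) U)
    (e_DB_re : v206 = DB.re)
    (e_DB_im : v216 = DB.im)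
    (e_sax_d : sax = dt P.sa X)
    (e_sax_v : v220 = sax)
    (h221 : v221 = P.a.re)
    (h222 : v222 = P.a.im)
    (e_Xv_d : Xv = -dt P.a T - (e * sax + f * As) * d - dt Ax U + dt B iM * d)
    (e_Xv_v : v239 = Xv)
    (e_L_d : L = P.L X)
    (e_L_re : v243 = L.re)
    (e_L_im : v247 = L.im)
    (e_aV_d : aV = dt Ax (P.V0 / (P.fs : ℂ)))
    (e_aV_v : v250 = aV)
    (h251 : v251 = (I * P.vs - P.bs).re)
    (h252 : v252 = (I * P.vs - P.bs).im)
    (e_ZB_d : ZB = ((dt B (-(I * y)) : ℝ) : ℂ) * P.ns + ((dt B (I * P.vs - P.bs) : ℝ) : ℂ) * fv - (k : ℂ) * (I * B))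
    (e_ZB_re : v267 = ZB.re)
    (e_ZB_im : v268 = ZB.im)
    (h269 : v269 = v0 * v114)
    (h270 : v270 = v220 + v269)
    (h271 : v271 = v270 - v250)
    (h272 : v272 = v80 * v271)
    (h273 : v273 = v84 * v271)
    (h274 : v274 = v243 - v272)
    (h275 : v275 = v247 - v273)
    (h276 : v276 = v2 * v165)
    (h277 : v277 = v2 * v152)
    (h278 : v278 = v178 - v276)
    (h279 : v279 = v191 + v277)
    (h : TrE (realAlg (fun i => get 0 (P.syl n.l) i) (r) (s)) (pNb.drop 280) [v279, v278, v277, v276, v275, v274, v273, v272, v271, v270, v269, v268, v267, v266, v265, v264, v263, v262, v261, v260, v259, v258, v257, v256, v255, v254, v253, v252, v251, v250, v249, v248, v247, v246, v245, v244, v243, v242, v241, v240, v239, v238, v237, v236, v235, v234, v233, v232, v231, v230, v229, v228, v227, v226, v225, v224, v223, v222, v221, v220, v219, v218, v217, v216, v215, v214, v213, v212, v211, v210, v209, v208, v207, v206, v205,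 v204, v203, v202, v201, v200, v199, v198, v197, v196, v195, v194, v193, v192, v191, v190, v189, v188, v187, v186, v185, v184, v183, v182, v181, v180, v179, v178, v177, v176, v175, v174, v173, v172, v171, v170, v169, v168, v167, v166, v165, v164, v163, v162, v161, v160, v159, v158, v157, v156, v155, v154, v153, v152, v151, v150, v149, v148, v147, v146, v145, v144, v143, v142, v141, v140, v139, v138, v137, v136, v135, v134, v133, v132, v131, v130, v129, v128, v127, v126, v125, v124, v123, v122, v121, v120, v119, v118, v117, v116, v115, v114, v113, v112, v111, v110, v109, v108, v107, v106, v105, v104, v103, v102, v101, v100, v99, v98, v97, v96, v95, v94, v93, v92, v91, v90, v89, v88, v87, v86, v85, v84, v83, v82, v81, v80, v79, v78, v77, v76, v75, v74, v73, v72, v71, v70, v69, v68, v67, v66, v65, v64, v63, v62, v61, v60, v59, v58, v57, v56, v55, v54, v53, v52, v51, v50, v49, v48, v47, v46, v45, v44, v43, v42, v41, v40,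 v39, v38, v37, v36, v35, v34, v33, v32, v31, v30, v29, v28, v27, v26, v25, v24, v23, v22, v21, v20, v19, v18, v17, v16, v15, v14, v13, v12, v11, v10, v9, v8, v7, v6, v5, v4, v3, v2, v1, v0] (fun st => run (realAlg (fun i => get 0 (P.syl n.l) i) (r) (s)) pNb [] = st)) :
    pNb_goal P n r s := by
  obtain ⟨v280, h280, h⟩ := h
  change v280 = v49 * v278 at h280
  obtain ⟨v281, h281, h⟩ := h
  change v281 = v49 * v279 at h281
  obtain ⟨v282, h282, h⟩ := h
  change v282 = v274 - v280 at h282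
  obtain ⟨v283, h283, h⟩ := h
  change v283 = v275 - v281 at h283
  obtain ⟨v284, h284, h⟩ := h
  change v284 = v282 - v267 at h284
  obtain ⟨v285, h285, h⟩ := h
  change v285 = v283 - v268 at h285
  obtain ⟨H, e_H_d⟩ : ∃ q : ℂ, q = L - ((sax + As * r - aV : ℝ) : ℂ) * fv - (Bs + 2 * I * B) * (f : ℂ) - ZB := ⟨_, rfl⟩
  have e_H_re : v284 = H.re := by
    rw [e_H_d]
    simp only [h284, h282, h280, h278, h276, h274, h272, h271, h270, h269, h2, h0, e_ZB_re, e_B_im, e_Bs_re, e_f_v, e_aV_v, e_As_v, e_sax_v, e_fv_re, e_L_re, mul_re, mul_im, add_re, add_im, sub_re, sub_im, neg_re, neg_im, I_re, I_im, ofReal_re,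
      ofReal_im, one_re, one_im, zero_re, zero_im, dt, normSq_apply, re_ofNat, im_ofNat, conj_re, conj_im]
    try ring
  have e_H_im : v285 = H.im := by
    rw [e_H_d]
    simp only [h285, h283, h281, h279, h277, h275, h273, h271, h270, h269, h2, h0, e_ZB_im, e_B_re, e_Bs_im, e_f_v, e_aV_v, e_As_v, e_sax_v, e_fv_im, e_L_im, mul_re, mul_im, add_re, add_im, sub_re, sub_im, neg_re, neg_im, I_re, I_im, ofReal_re,
      ofReal_im, one_re, one_im, zero_re, zero_im, dt, normSq_apply, re_ofNat, im_ofNat, conj_re, conj_im]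
    try ring
  obtain ⟨v286, h286, h⟩ := h
  change v286 = v49 * v239 at h286
  obtain ⟨v287, h287, h⟩ := h
  replace h287 : v287 = (6 : ℝ) := by rw [h287]; norm_num [step, realAlg]
  obtain ⟨v288, h288, h⟩ := h
  change v288 = v286 * v287 at h288
  obtain ⟨v289, h289, h⟩ := h
  change v289 = v9 * v95 at h289
  obtain ⟨v290, h290, h⟩ := h
  change v290 = v2 * v288 at h290
  obtain ⟨v291, h291, h⟩ := h
  change v291 = v290 - v289 at h291
  obtain ⟨E12, e_E12_d⟩ : ∃ q : ℝ, q = 12 * (f * Xv) - nM * d := ⟨_, rfl⟩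
  have e_E12_v : v291 = E12 := by
    rw [e_E12_d]
    simp only [h291, h290, h289, h288, h287, h286, h2, e_nM_v, e_d_v, e_Xv_v, e_f_v, mul_re, mul_im, add_re, add_im, sub_re, sub_im, neg_re, neg_im, I_re, I_im, ofReal_re,
      ofReal_im, one_re, one_im, zero_re, zero_im, dt, normSq_apply, re_ofNat, im_ofNat, conj_re, conj_im]
    try ring
  obtain ⟨v292, h292, h⟩ := h
  change v292 = v49 * v49 at h292
  obtain ⟨v293, h293, h⟩ := h
  change v293 = v72 * v92 at h293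
  obtain ⟨v294, h294, h⟩ := h
  change v294 = v71 * v88 at h294
  obtain ⟨v295, h295, h⟩ := h
  change v295 = v293 + v294 at h295
  obtain ⟨v296, h296, h⟩ := h
  change v296 = v43 * v295 at h296
  obtain ⟨v297, h297, h⟩ := h
  change v297 = v44 * v295 at h297
  obtain ⟨v298, h298, h⟩ := h
  change v298 = v92 * v251 at h298
  obtain ⟨v299, h299, h⟩ := h
  change v299 = v88 * v252 at h299
  obtain ⟨v300, h300, h⟩ := h
  change v300 = v299 - v298 at h300
  obtain ⟨v301, h301, h⟩ := h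
  change v301 = v80 * v300 at h301
  obtain ⟨v302, h302, h⟩ := h
  change v302 = v84 * v300 at h302
  obtain ⟨v303, h303, h⟩ := h
  change v303 = v301 - v296 at h303
  obtain ⟨v304, h304, h⟩ := h
  change v304 = v302 - v297 at h304
  obtain ⟨v305, h305, h⟩ := h
  change v305 = v75 * v88 at h305
  obtain ⟨v306, h306, h⟩ := h
  change v306 = v75 * v92 at h306
  obtain ⟨v307, h307, h⟩ := h
  change v307 = v303 + v305 at h307
  obtain ⟨v308, h308, h⟩ := h
  change v308 = v304 + v306 at h308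
  obtain ⟨ZM, e_ZM_d⟩ : ∃ q : ℂ, q = ((dt iM (-(I * y)) : ℝ) : ℂ) * P.ns + ((dt iM (I * P.vs - P.bs) : ℝ) : ℂ) * fv - (k : ℂ) * (I * iM) := ⟨_, rfl⟩
  have e_ZM_re : v307 = ZM.re := by
    rw [e_ZM_d]
    simp only [h307, h305, h303, h301, h300, h299, h298, h296, h295, h294, h293, h252, h251, h43, e_iM_im, e_k_v, e_y_re, e_iM_re, e_y_im, e_fv_re, mul_re, mul_im, add_re, add_im, sub_re, sub_im, neg_re, neg_im, I_re, I_im, ofReal_re,
      ofReal_im, one_re, one_im, zero_re, zero_im, dt, normSq_apply, re_ofNat, im_ofNat, conj_re, conj_im]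
    try ring
  have e_ZM_im : v308 = ZM.im := by
    rw [e_ZM_d]
    simp only [h308, h306, h304, h302, h300, h299, h298, h297, h295, h294, h293, h252, h251, h44, e_iM_re, e_k_v, e_iM_im, e_y_re, e_y_im, e_fv_im, mul_re, mul_im, add_re, add_im, sub_re, sub_im, neg_re, neg_im, I_re, I_im, ofReal_re,
      ofReal_im, one_re, one_im, zero_re, zero_im, dt, normSq_apply, re_ofNat, im_ofNat, conj_re, conj_im]
    try ring
  obtain ⟨v309, h309, h⟩ := h
  change v309 = v9 * v49 at h309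
  obtain ⟨v310, h310, h⟩ := h
  change v310 = v307 * v309 at h310
  obtain ⟨v311, h311, h⟩ := h
  change v311 = v308 * v309 at h311
  obtain ⟨v312, h312, h⟩ := h
  change v312 = v289 - v288 at h312
  obtain ⟨v313, h313, h⟩ := h
  change v313 = v0 * v312 at h313
  obtain ⟨v314, h314, h⟩ := h
  change v314 = v80 * v313 at h314
  obtain ⟨v315, h315, h⟩ := h
  change v315 = v84 * v313 at h315
  obtain ⟨v316, h316, h⟩ := h
  change v316 = v310 + v314 at h316
  obtain ⟨v317, h317, h⟩ := h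
  change v317 = v311 + v315 at h317
  obtain ⟨v318, h318, h⟩ := h
  change v318 = v9 * v284 at h318
  obtain ⟨v319, h319, h⟩ := h
  change v319 = v9 * v285 at h319
  exact pNb_c8 P n r s h0 h2 h4 e_X_d e_X_re e_X_im h7 e_d_d e_d_v h10 h11 e_yx_d e_S_d e_T_d e_e_d e_f_d e_f_v e_U_d e_y_d e_y_re e_y_im e_k_d e_fv_d e_fv_re e_fv_im e_M_d e_iM_d e_nM_d e_nM_v e_As_d e_Ax_d e_Ax_re e_Ax_im h140 h142 h144 h146 h149 h153 h155 h157 h159 h162 e_B_d e_Bs_d e_DB_d e_DB_re e_DB_im e_sax_d h221 h222 e_Xv_d e_Xv_v e_L_d e_aV_d e_ZB_d e_H_d e_H_re e_H_im h286 h287 h288 h289 e_E12_d e_E12_v h292 e_ZM_d e_ZM_re e_ZM_im h309 h310 h311 h312 h313 h314 h315 h316 h317 h318 h319 h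

theorem pNb_c6 (P : Pt) (n : Nd) (r s : ℝ) {v0 v1 v2 v3 v4 v5 : ℝ} {X : ℂ} {v6 v7 v8 v9 d v10 v11 v12 v13 v14 v15 yx v16 v17 v18 v19 v20 v21 v22 v23 v24 v25 v26 v27 v28 v29 v30 v31 S v32 v33 v34 v35 v36 v37 v38 v39 v40 v41 v42 : ℝ} {T : ℂ} {v43 v44 v45 v46 e v47 v48 v49 f v50 v51 v52 v53 v54 v55 v56 v57 v58 v59 v60 v61 v62 v63 v64 v65 v66 v67 v68 v69 v70 : ℝ} {U : ℂ} {v71 v72 : ℝ} {y : ℂ} {v73 v74 v75 k v76 v77 v78 v79 v80 v81 v82 v83 v84 : ℝ} {fv : ℂ} {v85 v86 v87 v88 v89 v90 v91 v92 : ℝ} {M iM : ℂ} {v93 v94 v95 nM v96 v97 v98 v99 v100 v101 v102 v103 v104 v105 v106 v107 v108 v109 v110 v111 v112 v113 v114 As v115 v116 v117 v118 v119 v120 v121 v122 v123 v124 v125 v126 v127 v128 v129 v130 v131 v132 v133 v134 v135 v136 v137 v138 v139 : ℝ} {Ax : ℂ} {v140 v141 v142 v143 v144 v145 v146 v147 v148 v149 v150 v151 v152 v153 v154 v155 v156 v157 v158 v159 v160 v161 v162 v163 v164 v165 : ℝ} {B : ℂ} {v166 v167 v168 v169 v170 v171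 v172 v173 v174 v175 v176 v177 v178 v179 v180 v181 v182 v183 v184 v185 v186 v187 v188 v189 v190 v191 : ℝ} {Bs : ℂ} {v192 v193 v194 v195 v196 v197 v198 v199 v200 v201 v202 v203 v204 v205 v206 v207 v208 v209 v210 v211 v212 v213 v214 v215 v216 : ℝ} {DB : ℂ} {v217 v218 v219 v220 sax v221 v222 v223 v224 v225 v226 v227 v228 v229 v230 v231 v232 v233 v234 v235 v236 v237 v238 v239 Xv : ℝ}
    (h0 : v0 = r)
    (h2 : v2 = (2 : ℝ))
    (h4 : v4 = (1 : ℝ))
    (e_X_d : X = (⟨2 * s - 1, 1⟩ : ℂ))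
    (e_X_re : v5 = X.re)
    (e_X_im : X.im = (1 : ℝ))
    (h7 : v7 = v0 * v5)
    (e_d_d : d = 1 - 2 * P.ys.re - 2 * (r * X.re))
    (e_d_v : v9 = d)
    (h10 : v10 = v5 * v5)
    (h11 : v11 = v10 + v4)
    (e_yx_d : yx = dt P.ys X)
    (e_S_d : S = 4 * ((P.ys.re - (1 - normSq P.ys) / (1 - 2 * P.ys.re)) * X.re + P.ys.im * X.im) ^ 2 - 2 * (1 - normSq P.ys) * normSq X + (4 * yx + normSq X * r) * normSq X * r)
    (e_T_d : T = I * ((2 * S : ℝ) : ℂ) + I * (X * ((2 * yx + normSq X * r : ℝ) : ℂ) + P.ys * (normSq X : ℂ)) * (d : ℂ))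
    (h43 : v43 = P.ns.re)
    (h44 : v44 = P.ns.im)
    (e_e_d : e = dt P.ns X)
    (e_f_d : f = P.fs + e * r)
    (e_f_v : v49 = f)
    (h64 : v64 = (P.V0 / (P.fs : ℂ)).re)
    (h65 : v65 = (P.V0 / (P.fs : ℂ)).im)
    (e_U_d : U = P.DV X * (d : ℂ) + T * (r : ℂ) - P.V0 / (P.fs : ℂ) * ((d * e : ℝ) : ℂ))
    (e_y_d : y = P.ys + X * (r : ℂ))
    (e_y_re : v71 = y.re)
    (e_y_im : v72 = y.im)
    (e_k_d : k = dt y P.ns)
    (e_k_v : v75 = k)
    (e_fv_d : fv = P.fv y)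
    (e_fv_re : v80 = fv.re)
    (e_fv_im : v84 = fv.im)
    (e_M_d : M = P.M X)
    (e_iM_d : iM = I * M)
    (e_iM_re : v92 = -iM.re)
    (e_iM_im : v88 = iM.im)
    (e_nM_d : nM = normSq M)
    (e_nM_v : v95 = nM)
    (e_As_d : As = VAr P.cs r X)
    (e_As_v : v114 = As)
    (e_Ax_d : Ax = VAxr P.c r X)
    (e_Ax_re : v127 = Ax.re)
    (e_Ax_im : v139 = Ax.im)
    (h140 : v140 = P.c.b11)
    (h142 : v142 = P.c.b12)
    (h144 : v144 = P.c.q1)
    (h146 : v146 = P.c.q2)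
    (h149 : v149 = P.c.q3)
    (h153 : v153 = P.c.b21)
    (h155 : v155 = P.c.b22)
    (h157 : v157 = P.c.q4)
    (h159 : v159 = P.c.q5)
    (h162 : v162 = P.c.q6)
    (e_B_d : B = VBr P.c r X)
    (e_B_re : v152 = B.re)
    (e_B_im : v165 = B.im)
    (e_Bs_d : Bs = VBr P.cs r X)
    (e_Bs_re : v178 = Bs.re)
    (e_Bs_im : v191 = Bs.im)
    (e_DB_d : DB = VBd P.c (X * (r : ℂ)) U)
    (e_DB_re : v206 = DB.re)
    (e_DB_im : v216 = DB.im)
    (e_sax_d : sax = dt P.sa X)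
    (e_sax_v : v220 = sax)
    (h221 : v221 = P.a.re)
    (h222 : v222 = P.a.im)
    (e_Xv_d : Xv = -dt P.a T - (e * sax + f * As) * d - dt Ax U + dt B iM * d)
    (e_Xv_v : v239 = Xv)
    (h : TrE (realAlg (fun i => get 0 (P.syl n.l) i) (r) (s)) (pNb.drop 240) [v239, v238, v237, v236, v235, v234, v233, v232, v231, v230, v229, v228, v227, v226, v225, v224, v223, v222, v221, v220, v219, v218, v217, v216, v215, v214, v213, v212, v211, v210, v209, v208, v207, v206, v205, v204, v203, v202, v201, v200, v199, v198, v197, v196, v195, v194, v193, v192, v191, v190, v189, v188, v187, v186, v185, v184, v183, v182, v181, v180, v179, v178, v177, v176, v175, v174, v173, v172, v171, v170, v169, v168, v167, v166, v165, v164, v163, v162, v161, v160, v159, v158, v157, v156, v155, v154, v153, v152, v151, v150, v149, v148, v147, v146, v145, v144, v143, v142, v141, v140, v139, v138, v137, v136, v135, v134, v133, v132, v131, v130, v129, v128,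 v127, v126, v125, v124, v123, v122, v121, v120, v119, v118, v117, v116, v115, v114, v113, v112, v111, v110, v109, v108, v107, v106, v105, v104, v103, v102, v101, v100, v99, v98, v97, v96, v95, v94, v93, v92, v91, v90, v89, v88, v87, v86, v85, v84, v83, v82, v81, v80, v79, v78, v77, v76, v75, v74, v73, v72, v71, v70, v69, v68, v67, v66, v65, v64, v63, v62, v61, v60, v59, v58, v57, v56, v55, v54, v53, v52, v51, v50, v49, v48, v47, v46, v45, v44, v43, v42, v41, v40, v39, v38, v37, v36, v35, v34, v33, v32, v31, v30, v29, v28, v27, v26, v25, v24, v23, v22, v21, v20, v19, v18, v17, v16, v15, v14, v13, v12, v11, v10, v9, v8, v7, v6, v5, v4, v3, v2, v1, v0] (fun st => run (realAlg (fun i => get 0 (P.syl n.l) i) (r) (s)) pNb [] = st)) :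
    pNb_goal P n r s := by
  obtain ⟨v240, h240, h⟩ := h
  change v240 = (P.L 1).re at h240
  obtain ⟨v241, h241, h⟩ := h
  change v241 = v5 * v240 at h241
  obtain ⟨v242, h242, h⟩ := h
  change v242 = (P.L I).re at h242
  obtain ⟨v243, h243, h⟩ := h
  change v243 = v241 + v242 at h243
  obtain ⟨v244, h244, h⟩ := h
  change v244 = (P.L 1).im at h244
  obtain ⟨v245, h245, h⟩ := h
  change v245 = v5 * v244 at h245
  obtain ⟨v246, h246, h⟩ := h
  change v246 = (P.L I).im at h246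
  obtain ⟨v247, h247, h⟩ := h
  change v247 = v245 + v246 at h247
  obtain ⟨L, e_L_d⟩ : ∃ q : ℂ, q = P.L X := ⟨_, rfl⟩
  have e_L_re : v243 = L.re := by
    rw [e_L_d]
    simp only [L_re P X, L_im P X, h243, h242, h241, h240, e_X_re, e_X_im, mul_re, mul_im, add_re, add_im, sub_re, sub_im, neg_re, neg_im, I_re, I_im, ofReal_re,
      ofReal_im, one_re, one_im, zero_re, zero_im, dt, normSq_apply, re_ofNat, im_ofNat, conj_re, conj_im]
    try ring
  have e_L_im : v247 = L.im := by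
    rw [e_L_d]
    simp only [L_re P X, L_im P X, h247, h246, h245, h244, e_X_re, e_X_im, mul_re, mul_im, add_re, add_im, sub_re, sub_im, neg_re, neg_im, I_re, I_im, ofReal_re,
      ofReal_im, one_re, one_im, zero_re, zero_im, dt, normSq_apply, re_ofNat, im_ofNat, conj_re, conj_im]
    try ring
  obtain ⟨v248, h248, h⟩ := h
  change v248 = v64 * v127 at h248
  obtain ⟨v249, h249, h⟩ := h
  change v249 = v65 * v139 at h249
  obtain ⟨v250, h250, h⟩ := h
  change v250 = v248 + v249 at h250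
  obtain ⟨aV, e_aV_d⟩ : ∃ q : ℝ, q = dt Ax (P.V0 / (P.fs : ℂ)) := ⟨_, rfl⟩
  have e_aV_v : v250 = aV := by
    rw [e_aV_d]
    simp only [h250, h249, h248, h65, h64, e_Ax_im, e_Ax_re, mul_re, mul_im, add_re, add_im, sub_re, sub_im, neg_re, neg_im, I_re, I_im, ofReal_re,
      ofReal_im, one_re, one_im, zero_re, zero_im, dt, normSq_apply, re_ofNat, im_ofNat, conj_re, conj_im]
    try ring
  obtain ⟨v251, h251, h⟩ := h
  change v251 = (I * P.vs - P.bs).re at h251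
  obtain ⟨v252, h252, h⟩ := h
  change v252 = (I * P.vs - P.bs).im at h252
  obtain ⟨v253, h253, h⟩ := h
  change v253 = v72 * v152 at h253
  obtain ⟨v254, h254, h⟩ := h
  change v254 = v71 * v165 at h254
  obtain ⟨v255, h255, h⟩ := h
  change v255 = v253 - v254 at h255
  obtain ⟨v256, h256, h⟩ := h
  change v256 = v43 * v255 at h256
  obtain ⟨v257, h257, h⟩ := h
  change v257 = v44 * v255 at h257
  obtain ⟨v258, h258, h⟩ := h
  change v258 = v152 * v251 at h258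
  obtain ⟨v259, h259, h⟩ := h
  change v259 = v165 * v252 at h259
  obtain ⟨v260, h260, h⟩ := h
  change v260 = v258 + v259 at h260
  obtain ⟨v261, h261, h⟩ := h
  change v261 = v80 * v260 at h261
  obtain ⟨v262, h262, h⟩ := h
  change v262 = v84 * v260 at h262
  obtain ⟨v263, h263, h⟩ := h
  change v263 = v256 + v261 at h263
  obtain ⟨v264, h264, h⟩ := h
  change v264 = v257 + v262 at h264
  obtain ⟨v265, h265, h⟩ := h
  change v265 = v75 * v165 at h265
  obtain ⟨v266, h266, h⟩ := h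
  change v266 = v75 * v152 at h266
  obtain ⟨v267, h267, h⟩ := h
  change v267 = v263 + v265 at h267
  obtain ⟨v268, h268, h⟩ := h
  change v268 = v264 - v266 at h268
  obtain ⟨ZB, e_ZB_d⟩ : ∃ q : ℂ, q = ((dt B (-(I * y)) : ℝ) : ℂ) * P.ns + ((dt B (I * P.vs - P.bs) : ℝ) : ℂ) * fv - (k : ℂ) * (I * B) := ⟨_, rfl⟩
  have e_ZB_re : v267 = ZB.re := by
    rw [e_ZB_d]
    simp only [h267, h265, h263, h261, h260, h259, h258, h256, h255, h254, h253, h252, h251, h43, e_B_im, e_k_v, e_B_re, e_fv_re, e_y_re, e_y_im, mul_re, mul_im, add_re, add_im, sub_re, sub_im, neg_re, neg_im, I_re, I_im, ofReal_re,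
      ofReal_im, one_re, one_im, zero_re, zero_im, dt, normSq_apply, re_ofNat, im_ofNat, conj_re, conj_im]
    try ring
  have e_ZB_im : v268 = ZB.im := by
    rw [e_ZB_d]
    simp only [h268, h266, h264, h262, h260, h259, h258, h257, h255, h254, h253, h252, h251, h44, e_B_re, e_k_v, e_B_im, e_fv_im, e_y_re, e_y_im, mul_re, mul_im, add_re, add_im, sub_re, sub_im, neg_re, neg_im, I_re, I_im, ofReal_re,
      ofReal_im, one_re, one_im, zero_re, zero_im, dt, normSq_apply, re_ofNat, im_ofNat, conj_re, conj_im]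
    try ring
  obtain ⟨v269, h269, h⟩ := h
  change v269 = v0 * v114 at h269
  obtain ⟨v270, h270, h⟩ := h
  change v270 = v220 + v269 at h270
  obtain ⟨v271, h271, h⟩ := h
  change v271 = v270 - v250 at h271
  obtain ⟨v272, h272, h⟩ := h
  change v272 = v80 * v271 at h272
  obtain ⟨v273, h273, h⟩ := h
  change v273 = v84 * v271 at h273
  obtain ⟨v274, h274, h⟩ := h
  change v274 = v243 - v272 at h274
  obtain ⟨v275, h275, h⟩ := h
  change v275 = v247 - v273 at h275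
  obtain ⟨v276, h276, h⟩ := h
  change v276 = v2 * v165 at h276
  obtain ⟨v277, h277, h⟩ := h
  change v277 = v2 * v152 at h277
  obtain ⟨v278, h278, h⟩ := h
  change v278 = v178 - v276 at h278
  obtain ⟨v279, h279, h⟩ := h
  change v279 = v191 + v277 at h279
  exact pNb_c7 P n r s h0 h2 h4 e_X_d e_X_re e_X_im h7 e_d_d e_d_v h10 h11 e_yx_d e_S_d e_T_d h43 h44 e_e_d e_f_d e_f_v e_U_d e_y_d e_y_re e_y_im e_k_d e_k_v e_fv_d e_fv_re e_fv_im e_M_d e_iM_d e_iM_re e_iM_im e_nM_d e_nM_v e_As_d e_As_v e_Ax_d e_Ax_re e_Ax_im h140 h142 h144 h146 h149 h153 h155 h157 h159 h162 e_B_d e_B_re e_B_im e_Bs_d e_Bs_re e_Bs_im e_DB_d e_DB_re e_DB_im e_sax_d e_sax_v h221 h222 e_Xv_d e_Xv_v e_L_d e_L_re e_L_im e_aV_d e_aV_v h251 h252 e_ZB_d e_ZB_re e_ZB_im h269 h270 h271 h272 h273 h274 h275 h276 h277 h278 h279 h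

theorem pNb_c5 (P : Pt) (n : Nd) (r s : ℝ) {v0 v1 v2 v3 v4 v5 : ℝ} {X : ℂ} {v6 v7 v8 v9 d v10 v11 v12 v13 v14 v15 yx v16 v17 v18 v19 v20 v21 v22 v23 v24 v25 v26 v27 v28 v29 v30 v31 S v32 v33 v34 v35 v36 v37 v38 v39 v40 v41 v42 : ℝ} {T : ℂ} {v43 v44 v45 v46 e v47 v48 v49 f v50 v51 v52 v53 v54 v55 v56 v57 v58 v59 v60 v61 v62 v63 v64 v65 v66 v67 v68 v69 v70 : ℝ} {U : ℂ} {v71 v72 : ℝ} {y : ℂ} {v73 v74 v75 k v76 v77 v78 v79 v80 v81 v82 v83 v84 : ℝ} {fv : ℂ} {v85 v86 v87 v88 v89 v90 v91 v92 : ℝ} {M iM : ℂ} {v93 v94 v95 nM v96 v97 v98 v99 v100 v101 v102 v103 v104 v105 v106 v107 v108 v109 v110 v111 v112 v113 v114 As v115 v116 v117 v118 v119 v120 v121 v122 v123 v124 v125 v126 v127 v128 v129 v130 v131 v132 v133 v134 v135 v136 v137 v138 v139 : ℝ} {Ax : ℂ} {v140 v141 v142 v143 v144 v145 v146 v147 v148 v149 v150 v151 v152 v153 v154 v155 v156 v157 v158 v159 v160 v161 v162 v163 v164 v165 : ℝ} {B : ℂ} {v166 v167 v168 v169 v170 v171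 v172 v173 v174 v175 v176 v177 v178 v179 v180 v181 v182 v183 v184 v185 v186 v187 v188 v189 v190 v191 : ℝ} {Bs : ℂ} {v192 v193 v194 v195 v196 v197 v198 v199 : ℝ}
    (h0 : v0 = r)
    (h2 : v2 = (2 : ℝ))
    (h4 : v4 = (1 : ℝ))
    (e_X_d : X = (⟨2 * s - 1, 1⟩ : ℂ))
    (e_X_re : v5 = X.re)
    (e_X_im : X.im = (1 : ℝ))
    (h7 : v7 = v0 * v5)
    (e_d_d : d = 1 - 2 * P.ys.re - 2 * (r * X.re))
    (e_d_v : v9 = d)
    (h10 : v10 = v5 * v5)
    (h11 : v11 = v10 + v4)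
    (e_yx_d : yx = dt P.ys X)
    (e_S_d : S = 4 * ((P.ys.re - (1 - normSq P.ys) / (1 - 2 * P.ys.re)) * X.re + P.ys.im * X.im) ^ 2 - 2 * (1 - normSq P.ys) * normSq X + (4 * yx + normSq X * r) * normSq X * r)
    (e_T_d : T = I * ((2 * S : ℝ) : ℂ) + I * (X * ((2 * yx + normSq X * r : ℝ) : ℂ) + P.ys * (normSq X : ℂ)) * (d : ℂ))
    (e_T_re : v40 = -T.re)
    (e_T_im : v42 = T.im)
    (h43 : v43 = P.ns.re)
    (h44 : v44 = P.ns.im)
    (e_e_d : e = dt P.ns X)
    (e_e_v : v46 = e)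
    (e_f_d : f = P.fs + e * r)
    (e_f_v : v49 = f)
    (h64 : v64 = (P.V0 / (P.fs : ℂ)).re)
    (h65 : v65 = (P.V0 / (P.fs : ℂ)).im)
    (e_U_d : U = P.DV X * (d : ℂ) + T * (r : ℂ) - P.V0 / (P.fs : ℂ) * ((d * e : ℝ) : ℂ))
    (e_U_re : v69 = U.re)
    (e_U_im : v70 = U.im)
    (e_y_d : y = P.ys + X * (r : ℂ))
    (e_y_re : v71 = y.re)
    (e_y_im : v72 = y.im)
    (e_k_d : k = dt y P.ns)
    (e_k_v : v75 = k)
    (e_fv_d : fv = P.fv y)
    (e_fv_re : v80 = fv.re)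
    (e_fv_im : v84 = fv.im)
    (e_M_d : M = P.M X)
    (e_iM_d : iM = I * M)
    (e_iM_re : v92 = -iM.re)
    (e_iM_im : v88 = iM.im)
    (e_nM_d : nM = normSq M)
    (e_nM_v : v95 = nM)
    (e_As_d : As = VAr P.cs r X)
    (e_As_v : v114 = As)
    (e_Ax_d : Ax = VAxr P.c r X)
    (e_Ax_re : v127 = Ax.re)
    (e_Ax_im : v139 = Ax.im)
    (h140 : v140 = P.c.b11)
    (h142 : v142 = P.c.b12)
    (h144 : v144 = P.c.q1)
    (h146 : v146 = P.c.q2)
    (h149 : v149 = P.c.q3)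
    (h153 : v153 = P.c.b21)
    (h155 : v155 = P.c.b22)
    (h157 : v157 = P.c.q4)
    (h159 : v159 = P.c.q5)
    (h162 : v162 = P.c.q6)
    (e_B_d : B = VBr P.c r X)
    (e_B_re : v152 = B.re)
    (e_B_im : v165 = B.im)
    (e_Bs_d : Bs = VBr P.cs r X)
    (e_Bs_re : v178 = Bs.re)
    (e_Bs_im : v191 = Bs.im)
    (h192 : v192 = v5 * v69)
    (h193 : v193 = v2 * v192)
    (h194 : v194 = v5 * v70)
    (h195 : v195 = v69 + v194)
    (h196 : v196 = v2 * v70)
    (h197 : v197 = v69 * v140)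
    (h198 : v198 = v70 * v142)
    (h199 : v199 = v197 + v198)
    (h : TrE (realAlg (fun i => get 0 (P.syl n.l) i) (r) (s)) (pNb.drop 200) [v199, v198, v197, v196, v195, v194, v193, v192, v191, v190, v189, v188, v187, v186, v185, v184, v183, v182, v181, v180, v179, v178, v177, v176, v175, v174, v173, v172, v171, v170, v169, v168, v167, v166, v165, v164, v163, v162, v161, v160, v159, v158, v157, v156, v155, v154, v153, v152, v151, v150, v149, v148, v147, v146, v145, v144, v143, v142, v141, v140, v139, v138, v137, v136, v135, v134, v133, v132, v131, v130, v129, v128, v127, v126, v125, v124, v123, v122, v121, v120, v119, v118, v117, v116, v115, v114, v113, v112, v111, v110, v109, v108, v107, v106, v105, v104, v103, v102, v101, v100, v99, v98, v97, v96, v95, v94, v93, v92, v91, v90, v89, v88, v87, v86, v85, v84, v83, v82, v81, v80, v79, v78, v77, v76, v75, v74, v73, v72, v71, v70, v69, v68, v67, v66, v65, v64, v63, v62,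 v61, v60, v59, v58, v57, v56, v55, v54, v53, v52, v51, v50, v49, v48, v47, v46, v45, v44, v43, v42, v41, v40, v39, v38, v37, v36, v35, v34, v33, v32, v31, v30, v29, v28, v27, v26, v25, v24, v23, v22, v21, v20, v19, v18, v17, v16, v15, v14, v13, v12, v11, v10, v9, v8, v7, v6, v5, v4, v3, v2, v1, v0] (fun st => run (realAlg (fun i => get 0 (P.syl n.l) i) (r) (s)) pNb [] = st)) :
    pNb_goal P n r s := by
  obtain ⟨v200, h200, h⟩ := h
  change v200 = v144 * v193 at h200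
  obtain ⟨v201, h201, h⟩ := h
  change v201 = v146 * v195 at h201
  obtain ⟨v202, h202, h⟩ := h
  change v202 = v200 + v201 at h202
  obtain ⟨v203, h203, h⟩ := h
  change v203 = v149 * v196 at h203
  obtain ⟨v204, h204, h⟩ := h
  change v204 = v202 + v203 at h204
  obtain ⟨v205, h205, h⟩ := h
  change v205 = v0 * v204 at h205
  obtain ⟨v206, h206, h⟩ := h
  change v206 = v199 + v205 at h206
  obtain ⟨v207, h207, h⟩ := h
  change v207 = v69 * v153 at h207
  obtain ⟨v208, h208, h⟩ := h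
  change v208 = v70 * v155 at h208
  obtain ⟨v209, h209, h⟩ := h
  change v209 = v207 + v208 at h209
  obtain ⟨v210, h210, h⟩ := h
  change v210 = v157 * v193 at h210
  obtain ⟨v211, h211, h⟩ := h
  change v211 = v159 * v195 at h211
  obtain ⟨v212, h212, h⟩ := h
  change v212 = v210 + v211 at h212
  obtain ⟨v213, h213, h⟩ := h
  change v213 = v162 * v196 at h213
  obtain ⟨v214, h214, h⟩ := h
  change v214 = v212 + v213 at h214
  obtain ⟨v215, h215, h⟩ := h
  change v215 = v0 * v214 at h215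
  obtain ⟨v216, h216, h⟩ := h
  change v216 = v209 + v215 at h216
  obtain ⟨DB, e_DB_d⟩ : ∃ q : ℂ, q = VBd P.c (X * (r : ℂ)) U := ⟨_, rfl⟩
  have e_DB_re : v206 = DB.re := by
    rw [e_DB_d]
    simp only [VBd_re, VBd_im, h206, h205, h204, h203, h202, h201, h200, h199, h198, h197, h196, h195, h194, h193, h192, h149, h146, h144, h142, h140, h2, h0, e_U_im, e_X_re, e_U_re, e_X_im, mul_re, mul_im, add_re, add_im, sub_re, sub_im, neg_re, neg_im, I_re, I_im, ofReal_re,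
      ofReal_im, one_re, one_im, zero_re, zero_im, dt, normSq_apply, re_ofNat, im_ofNat, conj_re, conj_im]
    try ring
  have e_DB_im : v216 = DB.im := by
    rw [e_DB_d]
    simp only [VBd_re, VBd_im, h216, h215, h214, h213, h212, h211, h210, h209, h208, h207, h196, h195, h194, h193, h192, h162, h159, h157, h155, h153, h2, h0, e_U_im, e_X_re, e_U_re, e_X_im, mul_re, mul_im, add_re, add_im, sub_re, sub_im, neg_re, neg_im, I_re, I_im, ofReal_re,
      ofReal_im, one_re, one_im, zero_re, zero_im, dt, normSq_apply, re_ofNat, im_ofNat, conj_re, conj_im]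
    try ring
  obtain ⟨v217, h217, h⟩ := h
  change v217 = P.sa.re at h217
  obtain ⟨v218, h218, h⟩ := h
  change v218 = P.sa.im at h218
  obtain ⟨v219, h219, h⟩ := h
  change v219 = v5 * v217 at h219
  obtain ⟨v220, h220, h⟩ := h
  change v220 = v218 + v219 at h220
  obtain ⟨sax, e_sax_d⟩ : ∃ q : ℝ, q = dt P.sa X := ⟨_, rfl⟩
  have e_sax_v : v220 = sax := by
    rw [e_sax_d]
    simp only [h220, h219, h218, h217, e_X_re, e_X_im, mul_re, mul_im, add_re, add_im, sub_re, sub_im, neg_re, neg_im, I_re, I_im, ofReal_re,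
      ofReal_im, one_re, one_im, zero_re, zero_im, dt, normSq_apply, re_ofNat, im_ofNat, conj_re, conj_im]
    try ring
  obtain ⟨v221, h221, h⟩ := h
  change v221 = P.a.re at h221
  obtain ⟨v222, h222, h⟩ := h
  change v222 = P.a.im at h222
  obtain ⟨v223, h223, h⟩ := h
  change v223 = v40 * v221 at h223
  obtain ⟨v224, h224, h⟩ := h
  change v224 = v42 * v222 at h224
  obtain ⟨v225, h225, h⟩ := h
  change v225 = v224 - v223 at h225
  obtain ⟨v226, h226, h⟩ := h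
  change v226 = v46 * v220 at h226
  obtain ⟨v227, h227, h⟩ := h
  change v227 = v49 * v114 at h227
  obtain ⟨v228, h228, h⟩ := h
  change v228 = v226 + v227 at h228
  obtain ⟨v229, h229, h⟩ := h
  change v229 = v9 * v228 at h229
  obtain ⟨v230, h230, h⟩ := h
  change v230 = v225 + v229 at h230
  obtain ⟨v231, h231, h⟩ := h
  change v231 = v69 * v127 at h231
  obtain ⟨v232, h232, h⟩ := h
  change v232 = v70 * v139 at h232
  obtain ⟨v233, h233, h⟩ := h
  change v233 = v231 + v232 at h233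
  obtain ⟨v234, h234, h⟩ := h
  change v234 = v230 + v233 at h234
  obtain ⟨v235, h235, h⟩ := h
  change v235 = v92 * v152 at h235
  obtain ⟨v236, h236, h⟩ := h
  change v236 = v88 * v165 at h236
  obtain ⟨v237, h237, h⟩ := h
  change v237 = v236 - v235 at h237
  obtain ⟨v238, h238, h⟩ := h
  change v238 = v9 * v237 at h238
  obtain ⟨v239, h239, h⟩ := h
  change v239 = v238 - v234 at h239
  obtain ⟨Xv, e_Xv_d⟩ : ∃ q : ℝ, q = -dt P.a T - (e * sax + f * As) * d - dt Ax U + dt B iM * d := ⟨_, rfl⟩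
  have e_Xv_v : v239 = Xv := by
    rw [e_Xv_d]
    simp only [h239, h238, h237, h236, h235, h234, h233, h232, h231, h230, h229, h228, h227, h226, h225, h224, h223, h222, h221, e_Ax_im, e_U_im, e_Ax_re, e_U_re, e_As_v, e_f_v, e_sax_v, e_e_v, e_d_v, e_T_re, e_T_im, e_B_re, e_iM_re, e_B_im, e_iM_im, mul_re, mul_im, add_re, add_im, sub_re, sub_im, neg_re, neg_im, I_re, I_im, ofReal_re,
      ofReal_im, one_re, one_im, zero_re, zero_im, dt, normSq_apply, re_ofNat, im_ofNat, conj_re, conj_im]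
    try ring
  exact pNb_c6 P n r s h0 h2 h4 e_X_d e_X_re e_X_im h7 e_d_d e_d_v h10 h11 e_yx_d e_S_d e_T_d h43 h44 e_e_d e_f_d e_f_v h64 h65 e_U_d e_y_d e_y_re e_y_im e_k_d e_k_v e_fv_d e_fv_re e_fv_im e_M_d e_iM_d e_iM_re e_iM_im e_nM_d e_nM_v e_As_d e_As_v e_Ax_d e_Ax_re e_Ax_im h140 h142 h144 h146 h149 h153 h155 h157 h159 h162 e_B_d e_B_re e_B_im e_Bs_d e_Bs_re e_Bs_im e_DB_d e_DB_re e_DB_im e_sax_d e_sax_v h221 h222 e_Xv_d e_Xv_v h

theorem pNb_c4 (P : Pt) (n : Nd) (r s : ℝ) {v0 v1 v2 v3 v4 v5 : ℝ} {X : ℂ} {v6 v7 v8 v9 d v10 v11 v12 v13 v14 v15 yx v16 v17 v18 v19 v20 v21 v22 v23 v24 v25 v26 v27 v28 v29 v30 v31 S v32 v33 v34 v35 v36 v37 v38 v39 v40 v41 v42 : ℝ} {T : ℂ} {v43 v44 v45 v46 e v47 v48 v49 f v50 v51 v52 v53 v54 v55 v56 v57 v58 v59 v60 v61 v62 v63 v64 v65 v66 v67 v68 v69 v70 : ℝ} {U : ℂ} {v71 v72 : ℝ} {y : ℂ} {v73 v74 v75 k v76 v77 v78 v79 v80 v81 v82 v83 v84 : ℝ} {fv : ℂ} {v85 v86 v87 v88 v89 v90 v91 v92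 : ℝ} {M iM : ℂ} {v93 v94 v95 nM v96 v97 v98 v99 v100 v101 v102 v103 v104 v105 v106 v107 v108 v109 v110 v111 v112 v113 v114 As v115 v116 v117 v118 v119 v120 v121 v122 v123 v124 v125 v126 v127 v128 v129 v130 v131 v132 v133 v134 v135 v136 v137 v138 v139 : ℝ} {Ax : ℂ} {v140 v141 v142 v143 v144 v145 v146 v147 v148 v149 v150 v151 v152 v153 v154 v155 v156 v157 v158 v159 : ℝ}
    (h0 : v0 = r)
    (h2 : v2 = (2 : ℝ))
    (h4 : v4 = (1 : ℝ))
    (e_X_d : X = (⟨2 * s - 1, 1⟩ : ℂ))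
    (e_X_re : v5 = X.re)
    (e_X_im : X.im = (1 : ℝ))
    (h7 : v7 = v0 * v5)
    (e_d_d : d = 1 - 2 * P.ys.re - 2 * (r * X.re))
    (e_d_v : v9 = d)
    (h10 : v10 = v5 * v5)
    (h11 : v11 = v10 + v4)
    (e_yx_d : yx = dt P.ys X)
    (e_S_d : S = 4 * ((P.ys.re - (1 - normSq P.ys) / (1 - 2 * P.ys.re)) * X.re + P.ys.im * X.im) ^ 2 - 2 * (1 - normSq P.ys) * normSq X + (4 * yx + normSq X * r) * normSq X * r)
    (e_T_d : T = I * ((2 * S : ℝ) : ℂ) + I * (X * ((2 * yx + normSq X * r : ℝ) : ℂ) + P.ys * (normSq X : ℂ)) * (d : ℂ))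
    (e_T_re : v40 = -T.re)
    (e_T_im : v42 = T.im)
    (h43 : v43 = P.ns.re)
    (h44 : v44 = P.ns.im)
    (e_e_d : e = dt P.ns X)
    (e_e_v : v46 = e)
    (e_f_d : f = P.fs + e * r)
    (e_f_v : v49 = f)
    (h64 : v64 = (P.V0 / (P.fs : ℂ)).re)
    (h65 : v65 = (P.V0 / (P.fs : ℂ)).im)
    (e_U_d : U = P.DV X * (d : ℂ) + T * (r : ℂ) - P.V0 / (P.fs : ℂ) * ((d * e : ℝ) : ℂ))
    (e_U_re : v69 = U.re)
    (e_U_im : v70 = U.im)
    (e_y_d : y = P.ys + X * (r : ℂ))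
    (e_y_re : v71 = y.re)
    (e_y_im : v72 = y.im)
    (e_k_d : k = dt y P.ns)
    (e_k_v : v75 = k)
    (e_fv_d : fv = P.fv y)
    (e_fv_re : v80 = fv.re)
    (e_fv_im : v84 = fv.im)
    (e_M_d : M = P.M X)
    (e_iM_d : iM = I * M)
    (e_iM_re : v92 = -iM.re)
    (e_iM_im : v88 = iM.im)
    (e_nM_d : nM = normSq M)
    (e_nM_v : v95 = nM)
    (e_As_d : As = VAr P.cs r X)
    (e_As_v : v114 = As)
    (e_Ax_d : Ax = VAxr P.c r X)
    (e_Ax_re : v127 = Ax.re)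
    (e_Ax_im : v139 = Ax.im)
    (h140 : v140 = P.c.b11)
    (h141 : v141 = v5 * v140)
    (h142 : v142 = P.c.b12)
    (h143 : v143 = v141 + v142)
    (h144 : v144 = P.c.q1)
    (h145 : v145 = v10 * v144)
    (h146 : v146 = P.c.q2)
    (h147 : v147 = v5 * v146)
    (h148 : v148 = v145 + v147)
    (h149 : v149 = P.c.q3)
    (h150 : v150 = v148 + v149)
    (h151 : v151 = v0 * v150)
    (h152 : v152 = v143 + v151)
    (h153 : v153 = P.c.b21)
    (h154 : v154 = v5 * v153)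
    (h155 : v155 = P.c.b22)
    (h156 : v156 = v154 + v155)
    (h157 : v157 = P.c.q4)
    (h158 : v158 = v10 * v157)
    (h159 : v159 = P.c.q5)
    (h : TrE (realAlg (fun i => get 0 (P.syl n.l) i) (r) (s)) (pNb.drop 160) [v159, v158, v157, v156, v155, v154, v153, v152, v151, v150, v149, v148, v147, v146, v145, v144, v143, v142, v141, v140, v139, v138, v137, v136, v135, v134, v133, v132, v131, v130, v129, v128, v127, v126, v125, v124, v123, v122, v121, v120, v119, v118, v117, v116, v115, v114, v113, v112, v111, v110, v109, v108, v107, v106, v105, v104, v103, v102, v101, v100, v99, v98, v97, v96, v95, v94, v93, v92, v91, v90, v89, v88, v87, v86, v85, v84, v83, v82, v81, v80, v79, v78, v77, v76, v75, v74, v73, v72, v71, v70, v69, v68, v67, v66, v65, v64, v63, v62, v61, v60, v59, v58, v57, v56, v55, v54, v53, v52, v51, v50, v49, v48, v47, v46, v45, v44, v43, v42, v41, v40, v39, v38, v37, v36, v35, v34, v33, v32, v31, v30,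 v29, v28, v27, v26, v25, v24, v23, v22, v21, v20, v19, v18, v17, v16, v15, v14, v13, v12, v11, v10, v9, v8, v7, v6, v5, v4, v3, v2, v1, v0] (fun st => run (realAlg (fun i => get 0 (P.syl n.l) i) (r) (s)) pNb [] = st)) :
    pNb_goal P n r s := by
  obtain ⟨v160, h160, h⟩ := h
  change v160 = v5 * v159 at h160
  obtain ⟨v161, h161, h⟩ := h
  change v161 = v158 + v160 at h161
  obtain ⟨v162, h162, h⟩ := h
  change v162 = P.c.q6 at h162
  obtain ⟨v163, h163, h⟩ := h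
  change v163 = v161 + v162 at h163
  obtain ⟨v164, h164, h⟩ := h
  change v164 = v0 * v163 at h164
  obtain ⟨v165, h165, h⟩ := h
  change v165 = v156 + v164 at h165
  obtain ⟨B, e_B_d⟩ : ∃ q : ℂ, q = VBr P.c r X := ⟨_, rfl⟩
  have e_B_re : v152 = B.re := by
    rw [e_B_d]
    simp only [VBr_re, VBr_im, h152, h151, h150, h149, h148, h147, h146, h145, h144, h143, h142, h141, h140, h10, h0, e_X_re, e_X_im, mul_re, mul_im, add_re, add_im, sub_re, sub_im, neg_re, neg_im, I_re, I_im, ofReal_re,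
      ofReal_im, one_re, one_im, zero_re, zero_im, dt, normSq_apply, re_ofNat, im_ofNat, conj_re, conj_im]
    try ring
  have e_B_im : v165 = B.im := by
    rw [e_B_d]
    simp only [VBr_re, VBr_im, h165, h164, h163, h162, h161, h160, h159, h158, h157, h156, h155, h154, h153, h10, h0, e_X_re, e_X_im, mul_re, mul_im, add_re, add_im, sub_re, sub_im, neg_re, neg_im, I_re, I_im, ofReal_re,
      ofReal_im, one_re, one_im, zero_re, zero_im, dt, normSq_apply, re_ofNat, im_ofNat, conj_re, conj_im]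
    try ring
  obtain ⟨v166, h166, h⟩ := h
  change v166 = P.cs.b11 at h166
  obtain ⟨v167, h167, h⟩ := h
  change v167 = v5 * v166 at h167
  obtain ⟨v168, h168, h⟩ := h
  change v168 = P.cs.b12 at h168
  obtain ⟨v169, h169, h⟩ := h
  change v169 = v167 + v168 at h169
  obtain ⟨v170, h170, h⟩ := h
  change v170 = P.cs.q1 at h170
  obtain ⟨v171, h171, h⟩ := h
  change v171 = v10 * v170 at h171
  obtain ⟨v172, h172, h⟩ := h
  change v172 = P.cs.q2 at h172
  obtain ⟨v173, h173, h⟩ := h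
  change v173 = v5 * v172 at h173
  obtain ⟨v174, h174, h⟩ := h
  change v174 = v171 + v173 at h174
  obtain ⟨v175, h175, h⟩ := h
  change v175 = P.cs.q3 at h175
  obtain ⟨v176, h176, h⟩ := h
  change v176 = v174 + v175 at h176
  obtain ⟨v177, h177, h⟩ := h
  change v177 = v0 * v176 at h177
  obtain ⟨v178, h178, h⟩ := h
  change v178 = v169 + v177 at h178
  obtain ⟨v179, h179, h⟩ := h
  change v179 = P.cs.b21 at h179
  obtain ⟨v180, h180, h⟩ := h
  change v180 = v5 * v179 at h180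
  obtain ⟨v181, h181, h⟩ := h
  change v181 = P.cs.b22 at h181
  obtain ⟨v182, h182, h⟩ := h
  change v182 = v180 + v181 at h182
  obtain ⟨v183, h183, h⟩ := h
  change v183 = P.cs.q4 at h183
  obtain ⟨v184, h184, h⟩ := h
  change v184 = v10 * v183 at h184
  obtain ⟨v185, h185, h⟩ := h
  change v185 = P.cs.q5 at h185
  obtain ⟨v186, h186, h⟩ := h
  change v186 = v5 * v185 at h186
  obtain ⟨v187, h187, h⟩ := h
  change v187 = v184 + v186 at h187
  obtain ⟨v188, h188, h⟩ := h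
  change v188 = P.cs.q6 at h188
  obtain ⟨v189, h189, h⟩ := h
  change v189 = v187 + v188 at h189
  obtain ⟨v190, h190, h⟩ := h
  change v190 = v0 * v189 at h190
  obtain ⟨v191, h191, h⟩ := h
  change v191 = v182 + v190 at h191
  obtain ⟨Bs, e_Bs_d⟩ : ∃ q : ℂ, q = VBr P.cs r X := ⟨_, rfl⟩
  have e_Bs_re : v178 = Bs.re := by
    rw [e_Bs_d]
    simp only [VBr_re, VBr_im, h178, h177, h176, h175, h174, h173, h172, h171, h170, h169, h168, h167, h166, h10, h0, e_X_re, e_X_im, mul_re, mul_im, add_re, add_im, sub_re, sub_im, neg_re, neg_im, I_re, I_im, ofReal_re,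
      ofReal_im, one_re, one_im, zero_re, zero_im, dt, normSq_apply, re_ofNat, im_ofNat, conj_re, conj_im]
    try ring
  have e_Bs_im : v191 = Bs.im := by
    rw [e_Bs_d]
    simp only [VBr_re, VBr_im, h191, h190, h189, h188, h187, h186, h185, h184, h183, h182, h181, h180, h179, h10, h0, e_X_re, e_X_im, mul_re, mul_im, add_re, add_im, sub_re, sub_im, neg_re, neg_im, I_re, I_im, ofReal_re,
      ofReal_im, one_re, one_im, zero_re, zero_im, dt, normSq_apply, re_ofNat, im_ofNat, conj_re, conj_im]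
    try ring
  obtain ⟨v192, h192, h⟩ := h
  change v192 = v5 * v69 at h192
  obtain ⟨v193, h193, h⟩ := h
  change v193 = v2 * v192 at h193
  obtain ⟨v194, h194, h⟩ := h
  change v194 = v5 * v70 at h194
  obtain ⟨v195, h195, h⟩ := h
  change v195 = v69 + v194 at h195
  obtain ⟨v196, h196, h⟩ := h
  change v196 = v2 * v70 at h196
  obtain ⟨v197, h197, h⟩ := h
  change v197 = v69 * v140 at h197
  obtain ⟨v198, h198, h⟩ := h
  change v198 = v70 * v142 at h198
  obtain ⟨v199, h199, h⟩ := h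
  change v199 = v197 + v198 at h199
  exact pNb_c5 P n r s h0 h2 h4 e_X_d e_X_re e_X_im h7 e_d_d e_d_v h10 h11 e_yx_d e_S_d e_T_d e_T_re e_T_im h43 h44 e_e_d e_e_v e_f_d e_f_v h64 h65 e_U_d e_U_re e_U_im e_y_d e_y_re e_y_im e_k_d e_k_v e_fv_d e_fv_re e_fv_im e_M_d e_iM_d e_iM_re e_iM_im e_nM_d e_nM_v e_As_d e_As_v e_Ax_d e_Ax_re e_Ax_im h140 h142 h144 h146 h149 h153 h155 h157 h159 h162 e_B_d e_B_re e_B_im e_Bs_d e_Bs_re e_Bs_im h192 h193 h194 h195 h196 h197 h198 h199 h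

theorem pNb_c3 (P : Pt) (n : Nd) (r s : ℝ) {v0 v1 v2 v3 v4 v5 : ℝ} {X : ℂ} {v6 v7 v8 v9 d v10 v11 v12 v13 v14 v15 yx v16 v17 v18 v19 v20 v21 v22 v23 v24 v25 v26 v27 v28 v29 v30 v31 S v32 v33 v34 v35 v36 v37 v38 v39 v40 v41 v42 : ℝ} {T : ℂ} {v43 v44 v45 v46 e v47 v48 v49 f v50 v51 v52 v53 v54 v55 v56 v57 v58 v59 v60 v61 v62 v63 v64 v65 v66 v67 v68 v69 v70 : ℝ} {U : ℂ} {v71 v72 : ℝ} {y : ℂ} {v73 v74 v75 k v76 v77 v78 v79 v80 v81 v82 v83 v84 : ℝ} {fv : ℂ} {v85 v86 v87 v88 v89 v90 v91 v92 : ℝ} {M iM : ℂ} {v93 v94 v95 nM v96 v97 v98 v99 v100 v101 v102 v103 v104 v105 v106 v107 v108 v109 v110 v111 v112 v113 v114 As v115 v116 v117 v118 v119 : ℝ}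
    (h0 : v0 = r)
    (h2 : v2 = (2 : ℝ))
    (h4 : v4 = (1 : ℝ))
    (e_X_d : X = (⟨2 * s - 1, 1⟩ : ℂ))
    (e_X_re : v5 = X.re)
    (e_X_im : X.im = (1 : ℝ))
    (h7 : v7 = v0 * v5)
    (e_d_d : d = 1 - 2 * P.ys.re - 2 * (r * X.re))
    (e_d_v : v9 = d)
    (h10 : v10 = v5 * v5)
    (h11 : v11 = v10 + v4)
    (e_yx_d : yx = dt P.ys X)
    (e_S_d : S = 4 * ((P.ys.re - (1 - normSq P.ys) / (1 - 2 * P.ys.re)) * X.re + P.ys.im * X.im) ^ 2 - 2 * (1 - normSq P.ys) * normSq X + (4 * yx + normSq X * r) * normSq X * r)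
    (e_T_d : T = I * ((2 * S : ℝ) : ℂ) + I * (X * ((2 * yx + normSq X * r : ℝ) : ℂ) + P.ys * (normSq X : ℂ)) * (d : ℂ))
    (e_T_re : v40 = -T.re)
    (e_T_im : v42 = T.im)
    (h43 : v43 = P.ns.re)
    (h44 : v44 = P.ns.im)
    (e_e_d : e = dt P.ns X)
    (e_e_v : v46 = e)
    (e_f_d : f = P.fs + e * r)
    (e_f_v : v49 = f)
    (h64 : v64 = (P.V0 / (P.fs : ℂ)).re)
    (h65 : v65 = (P.V0 / (P.fs : ℂ)).im)
    (e_U_d : U = P.DV X * (d : ℂ) + T * (r : ℂ) - P.V0 / (P.fs : ℂ) * ((d * e : ℝ) : ℂ))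
    (e_U_re : v69 = U.re)
    (e_U_im : v70 = U.im)
    (e_y_d : y = P.ys + X * (r : ℂ))
    (e_y_re : v71 = y.re)
    (e_y_im : v72 = y.im)
    (e_k_d : k = dt y P.ns)
    (e_k_v : v75 = k)
    (e_fv_d : fv = P.fv y)
    (e_fv_re : v80 = fv.re)
    (e_fv_im : v84 = fv.im)
    (e_M_d : M = P.M X)
    (e_iM_d : iM = I * M)
    (e_iM_re : v92 = -iM.re)
    (e_iM_im : v88 = iM.im)
    (e_nM_d : nM = normSq M)
    (e_nM_v : v95 = nM)
    (e_As_d : As = VAr P.cs r X)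
    (e_As_v : v114 = As)
    (h115 : v115 = 2 * P.c.a20)
    (h116 : v116 = v5 * v115)
    (h117 : v117 = P.c.a11)
    (h118 : v118 = v116 + v117)
    (h119 : v119 = 3 * P.c.a30)
    (h : TrE (realAlg (fun i => get 0 (P.syl n.l) i) (r) (s)) (pNb.drop 120) [v119, v118, v117, v116, v115, v114, v113, v112, v111, v110, v109, v108, v107, v106, v105, v104, v103, v102, v101, v100, v99, v98, v97, v96, v95, v94, v93, v92, v91, v90, v89, v88, v87, v86, v85, v84, v83, v82, v81, v80, v79, v78, v77, v76, v75, v74, v73, v72, v71, v70, v69, v68, v67, v66, v65, v64, v63, v62, v61, v60, v59, v58, v57, v56, v55, v54, v53, v52, v51, v50, v49, v48, v47, v46, v45, v44, v43, v42, v41, v40, v39, v38, v37, v36, v35, v34, v33, v32, v31, v30, v29, v28, v27, v26, v25, v24, v23, v22, v21, v20, v19, v18, v17, v16, v15, v14, v13, v12, v11, v10, v9, v8, v7, v6, v5, v4, v3, v2, v1, v0] (fun st => run (realAlg (fun i => get 0 (P.syl n.l) i) (r) (s))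 pNb [] = st)) :
    pNb_goal P n r s := by
  obtain ⟨v120, h120, h⟩ := h
  change v120 = v10 * v119 at h120
  obtain ⟨v121, h121, h⟩ := h
  change v121 = 2 * P.c.a21 at h121
  obtain ⟨v122, h122, h⟩ := h
  change v122 = v5 * v121 at h122
  obtain ⟨v123, h123, h⟩ := h
  change v123 = v120 + v122 at h123
  obtain ⟨v124, h124, h⟩ := h
  change v124 = P.c.a12 at h124
  obtain ⟨v125, h125, h⟩ := h
  change v125 = v123 + v124 at h125
  obtain ⟨v126, h126, h⟩ := h
  change v126 = v0 * v125 at h126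
  obtain ⟨v127, h127, h⟩ := h
  change v127 = v118 + v126 at h127
  obtain ⟨v128, h128, h⟩ := h
  change v128 = v5 * v117 at h128
  obtain ⟨v129, h129, h⟩ := h
  change v129 = 2 * P.c.a02 at h129
  obtain ⟨v130, h130, h⟩ := h
  change v130 = v128 + v129 at h130
  obtain ⟨v131, h131, h⟩ := h
  change v131 = P.c.a21 at h131
  obtain ⟨v132, h132, h⟩ := h
  change v132 = v10 * v131 at h132
  obtain ⟨v133, h133, h⟩ := h
  change v133 = 2 * P.c.a12 at h133
  obtain ⟨v134, h134, h⟩ := h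
  change v134 = v5 * v133 at h134
  obtain ⟨v135, h135, h⟩ := h
  change v135 = v132 + v134 at h135
  obtain ⟨v136, h136, h⟩ := h
  change v136 = 3 * P.c.a03 at h136
  obtain ⟨v137, h137, h⟩ := h
  change v137 = v135 + v136 at h137
  obtain ⟨v138, h138, h⟩ := h
  change v138 = v0 * v137 at h138
  obtain ⟨v139, h139, h⟩ := h
  change v139 = v130 + v138 at h139
  obtain ⟨Ax, e_Ax_d⟩ : ∃ q : ℂ, q = VAxr P.c r X := ⟨_, rfl⟩
  have e_Ax_re : v127 = Ax.re := by
    rw [e_Ax_d]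
    simp only [VAxr_re, VAxr_im, h127, h126, h125, h124, h123, h122, h121, h120, h119, h118, h117, h116, h115, h10, h0, e_X_re, e_X_im, mul_re, mul_im, add_re, add_im, sub_re, sub_im, neg_re, neg_im, I_re, I_im, ofReal_re,
      ofReal_im, one_re, one_im, zero_re, zero_im, dt, normSq_apply, re_ofNat, im_ofNat, conj_re, conj_im]
    try ring
  have e_Ax_im : v139 = Ax.im := by
    rw [e_Ax_d]
    simp only [VAxr_re, VAxr_im, h139, h138, h137, h136, h135, h134, h133, h132, h131, h130, h129, h128, h117, h10, h0, e_X_re, e_X_im, mul_re, mul_im, add_re, add_im, sub_re, sub_im, neg_re, neg_im, I_re, I_im, ofReal_re,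
      ofReal_im, one_re, one_im, zero_re, zero_im, dt, normSq_apply, re_ofNat, im_ofNat, conj_re, conj_im]
    try ring
  obtain ⟨v140, h140, h⟩ := h
  change v140 = P.c.b11 at h140
  obtain ⟨v141, h141, h⟩ := h
  change v141 = v5 * v140 at h141
  obtain ⟨v142, h142, h⟩ := h
  change v142 = P.c.b12 at h142
  obtain ⟨v143, h143, h⟩ := h
  change v143 = v141 + v142 at h143
  obtain ⟨v144, h144, h⟩ := h
  change v144 = P.c.q1 at h144
  obtain ⟨v145, h145, h⟩ := h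
  change v145 = v10 * v144 at h145
  obtain ⟨v146, h146, h⟩ := h
  change v146 = P.c.q2 at h146
  obtain ⟨v147, h147, h⟩ := h
  change v147 = v5 * v146 at h147
  obtain ⟨v148, h148, h⟩ := h
  change v148 = v145 + v147 at h148
  obtain ⟨v149, h149, h⟩ := h
  change v149 = P.c.q3 at h149
  obtain ⟨v150, h150, h⟩ := h
  change v150 = v148 + v149 at h150
  obtain ⟨v151, h151, h⟩ := h
  change v151 = v0 * v150 at h151
  obtain ⟨v152, h152, h⟩ := h
  change v152 = v143 + v151 at h152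
  obtain ⟨v153, h153, h⟩ := h
  change v153 = P.c.b21 at h153
  obtain ⟨v154, h154, h⟩ := h
  change v154 = v5 * v153 at h154
  obtain ⟨v155, h155, h⟩ := h
  change v155 = P.c.b22 at h155
  obtain ⟨v156, h156, h⟩ := h
  change v156 = v154 + v155 at h156
  obtain ⟨v157, h157, h⟩ := h
  change v157 = P.c.q4 at h157
  obtain ⟨v158, h158, h⟩ := h
  change v158 = v10 * v157 at h158
  obtain ⟨v159, h159, h⟩ := h
  change v159 = P.c.q5 at h159
  exact pNb_c4 P n r s h0 h2 h4 e_X_d e_X_re e_X_im h7 e_d_d e_d_v h10 h11 e_yx_d e_S_d e_T_d e_T_re e_T_im h43 h44 e_e_d e_e_v e_f_d e_f_v h64 h65 e_U_d e_U_re e_U_im e_y_d e_y_re e_y_im e_k_d e_k_v e_fv_d e_fv_re e_fv_im e_M_d e_iM_d e_iM_re e_iM_im e_nM_d e_nM_v e_As_d e_As_v e_Ax_d e_Ax_re e_Ax_im h140 h141 h142 h143 h144 h145 h146 h147 h148 h149 h150 h151 h152 h153 h154 h155 h156 h157 h158 h159 h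

theorem pNb_c2 (P : Pt) (n : Nd) (r s : ℝ) {v0 v1 v2 v3 v4 v5 : ℝ} {X : ℂ} {v6 v7 v8 v9 d v10 v11 v12 v13 v14 v15 yx v16 v17 v18 v19 v20 v21 v22 v23 v24 v25 v26 v27 v28 v29 v30 v31 S v32 v33 v34 v35 v36 v37 v38 v39 v40 v41 v42 : ℝ} {T : ℂ} {v43 v44 v45 v46 e v47 v48 v49 f v50 v51 v52 v53 v54 v55 v56 v57 v58 v59 v60 v61 v62 v63 v64 v65 v66 v67 v68 v69 v70 : ℝ} {U : ℂ} {v71 v72 : ℝ} {y : ℂ} {v73 v74 v75 k v76 v77 v78 v79 : ℝ}
    (h0 : v0 = r)
    (h2 : v2 = (2 : ℝ))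
    (h4 : v4 = (1 : ℝ))
    (e_X_d : X = (⟨2 * s - 1, 1⟩ : ℂ))
    (e_X_re : v5 = X.re)
    (e_X_im : X.im = (1 : ℝ))
    (h7 : v7 = v0 * v5)
    (e_d_d : d = 1 - 2 * P.ys.re - 2 * (r * X.re))
    (e_d_v : v9 = d)
    (h10 : v10 = v5 * v5)
    (h11 : v11 = v10 + v4)
    (e_yx_d : yx = dt P.ys X)
    (e_S_d : S = 4 * ((P.ys.re - (1 - normSq P.ys) / (1 - 2 * P.ys.re)) * X.re + P.ys.im * X.im) ^ 2 - 2 * (1 - normSq P.ys) * normSq X + (4 * yx + normSq X * r) * normSq X * r)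
    (e_T_d : T = I * ((2 * S : ℝ) : ℂ) + I * (X * ((2 * yx + normSq X * r : ℝ) : ℂ) + P.ys * (normSq X : ℂ)) * (d : ℂ))
    (e_T_re : v40 = -T.re)
    (e_T_im : v42 = T.im)
    (h43 : v43 = P.ns.re)
    (h44 : v44 = P.ns.im)
    (e_e_d : e = dt P.ns X)
    (e_e_v : v46 = e)
    (e_f_d : f = P.fs + e * r)
    (e_f_v : v49 = f)
    (h64 : v64 = (P.V0 / (P.fs : ℂ)).re)
    (h65 : v65 = (P.V0 / (P.fs : ℂ)).im)
    (e_U_d : U = P.DV X * (d : ℂ) + T * (r : ℂ) - P.V0 / (P.fs : ℂ) * ((d * e : ℝ) : ℂ))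
    (e_U_re : v69 = U.re)
    (e_U_im : v70 = U.im)
    (e_y_d : y = P.ys + X * (r : ℂ))
    (e_y_re : v71 = y.re)
    (e_y_im : v72 = y.im)
    (e_k_d : k = dt y P.ns)
    (e_k_v : v75 = k)
    (h76 : v76 = (P.fv 1).re)
    (h77 : v77 = v71 * v76)
    (h78 : v78 = (P.fv 1).im)
    (h79 : v79 = v72 * v78)
    (h : TrE (realAlg (fun i => get 0 (P.syl n.l) i) (r) (s)) (pNb.drop 80) [v79, v78, v77, v76, v75, v74, v73, v72, v71, v70, v69, v68, v67, v66, v65, v64, v63, v62, v61, v60, v59, v58, v57, v56, v55, v54, v53, v52, v51, v50, v49, v48, v47, v46, v45, v44, v43, v42, v41, v40, v39, v38, v37, v36, v35, v34, v33, v32, v31, v30, v29, v28, v27, v26, v25, v24, v23, v22, v21, v20, v19, v18, v17, v16, v15, v14, v13, v12, v11, v10, v9, v8, v7, v6, v5, v4, v3, v2, v1, v0] (fun st => run (realAlg (fun i => get 0 (P.syl n.l) i) (r) (s)) pNb [] = st)) :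
    pNb_goal P n r s := by
  obtain ⟨v80, h80, h⟩ := h
  change v80 = v77 + v79 at h80
  obtain ⟨v81, h81, h⟩ := h
  change v81 = v71 * v78 at h81
  obtain ⟨v82, h82, h⟩ := h
  change v82 = (P.fv I).im at h82
  obtain ⟨v83, h83, h⟩ := h
  change v83 = v72 * v82 at h83
  obtain ⟨v84, h84, h⟩ := h
  change v84 = v81 + v83 at h84
  obtain ⟨fv, e_fv_d⟩ : ∃ q : ℂ, q = P.fv y := ⟨_, rfl⟩
  have e_fv_re : v80 = fv.re := by
    rw [e_fv_d]
    simp only [fv_re P y, fv_im P y, h80, h79, h78, h77, h76, e_y_im, e_y_re, mul_re, mul_im, add_re, add_im, sub_re, sub_im, neg_re, neg_im, I_re, I_im, ofReal_re,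
      ofReal_im, one_re, one_im, zero_re, zero_im, dt, normSq_apply, re_ofNat, im_ofNat, conj_re, conj_im]
    try ring
  have e_fv_im : v84 = fv.im := by
    rw [e_fv_d]
    simp only [fv_re P y, fv_im P y, h84, h83, h82, h81, h78, e_y_im, e_y_re, mul_re, mul_im, add_re, add_im, sub_re, sub_im, neg_re, neg_im, I_re, I_im, ofReal_re,
      ofReal_im, one_re, one_im, zero_re, zero_im, dt, normSq_apply, re_ofNat, im_ofNat, conj_re, conj_im]
    try ring
  obtain ⟨v85, h85, h⟩ := h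
  change v85 = (P.M 1).re at h85
  obtain ⟨v86, h86, h⟩ := h
  change v86 = v5 * v85 at h86
  obtain ⟨v87, h87, h⟩ := h
  change v87 = (P.M I).re at h87
  obtain ⟨v88, h88, h⟩ := h
  change v88 = v86 + v87 at h88
  obtain ⟨v89, h89, h⟩ := h
  change v89 = (P.M 1).im at h89
  obtain ⟨v90, h90, h⟩ := h
  change v90 = v5 * v89 at h90
  obtain ⟨v91, h91, h⟩ := h
  change v91 = (P.M I).im at h91
  obtain ⟨v92, h92, h⟩ := h
  change v92 = v90 + v91 at h92
  obtain ⟨M, e_M_d⟩ : ∃ q : ℂ, q = P.M X := ⟨_, rfl⟩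
  have e_M_re : v88 = M.re := by
    rw [e_M_d]
    simp only [M_re P X, M_im P X, h88, h87, h86, h85, e_X_re, e_X_im, mul_re, mul_im, add_re, add_im, sub_re, sub_im, neg_re, neg_im, I_re, I_im, ofReal_re,
      ofReal_im, one_re, one_im, zero_re, zero_im, dt, normSq_apply, re_ofNat, im_ofNat, conj_re, conj_im]
    try ring
  have e_M_im : v92 = M.im := by
    rw [e_M_d]
    simp only [M_re P X, M_im P X, h92, h91, h90, h89, e_X_re, e_X_im, mul_re, mul_im, add_re, add_im, sub_re, sub_im, neg_re, neg_im, I_re, I_im, ofReal_re,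
      ofReal_im, one_re, one_im, zero_re, zero_im, dt, normSq_apply, re_ofNat, im_ofNat, conj_re, conj_im]
    try ring
  obtain ⟨iM, e_iM_d⟩ : ∃ q : ℂ, q = I * M := ⟨_, rfl⟩
  have e_iM_re : v92 = -iM.re := by
    rw [e_iM_d]
    simp only [e_M_im, mul_re, mul_im, add_re, add_im, sub_re, sub_im, neg_re, neg_im, I_re, I_im, ofReal_re,
      ofReal_im, one_re, one_im, zero_re, zero_im, dt, normSq_apply, re_ofNat, im_ofNat, conj_re, conj_im]
    try ring
  have e_iM_im : v88 = iM.im := by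
    rw [e_iM_d]
    simp only [e_M_re, mul_re, mul_im, add_re, add_im, sub_re, sub_im, neg_re, neg_im, I_re, I_im, ofReal_re,
      ofReal_im, one_re, one_im, zero_re, zero_im, dt, normSq_apply, re_ofNat, im_ofNat, conj_re, conj_im]
    try ring
  obtain ⟨v93, h93, h⟩ := h
  change v93 = v88 * v88 at h93
  obtain ⟨v94, h94, h⟩ := h
  change v94 = v92 * v92 at h94
  obtain ⟨v95, h95, h⟩ := h
  change v95 = v93 + v94 at h95
  obtain ⟨nM, e_nM_d⟩ : ∃ q : ℝ, q = normSq M := ⟨_, rfl⟩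
  have e_nM_v : v95 = nM := by
    rw [e_nM_d]
    simp only [h95, h94, h93, e_M_im, e_M_re, mul_re, mul_im, add_re, add_im, sub_re, sub_im, neg_re, neg_im, I_re, I_im, ofReal_re,
      ofReal_im, one_re, one_im, zero_re, zero_im, dt, normSq_apply, re_ofNat, im_ofNat, conj_re, conj_im]
    try ring
  obtain ⟨v96, h96, h⟩ := h
  change v96 = P.cs.a30 at h96
  obtain ⟨v97, h97, h⟩ := h
  change v97 = v5 * v96 at h97
  obtain ⟨v98, h98, h⟩ := h
  change v98 = P.cs.a21 at h98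
  obtain ⟨v99, h99, h⟩ := h
  change v99 = v97 + v98 at h99
  obtain ⟨v100, h100, h⟩ := h
  change v100 = v10 * v99 at h100
  obtain ⟨v101, h101, h⟩ := h
  change v101 = P.cs.a12 at h101
  obtain ⟨v102, h102, h⟩ := h
  change v102 = v5 * v101 at h102
  obtain ⟨v103, h103, h⟩ := h
  change v103 = P.cs.a03 at h103
  obtain ⟨v104, h104, h⟩ := h
  change v104 = v102 + v103 at h104
  obtain ⟨v105, h105, h⟩ := h
  change v105 = v100 + v104 at h105
  obtain ⟨v106, h106, h⟩ := h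
  change v106 = P.cs.a20 at h106
  obtain ⟨v107, h107, h⟩ := h
  change v107 = v10 * v106 at h107
  obtain ⟨v108, h108, h⟩ := h
  change v108 = P.cs.a11 at h108
  obtain ⟨v109, h109, h⟩ := h
  change v109 = v5 * v108 at h109
  obtain ⟨v110, h110, h⟩ := h
  change v110 = v107 + v109 at h110
  obtain ⟨v111, h111, h⟩ := h
  change v111 = P.cs.a02 at h111
  obtain ⟨v112, h112, h⟩ := h
  change v112 = v110 + v111 at h112
  obtain ⟨v113, h113, h⟩ := h
  change v113 = v0 * v105 at h113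
  obtain ⟨v114, h114, h⟩ := h
  change v114 = v112 + v113 at h114
  obtain ⟨As, e_As_d⟩ : ∃ q : ℝ, q = VAr P.cs r X := ⟨_, rfl⟩
  have e_As_v : v114 = As := by
    rw [e_As_d]
    simp only [VAr_eq, h114, h113, h112, h111, h110, h109, h108, h107, h106, h105, h104, h103, h102, h101, h100, h99, h98, h97, h96, h10, h0, e_X_re, e_X_im, mul_re, mul_im, add_re, add_im, sub_re, sub_im, neg_re, neg_im, I_re, I_im, ofReal_re,
      ofReal_im, one_re, one_im, zero_re, zero_im, dt, normSq_apply, re_ofNat, im_ofNat, conj_re, conj_im]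
    try ring
  obtain ⟨v115, h115, h⟩ := h
  change v115 = 2 * P.c.a20 at h115
  obtain ⟨v116, h116, h⟩ := h
  change v116 = v5 * v115 at h116
  obtain ⟨v117, h117, h⟩ := h
  change v117 = P.c.a11 at h117
  obtain ⟨v118, h118, h⟩ := h
  change v118 = v116 + v117 at h118
  obtain ⟨v119, h119, h⟩ := h
  change v119 = 3 * P.c.a30 at h119
  exact pNb_c3 P n r s h0 h2 h4 e_X_d e_X_re e_X_im h7 e_d_d e_d_v h10 h11 e_yx_d e_S_d e_T_d e_T_re e_T_im h43 h44 e_e_d e_e_v e_f_d e_f_v h64 h65 e_U_d e_U_re e_U_im e_y_d e_y_re e_y_im e_k_d e_k_v e_fv_d e_fv_re e_fv_im e_M_d e_iM_d e_iM_re e_iM_im e_nM_d e_nM_v e_As_d e_As_v h115 h116 h117 h118 h119 h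

theorem pNb_c1 (P : Pt) (n : Nd) (r s : ℝ) {v0 v1 v2 v3 v4 v5 : ℝ} {X : ℂ} {v6 v7 v8 v9 d v10 v11 v12 v13 v14 v15 yx v16 v17 v18 v19 v20 v21 v22 v23 v24 v25 v26 v27 v28 v29 v30 v31 S v32 v33 v34 v35 v36 v37 v38 v39 : ℝ}
    (h0 : v0 = r)
    (h2 : v2 = (2 : ℝ))
    (h4 : v4 = (1 : ℝ))
    (e_X_d : X = (⟨2 * s - 1, 1⟩ : ℂ))
    (e_X_re : v5 = X.re)
    (e_X_im : X.im = (1 : ℝ))
    (h7 : v7 = v0 * v5)
    (e_d_d : d = 1 - 2 * P.ys.re - 2 * (r * X.re))
    (e_d_v : v9 = d)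
    (h10 : v10 = v5 * v5)
    (h11 : v11 = v10 + v4)
    (h12 : v12 = P.ys.re)
    (h13 : v13 = P.ys.im)
    (e_yx_d : yx = dt P.ys X)
    (e_yx_v : v15 = yx)
    (h27 : v27 = v0 * v11)
    (e_S_d : S = 4 * ((P.ys.re - (1 - normSq P.ys) / (1 - 2 * P.ys.re)) * X.re + P.ys.im * X.im) ^ 2 - 2 * (1 - normSq P.ys) * normSq X + (4 * yx + normSq X * r) * normSq X * r)
    (e_S_v : v31 = S)
    (h32 : v32 = v2 * v31)
    (h33 : v33 = v2 * v15)
    (h34 : v34 = v27 + v33)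
    (h35 : v35 = v5 * v34)
    (h36 : v36 = v11 * v12)
    (h37 : v37 = v11 * v13)
    (h38 : v38 = v35 + v36)
    (h39 : v39 = v34 + v37)
    (h : TrE (realAlg (fun i => get 0 (P.syl n.l) i) (r) (s)) (pNb.drop 40) [v39, v38, v37, v36, v35, v34, v33, v32, v31, v30, v29, v28, v27, v26, v25, v24, v23, v22, v21, v20, v19, v18, v17, v16, v15, v14, v13, v12, v11, v10, v9, v8, v7, v6, v5, v4, v3, v2, v1, v0] (fun st => run (realAlg (fun i => get 0 (P.syl n.l) i) (r) (s)) pNb [] = st)) :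
    pNb_goal P n r s := by
  obtain ⟨v40, h40, h⟩ := h
  change v40 = v9 * v39 at h40
  obtain ⟨v41, h41, h⟩ := h
  change v41 = v9 * v38 at h41
  obtain ⟨v42, h42, h⟩ := h
  change v42 = v32 + v41 at h42
  obtain ⟨T, e_T_d⟩ : ∃ q : ℂ, q = I * ((2 * S : ℝ) : ℂ) + I * (X * ((2 * yx + normSq X * r : ℝ) : ℂ) + P.ys * (normSq X : ℂ)) * (d : ℂ) := ⟨_, rfl⟩
  have e_T_re : v40 = -T.re := by
    rw [e_T_d]
    simp only [h40, h39, h37, h34, h33, h27, h13, h11, h10, h4, h2, h0, e_X_re, e_yx_v, e_d_v, e_X_im, mul_re, mul_im, add_re, add_im, sub_re, sub_im, neg_re, neg_im, I_re, I_im, ofReal_re,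
      ofReal_im, one_re, one_im, zero_re, zero_im, dt, normSq_apply, re_ofNat, im_ofNat, conj_re, conj_im]
    try ring
  have e_T_im : v42 = T.im := by
    rw [e_T_d]
    simp only [h42, h41, h38, h36, h35, h34, h33, h32, h27, h12, h11, h10, h4, h2, h0, e_X_re, e_yx_v, e_d_v, e_S_v, e_X_im, mul_re, mul_im, add_re, add_im, sub_re, sub_im, neg_re, neg_im, I_re, I_im, ofReal_re,
      ofReal_im, one_re, one_im, zero_re, zero_im, dt, normSq_apply, re_ofNat, im_ofNat, conj_re, conj_im]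
    try ring
  obtain ⟨v43, h43, h⟩ := h
  change v43 = P.ns.re at h43
  obtain ⟨v44, h44, h⟩ := h
  change v44 = P.ns.im at h44
  obtain ⟨v45, h45, h⟩ := h
  change v45 = v5 * v43 at h45
  obtain ⟨v46, h46, h⟩ := h
  change v46 = v44 + v45 at h46
  obtain ⟨e, e_e_d⟩ : ∃ q : ℝ, q = dt P.ns X := ⟨_, rfl⟩
  have e_e_v : v46 = e := by
    rw [e_e_d]
    simp only [h46, h45, h44, h43, e_X_re, e_X_im, mul_re, mul_im, add_re, add_im, sub_re, sub_im, neg_re, neg_im, I_re, I_im, ofReal_re,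
      ofReal_im, one_re, one_im, zero_re, zero_im, dt, normSq_apply, re_ofNat, im_ofNat, conj_re, conj_im]
    try ring
  obtain ⟨v47, h47, h⟩ := h
  change v47 = P.fs at h47
  obtain ⟨v48, h48, h⟩ := h
  change v48 = v0 * v46 at h48
  obtain ⟨v49, h49, h⟩ := h
  change v49 = v47 + v48 at h49
  obtain ⟨f, e_f_d⟩ : ∃ q : ℝ, q = P.fs + e * r := ⟨_, rfl⟩
  have e_f_v : v49 = f := by
    rw [e_f_d]
    simp only [h49, h48, h47, h0, e_e_v, mul_re, mul_im, add_re, add_im, sub_re, sub_im, neg_re, neg_im, I_re, I_im, ofReal_re,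
      ofReal_im, one_re, one_im, zero_re, zero_im, dt, normSq_apply, re_ofNat, im_ofNat, conj_re, conj_im]
    try ring
  obtain ⟨v50, h50, h⟩ := h
  change v50 = (P.DV 1).re at h50
  obtain ⟨v51, h51, h⟩ := h
  change v51 = v5 * v50 at h51
  obtain ⟨v52, h52, h⟩ := h
  change v52 = (P.DV I).re at h52
  obtain ⟨v53, h53, h⟩ := h
  change v53 = v51 + v52 at h53
  obtain ⟨v54, h54, h⟩ := h
  change v54 = (P.DV 1).im at h54
  obtain ⟨v55, h55, h⟩ := h
  change v55 = v5 * v54 at h55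
  obtain ⟨v56, h56, h⟩ := h
  change v56 = (P.DV I).im at h56
  obtain ⟨v57, h57, h⟩ := h
  change v57 = v55 + v56 at h57
  obtain ⟨v58, h58, h⟩ := h
  change v58 = v9 * v53 at h58
  obtain ⟨v59, h59, h⟩ := h
  change v59 = v9 * v57 at h59
  obtain ⟨v60, h60, h⟩ := h
  change v60 = v0 * v40 at h60
  obtain ⟨v61, h61, h⟩ := h
  change v61 = v0 * v42 at h61
  obtain ⟨v62, h62, h⟩ := h
  change v62 = v58 - v60 at h62
  obtain ⟨v63, h63, h⟩ := h
  change v63 = v59 + v61 at h63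
  obtain ⟨v64, h64, h⟩ := h
  change v64 = (P.V0 / (P.fs : ℂ)).re at h64
  obtain ⟨v65, h65, h⟩ := h
  change v65 = (P.V0 / (P.fs : ℂ)).im at h65
  obtain ⟨v66, h66, h⟩ := h
  change v66 = v9 * v46 at h66
  obtain ⟨v67, h67, h⟩ := h
  change v67 = v64 * v66 at h67
  obtain ⟨v68, h68, h⟩ := h
  change v68 = v65 * v66 at h68
  obtain ⟨v69, h69, h⟩ := h
  change v69 = v62 - v67 at h69
  obtain ⟨v70, h70, h⟩ := h
  change v70 = v63 - v68 at h70
  obtain ⟨U, e_U_d⟩ : ∃ q : ℂ, q = P.DV X * (d : ℂ) + T * (r : ℂ) - P.V0 / (P.fs : ℂ) * ((d * e : ℝ) : ℂ) := ⟨_, rfl⟩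
  have e_U_re : v69 = U.re := by
    rw [e_U_d]
    simp only [DV_re P X, DV_im P X, h69, h67, h66, h64, h62, h60, h58, h53, h52, h51, h50, h0, e_e_v, e_d_v, e_T_re, e_X_re, e_X_im, mul_re, mul_im, add_re, add_im, sub_re, sub_im, neg_re, neg_im, I_re, I_im, ofReal_re,
      ofReal_im, one_re, one_im, zero_re, zero_im, dt, normSq_apply, re_ofNat, im_ofNat, conj_re, conj_im]
    try ring
  have e_U_im : v70 = U.im := by
    rw [e_U_d]
    simp only [DV_re P X, DV_im P X, h70, h68, h66, h65, h63, h61, h59, h57, h56, h55, h54, h0, e_e_v, e_d_v, e_T_im, e_X_re, e_X_im, mul_re, mul_im, add_re, add_im, sub_re, sub_im, neg_re, neg_im, I_re, I_im, ofReal_re,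
      ofReal_im, one_re, one_im, zero_re, zero_im, dt, normSq_apply, re_ofNat, im_ofNat, conj_re, conj_im]
    try ring
  obtain ⟨v71, h71, h⟩ := h
  change v71 = v7 + v12 at h71
  obtain ⟨v72, h72, h⟩ := h
  change v72 = v0 + v13 at h72
  obtain ⟨y, e_y_d⟩ : ∃ q : ℂ, q = P.ys + X * (r : ℂ) := ⟨_, rfl⟩
  have e_y_re : v71 = y.re := by
    rw [e_y_d]
    simp only [h71, h12, h7, h0, e_X_re, e_X_im, mul_re, mul_im, add_re, add_im, sub_re, sub_im, neg_re, neg_im, I_re, I_im, ofReal_re,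
      ofReal_im, one_re, one_im, zero_re, zero_im, dt, normSq_apply, re_ofNat, im_ofNat, conj_re, conj_im]
    try ring
  have e_y_im : v72 = y.im := by
    rw [e_y_d]
    simp only [h72, h13, h0, e_X_im, mul_re, mul_im, add_re, add_im, sub_re, sub_im, neg_re, neg_im, I_re, I_im, ofReal_re,
      ofReal_im, one_re, one_im, zero_re, zero_im, dt, normSq_apply, re_ofNat, im_ofNat, conj_re, conj_im]
    try ring
  obtain ⟨v73, h73, h⟩ := h
  change v73 = v43 * v71 at h73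
  obtain ⟨v74, h74, h⟩ := h
  change v74 = v44 * v72 at h74
  obtain ⟨v75, h75, h⟩ := h
  change v75 = v73 + v74 at h75
  obtain ⟨k, e_k_d⟩ : ∃ q : ℝ, q = dt y P.ns := ⟨_, rfl⟩
  have e_k_v : v75 = k := by
    rw [e_k_d]
    simp only [h75, h74, h73, h44, h43, e_y_im, e_y_re, mul_re, mul_im, add_re, add_im, sub_re, sub_im, neg_re, neg_im, I_re, I_im, ofReal_re,
      ofReal_im, one_re, one_im, zero_re, zero_im, dt, normSq_apply, re_ofNat, im_ofNat, conj_re, conj_im]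
    try ring
  obtain ⟨v76, h76, h⟩ := h
  change v76 = (P.fv 1).re at h76
  obtain ⟨v77, h77, h⟩ := h
  change v77 = v71 * v76 at h77
  obtain ⟨v78, h78, h⟩ := h
  change v78 = (P.fv 1).im at h78
  obtain ⟨v79, h79, h⟩ := h
  change v79 = v72 * v78 at h79
  exact pNb_c2 P n r s h0 h2 h4 e_X_d e_X_re e_X_im h7 e_d_d e_d_v h10 h11 e_yx_d e_S_d e_T_d e_T_re e_T_im h43 h44 e_e_d e_e_v e_f_d e_f_v h64 h65 e_U_d e_U_re e_U_im e_y_d e_y_re e_y_im e_k_d e_k_v h76 h77 h78 h79 h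

theorem pNb_c0 (P : Pt) (n : Nd) (r s : ℝ)
    (h : TrE (realAlg (fun i => get 0 (P.syl n.l) i) (r) (s)) (pNb) [] (fun st => run (realAlg (fun i => get 0 (P.syl n.l) i) (r) (s)) pNb [] = st)) :
    pNb_goal P n r s := by
  obtain ⟨v0, h0, h⟩ := h
  change v0 = r at h0
  obtain ⟨v1, h1, h⟩ := h
  change v1 = s at h1
  obtain ⟨v2, h2, h⟩ := h
  replace h2 : v2 = (2 : ℝ) := by rw [h2]; norm_num [step, realAlg]
  obtain ⟨v3, h3, h⟩ := h
  change v3 = v1 * v2 at h3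
  obtain ⟨v4, h4, h⟩ := h
  replace h4 : v4 = (1 : ℝ) := by rw [h4]; norm_num [step, realAlg]
  obtain ⟨v5, h5, h⟩ := h
  change v5 = v3 - v4 at h5
  obtain ⟨X, e_X_d⟩ : ∃ q : ℂ, q = (⟨2 * s - 1, 1⟩ : ℂ) := ⟨_, rfl⟩
  have e_X_re : v5 = X.re := by
    rw [e_X_d]
    simp only [h5, h4, h3, h2, h1, mul_re, mul_im, add_re, add_im, sub_re, sub_im, neg_re, neg_im, I_re, I_im, ofReal_re,
      ofReal_im, one_re, one_im, zero_re, zero_im, dt, normSq_apply, re_ofNat, im_ofNat, conj_re, conj_im]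
    try ring
  have e_X_im : X.im = (1 : ℝ) := by
    first | (rw [e_X_d]; done) | (rw [e_X_d]; simp only [mul_re, mul_im, add_re, add_im, sub_re, sub_im, neg_re, neg_im, I_re, I_im, ofReal_re,
      ofReal_im, one_re, one_im, zero_re, zero_im, dt, normSq_apply, re_ofNat, im_ofNat, conj_re, conj_im]; try ring)
  obtain ⟨v6, h6, h⟩ := h
  change v6 = 1 - 2 * P.ys.re at h6
  obtain ⟨v7, h7, h⟩ := h
  change v7 = v0 * v5 at h7
  obtain ⟨v8, h8, h⟩ := h
  change v8 = v2 * v7 at h8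
  obtain ⟨v9, h9, h⟩ := h
  change v9 = v6 - v8 at h9
  obtain ⟨d, e_d_d⟩ : ∃ q : ℝ, q = 1 - 2 * P.ys.re - 2 * (r * X.re) := ⟨_, rfl⟩
  have e_d_v : v9 = d := by
    rw [e_d_d]
    simp only [h9, h8, h7, h6, h2, h0, e_X_re, e_X_im, mul_re, mul_im, add_re, add_im, sub_re, sub_im, neg_re, neg_im, I_re, I_im, ofReal_re,
      ofReal_im, one_re, one_im, zero_re, zero_im, dt, normSq_apply, re_ofNat, im_ofNat, conj_re, conj_im]
    try ring
  obtain ⟨v10, h10, h⟩ := h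
  change v10 = v5 * v5 at h10
  obtain ⟨v11, h11, h⟩ := h
  change v11 = v10 + v4 at h11
  obtain ⟨v12, h12, h⟩ := h
  change v12 = P.ys.re at h12
  obtain ⟨v13, h13, h⟩ := h
  change v13 = P.ys.im at h13
  obtain ⟨v14, h14, h⟩ := h
  change v14 = v5 * v12 at h14
  obtain ⟨v15, h15, h⟩ := h
  change v15 = v13 + v14 at h15
  obtain ⟨yx, e_yx_d⟩ : ∃ q : ℝ, q = dt P.ys X := ⟨_, rfl⟩
  have e_yx_v : v15 = yx := by
    rw [e_yx_d]
    simp only [h15, h14, h13, h12, e_X_re, e_X_im, mul_re, mul_im, add_re, add_im, sub_re, sub_im, neg_re, neg_im, I_re, I_im, ofReal_re,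
      ofReal_im, one_re, one_im, zero_re, zero_im, dt, normSq_apply, re_ofNat, im_ofNat, conj_re, conj_im]
    try ring
  obtain ⟨v16, h16, h⟩ := h
  change v16 = P.ys.re - (1 - normSq P.ys) / (1 - 2 * P.ys.re) at h16
  obtain ⟨v17, h17, h⟩ := h
  change v17 = v5 * v16 at h17
  obtain ⟨v18, h18, h⟩ := h
  change v18 = v13 + v17 at h18
  obtain ⟨v19, h19, h⟩ := h
  change v19 = v18 * v18 at h19
  obtain ⟨v20, h20, h⟩ := h
  replace h20 : v20 = (4 : ℝ) := by rw [h20]; norm_num [step, realAlg]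
  obtain ⟨v21, h21, h⟩ := h
  change v21 = v19 * v20 at h21
  obtain ⟨v22, h22, h⟩ := h
  change v22 = 1 - normSq P.ys at h22
  obtain ⟨v23, h23, h⟩ := h
  change v23 = v11 * v22 at h23
  obtain ⟨v24, h24, h⟩ := h
  change v24 = v2 * v23 at h24
  obtain ⟨v25, h25, h⟩ := h
  change v25 = v21 - v24 at h25
  obtain ⟨v26, h26, h⟩ := h
  change v26 = v15 * v20 at h26
  obtain ⟨v27, h27, h⟩ := h
  change v27 = v0 * v11 at h27
  obtain ⟨v28, h28, h⟩ := h
  change v28 = v26 + v27 at h28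
  obtain ⟨v29, h29, h⟩ := h
  change v29 = v11 * v28 at h29
  obtain ⟨v30, h30, h⟩ := h
  change v30 = v0 * v29 at h30
  obtain ⟨v31, h31, h⟩ := h
  change v31 = v25 + v30 at h31
  obtain ⟨S, e_S_d⟩ : ∃ q : ℝ, q = 4 * ((P.ys.re - (1 - normSq P.ys) / (1 - 2 * P.ys.re)) * X.re + P.ys.im * X.im) ^ 2 - 2 * (1 - normSq P.ys) * normSq X + (4 * yx + normSq X * r) * normSq X * r := ⟨_, rfl⟩
  have e_S_v : v31 = S := by
    rw [e_S_d]
    simp only [h31, h30, h29, h28, h27, h26, h25, h24, h23, h22, h21, h20, h19, h18, h17, h16, h13, h11, h10, h4, h2, h0, e_X_re, e_yx_v, e_X_im, mul_re, mul_im, add_re, add_im, sub_re, sub_im, neg_re, neg_im, I_re, I_im, ofReal_re,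
      ofReal_im, one_re, one_im, zero_re, zero_im, dt, normSq_apply, re_ofNat, im_ofNat, conj_re, conj_im]
    try ring
  obtain ⟨v32, h32, h⟩ := h
  change v32 = v2 * v31 at h32
  obtain ⟨v33, h33, h⟩ := h
  change v33 = v2 * v15 at h33
  obtain ⟨v34, h34, h⟩ := h
  change v34 = v27 + v33 at h34
  obtain ⟨v35, h35, h⟩ := h
  change v35 = v5 * v34 at h35
  obtain ⟨v36, h36, h⟩ := h
  change v36 = v11 * v12 at h36
  obtain ⟨v37, h37, h⟩ := h
  change v37 = v11 * v13 at h37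
  obtain ⟨v38, h38, h⟩ := h
  change v38 = v35 + v36 at h38
  obtain ⟨v39, h39, h⟩ := h
  change v39 = v34 + v37 at h39
  exact pNb_c1 P n r s h0 h2 h4 e_X_d e_X_re e_X_im h7 e_d_d e_d_v h10 h11 h12 h13 e_yx_d e_yx_v h27 e_S_d e_S_v h32 h33 h34 h35 h36 h37 h38 h39 h

theorem pNb_val (P : Pt) (n : Nd) (r s : ℝ) :
    OutEq (run (realAlg (fun i => get 0 (P.syl n.l) i) (r) (s)) pNb []) pNb_out
      [P.NA n.R r ⟨2 * s - 1, 1⟩ (P.T0 r ⟨2 * s - 1, 1⟩ (1 - 2 * P.ys.re - 2 * (r * (⟨2 * s - 1, 1⟩ : ℂ).re))) (P.U0 r ⟨2 * s - 1, 1⟩ (P.T0 r ⟨2 * s - 1, 1⟩ (1 - 2 * P.ys.re - 2 * (r * (⟨2 * s - 1, 1⟩ : ℂ).re))) (1 - 2 * P.ys.re - 2 * (r * (⟨2 * s - 1, 1⟩ : ℂ).re))) (1 - 2 * P.ys.re - 2 * (r * (⟨2 * s - 1, 1⟩ : ℂ).re)) (n.φ2 r ⟨2 * s - 1, 1⟩) (n.γ1 r ⟨2 * s - 1, 1⟩),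
      P.NB n.R r ⟨2 * s - 1, 1⟩ (P.T0 r ⟨2 * s - 1, 1⟩ (1 - 2 * P.ys.re - 2 * (r * (⟨2 * s - 1, 1⟩ : ℂ).re))) (P.U0 r ⟨2 * s - 1, 1⟩ (P.T0 r ⟨2 * s - 1, 1⟩ (1 - 2 * P.ys.re - 2 * (r * (⟨2 * s - 1, 1⟩ : ℂ).re))) (1 - 2 * P.ys.re - 2 * (r * (⟨2 * s - 1, 1⟩ : ℂ).re))) (1 - 2 * P.ys.re - 2 * (r * (⟨2 * s - 1, 1⟩ : ℂ).re)) (n.φ2 r ⟨2 * s - 1, 1⟩) (n.γ1 r ⟨2 * s - 1, 1⟩) n.τ (n.φt P r ⟨2 * s - 1, 1⟩) (n.γt P r ⟨2 * s - 1, 1⟩)] :=
  pNb_c0 P n r s (trE_runst (realAlg (fun i => get 0 (P.syl n.l) i) (r) (s)) pNb)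

end Pool.H61.Rh
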