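import Pool.Agent.H47.K3.Fast
import Pool.Agent.H89.Nz.PNb

/-! # generated: the program `pNb` in block form -/

set_option autoImplicit false
set_option maxRecDepth 1000000
set_option linter.all false

namespace Pool.H61.Rh

open Pool.H47.Kc Pool.H47.K3

def kNb_b35 {α : Type} (A : Alg α) (v513 v548 v553 v554 v555 v559 : α) : List α :=
  let v560 := A.add v555 v559
  let v561 := A.base 81
  let v562 := A.cst (3) 0
  let v563 := A.mul v561 v562
  let v564 := A.mul v513 v563
  let v565 := A.mul v553 v553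
  let v566 := A.mul v554 v554
  let v567 := A.add v565 v566
  let v568 := A.mul v564 v567
  let v569 := A.add v560 v568
  let v570 := A.cst (0) 0
  let v571 := A.sub v570 v569
  [v548, v571]

def kNb_b34 {α : Type} (A : Alg α) (v0 v49 v80 v84 v454 v510 v511 v513 v527 v528 v534 v543 : α) : List α :=
  let v544 := A.mul v534 v543
  let v545 := A.mul v527 v527
  let v546 := A.mul v528 v528
  let v547 := A.add v545 v546
  let v548 := A.sub v544 v547
  let v549 := A.mul v80 v454
  let v550 := A.mul v84 v454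
  let v551 := A.mul v49 v510
  let v552 := A.mul v49 v511
  let v553 := A.sub v549 v551
  let v554 := A.sub v550 v552
  let v555 := A.mul v454 v534
  let v556 := A.mul v527 v553
  let v557 := A.mul v528 v554
  let v558 := A.add v556 v557
  let v559 := A.mul v0 v558
  kNb_b35 A v513 v548 v553 v554 v555 v559

def kNb_b33 {α : Type} (A : Alg α) (v0 v9 v11 v49 v80 v84 v291 v292 v338 v379 v454 v510 v511 v512 v513 v522 v526 v527 : α) : List α :=
  let v528 := A.sub v522 v526
  let v529 := A.mul v9 v338
  let v530 := A.mul v512 v529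
  let v531 := A.base 83
  let v532 := A.mul v530 v531
  let v533 := A.cst (12) 0
  let v534 := A.mul v532 v533
  let v535 := A.mul v291 v338
  let v536 := A.mul v379 v513
  let v537 := A.mul v533 v536
  let v538 := A.sub v535 v537
  let v539 := A.mul v11 v292
  let v540 := A.cst (3) 11
  let v541 := A.mul v529 v540
  let v542 := A.mul v539 v541
  let v543 := A.sub v538 v542
  kNb_b34 A v0 v49 v80 v84 v454 v510 v511 v513 v527 v528 v534 v543

def kNb_b32 {α : Type} (A : Alg α) (v0 v9 v11 v49 v80 v84 v287 v291 v292 v325 v326 v338 v341 v379 v409 v410 v454 v510 v511 : α) : List α :=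
  let v512 := A.mul v292 v292
  let v513 := A.mul v49 v341
  let v514 := A.mul v325 v338
  let v515 := A.mul v326 v338
  let v516 := A.mul v287 v513
  let v517 := A.mul v0 v379
  let v518 := A.mul v516 v517
  let v519 := A.mul v80 v518
  let v520 := A.mul v84 v518
  let v521 := A.add v514 v519
  let v522 := A.add v515 v520
  let v523 := A.mul v49 v513
  let v524 := A.mul v287 v523
  let v525 := A.mul v409 v524
  let v526 := A.mul v410 v524
  let v527 := A.sub v521 v525
  kNb_b33 A v0 v9 v11 v49 v80 v84 v291 v292 v338 v379 v454 v510 v511 v512 v513 v522 v526 v527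

def kNb_b31 {α : Type} (A : Alg α) (v0 v9 v11 v49 v80 v84 v149 v153 v155 v157 v159 v162 v287 v291 v292 v325 v326 v338 v341 v379 v409 v410 v438 v439 v454 v469 v484 v486 v488 v489 v492 v495 : α) : List α :=
  let v496 := A.mul v149 v489
  let v497 := A.add v495 v496
  let v498 := A.mul v0 v497
  let v499 := A.add v492 v498
  let v500 := A.mul v153 v438
  let v501 := A.mul v155 v439
  let v502 := A.add v500 v501
  let v503 := A.mul v157 v486
  let v504 := A.mul v159 v488
  let v505 := A.add v503 v504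
  let v506 := A.mul v162 v489
  let v507 := A.add v505 v506
  let v508 := A.mul v0 v507
  let v509 := A.add v502 v508
  let v510 := A.sub v469 v499
  let v511 := A.sub v484 v509
  kNb_b32 A v0 v9 v11 v49 v80 v84 v287 v291 v292 v325 v326 v338 v341 v379 v409 v410 v454 v510 v511

def kNb_b30 {α : Type} (A : Alg α) (v0 v2 v5 v9 v11 v49 v80 v84 v140 v142 v144 v146 v149 v153 v155 v157 v159 v162 v287 v291 v292 v325 v326 v338 v341 v379 v384 v409 v410 v438 v439 v454 v469 v474 v479 : α) : List α :=
  let v480 := A.base 125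
  let v481 := A.mul v384 v480
  let v482 := A.sub v479 v481
  let v483 := A.mul v0 v482
  let v484 := A.add v474 v483
  let v485 := A.mul v5 v438
  let v486 := A.mul v2 v485
  let v487 := A.mul v5 v439
  let v488 := A.add v438 v487
  let v489 := A.mul v2 v439
  let v490 := A.mul v140 v438
  let v491 := A.mul v142 v439
  let v492 := A.add v490 v491
  let v493 := A.mul v144 v486
  let v494 := A.mul v146 v488
  let v495 := A.add v493 v494
  kNb_b31 A v0 v9 v11 v49 v80 v84 v149 v153 v155 v157 v159 v162 v287 v291 v292 v325 v326 v338 v341 v379 v409 v410 v438 v439 v454 v469 v484 v486 v488 v489 v492 v495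

def kNb_b29 {α : Type} (A : Alg α) (v0 v2 v5 v9 v11 v49 v80 v84 v140 v142 v144 v146 v149 v153 v155 v157 v159 v162 v287 v291 v292 v325 v326 v338 v341 v346 v347 v379 v381 v383 v384 v409 v410 v438 v439 v454 v459 v461 v463 : α) : List α :=
  let v464 := A.add v461 v463
  let v465 := A.base 122
  let v466 := A.mul v384 v465
  let v467 := A.sub v464 v466
  let v468 := A.mul v0 v467
  let v469 := A.add v459 v468
  let v470 := A.base 118
  let v471 := A.mul v346 v470
  let v472 := A.base 119
  let v473 := A.mul v347 v472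
  let v474 := A.sub v471 v473
  let v475 := A.base 123
  let v476 := A.mul v381 v475
  let v477 := A.base 124
  let v478 := A.mul v383 v477
  let v479 := A.add v476 v478
  kNb_b30 A v0 v2 v5 v9 v11 v49 v80 v84 v140 v142 v144 v146 v149 v153 v155 v157 v159 v162 v287 v291 v292 v325 v326 v338 v341 v379 v384 v409 v410 v438 v439 v454 v469 v474 v479

def kNb_b28 {α : Type} (A : Alg α) (v0 v2 v5 v9 v11 v49 v80 v84 v139 v140 v142 v144 v146 v149 v153 v155 v157 v159 v162 v221 v222 v287 v291 v292 v325 v326 v338 v341 v346 v347 v379 v381 v383 v384 v409 v410 v438 v439 v446 v447 : α) : List α :=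
  let v448 := A.mul v0 v139
  let v449 := A.add v221 v447
  let v450 := A.add v222 v448
  let v451 := A.mul v438 v449
  let v452 := A.mul v439 v450
  let v453 := A.add v451 v452
  let v454 := A.sub v446 v453
  let v455 := A.base 116
  let v456 := A.mul v346 v455
  let v457 := A.base 117
  let v458 := A.mul v347 v457
  let v459 := A.sub v456 v458
  let v460 := A.base 120
  let v461 := A.mul v381 v460
  let v462 := A.base 121
  let v463 := A.mul v383 v462
  kNb_b29 A v0 v2 v5 v9 v11 v49 v80 v84 v140 v142 v144 v146 v149 v153 v155 v157 v159 v162 v287 v291 v292 v325 v326 v338 v341 v346 v347 v379 v381 v383 v384 v409 v410 v438 v439 v454 v459 v461 v463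

def kNb_b27 {α : Type} (A : Alg α) (v0 v2 v5 v9 v11 v49 v80 v84 v127 v139 v140 v142 v144 v146 v149 v153 v155 v157 v159 v162 v221 v222 v287 v291 v292 v325 v326 v338 v341 v346 v347 v379 v381 v383 v384 v409 v410 v423 v426 v431 : α) : List α :=
  let v432 := A.base 115
  let v433 := A.add v431 v432
  let v434 := A.mul v0 v433
  let v435 := A.add v426 v434
  let v436 := A.base 84
  let v437 := A.base 85
  let v438 := A.base 86
  let v439 := A.base 87
  let v440 := A.mul v0 v423
  let v441 := A.mul v0 v435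
  let v442 := A.add v436 v440
  let v443 := A.add v437 v441
  let v444 := A.mul v346 v442
  let v445 := A.mul v347 v443
  let v446 := A.sub v444 v445
  let v447 := A.mul v0 v127
  kNb_b28 A v0 v2 v5 v9 v11 v49 v80 v84 v139 v140 v142 v144 v146 v149 v153 v155 v157 v159 v162 v221 v222 v287 v291 v292 v325 v326 v338 v341 v346 v347 v379 v381 v383 v384 v409 v410 v438 v439 v446 v447

def kNb_b26 {α : Type} (A : Alg α) (v0 v2 v5 v9 v10 v11 v49 v80 v84 v127 v139 v140 v142 v144 v146 v149 v153 v155 v157 v159 v162 v221 v222 v287 v291 v292 v325 v326 v338 v341 v346 v347 v379 v381 v383 v384 v409 v410 v413 v414 v415 : α) : List α :=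
  let v416 := A.mul v10 v415
  let v417 := A.base 111
  let v418 := A.mul v5 v417
  let v419 := A.add v416 v418
  let v420 := A.base 112
  let v421 := A.add v419 v420
  let v422 := A.mul v0 v421
  let v423 := A.add v414 v422
  let v424 := A.mul v5 v413
  let v425 := A.base 109
  let v426 := A.add v424 v425
  let v427 := A.base 113
  let v428 := A.mul v10 v427
  let v429 := A.base 114
  let v430 := A.mul v5 v429
  let v431 := A.add v428 v430
  kNb_b27 A v0 v2 v5 v9 v11 v49 v80 v84 v127 v139 v140 v142 v144 v146 v149 v153 v155 v157 v159 v162 v221 v222 v287 v291 v292 v325 v326 v338 v341 v346 v347 v379 v381 v383 v384 v409 v410 v423 v426 v431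

def kNb_b25 {α : Type} (A : Alg α) (v0 v2 v5 v9 v10 v11 v49 v80 v84 v127 v139 v140 v142 v144 v146 v149 v153 v155 v157 v159 v162 v221 v222 v287 v291 v292 v325 v326 v338 v341 v346 v347 v379 v381 v383 v384 v392 v397 v399 : α) : List α :=
  let v400 := A.sub v397 v399
  let v401 := A.base 97
  let v402 := A.mul v5 v401
  let v403 := A.base 98
  let v404 := A.add v402 v403
  let v405 := A.base 99
  let v406 := A.mul v5 v405
  let v407 := A.base 100
  let v408 := A.add v406 v407
  let v409 := A.sub v392 v404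
  let v410 := A.sub v400 v408
  let v411 := A.base 107
  let v412 := A.mul v5 v411
  let v413 := A.base 108
  let v414 := A.add v412 v413
  let v415 := A.base 110
  kNb_b26 A v0 v2 v5 v9 v10 v11 v49 v80 v84 v127 v139 v140 v142 v144 v146 v149 v153 v155 v157 v159 v162 v221 v222 v287 v291 v292 v325 v326 v338 v341 v346 v347 v379 v381 v383 v384 v409 v410 v413 v414 v415

def kNb_b24 {α : Type} (A : Alg α) (v0 v2 v5 v9 v10 v11 v49 v80 v84 v127 v139 v140 v142 v144 v146 v149 v153 v155 v157 v159 v162 v221 v222 v287 v291 v292 v325 v326 v338 v341 v346 v347 v379 v381 v383 : α) : List α :=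
  let v384 := A.mul v2 v347
  let v385 := A.base 101
  let v386 := A.mul v381 v385
  let v387 := A.base 102
  let v388 := A.mul v383 v387
  let v389 := A.add v386 v388
  let v390 := A.base 103
  let v391 := A.mul v384 v390
  let v392 := A.sub v389 v391
  let v393 := A.base 104
  let v394 := A.mul v381 v393
  let v395 := A.base 105
  let v396 := A.mul v383 v395
  let v397 := A.add v394 v396
  let v398 := A.base 106
  let v399 := A.mul v384 v398
  kNb_b25 A v0 v2 v5 v9 v10 v11 v49 v80 v84 v127 v139 v140 v142 v144 v146 v149 v153 v155 v157 v159 v162 v221 v222 v287 v291 v292 v325 v326 v338 v341 v346 v347 v379 v381 v383 v384 v392 v397 v399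

def kNb_b23 {α : Type} (A : Alg α) (v0 v2 v5 v9 v10 v11 v49 v80 v84 v127 v139 v140 v142 v144 v146 v149 v153 v155 v157 v159 v162 v221 v222 v287 v291 v292 v325 v326 v328 v329 v338 v341 v342 v346 v347 v354 v361 v364 v367 : α) : List α :=
  let v368 := A.mul v5 v364
  let v369 := A.base 90
  let v370 := A.add v368 v369
  let v371 := A.mul v0 v361
  let v372 := A.add v370 v371
  let v373 := A.mul v328 v354
  let v374 := A.mul v329 v361
  let v375 := A.sub v373 v374
  let v376 := A.mul v342 v375
  let v377 := A.mul v5 v367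
  let v378 := A.add v372 v377
  let v379 := A.sub v376 v378
  let v380 := A.mul v5 v346
  let v381 := A.mul v2 v380
  let v382 := A.mul v5 v347
  let v383 := A.sub v346 v382
  kNb_b24 A v0 v2 v5 v9 v10 v11 v49 v80 v84 v127 v139 v140 v142 v144 v146 v149 v153 v155 v157 v159 v162 v221 v222 v287 v291 v292 v325 v326 v338 v341 v346 v347 v379 v381 v383

def kNb_b22 {α : Type} (A : Alg α) (v0 v2 v5 v9 v10 v11 v49 v80 v84 v127 v139 v140 v142 v144 v146 v149 v153 v155 v157 v159 v162 v221 v222 v287 v291 v292 v325 v326 v328 v329 v338 v341 v342 v346 v347 v349 v351 : α) : List α :=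
  let v352 := A.add v349 v351
  let v353 := A.base 93
  let v354 := A.add v352 v353
  let v355 := A.base 94
  let v356 := A.mul v10 v355
  let v357 := A.base 95
  let v358 := A.mul v5 v357
  let v359 := A.add v356 v358
  let v360 := A.base 96
  let v361 := A.add v359 v360
  let v362 := A.base 88
  let v363 := A.mul v5 v362
  let v364 := A.base 89
  let v365 := A.add v363 v364
  let v366 := A.mul v0 v354
  let v367 := A.add v365 v366
  kNb_b23 A v0 v2 v5 v9 v10 v11 v49 v80 v84 v127 v139 v140 v142 v144 v146 v149 v153 v155 v157 v159 v162 v221 v222 v287 v291 v292 v325 v326 v328 v329 v338 v341 v342 v346 v347 v354 v361 v364 v367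

def kNb_b21 {α : Type} (A : Alg α) (v0 v2 v4 v5 v7 v9 v10 v11 v49 v80 v84 v127 v139 v140 v142 v144 v146 v149 v153 v155 v157 v159 v162 v221 v222 v287 v291 v292 v325 v326 v327 v328 v329 v333 v334 v335 : α) : List α :=
  let v336 := A.add v334 v335
  let v337 := A.mul v2 v336
  let v338 := A.add v337 v4
  let v339 := A.mul v2 v327
  let v340 := A.mul v333 v333
  let v341 := A.mul v339 v340
  let v342 := A.base 82
  let v343 := A.mul v328 v342
  let v344 := A.mul v327 v342
  let v345 := A.mul v328 v344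
  let v346 := A.sub v343 v7
  let v347 := A.add v0 v345
  let v348 := A.base 91
  let v349 := A.mul v10 v348
  let v350 := A.base 92
  let v351 := A.mul v5 v350
  kNb_b22 A v0 v2 v5 v9 v10 v11 v49 v80 v84 v127 v139 v140 v142 v144 v146 v149 v153 v155 v157 v159 v162 v221 v222 v287 v291 v292 v325 v326 v328 v329 v338 v341 v342 v346 v347 v349 v351

def kNb_b20 {α : Type} (A : Alg α) (v0 v2 v4 v5 v7 v9 v10 v11 v49 v71 v72 v80 v84 v127 v139 v140 v142 v144 v146 v149 v153 v155 v157 v159 v162 v206 v216 v221 v222 v287 v291 v292 v316 v317 v318 v319 : α) : List α :=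
  let v320 := A.sub v318 v206
  let v321 := A.sub v319 v216
  let v322 := A.mul v287 v292
  let v323 := A.mul v320 v322
  let v324 := A.mul v321 v322
  let v325 := A.add v316 v323
  let v326 := A.add v317 v324
  let v327 := A.base 78
  let v328 := A.cst (1) 1
  let v329 := A.mul v327 v328
  let v330 := A.mul v71 v71
  let v331 := A.mul v72 v72
  let v332 := A.add v330 v331
  let v333 := A.sub v4 v332
  let v334 := A.mul v71 v328
  let v335 := A.mul v72 v329
  kNb_b21 A v0 v2 v4 v5 v7 v9 v10 v11 v49 v80 v84 v127 v139 v140 v142 v144 v146 v149 v153 v155 v157 v159 v162 v221 v222 v287 v291 v292 v325 v326 v327 v328 v329 v333 v334 v335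

def kNb_b19 {α : Type} (A : Alg α) (v0 v2 v4 v5 v7 v9 v10 v11 v49 v71 v72 v75 v80 v84 v88 v92 v127 v139 v140 v142 v144 v146 v149 v153 v155 v157 v159 v162 v206 v216 v221 v222 v284 v285 v287 v288 v289 v291 v292 v297 v302 v303 : α) : List α :=
  let v304 := A.sub v302 v297
  let v305 := A.mul v75 v88
  let v306 := A.mul v75 v92
  let v307 := A.add v303 v305
  let v308 := A.add v304 v306
  let v309 := A.mul v9 v49
  let v310 := A.mul v307 v309
  let v311 := A.mul v308 v309
  let v312 := A.sub v289 v288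
  let v313 := A.mul v0 v312
  let v314 := A.mul v80 v313
  let v315 := A.mul v84 v313
  let v316 := A.add v310 v314
  let v317 := A.add v311 v315
  let v318 := A.mul v9 v284
  let v319 := A.mul v9 v285
  kNb_b20 A v0 v2 v4 v5 v7 v9 v10 v11 v49 v71 v72 v80 v84 v127 v139 v140 v142 v144 v146 v149 v153 v155 v157 v159 v162 v206 v216 v221 v222 v287 v291 v292 v316 v317 v318 v319

def kNb_b18 {α : Type} (A : Alg α) (v0 v2 v4 v5 v7 v9 v10 v11 v43 v44 v49 v71 v72 v75 v80 v84 v88 v92 v95 v127 v139 v140 v142 v144 v146 v149 v153 v155 v157 v159 v162 v206 v216 v221 v222 v251 v252 v284 v285 v286 v287 : α) : List α :=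
  let v288 := A.mul v286 v287
  let v289 := A.mul v9 v95
  let v290 := A.mul v2 v288
  let v291 := A.sub v290 v289
  let v292 := A.mul v49 v49
  let v293 := A.mul v72 v92
  let v294 := A.mul v71 v88
  let v295 := A.add v293 v294
  let v296 := A.mul v43 v295
  let v297 := A.mul v44 v295
  let v298 := A.mul v92 v251
  let v299 := A.mul v88 v252
  let v300 := A.sub v299 v298
  let v301 := A.mul v80 v300
  let v302 := A.mul v84 v300
  let v303 := A.sub v301 v296
  kNb_b19 A v0 v2 v4 v5 v7 v9 v10 v11 v49 v71 v72 v75 v80 v84 v88 v92 v127 v139 v140 v142 v144 v146 v149 v153 v155 v157 v159 v162 v206 v216 v221 v222 v284 v285 v287 v288 v289 v291 v292 v297 v302 v303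

def kNb_b17 {α : Type} (A : Alg α) (v0 v2 v4 v5 v7 v9 v10 v11 v43 v44 v49 v71 v72 v75 v80 v84 v88 v92 v95 v127 v139 v140 v142 v144 v146 v149 v152 v153 v155 v157 v159 v162 v165 v178 v191 v206 v216 v221 v222 v239 v243 v247 v251 v252 v267 v268 v271 : α) : List α :=
  let v272 := A.mul v80 v271
  let v273 := A.mul v84 v271
  let v274 := A.sub v243 v272
  let v275 := A.sub v247 v273
  let v276 := A.mul v2 v165
  let v277 := A.mul v2 v152
  let v278 := A.sub v178 v276
  let v279 := A.add v191 v277
  let v280 := A.mul v49 v278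
  let v281 := A.mul v49 v279
  let v282 := A.sub v274 v280
  let v283 := A.sub v275 v281
  let v284 := A.sub v282 v267
  let v285 := A.sub v283 v268
  let v286 := A.mul v49 v239
  let v287 := A.cst (6) 0
  kNb_b18 A v0 v2 v4 v5 v7 v9 v10 v11 v43 v44 v49 v71 v72 v75 v80 v84 v88 v92 v95 v127 v139 v140 v142 v144 v146 v149 v153 v155 v157 v159 v162 v206 v216 v221 v222 v251 v252 v284 v285 v286 v287

def kNb_b16 {α : Type} (A : Alg α) (v0 v2 v4 v5 v7 v9 v10 v11 v43 v44 v49 v71 v72 v75 v80 v84 v88 v92 v95 v114 v127 v139 v140 v142 v144 v146 v149 v152 v153 v155 v157 v159 v162 v165 v178 v191 v206 v216 v220 v221 v222 v239 v243 v247 v250 v251 v252 v255 : α) : List α :=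
  let v256 := A.mul v43 v255
  let v257 := A.mul v44 v255
  let v258 := A.mul v152 v251
  let v259 := A.mul v165 v252
  let v260 := A.add v258 v259
  let v261 := A.mul v80 v260
  let v262 := A.mul v84 v260
  let v263 := A.add v256 v261
  let v264 := A.add v257 v262
  let v265 := A.mul v75 v165
  let v266 := A.mul v75 v152
  let v267 := A.add v263 v265
  let v268 := A.sub v264 v266
  let v269 := A.mul v0 v114
  let v270 := A.add v220 v269
  let v271 := A.sub v270 v250
  kNb_b17 A v0 v2 v4 v5 v7 v9 v10 v11 v43 v44 v49 v71 v72 v75 v80 v84 v88 v92 v95 v127 v139 v140 v142 v144 v146 v149 v152 v153 v155 v157 v159 v162 v165 v178 v191 v206 v216 v221 v222 v239 v243 v247 v251 v252 v267 v268 v271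

def kNb_b15 {α : Type} (A : Alg α) (v0 v2 v4 v5 v7 v9 v10 v11 v43 v44 v49 v64 v65 v71 v72 v75 v80 v84 v88 v92 v95 v114 v127 v139 v140 v142 v144 v146 v149 v152 v153 v155 v157 v159 v162 v165 v178 v191 v206 v216 v220 v221 v222 v239 : α) : List α :=
  let v240 := A.base 23
  let v241 := A.mul v5 v240
  let v242 := A.base 24
  let v243 := A.add v241 v242
  let v244 := A.base 25
  let v245 := A.mul v5 v244
  let v246 := A.base 26
  let v247 := A.add v245 v246
  let v248 := A.mul v64 v127
  let v249 := A.mul v65 v139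
  let v250 := A.add v248 v249
  let v251 := A.base 27
  let v252 := A.base 28
  let v253 := A.mul v72 v152
  let v254 := A.mul v71 v165
  let v255 := A.sub v253 v254
  kNb_b16 A v0 v2 v4 v5 v7 v9 v10 v11 v43 v44 v49 v71 v72 v75 v80 v84 v88 v92 v95 v114 v127 v139 v140 v142 v144 v146 v149 v152 v153 v155 v157 v159 v162 v165 v178 v191 v206 v216 v220 v221 v222 v239 v243 v247 v250 v251 v252 v255

def kNb_b14 {α : Type} (A : Alg α) (v0 v2 v4 v5 v7 v9 v10 v11 v42 v43 v44 v46 v49 v64 v65 v69 v70 v71 v72 v75 v80 v84 v88 v92 v95 v114 v127 v139 v140 v142 v144 v146 v149 v152 v153 v155 v157 v159 v162 v165 v178 v191 v206 v216 v220 v221 v222 v223 : α) : List α :=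
  let v224 := A.mul v42 v222
  let v225 := A.sub v224 v223
  let v226 := A.mul v46 v220
  let v227 := A.mul v49 v114
  let v228 := A.add v226 v227
  let v229 := A.mul v9 v228
  let v230 := A.add v225 v229
  let v231 := A.mul v69 v127
  let v232 := A.mul v70 v139
  let v233 := A.add v231 v232
  let v234 := A.add v230 v233
  let v235 := A.mul v92 v152
  let v236 := A.mul v88 v165
  let v237 := A.sub v236 v235
  let v238 := A.mul v9 v237
  let v239 := A.sub v238 v234
  kNb_b15 A v0 v2 v4 v5 v7 v9 v10 v11 v43 v44 v49 v64 v65 v71 v72 v75 v80 v84 v88 v92 v95 v114 v127 v139 v140 v142 v144 v146 v149 v152 v153 v155 v157 v159 v162 v165 v178 v191 v206 v216 v220 v221 v222 v239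

def kNb_b13 {α : Type} (A : Alg α) (v0 v2 v4 v5 v7 v9 v10 v11 v40 v42 v43 v44 v46 v49 v64 v65 v69 v70 v71 v72 v75 v80 v84 v88 v92 v95 v114 v127 v139 v140 v142 v144 v146 v149 v152 v153 v155 v157 v159 v162 v165 v178 v191 v193 v195 v196 v206 v207 : α) : List α :=
  let v208 := A.mul v70 v155
  let v209 := A.add v207 v208
  let v210 := A.mul v157 v193
  let v211 := A.mul v159 v195
  let v212 := A.add v210 v211
  let v213 := A.mul v162 v196
  let v214 := A.add v212 v213
  let v215 := A.mul v0 v214
  let v216 := A.add v209 v215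
  let v217 := A.base 31
  let v218 := A.base 32
  let v219 := A.mul v5 v217
  let v220 := A.add v218 v219
  let v221 := A.base 29
  let v222 := A.base 30
  let v223 := A.mul v40 v221
  kNb_b14 A v0 v2 v4 v5 v7 v9 v10 v11 v42 v43 v44 v46 v49 v64 v65 v69 v70 v71 v72 v75 v80 v84 v88 v92 v95 v114 v127 v139 v140 v142 v144 v146 v149 v152 v153 v155 v157 v159 v162 v165 v178 v191 v206 v216 v220 v221 v222 v223

def kNb_b12 {α : Type} (A : Alg α) (v0 v2 v4 v5 v7 v9 v10 v11 v40 v42 v43 v44 v46 v49 v64 v65 v69 v70 v71 v72 v75 v80 v84 v88 v92 v95 v114 v127 v139 v140 v142 v144 v146 v149 v152 v153 v155 v157 v159 v162 v165 v178 v191 : α) : List α :=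
  let v192 := A.mul v5 v69
  let v193 := A.mul v2 v192
  let v194 := A.mul v5 v70
  let v195 := A.add v69 v194
  let v196 := A.mul v2 v70
  let v197 := A.mul v69 v140
  let v198 := A.mul v70 v142
  let v199 := A.add v197 v198
  let v200 := A.mul v144 v193
  let v201 := A.mul v146 v195
  let v202 := A.add v200 v201
  let v203 := A.mul v149 v196
  let v204 := A.add v202 v203
  let v205 := A.mul v0 v204
  let v206 := A.add v199 v205
  let v207 := A.mul v69 v153
  kNb_b13 A v0 v2 v4 v5 v7 v9 v10 v11 v40 v42 v43 v44 v46 v49 v64 v65 v69 v70 v71 v72 v75 v80 v84 v88 v92 v95 v114 v127 v139 v140 v142 v144 v146 v149 v152 v153 v155 v157 v159 v162 v165 v178 v191 v193 v195 v196 v206 v207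

def kNb_b11 {α : Type} (A : Alg α) (v0 v2 v4 v5 v7 v9 v10 v11 v40 v42 v43 v44 v46 v49 v64 v65 v69 v70 v71 v72 v75 v80 v84 v88 v92 v95 v114 v127 v139 v140 v142 v144 v146 v149 v152 v153 v155 v157 v159 v162 v165 v169 v174 v175 : α) : List α :=
  let v176 := A.add v174 v175
  let v177 := A.mul v0 v176
  let v178 := A.add v169 v177
  let v179 := A.base 61
  let v180 := A.mul v5 v179
  let v181 := A.base 62
  let v182 := A.add v180 v181
  let v183 := A.base 66
  let v184 := A.mul v10 v183
  let v185 := A.base 67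
  let v186 := A.mul v5 v185
  let v187 := A.add v184 v186
  let v188 := A.base 68
  let v189 := A.add v187 v188
  let v190 := A.mul v0 v189
  let v191 := A.add v182 v190
  kNb_b12 A v0 v2 v4 v5 v7 v9 v10 v11 v40 v42 v43 v44 v46 v49 v64 v65 v69 v70 v71 v72 v75 v80 v84 v88 v92 v95 v114 v127 v139 v140 v142 v144 v146 v149 v152 v153 v155 v157 v159 v162 v165 v178 v191

def kNb_b10 {α : Type} (A : Alg α) (v0 v2 v4 v5 v7 v9 v10 v11 v40 v42 v43 v44 v46 v49 v64 v65 v69 v70 v71 v72 v75 v80 v84 v88 v92 v95 v114 v127 v139 v140 v142 v144 v146 v149 v152 v153 v155 v156 v157 v158 v159 : α) : List α :=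
  let v160 := A.mul v5 v159
  let v161 := A.add v158 v160
  let v162 := A.base 58
  let v163 := A.add v161 v162
  let v164 := A.mul v0 v163
  let v165 := A.add v156 v164
  let v166 := A.base 59
  let v167 := A.mul v5 v166
  let v168 := A.base 60
  let v169 := A.add v167 v168
  let v170 := A.base 63
  let v171 := A.mul v10 v170
  let v172 := A.base 64
  let v173 := A.mul v5 v172
  let v174 := A.add v171 v173
  let v175 := A.base 65
  kNb_b11 A v0 v2 v4 v5 v7 v9 v10 v11 v40 v42 v43 v44 v46 v49 v64 v65 v69 v70 v71 v72 v75 v80 v84 v88 v92 v95 v114 v127 v139 v140 v142 v144 v146 v149 v152 v153 v155 v157 v159 v162 v165 v169 v174 v175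

def kNb_b9 {α : Type} (A : Alg α) (v0 v2 v4 v5 v7 v9 v10 v11 v40 v42 v43 v44 v46 v49 v64 v65 v69 v70 v71 v72 v75 v80 v84 v88 v92 v95 v114 v127 v139 v140 v142 v143 : α) : List α :=
  let v144 := A.base 53
  let v145 := A.mul v10 v144
  let v146 := A.base 54
  let v147 := A.mul v5 v146
  let v148 := A.add v145 v147
  let v149 := A.base 55
  let v150 := A.add v148 v149
  let v151 := A.mul v0 v150
  let v152 := A.add v143 v151
  let v153 := A.base 51
  let v154 := A.mul v5 v153
  let v155 := A.base 52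
  let v156 := A.add v154 v155
  let v157 := A.base 56
  let v158 := A.mul v10 v157
  let v159 := A.base 57
  kNb_b10 A v0 v2 v4 v5 v7 v9 v10 v11 v40 v42 v43 v44 v46 v49 v64 v65 v69 v70 v71 v72 v75 v80 v84 v88 v92 v95 v114 v127 v139 v140 v142 v144 v146 v149 v152 v153 v155 v156 v157 v158 v159

def kNb_b8 {α : Type} (A : Alg α) (v0 v2 v4 v5 v7 v9 v10 v11 v40 v42 v43 v44 v46 v49 v64 v65 v69 v70 v71 v72 v75 v80 v84 v88 v92 v95 v114 v117 v127 : α) : List α :=
  let v128 := A.mul v5 v117
  let v129 := A.base 35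
  let v130 := A.add v128 v129
  let v131 := A.base 39
  let v132 := A.mul v10 v131
  let v133 := A.base 40
  let v134 := A.mul v5 v133
  let v135 := A.add v132 v134
  let v136 := A.base 41
  let v137 := A.add v135 v136
  let v138 := A.mul v0 v137
  let v139 := A.add v130 v138
  let v140 := A.base 49
  let v141 := A.mul v5 v140
  let v142 := A.base 50
  let v143 := A.add v141 v142
  kNb_b9 A v0 v2 v4 v5 v7 v9 v10 v11 v40 v42 v43 v44 v46 v49 v64 v65 v69 v70 v71 v72 v75 v80 v84 v88 v92 v95 v114 v127 v139 v140 v142 v143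

def kNb_b7 {α : Type} (A : Alg α) (v0 v2 v4 v5 v7 v9 v10 v11 v40 v42 v43 v44 v46 v49 v64 v65 v69 v70 v71 v72 v75 v80 v84 v88 v92 v95 v105 v110 v111 : α) : List α :=
  let v112 := A.add v110 v111
  let v113 := A.mul v0 v105
  let v114 := A.add v112 v113
  let v115 := A.base 33
  let v116 := A.mul v5 v115
  let v117 := A.base 34
  let v118 := A.add v116 v117
  let v119 := A.base 36
  let v120 := A.mul v10 v119
  let v121 := A.base 37
  let v122 := A.mul v5 v121
  let v123 := A.add v120 v122
  let v124 := A.base 38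
  let v125 := A.add v123 v124
  let v126 := A.mul v0 v125
  let v127 := A.add v118 v126
  kNb_b8 A v0 v2 v4 v5 v7 v9 v10 v11 v40 v42 v43 v44 v46 v49 v64 v65 v69 v70 v71 v72 v75 v80 v84 v88 v92 v95 v114 v117 v127

def kNb_b6 {α : Type} (A : Alg α) (v0 v2 v4 v5 v7 v9 v10 v11 v40 v42 v43 v44 v46 v49 v64 v65 v69 v70 v71 v72 v75 v80 v84 v88 v92 v95 : α) : List α :=
  let v96 := A.base 45
  let v97 := A.mul v5 v96
  let v98 := A.base 46
  let v99 := A.add v97 v98
  let v100 := A.mul v10 v99
  let v101 := A.base 47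
  let v102 := A.mul v5 v101
  let v103 := A.base 48
  let v104 := A.add v102 v103
  let v105 := A.add v100 v104
  let v106 := A.base 42
  let v107 := A.mul v10 v106
  let v108 := A.base 43
  let v109 := A.mul v5 v108
  let v110 := A.add v107 v109
  let v111 := A.base 44
  kNb_b7 A v0 v2 v4 v5 v7 v9 v10 v11 v40 v42 v43 v44 v46 v49 v64 v65 v69 v70 v71 v72 v75 v80 v84 v88 v92 v95 v105 v110 v111

def kNb_b5 {α : Type} (A : Alg α) (v0 v2 v4 v5 v7 v9 v10 v11 v40 v42 v43 v44 v46 v49 v64 v65 v69 v70 v71 v72 v75 v77 v78 v79 : α) : List α :=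
  let v80 := A.add v77 v79
  let v81 := A.mul v71 v78
  let v82 := A.base 18
  let v83 := A.mul v72 v82
  let v84 := A.add v81 v83
  let v85 := A.base 19
  let v86 := A.mul v5 v85
  let v87 := A.base 20
  let v88 := A.add v86 v87
  let v89 := A.base 21
  let v90 := A.mul v5 v89
  let v91 := A.base 22
  let v92 := A.add v90 v91
  let v93 := A.mul v88 v88
  let v94 := A.mul v92 v92
  let v95 := A.add v93 v94
  kNb_b6 A v0 v2 v4 v5 v7 v9 v10 v11 v40 v42 v43 v44 v46 v49 v64 v65 v69 v70 v71 v72 v75 v80 v84 v88 v92 v95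

def kNb_b4 {α : Type} (A : Alg α) (v0 v2 v4 v5 v7 v9 v10 v11 v12 v13 v40 v42 v43 v44 v46 v49 v62 v63 : α) : List α :=
  let v64 := A.base 11
  let v65 := A.base 12
  let v66 := A.mul v9 v46
  let v67 := A.mul v64 v66
  let v68 := A.mul v65 v66
  let v69 := A.sub v62 v67
  let v70 := A.sub v63 v68
  let v71 := A.add v7 v12
  let v72 := A.add v0 v13
  let v73 := A.mul v43 v71
  let v74 := A.mul v44 v72
  let v75 := A.add v73 v74
  let v76 := A.base 16
  let v77 := A.mul v71 v76
  let v78 := A.base 17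
  let v79 := A.mul v72 v78
  kNb_b5 A v0 v2 v4 v5 v7 v9 v10 v11 v40 v42 v43 v44 v46 v49 v64 v65 v69 v70 v71 v72 v75 v77 v78 v79

def kNb_b3 {α : Type} (A : Alg α) (v0 v2 v4 v5 v7 v9 v10 v11 v12 v13 v40 v42 v43 v44 v46 v47 : α) : List α :=
  let v48 := A.mul v0 v46
  let v49 := A.add v47 v48
  let v50 := A.base 7
  let v51 := A.mul v5 v50
  let v52 := A.base 8
  let v53 := A.add v51 v52
  let v54 := A.base 9
  let v55 := A.mul v5 v54
  let v56 := A.base 10
  let v57 := A.add v55 v56
  let v58 := A.mul v9 v53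
  let v59 := A.mul v9 v57
  let v60 := A.mul v0 v40
  let v61 := A.mul v0 v42
  let v62 := A.sub v58 v60
  let v63 := A.add v59 v61
  kNb_b4 A v0 v2 v4 v5 v7 v9 v10 v11 v12 v13 v40 v42 v43 v44 v46 v49 v62 v63

def kNb_b2 {α : Type} (A : Alg α) (v0 v2 v4 v5 v7 v9 v10 v11 v12 v13 v15 v27 v31 : α) : List α :=
  let v32 := A.mul v2 v31
  let v33 := A.mul v2 v15
  let v34 := A.add v27 v33
  let v35 := A.mul v5 v34
  let v36 := A.mul v11 v12
  let v37 := A.mul v11 v13
  let v38 := A.add v35 v36
  let v39 := A.add v34 v37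
  let v40 := A.mul v9 v39
  let v41 := A.mul v9 v38
  let v42 := A.add v32 v41
  let v43 := A.base 5
  let v44 := A.base 6
  let v45 := A.mul v5 v43
  let v46 := A.add v44 v45
  let v47 := A.base 15
  kNb_b3 A v0 v2 v4 v5 v7 v9 v10 v11 v12 v13 v40 v42 v43 v44 v46 v47

def kNb_b1 {α : Type} (A : Alg α) (v0 v2 v4 v5 v7 v9 v10 v11 v12 v13 v15 : α) : List α :=
  let v16 := A.base 3
  let v17 := A.mul v5 v16
  let v18 := A.add v13 v17
  let v19 := A.mul v18 v18
  let v20 := A.cst (4) 0
  let v21 := A.mul v19 v20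
  let v22 := A.base 4
  let v23 := A.mul v11 v22
  let v24 := A.mul v2 v23
  let v25 := A.sub v21 v24
  let v26 := A.mul v15 v20
  let v27 := A.mul v0 v11
  let v28 := A.add v26 v27
  let v29 := A.mul v11 v28
  let v30 := A.mul v0 v29
  let v31 := A.add v25 v30
  kNb_b2 A v0 v2 v4 v5 v7 v9 v10 v11 v12 v13 v15 v27 v31

def kNb_f {α : Type} (A : Alg α) : List α :=
  let v0 := A.x
  let v1 := A.y
  let v2 := A.cst (2) 0
  let v3 := A.mul v1 v2
  let v4 := A.cst (1) 0
  let v5 := A.sub v3 v4
  let v6 := A.base 2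
  let v7 := A.mul v0 v5
  let v8 := A.mul v2 v7
  let v9 := A.sub v6 v8
  let v10 := A.mul v5 v5
  let v11 := A.add v10 v4
  let v12 := A.base 0
  let v13 := A.base 1
  let v14 := A.mul v5 v12
  let v15 := A.add v13 v14
  kNb_b1 A v0 v2 v4 v5 v7 v9 v10 v11 v12 v13 v15

theorem kNb_h {α : Type} (A : Alg α) : kNb_f A = outs A pNb pNb_out := rfl

def kNb : Prg := ⟨pNb, pNb_out, kNb_f, kNb_h⟩

end Pool.H61.Rh
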