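import Pool.Agent.H61.Re.C3
import Pool.Agent.H61.Rz.Zp

/-! # W0: the near zone of the vertex `2`: splitting at the switching function

`V_2(y) - V_0(y) = 2 √3 w² (e - y) / (D_0 D_2)`, `e = exp(-iπ/3)`.  With
`φ = (a + VAx(x))·(e - y)`, `γ = VBd(x, e - y)`, `s = 2 √3 w²`:
`12 D_0 D_2 Eh_2 = D_2 (12 D_0 Eh_0) - 12 f s φ`,
`6 D_0 D_2 Gh_2 = D_2 (6 D_0 Gh_0) + 6 f s φ f_v(y) - 6 f² s γ`. -/

set_option autoImplicit false

namespace Pool.H61.Rh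

open Complex

/-- `exp(-iπ/3)` -/
noncomputable def e3 : ℂ := ⟨1 / 2, -(s3 / 2)⟩

/-- difference of the velocities -/
theorem Vx_diff {y : ℂ} (h0 : 1 - 2 * dt (uu 0) y ≠ 0) (h2 : 1 - 2 * dt (uu 2) y ≠ 0) :
    (((1 - 2 * dt (uu 0) y) * (1 - 2 * dt (uu 2) y) : ℝ) : ℂ) * (Vx y 2 - Vx y 0) =
      ((2 * s3 * (1 - normSq y) ^ 2 : ℝ) : ℂ) * (e3 - y) := by
  have e0 := ηd_eq 0 y h0
  have e2 := ηd_eq 2 y h2
  have h : (((1 - 2 * dt (uu 0) y) * (1 - 2 * dt (uu 2) y) : ℝ) : ℂ) * (Vx y 2 - Vx y 0) =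
      ((1 - 2 * dt (uu 0) y : ℝ) : ℂ) * ηd 2 y - ((1 - 2 * dt (uu 2) y : ℝ) : ℂ) * ηd 0 y := by
    rw [e0, e2]; push_cast; ring
  rw [h]
  have h3 := s3_sq
  apply Complex.ext
  · simp only [ηd, e3, dt, normSq_apply, mul_re, mul_im, add_re, add_im, sub_re, sub_im, I_re, I_im,
      ofReal_re, ofReal_im, uu0_re, uu0_im, uu2_re, uu2_im]
    ring
  · simp only [ηd, e3, dt, normSq_apply, mul_re, mul_im, add_re, add_im, sub_re, sub_im, I_re, I_im,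
      ofReal_re, ofReal_im, uu0_re, uu0_im, uu2_re, uu2_im]
    linear_combination ((1 - (y.re * y.re + y.im * y.im)) ^ 2) * h3

lemma dt_sub_right' (a b c : ℂ) : dt a (b - c) = dt a b - dt a c := by
  simp only [dt, sub_re, sub_im]; ring

lemma dt_add_left' (a b c : ℂ) : dt (a + b) c = dt a c + dt b c := by
  simp only [dt, add_re, add_im]; ring

lemma VBd_sub (c : VC) (x h h' : ℂ) : VBd c x (h - h') = VBd c x h - VBd c x h' := by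
  have e : dt x (h - h') = dt x h - dt x h' := by simp only [dt, sub_re, sub_im]; ring
  unfold VBd
  rw [e]
  push_cast
  simp only [map_add, map_mul, map_sub, conj_ofReal]
  ring

theorem Eh_diff (P : Pt) (x η η' : ℂ) :
    P.Eh x η' = P.Eh x η - P.f x * dt (P.a + VAx P.c x) (η' - η) := by
  unfold Pt.Eh Pt.X
  simp only [dt_sub_right', dt_add_left']
  ring

theorem Gh_diff (P : Pt) (x η η' : ℂ) :
    P.Gh x η' = P.Gh x η + ((P.f x * dt (P.a + VAx P.c x) (η' - η) : ℝ) : ℂ) * P.fv (P.ys + x)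
      - ((P.f x ^ 2 : ℝ) : ℂ) * VBd P.c x (η' - η) := by
  unfold Pt.Gh Pt.G Pt.X
  simp only [dt_sub_right', dt_add_left', VBd_sub]
  push_cast
  ring

/-- scaled second order part at the vertex `0` -/
theorem E12_scale (P : Pt) (r : ℝ) (X T U η : ℂ) (d : ℝ)
    (hT : ((r ^ 2 : ℝ) : ℂ) * T = (d : ℂ) * (η - P.V0 - P.DV (X * (r : ℂ))))
    (hU : (r : ℂ) * U = (d : ℂ) * (η - ((P.fr r X / P.fs : ℝ) : ℂ) * P.V0)) :
    12 * (d * P.Eh (X * (r : ℂ)) η) = r ^ 2 * P.E12 r X T U d := by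
  have e1 : dt P.ns (X * (r : ℂ)) = r * dt P.ns X := by rw [mul_comm X, dt_smul_right']
  have e2 : dt P.sa (X * (r : ℂ)) = r * dt P.sa X := by rw [mul_comm X, dt_smul_right']
  have hX : d * P.X (X * (r : ℂ)) η = r ^ 2 * P.Xr r X T U d := by
    have a1 : d * dt P.a (η - P.V0 - P.DV (X * (r : ℂ))) = r ^ 2 * dt P.a T := by
      rw [← dt_smul_right', ← hT, dt_smul_right']
    have a2 : d * dt (VAx P.c (X * (r : ℂ))) (η - ((P.fr r X / P.fs : ℝ) : ℂ) * P.V0)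
        = r ^ 2 * dt (VAxr P.c r X) U := by
      rw [← dt_smul_right', ← hU, VAx_scale, dt_smul_right', dt_smul_left']; ring
    have a3 : dt (VB P.c (X * (r : ℂ))) (I * P.M (X * (r : ℂ)))
        = r ^ 2 * dt (VBr P.c r X) (I * P.M X) := by
      rw [VB_scale, M_scale, show I * ((r : ℂ) * P.M X) = (r : ℂ) * (I * P.M X) by ring,
        dt_smul_right', dt_smul_left']; ring
    rw [Pt.X, f_scale, e1, e2, VA_scale, a3]
    calc d * (-dt P.a (η - P.V0 - P.DV (X * (r : ℂ))) - r * dt P.ns X * (r * dt P.sa X)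
          - P.fr r X * (r ^ 2 * VAr P.cs r X)
          - dt (VAx P.c (X * (r : ℂ))) (η - ((P.fr r X / P.fs : ℝ) : ℂ) * P.V0)
          + r ^ 2 * dt (VBr P.c r X) (I * P.M X))
        = -(d * dt P.a (η - P.V0 - P.DV (X * (r : ℂ))))
          - d * (r * dt P.ns X * (r * dt P.sa X)) - d * (P.fr r X * (r ^ 2 * VAr P.cs r X))
          - d * dt (VAx P.c (X * (r : ℂ))) (η - ((P.fr r X / P.fs : ℝ) : ℂ) * P.V0)
          + d * (r ^ 2 * dt (VBr P.c r X) (I * P.M X)) := by ring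
      _ = r ^ 2 * P.Xr r X T U d := by rw [a1, a2, Pt.Xr]; ring
  have hM : normSq (P.M (X * (r : ℂ))) = r ^ 2 * normSq (P.M X) := by
    rw [M_scale, normSq_mul, normSq_ofReal]; ring
  rw [Pt.Eh, hM, f_scale, Pt.E12]
  linear_combination 12 * P.fr r X * hX

/-- scaled gradient at the vertex `0` -/
theorem G6_scale (P : Pt) (hfv : P.fvs = P.fv P.ys) (r : ℝ) (X T U η : ℂ) (d : ℝ)
    (hT : ((r ^ 2 : ℝ) : ℂ) * T = (d : ℂ) * (η - P.V0 - P.DV (X * (r : ℂ))))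
    (hU : (r : ℂ) * U = (d : ℂ) * (η - ((P.fr r X / P.fs : ℝ) : ℂ) * P.V0)) :
    6 * ((d : ℂ) * P.Gh (X * (r : ℂ)) η) = (r : ℂ) * P.G6 r X T U d := by
  have e1 : dt P.ns (X * (r : ℂ)) = r * dt P.ns X := by rw [mul_comm X, dt_smul_right']
  have e2 : dt P.sa (X * (r : ℂ)) = r * dt P.sa X := by rw [mul_comm X, dt_smul_right']
  have hX : d * P.X (X * (r : ℂ)) η = r ^ 2 * P.Xr r X T U d := by
    have a1 : d * dt P.a (η - P.V0 - P.DV (X * (r : ℂ))) = r ^ 2 * dt P.a T := by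
      rw [← dt_smul_right', ← hT, dt_smul_right']
    have a2 : d * dt (VAx P.c (X * (r : ℂ))) (η - ((P.fr r X / P.fs : ℝ) : ℂ) * P.V0)
        = r ^ 2 * dt (VAxr P.c r X) U := by
      rw [← dt_smul_right', ← hU, VAx_scale, dt_smul_right', dt_smul_left']; ring
    have a3 : dt (VB P.c (X * (r : ℂ))) (I * P.M (X * (r : ℂ)))
        = r ^ 2 * dt (VBr P.c r X) (I * P.M X) := by
      rw [VB_scale, M_scale, show I * ((r : ℂ) * P.M X) = (r : ℂ) * (I * P.M X) by ring,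
        dt_smul_right', dt_smul_left']; ring
    rw [Pt.X, f_scale, e1, e2, VA_scale, a3]
    calc d * (-dt P.a (η - P.V0 - P.DV (X * (r : ℂ))) - r * dt P.ns X * (r * dt P.sa X)
          - P.fr r X * (r ^ 2 * VAr P.cs r X)
          - dt (VAx P.c (X * (r : ℂ))) (η - ((P.fr r X / P.fs : ℝ) : ℂ) * P.V0)
          + r ^ 2 * dt (VBr P.c r X) (I * P.M X))
        = -(d * dt P.a (η - P.V0 - P.DV (X * (r : ℂ))))
          - d * (r * dt P.ns X * (r * dt P.sa X)) - d * (P.fr r X * (r ^ 2 * VAr P.cs r X))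
          - d * dt (VAx P.c (X * (r : ℂ))) (η - ((P.fr r X / P.fs : ℝ) : ℂ) * P.V0)
          + d * (r ^ 2 * dt (VBr P.c r X) (I * P.M X)) := by ring
      _ = r ^ 2 * P.Xr r X T U d := by rw [a1, a2, Pt.Xr]; ring
  have hG : (d : ℂ) * P.G (X * (r : ℂ)) η
      = (r : ℂ) * (P.Hr r X * (d : ℂ) - VBd P.c (X * (r : ℂ)) U) := by
    have b1 : (d : ℂ) * VBd P.c (X * (r : ℂ)) (η - ((P.fr r X / P.fs : ℝ) : ℂ) * P.V0)
        = (r : ℂ) * VBd P.c (X * (r : ℂ)) U := by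
      rw [← VBd_smul, ← hU, VBd_smul]
    have b2 : dt (VAx P.c (X * (r : ℂ))) P.V0 / P.fs
        = r * dt (VAxr P.c r X) (P.V0 / (P.fs : ℂ)) := by
      rw [VAx_scale, dt_smul_left', div_eq_inv_mul P.V0, ← ofReal_inv, dt_smul_right']; ring
    have b3 : P.ZT (P.ys + X * (r : ℂ)) P.b - P.ZT P.ys P.b = (r : ℂ) * P.ZT X P.b := by
      rw [ZT_add_left, mul_comm X, ZT_smul_left]; ring
    have b4 : P.ZT (P.ys + X * (r : ℂ)) (VB P.c (X * (r : ℂ)))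
        = (r : ℂ) * P.ZT (P.yr r X) (VBr P.c r X) := by
      rw [VB_scale, ZT_smul_right]; rfl
    have b5 : P.fv (P.ys + X * (r : ℂ)) - P.fvs = (r : ℂ) * P.fv X + (P.fv P.ys - P.fvs) := by
      rw [fv_add, mul_comm X, fv_smul]; ring
    have b6 : P.G (X * (r : ℂ)) η
        = (r : ℂ) * (P.L X - ((dt P.sa X + VAr P.cs r X * r
            - dt (VAxr P.c r X) (P.V0 / (P.fs : ℂ)) : ℝ) : ℂ) * P.fv (P.yr r X)
          - (VBr P.cs r X + 2 * I * VBr P.c r X) * (P.fr r X : ℂ)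
          - P.ZT (P.yr r X) (VBr P.c r X))
          - VBd P.c (X * (r : ℂ)) (η - ((P.fr r X / P.fs : ℝ) : ℂ) * P.V0) := by
      rw [Pt.G, b5, b4, b3, b2, f_scale, M_scale, VA_scale, VB_scale, VB_scale, e1, e2, hfv, Pt.L,
        Pt.yr]
      push_cast
      ring
    rw [b6, Pt.Hr, mul_sub, b1]
    ring
  have hM : normSq (P.M (X * (r : ℂ))) = r ^ 2 * normSq (P.M X) := by
    rw [M_scale, normSq_mul, normSq_ofReal]; ring
  have c1 : P.ZT (P.ys + X * (r : ℂ)) (I * P.M (X * (r : ℂ)))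
      = (r : ℂ) * P.ZT (P.yr r X) (I * P.M X) := by
    rw [M_scale, show I * ((r : ℂ) * P.M X) = (r : ℂ) * (I * P.M X) by ring, ZT_smul_right]; rfl
  have hXc : (d : ℂ) * (P.X (X * (r : ℂ)) η : ℂ) = (r : ℂ) ^ 2 * (P.Xr r X T U d : ℂ) := by
    exact_mod_cast congrArg (fun t : ℝ => (t : ℂ)) hX
  rw [Pt.Gh, c1, hM, f_scale, Pt.G6, show P.ys + X * (r : ℂ) = P.yr r X from rfl]
  push_cast
  linear_combination 6 * (P.fr r X : ℂ) ^ 2 * hG - 6 * (P.fr r X : ℂ) * P.fv (P.yr r X) * hXc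

/-- `G` part of order `r` -/
noncomputable def Pt.NG (P : Pt) (r : ℝ) (X T U : ℂ) (d φ2 : ℝ) (γ1 : ℂ) : ℂ :=
  ((1 - 2 * dt (uu 2) (P.yr r X) : ℝ) : ℂ) * P.G6 r X T U d
    + ((6 * P.fr r X * (2 * s3 * (1 - normSq (P.yr r X)) ^ 2) * (r * φ2) : ℝ) : ℂ)
      * P.fv (P.yr r X)
    - ((6 * P.fr r X ^ 2 * (2 * s3 * (1 - normSq (P.yr r X)) ^ 2) : ℝ) : ℂ) * γ1

/-- the part of order `r²` -/
noncomputable def Pt.NA (P : Pt) (R r : ℝ) (X T U : ℂ) (d φ2 : ℝ) (γ1 : ℂ) : ℝ :=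
  12 * R * P.fr r X ^ 4 * d * (1 - 2 * dt (uu 2) (P.yr r X)) *
      ((1 - 2 * dt (uu 2) (P.yr r X)) * P.E12 r X T U d
        - 12 * P.fr r X * (2 * s3 * (1 - normSq (P.yr r X)) ^ 2) * φ2
        - 12 * (1 / 8192) * normSq X * P.fr r X ^ 2 * d * (1 - 2 * dt (uu 2) (P.yr r X)))
    - normSq (P.NG r X T U d φ2 γ1)

/-- the part of order `τ` (divided by `12 f s`) -/
noncomputable def Pt.NB (P : Pt) (R r : ℝ) (X T U : ℂ) (d φ2 : ℝ) (γ1 : ℂ) (τ φt : ℝ) (γt : ℂ) : ℝ :=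
  -(12 * R * P.fr r X ^ 4 * d * (1 - 2 * dt (uu 2) (P.yr r X)) * φt)
    - r * dt (P.NG r X T U d φ2 γ1) ((φt : ℂ) * P.fv (P.yr r X) - (P.fr r X : ℂ) * γt)
    - 3 * τ * P.fr r X * (2 * s3 * (1 - normSq (P.yr r X)) ^ 2) *
      normSq ((φt : ℂ) * P.fv (P.yr r X) - (P.fr r X : ℂ) * γt)

lemma normSq_add_smul (a b : ℂ) (r t : ℝ) :
    normSq ((r : ℂ) * a + (t : ℂ) * b) = r ^ 2 * normSq a + 2 * r * t * dt a b + t ^ 2 * normSq b := by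
  simp only [normSq_apply, dt, add_re, add_im, mul_re, mul_im, ofReal_re, ofReal_im]; ring

lemma dt_smul_r (t : ℝ) (a b : ℂ) : dt a ((t : ℂ) * b) = t * dt a b := by
  simp [dt]; ring

/-- **the splitting** -/
theorem near_split (P : Pt) (hfv : P.fvs = P.fv P.ys) (r : ℝ) (X T U : ℂ) (d : ℝ)
    (hd : d = 1 - 2 * dt (uu 0) (P.yr r X)) (hd0 : d ≠ 0)
    (h2 : 1 - 2 * dt (uu 2) (P.yr r X) ≠ 0)
    (hT : ((r ^ 2 : ℝ) : ℂ) * T = (d : ℂ) * (Vx (P.yr r X) 0 - P.V0 - P.DV (X * (r : ℂ))))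
    (hU : (r : ℂ) * U = (d : ℂ) * (Vx (P.yr r X) 0 - ((P.fr r X / P.fs : ℝ) : ℂ) * P.V0))
    {R τ φ2 φt : ℝ} {γ1 γt : ℂ}
    (hφ : dt (P.a + VAx P.c (X * (r : ℂ))) (e3 - P.yr r X) = r ^ 2 * φ2 + τ * φt)
    (hγ : VBd P.c (X * (r : ℂ)) (e3 - P.yr r X) = (r : ℂ) * γ1 + (τ : ℂ) * γt) :
    36 * d ^ 2 * ((4 * R * P.f (X * (r : ℂ)) ^ 4
      * (P.Eh (X * (r : ℂ)) (Vx (P.ys + X * (r : ℂ)) 2)
        - 1 / 8192 * normSq (X * (r : ℂ)) * P.f (X * (r : ℂ)) ^ 2)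
      - normSq (P.Gh (X * (r : ℂ)) (Vx (P.ys + X * (r : ℂ)) 2)))
        * (1 - 2 * dt (uu 2) (P.ys + X * (r : ℂ))) ^ 2) =
    r ^ 2 * P.NA R r X T U d φ2 γ1 + 12 * τ * P.fr r X * (2 * s3 * (1 - normSq (P.yr r X)) ^ 2)
      * P.NB R r X T U d φ2 γ1 τ φt γt := by
  have hy : P.ys + X * (r : ℂ) = P.yr r X := rfl
  rw [hy]
  obtain ⟨y, hye⟩ : ∃ y, y = P.yr r X := ⟨_, rfl⟩
  obtain ⟨D, hD⟩ : ∃ D, D = 1 - 2 * dt (uu 2) (P.yr r X) := ⟨_, rfl⟩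
  obtain ⟨s, hs⟩ : ∃ s, s = 2 * s3 * (1 - normSq (P.yr r X)) ^ 2 := ⟨_, rfl⟩
  have hE := E12_scale P r X T U _ d hT hU
  have hG := G6_scale P hfv r X T U _ d hT hU
  have hV := Vx_diff (y := P.yr r X) (by rw [← hd]; exact hd0) h2
  rw [← hd, ← hD, ← hs] at hV
  rw [← hD] at h2
  -- the second order part
  have hE2 : 12 * (d * D * P.Eh (X * (r : ℂ)) (Vx (P.yr r X) 2)) =
      D * (r ^ 2 * P.E12 r X T U d) - 12 * P.fr r X * s * (r ^ 2 * φ2 + τ * φt) := by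
    rw [Eh_diff P _ (Vx (P.yr r X) 0), ← hE, f_scale]
    have e1 : d * D * dt (P.a + VAx P.c (X * (r : ℂ))) (Vx (P.yr r X) 2 - Vx (P.yr r X) 0) =
        s * (r ^ 2 * φ2 + τ * φt) := by
      rw [← hφ, ← dt_smul_r, ← dt_smul_r, hV]
    linear_combination (-12 * P.fr r X) * e1
  have hG2 : 6 * (((d * D : ℝ) : ℂ) * P.Gh (X * (r : ℂ)) (Vx (P.yr r X) 2)) =
      (r : ℂ) * P.NG r X T U d φ2 γ1
        + ((6 * τ * P.fr r X * s : ℝ) : ℂ) * ((φt : ℂ) * P.fv (P.yr r X) - (P.fr r X : ℂ) * γt) := by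
    rw [Gh_diff P _ (Vx (P.yr r X) 0), f_scale, hy]
    have e1 : d * D * dt (P.a + VAx P.c (X * (r : ℂ))) (Vx (P.yr r X) 2 - Vx (P.yr r X) 0) =
        s * (r ^ 2 * φ2 + τ * φt) := by
      rw [← hφ, ← dt_smul_r, ← dt_smul_r, hV]
    have e1c : (d : ℂ) * (D : ℂ) * ((dt (P.a + VAx P.c (X * (r : ℂ)))
        (Vx (P.yr r X) 2 - Vx (P.yr r X) 0) : ℝ) : ℂ) =
        (s : ℂ) * ((r : ℂ) ^ 2 * (φ2 : ℂ) + (τ : ℂ) * (φt : ℂ)) := by
      exact_mod_cast congrArg (fun t : ℝ => (t : ℂ)) e1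
    have e2 : ((d * D : ℝ) : ℂ) * VBd P.c (X * (r : ℂ)) (Vx (P.yr r X) 2 - Vx (P.yr r X) 0) =
        (s : ℂ) * ((r : ℂ) * γ1 + (τ : ℂ) * γt) := by
      rw [← hγ, ← VBd_smul, hV, VBd_smul]
    rw [Pt.NG, ← hD, ← hs]
    push_cast at e2 ⊢
    linear_combination (D : ℂ) * hG + 6 * (P.fr r X : ℂ) * P.fv (P.yr r X) * e1c
      - 6 * (P.fr r X : ℂ) ^ 2 * e2
  have hGn : 36 * ((d * D) ^ 2 * normSq (P.Gh (X * (r : ℂ)) (Vx (P.yr r X) 2))) =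
      r ^ 2 * normSq (P.NG r X T U d φ2 γ1)
        + 2 * r * (6 * τ * P.fr r X * s) * dt (P.NG r X T U d φ2 γ1)
          ((φt : ℂ) * P.fv (P.yr r X) - (P.fr r X : ℂ) * γt)
        + (6 * τ * P.fr r X * s) ^ 2 *
          normSq ((φt : ℂ) * P.fv (P.yr r X) - (P.fr r X : ℂ) * γt) := by
    have h := congrArg normSq hG2
    rw [normSq_add_smul, normSq_mul, normSq_mul, normSq_ofReal,
      show (6 : ℂ) = ((6 : ℝ) : ℂ) by norm_num, normSq_ofReal] at h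
    linear_combination h
  have hN : normSq (X * (r : ℂ)) = r ^ 2 * normSq X := by
    rw [normSq_mul, normSq_ofReal]; ring
  rw [hN, f_scale, Pt.NA, Pt.NB, ← hD, ← hs]
  linear_combination (12 * R * P.fr r X ^ 4 * (d * D)) * hE2 - hGn

/-- the main inequality at the vertex `2` -/
theorem FI_near (P : Pt) (hfv : P.fvs = P.fv P.ys) (hV : P.V0 = Vx P.ys 0) (hf : P.fs ≠ 0)
    (h0 : 1 - 2 * P.ys.re ≠ 0) (r : ℝ) (X : ℂ)
    (hd0 : 1 - 2 * P.ys.re - 2 * (r * X.re) ≠ 0)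
    (h2 : 1 - 2 * dt (uu 2) (P.yr r X) ≠ 0) (hfr : 0 ≤ P.fr r X)
    {R τ φ2 φt : ℝ} {γ1 γt : ℂ} (hτ : 0 ≤ τ)
    (hφ : dt (P.a + VAx P.c (X * (r : ℂ))) (e3 - P.yr r X) = r ^ 2 * φ2 + τ * φt)
    (hγ : VBd P.c (X * (r : ℂ)) (e3 - P.yr r X) = (r : ℂ) * γ1 + (τ : ℂ) * γt)
    (hA : 0 ≤ P.NA R r X (P.T0 r X (1 - 2 * P.ys.re - 2 * (r * X.re)))
      (P.U0 r X (P.T0 r X (1 - 2 * P.ys.re - 2 * (r * X.re))) (1 - 2 * P.ys.re - 2 * (r * X.re)))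
      (1 - 2 * P.ys.re - 2 * (r * X.re)) φ2 γ1)
    (hB : 0 ≤ P.NB R r X (P.T0 r X (1 - 2 * P.ys.re - 2 * (r * X.re)))
      (P.U0 r X (P.T0 r X (1 - 2 * P.ys.re - 2 * (r * X.re))) (1 - 2 * P.ys.re - 2 * (r * X.re)))
      (1 - 2 * P.ys.re - 2 * (r * X.re)) φ2 γ1 τ φt γt) :
    P.FI R (X * (r : ℂ)) 2 := by
  obtain ⟨d, hd⟩ : ∃ d, d = 1 - 2 * P.ys.re - 2 * (r * X.re) := ⟨_, rfl⟩
  have hT := T0_eq P hV h0 r X hd0
  have hU := U0_eq P hf r X _ _ _ hT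
  rw [← hd] at hd0 hT hU hA hB
  have e : d = 1 - 2 * dt (uu 0) (P.yr r X) := by
    rw [hd]
    simp only [Pt.yr, dt, uu0_re, uu0_im, add_re, mul_re, ofReal_re, ofReal_im]; ring
  have h := near_split P hfv r X _ _ d e hd0 h2 hT hU (R := R) hφ hγ
  have hs : 0 ≤ 2 * s3 * (1 - normSq (P.yr r X)) ^ 2 := by
    have := s3_pos; positivity
  have hR : 0 ≤ 36 * d ^ 2 * ((4 * R * P.f (X * (r : ℂ)) ^ 4
      * (P.Eh (X * (r : ℂ)) (Vx (P.ys + X * (r : ℂ)) 2)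
        - 1 / 8192 * normSq (X * (r : ℂ)) * P.f (X * (r : ℂ)) ^ 2)
      - normSq (P.Gh (X * (r : ℂ)) (Vx (P.ys + X * (r : ℂ)) 2)))
        * (1 - 2 * dt (uu 2) (P.ys + X * (r : ℂ))) ^ 2) := by
    rw [h]
    have a1 := mul_nonneg (sq_nonneg r) hA
    have a2 := mul_nonneg (mul_nonneg (mul_nonneg (by positivity : (0 : ℝ) ≤ 12 * τ) hfr) hs) hB
    linarith
  have hd2 : 0 < 36 * d ^ 2 := by positivity
  exact (mul_nonneg_iff_of_pos_left hd2).mp hR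

end Pool.H61.Rh
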