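import Pool.Agent.H89.Nz.W0
import Pool.Agent.H61.Rz.Sy

/-! # W1: the near zone of the vertex `2`: the splitting of `φ` and `γ`

`P.a = a1 + τ da`, `P.c = c1 + τ dc`, `e3 - P.ys = lam e3 - τ dy` with the three relations
`a1·e3 = 0`, `lam (A_1(X)·e3) = a1·X`, `B_1(e3) = 0` at the end point. -/

set_option autoImplicit false

namespace Pool.H61.Rh

open Complex

/-- coefficient of `r` in `VAxr` -/
noncomputable def VAq (c : VC) (X : ℂ) : ℂ :=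
  I * (starRingEnd ℂ) (3 * c.x3 * X ^ 2 + 2 * c.x2b * (normSq X : ℂ)) - I * (c.x2b * X ^ 2)

/-- coefficient of `r` in `VBd c (X r) h` -/
noncomputable def VBq (c : VC) (X h : ℂ) : ℂ :=
  I * (starRingEnd ℂ) (2 * c.x2u * X * h + c.xbu * ((2 * dt X h : ℝ) : ℂ)) - I * (2 * c.x2c * X * h)

/-- `c1 + τ dc` -/
noncomputable def VC.lc (c1 : VC) (τ : ℝ) (dc : VC) : VC :=
  ⟨c1.xx + (τ : ℂ) * dc.xx, c1.xb + (τ : ℂ) * dc.xb, c1.x3 + (τ : ℂ) * dc.x3,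
    c1.x2b + (τ : ℂ) * dc.x2b, c1.xu + (τ : ℂ) * dc.xu, c1.xc + (τ : ℂ) * dc.xc,
    c1.x2u + (τ : ℂ) * dc.x2u, c1.x2c + (τ : ℂ) * dc.x2c, c1.xbu + (τ : ℂ) * dc.xbu⟩

lemma VAxr_split (c : VC) (r : ℝ) (X : ℂ) : VAxr c r X = VAxr c 0 X + (r : ℂ) * VAq c X := by
  unfold VAxr VAq
  simp only [map_add, map_mul, map_pow, conj_ofReal, map_ofNat]
  push_cast
  ring

lemma VBd_split (c : VC) (r : ℝ) (X h : ℂ) :
    VBd c (X * (r : ℂ)) h = VBd c 0 h + (r : ℂ) * VBq c X h := by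
  unfold VBd VBq
  rw [show dt (X * (r : ℂ)) h = r * dt X h by
    simp only [dt, mul_re, mul_im, ofReal_re, ofReal_im]; ring]
  rw [show dt 0 h = 0 by simp [dt]]
  simp only [map_add, map_mul, map_pow, conj_ofReal, map_ofNat, map_zero]
  push_cast
  ring

lemma VAxr_lc (c1 dc : VC) (τ r : ℝ) (X : ℂ) :
    VAxr (c1.lc τ dc) r X = VAxr c1 r X + (τ : ℂ) * VAxr dc r X := by
  unfold VAxr VC.lc
  simp only [add_im, im_ofReal_mul, map_add, map_mul, map_pow, conj_ofReal, map_ofNat]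
  push_cast
  ring

lemma VBd_lc (c1 dc : VC) (τ : ℝ) (x h : ℂ) :
    VBd (c1.lc τ dc) x h = VBd c1 x h + (τ : ℂ) * VBd dc x h := by
  unfold VBd VC.lc
  simp only [map_add, map_mul, map_pow, conj_ofReal, map_ofNat]
  push_cast
  ring

/-- data of the splitting -/
structure Nd where
  (τ lam R : ℝ)
  (da dy : ℂ)
  (c1 dc : VC)

/-- relations -/
structure Nd.Rel (n : Nd) (P : Pt) (a1 : ℂ) : Prop where
  a : P.a = a1 + (n.τ : ℂ) * n.da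
  c : P.c = n.c1.lc n.τ n.dc
  y : e3 - P.ys = (n.lam : ℂ) * e3 - (n.τ : ℂ) * n.dy
  h1 : dt a1 e3 = 0
  h2 : ∀ X, n.lam * dt (VAxr n.c1 0 X) e3 = dt a1 X
  h3 : VBd n.c1 0 e3 = 0

noncomputable def Nd.φ2 (n : Nd) (r : ℝ) (X : ℂ) : ℝ :=
  n.lam * dt (VAq n.c1 X) e3 - dt (VAxr n.c1 r X) X

noncomputable def Nd.γ1 (n : Nd) (r : ℝ) (X : ℂ) : ℂ :=
  VBq n.c1 X ((n.lam : ℂ) * e3 - X * (r : ℂ)) - VBd n.c1 0 X

noncomputable def Nd.φt (n : Nd) (P : Pt) (r : ℝ) (X : ℂ) : ℝ :=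
  dt (n.da + VAxr n.dc r X * (r : ℂ)) ((n.lam : ℂ) * e3 - X * (r : ℂ))
    - dt (P.a + VAxr P.c r X * (r : ℂ)) n.dy

noncomputable def Nd.γt (n : Nd) (P : Pt) (r : ℝ) (X : ℂ) : ℂ :=
  VBd n.dc (X * (r : ℂ)) ((n.lam : ℂ) * e3 - X * (r : ℂ)) - VBd P.c (X * (r : ℂ)) n.dy

theorem Nd.Rel.hφ {n : Nd} {P : Pt} {a1 : ℂ} (h : n.Rel P a1) (r : ℝ) (X : ℂ) :
    dt (P.a + VAx P.c (X * (r : ℂ))) (e3 - P.yr r X) = r ^ 2 * n.φ2 r X + n.τ * n.φt P r X := by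
  have e1 : e3 - P.yr r X = ((n.lam : ℂ) * e3 - X * (r : ℂ)) - (n.τ : ℂ) * n.dy := by
    rw [Pt.yr]; linear_combination h.y
  have e2 : VAx P.c (X * (r : ℂ)) = VAxr P.c r X * (r : ℂ) := by rw [VAx_scale]; ring
  rw [e2, e1, dt_sub_right', dt_smul_r]
  have e3' : dt (P.a + VAxr P.c r X * (r : ℂ)) ((n.lam : ℂ) * e3 - X * (r : ℂ)) =
      dt (a1 + VAxr n.c1 r X * (r : ℂ)) ((n.lam : ℂ) * e3 - X * (r : ℂ))
        + n.τ * dt (n.da + VAxr n.dc r X * (r : ℂ)) ((n.lam : ℂ) * e3 - X * (r : ℂ)) := by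
    rw [h.a, h.c, VAxr_lc, ← dt_smul_left', ← dt_add_left']
    congr 1; ring
  have e4 : dt (a1 + VAxr n.c1 r X * (r : ℂ)) ((n.lam : ℂ) * e3 - X * (r : ℂ)) =
      r ^ 2 * n.φ2 r X := by
    have k1 := h.h1
    have k2 := h.h2 X
    have k3 : dt (VAxr n.c1 r X) e3 = dt (VAxr n.c1 0 X) e3 + r * dt (VAq n.c1 X) e3 := by
      rw [VAxr_split, dt_add_left', dt_smul_left']
    have k4 : dt (VAxr n.c1 r X * (r : ℂ)) e3 = r * dt (VAxr n.c1 r X) e3 := by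
      rw [mul_comm, dt_smul_left']
    have k5 : dt (VAxr n.c1 r X * (r : ℂ)) X = r * dt (VAxr n.c1 r X) X := by
      rw [mul_comm, dt_smul_left']
    rw [dt_sub_right', dt_smul_r, mul_comm X, dt_smul_r, dt_add_left', dt_add_left', k1, k4, k5, k3,
      Nd.φ2]
    linear_combination r * k2
  rw [e3', e4, Nd.φt]
  ring

theorem Nd.Rel.hγ {n : Nd} {P : Pt} {a1 : ℂ} (h : n.Rel P a1) (r : ℝ) (X : ℂ) :
    VBd P.c (X * (r : ℂ)) (e3 - P.yr r X) = (r : ℂ) * n.γ1 r X + (n.τ : ℂ) * n.γt P r X := by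
  have e1 : e3 - P.yr r X = ((n.lam : ℂ) * e3 - X * (r : ℂ)) - (n.τ : ℂ) * n.dy := by
    rw [Pt.yr]; linear_combination h.y
  have e2 : VBd P.c (X * (r : ℂ)) ((n.lam : ℂ) * e3 - X * (r : ℂ)) =
      VBd n.c1 (X * (r : ℂ)) ((n.lam : ℂ) * e3 - X * (r : ℂ))
        + (n.τ : ℂ) * VBd n.dc (X * (r : ℂ)) ((n.lam : ℂ) * e3 - X * (r : ℂ)) := by
    rw [h.c, VBd_lc]
  have e3' : VBd n.c1 0 ((n.lam : ℂ) * e3 - X * (r : ℂ)) = -((r : ℂ) * VBd n.c1 0 X) := by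
    rw [VBd_sub, VBd_smul, h.h3, mul_comm X, VBd_smul]; ring
  rw [e1, VBd_sub, VBd_smul, e2, VBd_split n.c1, e3', Nd.γ1, Nd.γt]
  ring

end Pool.H61.Rh
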