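import Pool.Agent.H89.Nz.W1
import Pool.Agent.H61.Rz.Dat
import Pool.Agent.H61.Re.D1

/-! # W2: the near zone: differences between `m` and `m1`

`u = m1 - m = m1 τ`, `τ = 1 - m/m1`; `σ`, `κ` with `u σ = sinh u`, `u κ = cosh u - 1`;
`P = h1 σ - c1 κ`, `Q = c1 σ - h1 κ`, `c1 = kp cosh m1 = 1 + √2/2`, `h1 = kp sinh m1 = 1 - √2/2`:
`c1 - kp cosh m = u P`, `h1 - kp sinh m = u Q`. -/

set_option autoImplicit false

namespace Pool.H61.Rh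

open Complex

/-- divided difference at `1` -/
def ddh : List ℝ → ℝ → ℝ
  | [], _ => 0
  | _ :: l, s => hor l 1 + s * ddh l s

lemma ddh_eq (l : List ℝ) (s : ℝ) : hor l 1 - hor l s = (1 - s) * ddh l s := by
  induction l with
  | nil => simp [hor, ddh]
  | cons a l ih =>
    simp only [hor, ddh]
    linear_combination s * ih

/-- difference of a coefficient function -/
noncomputable def Cf.df (c : Cf) (θ : ℝ) : ℂ :=
  ⟨-((1 + θ) * ddh c.p (θ ^ 2)), -(s3 * (hor c.q 1 + θ * (1 + θ) * ddh c.q (θ ^ 2)))⟩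

lemma W2_m1_ne : m1 ≠ 0 := by have := m1_bounds; linarith [this.1]

lemma Cf.ev_m1 (c : Cf) : c.ev m1 = ⟨hor c.p 1, s3 * hor c.q 1⟩ := by
  rw [Cf.ev, div_self W2_m1_ne]; norm_num

lemma Cf.ev_df (c : Cf) (m : ℝ) :
    c.ev m = c.ev m1 + ((1 - m / m1 : ℝ) : ℂ) * c.df (m / m1) := by
  rw [Cf.ev_m1, Cf.ev]
  obtain ⟨t, ht⟩ : ∃ t, t = m / m1 := ⟨_, rfl⟩
  rw [← ht]
  have h1 := ddh_eq c.p (t ^ 2)
  have h2 := ddh_eq c.q (t ^ 2)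
  apply Complex.ext
  · rw [add_re, re_ofReal_mul, Cf.df]
    linear_combination (-1 : ℝ) * h1
  · rw [add_im, im_ofReal_mul, Cf.df]
    linear_combination (-(s3 * t)) * h2

/-- differences of the coefficients -/
noncomputable def VD.df (d : VD) (θ : ℝ) : VC :=
  ⟨d.xx.df θ, d.xb.df θ, d.x3.df θ, d.x2b.df θ, d.xu.df θ, d.xc.df θ, d.x2u.df θ, d.x2c.df θ,
    d.xbu.df θ⟩

lemma VD.ev_lc (d : VD) (m : ℝ) : d.ev m = (d.ev m1).lc (1 - m / m1) (d.df (m / m1)) := by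
  unfold VD.ev VC.lc VD.df
  congr 1 <;> exact Cf.ev_df _ _

/-- `lam = 3/(1+√2)` -/
noncomputable def nlam : ℝ := 3 * (Real.sqrt 2 - 1)

noncomputable def nP (σ κ : ℝ) : ℝ := (1 - Real.sqrt 2 / 2) * σ - (1 + Real.sqrt 2 / 2) * κ
noncomputable def nQ (σ κ : ℝ) : ℝ := (1 + Real.sqrt 2 / 2) * σ - (1 - Real.sqrt 2 / 2) * κ

/-- difference of `y*` -/
noncomputable def ndy (m P Q : ℝ) : ℂ :=
  ⟨-(3 * m1 * P * ((Real.sqrt 2 - 1) * (1 / oS m))),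
    -(s3 * m1 * (2 * (Q * (1 + Real.sqrt 2 / 2) - P * (1 - Real.sqrt 2 / 2)) - Q)
      * ((Real.sqrt 2 - 1) * (1 / oS m)))⟩

/-- difference of `tk` -/
noncomputable def ndt (m P Q : ℝ) : ℂ :=
  ⟨(-15 - 93 / 4 * Real.sqrt 2) * Q + 12 * (Q * (1 + Real.sqrt 2 / 2) + kp * Real.sinh m * P)
      + 24 * Real.sqrt 2 - 6 * ((1 + Real.sqrt 2 / 2) + m * P),
    s3 * (-((3 - 3 / 4 * Real.sqrt 2) * P)
      + 12 * (Q * ((1 - Real.sqrt 2 / 2) + kp * Real.sinh m)) - 6 * ((1 - Real.sqrt 2 / 2) + m * Q))⟩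

/-- difference of `pk` -/
noncomputable def ndp (m P Q : ℝ) : ℂ :=
  ⟨s3 * (9 * Q - 2 * Real.sqrt 2 * (Q * (1 + Real.sqrt 2 / 2) + kp * Real.sinh m * P)),
    3 * (P - 2 * Real.sqrt 2 * (P * ((1 + Real.sqrt 2 / 2) + kp * Real.cosh m)))⟩

/-- difference of `qy` -/
noncomputable def ndq (m P Q : ℝ) : ℂ :=
  ((-(s3 * (1 / 27) * (1 / oK) ^ 2 * m1) : ℝ) : ℂ)
    * (((2 * P : ℝ) : ℂ) * (tk m + ((oc * (3 * (4 - Real.sqrt 2) / 4) : ℝ) : ℂ) * pk m)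
      + ((1 + Real.sqrt 2 : ℝ) : ℂ)
        * (ndt m P Q + ((oc * (3 * (4 - Real.sqrt 2) / 4) : ℝ) : ℂ) * ndp m P Q))

section

variable {m σ κ : ℝ}

lemma W2_r2 : Real.sqrt 2 ^ 2 = 2 := Real.sq_sqrt (by norm_num)

/-- `c1 - kp cosh m = m1 τ P` -/
lemma W2_c (hσ : m1 * (1 - m / m1) * σ = Real.sinh (m1 - m))
    (hκ : m1 * (1 - m / m1) * κ = Real.cosh (m1 - m) - 1) :
    (1 + Real.sqrt 2 / 2) - kp * Real.cosh m = m1 * (1 - m / m1) * nP σ κ := by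
  have h := Real.cosh_sub m1 (m1 - m)
  rw [show m1 - (m1 - m) = m by ring] at h
  have hc := kp_mul_cosh_m1
  have hs := kp_mul_sinh_m1
  rw [nP, h]
  linear_combination (1 - Real.sqrt 2 / 2) * hσ * (-1) + (1 + Real.sqrt 2 / 2) * hκ
    - Real.cosh (m1 - m) * hc + Real.sinh (m1 - m) * hs

/-- `h1 - kp sinh m = m1 τ Q` -/
lemma W2_h (hσ : m1 * (1 - m / m1) * σ = Real.sinh (m1 - m))
    (hκ : m1 * (1 - m / m1) * κ = Real.cosh (m1 - m) - 1) :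
    (1 - Real.sqrt 2 / 2) - kp * Real.sinh m = m1 * (1 - m / m1) * nQ σ κ := by
  have h := Real.sinh_sub m1 (m1 - m)
  rw [show m1 - (m1 - m) = m by ring] at h
  have hc := kp_mul_cosh_m1
  have hs := kp_mul_sinh_m1
  rw [nQ, h]
  linear_combination (1 + Real.sqrt 2 / 2) * hσ * (-1) + (1 - Real.sqrt 2 / 2) * hκ
    - Real.cosh (m1 - m) * hs + Real.sinh (m1 - m) * hc

lemma W2_oSne (m : ℝ) : oS m ≠ 0 := by linarith [oS_gt m]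

theorem ndy_eq (hσ : m1 * (1 - m / m1) * σ = Real.sinh (m1 - m))
    (hκ : m1 * (1 - m / m1) * κ = Real.cosh (m1 - m) - 1) :
    e3 - oy m = (nlam : ℂ) * e3 - ((1 - m / m1 : ℝ) : ℂ) * ndy m (nP σ κ) (nQ σ κ) := by
  have hc := W2_c hσ hκ
  have hh := W2_h hσ hκ
  obtain ⟨P, hP⟩ : ∃ P, P = nP σ κ := ⟨_, rfl⟩
  obtain ⟨Q, hQ⟩ : ∃ Q, Q = nQ σ κ := ⟨_, rfl⟩
  obtain ⟨τ, hτ⟩ : ∃ τ, τ = 1 - m / m1 := ⟨_, rfl⟩
  rw [← hP, ← hτ] at hc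
  rw [← hQ, ← hτ] at hh
  rw [← hP, ← hQ, ← hτ]
  have hS : oS m = 2 * (kp * Real.cosh m) - 1 := by rw [oS]; ring
  have hSn := W2_oSne m
  have hr := W2_r2
  obtain ⟨i, hi⟩ : ∃ i, i = 1 / oS m := ⟨_, rfl⟩
  have hi1 : oS m * i = 1 := by rw [hi]; field_simp
  rw [hS] at hi1
  obtain ⟨c, hcc⟩ : ∃ c, c = kp * Real.cosh m := ⟨_, rfl⟩
  obtain ⟨h, hhh⟩ : ∃ h, h = kp * Real.sinh m := ⟨_, rfl⟩
  rw [← hcc] at hc hi1
  rw [← hhh] at hh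
  apply Complex.ext
  · have e : (oy m).re = (c - 2) * i := by
      show (kp * Real.cosh m - 2) / (2 * kp * Real.cosh m - 1) = _
      rw [show 2 * kp * Real.cosh m - 1 = oS m from rfl, hi, hcc]; ring
    rw [sub_re, sub_re, re_ofReal_mul, re_ofReal_mul, e, ndy, e3, nlam, ← hi]
    show 1 / 2 - (c - 2) * i = 3 * (Real.sqrt 2 - 1) * (1 / 2) - τ * -(3 * m1 * P * ((Real.sqrt 2 - 1) * i))
    linear_combination (3 * (Real.sqrt 2 - 1) * i) * hc + (-1 / 2 + 3 * (Real.sqrt 2 - 1) / 2) * hi1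
      + (-3 / 2 * i) * hr
  · have e : (oy m).im = s3 * h * i := by
      show s3 * kp * Real.sinh m / (2 * kp * Real.cosh m - 1) = _
      rw [show 2 * kp * Real.cosh m - 1 = oS m from rfl, hi, hhh]; ring
    rw [sub_im, sub_im, im_ofReal_mul, im_ofReal_mul, e, ndy, e3, nlam, ← hi]
    show -(s3 / 2) - s3 * h * i = 3 * (Real.sqrt 2 - 1) * (-(s3 / 2))
      - τ * -(s3 * m1 * (2 * (Q * (1 + Real.sqrt 2 / 2) - P * (1 - Real.sqrt 2 / 2)) - Q)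
        * ((Real.sqrt 2 - 1) * i))
    linear_combination (-(s3 * (-1 / 2 + 3 * (Real.sqrt 2 - 1) / 2))) * hi1
      + (s3 * i * (Real.sqrt 2 - 1) * (2 * (1 + Real.sqrt 2 / 2) - 1)) * hh
      - (s3 * i * (Real.sqrt 2 - 1) * (2 * (1 - Real.sqrt 2 / 2))) * hc
      + (s3 * i * (h + (2 * c - 1) / 2)) * hr

theorem ndt_eq (hσ : m1 * (1 - m / m1) * σ = Real.sinh (m1 - m))
    (hκ : m1 * (1 - m / m1) * κ = Real.cosh (m1 - m) - 1) :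
    tk m1 - tk m = ((m1 * (1 - m / m1) : ℝ) : ℂ) * ndt m (nP σ κ) (nQ σ κ) := by
  have hc := W2_c hσ hκ
  have hh := W2_h hσ hκ
  obtain ⟨P, hP⟩ : ∃ P, P = nP σ κ := ⟨_, rfl⟩
  obtain ⟨Q, hQ⟩ : ∃ Q, Q = nQ σ κ := ⟨_, rfl⟩
  rw [← hP] at hc
  rw [← hQ] at hh
  rw [← hP, ← hQ]
  obtain ⟨u, hu⟩ : ∃ u, u = m1 * (1 - m / m1) := ⟨_, rfl⟩
  have hu' : u = m1 - m := by rw [hu]; have := W2_m1_ne; field_simp
  rw [← hu] at hc hh ⊢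
  have hr := W2_r2
  have hk := kp_sq
  have c1 := kp_mul_cosh_m1
  have h1 := kp_mul_sinh_m1
  apply Complex.ext
  · rw [sub_re, re_ofReal_mul, ndt]
    show kp * Real.sinh m1 * (-15 - 93 / 4 * Real.sqrt 2)
      + 24 * Real.sqrt 2 * Real.sinh m1 * Real.cosh m1
      + m1 * (24 * Real.sqrt 2 - 6 * kp * Real.cosh m1) - (kp * Real.sinh m * (-15 - 93 / 4 * Real.sqrt 2)
      + 24 * Real.sqrt 2 * Real.sinh m * Real.cosh m
      + m * (24 * Real.sqrt 2 - 6 * kp * Real.cosh m)) = _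
    have q : ∀ x, 24 * Real.sqrt 2 * Real.sinh x * Real.cosh x = 12 * ((kp * Real.sinh x) * (kp * Real.cosh x)) := by
      intro x; linear_combination (-12 * Real.sinh x * Real.cosh x) * hk
    rw [q, q, show 6 * kp * Real.cosh m1 = 6 * (kp * Real.cosh m1) by ring,
      show 6 * kp * Real.cosh m = 6 * (kp * Real.cosh m) by ring, c1, h1]
    obtain ⟨c, hcc⟩ : ∃ c, c = kp * Real.cosh m := ⟨_, rfl⟩
    obtain ⟨h, hhh⟩ : ∃ h, h = kp * Real.sinh m := ⟨_, rfl⟩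
    rw [← hcc] at hc ⊢
    rw [← hhh] at hh ⊢
    rw [hu'] at hc hh ⊢
    linear_combination ((-15 - 93 / 4 * Real.sqrt 2) + 12 * (1 + Real.sqrt 2 / 2)) * hh + (12 * h - 6 * m) * hc
  · rw [sub_im, im_ofReal_mul, ndt]
    show s3 * (12 * Real.sqrt 2 - 6 - (3 - 3 / 4 * Real.sqrt 2) * kp * Real.cosh m1
      + 24 * Real.sqrt 2 * Real.sinh m1 ^ 2 - 6 * m1 * kp * Real.sinh m1) -
      s3 * (12 * Real.sqrt 2 - 6 - (3 - 3 / 4 * Real.sqrt 2) * kp * Real.cosh m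
      + 24 * Real.sqrt 2 * Real.sinh m ^ 2 - 6 * m * kp * Real.sinh m) = _
    have q : ∀ x, 24 * Real.sqrt 2 * Real.sinh x ^ 2 = 12 * (kp * Real.sinh x) ^ 2 := by
      intro x; linear_combination (-12 * Real.sinh x ^ 2) * hk
    rw [q, q, show (3 - 3 / 4 * Real.sqrt 2) * kp * Real.cosh m1
      = (3 - 3 / 4 * Real.sqrt 2) * (kp * Real.cosh m1) by ring,
      show (3 - 3 / 4 * Real.sqrt 2) * kp * Real.cosh m
      = (3 - 3 / 4 * Real.sqrt 2) * (kp * Real.cosh m) by ring,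
      show 6 * m1 * kp * Real.sinh m1 = 6 * m1 * (kp * Real.sinh m1) by ring,
      show 6 * m * kp * Real.sinh m = 6 * m * (kp * Real.sinh m) by ring, c1, h1]
    obtain ⟨c, hcc⟩ : ∃ c, c = kp * Real.cosh m := ⟨_, rfl⟩
    obtain ⟨h, hhh⟩ : ∃ h, h = kp * Real.sinh m := ⟨_, rfl⟩
    rw [← hcc] at hc ⊢
    rw [← hhh] at hh ⊢
    rw [hu'] at hc hh ⊢
    linear_combination (-(s3 * (3 - 3 / 4 * Real.sqrt 2))) * hc
      + (s3 * (12 * ((1 - Real.sqrt 2 / 2) + h) - 6 * m)) * hh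

theorem ndp_eq (hσ : m1 * (1 - m / m1) * σ = Real.sinh (m1 - m))
    (hκ : m1 * (1 - m / m1) * κ = Real.cosh (m1 - m) - 1) :
    pk m1 - pk m = ((m1 * (1 - m / m1) : ℝ) : ℂ) * ndp m (nP σ κ) (nQ σ κ) := by
  have hc := W2_c hσ hκ
  have hh := W2_h hσ hκ
  obtain ⟨P, hP⟩ : ∃ P, P = nP σ κ := ⟨_, rfl⟩
  obtain ⟨Q, hQ⟩ : ∃ Q, Q = nQ σ κ := ⟨_, rfl⟩
  rw [← hP] at hc
  rw [← hQ] at hh
  rw [← hP, ← hQ]
  obtain ⟨u, hu⟩ : ∃ u, u = m1 * (1 - m / m1) := ⟨_, rfl⟩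
  rw [← hu] at hc hh ⊢
  have hr := W2_r2
  have hk := kp_sq
  have c1 := kp_mul_cosh_m1
  have h1 := kp_mul_sinh_m1
  -- 8 = 2 √2 kp²
  have k8 : 2 * Real.sqrt 2 * kp ^ 2 = 8 := by rw [hk]; linear_combination 4 * hr
  apply Complex.ext
  · rw [sub_re, re_ofReal_mul, ndp]
    show s3 * (9 * kp - 8 * Real.cosh m1) * Real.sinh m1 - s3 * (9 * kp - 8 * Real.cosh m) * Real.sinh m = _
    have q : ∀ x, s3 * (9 * kp - 8 * Real.cosh x) * Real.sinh x = s3 * (9 * (kp * Real.sinh x)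
        - 2 * Real.sqrt 2 * ((kp * Real.sinh x) * (kp * Real.cosh x))) := by
      intro x; linear_combination (s3 * Real.sinh x * Real.cosh x) * k8
    rw [q, q, c1, h1]
    obtain ⟨c, hcc⟩ : ∃ c, c = kp * Real.cosh m := ⟨_, rfl⟩
    obtain ⟨h, hhh⟩ : ∃ h, h = kp * Real.sinh m := ⟨_, rfl⟩
    rw [← hcc] at hc ⊢
    rw [← hhh] at hh ⊢
    linear_combination (s3 * (9 - 2 * Real.sqrt 2 * (1 + Real.sqrt 2 / 2))) * hh
      - (s3 * 2 * Real.sqrt 2 * h) * hc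
  · rw [sub_im, im_ofReal_mul, ndp]
    show 3 * (kp * Real.cosh m1 - 8 * Real.cosh m1 ^ 2 + 4) - 3 * (kp * Real.cosh m - 8 * Real.cosh m ^ 2 + 4) = _
    have q : ∀ x, 8 * Real.cosh x ^ 2 = 2 * Real.sqrt 2 * (kp * Real.cosh x) ^ 2 := by
      intro x; linear_combination (-(Real.cosh x ^ 2)) * k8
    rw [q, q, c1]
    obtain ⟨c, hcc⟩ : ∃ c, c = kp * Real.cosh m := ⟨_, rfl⟩
    rw [← hcc] at hc ⊢
    linear_combination (3 * (1 - 2 * Real.sqrt 2 * ((1 + Real.sqrt 2 / 2) + c))) * hc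

theorem ndq_eq (hσ : m1 * (1 - m / m1) * σ = Real.sinh (m1 - m))
    (hκ : m1 * (1 - m / m1) * κ = Real.cosh (m1 - m) - 1) :
    qy m = qy m1 + ((1 - m / m1 : ℝ) : ℂ) * ndq m (nP σ κ) (nQ σ κ) := by
  have hc := W2_c hσ hκ
  have ht := ndt_eq hσ hκ
  have hp := ndp_eq hσ hκ
  have hS1 := oS_m1
  have hS : oS m = 2 * (kp * Real.cosh m) - 1 := by rw [oS]; ring
  have e : ∀ x, qy x = ((oS x * s3 * (1 / 27) * (1 / oK) ^ 2 : ℝ) : ℂ)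
      * (tk x + ((oc * (3 * (4 - Real.sqrt 2) / 4) : ℝ) : ℂ) * pk x) := by
    intro x
    have h3 : s3 ^ 2 = 3 := s3_sq
    have h3p := s3_pos
    have hK := oK_pos.ne'
    rw [qy, show oS x / (9 * s3 * oK ^ 2) = oS x * s3 * (1 / 27) * (1 / oK) ^ 2 by
      field_simp; rw [h3]; ring]
  rw [e, e, hS1, hS, ndq]
  obtain ⟨P, hP⟩ : ∃ P, P = nP σ κ := ⟨_, rfl⟩
  obtain ⟨Q, hQ⟩ : ∃ Q, Q = nQ σ κ := ⟨_, rfl⟩
  obtain ⟨τ, hτ⟩ : ∃ τ, τ = 1 - m / m1 := ⟨_, rfl⟩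
  rw [← hP, ← hτ] at hc
  rw [← hP, ← hQ, ← hτ] at ht hp ⊢
  obtain ⟨c, hcc⟩ : ∃ c, c = kp * Real.cosh m := ⟨_, rfl⟩
  rw [← hcc] at hc ⊢
  have hcC : (1 + (Real.sqrt 2 : ℂ) / 2) - (c : ℂ) = (m1 : ℂ) * (τ : ℂ) * (P : ℂ) := by
    exact_mod_cast congrArg (fun t : ℝ => (t : ℂ)) hc
  push_cast at ht hp ⊢
  linear_combination (-(s3 : ℂ) * (1 / 27) * (1 / (oK : ℂ)) ^ 2 * (1 + (Real.sqrt 2 : ℂ))) * ht
    + (-(s3 : ℂ) * (1 / 27) * (1 / (oK : ℂ)) ^ 2 * (1 + (Real.sqrt 2 : ℂ))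
      * ((oc : ℂ) * (3 * (4 - (Real.sqrt 2 : ℂ)) / 4))) * hp
    + (-2 * (s3 : ℂ) * (1 / 27) * (1 / (oK : ℂ)) ^ 2
      * (tk m + ((oc : ℂ) * (3 * (4 - (Real.sqrt 2 : ℂ)) / 4)) * pk m)) * hcC

end

end Pool.H61.Rh
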