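import Pool.Agent.H89.Nz.W2
import Pool.Agent.H61.Re.F2

/-! # W3: the near zone: the relations of the splitting for the two calibrations -/

set_option autoImplicit false

namespace Pool.H61.Rh

open Complex

/-- conditions at the end point -/
structure VD.Ends (d : VD) : Prop where
  junc : d.Junc
  xc : hor d.xc.p 1 = -2 * hor d.xu.p 1
  xx : (qy m1).im + hor d.ax.p 1 = -2 * nlam * hor d.xx.p 1

/-- data of the splitting for a calibration -/
noncomputable def VD.nd (d : VD) (R m σ κ : ℝ) : Nd :=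
  ⟨1 - m / m1, nlam, R, ndq m (nP σ κ) (nQ σ κ) + I * (starRingEnd ℂ) (d.ax.df (m / m1)),
    ndy m (nP σ κ) (nQ σ κ), d.ev m1, d.df (m / m1)⟩

theorem VD.nd_rel {d : VD} (hd : d.Ends) (R : ℝ) {m σ κ : ℝ}
    (hσ : m1 * (1 - m / m1) * σ = Real.sinh (m1 - m))
    (hκ : m1 * (1 - m / m1) * κ = Real.cosh (m1 - m) - 1) :
    (d.nd R m σ κ).Rel (d.pt m) (qy m1 + d.ae m1) := by
  have h3 : s3 ^ 2 = 3 := s3_sq
  have aim : (qy m1 + d.ae m1).im = (qy m1).im + hor d.ax.p 1 := by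
    rw [add_im, VD.ae, Cf.ev_m1]
    simp only [mul_im, I_re, I_im, conj_re, conj_im]; ring
  have are : (qy m1 + d.ae m1).re = s3 * (qy m1 + d.ae m1).im := by
    rw [aim, add_re, qy_m1, VD.ae, Cf.ev_m1, hd.junc.ax]
    simp only [mul_re, I_re, I_im, conj_re, conj_im]; ring
  refine ⟨?_, ?_, ?_, ?_, ?_, ?_⟩
  · show qy m + d.ae m = qy m1 + d.ae m1 + ((1 - m / m1 : ℝ) : ℂ)
      * (ndq m (nP σ κ) (nQ σ κ) + I * (starRingEnd ℂ) (d.ax.df (m / m1)))
    rw [ndq_eq hσ hκ, VD.ae, VD.ae, Cf.ev_df d.ax m, map_add, map_mul, conj_ofReal]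
    ring
  · exact d.ev_lc m
  · exact ndy_eq hσ hκ
  · rw [dt, are, e3]; ring
  · intro X
    show nlam * dt (VAxr (d.ev m1) 0 X) e3 = dt (qy m1 + d.ae m1) X
    have e1 : (d.ev m1).xx = ⟨hor d.xx.p 1, s3 * hor d.xx.q 1⟩ := Cf.ev_m1 _
    have e2 : (d.ev m1).xb = ⟨hor d.xb.p 1, s3 * hor d.xb.q 1⟩ := Cf.ev_m1 _
    rw [hd.junc.xx] at e1
    rw [hd.junc.xb] at e2
    have hx := hd.xx
    rw [← aim] at hx
    rw [dt, dt, are, VAxr, e1, e2, e3, hx]
    simp only [mul_re, mul_im, add_re, add_im, sub_re, sub_im, I_re, I_im, ofReal_re, ofReal_im,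
      conj_re, conj_im, re_ofNat, im_ofNat]
    linear_combination (-(nlam * hor d.xx.p 1 * X.im)) * h3
  · show VBd (d.ev m1) 0 e3 = 0
    have e1 : (d.ev m1).xu = ⟨hor d.xu.p 1, s3 * hor d.xu.q 1⟩ := Cf.ev_m1 _
    have e2 : (d.ev m1).xc = ⟨hor d.xc.p 1, s3 * hor d.xc.q 1⟩ := Cf.ev_m1 _
    rw [hd.junc.xu] at e1
    rw [hd.junc.xc, hd.xc] at e2
    rw [VBd, e1, e2, e3]
    apply Complex.ext
    · simp only [dt, mul_re, mul_im, add_re, add_im, sub_re, sub_im, I_re, I_im, ofReal_re,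
        ofReal_im, conj_re, conj_im, re_ofNat, im_ofNat, zero_re, zero_im]
      ring
    · simp only [dt, mul_re, mul_im, add_re, add_im, sub_re, sub_im, I_re, I_im, ofReal_re,
        ofReal_im, conj_re, conj_im, re_ofNat, im_ofNat, zero_re, zero_im]
      linear_combination (-(hor d.xu.p 1) / 2) * h3

lemma W3_lam : nlam * (1 + Real.sqrt 2) = 3 := by
  have := W2_r2
  rw [nlam]; linear_combination 3 * this

private lemma W3_pj (μ : ℝ) : (qy m1).im + μ * (8306257 / 2 ^ 30) = nlam * pj μ / 2 := by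
  have := W3_lam
  rw [pj]; linear_combination (-((qy m1).im + μ * (8306257 / 2 ^ 30)) / 3) * this

theorem dA_ends : dA.Ends := by
  refine ⟨dA_junc, ?_, ?_⟩
  · simp only [dA, hor]; norm_num
  · have h := W3_pj μA
    have e1 : hor dA.ax.p 1 = μA * (8306257 / 2 ^ 30) := by
      simp only [dA, sml, axp, hor, List.map]; ring
    have e2 : hor dA.xx.p 1 = -(pj μA / 4) := by simp only [dA, hor]; ring
    rw [e1, e2, h]; ring

theorem dB_ends : dB.Ends := by
  refine ⟨dB_junc, ?_, ?_⟩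
  · simp only [dB, hor]; norm_num
  · have h := W3_pj μB
    have e1 : hor dB.ax.p 1 = μB * (8306257 / 2 ^ 30) := by
      simp only [dB, sml, axp, hor, List.map]; ring
    have e2 : hor dB.xx.p 1 = -(pj μB / 4) := by simp only [dB, hor]; ring
    rw [e1, e2, h]; ring

/-- the numbers `σ`, `κ` -/
noncomputable def shq (u : ℝ) : ℝ := if u = 0 then 1 else Real.sinh u / u
noncomputable def chq (u : ℝ) : ℝ := if u = 0 then 0 else (Real.cosh u - 1) / u

lemma shq_eq (u : ℝ) : u * shq u = Real.sinh u := by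
  unfold shq
  split_ifs with h
  · rw [h]; simp
  · field_simp

lemma chq_eq (u : ℝ) : u * chq u = Real.cosh u - 1 := by
  unfold chq
  split_ifs with h
  · rw [h]; simp
  · field_simp

lemma shq_rel (m : ℝ) : m1 * (1 - m / m1) * shq (m1 - m) = Real.sinh (m1 - m) := by
  rw [show m1 * (1 - m / m1) = m1 - m by have := W2_m1_ne; field_simp]; exact shq_eq _

lemma chq_rel (m : ℝ) : m1 * (1 - m / m1) * chq (m1 - m) = Real.cosh (m1 - m) - 1 := by
  rw [show m1 * (1 - m / m1) = m1 - m by have := W2_m1_ne; field_simp]; exact chq_eq _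

end Pool.H61.Rh
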