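import Pool.Agent.H89.Nz.W3
import Pool.Agent.H89.Nz.W4

/-! # W5: the near zone: base symbols of the program for the additional symbols -/

set_option autoImplicit false

namespace Pool.H61.Rh

open Complex Pool.H47.Kc

/-- Taylor polynomial of `sinh u / u` -/
noncomputable def shp (u : ℝ) : ℝ := 1 + u ^ 2 / 6 + u ^ 4 / 120

/-- Taylor polynomial of `(cosh u - 1) / u` -/
noncomputable def chp (u : ℝ) : ℝ := u / 2 + u ^ 3 / 24 + u ^ 5 / 720

/-- level-1 symbols, extended -/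
noncomputable def l1n (μ m : ℝ) : List ℝ :=
  (shq (m1 - m) - shp (m1 - m)) :: (chq (m1 - m) - chp (m1 - m)) :: (1 / 5) :: l1 μ m

/-- the additional symbols which are computed by the program -/
noncomputable def Nd.xl (n : Nd) : List ℝ :=
  [n.lam, n.da.re, n.da.im, n.dy.re, n.dy.im,
    2 * n.c1.a20, n.c1.a11, 2 * n.c1.a02, 3 * n.c1.a30, 2 * n.c1.a21, n.c1.a12, n.c1.a21,
    2 * n.c1.a12, 3 * n.c1.a03, n.c1.b11, n.c1.b12, n.c1.b21, n.c1.b22, n.c1.q1, n.c1.q2, n.c1.q3,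
    n.c1.q4, n.c1.q5, n.c1.q6,
    2 * n.dc.a20, n.dc.a11, 2 * n.dc.a02, 3 * n.dc.a30, 2 * n.dc.a21, n.dc.a12, n.dc.a21,
    2 * n.dc.a12, 3 * n.dc.a03, n.dc.b11, n.dc.b12, n.dc.b21, n.dc.b22, n.dc.q1, n.dc.q2, n.dc.q3,
    n.dc.q4, n.dc.q5, n.dc.q6]

/-- order of the additional symbols: `τ`, `lam`, `R`, the others -/
lemma Nd.l_eq (n : Nd) : n.l = n.τ :: n.lam :: n.R :: n.xl.tail := rfl

end Pool.H61.Rh
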