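import Pool.Agent.H89.Nz.W5
import Pool.Agent.H89.Nz.KNa
import Pool.Agent.H89.Nz.KNb
import Pool.Agent.H47.K3.Chk
import Pool.Agent.H61.Rz.Ch
import Pool.Agent.H61.Re.C3

/-! # W6: the near zone: from the kernel checks to the main inequality -/

set_option autoImplicit false

namespace Pool.H61.Rh

open Complex Pool.H47.Kc Pool.H47.K3

/-- bounded loop -/
noncomputable def nzAll (f : Nat → Bool) (n : Nat) : Bool :=
  Nat.rec (motive := fun _ => Bool) true (fun k ih => cond (f k) ih false) n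

theorem nzAll_sound {f : Nat → Bool} {n : Nat} (h : nzAll f n = true) (k : Nat) (hk : k < n) :
    f k = true := by
  induction n with
  | zero => omega
  | succ n ih =>
    have h' : cond (f n) (nzAll f n) false = true := h
    cases hf : f n with
    | false => rw [hf] at h'; cases h'
    | true =>
      rw [hf] at h'
      rcases Nat.lt_succ_iff_lt_or_eq.mp hk with h1 | h1
      · exact ih h' h1
      · rw [h1]; exact hf

/-- `θ = 7/8 + v/8` -/
def nzX : Tm := ⟨[1008806316530991104, 144115188075855872], 0⟩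

/-- comparison of two enclosures for `3/4 ≤ θ ≤ 1` -/
def nck2 (s s' : Sym) : Bool :=
  Nat.ble (Nat.add s.eps ((horner (tmAlg []) nzX s.p).sub (horner (tmAlg []) nzX s'.p)).bc) s'.eps

lemma nzX_in (v : ℝ) : nzX.In v ((7 + v) / 8) := by
  show |(7 + v) / 8 * 2 ^ 60 - (((1008806316530991104 : ℤ) : ℝ) +
    v * (((144115188075855872 : ℤ) : ℝ) + v * 0))| ≤ ((0 : ℕ) : ℝ)
  have h : (7 + v) / 8 * 2 ^ 60 - (((1008806316530991104 : ℤ) : ℝ) +
      v * (((144115188075855872 : ℤ) : ℝ) + v * 0)) = 0 := by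
    push_cast
    ring
  rw [h]; simp

private lemma nz_hr_real (β : ℕ → ℝ) (x y t : ℝ) (l : List Fx) :
    horner (realAlg β x y) t l = pval l t := by
  induction l with
  | nil => simp [horner, realAlg, pval]
  | cons a l ih =>
    have h1 : horner (realAlg β x y) t (a :: l) =
        a.val + t * horner (realAlg β x y) t l := rfl
    rw [h1, ih]
    rfl

lemma nz_hr_in {v : ℝ} (hv : |v| ≤ 1) (p : List Fx) :
    (horner (tmAlg []) nzX p).In v (pval p ((7 + v) / 8)) := by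
  have h1 : (horner (tmAlg []) nzX p).In v
      (horner (realAlg (fun _ => 0) ((7 + v) / 8) 0) ((7 + v) / 8) p) :=
    horner_rel (R := fun (a : Tm) (v' : ℝ) => a.In v v')
      (A := tmAlg []) (B := realAlg (fun _ => 0) ((7 + v) / 8) 0)
      (fun z e => Tm.cst_sound z e v) (fun _ _ _ _ h1 h2 => Tm.add_sound h1 h2)
      (fun _ _ _ _ h1 h2 => Tm.mul_sound hv h1 h2) _ _ (nzX_in v) p
  rw [nz_hr_real] at h1
  exact h1

theorem nck2_sound {v x : ℝ} (hv : |v| ≤ 1) {s s' : Sym} (h : nck2 s s' = true)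
    (hx : |x - pval s.p ((7 + v) / 8)| ≤ (s.eps : ℝ) / 2 ^ 60) :
    |x - pval s'.p ((7 + v) / 8)| ≤ (s'.eps : ℝ) / 2 ^ 60 := by
  have h0 : s.eps + ((horner (tmAlg []) nzX s.p).sub (horner (tmAlg []) nzX s'.p)).bc ≤ s'.eps :=
    Nat.le_of_ble_eq_true h
  have h0' : (s.eps : ℝ) + (((horner (tmAlg []) nzX s.p).sub (horner (tmAlg []) nzX s'.p)).bc : ℝ)
      ≤ (s'.eps : ℝ) := by exact_mod_cast h0
  have h2 := Tm.bc_sound hv (Tm.sub_sound (nz_hr_in hv s.p) (nz_hr_in hv s'.p))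
  have e : x - pval s'.p ((7 + v) / 8) = (x - pval s.p ((7 + v) / 8))
      + (pval s.p ((7 + v) / 8) - pval s'.p ((7 + v) / 8)) := by ring
  have h3 : |pval s.p ((7 + v) / 8) - pval s'.p ((7 + v) / 8)|
      ≤ (((horner (tmAlg []) nzX s.p).sub (horner (tmAlg []) nzX s'.p)).bc : ℝ) / 2 ^ 60 := by
    rw [le_div_iff₀ (by positivity)]
    rw [abs_mul, abs_of_pos (show (0 : ℝ) < 2 ^ 60 by positivity)] at h2
    exact h2
  rw [e]
  calc _ ≤ _ := abs_add_le _ _
    _ ≤ (s.eps : ℝ) / 2 ^ 60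
        + (((horner (tmAlg []) nzX s.p).sub (horner (tmAlg []) nzX s'.p)).bc : ℝ) / 2 ^ 60 :=
      add_le_add hx h3
    _ ≤ _ := by rw [← add_div]; exact div_le_div_of_nonneg_right h0' (by positivity)

/-- the symbols -/
noncomputable def nsy (d : VD) (R m : ℝ) : List ℝ :=
  (d.pt m).syl (d.nd R m (shq (m1 - m)) (chq (m1 - m))).l

set_option maxRecDepth 10000 in
lemma nsy_length (d : VD) (R m : ℝ) : (nsy d R m).length = 126 := by
  unfold nsy Pt.syl Nd.l
  simp only [List.length_cons, List.length_nil]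

lemma nz_get_ge {α : Type} (a : α) (l : List α) (i : ℕ) (h : l.length ≤ i) : get a l i = a := by
  induction l generalizing i with
  | nil => rfl
  | cons b l ih =>
    cases i with
    | zero => simp at h
    | succ i => exact ih i (by simpa using h)

/-- change of the enclosures -/
theorem encl_change {d : VD} {R m : ℝ} (m0 : 3 / 4 * m1 ≤ m) (mm : m ≤ m1) {S S' : ℕ → Sym}
    (h : ∀ i < 126, |get 0 (nsy d R m) i - pval (S i).p (m / m1)| ≤ ((S i).eps : ℝ) / 2 ^ 60)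
    (hc : nzAll (fun i => nck2 (S i) (S' i)) 126 = true) (hS' : ∀ i, 126 ≤ i → S' i = ⟨[], 0⟩) :
    EnclF S' (m / m1) (fun i => get 0 (nsy d R m) i) := by
  intro i
  have hm := m1_bounds
  rcases lt_or_ge i 126 with hi | hi
  · have e : m / m1 = (7 + (8 * (m / m1) - 7)) / 8 := by ring
    have h1 : 3 / 4 ≤ m / m1 := by rw [le_div_iff₀ (by linarith [hm.1])]; exact m0
    have h2 : m / m1 ≤ 1 := by rw [div_le_one (by linarith [hm.1])]; exact mm
    rw [e]
    refine nck2_sound (by rw [abs_le]; constructor <;> linarith) (nzAll_sound hc i hi) ?_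
    rw [← e]; exact h i hi
  · rw [hS' i hi]
    simp only
    rw [nz_get_ge 0 _ i (by rw [nsy_length]; exact hi)]
    simp [pval]

lemma nz_kN_val {P : List Op} {o : List Nat} {f : {α : Type} → Alg α → List α}
    {h : ∀ {α : Type} (A : Alg α), f A = outs A P o} (A : Alg ℝ) {v w : ℝ} (hA : A.dflt = 0)
    (hv : OutEq (run A P []) o [v, w]) :
    (⟨P, o, f, h⟩ : Prg).val A 0 = v ∧ (⟨P, o, f, h⟩ : Prg).val A 1 = w := by
  unfold Prg.val
  simp only [h]
  match o, hv with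
  | [a, b], hv =>
    obtain ⟨h1, h2, _⟩ := hv
    constructor
    · show get A.dflt (run A P []) a = v
      rw [hA]; exact h1
    · show get A.dflt (run A P []) b = w
      rw [hA]; exact h2

lemma nz_oN_norm_le (m : ℝ) : ‖oN m‖ ≤ 1 := by
  have hR := oR_sq m
  have hR1 := oR_ge m
  rw [oN, norm_div, norm_real, Real.norm_of_nonneg (by linarith), div_le_one (by linarith)]
  rw [normSq_eq_norm_sq] at hR
  nlinarith [norm_nonneg (ov m)]

lemma nz_abs_dt_le (a b : ℂ) : |dt a b| ≤ ‖a‖ * ‖b‖ := by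
  have e : dt a b = (a * (starRingEnd ℂ) b).re := by
    simp only [dt, mul_re, conj_re, conj_im]; ring
  have := abs_re_le_norm (a * (starRingEnd ℂ) b)
  rw [norm_mul, norm_conj, ← e] at this
  exact this

/-- one chart -/
theorem near_chart {d : VD} (hd : d.Ends) {R m : ℝ} (m0 : 3 / 4 * m1 ≤ m) (mm : m ≤ m1)
    {S' : ℕ → Sym} (hS : EnclF S' (m / m1) (fun i => get 0 (nsy d R m) i))
    {P : List Op} {o : List Nat} {f : {α : Type} → Alg α → List α}
    {h : ∀ {α : Type} (A : Alg α), f A = outs A P o} {U : U3} {g : Dg} {V : V3}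
    (hp : posV U S' ⟨P, o, f, h⟩ g [0, 1] V = true) {r s : ℝ} (X : ℂ)
    (hz : (zz U V).Mem (m / m1) r s) (hX : ‖X * (r : ℂ)‖ ≤ 1 / 8)
    (hval : ∀ n : Nd, OutEq (run (realAlg (fun i => get 0 ((d.pt m).syl n.l) i) r s) P []) o
      [(d.pt m).NA n.R r X ((d.pt m).T0 r X (1 - 2 * (d.pt m).ys.re - 2 * (r * X.re)))
          ((d.pt m).U0 r X ((d.pt m).T0 r X (1 - 2 * (d.pt m).ys.re - 2 * (r * X.re)))
            (1 - 2 * (d.pt m).ys.re - 2 * (r * X.re))) (1 - 2 * (d.pt m).ys.re - 2 * (r * X.re))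
          (n.φ2 r X) (n.γ1 r X),
        (d.pt m).NB n.R r X ((d.pt m).T0 r X (1 - 2 * (d.pt m).ys.re - 2 * (r * X.re)))
          ((d.pt m).U0 r X ((d.pt m).T0 r X (1 - 2 * (d.pt m).ys.re - 2 * (r * X.re)))
            (1 - 2 * (d.pt m).ys.re - 2 * (r * X.re))) (1 - 2 * (d.pt m).ys.re - 2 * (r * X.re))
          (n.φ2 r X) (n.γ1 r X) n.τ (n.φt (d.pt m) r X) (n.γt (d.pt m) r X)]) :
    (d.pt m).FI R (X * (r : ℂ)) 2 := by
  have hm := m1_bounds
  have hm0 : 0 ≤ m := by linarith [hm.1]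
  obtain ⟨n, hn⟩ : ∃ n, n = d.nd R m (shq (m1 - m)) (chq (m1 - m)) := ⟨_, rfl⟩
  have hrel := d.nd_rel hd R (shq_rel m) (chq_rel m)
  have hv := hval n
  have hsy : nsy d R m = (d.pt m).syl n.l := by rw [nsy, hn]
  rw [hsy] at hS
  obtain ⟨e0, e1⟩ := nz_kN_val (f := f) (h := h)
    (realAlg (fun i => get 0 ((d.pt m).syl n.l) i) r s) rfl hv
  have p0 := posV_sound U S' ⟨P, o, f, h⟩ g [0, 1] V hp (m / m1) r s hz _ hS 0 (by simp)
  have p1 := posV_sound U S' ⟨P, o, f, h⟩ g [0, 1] V hp (m / m1) r s hz _ hS 1 (by simp)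
  rw [e0] at p0
  rw [e1] at p1
  have hR : n.R = R := by rw [hn]; rfl
  have hτ : n.τ = 1 - m / m1 := by rw [hn]; rfl
  rw [hR] at p0 p1
  rw [← hn] at hrel
  have hys : (d.pt m).ys = oy m := rfl
  have hny := C3_oy_norm hm0 mm
  have hy : ‖(d.pt m).yr r X‖ ≤ 3 / 8 := by
    rw [Pt.yr, hys]
    calc _ ≤ ‖oy m‖ + ‖X * (r : ℂ)‖ := norm_add_le _ _
      _ ≤ 1 / 4 + 1 / 8 := add_le_add hny hX
      _ = 3 / 8 := by norm_num
  have hre : (oy m).re + r * X.re ≤ 3 / 8 := by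
    have h1 := (abs_le.mp ((abs_re_le_norm _).trans hy)).2
    rw [Pt.yr, hys] at h1
    simp only [add_re, mul_re, ofReal_re, ofReal_im] at h1
    linarith
  refine FI_near (d.pt m) rfl rfl (oF_ne m) (C3_d0 m) r X ?_ ?_ ?_ (τ := n.τ) ?_
    (hrel.hφ r X) (hrel.hγ r X) p0 p1
  · rw [hys]
    have : 0 < 1 - 2 * (oy m).re - 2 * (r * X.re) := by linarith
    exact this.ne'
  · have h1 := nz_abs_dt_le (uu 2) ((d.pt m).yr r X)
    have h2 : ‖uu 2‖ = 1 := by
      have h3 : normSq (uu 2) = 1 := by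
        rw [normSq_apply, uu2_re, uu2_im]
        have := s3_sq
        nlinarith
      rw [normSq_eq_norm_sq] at h3
      nlinarith [norm_nonneg (uu 2)]
    rw [h2, one_mul] at h1
    have : 0 < 1 - 2 * dt (uu 2) ((d.pt m).yr r X) := by
      have := (abs_le.mp (h1.trans hy)).2
      linarith
    exact this.ne'
  · have e : (d.pt m).fr r X = 1 + dt ((d.pt m).yr r X) (oN m) := by
      show oF m + dt (oN m) X * r = _
      rw [oF_eq, Pt.yr, hys]
      simp only [dt, add_re, add_im, mul_re, mul_im, ofReal_re, ofReal_im]; ring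
    rw [e]
    have h1 := nz_abs_dt_le ((d.pt m).yr r X) (oN m)
    have h2 := nz_oN_norm_le m
    have h3 : ‖(d.pt m).yr r X‖ * ‖oN m‖ ≤ 3 / 8 * 1 :=
      mul_le_mul hy h2 (norm_nonneg _) (by norm_num)
    have := (abs_le.mp (h1.trans h3)).1
    linarith
  · rw [hτ]
    have : m / m1 ≤ 1 := by rw [div_le_one (by linarith [hm.1])]; exact mm
    linarith

/-- **the near zone of the vertex `2`** -/
theorem near_zone {d : VD} (hd : d.Ends) {R m : ℝ} (m0 : 3 / 4 * m1 ≤ m) (mm : m ≤ m1)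
    {S' : ℕ → Sym} (hS : EnclF S' (m / m1) (fun i => get 0 (nsy d R m) i))
    {Ua Ub : U3} {ga gb : Dg} {Va Vb : V3}
    (ha : posV Ua S' kNa ga [0, 1] Va = true) (hb : posV Ub S' kNb gb [0, 1] Vb = true)
    (za : ∀ t r s : ℝ, 3 / 4 ≤ t → t ≤ 1 → |r| ≤ 1 / 16 → 0 ≤ s → s ≤ 1 → (zz Ua Va).Mem t r s)
    (zb : ∀ t r s : ℝ, 3 / 4 ≤ t → t ≤ 1 → |r| ≤ 1 / 16 → 0 ≤ s → s ≤ 1 → (zz Ub Vb).Mem t r s)
    {x : ℂ} (hx : |x.re| ≤ 1 / 16) (hy : |x.im| ≤ 1 / 16) : (d.pt m).FI R x 2 := by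
  have hm := m1_bounds
  have t0 : 3 / 4 ≤ m / m1 := by rw [le_div_iff₀ (by linarith [hm.1])]; exact m0
  have t1 : m / m1 ≤ 1 := by rw [div_le_one (by linarith [hm.1])]; exact mm
  have hxn : ‖x‖ ≤ 1 / 8 := by
    have := Complex.norm_le_abs_re_add_abs_im x
    linarith
  rcases le_total |x.im| |x.re| with h | h
  · -- chart a
    obtain ⟨s, hs0, hs1, hs⟩ : ∃ s : ℝ, 0 ≤ s ∧ s ≤ 1 ∧ x.im = (2 * s - 1) * x.re := by
      rcases eq_or_ne x.re 0 with h0 | h0
      · refine ⟨0, le_rfl, by norm_num, ?_⟩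
        rw [h0, abs_zero] at h
        rw [h0, abs_eq_zero.mp (le_antisymm h (abs_nonneg _))]; ring
      · have h1 : |x.im / x.re| ≤ 1 := by
          rw [abs_div, div_le_one (abs_pos.mpr h0)]; exact h
        rw [abs_le] at h1
        refine ⟨(x.im / x.re + 1) / 2, by linarith, by linarith, ?_⟩
        field_simp; ring
    have e : x = (⟨1, 2 * s - 1⟩ : ℂ) * ((x.re : ℝ) : ℂ) := by
      apply Complex.ext
      · simp
      · rw [hs]; simp
    have hX : ‖(⟨1, 2 * s - 1⟩ : ℂ) * ((x.re : ℝ) : ℂ)‖ ≤ 1 / 8 := by rw [← e]; exact hxn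
    rw [e]
    exact near_chart hd m0 mm hS ha _ (za _ _ _ t0 t1 hx hs0 hs1) hX
      (fun n => pNa_val (d.pt m) n x.re s)
  · -- chart b
    obtain ⟨s, hs0, hs1, hs⟩ : ∃ s : ℝ, 0 ≤ s ∧ s ≤ 1 ∧ x.re = (2 * s - 1) * x.im := by
      rcases eq_or_ne x.im 0 with h0 | h0
      · refine ⟨0, le_rfl, by norm_num, ?_⟩
        rw [h0, abs_zero] at h
        rw [h0, abs_eq_zero.mp (le_antisymm h (abs_nonneg _))]; ring
      · have h1 : |x.re / x.im| ≤ 1 := by
          rw [abs_div, div_le_one (abs_pos.mpr h0)]; exact h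
        rw [abs_le] at h1
        refine ⟨(x.re / x.im + 1) / 2, by linarith, by linarith, ?_⟩
        field_simp; ring
    have e : x = (⟨2 * s - 1, 1⟩ : ℂ) * ((x.im : ℝ) : ℂ) := by
      apply Complex.ext
      · rw [hs]; simp
      · simp
    have hX : ‖(⟨2 * s - 1, 1⟩ : ℂ) * ((x.im : ℝ) : ℂ)‖ ≤ 1 / 8 := by rw [← e]; exact hxn
    rw [e]
    exact near_chart hd m0 mm hS hb _ (zb _ _ _ t0 t1 hy hs0 hs1) hX
      (fun n => pNb_val (d.pt m) n x.im s)

end Pool.H61.Rh
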