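import Pool.Agent.H89.Nz.W6

/-! # W7: the near zone: enclosures of the additional symbols by Taylor models -/

set_option autoImplicit false

namespace Pool.H61.Rh

open Complex Pool.H47.Kc Pool.H47.K3

/-- check of the outputs of a program -/
noncomputable def nzChk (st : List Tm) (ks : List Nat) : List Sym → Bool :=
  List.rec (motive := fun _ => List Sym → Bool) (fun _ => true)
    (fun k _ ih ss => List.rec (motive := fun _ => Bool) false
      (fun s ss _ => cond (chk (get ⟨[], 0⟩ st k) s) (ih ss) false) ss) ks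

theorem nzChk_sound {t : ℝ} (ht : |t| ≤ 1) {st : List Tm} {rt : List ℝ}
    (hst : ∀ i, (get ⟨[], 0⟩ st i).In t (get 0 rt i)) (ks : List Nat) :
    ∀ (vs : List ℝ) (ss : List Sym), OutEq rt ks vs → nzChk st ks ss = true → ∀ i < vs.length,
      |get 0 vs i - pval (get ⟨[], 0⟩ ss i).p ((1 + t) / 2)|
        ≤ ((get ⟨[], 0⟩ ss i).eps : ℝ) / 2 ^ 60 := by
  induction ks with
  | nil =>
    intro vs ss hv _ i hi
    cases vs with
    | nil => simp at hi
    | cons v vs => exact absurd hv (by simp [OutEq])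
  | cons k ks ih =>
    intro vs ss hv hc i hi
    cases vs with
    | nil => simp at hi
    | cons v vs =>
      obtain ⟨h1, h2⟩ := hv
      cases ss with
      | nil => exact absurd hc (by simp [nzChk])
      | cons s ss =>
        have hc' : cond (chk (get ⟨[], 0⟩ st k) s) (nzChk st ks ss) false = true := hc
        cases hk : chk (get ⟨[], 0⟩ st k) s with
        | false => rw [hk] at hc'; cases hc'
        | true =>
          rw [hk] at hc'
          cases i with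
          | zero =>
            have := chk_sound ht (hst k) hk
            rw [h1] at this
            exact this
          | succ i => exact ih vs ss h2 hc' i (by simpa using hi)

lemma nz_exp7 {u : ℝ} (hu : |u| ≤ 1) :
    |Real.exp u - (1 + u + u ^ 2 / 2 + u ^ 3 / 6 + u ^ 4 / 24 + u ^ 5 / 120 + u ^ 6 / 720)|
      ≤ |u| ^ 7 * (8 / 35280) := by
  have h := Real.exp_bound hu (n := 7) (by norm_num)
  have e : ∑ m ∈ Finset.range 7, u ^ m / (m.factorial : ℝ)
      = 1 + u + u ^ 2 / 2 + u ^ 3 / 6 + u ^ 4 / 24 + u ^ 5 / 120 + u ^ 6 / 720 := by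
    simp only [Finset.sum_range_succ, Finset.sum_range_zero, Nat.factorial]
    push_cast
    ring
  rw [e] at h
  refine h.trans (le_of_eq ?_)
  congr 1
  simp only [Nat.factorial]
  norm_num

lemma nz_sinh7 {u : ℝ} (hu : |u| ≤ 1) :
    |Real.sinh u - u * shp u| ≤ |u| ^ 7 * (8 / 35280) := by
  have h1 := nz_exp7 hu
  have h2 := nz_exp7 (u := -u) (by rwa [abs_neg])
  rw [abs_neg] at h2
  rw [Real.sinh_eq, shp]
  rw [abs_le] at h1 h2 ⊢
  constructor <;> nlinarith [h1.1, h1.2, h2.1, h2.2]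

lemma nz_cosh7 {u : ℝ} (hu : |u| ≤ 1) :
    |Real.cosh u - 1 - u * chp u| ≤ |u| ^ 7 * (8 / 35280) := by
  have h1 := nz_exp7 hu
  have h2 := nz_exp7 (u := -u) (by rwa [abs_neg])
  rw [abs_neg] at h2
  rw [Real.cosh_eq, chp]
  rw [abs_le] at h1 h2 ⊢
  constructor <;> nlinarith [h1.1, h1.2, h2.1, h2.2]

lemma nz_q7 {u a b : ℝ} (h : |a - u * b| ≤ |u| ^ 7 * (8 / 35280)) (hu : u ≠ 0) :
    |a / u - b| ≤ |u| ^ 6 * (8 / 35280) := by
  have e : a / u - b = (a - u * b) / u := by field_simp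
  rw [e, abs_div, div_le_iff₀ (abs_pos.mpr hu)]
  refine h.trans (le_of_eq ?_)
  ring

lemma nz_m1_lt : m1 ≤ 7 / 40 := by
  have := m1_bounds
  linarith [this.2]

lemma nz_pw6 {u : ℝ} (h0 : 0 ≤ u) (h1 : u ≤ 7 / 40) :
    |u| ^ 6 * (8 / 35280) * 2 ^ 60 ≤ ((8000000000 : ℕ) : ℝ) := by
  have h : |u| ^ 6 ≤ (7 / 40) ^ 6 := by
    rw [abs_of_nonneg h0]; exact pow_le_pow_left₀ h0 h1 6
  calc |u| ^ 6 * (8 / 35280) * 2 ^ 60 ≤ (7 / 40) ^ 6 * (8 / 35280) * 2 ^ 60 := by gcongr
    _ ≤ _ := by norm_num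

/-- Taylor models of the extended level-1 symbols -/
def nq (q : List Tm) : List Tm := ⟨[], 8000000000⟩ :: ⟨[], 8000000000⟩ :: Tm.rat 1 5 :: q

theorem nq_in {q : List Tm} {t μ m : ℝ} (hq : TmIn q t (fun i => get 0 (l1 μ m) i))
    (m0 : 0 ≤ m) (mm : m ≤ m1) : TmIn (nq q) t (fun i => get 0 (l1n μ m) i) := by
  have hm := nz_m1_lt
  have h0 : 0 ≤ m1 - m := by linarith
  have h1 : m1 - m ≤ 7 / 40 := by linarith
  have hu : |m1 - m| ≤ 1 := by rw [abs_of_nonneg h0]; linarith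
  refine TmIn_cons (TmIn_cons (TmIn_cons hq ?_) ?_) ?_
  · have := Tm.rat_sound 1 (n := 5) (by norm_num) t
    norm_num at this ⊢
    exact this
  · show |(chq (m1 - m) - chp (m1 - m)) * 2 ^ 60 - 0| ≤ ((8000000000 : ℕ) : ℝ)
    rw [sub_zero, abs_mul, abs_of_pos (show (0 : ℝ) < 2 ^ 60 by positivity)]
    refine le_trans ?_ (nz_pw6 h0 h1)
    gcongr
    unfold chq
    split_ifs with h
    · rw [h, chp]; norm_num
    · exact nz_q7 (nz_cosh7 hu) h
  · show |(shq (m1 - m) - shp (m1 - m)) * 2 ^ 60 - 0| ≤ ((8000000000 : ℕ) : ℝ)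
    rw [sub_zero, abs_mul, abs_of_pos (show (0 : ℝ) < 2 ^ 60 by positivity)]
    refine le_trans ?_ (nz_pw6 h0 h1)
    gcongr
    unfold shq
    split_ifs with h
    · rw [h, shp]; norm_num
    · exact nz_q7 (nz_sinh7 hu) h

/-- the enclosures of the additional symbols: the list `xl` -/
theorem xl_encl {q : List Tm} {μ m : ℝ} {P : List Op} {o : List Nat} {vs : List ℝ} {ss : List Sym}
    (m0 : 0 ≤ m) (mm : m ≤ m1)
    (hq : TmIn q (2 * (m / m1) - 1) (fun i => get 0 (l1 μ m) i))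
    (hv : OutEq (run (realAlg (fun i => get 0 (l1n μ m) i) (m / m1) 0) P []) o vs)
    (hc : nzChk (run (tmAlg (nq q)) P []) o ss = true) (i : ℕ) (hi : i < vs.length) :
    |get 0 vs i - pval (get ⟨[], 0⟩ ss i).p (m / m1)| ≤ ((get ⟨[], 0⟩ ss i).eps : ℝ) / 2 ^ 60 := by
  have hm := m1_bounds
  have t0 : 0 ≤ m / m1 := div_nonneg m0 (by linarith [hm.1])
  have t1 : m / m1 ≤ 1 := by rw [div_le_one (by linarith [hm.1])]; exact mm
  have e : (1 + (2 * (m / m1) - 1)) / 2 = m / m1 := by ring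
  have ht : |2 * (m / m1) - 1| ≤ 1 := by rw [abs_le]; constructor <;> linarith
  have h1 := run_sound ht (nq_in hq m0 mm) P
  have h2 := nzChk_sound ht h1 o vs ss (by rw [e]; exact hv) hc i hi
  rw [e] at h2
  exact h2

lemma nz_get2_ge {α : Type} (d : α) (L : List α) (i : ℕ) (h : L.length ≤ i) :
    get2 d L i = d := by
  induction L generalizing i with
  | nil => rfl
  | cons a L ih =>
    cases i with
    | zero => simp at h
    | succ i => exact ih i (by simpa using h)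

/-- list of the enclosures of the additional symbols in the order of `Nd.l` -/
def nxs (R : Sym) : List Sym → List Sym
  | [] => []
  | a :: l => ⟨[⟨1, 0⟩, ⟨-1, 0⟩], 0⟩ :: a :: R :: l

/-- all symbols: `S0` for the first `81`, `ss` for the others -/
noncomputable def nS (S0 : ℕ → Sym) (R : Sym) (ss : List Sym) (i : ℕ) : Sym :=
  cond (Nat.ble i 80) (S0 i) (get ⟨[], 0⟩ (nxs R ss) (Nat.sub i 81))

lemma nz_get_drop {α : Type} (a : α) (l : List α) (k i : ℕ) :
    get a (l.drop k) i = get a l (k + i) := by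
  induction k generalizing l with
  | zero => simp
  | succ k ih =>
    cases l with
    | nil => rw [List.drop_nil]; cases i <;> rfl
    | cons b l =>
      rw [List.drop_succ_cons, ih, show k + 1 + i = (k + i) + 1 by ring]
      rfl

lemma nsy_drop (d : VD) (R m : ℝ) :
    (nsy d R m).drop 81 = (d.nd R m (shq (m1 - m)) (chq (m1 - m))).l := rfl

/-- the enclosures of all symbols -/
theorem nS_encl {d : VD} {μ R m : ℝ} {q : List Tm} {P : List Op} {o : List Nat} {ss : List Sym}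
    {S0 : ℕ → Sym} {Rs : Sym} (m0 : 0 ≤ m) (mm : m ≤ m1)
    (hq : TmIn q (2 * (m / m1) - 1) (fun i => get 0 (l1 μ m) i))
    (hv : OutEq (run (realAlg (fun i => get 0 (l1n μ m) i) (m / m1) 0) P []) o
      (d.nd R m (shq (m1 - m)) (chq (m1 - m))).xl)
    (hc : nzChk (run (tmAlg (nq q)) P []) o ss = true) (hl : ss.length = 43)
    (hR : pval Rs.p (m / m1) = R)
    (h81 : ∀ i < 81, |get 0 (nsy d R m) i - pval (S0 i).p (m / m1)| ≤ ((S0 i).eps : ℝ) / 2 ^ 60)
    (i : ℕ) (hi : i < 126) :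
    |get 0 (nsy d R m) i - pval (nS S0 Rs ss i).p (m / m1)|
      ≤ ((nS S0 Rs ss i).eps : ℝ) / 2 ^ 60 := by
  rcases lt_or_ge i 81 with h | h
  · have e : nS S0 Rs ss i = S0 i := by
      unfold nS
      rw [show Nat.ble i 80 = true from Nat.ble_eq_true_of_le (by omega)]
      rfl
    rw [e]; exact h81 i h
  · obtain ⟨k, rfl⟩ : ∃ k, i = 81 + k := ⟨i - 81, by omega⟩
    have e : nS S0 Rs ss (81 + k) = get ⟨[], 0⟩ (nxs Rs ss) k := by
      unfold nS
      rw [show Nat.ble (81 + k) 80 = false by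
        rw [← Bool.not_eq_true]; intro hh; have := Nat.le_of_ble_eq_true hh; omega]
      show get _ _ (81 + k - 81) = _
      rw [Nat.add_sub_cancel_left]
    rw [e, ← nz_get_drop, nsy_drop, Nd.l_eq]
    obtain ⟨n, hn⟩ : ∃ n, n = d.nd R m (shq (m1 - m)) (chq (m1 - m)) := ⟨_, rfl⟩
    have hx := xl_encl m0 mm hq hv hc
    rw [← hn] at hx ⊢
    have hτ : n.τ = 1 - m / m1 := by rw [hn]; rfl
    have hRn : n.R = R := by rw [hn]; rfl
    match ss, hl with
    | a :: l, hl =>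
      match k, hi with
      | 0, _ =>
        show |n.τ - pval [⟨1, 0⟩, ⟨-1, 0⟩] (m / m1)| ≤ ((0 : ℕ) : ℝ) / 2 ^ 60
        rw [hτ]
        have : pval [⟨1, 0⟩, ⟨-1, 0⟩] (m / m1) = 1 - m / m1 := by
          simp only [pval, Fx.val]; push_cast; ring
        rw [this]; simp
      | 1, _ => exact hx 0 (by simp [Nd.xl])
      | 2, _ =>
        show |n.R - pval Rs.p (m / m1)| ≤ _
        rw [hRn, hR, sub_self, abs_zero]
        positivity
      | k + 3, hi =>
        have := hx (k + 1) (by simp [Nd.xl]; omega)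
        exact this

/-- **the near zone of the vertex `2`**, from the checks -/
theorem nz_final {d : VD} {μ R : ℝ} {q : List Tm} {P : List Op} {o : List Nat} {ss : List Sym}
    {S0 S2 : ℕ → Sym} {Rs : Sym} (hd : d.Ends)
    (hv : ∀ m, OutEq (run (realAlg (fun i => get 0 (l1n μ m) i) (m / m1) 0) P []) o
      (d.nd R m (shq (m1 - m)) (chq (m1 - m))).xl)
    (hc : nzChk (run (tmAlg (nq q)) P []) o ss = true) (hl : ss.length = 43)
    (hR : ∀ t, pval Rs.p t = R)
    (h2 : nzAll (fun i => nck2 (nS S0 Rs ss i) (S2 i)) 126 = true)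
    (hS2 : ∀ i, 126 ≤ i → S2 i = ⟨[], 0⟩)
    {Ua Ub : U3} {ga gb : Dg} {Va Vb : V3}
    (ha : posV Ua S2 kNa ga [0, 1] Va = true) (hb : posV Ub S2 kNb gb [0, 1] Vb = true)
    (za : ∀ t r s : ℝ, 3 / 4 ≤ t → t ≤ 1 → |r| ≤ 1 / 16 → 0 ≤ s → s ≤ 1 → (zz Ua Va).Mem t r s)
    (zb : ∀ t r s : ℝ, 3 / 4 ≤ t → t ≤ 1 → |r| ≤ 1 / 16 → 0 ≤ s → s ≤ 1 → (zz Ub Vb).Mem t r s)
    {m : ℝ} (m0 : 3 / 4 * m1 ≤ m) (mm : m ≤ m1)
    (hq : TmIn q (2 * (m / m1) - 1) (fun i => get 0 (l1 μ m) i))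
    (h81 : ∀ i < 81, |get 0 (nsy d R m) i - pval (S0 i).p (m / m1)| ≤ ((S0 i).eps : ℝ) / 2 ^ 60)
    {x : ℂ} (hx : |x.re| ≤ 1 / 16) (hy : |x.im| ≤ 1 / 16) : (d.pt m).FI R x 2 := by
  have hm := m1_bounds
  have hS := encl_change m0 mm
    (fun i hi => nS_encl (by linarith [hm.1]) mm hq (hv m) hc hl (hR _) h81 i hi) h2 hS2
  exact near_zone hd m0 mm hS ha hb za zb hx hy

end Pool.H61.Rh
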